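import Pool.Agent.H999.Ep3.Cert.V

/-!
# Certificate, part 265
-/

set_option autoImplicit false

namespace Pool.Agent.H999.Ep3

open Pool.Agent.H999.Theta3 (W)

/-- 119 tokens -/
def cd2525 : Nat := 0x2bb56c8132755200f4e75fa80201ab66a8b0a8349c88b692df688f9abd4555ab81a86af5150de5ddb0fb3ede6711ab66a8aab5703508b0a834988d9b354555ab81a843cf70b1f044012e5648fcd5b354555ab81a8458541a4c47cd5ea2a1bcbbb621d971b8da1eec261704356c8aab570308d90f3dc2c721eb56c8aab570308d5150de5ddb1f21d971b8da367a846da9081879b1c95b98d5e9e3cf47648357ad5ea4a799a9c83ef429f324cf8a7cc93264e8d2bca260c46ba803e6ca93248a82161d3a5c99183729b8e9d6e4c8647dbe07cd93349d49d51f3a4ca7cc0c984bcbdb4f806cf93236f46b71b3e4c757abb206af532a69f7851abd4c04b9f9586af52e2bfe9a712a4b589701b3d4b1f3721a0453a5cdb00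

theorem go2525 : go 60 0 w0 w12 w83 w276 w29 w18 cd2525 = 1 := by decide +kernel

end Pool.Agent.H999.Ep3
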