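import Pool.Agent.H999.Ep3.Eng
import Pool.Agent.H999.Ep3.Cert.P0
import Pool.Agent.H999.Ep3.Cert.P1
import Pool.Agent.H999.Ep3.Cert.P2
import Pool.Agent.H999.Ep3.Cert.P3
import Pool.Agent.H999.Ep3.Cert.P4
import Pool.Agent.H999.Ep3.Cert.P5
import Pool.Agent.H999.Ep3.Cert.P6
import Pool.Agent.H999.Ep3.Cert.P7
import Pool.Agent.H999.Ep3.Cert.P8
import Pool.Agent.H999.Ep3.Cert.P9
import Pool.Agent.H999.Ep3.Cert.P10
import Pool.Agent.H999.Ep3.Cert.P11
import Pool.Agent.H999.Ep3.Cert.P12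
import Pool.Agent.H999.Ep3.Cert.P13
import Pool.Agent.H999.Ep3.Cert.P14
import Pool.Agent.H999.Ep3.Cert.P15
import Pool.Agent.H999.Ep3.Cert.P16
import Pool.Agent.H999.Ep3.Cert.P17
import Pool.Agent.H999.Ep3.Cert.P18
import Pool.Agent.H999.Ep3.Cert.P19
import Pool.Agent.H999.Ep3.Cert.P20
import Pool.Agent.H999.Ep3.Cert.P21
import Pool.Agent.H999.Ep3.Cert.P22
import Pool.Agent.H999.Ep3.Cert.P23
import Pool.Agent.H999.Ep3.Cert.P24
import Pool.Agent.H999.Ep3.Cert.P25
import Pool.Agent.H999.Ep3.Cert.P26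
import Pool.Agent.H999.Ep3.Cert.P27
import Pool.Agent.H999.Ep3.Cert.P28
import Pool.Agent.H999.Ep3.Cert.P29
import Pool.Agent.H999.Ep3.Cert.P30
import Pool.Agent.H999.Ep3.Cert.P31
import Pool.Agent.H999.Ep3.Cert.P32
import Pool.Agent.H999.Ep3.Cert.P33
import Pool.Agent.H999.Ep3.Cert.P34
import Pool.Agent.H999.Ep3.Cert.P35
import Pool.Agent.H999.Ep3.Cert.P36
import Pool.Agent.H999.Ep3.Cert.P37
import Pool.Agent.H999.Ep3.Cert.P38
import Pool.Agent.H999.Ep3.Cert.P39
import Pool.Agent.H999.Ep3.Cert.P40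
import Pool.Agent.H999.Ep3.Cert.P41
import Pool.Agent.H999.Ep3.Cert.P42
import Pool.Agent.H999.Ep3.Cert.P43
import Pool.Agent.H999.Ep3.Cert.P44
import Pool.Agent.H999.Ep3.Cert.P45
import Pool.Agent.H999.Ep3.Cert.P46
import Pool.Agent.H999.Ep3.Cert.P47
import Pool.Agent.H999.Ep3.Cert.P48
import Pool.Agent.H999.Ep3.Cert.P49
import Pool.Agent.H999.Ep3.Cert.P50
import Pool.Agent.H999.Ep3.Cert.P51
import Pool.Agent.H999.Ep3.Cert.P52
import Pool.Agent.H999.Ep3.Cert.P53
import Pool.Agent.H999.Ep3.Cert.P54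
import Pool.Agent.H999.Ep3.Cert.P55
import Pool.Agent.H999.Ep3.Cert.P56
import Pool.Agent.H999.Ep3.Cert.P57
import Pool.Agent.H999.Ep3.Cert.P58
import Pool.Agent.H999.Ep3.Cert.P59
import Pool.Agent.H999.Ep3.Cert.P60
import Pool.Agent.H999.Ep3.Cert.P61
import Pool.Agent.H999.Ep3.Cert.P62
import Pool.Agent.H999.Ep3.Cert.P63
import Pool.Agent.H999.Ep3.Cert.P64
import Pool.Agent.H999.Ep3.Cert.P65
import Pool.Agent.H999.Ep3.Cert.P66
import Pool.Agent.H999.Ep3.Cert.P67
import Pool.Agent.H999.Ep3.Cert.P68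
import Pool.Agent.H999.Ep3.Cert.P69
import Pool.Agent.H999.Ep3.Cert.P70
import Pool.Agent.H999.Ep3.Cert.P71
import Pool.Agent.H999.Ep3.Cert.P72
import Pool.Agent.H999.Ep3.Cert.P73
import Pool.Agent.H999.Ep3.Cert.P74
import Pool.Agent.H999.Ep3.Cert.P75
import Pool.Agent.H999.Ep3.Cert.P76
import Pool.Agent.H999.Ep3.Cert.P77
import Pool.Agent.H999.Ep3.Cert.P78
import Pool.Agent.H999.Ep3.Cert.P79
import Pool.Agent.H999.Ep3.Cert.P80
import Pool.Agent.H999.Ep3.Cert.P81
import Pool.Agent.H999.Ep3.Cert.P82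
import Pool.Agent.H999.Ep3.Cert.P83
import Pool.Agent.H999.Ep3.Cert.P84
import Pool.Agent.H999.Ep3.Cert.P85
import Pool.Agent.H999.Ep3.Cert.P86
import Pool.Agent.H999.Ep3.Cert.P87
import Pool.Agent.H999.Ep3.Cert.P88
import Pool.Agent.H999.Ep3.Cert.P89
import Pool.Agent.H999.Ep3.Cert.P90
import Pool.Agent.H999.Ep3.Cert.P91
import Pool.Agent.H999.Ep3.Cert.P92
import Pool.Agent.H999.Ep3.Cert.P93
import Pool.Agent.H999.Ep3.Cert.P94
import Pool.Agent.H999.Ep3.Cert.P95
import Pool.Agent.H999.Ep3.Cert.P96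
import Pool.Agent.H999.Ep3.Cert.P97
import Pool.Agent.H999.Ep3.Cert.P98
import Pool.Agent.H999.Ep3.Cert.P99
import Pool.Agent.H999.Ep3.Cert.P100
import Pool.Agent.H999.Ep3.Cert.P101
import Pool.Agent.H999.Ep3.Cert.P102
import Pool.Agent.H999.Ep3.Cert.P103
import Pool.Agent.H999.Ep3.Cert.P104
import Pool.Agent.H999.Ep3.Cert.P105
import Pool.Agent.H999.Ep3.Cert.P106
import Pool.Agent.H999.Ep3.Cert.P107
import Pool.Agent.H999.Ep3.Cert.P108
import Pool.Agent.H999.Ep3.Cert.P109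
import Pool.Agent.H999.Ep3.Cert.P110
import Pool.Agent.H999.Ep3.Cert.P111
import Pool.Agent.H999.Ep3.Cert.P112
import Pool.Agent.H999.Ep3.Cert.P113
import Pool.Agent.H999.Ep3.Cert.P114
import Pool.Agent.H999.Ep3.Cert.P115
import Pool.Agent.H999.Ep3.Cert.P116
import Pool.Agent.H999.Ep3.Cert.P117
import Pool.Agent.H999.Ep3.Cert.P118
import Pool.Agent.H999.Ep3.Cert.P119
import Pool.Agent.H999.Ep3.Cert.P120
import Pool.Agent.H999.Ep3.Cert.P121
import Pool.Agent.H999.Ep3.Cert.P122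
import Pool.Agent.H999.Ep3.Cert.P123
import Pool.Agent.H999.Ep3.Cert.P124
import Pool.Agent.H999.Ep3.Cert.P125
import Pool.Agent.H999.Ep3.Cert.P126
import Pool.Agent.H999.Ep3.Cert.P127
import Pool.Agent.H999.Ep3.Cert.P128
import Pool.Agent.H999.Ep3.Cert.P129
import Pool.Agent.H999.Ep3.Cert.P130
import Pool.Agent.H999.Ep3.Cert.P131
import Pool.Agent.H999.Ep3.Cert.P132
import Pool.Agent.H999.Ep3.Cert.P133
import Pool.Agent.H999.Ep3.Cert.P134
import Pool.Agent.H999.Ep3.Cert.P135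
import Pool.Agent.H999.Ep3.Cert.P136
import Pool.Agent.H999.Ep3.Cert.P137
import Pool.Agent.H999.Ep3.Cert.P138
import Pool.Agent.H999.Ep3.Cert.P139
import Pool.Agent.H999.Ep3.Cert.P140
import Pool.Agent.H999.Ep3.Cert.P141
import Pool.Agent.H999.Ep3.Cert.P142
import Pool.Agent.H999.Ep3.Cert.P143
import Pool.Agent.H999.Ep3.Cert.P144
import Pool.Agent.H999.Ep3.Cert.P145
import Pool.Agent.H999.Ep3.Cert.P146
import Pool.Agent.H999.Ep3.Cert.P147
import Pool.Agent.H999.Ep3.Cert.P148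
import Pool.Agent.H999.Ep3.Cert.P149
import Pool.Agent.H999.Ep3.Cert.P150
import Pool.Agent.H999.Ep3.Cert.P151
import Pool.Agent.H999.Ep3.Cert.P152
import Pool.Agent.H999.Ep3.Cert.P153
import Pool.Agent.H999.Ep3.Cert.P154
import Pool.Agent.H999.Ep3.Cert.P155
import Pool.Agent.H999.Ep3.Cert.P156
import Pool.Agent.H999.Ep3.Cert.P157
import Pool.Agent.H999.Ep3.Cert.P158
import Pool.Agent.H999.Ep3.Cert.P159
import Pool.Agent.H999.Ep3.Cert.P160
import Pool.Agent.H999.Ep3.Cert.P161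
import Pool.Agent.H999.Ep3.Cert.P162
import Pool.Agent.H999.Ep3.Cert.P163
import Pool.Agent.H999.Ep3.Cert.P164
import Pool.Agent.H999.Ep3.Cert.P165
import Pool.Agent.H999.Ep3.Cert.P166
import Pool.Agent.H999.Ep3.Cert.P167
import Pool.Agent.H999.Ep3.Cert.P168
import Pool.Agent.H999.Ep3.Cert.P169
import Pool.Agent.H999.Ep3.Cert.P170
import Pool.Agent.H999.Ep3.Cert.P171
import Pool.Agent.H999.Ep3.Cert.P172
import Pool.Agent.H999.Ep3.Cert.P173
import Pool.Agent.H999.Ep3.Cert.P174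
import Pool.Agent.H999.Ep3.Cert.P175
import Pool.Agent.H999.Ep3.Cert.P176
import Pool.Agent.H999.Ep3.Cert.P177
import Pool.Agent.H999.Ep3.Cert.P178
import Pool.Agent.H999.Ep3.Cert.P179
import Pool.Agent.H999.Ep3.Cert.P180
import Pool.Agent.H999.Ep3.Cert.P181
import Pool.Agent.H999.Ep3.Cert.P182
import Pool.Agent.H999.Ep3.Cert.P183
import Pool.Agent.H999.Ep3.Cert.P184
import Pool.Agent.H999.Ep3.Cert.P185
import Pool.Agent.H999.Ep3.Cert.P186
import Pool.Agent.H999.Ep3.Cert.P187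
import Pool.Agent.H999.Ep3.Cert.P188
import Pool.Agent.H999.Ep3.Cert.P189
import Pool.Agent.H999.Ep3.Cert.P190
import Pool.Agent.H999.Ep3.Cert.P191
import Pool.Agent.H999.Ep3.Cert.P192
import Pool.Agent.H999.Ep3.Cert.P193
import Pool.Agent.H999.Ep3.Cert.P194
import Pool.Agent.H999.Ep3.Cert.P195
import Pool.Agent.H999.Ep3.Cert.P196
import Pool.Agent.H999.Ep3.Cert.P197
import Pool.Agent.H999.Ep3.Cert.P198
import Pool.Agent.H999.Ep3.Cert.P199
import Pool.Agent.H999.Ep3.Cert.P200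
import Pool.Agent.H999.Ep3.Cert.P201
import Pool.Agent.H999.Ep3.Cert.P202
import Pool.Agent.H999.Ep3.Cert.P203
import Pool.Agent.H999.Ep3.Cert.P204
import Pool.Agent.H999.Ep3.Cert.P205
import Pool.Agent.H999.Ep3.Cert.P206
import Pool.Agent.H999.Ep3.Cert.P207
import Pool.Agent.H999.Ep3.Cert.P208
import Pool.Agent.H999.Ep3.Cert.P209
import Pool.Agent.H999.Ep3.Cert.P210
import Pool.Agent.H999.Ep3.Cert.P211
import Pool.Agent.H999.Ep3.Cert.P212
import Pool.Agent.H999.Ep3.Cert.P213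
import Pool.Agent.H999.Ep3.Cert.P214
import Pool.Agent.H999.Ep3.Cert.P215
import Pool.Agent.H999.Ep3.Cert.P216
import Pool.Agent.H999.Ep3.Cert.P217
import Pool.Agent.H999.Ep3.Cert.P218
import Pool.Agent.H999.Ep3.Cert.P219
import Pool.Agent.H999.Ep3.Cert.P220
import Pool.Agent.H999.Ep3.Cert.P221
import Pool.Agent.H999.Ep3.Cert.P222
import Pool.Agent.H999.Ep3.Cert.P223
import Pool.Agent.H999.Ep3.Cert.P224
import Pool.Agent.H999.Ep3.Cert.P225
import Pool.Agent.H999.Ep3.Cert.P226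
import Pool.Agent.H999.Ep3.Cert.P227
import Pool.Agent.H999.Ep3.Cert.P228
import Pool.Agent.H999.Ep3.Cert.P229
import Pool.Agent.H999.Ep3.Cert.P230
import Pool.Agent.H999.Ep3.Cert.P231
import Pool.Agent.H999.Ep3.Cert.P232
import Pool.Agent.H999.Ep3.Cert.P233
import Pool.Agent.H999.Ep3.Cert.P234
import Pool.Agent.H999.Ep3.Cert.P235
import Pool.Agent.H999.Ep3.Cert.P236
import Pool.Agent.H999.Ep3.Cert.P237
import Pool.Agent.H999.Ep3.Cert.P238
import Pool.Agent.H999.Ep3.Cert.P239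
import Pool.Agent.H999.Ep3.Cert.P240
import Pool.Agent.H999.Ep3.Cert.P241
import Pool.Agent.H999.Ep3.Cert.P242
import Pool.Agent.H999.Ep3.Cert.P243
import Pool.Agent.H999.Ep3.Cert.P244
import Pool.Agent.H999.Ep3.Cert.P245
import Pool.Agent.H999.Ep3.Cert.P246
import Pool.Agent.H999.Ep3.Cert.P247
import Pool.Agent.H999.Ep3.Cert.P248
import Pool.Agent.H999.Ep3.Cert.P249
import Pool.Agent.H999.Ep3.Cert.P250
import Pool.Agent.H999.Ep3.Cert.P251
import Pool.Agent.H999.Ep3.Cert.P252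
import Pool.Agent.H999.Ep3.Cert.P253
import Pool.Agent.H999.Ep3.Cert.P254
import Pool.Agent.H999.Ep3.Cert.P255
import Pool.Agent.H999.Ep3.Cert.P256
import Pool.Agent.H999.Ep3.Cert.P257
import Pool.Agent.H999.Ep3.Cert.P258
import Pool.Agent.H999.Ep3.Cert.P259
import Pool.Agent.H999.Ep3.Cert.P260
import Pool.Agent.H999.Ep3.Cert.P261
import Pool.Agent.H999.Ep3.Cert.P262
import Pool.Agent.H999.Ep3.Cert.P263
import Pool.Agent.H999.Ep3.Cert.P264
import Pool.Agent.H999.Ep3.Cert.P265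

/-!
# Validity of the vertices and the top of the tree
-/

set_option autoImplicit false

namespace Pool.Agent.H999.Ep3

open Pool.Agent.H999.Theta3 (W Val val)

lemma x0 : val w0 = true := by decide +kernel
lemma x1 : val w1 = true := by decide +kernel
lemma x2 : val w2 = true := by decide +kernel
lemma x3 : val w3 = true := by decide +kernel
lemma x4 : val w4 = true := by decide +kernel
lemma x5 : val w5 = true := by decide +kernel
lemma x6 : val w6 = true := by decide +kernel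
lemma x7 : val w7 = true := by decide +kernel
lemma x8 : val w8 = true := by decide +kernel
lemma x9 : val w9 = true := by decide +kernel
lemma x10 : val w10 = true := by decide +kernel
lemma x11 : val w11 = true := by decide +kernel
lemma x12 : val w12 = true := by decide +kernel
lemma x13 : val w13 = true := by decide +kernel
lemma x14 : val w14 = true := by decide +kernel
lemma x15 : val w15 = true := by decide +kernel
lemma x16 : val w16 = true := by decide +kernel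
lemma x17 : val w17 = true := by decide +kernel
lemma x18 : val w18 = true := by decide +kernel
lemma x19 : val w19 = true := by decide +kernel
lemma x20 : val w20 = true := by decide +kernel
lemma x21 : val w21 = true := by decide +kernel
lemma x22 : val w22 = true := by decide +kernel
lemma x23 : val w23 = true := by decide +kernel
lemma x24 : val w24 = true := by decide +kernel
lemma x25 : val w25 = true := by decide +kernel
lemma x26 : val w26 = true := by decide +kernel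
lemma x27 : val w27 = true := by decide +kernel
lemma x28 : val w28 = true := by decide +kernel
lemma x29 : val w29 = true := by decide +kernel
lemma x30 : val w30 = true := by decide +kernel
lemma x31 : val w31 = true := by decide +kernel
lemma x32 : val w32 = true := by decide +kernel
lemma x33 : val w33 = true := by decide +kernel
lemma x34 : val w34 = true := by decide +kernel
lemma x35 : val w35 = true := by decide +kernel
lemma x36 : val w36 = true := by decide +kernel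
lemma x37 : val w37 = true := by decide +kernel
lemma x38 : val w38 = true := by decide +kernel
lemma x39 : val w39 = true := by decide +kernel
lemma x40 : val w40 = true := by decide +kernel
lemma x41 : val w41 = true := by decide +kernel
lemma x42 : val w42 = true := by decide +kernel
lemma x43 : val w43 = true := by decide +kernel
lemma x44 : val w44 = true := by decide +kernel
lemma x45 : val w45 = true := by decide +kernel
lemma x46 : val w46 = true := by decide +kernel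
lemma x47 : val w47 = true := by decide +kernel
lemma x48 : val w48 = true := by decide +kernel
lemma x49 : val w49 = true := by decide +kernel
lemma x50 : val w50 = true := by decide +kernel
lemma x51 : val w51 = true := by decide +kernel
lemma x52 : val w52 = true := by decide +kernel
lemma x53 : val w53 = true := by decide +kernel
lemma x54 : val w54 = true := by decide +kernel
lemma x55 : val w55 = true := by decide +kernel
lemma x56 : val w56 = true := by decide +kernel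
lemma x57 : val w57 = true := by decide +kernel
lemma x58 : val w58 = true := by decide +kernel
lemma x59 : val w59 = true := by decide +kernel
lemma x60 : val w60 = true := by decide +kernel
lemma x61 : val w61 = true := by decide +kernel
lemma x62 : val w62 = true := by decide +kernel
lemma x63 : val w63 = true := by decide +kernel
lemma x64 : val w64 = true := by decide +kernel
lemma x65 : val w65 = true := by decide +kernel
lemma x66 : val w66 = true := by decide +kernel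
lemma x67 : val w67 = true := by decide +kernel
lemma x68 : val w68 = true := by decide +kernel
lemma x69 : val w69 = true := by decide +kernel
lemma x70 : val w70 = true := by decide +kernel
lemma x71 : val w71 = true := by decide +kernel
lemma x72 : val w72 = true := by decide +kernel
lemma x73 : val w73 = true := by decide +kernel
lemma x74 : val w74 = true := by decide +kernel
lemma x75 : val w75 = true := by decide +kernel
lemma x76 : val w76 = true := by decide +kernel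
lemma x77 : val w77 = true := by decide +kernel
lemma x78 : val w78 = true := by decide +kernel
lemma x79 : val w79 = true := by decide +kernel
lemma x80 : val w80 = true := by decide +kernel
lemma x81 : val w81 = true := by decide +kernel
lemma x82 : val w82 = true := by decide +kernel
lemma x83 : val w83 = true := by decide +kernel
lemma x84 : val w84 = true := by decide +kernel
lemma x85 : val w85 = true := by decide +kernel
lemma x86 : val w86 = true := by decide +kernel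
lemma x87 : val w87 = true := by decide +kernel
lemma x88 : val w88 = true := by decide +kernel
lemma x89 : val w89 = true := by decide +kernel
lemma x90 : val w90 = true := by decide +kernel
lemma x91 : val w91 = true := by decide +kernel
lemma x92 : val w92 = true := by decide +kernel
lemma x93 : val w93 = true := by decide +kernel
lemma x94 : val w94 = true := by decide +kernel
lemma x95 : val w95 = true := by decide +kernel
lemma x96 : val w96 = true := by decide +kernel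
lemma x97 : val w97 = true := by decide +kernel
lemma x98 : val w98 = true := by decide +kernel
lemma x99 : val w99 = true := by decide +kernel
lemma x100 : val w100 = true := by decide +kernel
lemma x101 : val w101 = true := by decide +kernel
lemma x102 : val w102 = true := by decide +kernel
lemma x103 : val w103 = true := by decide +kernel
lemma x104 : val w104 = true := by decide +kernel
lemma x105 : val w105 = true := by decide +kernel
lemma x106 : val w106 = true := by decide +kernel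
lemma x107 : val w107 = true := by decide +kernel
lemma x108 : val w108 = true := by decide +kernel
lemma x109 : val w109 = true := by decide +kernel
lemma x110 : val w110 = true := by decide +kernel
lemma x111 : val w111 = true := by decide +kernel
lemma x112 : val w112 = true := by decide +kernel
lemma x113 : val w113 = true := by decide +kernel
lemma x114 : val w114 = true := by decide +kernel
lemma x115 : val w115 = true := by decide +kernel
lemma x116 : val w116 = true := by decide +kernel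
lemma x117 : val w117 = true := by decide +kernel
lemma x118 : val w118 = true := by decide +kernel
lemma x119 : val w119 = true := by decide +kernel
lemma x120 : val w120 = true := by decide +kernel
lemma x121 : val w121 = true := by decide +kernel
lemma x122 : val w122 = true := by decide +kernel
lemma x123 : val w123 = true := by decide +kernel
lemma x124 : val w124 = true := by decide +kernel
lemma x125 : val w125 = true := by decide +kernel
lemma x126 : val w126 = true := by decide +kernel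
lemma x127 : val w127 = true := by decide +kernel
lemma x128 : val w128 = true := by decide +kernel
lemma x129 : val w129 = true := by decide +kernel
lemma x130 : val w130 = true := by decide +kernel
lemma x131 : val w131 = true := by decide +kernel
lemma x132 : val w132 = true := by decide +kernel
lemma x133 : val w133 = true := by decide +kernel
lemma x134 : val w134 = true := by decide +kernel
lemma x135 : val w135 = true := by decide +kernel
lemma x136 : val w136 = true := by decide +kernel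
lemma x137 : val w137 = true := by decide +kernel
lemma x138 : val w138 = true := by decide +kernel
lemma x139 : val w139 = true := by decide +kernel
lemma x140 : val w140 = true := by decide +kernel
lemma x141 : val w141 = true := by decide +kernel
lemma x142 : val w142 = true := by decide +kernel
lemma x143 : val w143 = true := by decide +kernel
lemma x144 : val w144 = true := by decide +kernel
lemma x145 : val w145 = true := by decide +kernel
lemma x146 : val w146 = true := by decide +kernel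
lemma x147 : val w147 = true := by decide +kernel
lemma x148 : val w148 = true := by decide +kernel
lemma x149 : val w149 = true := by decide +kernel
lemma x150 : val w150 = true := by decide +kernel
lemma x151 : val w151 = true := by decide +kernel
lemma x152 : val w152 = true := by decide +kernel
lemma x153 : val w153 = true := by decide +kernel
lemma x154 : val w154 = true := by decide +kernel
lemma x155 : val w155 = true := by decide +kernel
lemma x156 : val w156 = true := by decide +kernel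
lemma x157 : val w157 = true := by decide +kernel
lemma x158 : val w158 = true := by decide +kernel
lemma x159 : val w159 = true := by decide +kernel
lemma x160 : val w160 = true := by decide +kernel
lemma x161 : val w161 = true := by decide +kernel
lemma x162 : val w162 = true := by decide +kernel
lemma x163 : val w163 = true := by decide +kernel
lemma x164 : val w164 = true := by decide +kernel
lemma x165 : val w165 = true := by decide +kernel
lemma x166 : val w166 = true := by decide +kernel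
lemma x167 : val w167 = true := by decide +kernel
lemma x168 : val w168 = true := by decide +kernel
lemma x169 : val w169 = true := by decide +kernel
lemma x170 : val w170 = true := by decide +kernel
lemma x171 : val w171 = true := by decide +kernel
lemma x172 : val w172 = true := by decide +kernel
lemma x173 : val w173 = true := by decide +kernel
lemma x174 : val w174 = true := by decide +kernel
lemma x175 : val w175 = true := by decide +kernel
lemma x176 : val w176 = true := by decide +kernel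
lemma x177 : val w177 = true := by decide +kernel
lemma x178 : val w178 = true := by decide +kernel
lemma x179 : val w179 = true := by decide +kernel
lemma x180 : val w180 = true := by decide +kernel
lemma x181 : val w181 = true := by decide +kernel
lemma x182 : val w182 = true := by decide +kernel
lemma x183 : val w183 = true := by decide +kernel
lemma x184 : val w184 = true := by decide +kernel
lemma x185 : val w185 = true := by decide +kernel
lemma x186 : val w186 = true := by decide +kernel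
lemma x187 : val w187 = true := by decide +kernel
lemma x188 : val w188 = true := by decide +kernel
lemma x189 : val w189 = true := by decide +kernel
lemma x190 : val w190 = true := by decide +kernel
lemma x191 : val w191 = true := by decide +kernel
lemma x192 : val w192 = true := by decide +kernel
lemma x193 : val w193 = true := by decide +kernel
lemma x194 : val w194 = true := by decide +kernel
lemma x195 : val w195 = true := by decide +kernel
lemma x196 : val w196 = true := by decide +kernel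
lemma x197 : val w197 = true := by decide +kernel
lemma x198 : val w198 = true := by decide +kernel
lemma x199 : val w199 = true := by decide +kernel
lemma x200 : val w200 = true := by decide +kernel
lemma x201 : val w201 = true := by decide +kernel
lemma x202 : val w202 = true := by decide +kernel
lemma x203 : val w203 = true := by decide +kernel
lemma x204 : val w204 = true := by decide +kernel
lemma x205 : val w205 = true := by decide +kernel
lemma x206 : val w206 = true := by decide +kernel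
lemma x207 : val w207 = true := by decide +kernel
lemma x208 : val w208 = true := by decide +kernel
lemma x209 : val w209 = true := by decide +kernel
lemma x210 : val w210 = true := by decide +kernel
lemma x211 : val w211 = true := by decide +kernel
lemma x212 : val w212 = true := by decide +kernel
lemma x213 : val w213 = true := by decide +kernel
lemma x214 : val w214 = true := by decide +kernel
lemma x215 : val w215 = true := by decide +kernel
lemma x216 : val w216 = true := by decide +kernel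
lemma x217 : val w217 = true := by decide +kernel
lemma x218 : val w218 = true := by decide +kernel
lemma x219 : val w219 = true := by decide +kernel
lemma x220 : val w220 = true := by decide +kernel
lemma x221 : val w221 = true := by decide +kernel
lemma x222 : val w222 = true := by decide +kernel
lemma x223 : val w223 = true := by decide +kernel
lemma x224 : val w224 = true := by decide +kernel
lemma x225 : val w225 = true := by decide +kernel
lemma x226 : val w226 = true := by decide +kernel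
lemma x227 : val w227 = true := by decide +kernel
lemma x228 : val w228 = true := by decide +kernel
lemma x229 : val w229 = true := by decide +kernel
lemma x230 : val w230 = true := by decide +kernel
lemma x231 : val w231 = true := by decide +kernel
lemma x232 : val w232 = true := by decide +kernel
lemma x233 : val w233 = true := by decide +kernel
lemma x234 : val w234 = true := by decide +kernel
lemma x235 : val w235 = true := by decide +kernel
lemma x236 : val w236 = true := by decide +kernel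
lemma x237 : val w237 = true := by decide +kernel
lemma x238 : val w238 = true := by decide +kernel
lemma x239 : val w239 = true := by decide +kernel
lemma x240 : val w240 = true := by decide +kernel
lemma x241 : val w241 = true := by decide +kernel
lemma x242 : val w242 = true := by decide +kernel
lemma x243 : val w243 = true := by decide +kernel
lemma x244 : val w244 = true := by decide +kernel
lemma x245 : val w245 = true := by decide +kernel
lemma x246 : val w246 = true := by decide +kernel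
lemma x247 : val w247 = true := by decide +kernel
lemma x248 : val w248 = true := by decide +kernel
lemma x249 : val w249 = true := by decide +kernel
lemma x250 : val w250 = true := by decide +kernel
lemma x251 : val w251 = true := by decide +kernel
lemma x252 : val w252 = true := by decide +kernel
lemma x253 : val w253 = true := by decide +kernel
lemma x254 : val w254 = true := by decide +kernel
lemma x255 : val w255 = true := by decide +kernel
lemma x256 : val w256 = true := by decide +kernel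
lemma x257 : val w257 = true := by decide +kernel
lemma x258 : val w258 = true := by decide +kernel
lemma x259 : val w259 = true := by decide +kernel
lemma x260 : val w260 = true := by decide +kernel
lemma x261 : val w261 = true := by decide +kernel
lemma x262 : val w262 = true := by decide +kernel
lemma x263 : val w263 = true := by decide +kernel
lemma x264 : val w264 = true := by decide +kernel
lemma x265 : val w265 = true := by decide +kernel
lemma x266 : val w266 = true := by decide +kernel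
lemma x267 : val w267 = true := by decide +kernel
lemma x268 : val w268 = true := by decide +kernel
lemma x269 : val w269 = true := by decide +kernel
lemma x270 : val w270 = true := by decide +kernel
lemma x271 : val w271 = true := by decide +kernel
lemma x272 : val w272 = true := by decide +kernel
lemma x273 : val w273 = true := by decide +kernel
lemma x274 : val w274 = true := by decide +kernel
lemma x275 : val w275 = true := by decide +kernel
lemma x276 : val w276 = true := by decide +kernel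
lemma x277 : val w277 = true := by decide +kernel
lemma x278 : val w278 = true := by decide +kernel
lemma x279 : val w279 = true := by decide +kernel
lemma x280 : val w280 = true := by decide +kernel
lemma x281 : val w281 = true := by decide +kernel
lemma x282 : val w282 = true := by decide +kernel
lemma x283 : val w283 = true := by decide +kernel
lemma x284 : val w284 = true := by decide +kernel
lemma x285 : val w285 = true := by decide +kernel
lemma x286 : val w286 = true := by decide +kernel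
lemma x287 : val w287 = true := by decide +kernel
lemma x288 : val w288 = true := by decide +kernel
lemma x289 : val w289 = true := by decide +kernel
lemma x290 : val w290 = true := by decide +kernel
lemma x291 : val w291 = true := by decide +kernel
lemma x292 : val w292 = true := by decide +kernel
lemma x293 : val w293 = true := by decide +kernel
lemma x294 : val w294 = true := by decide +kernel
lemma x295 : val w295 = true := by decide +kernel
lemma x296 : val w296 = true := by decide +kernel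
lemma x297 : val w297 = true := by decide +kernel
lemma x298 : val w298 = true := by decide +kernel
lemma x299 : val w299 = true := by decide +kernel
lemma x300 : val w300 = true := by decide +kernel
lemma x301 : val w301 = true := by decide +kernel
lemma x302 : val w302 = true := by decide +kernel
lemma x303 : val w303 = true := by decide +kernel
lemma x304 : val w304 = true := by decide +kernel
lemma x305 : val w305 = true := by decide +kernel
lemma x306 : val w306 = true := by decide +kernel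
lemma x307 : val w307 = true := by decide +kernel
lemma x308 : val w308 = true := by decide +kernel

lemma ch0 (hTd : TdOK) : Good 0 ![w0, w1, w2, w3, w4, w5] :=
  good_of hTd _ _ _ _ _ _ _ x0 x1 x2 x3 x4 x5 go0
lemma ch1 (hTd : TdOK) : Good 0 ![w0, w6, w2, w3, w4, w1] :=
  good_of hTd _ _ _ _ _ _ _ x0 x6 x2 x3 x4 x1 go1
lemma ch2 (hTd : TdOK) : Good 0 ![w0, w7, w2, w3, w4, w8] :=
  good_of hTd _ _ _ _ _ _ _ x0 x7 x2 x3 x4 x8 go2
lemma ch3 (hTd : TdOK) : Good 0 ![w0, w9, w2, w3, w4, w7] :=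
  good_of hTd _ _ _ _ _ _ _ x0 x9 x2 x3 x4 x7 go3
lemma ch4 (hTd : TdOK) : Good 0 ![w0, w6, w2, w3, w9, w7] :=
  good_of hTd _ _ _ _ _ _ _ x0 x6 x2 x3 x9 x7 go4
lemma ch5 (hTd : TdOK) : Good 0 ![w10, w11, w2, w3, w4, w5] :=
  good_of hTd _ _ _ _ _ _ _ x10 x11 x2 x3 x4 x5 go5
lemma ch6 (hTd : TdOK) : Good 0 ![w10, w12, w2, w11, w4, w5] :=
  good_of hTd _ _ _ _ _ _ _ x10 x12 x2 x11 x4 x5 go6
lemma ch7 (hTd : TdOK) : Good 0 ![w13, w14, w2, w10, w4, w5] :=
  good_of hTd _ _ _ _ _ _ _ x13 x14 x2 x10 x4 x5 go7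
lemma ch8 (hTd : TdOK) : Good 0 ![w13, w15, w2, w10, w14, w5] :=
  good_of hTd _ _ _ _ _ _ _ x13 x15 x2 x10 x14 x5 go8
lemma ch9 (hTd : TdOK) : Good 0 ![w13, w12, w15, w16, w14, w5] :=
  good_of hTd _ _ _ _ _ _ _ x13 x12 x15 x16 x14 x5 go9
lemma ch10 (hTd : TdOK) : Good 0 ![w13, w12, w15, w10, w14, w16] :=
  good_of hTd _ _ _ _ _ _ _ x13 x12 x15 x10 x14 x16 go10
lemma ch11 (hTd : TdOK) : Good 0 ![w17, w12, w2, w10, w4, w13] :=
  good_of hTd _ _ _ _ _ _ _ x17 x12 x2 x10 x4 x13 go11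
lemma ch12 (hTd : TdOK) : Good 0 ![w0, w12, w2, w10, w17, w13] :=
  good_of hTd _ _ _ _ _ _ _ x0 x12 x2 x10 x17 x13 go12
lemma ch13 (hTd : TdOK) : Good 0 ![w10, w12, w2, w3, w4, w8] :=
  good_of hTd _ _ _ _ _ _ _ x10 x12 x2 x3 x4 x8 go13
lemma ch14 (hTd : TdOK) : Good 0 ![w18, w12, w2, w10, w4, w8] :=
  good_of hTd _ _ _ _ _ _ _ x18 x12 x2 x10 x4 x8 go14
lemma ch15 (hTd : TdOK) : Good 0 ![w17, w12, w2, w10, w4, w18] :=
  good_of hTd _ _ _ _ _ _ _ x17 x12 x2 x10 x4 x18 go15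
lemma ch16 (hTd : TdOK) : Good 0 ![w0, w12, w2, w10, w17, w18] :=
  good_of hTd _ _ _ _ _ _ _ x0 x12 x2 x10 x17 x18 go16
lemma ch17 (hTd : TdOK) : Good 0 ![w10, w11, w19, w3, w4, w5] :=
  good_of hTd _ _ _ _ _ _ _ x10 x11 x19 x3 x4 x5 go17
lemma ch18 (hTd : TdOK) : Good 0 ![w10, w12, w19, w11, w4, w5] :=
  good_of hTd _ _ _ _ _ _ _ x10 x12 x19 x11 x4 x5 go18
lemma ch19 (hTd : TdOK) : Good 0 ![w20, w14, w19, w10, w4, w5] :=
  good_of hTd _ _ _ _ _ _ _ x20 x14 x19 x10 x4 x5 go19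
lemma ch20 (hTd : TdOK) : Good 0 ![w20, w12, w21, w10, w14, w5] :=
  good_of hTd _ _ _ _ _ _ _ x20 x12 x21 x10 x14 x5 go20
lemma ch21 (hTd : TdOK) : Good 0 ![w20, w12, w19, w21, w14, w5] :=
  good_of hTd _ _ _ _ _ _ _ x20 x12 x19 x21 x14 x5 go21
lemma ch22 (hTd : TdOK) : Good 0 ![w13, w12, w19, w10, w20, w5] :=
  good_of hTd _ _ _ _ _ _ _ x13 x12 x19 x10 x20 x5 go22
lemma ch23 (hTd : TdOK) : Good 0 ![w17, w12, w19, w10, w4, w13] :=
  good_of hTd _ _ _ _ _ _ _ x17 x12 x19 x10 x4 x13 go23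
lemma ch24 (hTd : TdOK) : Good 0 ![w0, w12, w19, w10, w17, w13] :=
  good_of hTd _ _ _ _ _ _ _ x0 x12 x19 x10 x17 x13 go24
lemma ch25 (hTd : TdOK) : Good 0 ![w10, w12, w19, w3, w4, w8] :=
  good_of hTd _ _ _ _ _ _ _ x10 x12 x19 x3 x4 x8 go25
lemma ch26 (hTd : TdOK) : Good 0 ![w18, w12, w19, w10, w4, w8] :=
  good_of hTd _ _ _ _ _ _ _ x18 x12 x19 x10 x4 x8 go26
lemma ch27 (hTd : TdOK) : Good 0 ![w17, w12, w19, w10, w4, w18] :=
  good_of hTd _ _ _ _ _ _ _ x17 x12 x19 x10 x4 x18 go27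
lemma ch28 (hTd : TdOK) : Good 0 ![w0, w12, w19, w10, w17, w18] :=
  good_of hTd _ _ _ _ _ _ _ x0 x12 x19 x10 x17 x18 go28
lemma ch29 (hTd : TdOK) : Good 0 ![w20, w12, w19, w22, w4, w5] :=
  good_of hTd _ _ _ _ _ _ _ x20 x12 x19 x22 x4 x5 go29
lemma ch30 (hTd : TdOK) : Good 0 ![w13, w12, w19, w22, w20, w5] :=
  good_of hTd _ _ _ _ _ _ _ x13 x12 x19 x22 x20 x5 go30
lemma ch31 (hTd : TdOK) : Good 0 ![w17, w12, w19, w22, w4, w13] :=
  good_of hTd _ _ _ _ _ _ _ x17 x12 x19 x22 x4 x13 go31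
lemma ch32 (hTd : TdOK) : Good 0 ![w23, w12, w19, w22, w17, w13] :=
  good_of hTd _ _ _ _ _ _ _ x23 x12 x19 x22 x17 x13 go32
lemma ch33 (hTd : TdOK) : Good 0 ![w0, w12, w19, w23, w17, w13] :=
  good_of hTd _ _ _ _ _ _ _ x0 x12 x19 x23 x17 x13 go33
lemma ch34 (hTd : TdOK) : Good 0 ![w18, w12, w19, w22, w4, w8] :=
  good_of hTd _ _ _ _ _ _ _ x18 x12 x19 x22 x4 x8 go34
lemma ch35 (hTd : TdOK) : Good 0 ![w17, w12, w19, w22, w4, w18] :=
  good_of hTd _ _ _ _ _ _ _ x17 x12 x19 x22 x4 x18 go35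
lemma ch36 (hTd : TdOK) : Good 0 ![w23, w12, w19, w22, w17, w18] :=
  good_of hTd _ _ _ _ _ _ _ x23 x12 x19 x22 x17 x18 go36
lemma ch37 (hTd : TdOK) : Good 0 ![w0, w12, w19, w23, w17, w18] :=
  good_of hTd _ _ _ _ _ _ _ x0 x12 x19 x23 x17 x18 go37
lemma ch38 (hTd : TdOK) : Good 0 ![w24, w12, w19, w22, w25, w5] :=
  good_of hTd _ _ _ _ _ _ _ x24 x12 x19 x22 x25 x5 go38
lemma ch39 (hTd : TdOK) : Good 0 ![w26, w12, w19, w22, w24, w5] :=
  good_of hTd _ _ _ _ _ _ _ x26 x12 x19 x22 x24 x5 go39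
lemma ch40 (hTd : TdOK) : Good 0 ![w13, w12, w26, w22, w24, w5] :=
  good_of hTd _ _ _ _ _ _ _ x13 x12 x26 x22 x24 x5 go40
lemma ch41 (hTd : TdOK) : Good 0 ![w27, w12, w26, w22, w24, w13] :=
  good_of hTd _ _ _ _ _ _ _ x27 x12 x26 x22 x24 x13 go41
lemma ch42 (hTd : TdOK) : Good 0 ![w27, w12, w19, w22, w24, w26] :=
  good_of hTd _ _ _ _ _ _ _ x27 x12 x19 x22 x24 x26 go42
lemma ch43 (hTd : TdOK) : Good 0 ![w27, w12, w19, w22, w25, w24] :=
  good_of hTd _ _ _ _ _ _ _ x27 x12 x19 x22 x25 x24 go43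
lemma ch44 (hTd : TdOK) : Good 0 ![w23, w12, w19, w22, w27, w13] :=
  good_of hTd _ _ _ _ _ _ _ x23 x12 x19 x22 x27 x13 go44
lemma ch45 (hTd : TdOK) : Good 0 ![w0, w12, w19, w23, w27, w13] :=
  good_of hTd _ _ _ _ _ _ _ x0 x12 x19 x23 x27 x13 go45
lemma ch46 (hTd : TdOK) : Good 0 ![w18, w12, w19, w22, w28, w8] :=
  good_of hTd _ _ _ _ _ _ _ x18 x12 x19 x22 x28 x8 go46
lemma ch47 (hTd : TdOK) : Good 0 ![w29, w30, w19, w22, w28, w18] :=
  good_of hTd _ _ _ _ _ _ _ x29 x30 x19 x22 x28 x18 go47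
lemma ch48 (hTd : TdOK) : Good 0 ![w29, w12, w31, w22, w30, w18] :=
  good_of hTd _ _ _ _ _ _ _ x29 x12 x31 x22 x30 x18 go48
lemma ch49 (hTd : TdOK) : Good 0 ![w29, w12, w19, w22, w30, w31] :=
  good_of hTd _ _ _ _ _ _ _ x29 x12 x19 x22 x30 x31 go49
lemma ch50 (hTd : TdOK) : Good 0 ![w23, w12, w19, w22, w29, w18] :=
  good_of hTd _ _ _ _ _ _ _ x23 x12 x19 x22 x29 x18 go50
lemma ch51 (hTd : TdOK) : Good 0 ![w0, w12, w19, w23, w29, w18] :=
  good_of hTd _ _ _ _ _ _ _ x0 x12 x19 x23 x29 x18 go51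
lemma ch52 (hTd : TdOK) : Good 0 ![w0, w6, w2, w32, w4, w5] :=
  good_of hTd _ _ _ _ _ _ _ x0 x6 x2 x32 x4 x5 go52
lemma ch53 (hTd : TdOK) : Good 0 ![w0, w7, w2, w32, w4, w8] :=
  good_of hTd _ _ _ _ _ _ _ x0 x7 x2 x32 x4 x8 go53
lemma ch54 (hTd : TdOK) : Good 0 ![w0, w6, w2, w32, w4, w7] :=
  good_of hTd _ _ _ _ _ _ _ x0 x6 x2 x32 x4 x7 go54
lemma ch55 (hTd : TdOK) : Good 0 ![w13, w12, w2, w32, w4, w5] :=
  good_of hTd _ _ _ _ _ _ _ x13 x12 x2 x32 x4 x5 go55
lemma ch56 (hTd : TdOK) : Good 0 ![w17, w12, w2, w32, w4, w13] :=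
  good_of hTd _ _ _ _ _ _ _ x17 x12 x2 x32 x4 x13 go56
lemma ch57 (hTd : TdOK) : Good 0 ![w33, w12, w2, w32, w17, w13] :=
  good_of hTd _ _ _ _ _ _ _ x33 x12 x2 x32 x17 x13 go57
lemma ch58 (hTd : TdOK) : Good 0 ![w0, w12, w2, w33, w17, w13] :=
  good_of hTd _ _ _ _ _ _ _ x0 x12 x2 x33 x17 x13 go58
lemma ch59 (hTd : TdOK) : Good 0 ![w18, w12, w2, w32, w4, w8] :=
  good_of hTd _ _ _ _ _ _ _ x18 x12 x2 x32 x4 x8 go59
lemma ch60 (hTd : TdOK) : Good 0 ![w17, w12, w2, w32, w4, w18] :=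
  good_of hTd _ _ _ _ _ _ _ x17 x12 x2 x32 x4 x18 go60
lemma ch61 (hTd : TdOK) : Good 0 ![w33, w12, w2, w32, w17, w18] :=
  good_of hTd _ _ _ _ _ _ _ x33 x12 x2 x32 x17 x18 go61
lemma ch62 (hTd : TdOK) : Good 0 ![w0, w12, w2, w33, w17, w18] :=
  good_of hTd _ _ _ _ _ _ _ x0 x12 x2 x33 x17 x18 go62
lemma ch63 (hTd : TdOK) : Good 0 ![w13, w14, w34, w32, w4, w5] :=
  good_of hTd _ _ _ _ _ _ _ x13 x14 x34 x32 x4 x5 go63
lemma ch64 (hTd : TdOK) : Good 0 ![w13, w35, w34, w32, w14, w5] :=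
  good_of hTd _ _ _ _ _ _ _ x13 x35 x34 x32 x14 x5 go64
lemma ch65 (hTd : TdOK) : Good 0 ![w36, w37, w34, w32, w14, w35] :=
  good_of hTd _ _ _ _ _ _ _ x36 x37 x34 x32 x14 x35 go65
lemma ch66 (hTd : TdOK) : Good 0 ![w38, w39, w34, w37, w14, w35] :=
  good_of hTd _ _ _ _ _ _ _ x38 x39 x34 x37 x14 x35 go66
lemma ch67 (hTd : TdOK) : Good 0 ![w38, w40, w34, w37, w39, w35] :=
  good_of hTd _ _ _ _ _ _ _ x38 x40 x34 x37 x39 x35 go67
lemma ch68 (hTd : TdOK) : Good 0 ![w38, w41, w34, w37, w39, w40] :=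
  good_of hTd _ _ _ _ _ _ _ x38 x41 x34 x37 x39 x40 go68
lemma ch69 (hTd : TdOK) : Good 0 ![w42, w43, w44, w41, w39, w40] :=
  good_of hTd _ _ _ _ _ _ _ x42 x43 x44 x41 x39 x40 go69
lemma ch70 (hTd : TdOK) : Good 0 ![w42, w45, w44, w41, w39, w43] :=
  good_of hTd _ _ _ _ _ _ _ x42 x45 x44 x41 x39 x43 go70
lemma ch71 (hTd : TdOK) : Good 0 ![w42, w12, w45, w41, w39, w43] :=
  good_of hTd _ _ _ _ _ _ _ x42 x12 x45 x41 x39 x43 go71
lemma ch72 (hTd : TdOK) : Good 0 ![w46, w42, w44, w41, w39, w40] :=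
  good_of hTd _ _ _ _ _ _ _ x46 x42 x44 x41 x39 x40 go72
lemma ch73 (hTd : TdOK) : Good 0 ![w46, w47, w48, w41, w39, w44] :=
  good_of hTd _ _ _ _ _ _ _ x46 x47 x48 x41 x39 x44 go73
lemma ch74 (hTd : TdOK) : Good 0 ![w46, w47, w49, w41, w48, w44] :=
  good_of hTd _ _ _ _ _ _ _ x46 x47 x49 x41 x48 x44 go74
lemma ch75 (hTd : TdOK) : Good 0 ![w46, w47, w50, w49, w48, w44] :=
  good_of hTd _ _ _ _ _ _ _ x46 x47 x50 x49 x48 x44 go75
lemma ch76 (hTd : TdOK) : Good 0 ![w51, w52, w53, w49, w48, w50] :=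
  good_of hTd _ _ _ _ _ _ _ x51 x52 x53 x49 x48 x50 go76
lemma ch77 (hTd : TdOK) : Good 0 ![w51, w52, w54, w49, w53, w50] :=
  good_of hTd _ _ _ _ _ _ _ x51 x52 x54 x49 x53 x50 go77
lemma ch78 (hTd : TdOK) : Good 0 ![w51, w52, w34, w54, w53, w50] :=
  good_of hTd _ _ _ _ _ _ _ x51 x52 x34 x54 x53 x50 go78
lemma ch79 (hTd : TdOK) : Good 0 ![w46, w52, w51, w49, w48, w50] :=
  good_of hTd _ _ _ _ _ _ _ x46 x52 x51 x49 x48 x50 go79
lemma ch80 (hTd : TdOK) : Good 0 ![w46, w47, w52, w49, w48, w50] :=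
  good_of hTd _ _ _ _ _ _ _ x46 x47 x52 x49 x48 x50 go80
lemma ch81 (hTd : TdOK) : Good 0 ![w42, w45, w47, w41, w39, w44] :=
  good_of hTd _ _ _ _ _ _ _ x42 x45 x47 x41 x39 x44 go81
lemma ch82 (hTd : TdOK) : Good 0 ![w42, w55, w47, w41, w39, w45] :=
  good_of hTd _ _ _ _ _ _ _ x42 x55 x47 x41 x39 x45 go82
lemma ch83 (hTd : TdOK) : Good 0 ![w42, w56, w47, w41, w55, w45] :=
  good_of hTd _ _ _ _ _ _ _ x42 x56 x47 x41 x55 x45 go83
lemma ch84 (hTd : TdOK) : Good 0 ![w42, w57, w47, w56, w55, w45] :=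
  good_of hTd _ _ _ _ _ _ _ x42 x57 x47 x56 x55 x45 go84
lemma ch85 (hTd : TdOK) : Good 0 ![w42, w12, w57, w56, w55, w45] :=
  good_of hTd _ _ _ _ _ _ _ x42 x12 x57 x56 x55 x45 go85
lemma ch86 (hTd : TdOK) : Good 0 ![w46, w42, w47, w41, w39, w44] :=
  good_of hTd _ _ _ _ _ _ _ x46 x42 x47 x41 x39 x44 go86
lemma ch87 (hTd : TdOK) : Good 0 ![w38, w12, w46, w41, w39, w40] :=
  good_of hTd _ _ _ _ _ _ _ x38 x12 x46 x41 x39 x40 go87
lemma ch88 (hTd : TdOK) : Good 0 ![w36, w38, w34, w37, w14, w35] :=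
  good_of hTd _ _ _ _ _ _ _ x36 x38 x34 x37 x14 x35 go88
lemma ch89 (hTd : TdOK) : Good 0 ![w58, w38, w34, w36, w14, w35] :=
  good_of hTd _ _ _ _ _ _ _ x58 x38 x34 x36 x14 x35 go89
lemma ch90 (hTd : TdOK) : Good 0 ![w58, w12, w59, w38, w14, w35] :=
  good_of hTd _ _ _ _ _ _ _ x58 x12 x59 x38 x14 x35 go90
lemma ch91 (hTd : TdOK) : Good 0 ![w58, w40, w34, w38, w59, w35] :=
  good_of hTd _ _ _ _ _ _ _ x58 x40 x34 x38 x59 x35 go91
lemma ch92 (hTd : TdOK) : Good 0 ![w60, w12, w46, w38, w59, w40] :=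
  good_of hTd _ _ _ _ _ _ _ x60 x12 x46 x38 x59 x40 go92
lemma ch93 (hTd : TdOK) : Good 0 ![w60, w61, w44, w46, w59, w40] :=
  good_of hTd _ _ _ _ _ _ _ x60 x61 x44 x46 x59 x40 go93
lemma ch94 (hTd : TdOK) : Good 0 ![w60, w42, w44, w46, w61, w40] :=
  good_of hTd _ _ _ _ _ _ _ x60 x42 x44 x46 x61 x40 go94
lemma ch95 (hTd : TdOK) : Good 0 ![w60, w43, w44, w42, w61, w40] :=
  good_of hTd _ _ _ _ _ _ _ x60 x43 x44 x42 x61 x40 go95
lemma ch96 (hTd : TdOK) : Good 0 ![w60, w12, w44, w42, w61, w43] :=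
  good_of hTd _ _ _ _ _ _ _ x60 x12 x44 x42 x61 x43 go96
lemma ch97 (hTd : TdOK) : Good 0 ![w62, w47, w63, w46, w59, w44] :=
  good_of hTd _ _ _ _ _ _ _ x62 x47 x63 x46 x59 x44 go97
lemma ch98 (hTd : TdOK) : Good 0 ![w62, w47, w50, w46, w63, w44] :=
  good_of hTd _ _ _ _ _ _ _ x62 x47 x50 x46 x63 x44 go98
lemma ch99 (hTd : TdOK) : Good 0 ![w62, w52, w34, w46, w63, w50] :=
  good_of hTd _ _ _ _ _ _ _ x62 x52 x34 x46 x63 x50 go99
lemma ch100 (hTd : TdOK) : Good 0 ![w62, w47, w52, w46, w63, w50] :=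
  good_of hTd _ _ _ _ _ _ _ x62 x47 x52 x46 x63 x50 go100
lemma ch101 (hTd : TdOK) : Good 0 ![w60, w47, w62, w46, w59, w44] :=
  good_of hTd _ _ _ _ _ _ _ x60 x47 x62 x46 x59 x44 go101
lemma ch102 (hTd : TdOK) : Good 0 ![w60, w61, w47, w46, w59, w44] :=
  good_of hTd _ _ _ _ _ _ _ x60 x61 x47 x46 x59 x44 go102
lemma ch103 (hTd : TdOK) : Good 0 ![w60, w42, w47, w46, w61, w44] :=
  good_of hTd _ _ _ _ _ _ _ x60 x42 x47 x46 x61 x44 go103
lemma ch104 (hTd : TdOK) : Good 0 ![w60, w45, w47, w42, w61, w44] :=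
  good_of hTd _ _ _ _ _ _ _ x60 x45 x47 x42 x61 x44 go104
lemma ch105 (hTd : TdOK) : Good 0 ![w64, w57, w47, w42, w61, w45] :=
  good_of hTd _ _ _ _ _ _ _ x64 x57 x47 x42 x61 x45 go105
lemma ch106 (hTd : TdOK) : Good 0 ![w64, w12, w57, w42, w61, w45] :=
  good_of hTd _ _ _ _ _ _ _ x64 x12 x57 x42 x61 x45 go106
lemma ch107 (hTd : TdOK) : Good 0 ![w60, w64, w47, w42, w61, w45] :=
  good_of hTd _ _ _ _ _ _ _ x60 x64 x47 x42 x61 x45 go107
lemma ch108 (hTd : TdOK) : Good 0 ![w58, w60, w34, w38, w59, w40] :=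
  good_of hTd _ _ _ _ _ _ _ x58 x60 x34 x38 x59 x40 go108
lemma ch109 (hTd : TdOK) : Good 0 ![w13, w12, w58, w36, w14, w35] :=
  good_of hTd _ _ _ _ _ _ _ x13 x12 x58 x36 x14 x35 go109
lemma ch110 (hTd : TdOK) : Good 0 ![w17, w14, w34, w32, w4, w13] :=
  good_of hTd _ _ _ _ _ _ _ x17 x14 x34 x32 x4 x13 go110
lemma ch111 (hTd : TdOK) : Good 0 ![w65, w12, w58, w36, w14, w13] :=
  good_of hTd _ _ _ _ _ _ _ x65 x12 x58 x36 x14 x13 go111
lemma ch112 (hTd : TdOK) : Good 0 ![w65, w38, w34, w36, w14, w58] :=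
  good_of hTd _ _ _ _ _ _ _ x65 x38 x34 x36 x14 x58 go112
lemma ch113 (hTd : TdOK) : Good 0 ![w65, w39, w34, w38, w14, w58] :=
  good_of hTd _ _ _ _ _ _ _ x65 x39 x34 x38 x14 x58 go113
lemma ch114 (hTd : TdOK) : Good 0 ![w65, w60, w34, w38, w39, w58] :=
  good_of hTd _ _ _ _ _ _ _ x65 x60 x34 x38 x39 x58 go114
lemma ch115 (hTd : TdOK) : Good 0 ![w66, w12, w46, w38, w39, w60] :=
  good_of hTd _ _ _ _ _ _ _ x66 x12 x46 x38 x39 x60 go115
lemma ch116 (hTd : TdOK) : Good 0 ![w66, w47, w48, w46, w39, w60] :=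
  good_of hTd _ _ _ _ _ _ _ x66 x47 x48 x46 x39 x60 go116
lemma ch117 (hTd : TdOK) : Good 0 ![w66, w47, w62, w46, w48, w60] :=
  good_of hTd _ _ _ _ _ _ _ x66 x47 x62 x46 x48 x60 go117
lemma ch118 (hTd : TdOK) : Good 0 ![w67, w52, w34, w46, w48, w62] :=
  good_of hTd _ _ _ _ _ _ _ x67 x52 x34 x46 x48 x62 go118
lemma ch119 (hTd : TdOK) : Good 0 ![w67, w47, w52, w46, w48, w62] :=
  good_of hTd _ _ _ _ _ _ _ x67 x47 x52 x46 x48 x62 go119
lemma ch120 (hTd : TdOK) : Good 0 ![w66, w47, w67, w46, w48, w62] :=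
  good_of hTd _ _ _ _ _ _ _ x66 x47 x67 x46 x48 x62 go120
lemma ch121 (hTd : TdOK) : Good 0 ![w66, w42, w47, w46, w39, w60] :=
  good_of hTd _ _ _ _ _ _ _ x66 x42 x47 x46 x39 x60 go121
lemma ch122 (hTd : TdOK) : Good 0 ![w66, w55, w47, w42, w39, w60] :=
  good_of hTd _ _ _ _ _ _ _ x66 x55 x47 x42 x39 x60 go122
lemma ch123 (hTd : TdOK) : Good 0 ![w66, w64, w47, w42, w55, w60] :=
  good_of hTd _ _ _ _ _ _ _ x66 x64 x47 x42 x55 x60 go123
lemma ch124 (hTd : TdOK) : Good 0 ![w68, w57, w47, w42, w55, w64] :=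
  good_of hTd _ _ _ _ _ _ _ x68 x57 x47 x42 x55 x64 go124
lemma ch125 (hTd : TdOK) : Good 0 ![w68, w12, w57, w42, w55, w64] :=
  good_of hTd _ _ _ _ _ _ _ x68 x12 x57 x42 x55 x64 go125
lemma ch126 (hTd : TdOK) : Good 0 ![w66, w68, w47, w42, w55, w64] :=
  good_of hTd _ _ _ _ _ _ _ x66 x68 x47 x42 x55 x64 go126
lemma ch127 (hTd : TdOK) : Good 0 ![w65, w66, w34, w38, w39, w60] :=
  good_of hTd _ _ _ _ _ _ _ x65 x66 x34 x38 x39 x60 go127
lemma ch128 (hTd : TdOK) : Good 0 ![w17, w12, w65, w36, w14, w13] :=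
  good_of hTd _ _ _ _ _ _ _ x17 x12 x65 x36 x14 x13 go128
lemma ch129 (hTd : TdOK) : Good 0 ![w17, w37, w34, w32, w14, w36] :=
  good_of hTd _ _ _ _ _ _ _ x17 x37 x34 x32 x14 x36 go129
lemma ch130 (hTd : TdOK) : Good 0 ![w65, w38, w34, w37, w14, w36] :=
  good_of hTd _ _ _ _ _ _ _ x65 x38 x34 x37 x14 x36 go130
lemma ch131 (hTd : TdOK) : Good 0 ![w65, w39, w34, w37, w14, w38] :=
  good_of hTd _ _ _ _ _ _ _ x65 x39 x34 x37 x14 x38 go131
lemma ch132 (hTd : TdOK) : Good 0 ![w66, w41, w34, w37, w39, w38] :=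
  good_of hTd _ _ _ _ _ _ _ x66 x41 x34 x37 x39 x38 go132
lemma ch133 (hTd : TdOK) : Good 0 ![w66, w12, w46, w41, w39, w38] :=
  good_of hTd _ _ _ _ _ _ _ x66 x12 x46 x41 x39 x38 go133
lemma ch134 (hTd : TdOK) : Good 0 ![w66, w47, w48, w41, w39, w46] :=
  good_of hTd _ _ _ _ _ _ _ x66 x47 x48 x41 x39 x46 go134
lemma ch135 (hTd : TdOK) : Good 0 ![w66, w47, w49, w41, w48, w46] :=
  good_of hTd _ _ _ _ _ _ _ x66 x47 x49 x41 x48 x46 go135
lemma ch136 (hTd : TdOK) : Good 0 ![w67, w47, w51, w49, w48, w46] :=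
  good_of hTd _ _ _ _ _ _ _ x67 x47 x51 x49 x48 x46 go136
lemma ch137 (hTd : TdOK) : Good 0 ![w67, w52, w53, w49, w48, w51] :=
  good_of hTd _ _ _ _ _ _ _ x67 x52 x53 x49 x48 x51 go137
lemma ch138 (hTd : TdOK) : Good 0 ![w67, w52, w54, w49, w53, w51] :=
  good_of hTd _ _ _ _ _ _ _ x67 x52 x54 x49 x53 x51 go138
lemma ch139 (hTd : TdOK) : Good 0 ![w67, w52, w34, w54, w53, w51] :=
  good_of hTd _ _ _ _ _ _ _ x67 x52 x34 x54 x53 x51 go139
lemma ch140 (hTd : TdOK) : Good 0 ![w67, w47, w52, w49, w48, w51] :=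
  good_of hTd _ _ _ _ _ _ _ x67 x47 x52 x49 x48 x51 go140
lemma ch141 (hTd : TdOK) : Good 0 ![w66, w47, w67, w49, w48, w46] :=
  good_of hTd _ _ _ _ _ _ _ x66 x47 x67 x49 x48 x46 go141
lemma ch142 (hTd : TdOK) : Good 0 ![w66, w42, w47, w41, w39, w46] :=
  good_of hTd _ _ _ _ _ _ _ x66 x42 x47 x41 x39 x46 go142
lemma ch143 (hTd : TdOK) : Good 0 ![w66, w55, w47, w41, w39, w42] :=
  good_of hTd _ _ _ _ _ _ _ x66 x55 x47 x41 x39 x42 go143
lemma ch144 (hTd : TdOK) : Good 0 ![w68, w56, w47, w41, w55, w42] :=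
  good_of hTd _ _ _ _ _ _ _ x68 x56 x47 x41 x55 x42 go144
lemma ch145 (hTd : TdOK) : Good 0 ![w68, w57, w69, w56, w55, w42] :=
  good_of hTd _ _ _ _ _ _ _ x68 x57 x69 x56 x55 x42 go145
lemma ch146 (hTd : TdOK) : Good 0 ![w68, w57, w70, w56, w69, w42] :=
  good_of hTd _ _ _ _ _ _ _ x68 x57 x70 x56 x69 x42 go146
lemma ch147 (hTd : TdOK) : Good 0 ![w68, w57, w47, w70, w69, w42] :=
  good_of hTd _ _ _ _ _ _ _ x68 x57 x47 x70 x69 x42 go147
lemma ch148 (hTd : TdOK) : Good 0 ![w68, w12, w57, w56, w55, w42] :=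
  good_of hTd _ _ _ _ _ _ _ x68 x12 x57 x56 x55 x42 go148
lemma ch149 (hTd : TdOK) : Good 0 ![w66, w68, w47, w41, w55, w42] :=
  good_of hTd _ _ _ _ _ _ _ x66 x68 x47 x41 x55 x42 go149
lemma ch150 (hTd : TdOK) : Good 0 ![w65, w66, w34, w37, w39, w38] :=
  good_of hTd _ _ _ _ _ _ _ x65 x66 x34 x37 x39 x38 go150
lemma ch151 (hTd : TdOK) : Good 0 ![w17, w12, w65, w37, w14, w36] :=
  good_of hTd _ _ _ _ _ _ _ x17 x12 x65 x37 x14 x36 go151
lemma ch152 (hTd : TdOK) : Good 0 ![w33, w12, w65, w36, w17, w13] :=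
  good_of hTd _ _ _ _ _ _ _ x33 x12 x65 x36 x17 x13 go152
lemma ch153 (hTd : TdOK) : Good 0 ![w33, w12, w58, w36, w65, w13] :=
  good_of hTd _ _ _ _ _ _ _ x33 x12 x58 x36 x65 x13 go153
lemma ch154 (hTd : TdOK) : Good 0 ![w71, w38, w34, w36, w65, w58] :=
  good_of hTd _ _ _ _ _ _ _ x71 x38 x34 x36 x65 x58 go154
lemma ch155 (hTd : TdOK) : Good 0 ![w71, w60, w34, w38, w65, w58] :=
  good_of hTd _ _ _ _ _ _ _ x71 x60 x34 x38 x65 x58 go155
lemma ch156 (hTd : TdOK) : Good 0 ![w71, w66, w34, w38, w65, w60] :=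
  good_of hTd _ _ _ _ _ _ _ x71 x66 x34 x38 x65 x60 go156
lemma ch157 (hTd : TdOK) : Good 0 ![w71, w12, w46, w38, w66, w60] :=
  good_of hTd _ _ _ _ _ _ _ x71 x12 x46 x38 x66 x60 go157
lemma ch158 (hTd : TdOK) : Good 0 ![w72, w47, w62, w46, w66, w60] :=
  good_of hTd _ _ _ _ _ _ _ x72 x47 x62 x46 x66 x60 go158
lemma ch159 (hTd : TdOK) : Good 0 ![w72, w47, w67, w46, w66, w62] :=
  good_of hTd _ _ _ _ _ _ _ x72 x47 x67 x46 x66 x62 go159
lemma ch160 (hTd : TdOK) : Good 0 ![w73, w47, w51, w46, w67, w62] :=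
  good_of hTd _ _ _ _ _ _ _ x73 x47 x51 x46 x67 x62 go160
lemma ch161 (hTd : TdOK) : Good 0 ![w73, w52, w74, w51, w67, w62] :=
  good_of hTd _ _ _ _ _ _ _ x73 x52 x74 x51 x67 x62 go161
lemma ch162 (hTd : TdOK) : Good 0 ![w73, w52, w75, w51, w67, w74] :=
  good_of hTd _ _ _ _ _ _ _ x73 x52 x75 x51 x67 x74 go162
lemma ch163 (hTd : TdOK) : Good 0 ![w73, w52, w34, w51, w75, w74] :=
  good_of hTd _ _ _ _ _ _ _ x73 x52 x34 x51 x75 x74 go163
lemma ch164 (hTd : TdOK) : Good 0 ![w73, w47, w52, w51, w67, w62] :=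
  good_of hTd _ _ _ _ _ _ _ x73 x47 x52 x51 x67 x62 go164
lemma ch165 (hTd : TdOK) : Good 0 ![w72, w47, w73, w46, w67, w62] :=
  good_of hTd _ _ _ _ _ _ _ x72 x47 x73 x46 x67 x62 go165
lemma ch166 (hTd : TdOK) : Good 0 ![w72, w42, w47, w46, w66, w60] :=
  good_of hTd _ _ _ _ _ _ _ x72 x42 x47 x46 x66 x60 go166
lemma ch167 (hTd : TdOK) : Good 0 ![w72, w64, w47, w42, w66, w60] :=
  good_of hTd _ _ _ _ _ _ _ x72 x64 x47 x42 x66 x60 go167
lemma ch168 (hTd : TdOK) : Good 0 ![w72, w68, w47, w42, w66, w64] :=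
  good_of hTd _ _ _ _ _ _ _ x72 x68 x47 x42 x66 x64 go168
lemma ch169 (hTd : TdOK) : Good 0 ![w76, w12, w47, w42, w68, w64] :=
  good_of hTd _ _ _ _ _ _ _ x76 x12 x47 x42 x68 x64 go169
lemma ch170 (hTd : TdOK) : Good 0 ![w72, w76, w47, w42, w68, w64] :=
  good_of hTd _ _ _ _ _ _ _ x72 x76 x47 x42 x68 x64 go170
lemma ch171 (hTd : TdOK) : Good 0 ![w77, w72, w62, w46, w66, w60] :=
  good_of hTd _ _ _ _ _ _ _ x77 x72 x62 x46 x66 x60 go171
lemma ch172 (hTd : TdOK) : Good 0 ![w77, w72, w67, w46, w66, w62] :=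
  good_of hTd _ _ _ _ _ _ _ x77 x72 x67 x46 x66 x62 go172
lemma ch173 (hTd : TdOK) : Good 0 ![w77, w73, w34, w46, w67, w62] :=
  good_of hTd _ _ _ _ _ _ _ x77 x73 x34 x46 x67 x62 go173
lemma ch174 (hTd : TdOK) : Good 0 ![w77, w72, w73, w46, w67, w62] :=
  good_of hTd _ _ _ _ _ _ _ x77 x72 x73 x46 x67 x62 go174
lemma ch175 (hTd : TdOK) : Good 0 ![w71, w72, w77, w46, w66, w60] :=
  good_of hTd _ _ _ _ _ _ _ x71 x72 x77 x46 x66 x60 go175
lemma ch176 (hTd : TdOK) : Good 0 ![w33, w12, w71, w36, w65, w58] :=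
  good_of hTd _ _ _ _ _ _ _ x33 x12 x71 x36 x65 x58 go176
lemma ch177 (hTd : TdOK) : Good 0 ![w33, w12, w65, w78, w17, w36] :=
  good_of hTd _ _ _ _ _ _ _ x33 x12 x65 x78 x17 x36 go177
lemma ch178 (hTd : TdOK) : Good 0 ![w71, w79, w34, w78, w65, w36] :=
  good_of hTd _ _ _ _ _ _ _ x71 x79 x34 x78 x65 x36 go178
lemma ch179 (hTd : TdOK) : Good 0 ![w71, w38, w34, w79, w65, w36] :=
  good_of hTd _ _ _ _ _ _ _ x71 x38 x34 x79 x65 x36 go179
lemma ch180 (hTd : TdOK) : Good 0 ![w71, w66, w34, w79, w65, w38] :=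
  good_of hTd _ _ _ _ _ _ _ x71 x66 x34 x79 x65 x38 go180
lemma ch181 (hTd : TdOK) : Good 0 ![w71, w12, w46, w79, w66, w38] :=
  good_of hTd _ _ _ _ _ _ _ x71 x12 x46 x79 x66 x38 go181
lemma ch182 (hTd : TdOK) : Good 0 ![w71, w12, w80, w79, w66, w46] :=
  good_of hTd _ _ _ _ _ _ _ x71 x12 x80 x79 x66 x46 go182
lemma ch183 (hTd : TdOK) : Good 0 ![w72, w47, w67, w80, w66, w46] :=
  good_of hTd _ _ _ _ _ _ _ x72 x47 x67 x80 x66 x46 go183
lemma ch184 (hTd : TdOK) : Good 0 ![w73, w47, w51, w80, w67, w46] :=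
  good_of hTd _ _ _ _ _ _ _ x73 x47 x51 x80 x67 x46 go184
lemma ch185 (hTd : TdOK) : Good 0 ![w73, w52, w81, w80, w67, w51] :=
  good_of hTd _ _ _ _ _ _ _ x73 x52 x81 x80 x67 x51 go185
lemma ch186 (hTd : TdOK) : Good 0 ![w73, w52, w75, w81, w67, w51] :=
  good_of hTd _ _ _ _ _ _ _ x73 x52 x75 x81 x67 x51 go186
lemma ch187 (hTd : TdOK) : Good 0 ![w73, w52, w34, w81, w75, w51] :=
  good_of hTd _ _ _ _ _ _ _ x73 x52 x34 x81 x75 x51 go187
lemma ch188 (hTd : TdOK) : Good 0 ![w73, w47, w52, w80, w67, w51] :=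
  good_of hTd _ _ _ _ _ _ _ x73 x47 x52 x80 x67 x51 go188
lemma ch189 (hTd : TdOK) : Good 0 ![w72, w47, w73, w80, w67, w46] :=
  good_of hTd _ _ _ _ _ _ _ x72 x47 x73 x80 x67 x46 go189
lemma ch190 (hTd : TdOK) : Good 0 ![w72, w42, w47, w80, w66, w46] :=
  good_of hTd _ _ _ _ _ _ _ x72 x42 x47 x80 x66 x46 go190
lemma ch191 (hTd : TdOK) : Good 0 ![w72, w82, w47, w80, w66, w42] :=
  good_of hTd _ _ _ _ _ _ _ x72 x82 x47 x80 x66 x42 go191
lemma ch192 (hTd : TdOK) : Good 0 ![w72, w68, w47, w82, w66, w42] :=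
  good_of hTd _ _ _ _ _ _ _ x72 x68 x47 x82 x66 x42 go192
lemma ch193 (hTd : TdOK) : Good 0 ![w76, w57, w47, w82, w68, w42] :=
  good_of hTd _ _ _ _ _ _ _ x76 x57 x47 x82 x68 x42 go193
lemma ch194 (hTd : TdOK) : Good 0 ![w76, w12, w57, w82, w68, w42] :=
  good_of hTd _ _ _ _ _ _ _ x76 x12 x57 x82 x68 x42 go194
lemma ch195 (hTd : TdOK) : Good 0 ![w72, w76, w47, w82, w68, w42] :=
  good_of hTd _ _ _ _ _ _ _ x72 x76 x47 x82 x68 x42 go195
lemma ch196 (hTd : TdOK) : Good 0 ![w71, w72, w34, w80, w66, w46] :=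
  good_of hTd _ _ _ _ _ _ _ x71 x72 x34 x80 x66 x46 go196
lemma ch197 (hTd : TdOK) : Good 0 ![w33, w12, w71, w78, w65, w36] :=
  good_of hTd _ _ _ _ _ _ _ x33 x12 x71 x78 x65 x36 go197
lemma ch198 (hTd : TdOK) : Good 0 ![w33, w37, w34, w32, w78, w36] :=
  good_of hTd _ _ _ _ _ _ _ x33 x37 x34 x32 x78 x36 go198
lemma ch199 (hTd : TdOK) : Good 0 ![w71, w79, w34, w37, w78, w36] :=
  good_of hTd _ _ _ _ _ _ _ x71 x79 x34 x37 x78 x36 go199
lemma ch200 (hTd : TdOK) : Good 0 ![w71, w38, w34, w37, w79, w36] :=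
  good_of hTd _ _ _ _ _ _ _ x71 x38 x34 x37 x79 x36 go200
lemma ch201 (hTd : TdOK) : Good 0 ![w71, w41, w34, w37, w79, w38] :=
  good_of hTd _ _ _ _ _ _ _ x71 x41 x34 x37 x79 x38 go201
lemma ch202 (hTd : TdOK) : Good 0 ![w71, w12, w46, w41, w79, w38] :=
  good_of hTd _ _ _ _ _ _ _ x71 x12 x46 x41 x79 x38 go202
lemma ch203 (hTd : TdOK) : Good 0 ![w71, w12, w80, w41, w79, w46] :=
  good_of hTd _ _ _ _ _ _ _ x71 x12 x80 x41 x79 x46 go203
lemma ch204 (hTd : TdOK) : Good 0 ![w72, w47, w49, w41, w80, w46] :=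
  good_of hTd _ _ _ _ _ _ _ x72 x47 x49 x41 x80 x46 go204
lemma ch205 (hTd : TdOK) : Good 0 ![w73, w47, w51, w49, w80, w46] :=
  good_of hTd _ _ _ _ _ _ _ x73 x47 x51 x49 x80 x46 go205
lemma ch206 (hTd : TdOK) : Good 0 ![w73, w52, w81, w49, w80, w51] :=
  good_of hTd _ _ _ _ _ _ _ x73 x52 x81 x49 x80 x51 go206
lemma ch207 (hTd : TdOK) : Good 0 ![w73, w52, w34, w49, w81, w51] :=
  good_of hTd _ _ _ _ _ _ _ x73 x52 x34 x49 x81 x51 go207
lemma ch208 (hTd : TdOK) : Good 0 ![w73, w47, w52, w49, w80, w51] :=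
  good_of hTd _ _ _ _ _ _ _ x73 x47 x52 x49 x80 x51 go208
lemma ch209 (hTd : TdOK) : Good 0 ![w72, w47, w73, w49, w80, w46] :=
  good_of hTd _ _ _ _ _ _ _ x72 x47 x73 x49 x80 x46 go209
lemma ch210 (hTd : TdOK) : Good 0 ![w72, w42, w47, w41, w80, w46] :=
  good_of hTd _ _ _ _ _ _ _ x72 x42 x47 x41 x80 x46 go210
lemma ch211 (hTd : TdOK) : Good 0 ![w72, w82, w47, w41, w80, w42] :=
  good_of hTd _ _ _ _ _ _ _ x72 x82 x47 x41 x80 x42 go211
lemma ch212 (hTd : TdOK) : Good 0 ![w76, w56, w47, w41, w82, w42] :=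
  good_of hTd _ _ _ _ _ _ _ x76 x56 x47 x41 x82 x42 go212
lemma ch213 (hTd : TdOK) : Good 0 ![w76, w57, w70, w56, w82, w42] :=
  good_of hTd _ _ _ _ _ _ _ x76 x57 x70 x56 x82 x42 go213
lemma ch214 (hTd : TdOK) : Good 0 ![w76, w57, w47, w70, w82, w42] :=
  good_of hTd _ _ _ _ _ _ _ x76 x57 x47 x70 x82 x42 go214
lemma ch215 (hTd : TdOK) : Good 0 ![w76, w12, w57, w56, w82, w42] :=
  good_of hTd _ _ _ _ _ _ _ x76 x12 x57 x56 x82 x42 go215
lemma ch216 (hTd : TdOK) : Good 0 ![w72, w76, w47, w41, w82, w42] :=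
  good_of hTd _ _ _ _ _ _ _ x72 x76 x47 x41 x82 x42 go216
lemma ch217 (hTd : TdOK) : Good 0 ![w71, w72, w34, w41, w80, w46] :=
  good_of hTd _ _ _ _ _ _ _ x71 x72 x34 x41 x80 x46 go217
lemma ch218 (hTd : TdOK) : Good 0 ![w33, w12, w71, w37, w78, w36] :=
  good_of hTd _ _ _ _ _ _ _ x33 x12 x71 x37 x78 x36 go218
lemma ch219 (hTd : TdOK) : Good 0 ![w83, w12, w65, w33, w17, w13] :=
  good_of hTd _ _ _ _ _ _ _ x83 x12 x65 x33 x17 x13 go219
lemma ch220 (hTd : TdOK) : Good 0 ![w83, w12, w58, w33, w65, w13] :=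
  good_of hTd _ _ _ _ _ _ _ x83 x12 x58 x33 x65 x13 go220
lemma ch221 (hTd : TdOK) : Good 0 ![w83, w12, w71, w33, w65, w58] :=
  good_of hTd _ _ _ _ _ _ _ x83 x12 x71 x33 x65 x58 go221
lemma ch222 (hTd : TdOK) : Good 0 ![w84, w60, w85, w71, w65, w58] :=
  good_of hTd _ _ _ _ _ _ _ x84 x60 x85 x71 x65 x58 go222
lemma ch223 (hTd : TdOK) : Good 0 ![w84, w60, w86, w71, w65, w85] :=
  good_of hTd _ _ _ _ _ _ _ x84 x60 x86 x71 x65 x85 go223
lemma ch224 (hTd : TdOK) : Good 0 ![w84, w62, w77, w71, w86, w85] :=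
  good_of hTd _ _ _ _ _ _ _ x84 x62 x77 x71 x86 x85 go224
lemma ch225 (hTd : TdOK) : Good 0 ![w87, w62, w34, w77, w86, w85] :=
  good_of hTd _ _ _ _ _ _ _ x87 x62 x34 x77 x86 x85 go225
lemma ch226 (hTd : TdOK) : Good 0 ![w84, w62, w87, w77, w86, w85] :=
  good_of hTd _ _ _ _ _ _ _ x84 x62 x87 x77 x86 x85 go226
lemma ch227 (hTd : TdOK) : Good 0 ![w84, w60, w62, w71, w86, w85] :=
  good_of hTd _ _ _ _ _ _ _ x84 x60 x62 x71 x86 x85 go227
lemma ch228 (hTd : TdOK) : Good 0 ![w84, w66, w86, w71, w65, w60] :=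
  good_of hTd _ _ _ _ _ _ _ x84 x66 x86 x71 x65 x60 go228
lemma ch229 (hTd : TdOK) : Good 0 ![w84, w66, w62, w71, w86, w60] :=
  good_of hTd _ _ _ _ _ _ _ x84 x66 x62 x71 x86 x60 go229
lemma ch230 (hTd : TdOK) : Good 0 ![w84, w67, w77, w71, w86, w62] :=
  good_of hTd _ _ _ _ _ _ _ x84 x67 x77 x71 x86 x62 go230
lemma ch231 (hTd : TdOK) : Good 0 ![w87, w67, w88, w77, w86, w62] :=
  good_of hTd _ _ _ _ _ _ _ x87 x67 x88 x77 x86 x62 go231
lemma ch232 (hTd : TdOK) : Good 0 ![w87, w67, w34, w77, w88, w62] :=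
  good_of hTd _ _ _ _ _ _ _ x87 x67 x34 x77 x88 x62 go232
lemma ch233 (hTd : TdOK) : Good 0 ![w84, w67, w87, w77, w86, w62] :=
  good_of hTd _ _ _ _ _ _ _ x84 x67 x87 x77 x86 x62 go233
lemma ch234 (hTd : TdOK) : Good 0 ![w84, w66, w67, w71, w86, w62] :=
  good_of hTd _ _ _ _ _ _ _ x84 x66 x67 x71 x86 x62 go234
lemma ch235 (hTd : TdOK) : Good 0 ![w84, w47, w62, w71, w66, w60] :=
  good_of hTd _ _ _ _ _ _ _ x84 x47 x62 x71 x66 x60 go235
lemma ch236 (hTd : TdOK) : Good 0 ![w84, w47, w77, w71, w66, w62] :=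
  good_of hTd _ _ _ _ _ _ _ x84 x47 x77 x71 x66 x62 go236
lemma ch237 (hTd : TdOK) : Good 0 ![w84, w47, w67, w77, w66, w62] :=
  good_of hTd _ _ _ _ _ _ _ x84 x47 x67 x77 x66 x62 go237
lemma ch238 (hTd : TdOK) : Good 0 ![w87, w89, w74, w77, w67, w62] :=
  good_of hTd _ _ _ _ _ _ _ x87 x89 x74 x77 x67 x62 go238
lemma ch239 (hTd : TdOK) : Good 0 ![w87, w52, w74, w89, w67, w62] :=
  good_of hTd _ _ _ _ _ _ _ x87 x52 x74 x89 x67 x62 go239
lemma ch240 (hTd : TdOK) : Good 0 ![w87, w52, w75, w77, w67, w74] :=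
  good_of hTd _ _ _ _ _ _ _ x87 x52 x75 x77 x67 x74 go240
lemma ch241 (hTd : TdOK) : Good 0 ![w87, w52, w34, w77, w75, w74] :=
  good_of hTd _ _ _ _ _ _ _ x87 x52 x34 x77 x75 x74 go241
lemma ch242 (hTd : TdOK) : Good 0 ![w87, w73, w52, w77, w67, w62] :=
  good_of hTd _ _ _ _ _ _ _ x87 x73 x52 x77 x67 x62 go242
lemma ch243 (hTd : TdOK) : Good 0 ![w87, w47, w52, w73, w67, w62] :=
  good_of hTd _ _ _ _ _ _ _ x87 x47 x52 x73 x67 x62 go243
lemma ch244 (hTd : TdOK) : Good 0 ![w84, w47, w87, w77, w67, w62] :=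
  good_of hTd _ _ _ _ _ _ _ x84 x47 x87 x77 x67 x62 go244
lemma ch245 (hTd : TdOK) : Good 0 ![w84, w72, w47, w71, w66, w60] :=
  good_of hTd _ _ _ _ _ _ _ x84 x72 x47 x71 x66 x60 go245
lemma ch246 (hTd : TdOK) : Good 0 ![w90, w64, w47, w72, w66, w60] :=
  good_of hTd _ _ _ _ _ _ _ x90 x64 x47 x72 x66 x60 go246
lemma ch247 (hTd : TdOK) : Good 0 ![w90, w68, w47, w72, w66, w64] :=
  good_of hTd _ _ _ _ _ _ _ x90 x68 x47 x72 x66 x64 go247
lemma ch248 (hTd : TdOK) : Good 0 ![w90, w76, w47, w72, w68, w64] :=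
  good_of hTd _ _ _ _ _ _ _ x90 x76 x47 x72 x68 x64 go248
lemma ch249 (hTd : TdOK) : Good 0 ![w91, w57, w92, w76, w68, w64] :=
  good_of hTd _ _ _ _ _ _ _ x91 x57 x92 x76 x68 x64 go249
lemma ch250 (hTd : TdOK) : Good 0 ![w91, w57, w47, w76, w68, w92] :=
  good_of hTd _ _ _ _ _ _ _ x91 x57 x47 x76 x68 x92 go250
lemma ch251 (hTd : TdOK) : Good 0 ![w91, w12, w57, w76, w68, w64] :=
  good_of hTd _ _ _ _ _ _ _ x91 x12 x57 x76 x68 x64 go251
lemma ch252 (hTd : TdOK) : Good 0 ![w90, w91, w47, w76, w68, w64] :=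
  good_of hTd _ _ _ _ _ _ _ x90 x91 x47 x76 x68 x64 go252
lemma ch253 (hTd : TdOK) : Good 0 ![w84, w90, w47, w72, w66, w60] :=
  good_of hTd _ _ _ _ _ _ _ x84 x90 x47 x72 x66 x60 go253
lemma ch254 (hTd : TdOK) : Good 0 ![w83, w12, w84, w71, w65, w58] :=
  good_of hTd _ _ _ _ _ _ _ x83 x12 x84 x71 x65 x58 go254
lemma ch255 (hTd : TdOK) : Good 0 ![w0, w12, w83, w33, w17, w13] :=
  good_of hTd _ _ _ _ _ _ _ x0 x12 x83 x33 x17 x13 go255
lemma ch256 (hTd : TdOK) : Good 0 ![w18, w93, w34, w32, w4, w8] :=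
  good_of hTd _ _ _ _ _ _ _ x18 x93 x34 x32 x4 x8 go256
lemma ch257 (hTd : TdOK) : Good 0 ![w18, w14, w34, w32, w4, w93] :=
  good_of hTd _ _ _ _ _ _ _ x18 x14 x34 x32 x4 x93 go257
lemma ch258 (hTd : TdOK) : Good 0 ![w94, w37, w34, w32, w14, w93] :=
  good_of hTd _ _ _ _ _ _ _ x94 x37 x34 x32 x14 x93 go258
lemma ch259 (hTd : TdOK) : Good 0 ![w94, w95, w34, w37, w14, w93] :=
  good_of hTd _ _ _ _ _ _ _ x94 x95 x34 x37 x14 x93 go259
lemma ch260 (hTd : TdOK) : Good 0 ![w94, w39, w34, w37, w14, w95] :=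
  good_of hTd _ _ _ _ _ _ _ x94 x39 x34 x37 x14 x95 go260
lemma ch261 (hTd : TdOK) : Good 0 ![w96, w41, w97, w37, w39, w95] :=
  good_of hTd _ _ _ _ _ _ _ x96 x41 x97 x37 x39 x95 go261
lemma ch262 (hTd : TdOK) : Good 0 ![w96, w98, w97, w41, w39, w95] :=
  good_of hTd _ _ _ _ _ _ _ x96 x98 x97 x41 x39 x95 go262
lemma ch263 (hTd : TdOK) : Good 0 ![w96, w99, w97, w41, w39, w98] :=
  good_of hTd _ _ _ _ _ _ _ x96 x99 x97 x41 x39 x98 go263
lemma ch264 (hTd : TdOK) : Good 0 ![w96, w55, w99, w41, w39, w98] :=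
  good_of hTd _ _ _ _ _ _ _ x96 x55 x99 x41 x39 x98 go264
lemma ch265 (hTd : TdOK) : Good 0 ![w96, w12, w99, w41, w55, w98] :=
  good_of hTd _ _ _ _ _ _ _ x96 x12 x99 x41 x55 x98 go265
lemma ch266 (hTd : TdOK) : Good 0 ![w96, w41, w34, w37, w39, w97] :=
  good_of hTd _ _ _ _ _ _ _ x96 x41 x34 x37 x39 x97 go266
lemma ch267 (hTd : TdOK) : Good 0 ![w96, w47, w48, w41, w39, w97] :=
  good_of hTd _ _ _ _ _ _ _ x96 x47 x48 x41 x39 x97 go267
lemma ch268 (hTd : TdOK) : Good 0 ![w96, w47, w49, w41, w48, w97] :=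
  good_of hTd _ _ _ _ _ _ _ x96 x47 x49 x41 x48 x97 go268
lemma ch269 (hTd : TdOK) : Good 0 ![w100, w47, w101, w49, w48, w97] :=
  good_of hTd _ _ _ _ _ _ _ x100 x47 x101 x49 x48 x97 go269
lemma ch270 (hTd : TdOK) : Good 0 ![w100, w52, w53, w49, w48, w101] :=
  good_of hTd _ _ _ _ _ _ _ x100 x52 x53 x49 x48 x101 go270
lemma ch271 (hTd : TdOK) : Good 0 ![w100, w52, w54, w49, w53, w101] :=
  good_of hTd _ _ _ _ _ _ _ x100 x52 x54 x49 x53 x101 go271
lemma ch272 (hTd : TdOK) : Good 0 ![w100, w52, w34, w54, w53, w101] :=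
  good_of hTd _ _ _ _ _ _ _ x100 x52 x34 x54 x53 x101 go272
lemma ch273 (hTd : TdOK) : Good 0 ![w100, w47, w52, w49, w48, w101] :=
  good_of hTd _ _ _ _ _ _ _ x100 x47 x52 x49 x48 x101 go273
lemma ch274 (hTd : TdOK) : Good 0 ![w96, w47, w100, w49, w48, w97] :=
  good_of hTd _ _ _ _ _ _ _ x96 x47 x100 x49 x48 x97 go274
lemma ch275 (hTd : TdOK) : Good 0 ![w96, w99, w47, w41, w39, w97] :=
  good_of hTd _ _ _ _ _ _ _ x96 x99 x47 x41 x39 x97 go275
lemma ch276 (hTd : TdOK) : Good 0 ![w96, w55, w47, w41, w39, w99] :=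
  good_of hTd _ _ _ _ _ _ _ x96 x55 x47 x41 x39 x99 go276
lemma ch277 (hTd : TdOK) : Good 0 ![w102, w56, w47, w41, w55, w99] :=
  good_of hTd _ _ _ _ _ _ _ x102 x56 x47 x41 x55 x99 go277
lemma ch278 (hTd : TdOK) : Good 0 ![w102, w57, w69, w56, w55, w99] :=
  good_of hTd _ _ _ _ _ _ _ x102 x57 x69 x56 x55 x99 go278
lemma ch279 (hTd : TdOK) : Good 0 ![w102, w57, w70, w56, w69, w99] :=
  good_of hTd _ _ _ _ _ _ _ x102 x57 x70 x56 x69 x99 go279
lemma ch280 (hTd : TdOK) : Good 0 ![w102, w57, w47, w70, w69, w99] :=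
  good_of hTd _ _ _ _ _ _ _ x102 x57 x47 x70 x69 x99 go280
lemma ch281 (hTd : TdOK) : Good 0 ![w102, w12, w57, w56, w55, w99] :=
  good_of hTd _ _ _ _ _ _ _ x102 x12 x57 x56 x55 x99 go281
lemma ch282 (hTd : TdOK) : Good 0 ![w96, w102, w47, w41, w55, w99] :=
  good_of hTd _ _ _ _ _ _ _ x96 x102 x47 x41 x55 x99 go282
lemma ch283 (hTd : TdOK) : Good 0 ![w94, w96, w34, w37, w39, w95] :=
  good_of hTd _ _ _ _ _ _ _ x94 x96 x34 x37 x39 x95 go283
lemma ch284 (hTd : TdOK) : Good 0 ![w18, w12, w94, w32, w14, w93] :=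
  good_of hTd _ _ _ _ _ _ _ x18 x12 x94 x32 x14 x93 go284
lemma ch285 (hTd : TdOK) : Good 0 ![w17, w14, w34, w32, w4, w18] :=
  good_of hTd _ _ _ _ _ _ _ x17 x14 x34 x32 x4 x18 go285
lemma ch286 (hTd : TdOK) : Good 0 ![w17, w12, w94, w32, w14, w18] :=
  good_of hTd _ _ _ _ _ _ _ x17 x12 x94 x32 x14 x18 go286
lemma ch287 (hTd : TdOK) : Good 0 ![w17, w37, w34, w32, w14, w94] :=
  good_of hTd _ _ _ _ _ _ _ x17 x37 x34 x32 x14 x94 go287
lemma ch288 (hTd : TdOK) : Good 0 ![w65, w39, w34, w37, w14, w94] :=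
  good_of hTd _ _ _ _ _ _ _ x65 x39 x34 x37 x14 x94 go288
lemma ch289 (hTd : TdOK) : Good 0 ![w65, w96, w34, w37, w39, w94] :=
  good_of hTd _ _ _ _ _ _ _ x65 x96 x34 x37 x39 x94 go289
lemma ch290 (hTd : TdOK) : Good 0 ![w66, w41, w34, w37, w39, w96] :=
  good_of hTd _ _ _ _ _ _ _ x66 x41 x34 x37 x39 x96 go290
lemma ch291 (hTd : TdOK) : Good 0 ![w66, w47, w48, w41, w39, w96] :=
  good_of hTd _ _ _ _ _ _ _ x66 x47 x48 x41 x39 x96 go291
lemma ch292 (hTd : TdOK) : Good 0 ![w66, w47, w49, w41, w48, w96] :=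
  good_of hTd _ _ _ _ _ _ _ x66 x47 x49 x41 x48 x96 go292
lemma ch293 (hTd : TdOK) : Good 0 ![w66, w47, w100, w49, w48, w96] :=
  good_of hTd _ _ _ _ _ _ _ x66 x47 x100 x49 x48 x96 go293
lemma ch294 (hTd : TdOK) : Good 0 ![w67, w52, w53, w49, w48, w100] :=
  good_of hTd _ _ _ _ _ _ _ x67 x52 x53 x49 x48 x100 go294
lemma ch295 (hTd : TdOK) : Good 0 ![w67, w52, w54, w49, w53, w100] :=
  good_of hTd _ _ _ _ _ _ _ x67 x52 x54 x49 x53 x100 go295
lemma ch296 (hTd : TdOK) : Good 0 ![w67, w52, w34, w54, w53, w100] :=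
  good_of hTd _ _ _ _ _ _ _ x67 x52 x34 x54 x53 x100 go296
lemma ch297 (hTd : TdOK) : Good 0 ![w67, w47, w52, w49, w48, w100] :=
  good_of hTd _ _ _ _ _ _ _ x67 x47 x52 x49 x48 x100 go297
lemma ch298 (hTd : TdOK) : Good 0 ![w66, w47, w67, w49, w48, w100] :=
  good_of hTd _ _ _ _ _ _ _ x66 x47 x67 x49 x48 x100 go298
lemma ch299 (hTd : TdOK) : Good 0 ![w66, w55, w47, w41, w39, w96] :=
  good_of hTd _ _ _ _ _ _ _ x66 x55 x47 x41 x39 x96 go299
lemma ch300 (hTd : TdOK) : Good 0 ![w66, w102, w47, w41, w55, w96] :=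
  good_of hTd _ _ _ _ _ _ _ x66 x102 x47 x41 x55 x96 go300
lemma ch301 (hTd : TdOK) : Good 0 ![w68, w56, w47, w41, w55, w102] :=
  good_of hTd _ _ _ _ _ _ _ x68 x56 x47 x41 x55 x102 go301
lemma ch302 (hTd : TdOK) : Good 0 ![w68, w57, w69, w56, w55, w102] :=
  good_of hTd _ _ _ _ _ _ _ x68 x57 x69 x56 x55 x102 go302
lemma ch303 (hTd : TdOK) : Good 0 ![w68, w57, w70, w56, w69, w102] :=
  good_of hTd _ _ _ _ _ _ _ x68 x57 x70 x56 x69 x102 go303
lemma ch304 (hTd : TdOK) : Good 0 ![w68, w57, w47, w70, w69, w102] :=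
  good_of hTd _ _ _ _ _ _ _ x68 x57 x47 x70 x69 x102 go304
lemma ch305 (hTd : TdOK) : Good 0 ![w68, w12, w57, w56, w55, w102] :=
  good_of hTd _ _ _ _ _ _ _ x68 x12 x57 x56 x55 x102 go305
lemma ch306 (hTd : TdOK) : Good 0 ![w66, w68, w47, w41, w55, w102] :=
  good_of hTd _ _ _ _ _ _ _ x66 x68 x47 x41 x55 x102 go306
lemma ch307 (hTd : TdOK) : Good 0 ![w65, w66, w34, w37, w39, w96] :=
  good_of hTd _ _ _ _ _ _ _ x65 x66 x34 x37 x39 x96 go307
lemma ch308 (hTd : TdOK) : Good 0 ![w17, w12, w65, w37, w14, w94] :=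
  good_of hTd _ _ _ _ _ _ _ x17 x12 x65 x37 x14 x94 go308
lemma ch309 (hTd : TdOK) : Good 0 ![w33, w12, w94, w32, w17, w18] :=
  good_of hTd _ _ _ _ _ _ _ x33 x12 x94 x32 x17 x18 go309
lemma ch310 (hTd : TdOK) : Good 0 ![w33, w12, w65, w78, w17, w94] :=
  good_of hTd _ _ _ _ _ _ _ x33 x12 x65 x78 x17 x94 go310
lemma ch311 (hTd : TdOK) : Good 0 ![w71, w79, w34, w78, w65, w94] :=
  good_of hTd _ _ _ _ _ _ _ x71 x79 x34 x78 x65 x94 go311
lemma ch312 (hTd : TdOK) : Good 0 ![w71, w96, w34, w79, w65, w94] :=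
  good_of hTd _ _ _ _ _ _ _ x71 x96 x34 x79 x65 x94 go312
lemma ch313 (hTd : TdOK) : Good 0 ![w71, w66, w34, w79, w65, w96] :=
  good_of hTd _ _ _ _ _ _ _ x71 x66 x34 x79 x65 x96 go313
lemma ch314 (hTd : TdOK) : Good 0 ![w71, w12, w80, w79, w66, w96] :=
  good_of hTd _ _ _ _ _ _ _ x71 x12 x80 x79 x66 x96 go314
lemma ch315 (hTd : TdOK) : Good 0 ![w72, w47, w100, w80, w66, w96] :=
  good_of hTd _ _ _ _ _ _ _ x72 x47 x100 x80 x66 x96 go315
lemma ch316 (hTd : TdOK) : Good 0 ![w72, w47, w67, w80, w66, w100] :=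
  good_of hTd _ _ _ _ _ _ _ x72 x47 x67 x80 x66 x100 go316
lemma ch317 (hTd : TdOK) : Good 0 ![w73, w52, w81, w80, w67, w100] :=
  good_of hTd _ _ _ _ _ _ _ x73 x52 x81 x80 x67 x100 go317
lemma ch318 (hTd : TdOK) : Good 0 ![w73, w52, w103, w81, w67, w100] :=
  good_of hTd _ _ _ _ _ _ _ x73 x52 x103 x81 x67 x100 go318
lemma ch319 (hTd : TdOK) : Good 0 ![w73, w52, w75, w81, w67, w103] :=
  good_of hTd _ _ _ _ _ _ _ x73 x52 x75 x81 x67 x103 go319
lemma ch320 (hTd : TdOK) : Good 0 ![w73, w52, w34, w81, w75, w103] :=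
  good_of hTd _ _ _ _ _ _ _ x73 x52 x34 x81 x75 x103 go320
lemma ch321 (hTd : TdOK) : Good 0 ![w73, w47, w52, w80, w67, w100] :=
  good_of hTd _ _ _ _ _ _ _ x73 x47 x52 x80 x67 x100 go321
lemma ch322 (hTd : TdOK) : Good 0 ![w72, w47, w73, w80, w67, w100] :=
  good_of hTd _ _ _ _ _ _ _ x72 x47 x73 x80 x67 x100 go322
lemma ch323 (hTd : TdOK) : Good 0 ![w72, w82, w47, w80, w66, w96] :=
  good_of hTd _ _ _ _ _ _ _ x72 x82 x47 x80 x66 x96 go323
lemma ch324 (hTd : TdOK) : Good 0 ![w72, w102, w47, w82, w66, w96] :=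
  good_of hTd _ _ _ _ _ _ _ x72 x102 x47 x82 x66 x96 go324
lemma ch325 (hTd : TdOK) : Good 0 ![w72, w68, w47, w82, w66, w102] :=
  good_of hTd _ _ _ _ _ _ _ x72 x68 x47 x82 x66 x102 go325
lemma ch326 (hTd : TdOK) : Good 0 ![w76, w12, w47, w82, w68, w102] :=
  good_of hTd _ _ _ _ _ _ _ x76 x12 x47 x82 x68 x102 go326
lemma ch327 (hTd : TdOK) : Good 0 ![w72, w76, w47, w82, w68, w102] :=
  good_of hTd _ _ _ _ _ _ _ x72 x76 x47 x82 x68 x102 go327
lemma ch328 (hTd : TdOK) : Good 0 ![w71, w72, w100, w80, w66, w96] :=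
  good_of hTd _ _ _ _ _ _ _ x71 x72 x100 x80 x66 x96 go328
lemma ch329 (hTd : TdOK) : Good 0 ![w71, w72, w34, w80, w66, w100] :=
  good_of hTd _ _ _ _ _ _ _ x71 x72 x34 x80 x66 x100 go329
lemma ch330 (hTd : TdOK) : Good 0 ![w33, w12, w71, w78, w65, w94] :=
  good_of hTd _ _ _ _ _ _ _ x33 x12 x71 x78 x65 x94 go330
lemma ch331 (hTd : TdOK) : Good 0 ![w33, w37, w34, w32, w78, w94] :=
  good_of hTd _ _ _ _ _ _ _ x33 x37 x34 x32 x78 x94 go331
lemma ch332 (hTd : TdOK) : Good 0 ![w71, w79, w34, w37, w78, w94] :=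
  good_of hTd _ _ _ _ _ _ _ x71 x79 x34 x37 x78 x94 go332
lemma ch333 (hTd : TdOK) : Good 0 ![w71, w96, w34, w37, w79, w94] :=
  good_of hTd _ _ _ _ _ _ _ x71 x96 x34 x37 x79 x94 go333
lemma ch334 (hTd : TdOK) : Good 0 ![w71, w41, w34, w37, w79, w96] :=
  good_of hTd _ _ _ _ _ _ _ x71 x41 x34 x37 x79 x96 go334
lemma ch335 (hTd : TdOK) : Good 0 ![w71, w12, w80, w41, w79, w96] :=
  good_of hTd _ _ _ _ _ _ _ x71 x12 x80 x41 x79 x96 go335
lemma ch336 (hTd : TdOK) : Good 0 ![w72, w47, w49, w41, w80, w96] :=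
  good_of hTd _ _ _ _ _ _ _ x72 x47 x49 x41 x80 x96 go336
lemma ch337 (hTd : TdOK) : Good 0 ![w72, w47, w100, w49, w80, w96] :=
  good_of hTd _ _ _ _ _ _ _ x72 x47 x100 x49 x80 x96 go337
lemma ch338 (hTd : TdOK) : Good 0 ![w73, w52, w81, w49, w80, w100] :=
  good_of hTd _ _ _ _ _ _ _ x73 x52 x81 x49 x80 x100 go338
lemma ch339 (hTd : TdOK) : Good 0 ![w73, w52, w54, w49, w81, w100] :=
  good_of hTd _ _ _ _ _ _ _ x73 x52 x54 x49 x81 x100 go339
lemma ch340 (hTd : TdOK) : Good 0 ![w73, w52, w103, w54, w81, w100] :=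
  good_of hTd _ _ _ _ _ _ _ x73 x52 x103 x54 x81 x100 go340
lemma ch341 (hTd : TdOK) : Good 0 ![w73, w52, w34, w54, w81, w103] :=
  good_of hTd _ _ _ _ _ _ _ x73 x52 x34 x54 x81 x103 go341
lemma ch342 (hTd : TdOK) : Good 0 ![w73, w47, w52, w49, w80, w100] :=
  good_of hTd _ _ _ _ _ _ _ x73 x47 x52 x49 x80 x100 go342
lemma ch343 (hTd : TdOK) : Good 0 ![w72, w47, w73, w49, w80, w100] :=
  good_of hTd _ _ _ _ _ _ _ x72 x47 x73 x49 x80 x100 go343
lemma ch344 (hTd : TdOK) : Good 0 ![w72, w82, w47, w41, w80, w96] :=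
  good_of hTd _ _ _ _ _ _ _ x72 x82 x47 x41 x80 x96 go344
lemma ch345 (hTd : TdOK) : Good 0 ![w72, w102, w47, w41, w82, w96] :=
  good_of hTd _ _ _ _ _ _ _ x72 x102 x47 x41 x82 x96 go345
lemma ch346 (hTd : TdOK) : Good 0 ![w76, w56, w47, w41, w82, w102] :=
  good_of hTd _ _ _ _ _ _ _ x76 x56 x47 x41 x82 x102 go346
lemma ch347 (hTd : TdOK) : Good 0 ![w76, w57, w70, w56, w82, w102] :=
  good_of hTd _ _ _ _ _ _ _ x76 x57 x70 x56 x82 x102 go347
lemma ch348 (hTd : TdOK) : Good 0 ![w76, w57, w47, w70, w82, w102] :=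
  good_of hTd _ _ _ _ _ _ _ x76 x57 x47 x70 x82 x102 go348
lemma ch349 (hTd : TdOK) : Good 0 ![w76, w12, w57, w56, w82, w102] :=
  good_of hTd _ _ _ _ _ _ _ x76 x12 x57 x56 x82 x102 go349
lemma ch350 (hTd : TdOK) : Good 0 ![w72, w76, w47, w41, w82, w102] :=
  good_of hTd _ _ _ _ _ _ _ x72 x76 x47 x41 x82 x102 go350
lemma ch351 (hTd : TdOK) : Good 0 ![w71, w72, w100, w41, w80, w96] :=
  good_of hTd _ _ _ _ _ _ _ x71 x72 x100 x41 x80 x96 go351
lemma ch352 (hTd : TdOK) : Good 0 ![w71, w72, w49, w41, w80, w100] :=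
  good_of hTd _ _ _ _ _ _ _ x71 x72 x49 x41 x80 x100 go352
lemma ch353 (hTd : TdOK) : Good 0 ![w71, w72, w34, w49, w80, w100] :=
  good_of hTd _ _ _ _ _ _ _ x71 x72 x34 x49 x80 x100 go353
lemma ch354 (hTd : TdOK) : Good 0 ![w33, w12, w71, w37, w78, w94] :=
  good_of hTd _ _ _ _ _ _ _ x33 x12 x71 x37 x78 x94 go354
lemma ch355 (hTd : TdOK) : Good 0 ![w83, w12, w94, w33, w17, w18] :=
  good_of hTd _ _ _ _ _ _ _ x83 x12 x94 x33 x17 x18 go355
lemma ch356 (hTd : TdOK) : Good 0 ![w83, w12, w65, w33, w17, w94] :=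
  good_of hTd _ _ _ _ _ _ _ x83 x12 x65 x33 x17 x94 go356
lemma ch357 (hTd : TdOK) : Good 0 ![w83, w12, w71, w33, w65, w94] :=
  good_of hTd _ _ _ _ _ _ _ x83 x12 x71 x33 x65 x94 go357
lemma ch358 (hTd : TdOK) : Good 0 ![w84, w96, w104, w71, w65, w94] :=
  good_of hTd _ _ _ _ _ _ _ x84 x96 x104 x71 x65 x94 go358
lemma ch359 (hTd : TdOK) : Good 0 ![w84, w96, w86, w71, w65, w104] :=
  good_of hTd _ _ _ _ _ _ _ x84 x96 x86 x71 x65 x104 go359
lemma ch360 (hTd : TdOK) : Good 0 ![w84, w100, w34, w71, w86, w104] :=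
  good_of hTd _ _ _ _ _ _ _ x84 x100 x34 x71 x86 x104 go360
lemma ch361 (hTd : TdOK) : Good 0 ![w84, w96, w100, w71, w86, w104] :=
  good_of hTd _ _ _ _ _ _ _ x84 x96 x100 x71 x86 x104 go361
lemma ch362 (hTd : TdOK) : Good 0 ![w84, w66, w86, w71, w65, w96] :=
  good_of hTd _ _ _ _ _ _ _ x84 x66 x86 x71 x65 x96 go362
lemma ch363 (hTd : TdOK) : Good 0 ![w84, w66, w100, w71, w86, w96] :=
  good_of hTd _ _ _ _ _ _ _ x84 x66 x100 x71 x86 x96 go363
lemma ch364 (hTd : TdOK) : Good 0 ![w84, w67, w77, w71, w86, w100] :=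
  good_of hTd _ _ _ _ _ _ _ x84 x67 x77 x71 x86 x100 go364
lemma ch365 (hTd : TdOK) : Good 0 ![w87, w67, w88, w77, w86, w100] :=
  good_of hTd _ _ _ _ _ _ _ x87 x67 x88 x77 x86 x100 go365
lemma ch366 (hTd : TdOK) : Good 0 ![w87, w67, w34, w77, w88, w100] :=
  good_of hTd _ _ _ _ _ _ _ x87 x67 x34 x77 x88 x100 go366
lemma ch367 (hTd : TdOK) : Good 0 ![w84, w67, w87, w77, w86, w100] :=
  good_of hTd _ _ _ _ _ _ _ x84 x67 x87 x77 x86 x100 go367
lemma ch368 (hTd : TdOK) : Good 0 ![w84, w66, w67, w71, w86, w100] :=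
  good_of hTd _ _ _ _ _ _ _ x84 x66 x67 x71 x86 x100 go368
lemma ch369 (hTd : TdOK) : Good 0 ![w84, w47, w100, w71, w66, w96] :=
  good_of hTd _ _ _ _ _ _ _ x84 x47 x100 x71 x66 x96 go369
lemma ch370 (hTd : TdOK) : Good 0 ![w84, w47, w77, w71, w66, w100] :=
  good_of hTd _ _ _ _ _ _ _ x84 x47 x77 x71 x66 x100 go370
lemma ch371 (hTd : TdOK) : Good 0 ![w84, w47, w67, w77, w66, w100] :=
  good_of hTd _ _ _ _ _ _ _ x84 x47 x67 x77 x66 x100 go371
lemma ch372 (hTd : TdOK) : Good 0 ![w87, w52, w103, w77, w67, w100] :=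
  good_of hTd _ _ _ _ _ _ _ x87 x52 x103 x77 x67 x100 go372
lemma ch373 (hTd : TdOK) : Good 0 ![w87, w52, w75, w77, w67, w103] :=
  good_of hTd _ _ _ _ _ _ _ x87 x52 x75 x77 x67 x103 go373
lemma ch374 (hTd : TdOK) : Good 0 ![w87, w52, w34, w77, w75, w103] :=
  good_of hTd _ _ _ _ _ _ _ x87 x52 x34 x77 x75 x103 go374
lemma ch375 (hTd : TdOK) : Good 0 ![w87, w73, w52, w77, w67, w100] :=
  good_of hTd _ _ _ _ _ _ _ x87 x73 x52 x77 x67 x100 go375
lemma ch376 (hTd : TdOK) : Good 0 ![w87, w47, w52, w73, w67, w100] :=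
  good_of hTd _ _ _ _ _ _ _ x87 x47 x52 x73 x67 x100 go376
lemma ch377 (hTd : TdOK) : Good 0 ![w84, w47, w87, w77, w67, w100] :=
  good_of hTd _ _ _ _ _ _ _ x84 x47 x87 x77 x67 x100 go377
lemma ch378 (hTd : TdOK) : Good 0 ![w84, w72, w47, w71, w66, w96] :=
  good_of hTd _ _ _ _ _ _ _ x84 x72 x47 x71 x66 x96 go378
lemma ch379 (hTd : TdOK) : Good 0 ![w90, w102, w47, w72, w66, w96] :=
  good_of hTd _ _ _ _ _ _ _ x90 x102 x47 x72 x66 x96 go379
lemma ch380 (hTd : TdOK) : Good 0 ![w90, w68, w47, w72, w66, w102] :=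
  good_of hTd _ _ _ _ _ _ _ x90 x68 x47 x72 x66 x102 go380
lemma ch381 (hTd : TdOK) : Good 0 ![w90, w76, w47, w72, w68, w102] :=
  good_of hTd _ _ _ _ _ _ _ x90 x76 x47 x72 x68 x102 go381
lemma ch382 (hTd : TdOK) : Good 0 ![w91, w57, w105, w76, w68, w102] :=
  good_of hTd _ _ _ _ _ _ _ x91 x57 x105 x76 x68 x102 go382
lemma ch383 (hTd : TdOK) : Good 0 ![w91, w57, w47, w76, w68, w105] :=
  good_of hTd _ _ _ _ _ _ _ x91 x57 x47 x76 x68 x105 go383
lemma ch384 (hTd : TdOK) : Good 0 ![w91, w12, w57, w76, w68, w102] :=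
  good_of hTd _ _ _ _ _ _ _ x91 x12 x57 x76 x68 x102 go384
lemma ch385 (hTd : TdOK) : Good 0 ![w90, w91, w47, w76, w68, w102] :=
  good_of hTd _ _ _ _ _ _ _ x90 x91 x47 x76 x68 x102 go385
lemma ch386 (hTd : TdOK) : Good 0 ![w84, w90, w47, w72, w66, w96] :=
  good_of hTd _ _ _ _ _ _ _ x84 x90 x47 x72 x66 x96 go386
lemma ch387 (hTd : TdOK) : Good 0 ![w83, w12, w84, w71, w65, w94] :=
  good_of hTd _ _ _ _ _ _ _ x83 x12 x84 x71 x65 x94 go387
lemma ch388 (hTd : TdOK) : Good 0 ![w0, w12, w83, w33, w17, w18] :=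
  good_of hTd _ _ _ _ _ _ _ x0 x12 x83 x33 x17 x18 go388
lemma ch389 (hTd : TdOK) : Good 0 ![w13, w14, w34, w22, w4, w5] :=
  good_of hTd _ _ _ _ _ _ _ x13 x14 x34 x22 x4 x5 go389
lemma ch390 (hTd : TdOK) : Good 0 ![w13, w35, w34, w22, w14, w5] :=
  good_of hTd _ _ _ _ _ _ _ x13 x35 x34 x22 x14 x5 go390
lemma ch391 (hTd : TdOK) : Good 0 ![w106, w107, w34, w22, w14, w35] :=
  good_of hTd _ _ _ _ _ _ _ x106 x107 x34 x22 x14 x35 go391
lemma ch392 (hTd : TdOK) : Good 0 ![w108, w39, w34, w107, w14, w35] :=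
  good_of hTd _ _ _ _ _ _ _ x108 x39 x34 x107 x14 x35 go392
lemma ch393 (hTd : TdOK) : Good 0 ![w108, w40, w34, w107, w39, w35] :=
  good_of hTd _ _ _ _ _ _ _ x108 x40 x34 x107 x39 x35 go393
lemma ch394 (hTd : TdOK) : Good 0 ![w108, w109, w34, w107, w39, w40] :=
  good_of hTd _ _ _ _ _ _ _ x108 x109 x34 x107 x39 x40 go394
lemma ch395 (hTd : TdOK) : Good 0 ![w110, w43, w44, w109, w39, w40] :=
  good_of hTd _ _ _ _ _ _ _ x110 x43 x44 x109 x39 x40 go395
lemma ch396 (hTd : TdOK) : Good 0 ![w110, w45, w44, w109, w39, w43] :=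
  good_of hTd _ _ _ _ _ _ _ x110 x45 x44 x109 x39 x43 go396
lemma ch397 (hTd : TdOK) : Good 0 ![w110, w12, w45, w109, w39, w43] :=
  good_of hTd _ _ _ _ _ _ _ x110 x12 x45 x109 x39 x43 go397
lemma ch398 (hTd : TdOK) : Good 0 ![w111, w110, w44, w109, w39, w40] :=
  good_of hTd _ _ _ _ _ _ _ x111 x110 x44 x109 x39 x40 go398
lemma ch399 (hTd : TdOK) : Good 0 ![w111, w47, w48, w109, w39, w44] :=
  good_of hTd _ _ _ _ _ _ _ x111 x47 x48 x109 x39 x44 go399
lemma ch400 (hTd : TdOK) : Good 0 ![w111, w47, w112, w109, w48, w44] :=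
  good_of hTd _ _ _ _ _ _ _ x111 x47 x112 x109 x48 x44 go400
lemma ch401 (hTd : TdOK) : Good 0 ![w111, w47, w50, w112, w48, w44] :=
  good_of hTd _ _ _ _ _ _ _ x111 x47 x50 x112 x48 x44 go401
lemma ch402 (hTd : TdOK) : Good 0 ![w113, w52, w53, w112, w48, w50] :=
  good_of hTd _ _ _ _ _ _ _ x113 x52 x53 x112 x48 x50 go402
lemma ch403 (hTd : TdOK) : Good 0 ![w113, w52, w114, w112, w53, w50] :=
  good_of hTd _ _ _ _ _ _ _ x113 x52 x114 x112 x53 x50 go403
lemma ch404 (hTd : TdOK) : Good 0 ![w113, w52, w34, w114, w53, w50] :=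
  good_of hTd _ _ _ _ _ _ _ x113 x52 x34 x114 x53 x50 go404
lemma ch405 (hTd : TdOK) : Good 0 ![w111, w52, w113, w112, w48, w50] :=
  good_of hTd _ _ _ _ _ _ _ x111 x52 x113 x112 x48 x50 go405
lemma ch406 (hTd : TdOK) : Good 0 ![w111, w47, w52, w112, w48, w50] :=
  good_of hTd _ _ _ _ _ _ _ x111 x47 x52 x112 x48 x50 go406
lemma ch407 (hTd : TdOK) : Good 0 ![w110, w45, w47, w109, w39, w44] :=
  good_of hTd _ _ _ _ _ _ _ x110 x45 x47 x109 x39 x44 go407
lemma ch408 (hTd : TdOK) : Good 0 ![w110, w55, w47, w109, w39, w45] :=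
  good_of hTd _ _ _ _ _ _ _ x110 x55 x47 x109 x39 x45 go408
lemma ch409 (hTd : TdOK) : Good 0 ![w110, w115, w47, w109, w55, w45] :=
  good_of hTd _ _ _ _ _ _ _ x110 x115 x47 x109 x55 x45 go409
lemma ch410 (hTd : TdOK) : Good 0 ![w110, w57, w47, w115, w55, w45] :=
  good_of hTd _ _ _ _ _ _ _ x110 x57 x47 x115 x55 x45 go410
lemma ch411 (hTd : TdOK) : Good 0 ![w110, w12, w57, w115, w55, w45] :=
  good_of hTd _ _ _ _ _ _ _ x110 x12 x57 x115 x55 x45 go411
lemma ch412 (hTd : TdOK) : Good 0 ![w111, w110, w47, w109, w39, w44] :=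
  good_of hTd _ _ _ _ _ _ _ x111 x110 x47 x109 x39 x44 go412
lemma ch413 (hTd : TdOK) : Good 0 ![w108, w12, w111, w109, w39, w40] :=
  good_of hTd _ _ _ _ _ _ _ x108 x12 x111 x109 x39 x40 go413
lemma ch414 (hTd : TdOK) : Good 0 ![w106, w108, w34, w107, w14, w35] :=
  good_of hTd _ _ _ _ _ _ _ x106 x108 x34 x107 x14 x35 go414
lemma ch415 (hTd : TdOK) : Good 0 ![w58, w108, w34, w106, w14, w35] :=
  good_of hTd _ _ _ _ _ _ _ x58 x108 x34 x106 x14 x35 go415
lemma ch416 (hTd : TdOK) : Good 0 ![w58, w12, w59, w108, w14, w35] :=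
  good_of hTd _ _ _ _ _ _ _ x58 x12 x59 x108 x14 x35 go416
lemma ch417 (hTd : TdOK) : Good 0 ![w58, w40, w34, w108, w59, w35] :=
  good_of hTd _ _ _ _ _ _ _ x58 x40 x34 x108 x59 x35 go417
lemma ch418 (hTd : TdOK) : Good 0 ![w60, w12, w111, w108, w59, w40] :=
  good_of hTd _ _ _ _ _ _ _ x60 x12 x111 x108 x59 x40 go418
lemma ch419 (hTd : TdOK) : Good 0 ![w60, w61, w44, w111, w59, w40] :=
  good_of hTd _ _ _ _ _ _ _ x60 x61 x44 x111 x59 x40 go419
lemma ch420 (hTd : TdOK) : Good 0 ![w60, w110, w44, w111, w61, w40] :=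
  good_of hTd _ _ _ _ _ _ _ x60 x110 x44 x111 x61 x40 go420
lemma ch421 (hTd : TdOK) : Good 0 ![w60, w43, w44, w110, w61, w40] :=
  good_of hTd _ _ _ _ _ _ _ x60 x43 x44 x110 x61 x40 go421
lemma ch422 (hTd : TdOK) : Good 0 ![w60, w12, w44, w110, w61, w43] :=
  good_of hTd _ _ _ _ _ _ _ x60 x12 x44 x110 x61 x43 go422
lemma ch423 (hTd : TdOK) : Good 0 ![w62, w47, w63, w111, w59, w44] :=
  good_of hTd _ _ _ _ _ _ _ x62 x47 x63 x111 x59 x44 go423
lemma ch424 (hTd : TdOK) : Good 0 ![w62, w47, w50, w111, w63, w44] :=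
  good_of hTd _ _ _ _ _ _ _ x62 x47 x50 x111 x63 x44 go424
lemma ch425 (hTd : TdOK) : Good 0 ![w62, w52, w34, w111, w63, w50] :=
  good_of hTd _ _ _ _ _ _ _ x62 x52 x34 x111 x63 x50 go425
lemma ch426 (hTd : TdOK) : Good 0 ![w62, w47, w52, w111, w63, w50] :=
  good_of hTd _ _ _ _ _ _ _ x62 x47 x52 x111 x63 x50 go426
lemma ch427 (hTd : TdOK) : Good 0 ![w60, w47, w62, w111, w59, w44] :=
  good_of hTd _ _ _ _ _ _ _ x60 x47 x62 x111 x59 x44 go427
lemma ch428 (hTd : TdOK) : Good 0 ![w60, w61, w47, w111, w59, w44] :=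
  good_of hTd _ _ _ _ _ _ _ x60 x61 x47 x111 x59 x44 go428
lemma ch429 (hTd : TdOK) : Good 0 ![w60, w110, w47, w111, w61, w44] :=
  good_of hTd _ _ _ _ _ _ _ x60 x110 x47 x111 x61 x44 go429
lemma ch430 (hTd : TdOK) : Good 0 ![w60, w45, w47, w110, w61, w44] :=
  good_of hTd _ _ _ _ _ _ _ x60 x45 x47 x110 x61 x44 go430
lemma ch431 (hTd : TdOK) : Good 0 ![w64, w57, w47, w110, w61, w45] :=
  good_of hTd _ _ _ _ _ _ _ x64 x57 x47 x110 x61 x45 go431
lemma ch432 (hTd : TdOK) : Good 0 ![w64, w12, w57, w110, w61, w45] :=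
  good_of hTd _ _ _ _ _ _ _ x64 x12 x57 x110 x61 x45 go432
lemma ch433 (hTd : TdOK) : Good 0 ![w60, w64, w47, w110, w61, w45] :=
  good_of hTd _ _ _ _ _ _ _ x60 x64 x47 x110 x61 x45 go433
lemma ch434 (hTd : TdOK) : Good 0 ![w58, w60, w34, w108, w59, w40] :=
  good_of hTd _ _ _ _ _ _ _ x58 x60 x34 x108 x59 x40 go434
lemma ch435 (hTd : TdOK) : Good 0 ![w13, w12, w58, w106, w14, w35] :=
  good_of hTd _ _ _ _ _ _ _ x13 x12 x58 x106 x14 x35 go435
lemma ch436 (hTd : TdOK) : Good 0 ![w65, w12, w58, w106, w20, w13] :=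
  good_of hTd _ _ _ _ _ _ _ x65 x12 x58 x106 x20 x13 go436
lemma ch437 (hTd : TdOK) : Good 0 ![w65, w116, w34, w106, w20, w58] :=
  good_of hTd _ _ _ _ _ _ _ x65 x116 x34 x106 x20 x58 go437
lemma ch438 (hTd : TdOK) : Good 0 ![w65, w108, w34, w106, w116, w58] :=
  good_of hTd _ _ _ _ _ _ _ x65 x108 x34 x106 x116 x58 go438
lemma ch439 (hTd : TdOK) : Good 0 ![w65, w12, w117, w108, w116, w58] :=
  good_of hTd _ _ _ _ _ _ _ x65 x12 x117 x108 x116 x58 go439
lemma ch440 (hTd : TdOK) : Good 0 ![w65, w60, w34, w108, w117, w58] :=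
  good_of hTd _ _ _ _ _ _ _ x65 x60 x34 x108 x117 x58 go440
lemma ch441 (hTd : TdOK) : Good 0 ![w66, w12, w111, w108, w117, w60] :=
  good_of hTd _ _ _ _ _ _ _ x66 x12 x111 x108 x117 x60 go441
lemma ch442 (hTd : TdOK) : Good 0 ![w66, w47, w62, w111, w117, w60] :=
  good_of hTd _ _ _ _ _ _ _ x66 x47 x62 x111 x117 x60 go442
lemma ch443 (hTd : TdOK) : Good 0 ![w67, w47, w118, w111, w117, w62] :=
  good_of hTd _ _ _ _ _ _ _ x67 x47 x118 x111 x117 x62 go443
lemma ch444 (hTd : TdOK) : Good 0 ![w67, w52, w34, w111, w118, w62] :=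
  good_of hTd _ _ _ _ _ _ _ x67 x52 x34 x111 x118 x62 go444
lemma ch445 (hTd : TdOK) : Good 0 ![w67, w47, w52, w111, w118, w62] :=
  good_of hTd _ _ _ _ _ _ _ x67 x47 x52 x111 x118 x62 go445
lemma ch446 (hTd : TdOK) : Good 0 ![w66, w47, w67, w111, w117, w62] :=
  good_of hTd _ _ _ _ _ _ _ x66 x47 x67 x111 x117 x62 go446
lemma ch447 (hTd : TdOK) : Good 0 ![w66, w119, w47, w111, w117, w60] :=
  good_of hTd _ _ _ _ _ _ _ x66 x119 x47 x111 x117 x60 go447
lemma ch448 (hTd : TdOK) : Good 0 ![w66, w110, w47, w111, w119, w60] :=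
  good_of hTd _ _ _ _ _ _ _ x66 x110 x47 x111 x119 x60 go448
lemma ch449 (hTd : TdOK) : Good 0 ![w66, w64, w47, w110, w119, w60] :=
  good_of hTd _ _ _ _ _ _ _ x66 x64 x47 x110 x119 x60 go449
lemma ch450 (hTd : TdOK) : Good 0 ![w68, w57, w47, w110, w119, w64] :=
  good_of hTd _ _ _ _ _ _ _ x68 x57 x47 x110 x119 x64 go450
lemma ch451 (hTd : TdOK) : Good 0 ![w68, w12, w57, w110, w119, w64] :=
  good_of hTd _ _ _ _ _ _ _ x68 x12 x57 x110 x119 x64 go451
lemma ch452 (hTd : TdOK) : Good 0 ![w66, w68, w47, w110, w119, w64] :=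
  good_of hTd _ _ _ _ _ _ _ x66 x68 x47 x110 x119 x64 go452
lemma ch453 (hTd : TdOK) : Good 0 ![w65, w66, w34, w108, w117, w60] :=
  good_of hTd _ _ _ _ _ _ _ x65 x66 x34 x108 x117 x60 go453
lemma ch454 (hTd : TdOK) : Good 0 ![w17, w12, w65, w106, w20, w13] :=
  good_of hTd _ _ _ _ _ _ _ x17 x12 x65 x106 x20 x13 go454
lemma ch455 (hTd : TdOK) : Good 0 ![w120, w107, w34, w22, w20, w106] :=
  good_of hTd _ _ _ _ _ _ _ x120 x107 x34 x22 x20 x106 go455
lemma ch456 (hTd : TdOK) : Good 0 ![w120, w116, w34, w107, w20, w106] :=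
  good_of hTd _ _ _ _ _ _ _ x120 x116 x34 x107 x20 x106 go456
lemma ch457 (hTd : TdOK) : Good 0 ![w121, w108, w34, w107, w116, w106] :=
  good_of hTd _ _ _ _ _ _ _ x121 x108 x34 x107 x116 x106 go457
lemma ch458 (hTd : TdOK) : Good 0 ![w121, w12, w117, w107, w116, w108] :=
  good_of hTd _ _ _ _ _ _ _ x121 x12 x117 x107 x116 x108 go458
lemma ch459 (hTd : TdOK) : Good 0 ![w121, w109, w34, w107, w117, w108] :=
  good_of hTd _ _ _ _ _ _ _ x121 x109 x34 x107 x117 x108 go459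
lemma ch460 (hTd : TdOK) : Good 0 ![w122, w12, w111, w109, w117, w108] :=
  good_of hTd _ _ _ _ _ _ _ x122 x12 x111 x109 x117 x108 go460
lemma ch461 (hTd : TdOK) : Good 0 ![w122, w47, w112, w109, w117, w111] :=
  good_of hTd _ _ _ _ _ _ _ x122 x47 x112 x109 x117 x111 go461
lemma ch462 (hTd : TdOK) : Good 0 ![w122, w47, w118, w112, w117, w111] :=
  good_of hTd _ _ _ _ _ _ _ x122 x47 x118 x112 x117 x111 go462
lemma ch463 (hTd : TdOK) : Good 0 ![w122, w52, w113, w112, w118, w111] :=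
  good_of hTd _ _ _ _ _ _ _ x122 x52 x113 x112 x118 x111 go463
lemma ch464 (hTd : TdOK) : Good 0 ![w123, w52, w34, w112, w118, w113] :=
  good_of hTd _ _ _ _ _ _ _ x123 x52 x34 x112 x118 x113 go464
lemma ch465 (hTd : TdOK) : Good 0 ![w122, w52, w123, w112, w118, w113] :=
  good_of hTd _ _ _ _ _ _ _ x122 x52 x123 x112 x118 x113 go465
lemma ch466 (hTd : TdOK) : Good 0 ![w122, w124, w52, w112, w118, w111] :=
  good_of hTd _ _ _ _ _ _ _ x122 x124 x52 x112 x118 x111 go466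
lemma ch467 (hTd : TdOK) : Good 0 ![w122, w47, w52, w112, w118, w124] :=
  good_of hTd _ _ _ _ _ _ _ x122 x47 x52 x112 x118 x124 go467
lemma ch468 (hTd : TdOK) : Good 0 ![w122, w119, w47, w109, w117, w111] :=
  good_of hTd _ _ _ _ _ _ _ x122 x119 x47 x109 x117 x111 go468
lemma ch469 (hTd : TdOK) : Good 0 ![w122, w110, w47, w109, w119, w111] :=
  good_of hTd _ _ _ _ _ _ _ x122 x110 x47 x109 x119 x111 go469
lemma ch470 (hTd : TdOK) : Good 0 ![w125, w115, w47, w109, w119, w110] :=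
  good_of hTd _ _ _ _ _ _ _ x125 x115 x47 x109 x119 x110 go470
lemma ch471 (hTd : TdOK) : Good 0 ![w125, w57, w47, w115, w119, w110] :=
  good_of hTd _ _ _ _ _ _ _ x125 x57 x47 x115 x119 x110 go471
lemma ch472 (hTd : TdOK) : Good 0 ![w125, w126, w57, w115, w119, w110] :=
  good_of hTd _ _ _ _ _ _ _ x125 x126 x57 x115 x119 x110 go472
lemma ch473 (hTd : TdOK) : Good 0 ![w125, w12, w57, w115, w126, w110] :=
  good_of hTd _ _ _ _ _ _ _ x125 x12 x57 x115 x126 x110 go473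
lemma ch474 (hTd : TdOK) : Good 0 ![w122, w125, w47, w109, w119, w110] :=
  good_of hTd _ _ _ _ _ _ _ x122 x125 x47 x109 x119 x110 go474
lemma ch475 (hTd : TdOK) : Good 0 ![w121, w12, w122, w109, w117, w108] :=
  good_of hTd _ _ _ _ _ _ _ x121 x12 x122 x109 x117 x108 go475
lemma ch476 (hTd : TdOK) : Good 0 ![w120, w121, w34, w107, w116, w106] :=
  good_of hTd _ _ _ _ _ _ _ x120 x121 x34 x107 x116 x106 go476
lemma ch477 (hTd : TdOK) : Good 0 ![w65, w116, w34, w120, w20, w106] :=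
  good_of hTd _ _ _ _ _ _ _ x65 x116 x34 x120 x20 x106 go477
lemma ch478 (hTd : TdOK) : Good 0 ![w65, w121, w34, w120, w116, w106] :=
  good_of hTd _ _ _ _ _ _ _ x65 x121 x34 x120 x116 x106 go478
lemma ch479 (hTd : TdOK) : Good 0 ![w65, w108, w34, w121, w116, w106] :=
  good_of hTd _ _ _ _ _ _ _ x65 x108 x34 x121 x116 x106 go479
lemma ch480 (hTd : TdOK) : Good 0 ![w65, w12, w117, w121, w116, w108] :=
  good_of hTd _ _ _ _ _ _ _ x65 x12 x117 x121 x116 x108 go480
lemma ch481 (hTd : TdOK) : Good 0 ![w66, w12, w122, w121, w117, w108] :=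
  good_of hTd _ _ _ _ _ _ _ x66 x12 x122 x121 x117 x108 go481
lemma ch482 (hTd : TdOK) : Good 0 ![w66, w12, w111, w122, w117, w108] :=
  good_of hTd _ _ _ _ _ _ _ x66 x12 x111 x122 x117 x108 go482
lemma ch483 (hTd : TdOK) : Good 0 ![w67, w47, w118, w122, w117, w111] :=
  good_of hTd _ _ _ _ _ _ _ x67 x47 x118 x122 x117 x111 go483
lemma ch484 (hTd : TdOK) : Good 0 ![w67, w52, w34, w122, w118, w111] :=
  good_of hTd _ _ _ _ _ _ _ x67 x52 x34 x122 x118 x111 go484
lemma ch485 (hTd : TdOK) : Good 0 ![w67, w47, w52, w122, w118, w111] :=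
  good_of hTd _ _ _ _ _ _ _ x67 x47 x52 x122 x118 x111 go485
lemma ch486 (hTd : TdOK) : Good 0 ![w66, w47, w67, w122, w117, w111] :=
  good_of hTd _ _ _ _ _ _ _ x66 x47 x67 x122 x117 x111 go486
lemma ch487 (hTd : TdOK) : Good 0 ![w66, w119, w47, w122, w117, w111] :=
  good_of hTd _ _ _ _ _ _ _ x66 x119 x47 x122 x117 x111 go487
lemma ch488 (hTd : TdOK) : Good 0 ![w66, w110, w47, w122, w119, w111] :=
  good_of hTd _ _ _ _ _ _ _ x66 x110 x47 x122 x119 x111 go488
lemma ch489 (hTd : TdOK) : Good 0 ![w66, w125, w47, w122, w119, w110] :=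
  good_of hTd _ _ _ _ _ _ _ x66 x125 x47 x122 x119 x110 go489
lemma ch490 (hTd : TdOK) : Good 0 ![w68, w57, w47, w125, w119, w110] :=
  good_of hTd _ _ _ _ _ _ _ x68 x57 x47 x125 x119 x110 go490
lemma ch491 (hTd : TdOK) : Good 0 ![w68, w12, w57, w125, w119, w110] :=
  good_of hTd _ _ _ _ _ _ _ x68 x12 x57 x125 x119 x110 go491
lemma ch492 (hTd : TdOK) : Good 0 ![w66, w68, w47, w125, w119, w110] :=
  good_of hTd _ _ _ _ _ _ _ x66 x68 x47 x125 x119 x110 go492
lemma ch493 (hTd : TdOK) : Good 0 ![w65, w66, w34, w121, w117, w108] :=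
  good_of hTd _ _ _ _ _ _ _ x65 x66 x34 x121 x117 x108 go493
lemma ch494 (hTd : TdOK) : Good 0 ![w17, w12, w65, w120, w20, w106] :=
  good_of hTd _ _ _ _ _ _ _ x17 x12 x65 x120 x20 x106 go494
lemma ch495 (hTd : TdOK) : Good 0 ![w17, w14, w34, w22, w4, w20] :=
  good_of hTd _ _ _ _ _ _ _ x17 x14 x34 x22 x4 x20 go495
lemma ch496 (hTd : TdOK) : Good 0 ![w120, w107, w34, w22, w14, w20] :=
  good_of hTd _ _ _ _ _ _ _ x120 x107 x34 x22 x14 x20 go496
lemma ch497 (hTd : TdOK) : Good 0 ![w120, w116, w34, w107, w14, w20] :=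
  good_of hTd _ _ _ _ _ _ _ x120 x116 x34 x107 x14 x20 go497
lemma ch498 (hTd : TdOK) : Good 0 ![w121, w39, w34, w107, w14, w116] :=
  good_of hTd _ _ _ _ _ _ _ x121 x39 x34 x107 x14 x116 go498
lemma ch499 (hTd : TdOK) : Good 0 ![w121, w12, w117, w107, w39, w116] :=
  good_of hTd _ _ _ _ _ _ _ x121 x12 x117 x107 x39 x116 go499
lemma ch500 (hTd : TdOK) : Good 0 ![w121, w109, w34, w107, w39, w117] :=
  good_of hTd _ _ _ _ _ _ _ x121 x109 x34 x107 x39 x117 go500
lemma ch501 (hTd : TdOK) : Good 0 ![w122, w47, w48, w109, w39, w117] :=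
  good_of hTd _ _ _ _ _ _ _ x122 x47 x48 x109 x39 x117 go501
lemma ch502 (hTd : TdOK) : Good 0 ![w122, w47, w112, w109, w48, w117] :=
  good_of hTd _ _ _ _ _ _ _ x122 x47 x112 x109 x48 x117 go502
lemma ch503 (hTd : TdOK) : Good 0 ![w122, w47, w118, w112, w48, w117] :=
  good_of hTd _ _ _ _ _ _ _ x122 x47 x118 x112 x48 x117 go503
lemma ch504 (hTd : TdOK) : Good 0 ![w123, w52, w34, w112, w48, w118] :=
  good_of hTd _ _ _ _ _ _ _ x123 x52 x34 x112 x48 x118 go504
lemma ch505 (hTd : TdOK) : Good 0 ![w122, w52, w123, w112, w48, w118] :=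
  good_of hTd _ _ _ _ _ _ _ x122 x52 x123 x112 x48 x118 go505
lemma ch506 (hTd : TdOK) : Good 0 ![w122, w47, w52, w112, w48, w118] :=
  good_of hTd _ _ _ _ _ _ _ x122 x47 x52 x112 x48 x118 go506
lemma ch507 (hTd : TdOK) : Good 0 ![w122, w119, w47, w109, w39, w117] :=
  good_of hTd _ _ _ _ _ _ _ x122 x119 x47 x109 x39 x117 go507
lemma ch508 (hTd : TdOK) : Good 0 ![w125, w55, w47, w109, w39, w119] :=
  good_of hTd _ _ _ _ _ _ _ x125 x55 x47 x109 x39 x119 go508
lemma ch509 (hTd : TdOK) : Good 0 ![w125, w115, w47, w109, w55, w119] :=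
  good_of hTd _ _ _ _ _ _ _ x125 x115 x47 x109 x55 x119 go509
lemma ch510 (hTd : TdOK) : Good 0 ![w125, w57, w47, w115, w55, w119] :=
  good_of hTd _ _ _ _ _ _ _ x125 x57 x47 x115 x55 x119 go510
lemma ch511 (hTd : TdOK) : Good 0 ![w125, w12, w57, w115, w55, w119] :=
  good_of hTd _ _ _ _ _ _ _ x125 x12 x57 x115 x55 x119 go511
lemma ch512 (hTd : TdOK) : Good 0 ![w122, w125, w47, w109, w39, w119] :=
  good_of hTd _ _ _ _ _ _ _ x122 x125 x47 x109 x39 x119 go512
lemma ch513 (hTd : TdOK) : Good 0 ![w121, w12, w122, w109, w39, w117] :=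
  good_of hTd _ _ _ _ _ _ _ x121 x12 x122 x109 x39 x117 go513
lemma ch514 (hTd : TdOK) : Good 0 ![w120, w121, w34, w107, w14, w116] :=
  good_of hTd _ _ _ _ _ _ _ x120 x121 x34 x107 x14 x116 go514
lemma ch515 (hTd : TdOK) : Good 0 ![w65, w116, w34, w120, w14, w20] :=
  good_of hTd _ _ _ _ _ _ _ x65 x116 x34 x120 x14 x20 go515
lemma ch516 (hTd : TdOK) : Good 0 ![w65, w121, w34, w120, w14, w116] :=
  good_of hTd _ _ _ _ _ _ _ x65 x121 x34 x120 x14 x116 go516
lemma ch517 (hTd : TdOK) : Good 0 ![w65, w39, w34, w121, w14, w116] :=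
  good_of hTd _ _ _ _ _ _ _ x65 x39 x34 x121 x14 x116 go517
lemma ch518 (hTd : TdOK) : Good 0 ![w65, w12, w117, w121, w39, w116] :=
  good_of hTd _ _ _ _ _ _ _ x65 x12 x117 x121 x39 x116 go518
lemma ch519 (hTd : TdOK) : Good 0 ![w66, w12, w122, w121, w39, w117] :=
  good_of hTd _ _ _ _ _ _ _ x66 x12 x122 x121 x39 x117 go519
lemma ch520 (hTd : TdOK) : Good 0 ![w66, w47, w48, w122, w39, w117] :=
  good_of hTd _ _ _ _ _ _ _ x66 x47 x48 x122 x39 x117 go520
lemma ch521 (hTd : TdOK) : Good 0 ![w67, w47, w118, w122, w48, w117] :=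
  good_of hTd _ _ _ _ _ _ _ x67 x47 x118 x122 x48 x117 go521
lemma ch522 (hTd : TdOK) : Good 0 ![w67, w52, w34, w122, w48, w118] :=
  good_of hTd _ _ _ _ _ _ _ x67 x52 x34 x122 x48 x118 go522
lemma ch523 (hTd : TdOK) : Good 0 ![w67, w47, w52, w122, w48, w118] :=
  good_of hTd _ _ _ _ _ _ _ x67 x47 x52 x122 x48 x118 go523
lemma ch524 (hTd : TdOK) : Good 0 ![w66, w47, w67, w122, w48, w117] :=
  good_of hTd _ _ _ _ _ _ _ x66 x47 x67 x122 x48 x117 go524
lemma ch525 (hTd : TdOK) : Good 0 ![w66, w119, w47, w122, w39, w117] :=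
  good_of hTd _ _ _ _ _ _ _ x66 x119 x47 x122 x39 x117 go525
lemma ch526 (hTd : TdOK) : Good 0 ![w66, w125, w47, w122, w39, w119] :=
  good_of hTd _ _ _ _ _ _ _ x66 x125 x47 x122 x39 x119 go526
lemma ch527 (hTd : TdOK) : Good 0 ![w66, w55, w47, w125, w39, w119] :=
  good_of hTd _ _ _ _ _ _ _ x66 x55 x47 x125 x39 x119 go527
lemma ch528 (hTd : TdOK) : Good 0 ![w68, w57, w47, w125, w55, w119] :=
  good_of hTd _ _ _ _ _ _ _ x68 x57 x47 x125 x55 x119 go528
lemma ch529 (hTd : TdOK) : Good 0 ![w68, w12, w57, w125, w55, w119] :=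
  good_of hTd _ _ _ _ _ _ _ x68 x12 x57 x125 x55 x119 go529
lemma ch530 (hTd : TdOK) : Good 0 ![w66, w68, w47, w125, w55, w119] :=
  good_of hTd _ _ _ _ _ _ _ x66 x68 x47 x125 x55 x119 go530
lemma ch531 (hTd : TdOK) : Good 0 ![w65, w66, w34, w121, w39, w117] :=
  good_of hTd _ _ _ _ _ _ _ x65 x66 x34 x121 x39 x117 go531
lemma ch532 (hTd : TdOK) : Good 0 ![w17, w12, w65, w120, w14, w20] :=
  good_of hTd _ _ _ _ _ _ _ x17 x12 x65 x120 x14 x20 go532
lemma ch533 (hTd : TdOK) : Good 0 ![w23, w12, w65, w106, w17, w13] :=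
  good_of hTd _ _ _ _ _ _ _ x23 x12 x65 x106 x17 x13 go533
lemma ch534 (hTd : TdOK) : Good 0 ![w23, w12, w58, w106, w65, w13] :=
  good_of hTd _ _ _ _ _ _ _ x23 x12 x58 x106 x65 x13 go534
lemma ch535 (hTd : TdOK) : Good 0 ![w127, w108, w34, w106, w65, w58] :=
  good_of hTd _ _ _ _ _ _ _ x127 x108 x34 x106 x65 x58 go535
lemma ch536 (hTd : TdOK) : Good 0 ![w127, w60, w34, w108, w65, w58] :=
  good_of hTd _ _ _ _ _ _ _ x127 x60 x34 x108 x65 x58 go536
lemma ch537 (hTd : TdOK) : Good 0 ![w127, w66, w34, w108, w65, w60] :=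
  good_of hTd _ _ _ _ _ _ _ x127 x66 x34 x108 x65 x60 go537
lemma ch538 (hTd : TdOK) : Good 0 ![w127, w12, w111, w108, w66, w60] :=
  good_of hTd _ _ _ _ _ _ _ x127 x12 x111 x108 x66 x60 go538
lemma ch539 (hTd : TdOK) : Good 0 ![w128, w47, w62, w111, w66, w60] :=
  good_of hTd _ _ _ _ _ _ _ x128 x47 x62 x111 x66 x60 go539
lemma ch540 (hTd : TdOK) : Good 0 ![w128, w47, w67, w111, w66, w62] :=
  good_of hTd _ _ _ _ _ _ _ x128 x47 x67 x111 x66 x62 go540
lemma ch541 (hTd : TdOK) : Good 0 ![w129, w47, w113, w111, w67, w62] :=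
  good_of hTd _ _ _ _ _ _ _ x129 x47 x113 x111 x67 x62 go541
lemma ch542 (hTd : TdOK) : Good 0 ![w129, w52, w74, w113, w67, w62] :=
  good_of hTd _ _ _ _ _ _ _ x129 x52 x74 x113 x67 x62 go542
lemma ch543 (hTd : TdOK) : Good 0 ![w129, w52, w75, w113, w67, w74] :=
  good_of hTd _ _ _ _ _ _ _ x129 x52 x75 x113 x67 x74 go543
lemma ch544 (hTd : TdOK) : Good 0 ![w129, w52, w34, w113, w75, w74] :=
  good_of hTd _ _ _ _ _ _ _ x129 x52 x34 x113 x75 x74 go544
lemma ch545 (hTd : TdOK) : Good 0 ![w129, w47, w52, w113, w67, w62] :=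
  good_of hTd _ _ _ _ _ _ _ x129 x47 x52 x113 x67 x62 go545
lemma ch546 (hTd : TdOK) : Good 0 ![w128, w47, w129, w111, w67, w62] :=
  good_of hTd _ _ _ _ _ _ _ x128 x47 x129 x111 x67 x62 go546
lemma ch547 (hTd : TdOK) : Good 0 ![w128, w110, w47, w111, w66, w60] :=
  good_of hTd _ _ _ _ _ _ _ x128 x110 x47 x111 x66 x60 go547
lemma ch548 (hTd : TdOK) : Good 0 ![w128, w64, w47, w110, w66, w60] :=
  good_of hTd _ _ _ _ _ _ _ x128 x64 x47 x110 x66 x60 go548
lemma ch549 (hTd : TdOK) : Good 0 ![w128, w68, w47, w110, w66, w64] :=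
  good_of hTd _ _ _ _ _ _ _ x128 x68 x47 x110 x66 x64 go549
lemma ch550 (hTd : TdOK) : Good 0 ![w130, w57, w47, w110, w68, w64] :=
  good_of hTd _ _ _ _ _ _ _ x130 x57 x47 x110 x68 x64 go550
lemma ch551 (hTd : TdOK) : Good 0 ![w130, w12, w57, w110, w68, w64] :=
  good_of hTd _ _ _ _ _ _ _ x130 x12 x57 x110 x68 x64 go551
lemma ch552 (hTd : TdOK) : Good 0 ![w128, w130, w47, w110, w68, w64] :=
  good_of hTd _ _ _ _ _ _ _ x128 x130 x47 x110 x68 x64 go552
lemma ch553 (hTd : TdOK) : Good 0 ![w131, w128, w62, w111, w66, w60] :=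
  good_of hTd _ _ _ _ _ _ _ x131 x128 x62 x111 x66 x60 go553
lemma ch554 (hTd : TdOK) : Good 0 ![w131, w128, w67, w111, w66, w62] :=
  good_of hTd _ _ _ _ _ _ _ x131 x128 x67 x111 x66 x62 go554
lemma ch555 (hTd : TdOK) : Good 0 ![w131, w129, w113, w111, w67, w62] :=
  good_of hTd _ _ _ _ _ _ _ x131 x129 x113 x111 x67 x62 go555
lemma ch556 (hTd : TdOK) : Good 0 ![w131, w129, w34, w113, w67, w62] :=
  good_of hTd _ _ _ _ _ _ _ x131 x129 x34 x113 x67 x62 go556
lemma ch557 (hTd : TdOK) : Good 0 ![w131, w128, w129, w111, w67, w62] :=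
  good_of hTd _ _ _ _ _ _ _ x131 x128 x129 x111 x67 x62 go557
lemma ch558 (hTd : TdOK) : Good 0 ![w127, w128, w131, w111, w66, w60] :=
  good_of hTd _ _ _ _ _ _ _ x127 x128 x131 x111 x66 x60 go558
lemma ch559 (hTd : TdOK) : Good 0 ![w23, w12, w127, w106, w65, w58] :=
  good_of hTd _ _ _ _ _ _ _ x23 x12 x127 x106 x65 x58 go559
lemma ch560 (hTd : TdOK) : Good 0 ![w23, w12, w65, w120, w17, w106] :=
  good_of hTd _ _ _ _ _ _ _ x23 x12 x65 x120 x17 x106 go560
lemma ch561 (hTd : TdOK) : Good 0 ![w127, w121, w34, w120, w65, w106] :=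
  good_of hTd _ _ _ _ _ _ _ x127 x121 x34 x120 x65 x106 go561
lemma ch562 (hTd : TdOK) : Good 0 ![w127, w108, w34, w121, w65, w106] :=
  good_of hTd _ _ _ _ _ _ _ x127 x108 x34 x121 x65 x106 go562
lemma ch563 (hTd : TdOK) : Good 0 ![w127, w66, w34, w121, w65, w108] :=
  good_of hTd _ _ _ _ _ _ _ x127 x66 x34 x121 x65 x108 go563
lemma ch564 (hTd : TdOK) : Good 0 ![w127, w12, w111, w121, w66, w108] :=
  good_of hTd _ _ _ _ _ _ _ x127 x12 x111 x121 x66 x108 go564
lemma ch565 (hTd : TdOK) : Good 0 ![w127, w12, w122, w121, w66, w111] :=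
  good_of hTd _ _ _ _ _ _ _ x127 x12 x122 x121 x66 x111 go565
lemma ch566 (hTd : TdOK) : Good 0 ![w128, w47, w67, w122, w66, w111] :=
  good_of hTd _ _ _ _ _ _ _ x128 x47 x67 x122 x66 x111 go566
lemma ch567 (hTd : TdOK) : Good 0 ![w129, w47, w113, w122, w67, w111] :=
  good_of hTd _ _ _ _ _ _ _ x129 x47 x113 x122 x67 x111 go567
lemma ch568 (hTd : TdOK) : Good 0 ![w129, w52, w123, w122, w67, w113] :=
  good_of hTd _ _ _ _ _ _ _ x129 x52 x123 x122 x67 x113 go568
lemma ch569 (hTd : TdOK) : Good 0 ![w129, w52, w75, w123, w67, w113] :=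
  good_of hTd _ _ _ _ _ _ _ x129 x52 x75 x123 x67 x113 go569
lemma ch570 (hTd : TdOK) : Good 0 ![w129, w52, w34, w123, w75, w113] :=
  good_of hTd _ _ _ _ _ _ _ x129 x52 x34 x123 x75 x113 go570
lemma ch571 (hTd : TdOK) : Good 0 ![w129, w47, w52, w122, w67, w113] :=
  good_of hTd _ _ _ _ _ _ _ x129 x47 x52 x122 x67 x113 go571
lemma ch572 (hTd : TdOK) : Good 0 ![w128, w47, w129, w122, w67, w111] :=
  good_of hTd _ _ _ _ _ _ _ x128 x47 x129 x122 x67 x111 go572
lemma ch573 (hTd : TdOK) : Good 0 ![w128, w110, w47, w122, w66, w111] :=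
  good_of hTd _ _ _ _ _ _ _ x128 x110 x47 x122 x66 x111 go573
lemma ch574 (hTd : TdOK) : Good 0 ![w128, w125, w47, w122, w66, w110] :=
  good_of hTd _ _ _ _ _ _ _ x128 x125 x47 x122 x66 x110 go574
lemma ch575 (hTd : TdOK) : Good 0 ![w128, w68, w47, w125, w66, w110] :=
  good_of hTd _ _ _ _ _ _ _ x128 x68 x47 x125 x66 x110 go575
lemma ch576 (hTd : TdOK) : Good 0 ![w130, w57, w47, w125, w68, w110] :=
  good_of hTd _ _ _ _ _ _ _ x130 x57 x47 x125 x68 x110 go576
lemma ch577 (hTd : TdOK) : Good 0 ![w130, w12, w57, w125, w68, w110] :=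
  good_of hTd _ _ _ _ _ _ _ x130 x12 x57 x125 x68 x110 go577
lemma ch578 (hTd : TdOK) : Good 0 ![w128, w130, w47, w125, w68, w110] :=
  good_of hTd _ _ _ _ _ _ _ x128 x130 x47 x125 x68 x110 go578
lemma ch579 (hTd : TdOK) : Good 0 ![w131, w128, w67, w122, w66, w111] :=
  good_of hTd _ _ _ _ _ _ _ x131 x128 x67 x122 x66 x111 go579
lemma ch580 (hTd : TdOK) : Good 0 ![w131, w128, w34, w122, w67, w111] :=
  good_of hTd _ _ _ _ _ _ _ x131 x128 x34 x122 x67 x111 go580
lemma ch581 (hTd : TdOK) : Good 0 ![w127, w128, w131, w122, w66, w111] :=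
  good_of hTd _ _ _ _ _ _ _ x127 x128 x131 x122 x66 x111 go581
lemma ch582 (hTd : TdOK) : Good 0 ![w23, w12, w127, w120, w65, w106] :=
  good_of hTd _ _ _ _ _ _ _ x23 x12 x127 x120 x65 x106 go582
lemma ch583 (hTd : TdOK) : Good 0 ![w23, w107, w34, w22, w120, w106] :=
  good_of hTd _ _ _ _ _ _ _ x23 x107 x34 x22 x120 x106 go583
lemma ch584 (hTd : TdOK) : Good 0 ![w127, w121, w34, w107, w120, w106] :=
  good_of hTd _ _ _ _ _ _ _ x127 x121 x34 x107 x120 x106 go584
lemma ch585 (hTd : TdOK) : Good 0 ![w127, w108, w34, w107, w121, w106] :=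
  good_of hTd _ _ _ _ _ _ _ x127 x108 x34 x107 x121 x106 go585
lemma ch586 (hTd : TdOK) : Good 0 ![w127, w12, w111, w107, w121, w108] :=
  good_of hTd _ _ _ _ _ _ _ x127 x12 x111 x107 x121 x108 go586
lemma ch587 (hTd : TdOK) : Good 0 ![w127, w12, w122, w107, w121, w111] :=
  good_of hTd _ _ _ _ _ _ _ x127 x12 x122 x107 x121 x111 go587
lemma ch588 (hTd : TdOK) : Good 0 ![w127, w109, w34, w107, w122, w111] :=
  good_of hTd _ _ _ _ _ _ _ x127 x109 x34 x107 x122 x111 go588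
lemma ch589 (hTd : TdOK) : Good 0 ![w128, w47, w112, w109, w122, w111] :=
  good_of hTd _ _ _ _ _ _ _ x128 x47 x112 x109 x122 x111 go589
lemma ch590 (hTd : TdOK) : Good 0 ![w129, w47, w113, w112, w122, w111] :=
  good_of hTd _ _ _ _ _ _ _ x129 x47 x113 x112 x122 x111 go590
lemma ch591 (hTd : TdOK) : Good 0 ![w129, w52, w123, w112, w122, w113] :=
  good_of hTd _ _ _ _ _ _ _ x129 x52 x123 x112 x122 x113 go591
lemma ch592 (hTd : TdOK) : Good 0 ![w129, w52, w114, w112, w123, w113] :=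
  good_of hTd _ _ _ _ _ _ _ x129 x52 x114 x112 x123 x113 go592
lemma ch593 (hTd : TdOK) : Good 0 ![w129, w52, w34, w114, w123, w113] :=
  good_of hTd _ _ _ _ _ _ _ x129 x52 x34 x114 x123 x113 go593
lemma ch594 (hTd : TdOK) : Good 0 ![w129, w47, w52, w112, w122, w113] :=
  good_of hTd _ _ _ _ _ _ _ x129 x47 x52 x112 x122 x113 go594
lemma ch595 (hTd : TdOK) : Good 0 ![w128, w47, w129, w112, w122, w111] :=
  good_of hTd _ _ _ _ _ _ _ x128 x47 x129 x112 x122 x111 go595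
lemma ch596 (hTd : TdOK) : Good 0 ![w128, w110, w47, w109, w122, w111] :=
  good_of hTd _ _ _ _ _ _ _ x128 x110 x47 x109 x122 x111 go596
lemma ch597 (hTd : TdOK) : Good 0 ![w128, w125, w47, w109, w122, w110] :=
  good_of hTd _ _ _ _ _ _ _ x128 x125 x47 x109 x122 x110 go597
lemma ch598 (hTd : TdOK) : Good 0 ![w130, w115, w47, w109, w125, w110] :=
  good_of hTd _ _ _ _ _ _ _ x130 x115 x47 x109 x125 x110 go598
lemma ch599 (hTd : TdOK) : Good 0 ![w130, w57, w132, w115, w125, w110] :=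
  good_of hTd _ _ _ _ _ _ _ x130 x57 x132 x115 x125 x110 go599
lemma ch600 (hTd : TdOK) : Good 0 ![w130, w57, w47, w132, w125, w110] :=
  good_of hTd _ _ _ _ _ _ _ x130 x57 x47 x132 x125 x110 go600
lemma ch601 (hTd : TdOK) : Good 0 ![w130, w12, w57, w115, w125, w110] :=
  good_of hTd _ _ _ _ _ _ _ x130 x12 x57 x115 x125 x110 go601
lemma ch602 (hTd : TdOK) : Good 0 ![w128, w130, w47, w109, w125, w110] :=
  good_of hTd _ _ _ _ _ _ _ x128 x130 x47 x109 x125 x110 go602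
lemma ch603 (hTd : TdOK) : Good 0 ![w127, w128, w34, w109, w122, w111] :=
  good_of hTd _ _ _ _ _ _ _ x127 x128 x34 x109 x122 x111 go603
lemma ch604 (hTd : TdOK) : Good 0 ![w23, w12, w127, w107, w120, w106] :=
  good_of hTd _ _ _ _ _ _ _ x23 x12 x127 x107 x120 x106 go604
lemma ch605 (hTd : TdOK) : Good 0 ![w83, w12, w65, w23, w17, w13] :=
  good_of hTd _ _ _ _ _ _ _ x83 x12 x65 x23 x17 x13 go605
lemma ch606 (hTd : TdOK) : Good 0 ![w83, w12, w58, w23, w65, w13] :=
  good_of hTd _ _ _ _ _ _ _ x83 x12 x58 x23 x65 x13 go606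
lemma ch607 (hTd : TdOK) : Good 0 ![w83, w12, w127, w23, w65, w58] :=
  good_of hTd _ _ _ _ _ _ _ x83 x12 x127 x23 x65 x58 go607
lemma ch608 (hTd : TdOK) : Good 0 ![w84, w60, w85, w127, w65, w58] :=
  good_of hTd _ _ _ _ _ _ _ x84 x60 x85 x127 x65 x58 go608
lemma ch609 (hTd : TdOK) : Good 0 ![w84, w60, w86, w127, w65, w85] :=
  good_of hTd _ _ _ _ _ _ _ x84 x60 x86 x127 x65 x85 go609
lemma ch610 (hTd : TdOK) : Good 0 ![w84, w62, w131, w127, w86, w85] :=
  good_of hTd _ _ _ _ _ _ _ x84 x62 x131 x127 x86 x85 go610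
lemma ch611 (hTd : TdOK) : Good 0 ![w87, w62, w34, w131, w86, w85] :=
  good_of hTd _ _ _ _ _ _ _ x87 x62 x34 x131 x86 x85 go611
lemma ch612 (hTd : TdOK) : Good 0 ![w84, w62, w87, w131, w86, w85] :=
  good_of hTd _ _ _ _ _ _ _ x84 x62 x87 x131 x86 x85 go612
lemma ch613 (hTd : TdOK) : Good 0 ![w84, w60, w62, w127, w86, w85] :=
  good_of hTd _ _ _ _ _ _ _ x84 x60 x62 x127 x86 x85 go613
lemma ch614 (hTd : TdOK) : Good 0 ![w84, w66, w86, w127, w65, w60] :=
  good_of hTd _ _ _ _ _ _ _ x84 x66 x86 x127 x65 x60 go614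
lemma ch615 (hTd : TdOK) : Good 0 ![w84, w66, w62, w127, w86, w60] :=
  good_of hTd _ _ _ _ _ _ _ x84 x66 x62 x127 x86 x60 go615
lemma ch616 (hTd : TdOK) : Good 0 ![w84, w66, w131, w127, w86, w62] :=
  good_of hTd _ _ _ _ _ _ _ x84 x66 x131 x127 x86 x62 go616
lemma ch617 (hTd : TdOK) : Good 0 ![w87, w67, w88, w131, w86, w62] :=
  good_of hTd _ _ _ _ _ _ _ x87 x67 x88 x131 x86 x62 go617
lemma ch618 (hTd : TdOK) : Good 0 ![w87, w67, w34, w131, w88, w62] :=
  good_of hTd _ _ _ _ _ _ _ x87 x67 x34 x131 x88 x62 go618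
lemma ch619 (hTd : TdOK) : Good 0 ![w84, w67, w87, w131, w86, w62] :=
  good_of hTd _ _ _ _ _ _ _ x84 x67 x87 x131 x86 x62 go619
lemma ch620 (hTd : TdOK) : Good 0 ![w84, w66, w67, w131, w86, w62] :=
  good_of hTd _ _ _ _ _ _ _ x84 x66 x67 x131 x86 x62 go620
lemma ch621 (hTd : TdOK) : Good 0 ![w84, w47, w131, w127, w66, w60] :=
  good_of hTd _ _ _ _ _ _ _ x84 x47 x131 x127 x66 x60 go621
lemma ch622 (hTd : TdOK) : Good 0 ![w84, w47, w62, w131, w66, w60] :=
  good_of hTd _ _ _ _ _ _ _ x84 x47 x62 x131 x66 x60 go622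
lemma ch623 (hTd : TdOK) : Good 0 ![w84, w47, w67, w131, w66, w62] :=
  good_of hTd _ _ _ _ _ _ _ x84 x47 x67 x131 x66 x62 go623
lemma ch624 (hTd : TdOK) : Good 0 ![w87, w52, w74, w131, w67, w62] :=
  good_of hTd _ _ _ _ _ _ _ x87 x52 x74 x131 x67 x62 go624
lemma ch625 (hTd : TdOK) : Good 0 ![w87, w52, w75, w131, w67, w74] :=
  good_of hTd _ _ _ _ _ _ _ x87 x52 x75 x131 x67 x74 go625
lemma ch626 (hTd : TdOK) : Good 0 ![w87, w52, w34, w131, w75, w74] :=
  good_of hTd _ _ _ _ _ _ _ x87 x52 x34 x131 x75 x74 go626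
lemma ch627 (hTd : TdOK) : Good 0 ![w87, w129, w52, w131, w67, w62] :=
  good_of hTd _ _ _ _ _ _ _ x87 x129 x52 x131 x67 x62 go627
lemma ch628 (hTd : TdOK) : Good 0 ![w87, w47, w52, w129, w67, w62] :=
  good_of hTd _ _ _ _ _ _ _ x87 x47 x52 x129 x67 x62 go628
lemma ch629 (hTd : TdOK) : Good 0 ![w84, w47, w87, w131, w67, w62] :=
  good_of hTd _ _ _ _ _ _ _ x84 x47 x87 x131 x67 x62 go629
lemma ch630 (hTd : TdOK) : Good 0 ![w84, w128, w47, w127, w66, w60] :=
  good_of hTd _ _ _ _ _ _ _ x84 x128 x47 x127 x66 x60 go630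
lemma ch631 (hTd : TdOK) : Good 0 ![w90, w64, w47, w128, w66, w60] :=
  good_of hTd _ _ _ _ _ _ _ x90 x64 x47 x128 x66 x60 go631
lemma ch632 (hTd : TdOK) : Good 0 ![w90, w68, w47, w128, w66, w64] :=
  good_of hTd _ _ _ _ _ _ _ x90 x68 x47 x128 x66 x64 go632
lemma ch633 (hTd : TdOK) : Good 0 ![w90, w130, w47, w128, w68, w64] :=
  good_of hTd _ _ _ _ _ _ _ x90 x130 x47 x128 x68 x64 go633
lemma ch634 (hTd : TdOK) : Good 0 ![w91, w57, w92, w130, w68, w64] :=
  good_of hTd _ _ _ _ _ _ _ x91 x57 x92 x130 x68 x64 go634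
lemma ch635 (hTd : TdOK) : Good 0 ![w91, w57, w47, w130, w68, w92] :=
  good_of hTd _ _ _ _ _ _ _ x91 x57 x47 x130 x68 x92 go635
lemma ch636 (hTd : TdOK) : Good 0 ![w91, w12, w57, w130, w68, w64] :=
  good_of hTd _ _ _ _ _ _ _ x91 x12 x57 x130 x68 x64 go636
lemma ch637 (hTd : TdOK) : Good 0 ![w90, w91, w47, w130, w68, w64] :=
  good_of hTd _ _ _ _ _ _ _ x90 x91 x47 x130 x68 x64 go637
lemma ch638 (hTd : TdOK) : Good 0 ![w84, w90, w47, w128, w66, w60] :=
  good_of hTd _ _ _ _ _ _ _ x84 x90 x47 x128 x66 x60 go638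
lemma ch639 (hTd : TdOK) : Good 0 ![w83, w12, w84, w127, w65, w58] :=
  good_of hTd _ _ _ _ _ _ _ x83 x12 x84 x127 x65 x58 go639
lemma ch640 (hTd : TdOK) : Good 0 ![w0, w12, w83, w23, w17, w13] :=
  good_of hTd _ _ _ _ _ _ _ x0 x12 x83 x23 x17 x13 go640
lemma ch641 (hTd : TdOK) : Good 0 ![w18, w93, w34, w22, w4, w8] :=
  good_of hTd _ _ _ _ _ _ _ x18 x93 x34 x22 x4 x8 go641
lemma ch642 (hTd : TdOK) : Good 0 ![w18, w14, w34, w22, w4, w93] :=
  good_of hTd _ _ _ _ _ _ _ x18 x14 x34 x22 x4 x93 go642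
lemma ch643 (hTd : TdOK) : Good 0 ![w94, w95, w34, w22, w14, w93] :=
  good_of hTd _ _ _ _ _ _ _ x94 x95 x34 x22 x14 x93 go643
lemma ch644 (hTd : TdOK) : Good 0 ![w94, w107, w34, w22, w14, w95] :=
  good_of hTd _ _ _ _ _ _ _ x94 x107 x34 x22 x14 x95 go644
lemma ch645 (hTd : TdOK) : Good 0 ![w94, w39, w34, w107, w14, w95] :=
  good_of hTd _ _ _ _ _ _ _ x94 x39 x34 x107 x14 x95 go645
lemma ch646 (hTd : TdOK) : Good 0 ![w96, w109, w97, w107, w39, w95] :=
  good_of hTd _ _ _ _ _ _ _ x96 x109 x97 x107 x39 x95 go646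
lemma ch647 (hTd : TdOK) : Good 0 ![w96, w98, w97, w109, w39, w95] :=
  good_of hTd _ _ _ _ _ _ _ x96 x98 x97 x109 x39 x95 go647
lemma ch648 (hTd : TdOK) : Good 0 ![w96, w99, w97, w109, w39, w98] :=
  good_of hTd _ _ _ _ _ _ _ x96 x99 x97 x109 x39 x98 go648
lemma ch649 (hTd : TdOK) : Good 0 ![w96, w55, w99, w109, w39, w98] :=
  good_of hTd _ _ _ _ _ _ _ x96 x55 x99 x109 x39 x98 go649
lemma ch650 (hTd : TdOK) : Good 0 ![w96, w12, w99, w109, w55, w98] :=
  good_of hTd _ _ _ _ _ _ _ x96 x12 x99 x109 x55 x98 go650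
lemma ch651 (hTd : TdOK) : Good 0 ![w96, w109, w34, w107, w39, w97] :=
  good_of hTd _ _ _ _ _ _ _ x96 x109 x34 x107 x39 x97 go651
lemma ch652 (hTd : TdOK) : Good 0 ![w96, w47, w48, w109, w39, w97] :=
  good_of hTd _ _ _ _ _ _ _ x96 x47 x48 x109 x39 x97 go652
lemma ch653 (hTd : TdOK) : Good 0 ![w96, w47, w112, w109, w48, w97] :=
  good_of hTd _ _ _ _ _ _ _ x96 x47 x112 x109 x48 x97 go653
lemma ch654 (hTd : TdOK) : Good 0 ![w100, w47, w101, w112, w48, w97] :=
  good_of hTd _ _ _ _ _ _ _ x100 x47 x101 x112 x48 x97 go654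
lemma ch655 (hTd : TdOK) : Good 0 ![w100, w52, w53, w112, w48, w101] :=
  good_of hTd _ _ _ _ _ _ _ x100 x52 x53 x112 x48 x101 go655
lemma ch656 (hTd : TdOK) : Good 0 ![w100, w52, w114, w112, w53, w101] :=
  good_of hTd _ _ _ _ _ _ _ x100 x52 x114 x112 x53 x101 go656
lemma ch657 (hTd : TdOK) : Good 0 ![w100, w52, w34, w114, w53, w101] :=
  good_of hTd _ _ _ _ _ _ _ x100 x52 x34 x114 x53 x101 go657
lemma ch658 (hTd : TdOK) : Good 0 ![w100, w47, w52, w112, w48, w101] :=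
  good_of hTd _ _ _ _ _ _ _ x100 x47 x52 x112 x48 x101 go658
lemma ch659 (hTd : TdOK) : Good 0 ![w96, w47, w100, w112, w48, w97] :=
  good_of hTd _ _ _ _ _ _ _ x96 x47 x100 x112 x48 x97 go659
lemma ch660 (hTd : TdOK) : Good 0 ![w96, w99, w47, w109, w39, w97] :=
  good_of hTd _ _ _ _ _ _ _ x96 x99 x47 x109 x39 x97 go660
lemma ch661 (hTd : TdOK) : Good 0 ![w96, w55, w47, w109, w39, w99] :=
  good_of hTd _ _ _ _ _ _ _ x96 x55 x47 x109 x39 x99 go661
lemma ch662 (hTd : TdOK) : Good 0 ![w102, w115, w47, w109, w55, w99] :=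
  good_of hTd _ _ _ _ _ _ _ x102 x115 x47 x109 x55 x99 go662
lemma ch663 (hTd : TdOK) : Good 0 ![w102, w57, w69, w115, w55, w99] :=
  good_of hTd _ _ _ _ _ _ _ x102 x57 x69 x115 x55 x99 go663
lemma ch664 (hTd : TdOK) : Good 0 ![w102, w57, w132, w115, w69, w99] :=
  good_of hTd _ _ _ _ _ _ _ x102 x57 x132 x115 x69 x99 go664
lemma ch665 (hTd : TdOK) : Good 0 ![w102, w57, w47, w132, w69, w99] :=
  good_of hTd _ _ _ _ _ _ _ x102 x57 x47 x132 x69 x99 go665
lemma ch666 (hTd : TdOK) : Good 0 ![w102, w12, w57, w115, w55, w99] :=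
  good_of hTd _ _ _ _ _ _ _ x102 x12 x57 x115 x55 x99 go666
lemma ch667 (hTd : TdOK) : Good 0 ![w96, w102, w47, w109, w55, w99] :=
  good_of hTd _ _ _ _ _ _ _ x96 x102 x47 x109 x55 x99 go667
lemma ch668 (hTd : TdOK) : Good 0 ![w94, w96, w34, w107, w39, w95] :=
  good_of hTd _ _ _ _ _ _ _ x94 x96 x34 x107 x39 x95 go668
lemma ch669 (hTd : TdOK) : Good 0 ![w18, w12, w94, w22, w14, w93] :=
  good_of hTd _ _ _ _ _ _ _ x18 x12 x94 x22 x14 x93 go669
lemma ch670 (hTd : TdOK) : Good 0 ![w17, w14, w34, w22, w4, w18] :=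
  good_of hTd _ _ _ _ _ _ _ x17 x14 x34 x22 x4 x18 go670
lemma ch671 (hTd : TdOK) : Good 0 ![w17, w12, w94, w22, w14, w18] :=
  good_of hTd _ _ _ _ _ _ _ x17 x12 x94 x22 x14 x18 go671
lemma ch672 (hTd : TdOK) : Good 0 ![w120, w107, w34, w22, w14, w94] :=
  good_of hTd _ _ _ _ _ _ _ x120 x107 x34 x22 x14 x94 go672
lemma ch673 (hTd : TdOK) : Good 0 ![w121, w39, w34, w107, w14, w94] :=
  good_of hTd _ _ _ _ _ _ _ x121 x39 x34 x107 x14 x94 go673
lemma ch674 (hTd : TdOK) : Good 0 ![w121, w96, w34, w107, w39, w94] :=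
  good_of hTd _ _ _ _ _ _ _ x121 x96 x34 x107 x39 x94 go674
lemma ch675 (hTd : TdOK) : Good 0 ![w122, w109, w34, w107, w39, w96] :=
  good_of hTd _ _ _ _ _ _ _ x122 x109 x34 x107 x39 x96 go675
lemma ch676 (hTd : TdOK) : Good 0 ![w122, w47, w48, w109, w39, w96] :=
  good_of hTd _ _ _ _ _ _ _ x122 x47 x48 x109 x39 x96 go676
lemma ch677 (hTd : TdOK) : Good 0 ![w122, w47, w112, w109, w48, w96] :=
  good_of hTd _ _ _ _ _ _ _ x122 x47 x112 x109 x48 x96 go677
lemma ch678 (hTd : TdOK) : Good 0 ![w122, w47, w100, w112, w48, w96] :=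
  good_of hTd _ _ _ _ _ _ _ x122 x47 x100 x112 x48 x96 go678
lemma ch679 (hTd : TdOK) : Good 0 ![w123, w52, w53, w112, w48, w100] :=
  good_of hTd _ _ _ _ _ _ _ x123 x52 x53 x112 x48 x100 go679
lemma ch680 (hTd : TdOK) : Good 0 ![w123, w52, w34, w112, w53, w100] :=
  good_of hTd _ _ _ _ _ _ _ x123 x52 x34 x112 x53 x100 go680
lemma ch681 (hTd : TdOK) : Good 0 ![w122, w52, w123, w112, w48, w100] :=
  good_of hTd _ _ _ _ _ _ _ x122 x52 x123 x112 x48 x100 go681
lemma ch682 (hTd : TdOK) : Good 0 ![w122, w47, w52, w112, w48, w100] :=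
  good_of hTd _ _ _ _ _ _ _ x122 x47 x52 x112 x48 x100 go682
lemma ch683 (hTd : TdOK) : Good 0 ![w125, w55, w47, w109, w39, w96] :=
  good_of hTd _ _ _ _ _ _ _ x125 x55 x47 x109 x39 x96 go683
lemma ch684 (hTd : TdOK) : Good 0 ![w125, w102, w47, w109, w55, w96] :=
  good_of hTd _ _ _ _ _ _ _ x125 x102 x47 x109 x55 x96 go684
lemma ch685 (hTd : TdOK) : Good 0 ![w125, w115, w47, w109, w55, w102] :=
  good_of hTd _ _ _ _ _ _ _ x125 x115 x47 x109 x55 x102 go685
lemma ch686 (hTd : TdOK) : Good 0 ![w125, w57, w69, w115, w55, w102] :=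
  good_of hTd _ _ _ _ _ _ _ x125 x57 x69 x115 x55 x102 go686
lemma ch687 (hTd : TdOK) : Good 0 ![w125, w57, w132, w115, w69, w102] :=
  good_of hTd _ _ _ _ _ _ _ x125 x57 x132 x115 x69 x102 go687
lemma ch688 (hTd : TdOK) : Good 0 ![w125, w57, w47, w132, w69, w102] :=
  good_of hTd _ _ _ _ _ _ _ x125 x57 x47 x132 x69 x102 go688
lemma ch689 (hTd : TdOK) : Good 0 ![w125, w12, w57, w115, w55, w102] :=
  good_of hTd _ _ _ _ _ _ _ x125 x12 x57 x115 x55 x102 go689
lemma ch690 (hTd : TdOK) : Good 0 ![w122, w125, w47, w109, w39, w96] :=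
  good_of hTd _ _ _ _ _ _ _ x122 x125 x47 x109 x39 x96 go690
lemma ch691 (hTd : TdOK) : Good 0 ![w121, w12, w122, w107, w39, w96] :=
  good_of hTd _ _ _ _ _ _ _ x121 x12 x122 x107 x39 x96 go691
lemma ch692 (hTd : TdOK) : Good 0 ![w120, w121, w34, w107, w14, w94] :=
  good_of hTd _ _ _ _ _ _ _ x120 x121 x34 x107 x14 x94 go692
lemma ch693 (hTd : TdOK) : Good 0 ![w65, w121, w34, w120, w14, w94] :=
  good_of hTd _ _ _ _ _ _ _ x65 x121 x34 x120 x14 x94 go693
lemma ch694 (hTd : TdOK) : Good 0 ![w65, w39, w34, w121, w14, w94] :=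
  good_of hTd _ _ _ _ _ _ _ x65 x39 x34 x121 x14 x94 go694
lemma ch695 (hTd : TdOK) : Good 0 ![w65, w96, w34, w121, w39, w94] :=
  good_of hTd _ _ _ _ _ _ _ x65 x96 x34 x121 x39 x94 go695
lemma ch696 (hTd : TdOK) : Good 0 ![w66, w12, w122, w121, w39, w96] :=
  good_of hTd _ _ _ _ _ _ _ x66 x12 x122 x121 x39 x96 go696
lemma ch697 (hTd : TdOK) : Good 0 ![w66, w47, w48, w122, w39, w96] :=
  good_of hTd _ _ _ _ _ _ _ x66 x47 x48 x122 x39 x96 go697
lemma ch698 (hTd : TdOK) : Good 0 ![w66, w47, w100, w122, w48, w96] :=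
  good_of hTd _ _ _ _ _ _ _ x66 x47 x100 x122 x48 x96 go698
lemma ch699 (hTd : TdOK) : Good 0 ![w67, w52, w34, w122, w48, w100] :=
  good_of hTd _ _ _ _ _ _ _ x67 x52 x34 x122 x48 x100 go699
lemma ch700 (hTd : TdOK) : Good 0 ![w67, w47, w52, w122, w48, w100] :=
  good_of hTd _ _ _ _ _ _ _ x67 x47 x52 x122 x48 x100 go700
lemma ch701 (hTd : TdOK) : Good 0 ![w66, w47, w67, w122, w48, w100] :=
  good_of hTd _ _ _ _ _ _ _ x66 x47 x67 x122 x48 x100 go701
lemma ch702 (hTd : TdOK) : Good 0 ![w66, w125, w47, w122, w39, w96] :=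
  good_of hTd _ _ _ _ _ _ _ x66 x125 x47 x122 x39 x96 go702
lemma ch703 (hTd : TdOK) : Good 0 ![w66, w55, w47, w125, w39, w96] :=
  good_of hTd _ _ _ _ _ _ _ x66 x55 x47 x125 x39 x96 go703
lemma ch704 (hTd : TdOK) : Good 0 ![w66, w102, w47, w125, w55, w96] :=
  good_of hTd _ _ _ _ _ _ _ x66 x102 x47 x125 x55 x96 go704
lemma ch705 (hTd : TdOK) : Good 0 ![w68, w57, w47, w125, w55, w102] :=
  good_of hTd _ _ _ _ _ _ _ x68 x57 x47 x125 x55 x102 go705
lemma ch706 (hTd : TdOK) : Good 0 ![w68, w12, w57, w125, w55, w102] :=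
  good_of hTd _ _ _ _ _ _ _ x68 x12 x57 x125 x55 x102 go706
lemma ch707 (hTd : TdOK) : Good 0 ![w66, w68, w47, w125, w55, w102] :=
  good_of hTd _ _ _ _ _ _ _ x66 x68 x47 x125 x55 x102 go707
lemma ch708 (hTd : TdOK) : Good 0 ![w65, w66, w34, w121, w39, w96] :=
  good_of hTd _ _ _ _ _ _ _ x65 x66 x34 x121 x39 x96 go708
lemma ch709 (hTd : TdOK) : Good 0 ![w17, w12, w65, w120, w14, w94] :=
  good_of hTd _ _ _ _ _ _ _ x17 x12 x65 x120 x14 x94 go709
lemma ch710 (hTd : TdOK) : Good 0 ![w23, w12, w94, w133, w17, w18] :=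
  good_of hTd _ _ _ _ _ _ _ x23 x12 x94 x133 x17 x18 go710
lemma ch711 (hTd : TdOK) : Good 0 ![w23, w12, w65, w133, w17, w94] :=
  good_of hTd _ _ _ _ _ _ _ x23 x12 x65 x133 x17 x94 go711
lemma ch712 (hTd : TdOK) : Good 0 ![w127, w134, w34, w133, w65, w94] :=
  good_of hTd _ _ _ _ _ _ _ x127 x134 x34 x133 x65 x94 go712
lemma ch713 (hTd : TdOK) : Good 0 ![w127, w96, w34, w134, w65, w94] :=
  good_of hTd _ _ _ _ _ _ _ x127 x96 x34 x134 x65 x94 go713
lemma ch714 (hTd : TdOK) : Good 0 ![w127, w12, w135, w134, w65, w96] :=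
  good_of hTd _ _ _ _ _ _ _ x127 x12 x135 x134 x65 x96 go714
lemma ch715 (hTd : TdOK) : Good 0 ![w127, w66, w34, w135, w65, w96] :=
  good_of hTd _ _ _ _ _ _ _ x127 x66 x34 x135 x65 x96 go715
lemma ch716 (hTd : TdOK) : Good 0 ![w128, w47, w100, w135, w66, w96] :=
  good_of hTd _ _ _ _ _ _ _ x128 x47 x100 x135 x66 x96 go716
lemma ch717 (hTd : TdOK) : Good 0 ![w128, w47, w67, w135, w66, w100] :=
  good_of hTd _ _ _ _ _ _ _ x128 x47 x67 x135 x66 x100 go717
lemma ch718 (hTd : TdOK) : Good 0 ![w129, w47, w136, w135, w67, w100] :=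
  good_of hTd _ _ _ _ _ _ _ x129 x47 x136 x135 x67 x100 go718
lemma ch719 (hTd : TdOK) : Good 0 ![w129, w52, w103, w136, w67, w100] :=
  good_of hTd _ _ _ _ _ _ _ x129 x52 x103 x136 x67 x100 go719
lemma ch720 (hTd : TdOK) : Good 0 ![w129, w52, w75, w136, w67, w103] :=
  good_of hTd _ _ _ _ _ _ _ x129 x52 x75 x136 x67 x103 go720
lemma ch721 (hTd : TdOK) : Good 0 ![w129, w52, w34, w136, w75, w103] :=
  good_of hTd _ _ _ _ _ _ _ x129 x52 x34 x136 x75 x103 go721
lemma ch722 (hTd : TdOK) : Good 0 ![w129, w47, w52, w136, w67, w100] :=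
  good_of hTd _ _ _ _ _ _ _ x129 x47 x52 x136 x67 x100 go722
lemma ch723 (hTd : TdOK) : Good 0 ![w128, w47, w129, w135, w67, w100] :=
  good_of hTd _ _ _ _ _ _ _ x128 x47 x129 x135 x67 x100 go723
lemma ch724 (hTd : TdOK) : Good 0 ![w128, w137, w47, w135, w66, w96] :=
  good_of hTd _ _ _ _ _ _ _ x128 x137 x47 x135 x66 x96 go724
lemma ch725 (hTd : TdOK) : Good 0 ![w128, w102, w47, w137, w66, w96] :=
  good_of hTd _ _ _ _ _ _ _ x128 x102 x47 x137 x66 x96 go725
lemma ch726 (hTd : TdOK) : Good 0 ![w128, w68, w47, w137, w66, w102] :=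
  good_of hTd _ _ _ _ _ _ _ x128 x68 x47 x137 x66 x102 go726
lemma ch727 (hTd : TdOK) : Good 0 ![w130, w12, w47, w137, w68, w102] :=
  good_of hTd _ _ _ _ _ _ _ x130 x12 x47 x137 x68 x102 go727
lemma ch728 (hTd : TdOK) : Good 0 ![w128, w130, w47, w137, w68, w102] :=
  good_of hTd _ _ _ _ _ _ _ x128 x130 x47 x137 x68 x102 go728
lemma ch729 (hTd : TdOK) : Good 0 ![w127, w128, w100, w135, w66, w96] :=
  good_of hTd _ _ _ _ _ _ _ x127 x128 x100 x135 x66 x96 go729
lemma ch730 (hTd : TdOK) : Good 0 ![w131, w128, w67, w135, w66, w100] :=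
  good_of hTd _ _ _ _ _ _ _ x131 x128 x67 x135 x66 x100 go730
lemma ch731 (hTd : TdOK) : Good 0 ![w131, w129, w136, w135, w67, w100] :=
  good_of hTd _ _ _ _ _ _ _ x131 x129 x136 x135 x67 x100 go731
lemma ch732 (hTd : TdOK) : Good 0 ![w131, w129, w34, w136, w67, w100] :=
  good_of hTd _ _ _ _ _ _ _ x131 x129 x34 x136 x67 x100 go732
lemma ch733 (hTd : TdOK) : Good 0 ![w131, w128, w129, w135, w67, w100] :=
  good_of hTd _ _ _ _ _ _ _ x131 x128 x129 x135 x67 x100 go733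
lemma ch734 (hTd : TdOK) : Good 0 ![w127, w128, w131, w135, w66, w100] :=
  good_of hTd _ _ _ _ _ _ _ x127 x128 x131 x135 x66 x100 go734
lemma ch735 (hTd : TdOK) : Good 0 ![w23, w12, w127, w133, w65, w94] :=
  good_of hTd _ _ _ _ _ _ _ x23 x12 x127 x133 x65 x94 go735
lemma ch736 (hTd : TdOK) : Good 0 ![w23, w12, w65, w120, w17, w133] :=
  good_of hTd _ _ _ _ _ _ _ x23 x12 x65 x120 x17 x133 go736
lemma ch737 (hTd : TdOK) : Good 0 ![w127, w134, w34, w120, w65, w133] :=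
  good_of hTd _ _ _ _ _ _ _ x127 x134 x34 x120 x65 x133 go737
lemma ch738 (hTd : TdOK) : Good 0 ![w127, w121, w34, w120, w65, w134] :=
  good_of hTd _ _ _ _ _ _ _ x127 x121 x34 x120 x65 x134 go738
lemma ch739 (hTd : TdOK) : Good 0 ![w127, w12, w135, w121, w65, w134] :=
  good_of hTd _ _ _ _ _ _ _ x127 x12 x135 x121 x65 x134 go739
lemma ch740 (hTd : TdOK) : Good 0 ![w127, w66, w34, w121, w65, w135] :=
  good_of hTd _ _ _ _ _ _ _ x127 x66 x34 x121 x65 x135 go740
lemma ch741 (hTd : TdOK) : Good 0 ![w127, w12, w122, w121, w66, w135] :=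
  good_of hTd _ _ _ _ _ _ _ x127 x12 x122 x121 x66 x135 go741
lemma ch742 (hTd : TdOK) : Good 0 ![w128, w47, w67, w122, w66, w135] :=
  good_of hTd _ _ _ _ _ _ _ x128 x47 x67 x122 x66 x135 go742
lemma ch743 (hTd : TdOK) : Good 0 ![w129, w47, w136, w122, w67, w135] :=
  good_of hTd _ _ _ _ _ _ _ x129 x47 x136 x122 x67 x135 go743
lemma ch744 (hTd : TdOK) : Good 0 ![w129, w52, w123, w122, w67, w136] :=
  good_of hTd _ _ _ _ _ _ _ x129 x52 x123 x122 x67 x136 go744
lemma ch745 (hTd : TdOK) : Good 0 ![w129, w52, w75, w123, w67, w136] :=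
  good_of hTd _ _ _ _ _ _ _ x129 x52 x75 x123 x67 x136 go745
lemma ch746 (hTd : TdOK) : Good 0 ![w129, w52, w34, w123, w75, w136] :=
  good_of hTd _ _ _ _ _ _ _ x129 x52 x34 x123 x75 x136 go746
lemma ch747 (hTd : TdOK) : Good 0 ![w129, w47, w52, w122, w67, w136] :=
  good_of hTd _ _ _ _ _ _ _ x129 x47 x52 x122 x67 x136 go747
lemma ch748 (hTd : TdOK) : Good 0 ![w128, w47, w129, w122, w67, w135] :=
  good_of hTd _ _ _ _ _ _ _ x128 x47 x129 x122 x67 x135 go748
lemma ch749 (hTd : TdOK) : Good 0 ![w128, w137, w47, w122, w66, w135] :=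
  good_of hTd _ _ _ _ _ _ _ x128 x137 x47 x122 x66 x135 go749
lemma ch750 (hTd : TdOK) : Good 0 ![w128, w125, w47, w122, w66, w137] :=
  good_of hTd _ _ _ _ _ _ _ x128 x125 x47 x122 x66 x137 go750
lemma ch751 (hTd : TdOK) : Good 0 ![w128, w68, w47, w125, w66, w137] :=
  good_of hTd _ _ _ _ _ _ _ x128 x68 x47 x125 x66 x137 go751
lemma ch752 (hTd : TdOK) : Good 0 ![w130, w57, w47, w125, w68, w137] :=
  good_of hTd _ _ _ _ _ _ _ x130 x57 x47 x125 x68 x137 go752
lemma ch753 (hTd : TdOK) : Good 0 ![w130, w12, w57, w125, w68, w137] :=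
  good_of hTd _ _ _ _ _ _ _ x130 x12 x57 x125 x68 x137 go753
lemma ch754 (hTd : TdOK) : Good 0 ![w128, w130, w47, w125, w68, w137] :=
  good_of hTd _ _ _ _ _ _ _ x128 x130 x47 x125 x68 x137 go754
lemma ch755 (hTd : TdOK) : Good 0 ![w131, w128, w67, w122, w66, w135] :=
  good_of hTd _ _ _ _ _ _ _ x131 x128 x67 x122 x66 x135 go755
lemma ch756 (hTd : TdOK) : Good 0 ![w131, w128, w34, w122, w67, w135] :=
  good_of hTd _ _ _ _ _ _ _ x131 x128 x34 x122 x67 x135 go756
lemma ch757 (hTd : TdOK) : Good 0 ![w127, w128, w131, w122, w66, w135] :=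
  good_of hTd _ _ _ _ _ _ _ x127 x128 x131 x122 x66 x135 go757
lemma ch758 (hTd : TdOK) : Good 0 ![w23, w12, w127, w120, w65, w133] :=
  good_of hTd _ _ _ _ _ _ _ x23 x12 x127 x120 x65 x133 go758
lemma ch759 (hTd : TdOK) : Good 0 ![w23, w107, w34, w22, w120, w133] :=
  good_of hTd _ _ _ _ _ _ _ x23 x107 x34 x22 x120 x133 go759
lemma ch760 (hTd : TdOK) : Good 0 ![w23, w134, w34, w107, w120, w133] :=
  good_of hTd _ _ _ _ _ _ _ x23 x134 x34 x107 x120 x133 go760
lemma ch761 (hTd : TdOK) : Good 0 ![w127, w121, w34, w107, w120, w134] :=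
  good_of hTd _ _ _ _ _ _ _ x127 x121 x34 x107 x120 x134 go761
lemma ch762 (hTd : TdOK) : Good 0 ![w127, w12, w135, w107, w121, w134] :=
  good_of hTd _ _ _ _ _ _ _ x127 x12 x135 x107 x121 x134 go762
lemma ch763 (hTd : TdOK) : Good 0 ![w127, w12, w122, w107, w121, w135] :=
  good_of hTd _ _ _ _ _ _ _ x127 x12 x122 x107 x121 x135 go763
lemma ch764 (hTd : TdOK) : Good 0 ![w127, w109, w34, w107, w122, w135] :=
  good_of hTd _ _ _ _ _ _ _ x127 x109 x34 x107 x122 x135 go764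
lemma ch765 (hTd : TdOK) : Good 0 ![w128, w47, w112, w109, w122, w135] :=
  good_of hTd _ _ _ _ _ _ _ x128 x47 x112 x109 x122 x135 go765
lemma ch766 (hTd : TdOK) : Good 0 ![w129, w47, w136, w112, w122, w135] :=
  good_of hTd _ _ _ _ _ _ _ x129 x47 x136 x112 x122 x135 go766
lemma ch767 (hTd : TdOK) : Good 0 ![w129, w52, w123, w112, w122, w136] :=
  good_of hTd _ _ _ _ _ _ _ x129 x52 x123 x112 x122 x136 go767
lemma ch768 (hTd : TdOK) : Good 0 ![w129, w52, w114, w112, w123, w136] :=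
  good_of hTd _ _ _ _ _ _ _ x129 x52 x114 x112 x123 x136 go768
lemma ch769 (hTd : TdOK) : Good 0 ![w129, w52, w34, w114, w123, w136] :=
  good_of hTd _ _ _ _ _ _ _ x129 x52 x34 x114 x123 x136 go769
lemma ch770 (hTd : TdOK) : Good 0 ![w129, w47, w52, w112, w122, w136] :=
  good_of hTd _ _ _ _ _ _ _ x129 x47 x52 x112 x122 x136 go770
lemma ch771 (hTd : TdOK) : Good 0 ![w128, w47, w129, w112, w122, w135] :=
  good_of hTd _ _ _ _ _ _ _ x128 x47 x129 x112 x122 x135 go771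
lemma ch772 (hTd : TdOK) : Good 0 ![w128, w137, w47, w109, w122, w135] :=
  good_of hTd _ _ _ _ _ _ _ x128 x137 x47 x109 x122 x135 go772
lemma ch773 (hTd : TdOK) : Good 0 ![w128, w125, w47, w109, w122, w137] :=
  good_of hTd _ _ _ _ _ _ _ x128 x125 x47 x109 x122 x137 go773
lemma ch774 (hTd : TdOK) : Good 0 ![w130, w115, w47, w109, w125, w137] :=
  good_of hTd _ _ _ _ _ _ _ x130 x115 x47 x109 x125 x137 go774
lemma ch775 (hTd : TdOK) : Good 0 ![w130, w57, w132, w115, w125, w137] :=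
  good_of hTd _ _ _ _ _ _ _ x130 x57 x132 x115 x125 x137 go775
lemma ch776 (hTd : TdOK) : Good 0 ![w130, w57, w47, w132, w125, w137] :=
  good_of hTd _ _ _ _ _ _ _ x130 x57 x47 x132 x125 x137 go776
lemma ch777 (hTd : TdOK) : Good 0 ![w130, w12, w57, w115, w125, w137] :=
  good_of hTd _ _ _ _ _ _ _ x130 x12 x57 x115 x125 x137 go777
lemma ch778 (hTd : TdOK) : Good 0 ![w128, w130, w47, w109, w125, w137] :=
  good_of hTd _ _ _ _ _ _ _ x128 x130 x47 x109 x125 x137 go778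
lemma ch779 (hTd : TdOK) : Good 0 ![w127, w128, w34, w109, w122, w135] :=
  good_of hTd _ _ _ _ _ _ _ x127 x128 x34 x109 x122 x135 go779
lemma ch780 (hTd : TdOK) : Good 0 ![w23, w12, w127, w107, w120, w134] :=
  good_of hTd _ _ _ _ _ _ _ x23 x12 x127 x107 x120 x134 go780
lemma ch781 (hTd : TdOK) : Good 0 ![w83, w12, w94, w23, w17, w18] :=
  good_of hTd _ _ _ _ _ _ _ x83 x12 x94 x23 x17 x18 go781
lemma ch782 (hTd : TdOK) : Good 0 ![w83, w12, w65, w23, w17, w94] :=
  good_of hTd _ _ _ _ _ _ _ x83 x12 x65 x23 x17 x94 go782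
lemma ch783 (hTd : TdOK) : Good 0 ![w83, w12, w127, w23, w65, w94] :=
  good_of hTd _ _ _ _ _ _ _ x83 x12 x127 x23 x65 x94 go783
lemma ch784 (hTd : TdOK) : Good 0 ![w84, w96, w104, w127, w65, w94] :=
  good_of hTd _ _ _ _ _ _ _ x84 x96 x104 x127 x65 x94 go784
lemma ch785 (hTd : TdOK) : Good 0 ![w84, w96, w86, w127, w65, w104] :=
  good_of hTd _ _ _ _ _ _ _ x84 x96 x86 x127 x65 x104 go785
lemma ch786 (hTd : TdOK) : Good 0 ![w84, w100, w34, w127, w86, w104] :=
  good_of hTd _ _ _ _ _ _ _ x84 x100 x34 x127 x86 x104 go786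
lemma ch787 (hTd : TdOK) : Good 0 ![w84, w96, w100, w127, w86, w104] :=
  good_of hTd _ _ _ _ _ _ _ x84 x96 x100 x127 x86 x104 go787
lemma ch788 (hTd : TdOK) : Good 0 ![w84, w66, w86, w127, w65, w96] :=
  good_of hTd _ _ _ _ _ _ _ x84 x66 x86 x127 x65 x96 go788
lemma ch789 (hTd : TdOK) : Good 0 ![w84, w66, w100, w127, w86, w96] :=
  good_of hTd _ _ _ _ _ _ _ x84 x66 x100 x127 x86 x96 go789
lemma ch790 (hTd : TdOK) : Good 0 ![w84, w66, w131, w127, w86, w100] :=
  good_of hTd _ _ _ _ _ _ _ x84 x66 x131 x127 x86 x100 go790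
lemma ch791 (hTd : TdOK) : Good 0 ![w87, w67, w34, w131, w86, w100] :=
  good_of hTd _ _ _ _ _ _ _ x87 x67 x34 x131 x86 x100 go791
lemma ch792 (hTd : TdOK) : Good 0 ![w84, w67, w87, w131, w86, w100] :=
  good_of hTd _ _ _ _ _ _ _ x84 x67 x87 x131 x86 x100 go792
lemma ch793 (hTd : TdOK) : Good 0 ![w84, w66, w67, w131, w86, w100] :=
  good_of hTd _ _ _ _ _ _ _ x84 x66 x67 x131 x86 x100 go793
lemma ch794 (hTd : TdOK) : Good 0 ![w84, w47, w100, w127, w66, w96] :=
  good_of hTd _ _ _ _ _ _ _ x84 x47 x100 x127 x66 x96 go794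
lemma ch795 (hTd : TdOK) : Good 0 ![w84, w47, w131, w127, w66, w100] :=
  good_of hTd _ _ _ _ _ _ _ x84 x47 x131 x127 x66 x100 go795
lemma ch796 (hTd : TdOK) : Good 0 ![w84, w47, w67, w131, w66, w100] :=
  good_of hTd _ _ _ _ _ _ _ x84 x47 x67 x131 x66 x100 go796
lemma ch797 (hTd : TdOK) : Good 0 ![w87, w52, w103, w131, w67, w100] :=
  good_of hTd _ _ _ _ _ _ _ x87 x52 x103 x131 x67 x100 go797
lemma ch798 (hTd : TdOK) : Good 0 ![w87, w52, w75, w131, w67, w103] :=
  good_of hTd _ _ _ _ _ _ _ x87 x52 x75 x131 x67 x103 go798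
lemma ch799 (hTd : TdOK) : Good 0 ![w87, w52, w34, w131, w75, w103] :=
  good_of hTd _ _ _ _ _ _ _ x87 x52 x34 x131 x75 x103 go799
lemma ch800 (hTd : TdOK) : Good 0 ![w87, w129, w52, w131, w67, w100] :=
  good_of hTd _ _ _ _ _ _ _ x87 x129 x52 x131 x67 x100 go800
lemma ch801 (hTd : TdOK) : Good 0 ![w87, w47, w52, w129, w67, w100] :=
  good_of hTd _ _ _ _ _ _ _ x87 x47 x52 x129 x67 x100 go801
lemma ch802 (hTd : TdOK) : Good 0 ![w84, w47, w87, w131, w67, w100] :=
  good_of hTd _ _ _ _ _ _ _ x84 x47 x87 x131 x67 x100 go802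
lemma ch803 (hTd : TdOK) : Good 0 ![w84, w128, w47, w127, w66, w96] :=
  good_of hTd _ _ _ _ _ _ _ x84 x128 x47 x127 x66 x96 go803
lemma ch804 (hTd : TdOK) : Good 0 ![w90, w102, w47, w128, w66, w96] :=
  good_of hTd _ _ _ _ _ _ _ x90 x102 x47 x128 x66 x96 go804
lemma ch805 (hTd : TdOK) : Good 0 ![w90, w68, w47, w128, w66, w102] :=
  good_of hTd _ _ _ _ _ _ _ x90 x68 x47 x128 x66 x102 go805
lemma ch806 (hTd : TdOK) : Good 0 ![w90, w130, w47, w128, w68, w102] :=
  good_of hTd _ _ _ _ _ _ _ x90 x130 x47 x128 x68 x102 go806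
lemma ch807 (hTd : TdOK) : Good 0 ![w91, w57, w105, w130, w68, w102] :=
  good_of hTd _ _ _ _ _ _ _ x91 x57 x105 x130 x68 x102 go807
lemma ch808 (hTd : TdOK) : Good 0 ![w91, w57, w47, w130, w68, w105] :=
  good_of hTd _ _ _ _ _ _ _ x91 x57 x47 x130 x68 x105 go808
lemma ch809 (hTd : TdOK) : Good 0 ![w91, w12, w57, w130, w68, w102] :=
  good_of hTd _ _ _ _ _ _ _ x91 x12 x57 x130 x68 x102 go809
lemma ch810 (hTd : TdOK) : Good 0 ![w90, w91, w47, w130, w68, w102] :=
  good_of hTd _ _ _ _ _ _ _ x90 x91 x47 x130 x68 x102 go810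
lemma ch811 (hTd : TdOK) : Good 0 ![w84, w90, w47, w128, w66, w96] :=
  good_of hTd _ _ _ _ _ _ _ x84 x90 x47 x128 x66 x96 go811
lemma ch812 (hTd : TdOK) : Good 0 ![w83, w12, w84, w127, w65, w94] :=
  good_of hTd _ _ _ _ _ _ _ x83 x12 x84 x127 x65 x94 go812
lemma ch813 (hTd : TdOK) : Good 0 ![w0, w12, w83, w23, w17, w18] :=
  good_of hTd _ _ _ _ _ _ _ x0 x12 x83 x23 x17 x18 go813
lemma ch814 (hTd : TdOK) : Good 0 ![w13, w138, w34, w22, w25, w5] :=
  good_of hTd _ _ _ _ _ _ _ x13 x138 x34 x22 x25 x5 go814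
lemma ch815 (hTd : TdOK) : Good 0 ![w13, w35, w34, w22, w138, w5] :=
  good_of hTd _ _ _ _ _ _ _ x13 x35 x34 x22 x138 x5 go815
lemma ch816 (hTd : TdOK) : Good 0 ![w106, w107, w34, w22, w138, w35] :=
  good_of hTd _ _ _ _ _ _ _ x106 x107 x34 x22 x138 x35 go816
lemma ch817 (hTd : TdOK) : Good 0 ![w108, w139, w34, w107, w138, w35] :=
  good_of hTd _ _ _ _ _ _ _ x108 x139 x34 x107 x138 x35 go817
lemma ch818 (hTd : TdOK) : Good 0 ![w108, w40, w34, w107, w139, w35] :=
  good_of hTd _ _ _ _ _ _ _ x108 x40 x34 x107 x139 x35 go818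
lemma ch819 (hTd : TdOK) : Good 0 ![w108, w109, w34, w107, w139, w40] :=
  good_of hTd _ _ _ _ _ _ _ x108 x109 x34 x107 x139 x40 go819
lemma ch820 (hTd : TdOK) : Good 0 ![w110, w43, w44, w109, w139, w40] :=
  good_of hTd _ _ _ _ _ _ _ x110 x43 x44 x109 x139 x40 go820
lemma ch821 (hTd : TdOK) : Good 0 ![w110, w45, w44, w109, w139, w43] :=
  good_of hTd _ _ _ _ _ _ _ x110 x45 x44 x109 x139 x43 go821
lemma ch822 (hTd : TdOK) : Good 0 ![w110, w12, w45, w109, w139, w43] :=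
  good_of hTd _ _ _ _ _ _ _ x110 x12 x45 x109 x139 x43 go822
lemma ch823 (hTd : TdOK) : Good 0 ![w111, w110, w44, w109, w139, w40] :=
  good_of hTd _ _ _ _ _ _ _ x111 x110 x44 x109 x139 x40 go823
lemma ch824 (hTd : TdOK) : Good 0 ![w111, w47, w140, w109, w139, w44] :=
  good_of hTd _ _ _ _ _ _ _ x111 x47 x140 x109 x139 x44 go824
lemma ch825 (hTd : TdOK) : Good 0 ![w111, w47, w112, w109, w140, w44] :=
  good_of hTd _ _ _ _ _ _ _ x111 x47 x112 x109 x140 x44 go825
lemma ch826 (hTd : TdOK) : Good 0 ![w111, w47, w50, w112, w140, w44] :=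
  good_of hTd _ _ _ _ _ _ _ x111 x47 x50 x112 x140 x44 go826
lemma ch827 (hTd : TdOK) : Good 0 ![w113, w52, w141, w112, w140, w50] :=
  good_of hTd _ _ _ _ _ _ _ x113 x52 x141 x112 x140 x50 go827
lemma ch828 (hTd : TdOK) : Good 0 ![w113, w52, w114, w112, w141, w50] :=
  good_of hTd _ _ _ _ _ _ _ x113 x52 x114 x112 x141 x50 go828
lemma ch829 (hTd : TdOK) : Good 0 ![w113, w52, w34, w114, w141, w50] :=
  good_of hTd _ _ _ _ _ _ _ x113 x52 x34 x114 x141 x50 go829
lemma ch830 (hTd : TdOK) : Good 0 ![w111, w52, w113, w112, w140, w50] :=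
  good_of hTd _ _ _ _ _ _ _ x111 x52 x113 x112 x140 x50 go830
lemma ch831 (hTd : TdOK) : Good 0 ![w111, w47, w52, w112, w140, w50] :=
  good_of hTd _ _ _ _ _ _ _ x111 x47 x52 x112 x140 x50 go831
lemma ch832 (hTd : TdOK) : Good 0 ![w110, w45, w47, w109, w139, w44] :=
  good_of hTd _ _ _ _ _ _ _ x110 x45 x47 x109 x139 x44 go832
lemma ch833 (hTd : TdOK) : Good 0 ![w110, w142, w47, w109, w139, w45] :=
  good_of hTd _ _ _ _ _ _ _ x110 x142 x47 x109 x139 x45 go833
lemma ch834 (hTd : TdOK) : Good 0 ![w110, w115, w47, w109, w142, w45] :=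
  good_of hTd _ _ _ _ _ _ _ x110 x115 x47 x109 x142 x45 go834
lemma ch835 (hTd : TdOK) : Good 0 ![w110, w57, w143, w115, w142, w45] :=
  good_of hTd _ _ _ _ _ _ _ x110 x57 x143 x115 x142 x45 go835
lemma ch836 (hTd : TdOK) : Good 0 ![w110, w57, w47, w115, w143, w45] :=
  good_of hTd _ _ _ _ _ _ _ x110 x57 x47 x115 x143 x45 go836
lemma ch837 (hTd : TdOK) : Good 0 ![w110, w12, w57, w115, w142, w45] :=
  good_of hTd _ _ _ _ _ _ _ x110 x12 x57 x115 x142 x45 go837
lemma ch838 (hTd : TdOK) : Good 0 ![w111, w110, w47, w109, w139, w44] :=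
  good_of hTd _ _ _ _ _ _ _ x111 x110 x47 x109 x139 x44 go838
lemma ch839 (hTd : TdOK) : Good 0 ![w108, w12, w111, w109, w139, w40] :=
  good_of hTd _ _ _ _ _ _ _ x108 x12 x111 x109 x139 x40 go839
lemma ch840 (hTd : TdOK) : Good 0 ![w106, w108, w34, w107, w138, w35] :=
  good_of hTd _ _ _ _ _ _ _ x106 x108 x34 x107 x138 x35 go840
lemma ch841 (hTd : TdOK) : Good 0 ![w58, w108, w34, w106, w138, w35] :=
  good_of hTd _ _ _ _ _ _ _ x58 x108 x34 x106 x138 x35 go841
lemma ch842 (hTd : TdOK) : Good 0 ![w58, w139, w34, w108, w138, w35] :=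
  good_of hTd _ _ _ _ _ _ _ x58 x139 x34 x108 x138 x35 go842
lemma ch843 (hTd : TdOK) : Good 0 ![w58, w40, w34, w108, w139, w35] :=
  good_of hTd _ _ _ _ _ _ _ x58 x40 x34 x108 x139 x35 go843
lemma ch844 (hTd : TdOK) : Good 0 ![w60, w12, w111, w108, w139, w40] :=
  good_of hTd _ _ _ _ _ _ _ x60 x12 x111 x108 x139 x40 go844
lemma ch845 (hTd : TdOK) : Good 0 ![w60, w47, w44, w111, w139, w40] :=
  good_of hTd _ _ _ _ _ _ _ x60 x47 x44 x111 x139 x40 go845
lemma ch846 (hTd : TdOK) : Good 0 ![w60, w47, w140, w111, w139, w44] :=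
  good_of hTd _ _ _ _ _ _ _ x60 x47 x140 x111 x139 x44 go846
lemma ch847 (hTd : TdOK) : Good 0 ![w62, w47, w50, w111, w140, w44] :=
  good_of hTd _ _ _ _ _ _ _ x62 x47 x50 x111 x140 x44 go847
lemma ch848 (hTd : TdOK) : Good 0 ![w62, w52, w34, w111, w140, w50] :=
  good_of hTd _ _ _ _ _ _ _ x62 x52 x34 x111 x140 x50 go848
lemma ch849 (hTd : TdOK) : Good 0 ![w62, w47, w52, w111, w140, w50] :=
  good_of hTd _ _ _ _ _ _ _ x62 x47 x52 x111 x140 x50 go849
lemma ch850 (hTd : TdOK) : Good 0 ![w60, w47, w62, w111, w140, w44] :=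
  good_of hTd _ _ _ _ _ _ _ x60 x47 x62 x111 x140 x44 go850
lemma ch851 (hTd : TdOK) : Good 0 ![w60, w110, w47, w111, w139, w40] :=
  good_of hTd _ _ _ _ _ _ _ x60 x110 x47 x111 x139 x40 go851
lemma ch852 (hTd : TdOK) : Good 0 ![w60, w43, w47, w110, w139, w40] :=
  good_of hTd _ _ _ _ _ _ _ x60 x43 x47 x110 x139 x40 go852
lemma ch853 (hTd : TdOK) : Good 0 ![w60, w142, w47, w110, w139, w43] :=
  good_of hTd _ _ _ _ _ _ _ x60 x142 x47 x110 x139 x43 go853
lemma ch854 (hTd : TdOK) : Good 0 ![w64, w12, w45, w110, w142, w43] :=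
  good_of hTd _ _ _ _ _ _ _ x64 x12 x45 x110 x142 x43 go854
lemma ch855 (hTd : TdOK) : Good 0 ![w64, w57, w143, w110, w142, w45] :=
  good_of hTd _ _ _ _ _ _ _ x64 x57 x143 x110 x142 x45 go855
lemma ch856 (hTd : TdOK) : Good 0 ![w64, w57, w47, w110, w143, w45] :=
  good_of hTd _ _ _ _ _ _ _ x64 x57 x47 x110 x143 x45 go856
lemma ch857 (hTd : TdOK) : Good 0 ![w64, w12, w57, w110, w142, w45] :=
  good_of hTd _ _ _ _ _ _ _ x64 x12 x57 x110 x142 x45 go857
lemma ch858 (hTd : TdOK) : Good 0 ![w60, w64, w47, w110, w142, w43] :=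
  good_of hTd _ _ _ _ _ _ _ x60 x64 x47 x110 x142 x43 go858
lemma ch859 (hTd : TdOK) : Good 0 ![w58, w60, w34, w108, w139, w40] :=
  good_of hTd _ _ _ _ _ _ _ x58 x60 x34 x108 x139 x40 go859
lemma ch860 (hTd : TdOK) : Good 0 ![w13, w12, w58, w106, w138, w35] :=
  good_of hTd _ _ _ _ _ _ _ x13 x12 x58 x106 x138 x35 go860
lemma ch861 (hTd : TdOK) : Good 0 ![w27, w138, w34, w22, w25, w13] :=
  good_of hTd _ _ _ _ _ _ _ x27 x138 x34 x22 x25 x13 go861
lemma ch862 (hTd : TdOK) : Good 0 ![w144, w12, w58, w106, w138, w13] :=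
  good_of hTd _ _ _ _ _ _ _ x144 x12 x58 x106 x138 x13 go862
lemma ch863 (hTd : TdOK) : Good 0 ![w144, w108, w34, w106, w138, w58] :=
  good_of hTd _ _ _ _ _ _ _ x144 x108 x34 x106 x138 x58 go863
lemma ch864 (hTd : TdOK) : Good 0 ![w144, w139, w34, w108, w138, w58] :=
  good_of hTd _ _ _ _ _ _ _ x144 x139 x34 x108 x138 x58 go864
lemma ch865 (hTd : TdOK) : Good 0 ![w144, w60, w34, w108, w139, w58] :=
  good_of hTd _ _ _ _ _ _ _ x144 x60 x34 x108 x139 x58 go865
lemma ch866 (hTd : TdOK) : Good 0 ![w145, w12, w111, w108, w139, w60] :=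
  good_of hTd _ _ _ _ _ _ _ x145 x12 x111 x108 x139 x60 go866
lemma ch867 (hTd : TdOK) : Good 0 ![w145, w47, w140, w111, w139, w60] :=
  good_of hTd _ _ _ _ _ _ _ x145 x47 x140 x111 x139 x60 go867
lemma ch868 (hTd : TdOK) : Good 0 ![w145, w47, w62, w111, w140, w60] :=
  good_of hTd _ _ _ _ _ _ _ x145 x47 x62 x111 x140 x60 go868
lemma ch869 (hTd : TdOK) : Good 0 ![w146, w52, w34, w111, w140, w62] :=
  good_of hTd _ _ _ _ _ _ _ x146 x52 x34 x111 x140 x62 go869
lemma ch870 (hTd : TdOK) : Good 0 ![w146, w47, w52, w111, w140, w62] :=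
  good_of hTd _ _ _ _ _ _ _ x146 x47 x52 x111 x140 x62 go870
lemma ch871 (hTd : TdOK) : Good 0 ![w145, w47, w146, w111, w140, w62] :=
  good_of hTd _ _ _ _ _ _ _ x145 x47 x146 x111 x140 x62 go871
lemma ch872 (hTd : TdOK) : Good 0 ![w145, w110, w47, w111, w139, w60] :=
  good_of hTd _ _ _ _ _ _ _ x145 x110 x47 x111 x139 x60 go872
lemma ch873 (hTd : TdOK) : Good 0 ![w145, w142, w47, w110, w139, w60] :=
  good_of hTd _ _ _ _ _ _ _ x145 x142 x47 x110 x139 x60 go873
lemma ch874 (hTd : TdOK) : Good 0 ![w145, w64, w47, w110, w142, w60] :=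
  good_of hTd _ _ _ _ _ _ _ x145 x64 x47 x110 x142 x60 go874
lemma ch875 (hTd : TdOK) : Good 0 ![w147, w57, w143, w110, w142, w64] :=
  good_of hTd _ _ _ _ _ _ _ x147 x57 x143 x110 x142 x64 go875
lemma ch876 (hTd : TdOK) : Good 0 ![w147, w57, w47, w110, w143, w64] :=
  good_of hTd _ _ _ _ _ _ _ x147 x57 x47 x110 x143 x64 go876
lemma ch877 (hTd : TdOK) : Good 0 ![w147, w12, w57, w110, w142, w64] :=
  good_of hTd _ _ _ _ _ _ _ x147 x12 x57 x110 x142 x64 go877
lemma ch878 (hTd : TdOK) : Good 0 ![w145, w147, w47, w110, w142, w64] :=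
  good_of hTd _ _ _ _ _ _ _ x145 x147 x47 x110 x142 x64 go878
lemma ch879 (hTd : TdOK) : Good 0 ![w144, w145, w34, w108, w139, w60] :=
  good_of hTd _ _ _ _ _ _ _ x144 x145 x34 x108 x139 x60 go879
lemma ch880 (hTd : TdOK) : Good 0 ![w27, w12, w144, w106, w138, w13] :=
  good_of hTd _ _ _ _ _ _ _ x27 x12 x144 x106 x138 x13 go880
lemma ch881 (hTd : TdOK) : Good 0 ![w148, w107, w34, w22, w138, w106] :=
  good_of hTd _ _ _ _ _ _ _ x148 x107 x34 x22 x138 x106 go881
lemma ch882 (hTd : TdOK) : Good 0 ![w149, w108, w34, w107, w138, w106] :=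
  good_of hTd _ _ _ _ _ _ _ x149 x108 x34 x107 x138 x106 go882
lemma ch883 (hTd : TdOK) : Good 0 ![w149, w139, w34, w107, w138, w108] :=
  good_of hTd _ _ _ _ _ _ _ x149 x139 x34 x107 x138 x108 go883
lemma ch884 (hTd : TdOK) : Good 0 ![w149, w109, w34, w107, w139, w108] :=
  good_of hTd _ _ _ _ _ _ _ x149 x109 x34 x107 x139 x108 go884
lemma ch885 (hTd : TdOK) : Good 0 ![w150, w151, w111, w109, w139, w108] :=
  good_of hTd _ _ _ _ _ _ _ x150 x151 x111 x109 x139 x108 go885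
lemma ch886 (hTd : TdOK) : Good 0 ![w150, w110, w111, w109, w139, w151] :=
  good_of hTd _ _ _ _ _ _ _ x150 x110 x111 x109 x139 x151 go886
lemma ch887 (hTd : TdOK) : Good 0 ![w150, w12, w110, w109, w139, w151] :=
  good_of hTd _ _ _ _ _ _ _ x150 x12 x110 x109 x139 x151 go887
lemma ch888 (hTd : TdOK) : Good 0 ![w150, w47, w140, w109, w139, w111] :=
  good_of hTd _ _ _ _ _ _ _ x150 x47 x140 x109 x139 x111 go888
lemma ch889 (hTd : TdOK) : Good 0 ![w150, w47, w112, w109, w140, w111] :=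
  good_of hTd _ _ _ _ _ _ _ x150 x47 x112 x109 x140 x111 go889
lemma ch890 (hTd : TdOK) : Good 0 ![w150, w52, w113, w112, w140, w111] :=
  good_of hTd _ _ _ _ _ _ _ x150 x52 x113 x112 x140 x111 go890
lemma ch891 (hTd : TdOK) : Good 0 ![w152, w52, w34, w112, w140, w113] :=
  good_of hTd _ _ _ _ _ _ _ x152 x52 x34 x112 x140 x113 go891
lemma ch892 (hTd : TdOK) : Good 0 ![w150, w52, w152, w112, w140, w113] :=
  good_of hTd _ _ _ _ _ _ _ x150 x52 x152 x112 x140 x113 go892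
lemma ch893 (hTd : TdOK) : Good 0 ![w150, w47, w52, w112, w140, w111] :=
  good_of hTd _ _ _ _ _ _ _ x150 x47 x52 x112 x140 x111 go893
lemma ch894 (hTd : TdOK) : Good 0 ![w150, w110, w47, w109, w139, w111] :=
  good_of hTd _ _ _ _ _ _ _ x150 x110 x47 x109 x139 x111 go894
lemma ch895 (hTd : TdOK) : Good 0 ![w153, w142, w47, w109, w139, w110] :=
  good_of hTd _ _ _ _ _ _ _ x153 x142 x47 x109 x139 x110 go895
lemma ch896 (hTd : TdOK) : Good 0 ![w153, w115, w47, w109, w142, w110] :=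
  good_of hTd _ _ _ _ _ _ _ x153 x115 x47 x109 x142 x110 go896
lemma ch897 (hTd : TdOK) : Good 0 ![w153, w57, w143, w115, w142, w110] :=
  good_of hTd _ _ _ _ _ _ _ x153 x57 x143 x115 x142 x110 go897
lemma ch898 (hTd : TdOK) : Good 0 ![w153, w57, w47, w115, w143, w110] :=
  good_of hTd _ _ _ _ _ _ _ x153 x57 x47 x115 x143 x110 go898
lemma ch899 (hTd : TdOK) : Good 0 ![w153, w12, w57, w115, w142, w110] :=
  good_of hTd _ _ _ _ _ _ _ x153 x12 x57 x115 x142 x110 go899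
lemma ch900 (hTd : TdOK) : Good 0 ![w150, w153, w47, w109, w139, w110] :=
  good_of hTd _ _ _ _ _ _ _ x150 x153 x47 x109 x139 x110 go900
lemma ch901 (hTd : TdOK) : Good 0 ![w149, w12, w150, w109, w139, w108] :=
  good_of hTd _ _ _ _ _ _ _ x149 x12 x150 x109 x139 x108 go901
lemma ch902 (hTd : TdOK) : Good 0 ![w148, w149, w34, w107, w138, w106] :=
  good_of hTd _ _ _ _ _ _ _ x148 x149 x34 x107 x138 x106 go902
lemma ch903 (hTd : TdOK) : Good 0 ![w144, w149, w34, w148, w138, w106] :=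
  good_of hTd _ _ _ _ _ _ _ x144 x149 x34 x148 x138 x106 go903
lemma ch904 (hTd : TdOK) : Good 0 ![w144, w108, w34, w149, w138, w106] :=
  good_of hTd _ _ _ _ _ _ _ x144 x108 x34 x149 x138 x106 go904
lemma ch905 (hTd : TdOK) : Good 0 ![w144, w139, w34, w149, w138, w108] :=
  good_of hTd _ _ _ _ _ _ _ x144 x139 x34 x149 x138 x108 go905
lemma ch906 (hTd : TdOK) : Good 0 ![w145, w12, w150, w149, w139, w108] :=
  good_of hTd _ _ _ _ _ _ _ x145 x12 x150 x149 x139 x108 go906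
lemma ch907 (hTd : TdOK) : Good 0 ![w145, w151, w111, w150, w139, w108] :=
  good_of hTd _ _ _ _ _ _ _ x145 x151 x111 x150 x139 x108 go907
lemma ch908 (hTd : TdOK) : Good 0 ![w145, w110, w111, w150, w139, w151] :=
  good_of hTd _ _ _ _ _ _ _ x145 x110 x111 x150 x139 x151 go908
lemma ch909 (hTd : TdOK) : Good 0 ![w145, w12, w110, w150, w139, w151] :=
  good_of hTd _ _ _ _ _ _ _ x145 x12 x110 x150 x139 x151 go909
lemma ch910 (hTd : TdOK) : Good 0 ![w145, w47, w140, w150, w139, w111] :=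
  good_of hTd _ _ _ _ _ _ _ x145 x47 x140 x150 x139 x111 go910
lemma ch911 (hTd : TdOK) : Good 0 ![w146, w52, w113, w150, w140, w111] :=
  good_of hTd _ _ _ _ _ _ _ x146 x52 x113 x150 x140 x111 go911
lemma ch912 (hTd : TdOK) : Good 0 ![w146, w52, w34, w150, w140, w113] :=
  good_of hTd _ _ _ _ _ _ _ x146 x52 x34 x150 x140 x113 go912
lemma ch913 (hTd : TdOK) : Good 0 ![w146, w47, w52, w150, w140, w111] :=
  good_of hTd _ _ _ _ _ _ _ x146 x47 x52 x150 x140 x111 go913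
lemma ch914 (hTd : TdOK) : Good 0 ![w145, w47, w146, w150, w140, w111] :=
  good_of hTd _ _ _ _ _ _ _ x145 x47 x146 x150 x140 x111 go914
lemma ch915 (hTd : TdOK) : Good 0 ![w145, w110, w47, w150, w139, w111] :=
  good_of hTd _ _ _ _ _ _ _ x145 x110 x47 x150 x139 x111 go915
lemma ch916 (hTd : TdOK) : Good 0 ![w145, w153, w47, w150, w139, w110] :=
  good_of hTd _ _ _ _ _ _ _ x145 x153 x47 x150 x139 x110 go916
lemma ch917 (hTd : TdOK) : Good 0 ![w145, w142, w47, w153, w139, w110] :=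
  good_of hTd _ _ _ _ _ _ _ x145 x142 x47 x153 x139 x110 go917
lemma ch918 (hTd : TdOK) : Good 0 ![w147, w57, w143, w153, w142, w110] :=
  good_of hTd _ _ _ _ _ _ _ x147 x57 x143 x153 x142 x110 go918
lemma ch919 (hTd : TdOK) : Good 0 ![w147, w57, w47, w153, w143, w110] :=
  good_of hTd _ _ _ _ _ _ _ x147 x57 x47 x153 x143 x110 go919
lemma ch920 (hTd : TdOK) : Good 0 ![w147, w154, w57, w153, w142, w110] :=
  good_of hTd _ _ _ _ _ _ _ x147 x154 x57 x153 x142 x110 go920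
lemma ch921 (hTd : TdOK) : Good 0 ![w147, w12, w57, w153, w142, w154] :=
  good_of hTd _ _ _ _ _ _ _ x147 x12 x57 x153 x142 x154 go921
lemma ch922 (hTd : TdOK) : Good 0 ![w145, w147, w47, w153, w142, w110] :=
  good_of hTd _ _ _ _ _ _ _ x145 x147 x47 x153 x142 x110 go922
lemma ch923 (hTd : TdOK) : Good 0 ![w144, w145, w34, w149, w139, w108] :=
  good_of hTd _ _ _ _ _ _ _ x144 x145 x34 x149 x139 x108 go923
lemma ch924 (hTd : TdOK) : Good 0 ![w27, w12, w144, w148, w138, w106] :=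
  good_of hTd _ _ _ _ _ _ _ x27 x12 x144 x148 x138 x106 go924
lemma ch925 (hTd : TdOK) : Good 0 ![w23, w12, w144, w106, w27, w13] :=
  good_of hTd _ _ _ _ _ _ _ x23 x12 x144 x106 x27 x13 go925
lemma ch926 (hTd : TdOK) : Good 0 ![w23, w12, w58, w106, w144, w13] :=
  good_of hTd _ _ _ _ _ _ _ x23 x12 x58 x106 x144 x13 go926
lemma ch927 (hTd : TdOK) : Good 0 ![w127, w108, w34, w106, w144, w58] :=
  good_of hTd _ _ _ _ _ _ _ x127 x108 x34 x106 x144 x58 go927
lemma ch928 (hTd : TdOK) : Good 0 ![w127, w60, w34, w108, w144, w58] :=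
  good_of hTd _ _ _ _ _ _ _ x127 x60 x34 x108 x144 x58 go928
lemma ch929 (hTd : TdOK) : Good 0 ![w127, w145, w111, w108, w144, w60] :=
  good_of hTd _ _ _ _ _ _ _ x127 x145 x111 x108 x144 x60 go929
lemma ch930 (hTd : TdOK) : Good 0 ![w127, w145, w155, w111, w144, w60] :=
  good_of hTd _ _ _ _ _ _ _ x127 x145 x155 x111 x144 x60 go930
lemma ch931 (hTd : TdOK) : Good 0 ![w131, w145, w34, w111, w155, w60] :=
  good_of hTd _ _ _ _ _ _ _ x131 x145 x34 x111 x155 x60 go931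
lemma ch932 (hTd : TdOK) : Good 0 ![w127, w145, w131, w111, w155, w60] :=
  good_of hTd _ _ _ _ _ _ _ x127 x145 x131 x111 x155 x60 go932
lemma ch933 (hTd : TdOK) : Good 0 ![w127, w12, w111, w108, w145, w60] :=
  good_of hTd _ _ _ _ _ _ _ x127 x12 x111 x108 x145 x60 go933
lemma ch934 (hTd : TdOK) : Good 0 ![w128, w47, w62, w111, w145, w60] :=
  good_of hTd _ _ _ _ _ _ _ x128 x47 x62 x111 x145 x60 go934
lemma ch935 (hTd : TdOK) : Good 0 ![w128, w47, w146, w111, w145, w62] :=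
  good_of hTd _ _ _ _ _ _ _ x128 x47 x146 x111 x145 x62 go935
lemma ch936 (hTd : TdOK) : Good 0 ![w129, w52, w113, w111, w146, w62] :=
  good_of hTd _ _ _ _ _ _ _ x129 x52 x113 x111 x146 x62 go936
lemma ch937 (hTd : TdOK) : Good 0 ![w129, w52, w74, w113, w146, w62] :=
  good_of hTd _ _ _ _ _ _ _ x129 x52 x74 x113 x146 x62 go937
lemma ch938 (hTd : TdOK) : Good 0 ![w129, w52, w156, w113, w146, w74] :=
  good_of hTd _ _ _ _ _ _ _ x129 x52 x156 x113 x146 x74 go938
lemma ch939 (hTd : TdOK) : Good 0 ![w129, w52, w34, w113, w156, w74] :=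
  good_of hTd _ _ _ _ _ _ _ x129 x52 x34 x113 x156 x74 go939
lemma ch940 (hTd : TdOK) : Good 0 ![w129, w47, w52, w111, w146, w62] :=
  good_of hTd _ _ _ _ _ _ _ x129 x47 x52 x111 x146 x62 go940
lemma ch941 (hTd : TdOK) : Good 0 ![w128, w47, w129, w111, w146, w62] :=
  good_of hTd _ _ _ _ _ _ _ x128 x47 x129 x111 x146 x62 go941
lemma ch942 (hTd : TdOK) : Good 0 ![w128, w110, w47, w111, w145, w60] :=
  good_of hTd _ _ _ _ _ _ _ x128 x110 x47 x111 x145 x60 go942
lemma ch943 (hTd : TdOK) : Good 0 ![w128, w64, w47, w110, w145, w60] :=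
  good_of hTd _ _ _ _ _ _ _ x128 x64 x47 x110 x145 x60 go943
lemma ch944 (hTd : TdOK) : Good 0 ![w128, w147, w47, w110, w145, w64] :=
  good_of hTd _ _ _ _ _ _ _ x128 x147 x47 x110 x145 x64 go944
lemma ch945 (hTd : TdOK) : Good 0 ![w130, w57, w47, w110, w147, w64] :=
  good_of hTd _ _ _ _ _ _ _ x130 x57 x47 x110 x147 x64 go945
lemma ch946 (hTd : TdOK) : Good 0 ![w130, w12, w57, w110, w147, w64] :=
  good_of hTd _ _ _ _ _ _ _ x130 x12 x57 x110 x147 x64 go946
lemma ch947 (hTd : TdOK) : Good 0 ![w128, w130, w47, w110, w147, w64] :=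
  good_of hTd _ _ _ _ _ _ _ x128 x130 x47 x110 x147 x64 go947
lemma ch948 (hTd : TdOK) : Good 0 ![w131, w128, w62, w111, w145, w60] :=
  good_of hTd _ _ _ _ _ _ _ x131 x128 x62 x111 x145 x60 go948
lemma ch949 (hTd : TdOK) : Good 0 ![w131, w128, w146, w111, w145, w62] :=
  good_of hTd _ _ _ _ _ _ _ x131 x128 x146 x111 x145 x62 go949
lemma ch950 (hTd : TdOK) : Good 0 ![w131, w129, w113, w111, w146, w62] :=
  good_of hTd _ _ _ _ _ _ _ x131 x129 x113 x111 x146 x62 go950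
lemma ch951 (hTd : TdOK) : Good 0 ![w131, w129, w74, w113, w146, w62] :=
  good_of hTd _ _ _ _ _ _ _ x131 x129 x74 x113 x146 x62 go951
lemma ch952 (hTd : TdOK) : Good 0 ![w131, w129, w34, w113, w146, w74] :=
  good_of hTd _ _ _ _ _ _ _ x131 x129 x34 x113 x146 x74 go952
lemma ch953 (hTd : TdOK) : Good 0 ![w131, w128, w129, w111, w146, w62] :=
  good_of hTd _ _ _ _ _ _ _ x131 x128 x129 x111 x146 x62 go953
lemma ch954 (hTd : TdOK) : Good 0 ![w127, w128, w131, w111, w145, w60] :=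
  good_of hTd _ _ _ _ _ _ _ x127 x128 x131 x111 x145 x60 go954
lemma ch955 (hTd : TdOK) : Good 0 ![w23, w12, w127, w106, w144, w58] :=
  good_of hTd _ _ _ _ _ _ _ x23 x12 x127 x106 x144 x58 go955
lemma ch956 (hTd : TdOK) : Good 0 ![w23, w12, w144, w148, w27, w106] :=
  good_of hTd _ _ _ _ _ _ _ x23 x12 x144 x148 x27 x106 go956
lemma ch957 (hTd : TdOK) : Good 0 ![w127, w149, w34, w148, w144, w106] :=
  good_of hTd _ _ _ _ _ _ _ x127 x149 x34 x148 x144 x106 go957
lemma ch958 (hTd : TdOK) : Good 0 ![w127, w108, w34, w149, w144, w106] :=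
  good_of hTd _ _ _ _ _ _ _ x127 x108 x34 x149 x144 x106 go958
lemma ch959 (hTd : TdOK) : Good 0 ![w127, w145, w34, w149, w144, w108] :=
  good_of hTd _ _ _ _ _ _ _ x127 x145 x34 x149 x144 x108 go959
lemma ch960 (hTd : TdOK) : Good 0 ![w127, w12, w150, w149, w145, w108] :=
  good_of hTd _ _ _ _ _ _ _ x127 x12 x150 x149 x145 x108 go960
lemma ch961 (hTd : TdOK) : Good 0 ![w127, w12, w111, w150, w145, w108] :=
  good_of hTd _ _ _ _ _ _ _ x127 x12 x111 x150 x145 x108 go961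
lemma ch962 (hTd : TdOK) : Good 0 ![w128, w47, w146, w150, w145, w111] :=
  good_of hTd _ _ _ _ _ _ _ x128 x47 x146 x150 x145 x111 go962
lemma ch963 (hTd : TdOK) : Good 0 ![w129, w52, w113, w150, w146, w111] :=
  good_of hTd _ _ _ _ _ _ _ x129 x52 x113 x150 x146 x111 go963
lemma ch964 (hTd : TdOK) : Good 0 ![w129, w52, w152, w150, w146, w113] :=
  good_of hTd _ _ _ _ _ _ _ x129 x52 x152 x150 x146 x113 go964
lemma ch965 (hTd : TdOK) : Good 0 ![w129, w52, w156, w152, w146, w113] :=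
  good_of hTd _ _ _ _ _ _ _ x129 x52 x156 x152 x146 x113 go965
lemma ch966 (hTd : TdOK) : Good 0 ![w129, w52, w34, w152, w156, w113] :=
  good_of hTd _ _ _ _ _ _ _ x129 x52 x34 x152 x156 x113 go966
lemma ch967 (hTd : TdOK) : Good 0 ![w129, w47, w52, w150, w146, w111] :=
  good_of hTd _ _ _ _ _ _ _ x129 x47 x52 x150 x146 x111 go967
lemma ch968 (hTd : TdOK) : Good 0 ![w128, w47, w129, w150, w146, w111] :=
  good_of hTd _ _ _ _ _ _ _ x128 x47 x129 x150 x146 x111 go968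
lemma ch969 (hTd : TdOK) : Good 0 ![w128, w110, w47, w150, w145, w111] :=
  good_of hTd _ _ _ _ _ _ _ x128 x110 x47 x150 x145 x111 go969
lemma ch970 (hTd : TdOK) : Good 0 ![w128, w153, w47, w150, w145, w110] :=
  good_of hTd _ _ _ _ _ _ _ x128 x153 x47 x150 x145 x110 go970
lemma ch971 (hTd : TdOK) : Good 0 ![w128, w147, w47, w153, w145, w110] :=
  good_of hTd _ _ _ _ _ _ _ x128 x147 x47 x153 x145 x110 go971
lemma ch972 (hTd : TdOK) : Good 0 ![w130, w57, w47, w153, w147, w110] :=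
  good_of hTd _ _ _ _ _ _ _ x130 x57 x47 x153 x147 x110 go972
lemma ch973 (hTd : TdOK) : Good 0 ![w130, w12, w57, w153, w147, w110] :=
  good_of hTd _ _ _ _ _ _ _ x130 x12 x57 x153 x147 x110 go973
lemma ch974 (hTd : TdOK) : Good 0 ![w128, w130, w47, w153, w147, w110] :=
  good_of hTd _ _ _ _ _ _ _ x128 x130 x47 x153 x147 x110 go974
lemma ch975 (hTd : TdOK) : Good 0 ![w131, w128, w146, w150, w145, w111] :=
  good_of hTd _ _ _ _ _ _ _ x131 x128 x146 x150 x145 x111 go975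
lemma ch976 (hTd : TdOK) : Good 0 ![w131, w128, w34, w150, w146, w111] :=
  good_of hTd _ _ _ _ _ _ _ x131 x128 x34 x150 x146 x111 go976
lemma ch977 (hTd : TdOK) : Good 0 ![w127, w128, w131, w150, w145, w111] :=
  good_of hTd _ _ _ _ _ _ _ x127 x128 x131 x150 x145 x111 go977
lemma ch978 (hTd : TdOK) : Good 0 ![w23, w12, w127, w148, w144, w106] :=
  good_of hTd _ _ _ _ _ _ _ x23 x12 x127 x148 x144 x106 go978
lemma ch979 (hTd : TdOK) : Good 0 ![w23, w107, w34, w22, w148, w106] :=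
  good_of hTd _ _ _ _ _ _ _ x23 x107 x34 x22 x148 x106 go979
lemma ch980 (hTd : TdOK) : Good 0 ![w127, w149, w34, w107, w148, w106] :=
  good_of hTd _ _ _ _ _ _ _ x127 x149 x34 x107 x148 x106 go980
lemma ch981 (hTd : TdOK) : Good 0 ![w127, w108, w34, w107, w149, w106] :=
  good_of hTd _ _ _ _ _ _ _ x127 x108 x34 x107 x149 x106 go981
lemma ch982 (hTd : TdOK) : Good 0 ![w127, w12, w150, w107, w149, w108] :=
  good_of hTd _ _ _ _ _ _ _ x127 x12 x150 x107 x149 x108 go982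
lemma ch983 (hTd : TdOK) : Good 0 ![w127, w12, w111, w107, w150, w108] :=
  good_of hTd _ _ _ _ _ _ _ x127 x12 x111 x107 x150 x108 go983
lemma ch984 (hTd : TdOK) : Good 0 ![w127, w109, w34, w107, w150, w111] :=
  good_of hTd _ _ _ _ _ _ _ x127 x109 x34 x107 x150 x111 go984
lemma ch985 (hTd : TdOK) : Good 0 ![w128, w47, w112, w109, w150, w111] :=
  good_of hTd _ _ _ _ _ _ _ x128 x47 x112 x109 x150 x111 go985
lemma ch986 (hTd : TdOK) : Good 0 ![w129, w47, w113, w112, w150, w111] :=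
  good_of hTd _ _ _ _ _ _ _ x129 x47 x113 x112 x150 x111 go986
lemma ch987 (hTd : TdOK) : Good 0 ![w129, w52, w152, w112, w150, w113] :=
  good_of hTd _ _ _ _ _ _ _ x129 x52 x152 x112 x150 x113 go987
lemma ch988 (hTd : TdOK) : Good 0 ![w129, w52, w114, w112, w152, w113] :=
  good_of hTd _ _ _ _ _ _ _ x129 x52 x114 x112 x152 x113 go988
lemma ch989 (hTd : TdOK) : Good 0 ![w129, w52, w34, w114, w152, w113] :=
  good_of hTd _ _ _ _ _ _ _ x129 x52 x34 x114 x152 x113 go989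
lemma ch990 (hTd : TdOK) : Good 0 ![w129, w47, w52, w112, w150, w113] :=
  good_of hTd _ _ _ _ _ _ _ x129 x47 x52 x112 x150 x113 go990
lemma ch991 (hTd : TdOK) : Good 0 ![w128, w47, w129, w112, w150, w111] :=
  good_of hTd _ _ _ _ _ _ _ x128 x47 x129 x112 x150 x111 go991
lemma ch992 (hTd : TdOK) : Good 0 ![w128, w110, w47, w109, w150, w111] :=
  good_of hTd _ _ _ _ _ _ _ x128 x110 x47 x109 x150 x111 go992
lemma ch993 (hTd : TdOK) : Good 0 ![w128, w153, w47, w109, w150, w110] :=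
  good_of hTd _ _ _ _ _ _ _ x128 x153 x47 x109 x150 x110 go993
lemma ch994 (hTd : TdOK) : Good 0 ![w130, w115, w47, w109, w153, w110] :=
  good_of hTd _ _ _ _ _ _ _ x130 x115 x47 x109 x153 x110 go994
lemma ch995 (hTd : TdOK) : Good 0 ![w130, w57, w132, w115, w153, w110] :=
  good_of hTd _ _ _ _ _ _ _ x130 x57 x132 x115 x153 x110 go995
lemma ch996 (hTd : TdOK) : Good 0 ![w130, w57, w47, w132, w153, w110] :=
  good_of hTd _ _ _ _ _ _ _ x130 x57 x47 x132 x153 x110 go996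
lemma ch997 (hTd : TdOK) : Good 0 ![w130, w12, w57, w115, w153, w110] :=
  good_of hTd _ _ _ _ _ _ _ x130 x12 x57 x115 x153 x110 go997
lemma ch998 (hTd : TdOK) : Good 0 ![w128, w130, w47, w109, w153, w110] :=
  good_of hTd _ _ _ _ _ _ _ x128 x130 x47 x109 x153 x110 go998
lemma ch999 (hTd : TdOK) : Good 0 ![w127, w128, w112, w109, w150, w111] :=
  good_of hTd _ _ _ _ _ _ _ x127 x128 x112 x109 x150 x111 go999
lemma ch1000 (hTd : TdOK) : Good 0 ![w127, w128, w34, w112, w150, w111] :=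
  good_of hTd _ _ _ _ _ _ _ x127 x128 x34 x112 x150 x111 go1000
lemma ch1001 (hTd : TdOK) : Good 0 ![w23, w12, w127, w107, w148, w106] :=
  good_of hTd _ _ _ _ _ _ _ x23 x12 x127 x107 x148 x106 go1001
lemma ch1002 (hTd : TdOK) : Good 0 ![w83, w12, w144, w23, w27, w13] :=
  good_of hTd _ _ _ _ _ _ _ x83 x12 x144 x23 x27 x13 go1002
lemma ch1003 (hTd : TdOK) : Good 0 ![w83, w12, w58, w23, w144, w13] :=
  good_of hTd _ _ _ _ _ _ _ x83 x12 x58 x23 x144 x13 go1003
lemma ch1004 (hTd : TdOK) : Good 0 ![w83, w12, w127, w23, w144, w58] :=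
  good_of hTd _ _ _ _ _ _ _ x83 x12 x127 x23 x144 x58 go1004
lemma ch1005 (hTd : TdOK) : Good 0 ![w84, w60, w85, w127, w144, w58] :=
  good_of hTd _ _ _ _ _ _ _ x84 x60 x85 x127 x144 x58 go1005
lemma ch1006 (hTd : TdOK) : Good 0 ![w84, w60, w155, w127, w144, w85] :=
  good_of hTd _ _ _ _ _ _ _ x84 x60 x155 x127 x144 x85 go1006
lemma ch1007 (hTd : TdOK) : Good 0 ![w84, w62, w131, w127, w155, w85] :=
  good_of hTd _ _ _ _ _ _ _ x84 x62 x131 x127 x155 x85 go1007
lemma ch1008 (hTd : TdOK) : Good 0 ![w87, w62, w34, w131, w155, w85] :=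
  good_of hTd _ _ _ _ _ _ _ x87 x62 x34 x131 x155 x85 go1008
lemma ch1009 (hTd : TdOK) : Good 0 ![w84, w62, w87, w131, w155, w85] :=
  good_of hTd _ _ _ _ _ _ _ x84 x62 x87 x131 x155 x85 go1009
lemma ch1010 (hTd : TdOK) : Good 0 ![w84, w60, w62, w127, w155, w85] :=
  good_of hTd _ _ _ _ _ _ _ x84 x60 x62 x127 x155 x85 go1010
lemma ch1011 (hTd : TdOK) : Good 0 ![w84, w145, w155, w127, w144, w60] :=
  good_of hTd _ _ _ _ _ _ _ x84 x145 x155 x127 x144 x60 go1011
lemma ch1012 (hTd : TdOK) : Good 0 ![w84, w145, w62, w127, w155, w60] :=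
  good_of hTd _ _ _ _ _ _ _ x84 x145 x62 x127 x155 x60 go1012
lemma ch1013 (hTd : TdOK) : Good 0 ![w84, w145, w131, w127, w155, w62] :=
  good_of hTd _ _ _ _ _ _ _ x84 x145 x131 x127 x155 x62 go1013
lemma ch1014 (hTd : TdOK) : Good 0 ![w87, w146, w157, w131, w155, w62] :=
  good_of hTd _ _ _ _ _ _ _ x87 x146 x157 x131 x155 x62 go1014
lemma ch1015 (hTd : TdOK) : Good 0 ![w87, w146, w34, w131, w157, w62] :=
  good_of hTd _ _ _ _ _ _ _ x87 x146 x34 x131 x157 x62 go1015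
lemma ch1016 (hTd : TdOK) : Good 0 ![w84, w146, w87, w131, w155, w62] :=
  good_of hTd _ _ _ _ _ _ _ x84 x146 x87 x131 x155 x62 go1016
lemma ch1017 (hTd : TdOK) : Good 0 ![w84, w145, w146, w131, w155, w62] :=
  good_of hTd _ _ _ _ _ _ _ x84 x145 x146 x131 x155 x62 go1017
lemma ch1018 (hTd : TdOK) : Good 0 ![w84, w47, w131, w127, w145, w60] :=
  good_of hTd _ _ _ _ _ _ _ x84 x47 x131 x127 x145 x60 go1018
lemma ch1019 (hTd : TdOK) : Good 0 ![w84, w47, w62, w131, w145, w60] :=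
  good_of hTd _ _ _ _ _ _ _ x84 x47 x62 x131 x145 x60 go1019
lemma ch1020 (hTd : TdOK) : Good 0 ![w84, w47, w146, w131, w145, w62] :=
  good_of hTd _ _ _ _ _ _ _ x84 x47 x146 x131 x145 x62 go1020
lemma ch1021 (hTd : TdOK) : Good 0 ![w87, w52, w74, w131, w146, w62] :=
  good_of hTd _ _ _ _ _ _ _ x87 x52 x74 x131 x146 x62 go1021
lemma ch1022 (hTd : TdOK) : Good 0 ![w87, w52, w156, w131, w146, w74] :=
  good_of hTd _ _ _ _ _ _ _ x87 x52 x156 x131 x146 x74 go1022
lemma ch1023 (hTd : TdOK) : Good 0 ![w87, w52, w34, w131, w156, w74] :=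
  good_of hTd _ _ _ _ _ _ _ x87 x52 x34 x131 x156 x74 go1023
lemma ch1024 (hTd : TdOK) : Good 0 ![w87, w129, w52, w131, w146, w62] :=
  good_of hTd _ _ _ _ _ _ _ x87 x129 x52 x131 x146 x62 go1024
lemma ch1025 (hTd : TdOK) : Good 0 ![w87, w47, w52, w129, w146, w62] :=
  good_of hTd _ _ _ _ _ _ _ x87 x47 x52 x129 x146 x62 go1025
lemma ch1026 (hTd : TdOK) : Good 0 ![w84, w47, w87, w131, w146, w62] :=
  good_of hTd _ _ _ _ _ _ _ x84 x47 x87 x131 x146 x62 go1026
lemma ch1027 (hTd : TdOK) : Good 0 ![w84, w128, w47, w127, w145, w60] :=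
  good_of hTd _ _ _ _ _ _ _ x84 x128 x47 x127 x145 x60 go1027
lemma ch1028 (hTd : TdOK) : Good 0 ![w90, w64, w47, w128, w145, w60] :=
  good_of hTd _ _ _ _ _ _ _ x90 x64 x47 x128 x145 x60 go1028
lemma ch1029 (hTd : TdOK) : Good 0 ![w90, w147, w47, w128, w145, w64] :=
  good_of hTd _ _ _ _ _ _ _ x90 x147 x47 x128 x145 x64 go1029
lemma ch1030 (hTd : TdOK) : Good 0 ![w90, w130, w47, w128, w147, w64] :=
  good_of hTd _ _ _ _ _ _ _ x90 x130 x47 x128 x147 x64 go1030
lemma ch1031 (hTd : TdOK) : Good 0 ![w91, w57, w92, w130, w147, w64] :=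
  good_of hTd _ _ _ _ _ _ _ x91 x57 x92 x130 x147 x64 go1031
lemma ch1032 (hTd : TdOK) : Good 0 ![w91, w57, w47, w130, w147, w92] :=
  good_of hTd _ _ _ _ _ _ _ x91 x57 x47 x130 x147 x92 go1032
lemma ch1033 (hTd : TdOK) : Good 0 ![w91, w12, w57, w130, w147, w64] :=
  good_of hTd _ _ _ _ _ _ _ x91 x12 x57 x130 x147 x64 go1033
lemma ch1034 (hTd : TdOK) : Good 0 ![w90, w91, w47, w130, w147, w64] :=
  good_of hTd _ _ _ _ _ _ _ x90 x91 x47 x130 x147 x64 go1034
lemma ch1035 (hTd : TdOK) : Good 0 ![w84, w90, w47, w128, w145, w60] :=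
  good_of hTd _ _ _ _ _ _ _ x84 x90 x47 x128 x145 x60 go1035
lemma ch1036 (hTd : TdOK) : Good 0 ![w83, w12, w84, w127, w144, w58] :=
  good_of hTd _ _ _ _ _ _ _ x83 x12 x84 x127 x144 x58 go1036
lemma ch1037 (hTd : TdOK) : Good 0 ![w0, w12, w83, w23, w27, w13] :=
  good_of hTd _ _ _ _ _ _ _ x0 x12 x83 x23 x27 x13 go1037
lemma ch1038 (hTd : TdOK) : Good 0 ![w18, w93, w34, w22, w28, w8] :=
  good_of hTd _ _ _ _ _ _ _ x18 x93 x34 x22 x28 x8 go1038
lemma ch1039 (hTd : TdOK) : Good 0 ![w18, w30, w34, w22, w28, w93] :=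
  good_of hTd _ _ _ _ _ _ _ x18 x30 x34 x22 x28 x93 go1039
lemma ch1040 (hTd : TdOK) : Good 0 ![w94, w95, w34, w22, w30, w93] :=
  good_of hTd _ _ _ _ _ _ _ x94 x95 x34 x22 x30 x93 go1040
lemma ch1041 (hTd : TdOK) : Good 0 ![w94, w107, w34, w22, w30, w95] :=
  good_of hTd _ _ _ _ _ _ _ x94 x107 x34 x22 x30 x95 go1041
lemma ch1042 (hTd : TdOK) : Good 0 ![w94, w158, w34, w107, w30, w95] :=
  good_of hTd _ _ _ _ _ _ _ x94 x158 x34 x107 x30 x95 go1042
lemma ch1043 (hTd : TdOK) : Good 0 ![w96, w109, w97, w107, w158, w95] :=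
  good_of hTd _ _ _ _ _ _ _ x96 x109 x97 x107 x158 x95 go1043
lemma ch1044 (hTd : TdOK) : Good 0 ![w96, w98, w97, w109, w158, w95] :=
  good_of hTd _ _ _ _ _ _ _ x96 x98 x97 x109 x158 x95 go1044
lemma ch1045 (hTd : TdOK) : Good 0 ![w96, w99, w97, w109, w158, w98] :=
  good_of hTd _ _ _ _ _ _ _ x96 x99 x97 x109 x158 x98 go1045
lemma ch1046 (hTd : TdOK) : Good 0 ![w96, w12, w99, w109, w158, w98] :=
  good_of hTd _ _ _ _ _ _ _ x96 x12 x99 x109 x158 x98 go1046
lemma ch1047 (hTd : TdOK) : Good 0 ![w96, w109, w34, w107, w158, w97] :=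
  good_of hTd _ _ _ _ _ _ _ x96 x109 x34 x107 x158 x97 go1047
lemma ch1048 (hTd : TdOK) : Good 0 ![w96, w47, w159, w109, w158, w97] :=
  good_of hTd _ _ _ _ _ _ _ x96 x47 x159 x109 x158 x97 go1048
lemma ch1049 (hTd : TdOK) : Good 0 ![w96, w47, w112, w109, w159, w97] :=
  good_of hTd _ _ _ _ _ _ _ x96 x47 x112 x109 x159 x97 go1049
lemma ch1050 (hTd : TdOK) : Good 0 ![w100, w47, w101, w112, w159, w97] :=
  good_of hTd _ _ _ _ _ _ _ x100 x47 x101 x112 x159 x97 go1050
lemma ch1051 (hTd : TdOK) : Good 0 ![w100, w52, w160, w112, w159, w101] :=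
  good_of hTd _ _ _ _ _ _ _ x100 x52 x160 x112 x159 x101 go1051
lemma ch1052 (hTd : TdOK) : Good 0 ![w100, w52, w114, w112, w160, w101] :=
  good_of hTd _ _ _ _ _ _ _ x100 x52 x114 x112 x160 x101 go1052
lemma ch1053 (hTd : TdOK) : Good 0 ![w100, w52, w34, w114, w160, w101] :=
  good_of hTd _ _ _ _ _ _ _ x100 x52 x34 x114 x160 x101 go1053
lemma ch1054 (hTd : TdOK) : Good 0 ![w100, w47, w52, w112, w159, w101] :=
  good_of hTd _ _ _ _ _ _ _ x100 x47 x52 x112 x159 x101 go1054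
lemma ch1055 (hTd : TdOK) : Good 0 ![w96, w47, w100, w112, w159, w97] :=
  good_of hTd _ _ _ _ _ _ _ x96 x47 x100 x112 x159 x97 go1055
lemma ch1056 (hTd : TdOK) : Good 0 ![w96, w99, w47, w109, w158, w97] :=
  good_of hTd _ _ _ _ _ _ _ x96 x99 x47 x109 x158 x97 go1056
lemma ch1057 (hTd : TdOK) : Good 0 ![w96, w161, w47, w109, w158, w99] :=
  good_of hTd _ _ _ _ _ _ _ x96 x161 x47 x109 x158 x99 go1057
lemma ch1058 (hTd : TdOK) : Good 0 ![w102, w115, w47, w109, w161, w99] :=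
  good_of hTd _ _ _ _ _ _ _ x102 x115 x47 x109 x161 x99 go1058
lemma ch1059 (hTd : TdOK) : Good 0 ![w102, w57, w162, w115, w161, w99] :=
  good_of hTd _ _ _ _ _ _ _ x102 x57 x162 x115 x161 x99 go1059
lemma ch1060 (hTd : TdOK) : Good 0 ![w102, w57, w132, w115, w162, w99] :=
  good_of hTd _ _ _ _ _ _ _ x102 x57 x132 x115 x162 x99 go1060
lemma ch1061 (hTd : TdOK) : Good 0 ![w102, w57, w47, w132, w162, w99] :=
  good_of hTd _ _ _ _ _ _ _ x102 x57 x47 x132 x162 x99 go1061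
lemma ch1062 (hTd : TdOK) : Good 0 ![w102, w12, w57, w115, w161, w99] :=
  good_of hTd _ _ _ _ _ _ _ x102 x12 x57 x115 x161 x99 go1062
lemma ch1063 (hTd : TdOK) : Good 0 ![w96, w102, w47, w109, w161, w99] :=
  good_of hTd _ _ _ _ _ _ _ x96 x102 x47 x109 x161 x99 go1063
lemma ch1064 (hTd : TdOK) : Good 0 ![w94, w96, w34, w107, w158, w95] :=
  good_of hTd _ _ _ _ _ _ _ x94 x96 x34 x107 x158 x95 go1064
lemma ch1065 (hTd : TdOK) : Good 0 ![w18, w12, w94, w22, w30, w93] :=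
  good_of hTd _ _ _ _ _ _ _ x18 x12 x94 x22 x30 x93 go1065
lemma ch1066 (hTd : TdOK) : Good 0 ![w29, w30, w34, w22, w28, w18] :=
  good_of hTd _ _ _ _ _ _ _ x29 x30 x34 x22 x28 x18 go1066
lemma ch1067 (hTd : TdOK) : Good 0 ![w29, w12, w94, w22, w30, w18] :=
  good_of hTd _ _ _ _ _ _ _ x29 x12 x94 x22 x30 x18 go1067
lemma ch1068 (hTd : TdOK) : Good 0 ![w163, w107, w34, w22, w30, w94] :=
  good_of hTd _ _ _ _ _ _ _ x163 x107 x34 x22 x30 x94 go1068
lemma ch1069 (hTd : TdOK) : Good 0 ![w164, w158, w34, w107, w30, w94] :=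
  good_of hTd _ _ _ _ _ _ _ x164 x158 x34 x107 x30 x94 go1069
lemma ch1070 (hTd : TdOK) : Good 0 ![w164, w96, w34, w107, w158, w94] :=
  good_of hTd _ _ _ _ _ _ _ x164 x96 x34 x107 x158 x94 go1070
lemma ch1071 (hTd : TdOK) : Good 0 ![w165, w109, w34, w107, w158, w96] :=
  good_of hTd _ _ _ _ _ _ _ x165 x109 x34 x107 x158 x96 go1071
lemma ch1072 (hTd : TdOK) : Good 0 ![w165, w47, w159, w109, w158, w96] :=
  good_of hTd _ _ _ _ _ _ _ x165 x47 x159 x109 x158 x96 go1072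
lemma ch1073 (hTd : TdOK) : Good 0 ![w165, w47, w112, w109, w159, w96] :=
  good_of hTd _ _ _ _ _ _ _ x165 x47 x112 x109 x159 x96 go1073
lemma ch1074 (hTd : TdOK) : Good 0 ![w165, w47, w100, w112, w159, w96] :=
  good_of hTd _ _ _ _ _ _ _ x165 x47 x100 x112 x159 x96 go1074
lemma ch1075 (hTd : TdOK) : Good 0 ![w166, w52, w160, w112, w159, w100] :=
  good_of hTd _ _ _ _ _ _ _ x166 x52 x160 x112 x159 x100 go1075
lemma ch1076 (hTd : TdOK) : Good 0 ![w166, w52, w34, w112, w160, w100] :=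
  good_of hTd _ _ _ _ _ _ _ x166 x52 x34 x112 x160 x100 go1076
lemma ch1077 (hTd : TdOK) : Good 0 ![w165, w52, w166, w112, w159, w100] :=
  good_of hTd _ _ _ _ _ _ _ x165 x52 x166 x112 x159 x100 go1077
lemma ch1078 (hTd : TdOK) : Good 0 ![w165, w47, w52, w112, w159, w100] :=
  good_of hTd _ _ _ _ _ _ _ x165 x47 x52 x112 x159 x100 go1078
lemma ch1079 (hTd : TdOK) : Good 0 ![w167, w161, w47, w109, w158, w96] :=
  good_of hTd _ _ _ _ _ _ _ x167 x161 x47 x109 x158 x96 go1079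
lemma ch1080 (hTd : TdOK) : Good 0 ![w167, w102, w47, w109, w161, w96] :=
  good_of hTd _ _ _ _ _ _ _ x167 x102 x47 x109 x161 x96 go1080
lemma ch1081 (hTd : TdOK) : Good 0 ![w167, w115, w47, w109, w161, w102] :=
  good_of hTd _ _ _ _ _ _ _ x167 x115 x47 x109 x161 x102 go1081
lemma ch1082 (hTd : TdOK) : Good 0 ![w167, w57, w162, w115, w161, w102] :=
  good_of hTd _ _ _ _ _ _ _ x167 x57 x162 x115 x161 x102 go1082
lemma ch1083 (hTd : TdOK) : Good 0 ![w167, w57, w132, w115, w162, w102] :=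
  good_of hTd _ _ _ _ _ _ _ x167 x57 x132 x115 x162 x102 go1083
lemma ch1084 (hTd : TdOK) : Good 0 ![w167, w57, w47, w132, w162, w102] :=
  good_of hTd _ _ _ _ _ _ _ x167 x57 x47 x132 x162 x102 go1084
lemma ch1085 (hTd : TdOK) : Good 0 ![w167, w12, w57, w115, w161, w102] :=
  good_of hTd _ _ _ _ _ _ _ x167 x12 x57 x115 x161 x102 go1085
lemma ch1086 (hTd : TdOK) : Good 0 ![w165, w167, w47, w109, w158, w96] :=
  good_of hTd _ _ _ _ _ _ _ x165 x167 x47 x109 x158 x96 go1086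
lemma ch1087 (hTd : TdOK) : Good 0 ![w164, w12, w165, w107, w158, w96] :=
  good_of hTd _ _ _ _ _ _ _ x164 x12 x165 x107 x158 x96 go1087
lemma ch1088 (hTd : TdOK) : Good 0 ![w163, w164, w34, w107, w30, w94] :=
  good_of hTd _ _ _ _ _ _ _ x163 x164 x34 x107 x30 x94 go1088
lemma ch1089 (hTd : TdOK) : Good 0 ![w168, w164, w34, w163, w30, w94] :=
  good_of hTd _ _ _ _ _ _ _ x168 x164 x34 x163 x30 x94 go1089
lemma ch1090 (hTd : TdOK) : Good 0 ![w168, w158, w34, w164, w30, w94] :=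
  good_of hTd _ _ _ _ _ _ _ x168 x158 x34 x164 x30 x94 go1090
lemma ch1091 (hTd : TdOK) : Good 0 ![w168, w96, w34, w164, w158, w94] :=
  good_of hTd _ _ _ _ _ _ _ x168 x96 x34 x164 x158 x94 go1091
lemma ch1092 (hTd : TdOK) : Good 0 ![w169, w12, w165, w164, w158, w96] :=
  good_of hTd _ _ _ _ _ _ _ x169 x12 x165 x164 x158 x96 go1092
lemma ch1093 (hTd : TdOK) : Good 0 ![w169, w47, w159, w165, w158, w96] :=
  good_of hTd _ _ _ _ _ _ _ x169 x47 x159 x165 x158 x96 go1093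
lemma ch1094 (hTd : TdOK) : Good 0 ![w169, w47, w100, w165, w159, w96] :=
  good_of hTd _ _ _ _ _ _ _ x169 x47 x100 x165 x159 x96 go1094
lemma ch1095 (hTd : TdOK) : Good 0 ![w170, w52, w34, w165, w159, w100] :=
  good_of hTd _ _ _ _ _ _ _ x170 x52 x34 x165 x159 x100 go1095
lemma ch1096 (hTd : TdOK) : Good 0 ![w170, w47, w52, w165, w159, w100] :=
  good_of hTd _ _ _ _ _ _ _ x170 x47 x52 x165 x159 x100 go1096
lemma ch1097 (hTd : TdOK) : Good 0 ![w169, w47, w170, w165, w159, w100] :=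
  good_of hTd _ _ _ _ _ _ _ x169 x47 x170 x165 x159 x100 go1097
lemma ch1098 (hTd : TdOK) : Good 0 ![w169, w167, w47, w165, w158, w96] :=
  good_of hTd _ _ _ _ _ _ _ x169 x167 x47 x165 x158 x96 go1098
lemma ch1099 (hTd : TdOK) : Good 0 ![w169, w161, w47, w167, w158, w96] :=
  good_of hTd _ _ _ _ _ _ _ x169 x161 x47 x167 x158 x96 go1099
lemma ch1100 (hTd : TdOK) : Good 0 ![w169, w102, w47, w167, w161, w96] :=
  good_of hTd _ _ _ _ _ _ _ x169 x102 x47 x167 x161 x96 go1100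
lemma ch1101 (hTd : TdOK) : Good 0 ![w171, w57, w162, w167, w161, w102] :=
  good_of hTd _ _ _ _ _ _ _ x171 x57 x162 x167 x161 x102 go1101
lemma ch1102 (hTd : TdOK) : Good 0 ![w171, w57, w47, w167, w162, w102] :=
  good_of hTd _ _ _ _ _ _ _ x171 x57 x47 x167 x162 x102 go1102
lemma ch1103 (hTd : TdOK) : Good 0 ![w171, w12, w57, w167, w161, w102] :=
  good_of hTd _ _ _ _ _ _ _ x171 x12 x57 x167 x161 x102 go1103
lemma ch1104 (hTd : TdOK) : Good 0 ![w169, w171, w47, w167, w161, w102] :=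
  good_of hTd _ _ _ _ _ _ _ x169 x171 x47 x167 x161 x102 go1104
lemma ch1105 (hTd : TdOK) : Good 0 ![w168, w169, w34, w164, w158, w96] :=
  good_of hTd _ _ _ _ _ _ _ x168 x169 x34 x164 x158 x96 go1105
lemma ch1106 (hTd : TdOK) : Good 0 ![w29, w12, w168, w163, w30, w94] :=
  good_of hTd _ _ _ _ _ _ _ x29 x12 x168 x163 x30 x94 go1106
lemma ch1107 (hTd : TdOK) : Good 0 ![w23, w12, w94, w133, w29, w18] :=
  good_of hTd _ _ _ _ _ _ _ x23 x12 x94 x133 x29 x18 go1107
lemma ch1108 (hTd : TdOK) : Good 0 ![w23, w12, w168, w133, w29, w94] :=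
  good_of hTd _ _ _ _ _ _ _ x23 x12 x168 x133 x29 x94 go1108
lemma ch1109 (hTd : TdOK) : Good 0 ![w127, w134, w34, w133, w168, w94] :=
  good_of hTd _ _ _ _ _ _ _ x127 x134 x34 x133 x168 x94 go1109
lemma ch1110 (hTd : TdOK) : Good 0 ![w127, w96, w34, w134, w168, w94] :=
  good_of hTd _ _ _ _ _ _ _ x127 x96 x34 x134 x168 x94 go1110
lemma ch1111 (hTd : TdOK) : Good 0 ![w127, w12, w135, w134, w168, w96] :=
  good_of hTd _ _ _ _ _ _ _ x127 x12 x135 x134 x168 x96 go1111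
lemma ch1112 (hTd : TdOK) : Good 0 ![w127, w169, w34, w135, w168, w96] :=
  good_of hTd _ _ _ _ _ _ _ x127 x169 x34 x135 x168 x96 go1112
lemma ch1113 (hTd : TdOK) : Good 0 ![w128, w47, w100, w135, w169, w96] :=
  good_of hTd _ _ _ _ _ _ _ x128 x47 x100 x135 x169 x96 go1113
lemma ch1114 (hTd : TdOK) : Good 0 ![w128, w47, w170, w135, w169, w100] :=
  good_of hTd _ _ _ _ _ _ _ x128 x47 x170 x135 x169 x100 go1114
lemma ch1115 (hTd : TdOK) : Good 0 ![w129, w47, w136, w135, w170, w100] :=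
  good_of hTd _ _ _ _ _ _ _ x129 x47 x136 x135 x170 x100 go1115
lemma ch1116 (hTd : TdOK) : Good 0 ![w129, w52, w103, w136, w170, w100] :=
  good_of hTd _ _ _ _ _ _ _ x129 x52 x103 x136 x170 x100 go1116
lemma ch1117 (hTd : TdOK) : Good 0 ![w129, w52, w172, w136, w170, w103] :=
  good_of hTd _ _ _ _ _ _ _ x129 x52 x172 x136 x170 x103 go1117
lemma ch1118 (hTd : TdOK) : Good 0 ![w129, w52, w34, w136, w172, w103] :=
  good_of hTd _ _ _ _ _ _ _ x129 x52 x34 x136 x172 x103 go1118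
lemma ch1119 (hTd : TdOK) : Good 0 ![w129, w47, w52, w136, w170, w100] :=
  good_of hTd _ _ _ _ _ _ _ x129 x47 x52 x136 x170 x100 go1119
lemma ch1120 (hTd : TdOK) : Good 0 ![w128, w47, w129, w135, w170, w100] :=
  good_of hTd _ _ _ _ _ _ _ x128 x47 x129 x135 x170 x100 go1120
lemma ch1121 (hTd : TdOK) : Good 0 ![w128, w137, w47, w135, w169, w96] :=
  good_of hTd _ _ _ _ _ _ _ x128 x137 x47 x135 x169 x96 go1121
lemma ch1122 (hTd : TdOK) : Good 0 ![w128, w102, w47, w137, w169, w96] :=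
  good_of hTd _ _ _ _ _ _ _ x128 x102 x47 x137 x169 x96 go1122
lemma ch1123 (hTd : TdOK) : Good 0 ![w128, w171, w47, w137, w169, w102] :=
  good_of hTd _ _ _ _ _ _ _ x128 x171 x47 x137 x169 x102 go1123
lemma ch1124 (hTd : TdOK) : Good 0 ![w130, w57, w47, w137, w171, w102] :=
  good_of hTd _ _ _ _ _ _ _ x130 x57 x47 x137 x171 x102 go1124
lemma ch1125 (hTd : TdOK) : Good 0 ![w130, w12, w57, w137, w171, w102] :=
  good_of hTd _ _ _ _ _ _ _ x130 x12 x57 x137 x171 x102 go1125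
lemma ch1126 (hTd : TdOK) : Good 0 ![w128, w130, w47, w137, w171, w102] :=
  good_of hTd _ _ _ _ _ _ _ x128 x130 x47 x137 x171 x102 go1126
lemma ch1127 (hTd : TdOK) : Good 0 ![w127, w128, w100, w135, w169, w96] :=
  good_of hTd _ _ _ _ _ _ _ x127 x128 x100 x135 x169 x96 go1127
lemma ch1128 (hTd : TdOK) : Good 0 ![w131, w128, w170, w135, w169, w100] :=
  good_of hTd _ _ _ _ _ _ _ x131 x128 x170 x135 x169 x100 go1128
lemma ch1129 (hTd : TdOK) : Good 0 ![w131, w129, w136, w135, w170, w100] :=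
  good_of hTd _ _ _ _ _ _ _ x131 x129 x136 x135 x170 x100 go1129
lemma ch1130 (hTd : TdOK) : Good 0 ![w131, w129, w34, w136, w170, w100] :=
  good_of hTd _ _ _ _ _ _ _ x131 x129 x34 x136 x170 x100 go1130
lemma ch1131 (hTd : TdOK) : Good 0 ![w131, w128, w129, w135, w170, w100] :=
  good_of hTd _ _ _ _ _ _ _ x131 x128 x129 x135 x170 x100 go1131
lemma ch1132 (hTd : TdOK) : Good 0 ![w127, w128, w131, w135, w169, w100] :=
  good_of hTd _ _ _ _ _ _ _ x127 x128 x131 x135 x169 x100 go1132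
lemma ch1133 (hTd : TdOK) : Good 0 ![w23, w12, w127, w133, w168, w94] :=
  good_of hTd _ _ _ _ _ _ _ x23 x12 x127 x133 x168 x94 go1133
lemma ch1134 (hTd : TdOK) : Good 0 ![w23, w12, w168, w163, w29, w133] :=
  good_of hTd _ _ _ _ _ _ _ x23 x12 x168 x163 x29 x133 go1134
lemma ch1135 (hTd : TdOK) : Good 0 ![w23, w134, w34, w163, w168, w133] :=
  good_of hTd _ _ _ _ _ _ _ x23 x134 x34 x163 x168 x133 go1135
lemma ch1136 (hTd : TdOK) : Good 0 ![w127, w164, w34, w163, w168, w134] :=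
  good_of hTd _ _ _ _ _ _ _ x127 x164 x34 x163 x168 x134 go1136
lemma ch1137 (hTd : TdOK) : Good 0 ![w127, w12, w135, w164, w168, w134] :=
  good_of hTd _ _ _ _ _ _ _ x127 x12 x135 x164 x168 x134 go1137
lemma ch1138 (hTd : TdOK) : Good 0 ![w127, w169, w34, w164, w168, w135] :=
  good_of hTd _ _ _ _ _ _ _ x127 x169 x34 x164 x168 x135 go1138
lemma ch1139 (hTd : TdOK) : Good 0 ![w127, w12, w165, w164, w169, w135] :=
  good_of hTd _ _ _ _ _ _ _ x127 x12 x165 x164 x169 x135 go1139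
lemma ch1140 (hTd : TdOK) : Good 0 ![w128, w47, w170, w165, w169, w135] :=
  good_of hTd _ _ _ _ _ _ _ x128 x47 x170 x165 x169 x135 go1140
lemma ch1141 (hTd : TdOK) : Good 0 ![w129, w47, w136, w165, w170, w135] :=
  good_of hTd _ _ _ _ _ _ _ x129 x47 x136 x165 x170 x135 go1141
lemma ch1142 (hTd : TdOK) : Good 0 ![w129, w52, w166, w165, w170, w136] :=
  good_of hTd _ _ _ _ _ _ _ x129 x52 x166 x165 x170 x136 go1142
lemma ch1143 (hTd : TdOK) : Good 0 ![w129, w52, w172, w166, w170, w136] :=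
  good_of hTd _ _ _ _ _ _ _ x129 x52 x172 x166 x170 x136 go1143
lemma ch1144 (hTd : TdOK) : Good 0 ![w129, w52, w34, w166, w172, w136] :=
  good_of hTd _ _ _ _ _ _ _ x129 x52 x34 x166 x172 x136 go1144
lemma ch1145 (hTd : TdOK) : Good 0 ![w129, w47, w52, w165, w170, w136] :=
  good_of hTd _ _ _ _ _ _ _ x129 x47 x52 x165 x170 x136 go1145
lemma ch1146 (hTd : TdOK) : Good 0 ![w128, w47, w129, w165, w170, w135] :=
  good_of hTd _ _ _ _ _ _ _ x128 x47 x129 x165 x170 x135 go1146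
lemma ch1147 (hTd : TdOK) : Good 0 ![w128, w137, w47, w165, w169, w135] :=
  good_of hTd _ _ _ _ _ _ _ x128 x137 x47 x165 x169 x135 go1147
lemma ch1148 (hTd : TdOK) : Good 0 ![w128, w167, w47, w165, w169, w137] :=
  good_of hTd _ _ _ _ _ _ _ x128 x167 x47 x165 x169 x137 go1148
lemma ch1149 (hTd : TdOK) : Good 0 ![w128, w171, w47, w167, w169, w137] :=
  good_of hTd _ _ _ _ _ _ _ x128 x171 x47 x167 x169 x137 go1149
lemma ch1150 (hTd : TdOK) : Good 0 ![w130, w57, w47, w167, w171, w137] :=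
  good_of hTd _ _ _ _ _ _ _ x130 x57 x47 x167 x171 x137 go1150
lemma ch1151 (hTd : TdOK) : Good 0 ![w130, w12, w57, w167, w171, w137] :=
  good_of hTd _ _ _ _ _ _ _ x130 x12 x57 x167 x171 x137 go1151
lemma ch1152 (hTd : TdOK) : Good 0 ![w128, w130, w47, w167, w171, w137] :=
  good_of hTd _ _ _ _ _ _ _ x128 x130 x47 x167 x171 x137 go1152
lemma ch1153 (hTd : TdOK) : Good 0 ![w131, w128, w170, w165, w169, w135] :=
  good_of hTd _ _ _ _ _ _ _ x131 x128 x170 x165 x169 x135 go1153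
lemma ch1154 (hTd : TdOK) : Good 0 ![w131, w128, w34, w165, w170, w135] :=
  good_of hTd _ _ _ _ _ _ _ x131 x128 x34 x165 x170 x135 go1154
lemma ch1155 (hTd : TdOK) : Good 0 ![w127, w128, w131, w165, w169, w135] :=
  good_of hTd _ _ _ _ _ _ _ x127 x128 x131 x165 x169 x135 go1155
lemma ch1156 (hTd : TdOK) : Good 0 ![w23, w12, w127, w163, w168, w134] :=
  good_of hTd _ _ _ _ _ _ _ x23 x12 x127 x163 x168 x134 go1156
lemma ch1157 (hTd : TdOK) : Good 0 ![w23, w107, w34, w22, w163, w133] :=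
  good_of hTd _ _ _ _ _ _ _ x23 x107 x34 x22 x163 x133 go1157
lemma ch1158 (hTd : TdOK) : Good 0 ![w23, w134, w34, w107, w163, w133] :=
  good_of hTd _ _ _ _ _ _ _ x23 x134 x34 x107 x163 x133 go1158
lemma ch1159 (hTd : TdOK) : Good 0 ![w127, w164, w34, w107, w163, w134] :=
  good_of hTd _ _ _ _ _ _ _ x127 x164 x34 x107 x163 x134 go1159
lemma ch1160 (hTd : TdOK) : Good 0 ![w127, w12, w135, w107, w164, w134] :=
  good_of hTd _ _ _ _ _ _ _ x127 x12 x135 x107 x164 x134 go1160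
lemma ch1161 (hTd : TdOK) : Good 0 ![w127, w12, w165, w107, w164, w135] :=
  good_of hTd _ _ _ _ _ _ _ x127 x12 x165 x107 x164 x135 go1161
lemma ch1162 (hTd : TdOK) : Good 0 ![w127, w109, w34, w107, w165, w135] :=
  good_of hTd _ _ _ _ _ _ _ x127 x109 x34 x107 x165 x135 go1162
lemma ch1163 (hTd : TdOK) : Good 0 ![w128, w47, w112, w109, w165, w135] :=
  good_of hTd _ _ _ _ _ _ _ x128 x47 x112 x109 x165 x135 go1163
lemma ch1164 (hTd : TdOK) : Good 0 ![w129, w47, w136, w112, w165, w135] :=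
  good_of hTd _ _ _ _ _ _ _ x129 x47 x136 x112 x165 x135 go1164
lemma ch1165 (hTd : TdOK) : Good 0 ![w129, w52, w166, w112, w165, w136] :=
  good_of hTd _ _ _ _ _ _ _ x129 x52 x166 x112 x165 x136 go1165
lemma ch1166 (hTd : TdOK) : Good 0 ![w129, w52, w114, w112, w166, w136] :=
  good_of hTd _ _ _ _ _ _ _ x129 x52 x114 x112 x166 x136 go1166
lemma ch1167 (hTd : TdOK) : Good 0 ![w129, w52, w34, w114, w166, w136] :=
  good_of hTd _ _ _ _ _ _ _ x129 x52 x34 x114 x166 x136 go1167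
lemma ch1168 (hTd : TdOK) : Good 0 ![w129, w47, w52, w112, w165, w136] :=
  good_of hTd _ _ _ _ _ _ _ x129 x47 x52 x112 x165 x136 go1168
lemma ch1169 (hTd : TdOK) : Good 0 ![w128, w47, w129, w112, w165, w135] :=
  good_of hTd _ _ _ _ _ _ _ x128 x47 x129 x112 x165 x135 go1169
lemma ch1170 (hTd : TdOK) : Good 0 ![w128, w137, w47, w109, w165, w135] :=
  good_of hTd _ _ _ _ _ _ _ x128 x137 x47 x109 x165 x135 go1170
lemma ch1171 (hTd : TdOK) : Good 0 ![w128, w167, w47, w109, w165, w137] :=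
  good_of hTd _ _ _ _ _ _ _ x128 x167 x47 x109 x165 x137 go1171
lemma ch1172 (hTd : TdOK) : Good 0 ![w130, w115, w47, w109, w167, w137] :=
  good_of hTd _ _ _ _ _ _ _ x130 x115 x47 x109 x167 x137 go1172
lemma ch1173 (hTd : TdOK) : Good 0 ![w130, w57, w132, w115, w167, w137] :=
  good_of hTd _ _ _ _ _ _ _ x130 x57 x132 x115 x167 x137 go1173
lemma ch1174 (hTd : TdOK) : Good 0 ![w130, w57, w47, w132, w167, w137] :=
  good_of hTd _ _ _ _ _ _ _ x130 x57 x47 x132 x167 x137 go1174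
lemma ch1175 (hTd : TdOK) : Good 0 ![w130, w12, w57, w115, w167, w137] :=
  good_of hTd _ _ _ _ _ _ _ x130 x12 x57 x115 x167 x137 go1175
lemma ch1176 (hTd : TdOK) : Good 0 ![w128, w130, w47, w109, w167, w137] :=
  good_of hTd _ _ _ _ _ _ _ x128 x130 x47 x109 x167 x137 go1176
lemma ch1177 (hTd : TdOK) : Good 0 ![w127, w128, w34, w109, w165, w135] :=
  good_of hTd _ _ _ _ _ _ _ x127 x128 x34 x109 x165 x135 go1177
lemma ch1178 (hTd : TdOK) : Good 0 ![w23, w12, w127, w107, w163, w134] :=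
  good_of hTd _ _ _ _ _ _ _ x23 x12 x127 x107 x163 x134 go1178
lemma ch1179 (hTd : TdOK) : Good 0 ![w83, w12, w94, w23, w29, w18] :=
  good_of hTd _ _ _ _ _ _ _ x83 x12 x94 x23 x29 x18 go1179
lemma ch1180 (hTd : TdOK) : Good 0 ![w83, w12, w168, w23, w29, w94] :=
  good_of hTd _ _ _ _ _ _ _ x83 x12 x168 x23 x29 x94 go1180
lemma ch1181 (hTd : TdOK) : Good 0 ![w83, w12, w127, w23, w168, w94] :=
  good_of hTd _ _ _ _ _ _ _ x83 x12 x127 x23 x168 x94 go1181
lemma ch1182 (hTd : TdOK) : Good 0 ![w84, w96, w104, w127, w168, w94] :=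
  good_of hTd _ _ _ _ _ _ _ x84 x96 x104 x127 x168 x94 go1182
lemma ch1183 (hTd : TdOK) : Good 0 ![w84, w96, w173, w127, w168, w104] :=
  good_of hTd _ _ _ _ _ _ _ x84 x96 x173 x127 x168 x104 go1183
lemma ch1184 (hTd : TdOK) : Good 0 ![w84, w100, w131, w127, w173, w104] :=
  good_of hTd _ _ _ _ _ _ _ x84 x100 x131 x127 x173 x104 go1184
lemma ch1185 (hTd : TdOK) : Good 0 ![w84, w100, w34, w131, w173, w104] :=
  good_of hTd _ _ _ _ _ _ _ x84 x100 x34 x131 x173 x104 go1185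
lemma ch1186 (hTd : TdOK) : Good 0 ![w84, w96, w100, w127, w173, w104] :=
  good_of hTd _ _ _ _ _ _ _ x84 x96 x100 x127 x173 x104 go1186
lemma ch1187 (hTd : TdOK) : Good 0 ![w84, w169, w173, w127, w168, w96] :=
  good_of hTd _ _ _ _ _ _ _ x84 x169 x173 x127 x168 x96 go1187
lemma ch1188 (hTd : TdOK) : Good 0 ![w84, w169, w100, w127, w173, w96] :=
  good_of hTd _ _ _ _ _ _ _ x84 x169 x100 x127 x173 x96 go1188
lemma ch1189 (hTd : TdOK) : Good 0 ![w84, w169, w131, w127, w173, w100] :=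
  good_of hTd _ _ _ _ _ _ _ x84 x169 x131 x127 x173 x100 go1189
lemma ch1190 (hTd : TdOK) : Good 0 ![w87, w170, w174, w131, w173, w100] :=
  good_of hTd _ _ _ _ _ _ _ x87 x170 x174 x131 x173 x100 go1190
lemma ch1191 (hTd : TdOK) : Good 0 ![w87, w170, w34, w131, w174, w100] :=
  good_of hTd _ _ _ _ _ _ _ x87 x170 x34 x131 x174 x100 go1191
lemma ch1192 (hTd : TdOK) : Good 0 ![w84, w170, w87, w131, w173, w100] :=
  good_of hTd _ _ _ _ _ _ _ x84 x170 x87 x131 x173 x100 go1192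
lemma ch1193 (hTd : TdOK) : Good 0 ![w84, w169, w170, w131, w173, w100] :=
  good_of hTd _ _ _ _ _ _ _ x84 x169 x170 x131 x173 x100 go1193
lemma ch1194 (hTd : TdOK) : Good 0 ![w84, w47, w100, w127, w169, w96] :=
  good_of hTd _ _ _ _ _ _ _ x84 x47 x100 x127 x169 x96 go1194
lemma ch1195 (hTd : TdOK) : Good 0 ![w84, w47, w131, w127, w169, w100] :=
  good_of hTd _ _ _ _ _ _ _ x84 x47 x131 x127 x169 x100 go1195
lemma ch1196 (hTd : TdOK) : Good 0 ![w84, w47, w170, w131, w169, w100] :=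
  good_of hTd _ _ _ _ _ _ _ x84 x47 x170 x131 x169 x100 go1196
lemma ch1197 (hTd : TdOK) : Good 0 ![w87, w52, w103, w131, w170, w100] :=
  good_of hTd _ _ _ _ _ _ _ x87 x52 x103 x131 x170 x100 go1197
lemma ch1198 (hTd : TdOK) : Good 0 ![w87, w52, w172, w131, w170, w103] :=
  good_of hTd _ _ _ _ _ _ _ x87 x52 x172 x131 x170 x103 go1198
lemma ch1199 (hTd : TdOK) : Good 0 ![w87, w52, w34, w131, w172, w103] :=
  good_of hTd _ _ _ _ _ _ _ x87 x52 x34 x131 x172 x103 go1199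
lemma ch1200 (hTd : TdOK) : Good 0 ![w87, w129, w52, w131, w170, w100] :=
  good_of hTd _ _ _ _ _ _ _ x87 x129 x52 x131 x170 x100 go1200
lemma ch1201 (hTd : TdOK) : Good 0 ![w87, w47, w52, w129, w170, w100] :=
  good_of hTd _ _ _ _ _ _ _ x87 x47 x52 x129 x170 x100 go1201
lemma ch1202 (hTd : TdOK) : Good 0 ![w84, w47, w87, w131, w170, w100] :=
  good_of hTd _ _ _ _ _ _ _ x84 x47 x87 x131 x170 x100 go1202
lemma ch1203 (hTd : TdOK) : Good 0 ![w84, w128, w47, w127, w169, w96] :=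
  good_of hTd _ _ _ _ _ _ _ x84 x128 x47 x127 x169 x96 go1203
lemma ch1204 (hTd : TdOK) : Good 0 ![w90, w102, w47, w128, w169, w96] :=
  good_of hTd _ _ _ _ _ _ _ x90 x102 x47 x128 x169 x96 go1204
lemma ch1205 (hTd : TdOK) : Good 0 ![w90, w171, w47, w128, w169, w102] :=
  good_of hTd _ _ _ _ _ _ _ x90 x171 x47 x128 x169 x102 go1205
lemma ch1206 (hTd : TdOK) : Good 0 ![w90, w130, w47, w128, w171, w102] :=
  good_of hTd _ _ _ _ _ _ _ x90 x130 x47 x128 x171 x102 go1206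
lemma ch1207 (hTd : TdOK) : Good 0 ![w91, w57, w105, w130, w171, w102] :=
  good_of hTd _ _ _ _ _ _ _ x91 x57 x105 x130 x171 x102 go1207
lemma ch1208 (hTd : TdOK) : Good 0 ![w91, w57, w175, w130, w171, w105] :=
  good_of hTd _ _ _ _ _ _ _ x91 x57 x175 x130 x171 x105 go1208
lemma ch1209 (hTd : TdOK) : Good 0 ![w91, w57, w47, w130, w175, w105] :=
  good_of hTd _ _ _ _ _ _ _ x91 x57 x47 x130 x175 x105 go1209
lemma ch1210 (hTd : TdOK) : Good 0 ![w91, w12, w57, w130, w171, w102] :=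
  good_of hTd _ _ _ _ _ _ _ x91 x12 x57 x130 x171 x102 go1210
lemma ch1211 (hTd : TdOK) : Good 0 ![w90, w91, w47, w130, w171, w102] :=
  good_of hTd _ _ _ _ _ _ _ x90 x91 x47 x130 x171 x102 go1211
lemma ch1212 (hTd : TdOK) : Good 0 ![w84, w90, w47, w128, w169, w96] :=
  good_of hTd _ _ _ _ _ _ _ x84 x90 x47 x128 x169 x96 go1212
lemma ch1213 (hTd : TdOK) : Good 0 ![w83, w12, w84, w127, w168, w94] :=
  good_of hTd _ _ _ _ _ _ _ x83 x12 x84 x127 x168 x94 go1213
lemma ch1214 (hTd : TdOK) : Good 0 ![w0, w12, w83, w23, w29, w18] :=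
  good_of hTd _ _ _ _ _ _ _ x0 x12 x83 x23 x29 x18 go1214
lemma ch1215 (hTd : TdOK) : Good 0 ![w0, w6, w2, w32, w176, w5] :=
  good_of hTd _ _ _ _ _ _ _ x0 x6 x2 x32 x176 x5 go1215
lemma ch1216 (hTd : TdOK) : Good 0 ![w0, w7, w2, w32, w177, w8] :=
  good_of hTd _ _ _ _ _ _ _ x0 x7 x2 x32 x177 x8 go1216
lemma ch1217 (hTd : TdOK) : Good 0 ![w0, w6, w2, w32, w177, w7] :=
  good_of hTd _ _ _ _ _ _ _ x0 x6 x2 x32 x177 x7 go1217
lemma ch1218 (hTd : TdOK) : Good 0 ![w13, w178, w2, w32, w176, w5] :=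
  good_of hTd _ _ _ _ _ _ _ x13 x178 x2 x32 x176 x5 go1218
lemma ch1219 (hTd : TdOK) : Good 0 ![w13, w15, w2, w32, w178, w5] :=
  good_of hTd _ _ _ _ _ _ _ x13 x15 x2 x32 x178 x5 go1219
lemma ch1220 (hTd : TdOK) : Good 0 ![w13, w35, w15, w32, w178, w5] :=
  good_of hTd _ _ _ _ _ _ _ x13 x35 x15 x32 x178 x5 go1220
lemma ch1221 (hTd : TdOK) : Good 0 ![w36, w12, w15, w32, w178, w35] :=
  good_of hTd _ _ _ _ _ _ _ x36 x12 x15 x32 x178 x35 go1221
lemma ch1222 (hTd : TdOK) : Good 0 ![w13, w12, w15, w36, w178, w35] :=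
  good_of hTd _ _ _ _ _ _ _ x13 x12 x15 x36 x178 x35 go1222
lemma ch1223 (hTd : TdOK) : Good 0 ![w179, w178, w2, w32, w176, w13] :=
  good_of hTd _ _ _ _ _ _ _ x179 x178 x2 x32 x176 x13 go1223
lemma ch1224 (hTd : TdOK) : Good 0 ![w179, w15, w2, w32, w178, w13] :=
  good_of hTd _ _ _ _ _ _ _ x179 x15 x2 x32 x178 x13 go1224
lemma ch1225 (hTd : TdOK) : Good 0 ![w179, w12, w15, w36, w178, w13] :=
  good_of hTd _ _ _ _ _ _ _ x179 x12 x15 x36 x178 x13 go1225
lemma ch1226 (hTd : TdOK) : Good 0 ![w179, w12, w15, w32, w178, w36] :=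
  good_of hTd _ _ _ _ _ _ _ x179 x12 x15 x32 x178 x36 go1226
lemma ch1227 (hTd : TdOK) : Good 0 ![w0, w12, w2, w32, w179, w13] :=
  good_of hTd _ _ _ _ _ _ _ x0 x12 x2 x32 x179 x13 go1227
lemma ch1228 (hTd : TdOK) : Good 0 ![w18, w12, w2, w32, w177, w8] :=
  good_of hTd _ _ _ _ _ _ _ x18 x12 x2 x32 x177 x8 go1228
lemma ch1229 (hTd : TdOK) : Good 0 ![w180, w181, w2, w32, w177, w18] :=
  good_of hTd _ _ _ _ _ _ _ x180 x181 x2 x32 x177 x18 go1229
lemma ch1230 (hTd : TdOK) : Good 0 ![w180, w12, w2, w32, w181, w18] :=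
  good_of hTd _ _ _ _ _ _ _ x180 x12 x2 x32 x181 x18 go1230
lemma ch1231 (hTd : TdOK) : Good 0 ![w33, w12, w2, w32, w180, w18] :=
  good_of hTd _ _ _ _ _ _ _ x33 x12 x2 x32 x180 x18 go1231
lemma ch1232 (hTd : TdOK) : Good 0 ![w0, w12, w2, w33, w180, w18] :=
  good_of hTd _ _ _ _ _ _ _ x0 x12 x2 x33 x180 x18 go1232
lemma ch1233 (hTd : TdOK) : Good 0 ![w13, w178, w34, w32, w176, w5] :=
  good_of hTd _ _ _ _ _ _ _ x13 x178 x34 x32 x176 x5 go1233
lemma ch1234 (hTd : TdOK) : Good 0 ![w13, w35, w34, w32, w178, w5] :=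
  good_of hTd _ _ _ _ _ _ _ x13 x35 x34 x32 x178 x5 go1234
lemma ch1235 (hTd : TdOK) : Good 0 ![w36, w37, w34, w32, w178, w35] :=
  good_of hTd _ _ _ _ _ _ _ x36 x37 x34 x32 x178 x35 go1235
lemma ch1236 (hTd : TdOK) : Good 0 ![w38, w182, w34, w37, w178, w35] :=
  good_of hTd _ _ _ _ _ _ _ x38 x182 x34 x37 x178 x35 go1236
lemma ch1237 (hTd : TdOK) : Good 0 ![w38, w40, w34, w37, w182, w35] :=
  good_of hTd _ _ _ _ _ _ _ x38 x40 x34 x37 x182 x35 go1237
lemma ch1238 (hTd : TdOK) : Good 0 ![w38, w41, w34, w37, w182, w40] :=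
  good_of hTd _ _ _ _ _ _ _ x38 x41 x34 x37 x182 x40 go1238
lemma ch1239 (hTd : TdOK) : Good 0 ![w42, w43, w44, w41, w182, w40] :=
  good_of hTd _ _ _ _ _ _ _ x42 x43 x44 x41 x182 x40 go1239
lemma ch1240 (hTd : TdOK) : Good 0 ![w42, w45, w44, w41, w182, w43] :=
  good_of hTd _ _ _ _ _ _ _ x42 x45 x44 x41 x182 x43 go1240
lemma ch1241 (hTd : TdOK) : Good 0 ![w42, w12, w45, w41, w182, w43] :=
  good_of hTd _ _ _ _ _ _ _ x42 x12 x45 x41 x182 x43 go1241
lemma ch1242 (hTd : TdOK) : Good 0 ![w46, w42, w44, w41, w182, w40] :=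
  good_of hTd _ _ _ _ _ _ _ x46 x42 x44 x41 x182 x40 go1242
lemma ch1243 (hTd : TdOK) : Good 0 ![w46, w47, w183, w41, w182, w44] :=
  good_of hTd _ _ _ _ _ _ _ x46 x47 x183 x41 x182 x44 go1243
lemma ch1244 (hTd : TdOK) : Good 0 ![w46, w47, w49, w41, w183, w44] :=
  good_of hTd _ _ _ _ _ _ _ x46 x47 x49 x41 x183 x44 go1244
lemma ch1245 (hTd : TdOK) : Good 0 ![w46, w47, w50, w49, w183, w44] :=
  good_of hTd _ _ _ _ _ _ _ x46 x47 x50 x49 x183 x44 go1245
lemma ch1246 (hTd : TdOK) : Good 0 ![w51, w52, w184, w49, w183, w50] :=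
  good_of hTd _ _ _ _ _ _ _ x51 x52 x184 x49 x183 x50 go1246
lemma ch1247 (hTd : TdOK) : Good 0 ![w51, w52, w34, w49, w184, w50] :=
  good_of hTd _ _ _ _ _ _ _ x51 x52 x34 x49 x184 x50 go1247
lemma ch1248 (hTd : TdOK) : Good 0 ![w46, w52, w51, w49, w183, w50] :=
  good_of hTd _ _ _ _ _ _ _ x46 x52 x51 x49 x183 x50 go1248
lemma ch1249 (hTd : TdOK) : Good 0 ![w46, w47, w52, w49, w183, w50] :=
  good_of hTd _ _ _ _ _ _ _ x46 x47 x52 x49 x183 x50 go1249
lemma ch1250 (hTd : TdOK) : Good 0 ![w42, w45, w47, w41, w182, w44] :=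
  good_of hTd _ _ _ _ _ _ _ x42 x45 x47 x41 x182 x44 go1250
lemma ch1251 (hTd : TdOK) : Good 0 ![w42, w185, w47, w41, w182, w45] :=
  good_of hTd _ _ _ _ _ _ _ x42 x185 x47 x41 x182 x45 go1251
lemma ch1252 (hTd : TdOK) : Good 0 ![w42, w56, w47, w41, w185, w45] :=
  good_of hTd _ _ _ _ _ _ _ x42 x56 x47 x41 x185 x45 go1252
lemma ch1253 (hTd : TdOK) : Good 0 ![w42, w57, w186, w56, w185, w45] :=
  good_of hTd _ _ _ _ _ _ _ x42 x57 x186 x56 x185 x45 go1253
lemma ch1254 (hTd : TdOK) : Good 0 ![w42, w57, w47, w56, w186, w45] :=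
  good_of hTd _ _ _ _ _ _ _ x42 x57 x47 x56 x186 x45 go1254
lemma ch1255 (hTd : TdOK) : Good 0 ![w42, w12, w57, w56, w185, w45] :=
  good_of hTd _ _ _ _ _ _ _ x42 x12 x57 x56 x185 x45 go1255
lemma ch1256 (hTd : TdOK) : Good 0 ![w46, w42, w47, w41, w182, w44] :=
  good_of hTd _ _ _ _ _ _ _ x46 x42 x47 x41 x182 x44 go1256
lemma ch1257 (hTd : TdOK) : Good 0 ![w38, w12, w46, w41, w182, w40] :=
  good_of hTd _ _ _ _ _ _ _ x38 x12 x46 x41 x182 x40 go1257
lemma ch1258 (hTd : TdOK) : Good 0 ![w36, w38, w34, w37, w178, w35] :=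
  good_of hTd _ _ _ _ _ _ _ x36 x38 x34 x37 x178 x35 go1258
lemma ch1259 (hTd : TdOK) : Good 0 ![w58, w38, w34, w36, w178, w35] :=
  good_of hTd _ _ _ _ _ _ _ x58 x38 x34 x36 x178 x35 go1259
lemma ch1260 (hTd : TdOK) : Good 0 ![w58, w182, w34, w38, w178, w35] :=
  good_of hTd _ _ _ _ _ _ _ x58 x182 x34 x38 x178 x35 go1260
lemma ch1261 (hTd : TdOK) : Good 0 ![w58, w40, w34, w38, w182, w35] :=
  good_of hTd _ _ _ _ _ _ _ x58 x40 x34 x38 x182 x35 go1261
lemma ch1262 (hTd : TdOK) : Good 0 ![w60, w12, w46, w38, w182, w40] :=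
  good_of hTd _ _ _ _ _ _ _ x60 x12 x46 x38 x182 x40 go1262
lemma ch1263 (hTd : TdOK) : Good 0 ![w60, w47, w44, w46, w182, w40] :=
  good_of hTd _ _ _ _ _ _ _ x60 x47 x44 x46 x182 x40 go1263
lemma ch1264 (hTd : TdOK) : Good 0 ![w60, w47, w183, w46, w182, w44] :=
  good_of hTd _ _ _ _ _ _ _ x60 x47 x183 x46 x182 x44 go1264
lemma ch1265 (hTd : TdOK) : Good 0 ![w62, w47, w50, w46, w183, w44] :=
  good_of hTd _ _ _ _ _ _ _ x62 x47 x50 x46 x183 x44 go1265
lemma ch1266 (hTd : TdOK) : Good 0 ![w62, w52, w34, w46, w183, w50] :=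
  good_of hTd _ _ _ _ _ _ _ x62 x52 x34 x46 x183 x50 go1266
lemma ch1267 (hTd : TdOK) : Good 0 ![w62, w47, w52, w46, w183, w50] :=
  good_of hTd _ _ _ _ _ _ _ x62 x47 x52 x46 x183 x50 go1267
lemma ch1268 (hTd : TdOK) : Good 0 ![w60, w47, w62, w46, w183, w44] :=
  good_of hTd _ _ _ _ _ _ _ x60 x47 x62 x46 x183 x44 go1268
lemma ch1269 (hTd : TdOK) : Good 0 ![w60, w42, w47, w46, w182, w40] :=
  good_of hTd _ _ _ _ _ _ _ x60 x42 x47 x46 x182 x40 go1269
lemma ch1270 (hTd : TdOK) : Good 0 ![w60, w43, w47, w42, w182, w40] :=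
  good_of hTd _ _ _ _ _ _ _ x60 x43 x47 x42 x182 x40 go1270
lemma ch1271 (hTd : TdOK) : Good 0 ![w60, w185, w47, w42, w182, w43] :=
  good_of hTd _ _ _ _ _ _ _ x60 x185 x47 x42 x182 x43 go1271
lemma ch1272 (hTd : TdOK) : Good 0 ![w64, w12, w45, w42, w185, w43] :=
  good_of hTd _ _ _ _ _ _ _ x64 x12 x45 x42 x185 x43 go1272
lemma ch1273 (hTd : TdOK) : Good 0 ![w64, w57, w47, w42, w185, w45] :=
  good_of hTd _ _ _ _ _ _ _ x64 x57 x47 x42 x185 x45 go1273
lemma ch1274 (hTd : TdOK) : Good 0 ![w64, w12, w57, w42, w185, w45] :=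
  good_of hTd _ _ _ _ _ _ _ x64 x12 x57 x42 x185 x45 go1274
lemma ch1275 (hTd : TdOK) : Good 0 ![w60, w64, w47, w42, w185, w43] :=
  good_of hTd _ _ _ _ _ _ _ x60 x64 x47 x42 x185 x43 go1275
lemma ch1276 (hTd : TdOK) : Good 0 ![w58, w60, w34, w38, w182, w40] :=
  good_of hTd _ _ _ _ _ _ _ x58 x60 x34 x38 x182 x40 go1276
lemma ch1277 (hTd : TdOK) : Good 0 ![w13, w12, w58, w36, w178, w35] :=
  good_of hTd _ _ _ _ _ _ _ x13 x12 x58 x36 x178 x35 go1277
lemma ch1278 (hTd : TdOK) : Good 0 ![w179, w178, w34, w32, w176, w13] :=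
  good_of hTd _ _ _ _ _ _ _ x179 x178 x34 x32 x176 x13 go1278
lemma ch1279 (hTd : TdOK) : Good 0 ![w187, w12, w58, w36, w178, w13] :=
  good_of hTd _ _ _ _ _ _ _ x187 x12 x58 x36 x178 x13 go1279
lemma ch1280 (hTd : TdOK) : Good 0 ![w187, w38, w34, w36, w178, w58] :=
  good_of hTd _ _ _ _ _ _ _ x187 x38 x34 x36 x178 x58 go1280
lemma ch1281 (hTd : TdOK) : Good 0 ![w187, w182, w34, w38, w178, w58] :=
  good_of hTd _ _ _ _ _ _ _ x187 x182 x34 x38 x178 x58 go1281
lemma ch1282 (hTd : TdOK) : Good 0 ![w187, w60, w34, w38, w182, w58] :=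
  good_of hTd _ _ _ _ _ _ _ x187 x60 x34 x38 x182 x58 go1282
lemma ch1283 (hTd : TdOK) : Good 0 ![w188, w12, w46, w38, w182, w60] :=
  good_of hTd _ _ _ _ _ _ _ x188 x12 x46 x38 x182 x60 go1283
lemma ch1284 (hTd : TdOK) : Good 0 ![w188, w47, w183, w46, w182, w60] :=
  good_of hTd _ _ _ _ _ _ _ x188 x47 x183 x46 x182 x60 go1284
lemma ch1285 (hTd : TdOK) : Good 0 ![w188, w47, w62, w46, w183, w60] :=
  good_of hTd _ _ _ _ _ _ _ x188 x47 x62 x46 x183 x60 go1285
lemma ch1286 (hTd : TdOK) : Good 0 ![w189, w52, w34, w46, w183, w62] :=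
  good_of hTd _ _ _ _ _ _ _ x189 x52 x34 x46 x183 x62 go1286
lemma ch1287 (hTd : TdOK) : Good 0 ![w189, w47, w52, w46, w183, w62] :=
  good_of hTd _ _ _ _ _ _ _ x189 x47 x52 x46 x183 x62 go1287
lemma ch1288 (hTd : TdOK) : Good 0 ![w188, w47, w189, w46, w183, w62] :=
  good_of hTd _ _ _ _ _ _ _ x188 x47 x189 x46 x183 x62 go1288
lemma ch1289 (hTd : TdOK) : Good 0 ![w188, w42, w47, w46, w182, w60] :=
  good_of hTd _ _ _ _ _ _ _ x188 x42 x47 x46 x182 x60 go1289
lemma ch1290 (hTd : TdOK) : Good 0 ![w188, w185, w47, w42, w182, w60] :=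
  good_of hTd _ _ _ _ _ _ _ x188 x185 x47 x42 x182 x60 go1290
lemma ch1291 (hTd : TdOK) : Good 0 ![w188, w64, w47, w42, w185, w60] :=
  good_of hTd _ _ _ _ _ _ _ x188 x64 x47 x42 x185 x60 go1291
lemma ch1292 (hTd : TdOK) : Good 0 ![w190, w57, w186, w42, w185, w64] :=
  good_of hTd _ _ _ _ _ _ _ x190 x57 x186 x42 x185 x64 go1292
lemma ch1293 (hTd : TdOK) : Good 0 ![w190, w57, w47, w42, w186, w64] :=
  good_of hTd _ _ _ _ _ _ _ x190 x57 x47 x42 x186 x64 go1293
lemma ch1294 (hTd : TdOK) : Good 0 ![w190, w12, w57, w42, w185, w64] :=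
  good_of hTd _ _ _ _ _ _ _ x190 x12 x57 x42 x185 x64 go1294
lemma ch1295 (hTd : TdOK) : Good 0 ![w188, w190, w47, w42, w185, w64] :=
  good_of hTd _ _ _ _ _ _ _ x188 x190 x47 x42 x185 x64 go1295
lemma ch1296 (hTd : TdOK) : Good 0 ![w187, w188, w34, w38, w182, w60] :=
  good_of hTd _ _ _ _ _ _ _ x187 x188 x34 x38 x182 x60 go1296
lemma ch1297 (hTd : TdOK) : Good 0 ![w179, w12, w187, w36, w178, w13] :=
  good_of hTd _ _ _ _ _ _ _ x179 x12 x187 x36 x178 x13 go1297
lemma ch1298 (hTd : TdOK) : Good 0 ![w179, w37, w34, w32, w178, w36] :=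
  good_of hTd _ _ _ _ _ _ _ x179 x37 x34 x32 x178 x36 go1298
lemma ch1299 (hTd : TdOK) : Good 0 ![w187, w38, w34, w37, w178, w36] :=
  good_of hTd _ _ _ _ _ _ _ x187 x38 x34 x37 x178 x36 go1299
lemma ch1300 (hTd : TdOK) : Good 0 ![w187, w182, w34, w37, w178, w38] :=
  good_of hTd _ _ _ _ _ _ _ x187 x182 x34 x37 x178 x38 go1300
lemma ch1301 (hTd : TdOK) : Good 0 ![w188, w41, w34, w37, w182, w38] :=
  good_of hTd _ _ _ _ _ _ _ x188 x41 x34 x37 x182 x38 go1301
lemma ch1302 (hTd : TdOK) : Good 0 ![w188, w12, w46, w41, w182, w38] :=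
  good_of hTd _ _ _ _ _ _ _ x188 x12 x46 x41 x182 x38 go1302
lemma ch1303 (hTd : TdOK) : Good 0 ![w188, w47, w183, w41, w182, w46] :=
  good_of hTd _ _ _ _ _ _ _ x188 x47 x183 x41 x182 x46 go1303
lemma ch1304 (hTd : TdOK) : Good 0 ![w188, w47, w49, w41, w183, w46] :=
  good_of hTd _ _ _ _ _ _ _ x188 x47 x49 x41 x183 x46 go1304
lemma ch1305 (hTd : TdOK) : Good 0 ![w189, w52, w51, w49, w183, w46] :=
  good_of hTd _ _ _ _ _ _ _ x189 x52 x51 x49 x183 x46 go1305
lemma ch1306 (hTd : TdOK) : Good 0 ![w189, w52, w184, w49, w183, w51] :=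
  good_of hTd _ _ _ _ _ _ _ x189 x52 x184 x49 x183 x51 go1306
lemma ch1307 (hTd : TdOK) : Good 0 ![w189, w52, w54, w49, w184, w51] :=
  good_of hTd _ _ _ _ _ _ _ x189 x52 x54 x49 x184 x51 go1307
lemma ch1308 (hTd : TdOK) : Good 0 ![w189, w52, w34, w54, w184, w51] :=
  good_of hTd _ _ _ _ _ _ _ x189 x52 x34 x54 x184 x51 go1308
lemma ch1309 (hTd : TdOK) : Good 0 ![w189, w47, w52, w49, w183, w46] :=
  good_of hTd _ _ _ _ _ _ _ x189 x47 x52 x49 x183 x46 go1309
lemma ch1310 (hTd : TdOK) : Good 0 ![w188, w47, w189, w49, w183, w46] :=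
  good_of hTd _ _ _ _ _ _ _ x188 x47 x189 x49 x183 x46 go1310
lemma ch1311 (hTd : TdOK) : Good 0 ![w188, w42, w47, w41, w182, w46] :=
  good_of hTd _ _ _ _ _ _ _ x188 x42 x47 x41 x182 x46 go1311
lemma ch1312 (hTd : TdOK) : Good 0 ![w188, w185, w47, w41, w182, w42] :=
  good_of hTd _ _ _ _ _ _ _ x188 x185 x47 x41 x182 x42 go1312
lemma ch1313 (hTd : TdOK) : Good 0 ![w190, w56, w47, w41, w185, w42] :=
  good_of hTd _ _ _ _ _ _ _ x190 x56 x47 x41 x185 x42 go1313
lemma ch1314 (hTd : TdOK) : Good 0 ![w190, w57, w186, w56, w185, w42] :=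
  good_of hTd _ _ _ _ _ _ _ x190 x57 x186 x56 x185 x42 go1314
lemma ch1315 (hTd : TdOK) : Good 0 ![w190, w57, w70, w56, w186, w42] :=
  good_of hTd _ _ _ _ _ _ _ x190 x57 x70 x56 x186 x42 go1315
lemma ch1316 (hTd : TdOK) : Good 0 ![w190, w57, w47, w70, w186, w42] :=
  good_of hTd _ _ _ _ _ _ _ x190 x57 x47 x70 x186 x42 go1316
lemma ch1317 (hTd : TdOK) : Good 0 ![w190, w12, w57, w56, w185, w42] :=
  good_of hTd _ _ _ _ _ _ _ x190 x12 x57 x56 x185 x42 go1317
lemma ch1318 (hTd : TdOK) : Good 0 ![w188, w190, w47, w41, w185, w42] :=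
  good_of hTd _ _ _ _ _ _ _ x188 x190 x47 x41 x185 x42 go1318
lemma ch1319 (hTd : TdOK) : Good 0 ![w187, w188, w191, w37, w182, w38] :=
  good_of hTd _ _ _ _ _ _ _ x187 x188 x191 x37 x182 x38 go1319
lemma ch1320 (hTd : TdOK) : Good 0 ![w187, w188, w34, w191, w182, w38] :=
  good_of hTd _ _ _ _ _ _ _ x187 x188 x34 x191 x182 x38 go1320
lemma ch1321 (hTd : TdOK) : Good 0 ![w179, w12, w187, w37, w178, w36] :=
  good_of hTd _ _ _ _ _ _ _ x179 x12 x187 x37 x178 x36 go1321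
lemma ch1322 (hTd : TdOK) : Good 0 ![w33, w12, w187, w36, w179, w13] :=
  good_of hTd _ _ _ _ _ _ _ x33 x12 x187 x36 x179 x13 go1322
lemma ch1323 (hTd : TdOK) : Good 0 ![w33, w12, w58, w36, w187, w13] :=
  good_of hTd _ _ _ _ _ _ _ x33 x12 x58 x36 x187 x13 go1323
lemma ch1324 (hTd : TdOK) : Good 0 ![w71, w38, w34, w36, w187, w58] :=
  good_of hTd _ _ _ _ _ _ _ x71 x38 x34 x36 x187 x58 go1324
lemma ch1325 (hTd : TdOK) : Good 0 ![w71, w60, w34, w38, w187, w58] :=
  good_of hTd _ _ _ _ _ _ _ x71 x60 x34 x38 x187 x58 go1325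
lemma ch1326 (hTd : TdOK) : Good 0 ![w71, w188, w34, w38, w187, w60] :=
  good_of hTd _ _ _ _ _ _ _ x71 x188 x34 x38 x187 x60 go1326
lemma ch1327 (hTd : TdOK) : Good 0 ![w71, w12, w46, w38, w188, w60] :=
  good_of hTd _ _ _ _ _ _ _ x71 x12 x46 x38 x188 x60 go1327
lemma ch1328 (hTd : TdOK) : Good 0 ![w72, w47, w62, w46, w188, w60] :=
  good_of hTd _ _ _ _ _ _ _ x72 x47 x62 x46 x188 x60 go1328
lemma ch1329 (hTd : TdOK) : Good 0 ![w72, w47, w189, w46, w188, w62] :=
  good_of hTd _ _ _ _ _ _ _ x72 x47 x189 x46 x188 x62 go1329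
lemma ch1330 (hTd : TdOK) : Good 0 ![w73, w52, w51, w46, w189, w62] :=
  good_of hTd _ _ _ _ _ _ _ x73 x52 x51 x46 x189 x62 go1330
lemma ch1331 (hTd : TdOK) : Good 0 ![w73, w52, w74, w51, w189, w62] :=
  good_of hTd _ _ _ _ _ _ _ x73 x52 x74 x51 x189 x62 go1331
lemma ch1332 (hTd : TdOK) : Good 0 ![w73, w52, w192, w51, w189, w74] :=
  good_of hTd _ _ _ _ _ _ _ x73 x52 x192 x51 x189 x74 go1332
lemma ch1333 (hTd : TdOK) : Good 0 ![w73, w52, w34, w51, w192, w74] :=
  good_of hTd _ _ _ _ _ _ _ x73 x52 x34 x51 x192 x74 go1333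
lemma ch1334 (hTd : TdOK) : Good 0 ![w73, w47, w52, w46, w189, w62] :=
  good_of hTd _ _ _ _ _ _ _ x73 x47 x52 x46 x189 x62 go1334
lemma ch1335 (hTd : TdOK) : Good 0 ![w72, w47, w73, w46, w189, w62] :=
  good_of hTd _ _ _ _ _ _ _ x72 x47 x73 x46 x189 x62 go1335
lemma ch1336 (hTd : TdOK) : Good 0 ![w72, w42, w47, w46, w188, w60] :=
  good_of hTd _ _ _ _ _ _ _ x72 x42 x47 x46 x188 x60 go1336
lemma ch1337 (hTd : TdOK) : Good 0 ![w72, w64, w47, w42, w188, w60] :=
  good_of hTd _ _ _ _ _ _ _ x72 x64 x47 x42 x188 x60 go1337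
lemma ch1338 (hTd : TdOK) : Good 0 ![w72, w190, w47, w42, w188, w64] :=
  good_of hTd _ _ _ _ _ _ _ x72 x190 x47 x42 x188 x64 go1338
lemma ch1339 (hTd : TdOK) : Good 0 ![w76, w12, w47, w42, w190, w64] :=
  good_of hTd _ _ _ _ _ _ _ x76 x12 x47 x42 x190 x64 go1339
lemma ch1340 (hTd : TdOK) : Good 0 ![w72, w76, w47, w42, w190, w64] :=
  good_of hTd _ _ _ _ _ _ _ x72 x76 x47 x42 x190 x64 go1340
lemma ch1341 (hTd : TdOK) : Good 0 ![w77, w72, w62, w46, w188, w60] :=
  good_of hTd _ _ _ _ _ _ _ x77 x72 x62 x46 x188 x60 go1341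
lemma ch1342 (hTd : TdOK) : Good 0 ![w77, w72, w189, w46, w188, w62] :=
  good_of hTd _ _ _ _ _ _ _ x77 x72 x189 x46 x188 x62 go1342
lemma ch1343 (hTd : TdOK) : Good 0 ![w77, w73, w51, w46, w189, w62] :=
  good_of hTd _ _ _ _ _ _ _ x77 x73 x51 x46 x189 x62 go1343
lemma ch1344 (hTd : TdOK) : Good 0 ![w77, w73, w34, w51, w189, w62] :=
  good_of hTd _ _ _ _ _ _ _ x77 x73 x34 x51 x189 x62 go1344
lemma ch1345 (hTd : TdOK) : Good 0 ![w77, w72, w73, w46, w189, w62] :=
  good_of hTd _ _ _ _ _ _ _ x77 x72 x73 x46 x189 x62 go1345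
lemma ch1346 (hTd : TdOK) : Good 0 ![w71, w72, w77, w46, w188, w60] :=
  good_of hTd _ _ _ _ _ _ _ x71 x72 x77 x46 x188 x60 go1346
lemma ch1347 (hTd : TdOK) : Good 0 ![w33, w12, w71, w36, w187, w58] :=
  good_of hTd _ _ _ _ _ _ _ x33 x12 x71 x36 x187 x58 go1347
lemma ch1348 (hTd : TdOK) : Good 0 ![w33, w12, w187, w193, w179, w36] :=
  good_of hTd _ _ _ _ _ _ _ x33 x12 x187 x193 x179 x36 go1348
lemma ch1349 (hTd : TdOK) : Good 0 ![w71, w194, w34, w193, w187, w36] :=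
  good_of hTd _ _ _ _ _ _ _ x71 x194 x34 x193 x187 x36 go1349
lemma ch1350 (hTd : TdOK) : Good 0 ![w71, w38, w34, w194, w187, w36] :=
  good_of hTd _ _ _ _ _ _ _ x71 x38 x34 x194 x187 x36 go1350
lemma ch1351 (hTd : TdOK) : Good 0 ![w71, w188, w34, w194, w187, w38] :=
  good_of hTd _ _ _ _ _ _ _ x71 x188 x34 x194 x187 x38 go1351
lemma ch1352 (hTd : TdOK) : Good 0 ![w71, w12, w195, w194, w188, w38] :=
  good_of hTd _ _ _ _ _ _ _ x71 x12 x195 x194 x188 x38 go1352
lemma ch1353 (hTd : TdOK) : Good 0 ![w71, w12, w46, w195, w188, w38] :=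
  good_of hTd _ _ _ _ _ _ _ x71 x12 x46 x195 x188 x38 go1353
lemma ch1354 (hTd : TdOK) : Good 0 ![w72, w47, w189, w195, w188, w46] :=
  good_of hTd _ _ _ _ _ _ _ x72 x47 x189 x195 x188 x46 go1354
lemma ch1355 (hTd : TdOK) : Good 0 ![w73, w47, w51, w195, w189, w46] :=
  good_of hTd _ _ _ _ _ _ _ x73 x47 x51 x195 x189 x46 go1355
lemma ch1356 (hTd : TdOK) : Good 0 ![w73, w52, w196, w195, w189, w51] :=
  good_of hTd _ _ _ _ _ _ _ x73 x52 x196 x195 x189 x51 go1356
lemma ch1357 (hTd : TdOK) : Good 0 ![w73, w52, w192, w196, w189, w51] :=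
  good_of hTd _ _ _ _ _ _ _ x73 x52 x192 x196 x189 x51 go1357
lemma ch1358 (hTd : TdOK) : Good 0 ![w73, w52, w34, w196, w192, w51] :=
  good_of hTd _ _ _ _ _ _ _ x73 x52 x34 x196 x192 x51 go1358
lemma ch1359 (hTd : TdOK) : Good 0 ![w73, w47, w52, w195, w189, w51] :=
  good_of hTd _ _ _ _ _ _ _ x73 x47 x52 x195 x189 x51 go1359
lemma ch1360 (hTd : TdOK) : Good 0 ![w72, w47, w73, w195, w189, w46] :=
  good_of hTd _ _ _ _ _ _ _ x72 x47 x73 x195 x189 x46 go1360
lemma ch1361 (hTd : TdOK) : Good 0 ![w72, w42, w47, w195, w188, w46] :=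
  good_of hTd _ _ _ _ _ _ _ x72 x42 x47 x195 x188 x46 go1361
lemma ch1362 (hTd : TdOK) : Good 0 ![w72, w197, w47, w195, w188, w42] :=
  good_of hTd _ _ _ _ _ _ _ x72 x197 x47 x195 x188 x42 go1362
lemma ch1363 (hTd : TdOK) : Good 0 ![w72, w190, w47, w197, w188, w42] :=
  good_of hTd _ _ _ _ _ _ _ x72 x190 x47 x197 x188 x42 go1363
lemma ch1364 (hTd : TdOK) : Good 0 ![w76, w57, w47, w197, w190, w42] :=
  good_of hTd _ _ _ _ _ _ _ x76 x57 x47 x197 x190 x42 go1364
lemma ch1365 (hTd : TdOK) : Good 0 ![w76, w12, w57, w197, w190, w42] :=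
  good_of hTd _ _ _ _ _ _ _ x76 x12 x57 x197 x190 x42 go1365
lemma ch1366 (hTd : TdOK) : Good 0 ![w72, w76, w47, w197, w190, w42] :=
  good_of hTd _ _ _ _ _ _ _ x72 x76 x47 x197 x190 x42 go1366
lemma ch1367 (hTd : TdOK) : Good 0 ![w71, w72, w34, w195, w188, w46] :=
  good_of hTd _ _ _ _ _ _ _ x71 x72 x34 x195 x188 x46 go1367
lemma ch1368 (hTd : TdOK) : Good 0 ![w33, w12, w71, w193, w187, w36] :=
  good_of hTd _ _ _ _ _ _ _ x33 x12 x71 x193 x187 x36 go1368
lemma ch1369 (hTd : TdOK) : Good 0 ![w33, w37, w34, w32, w193, w36] :=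
  good_of hTd _ _ _ _ _ _ _ x33 x37 x34 x32 x193 x36 go1369
lemma ch1370 (hTd : TdOK) : Good 0 ![w71, w194, w34, w37, w193, w36] :=
  good_of hTd _ _ _ _ _ _ _ x71 x194 x34 x37 x193 x36 go1370
lemma ch1371 (hTd : TdOK) : Good 0 ![w71, w38, w34, w37, w194, w36] :=
  good_of hTd _ _ _ _ _ _ _ x71 x38 x34 x37 x194 x36 go1371
lemma ch1372 (hTd : TdOK) : Good 0 ![w71, w41, w34, w37, w194, w38] :=
  good_of hTd _ _ _ _ _ _ _ x71 x41 x34 x37 x194 x38 go1372
lemma ch1373 (hTd : TdOK) : Good 0 ![w71, w12, w46, w41, w194, w38] :=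
  good_of hTd _ _ _ _ _ _ _ x71 x12 x46 x41 x194 x38 go1373
lemma ch1374 (hTd : TdOK) : Good 0 ![w71, w12, w195, w41, w194, w46] :=
  good_of hTd _ _ _ _ _ _ _ x71 x12 x195 x41 x194 x46 go1374
lemma ch1375 (hTd : TdOK) : Good 0 ![w72, w47, w49, w41, w195, w46] :=
  good_of hTd _ _ _ _ _ _ _ x72 x47 x49 x41 x195 x46 go1375
lemma ch1376 (hTd : TdOK) : Good 0 ![w73, w47, w51, w49, w195, w46] :=
  good_of hTd _ _ _ _ _ _ _ x73 x47 x51 x49 x195 x46 go1376
lemma ch1377 (hTd : TdOK) : Good 0 ![w73, w52, w196, w49, w195, w51] :=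
  good_of hTd _ _ _ _ _ _ _ x73 x52 x196 x49 x195 x51 go1377
lemma ch1378 (hTd : TdOK) : Good 0 ![w73, w52, w34, w49, w196, w51] :=
  good_of hTd _ _ _ _ _ _ _ x73 x52 x34 x49 x196 x51 go1378
lemma ch1379 (hTd : TdOK) : Good 0 ![w73, w47, w52, w49, w195, w51] :=
  good_of hTd _ _ _ _ _ _ _ x73 x47 x52 x49 x195 x51 go1379
lemma ch1380 (hTd : TdOK) : Good 0 ![w72, w47, w73, w49, w195, w46] :=
  good_of hTd _ _ _ _ _ _ _ x72 x47 x73 x49 x195 x46 go1380
lemma ch1381 (hTd : TdOK) : Good 0 ![w72, w42, w47, w41, w195, w46] :=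
  good_of hTd _ _ _ _ _ _ _ x72 x42 x47 x41 x195 x46 go1381
lemma ch1382 (hTd : TdOK) : Good 0 ![w72, w197, w47, w41, w195, w42] :=
  good_of hTd _ _ _ _ _ _ _ x72 x197 x47 x41 x195 x42 go1382
lemma ch1383 (hTd : TdOK) : Good 0 ![w76, w56, w47, w41, w197, w42] :=
  good_of hTd _ _ _ _ _ _ _ x76 x56 x47 x41 x197 x42 go1383
lemma ch1384 (hTd : TdOK) : Good 0 ![w76, w57, w70, w56, w197, w42] :=
  good_of hTd _ _ _ _ _ _ _ x76 x57 x70 x56 x197 x42 go1384
lemma ch1385 (hTd : TdOK) : Good 0 ![w76, w57, w47, w70, w197, w42] :=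
  good_of hTd _ _ _ _ _ _ _ x76 x57 x47 x70 x197 x42 go1385
lemma ch1386 (hTd : TdOK) : Good 0 ![w76, w12, w57, w56, w197, w42] :=
  good_of hTd _ _ _ _ _ _ _ x76 x12 x57 x56 x197 x42 go1386
lemma ch1387 (hTd : TdOK) : Good 0 ![w72, w76, w47, w41, w197, w42] :=
  good_of hTd _ _ _ _ _ _ _ x72 x76 x47 x41 x197 x42 go1387
lemma ch1388 (hTd : TdOK) : Good 0 ![w71, w72, w34, w41, w195, w46] :=
  good_of hTd _ _ _ _ _ _ _ x71 x72 x34 x41 x195 x46 go1388
lemma ch1389 (hTd : TdOK) : Good 0 ![w33, w12, w71, w37, w193, w36] :=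
  good_of hTd _ _ _ _ _ _ _ x33 x12 x71 x37 x193 x36 go1389
lemma ch1390 (hTd : TdOK) : Good 0 ![w83, w12, w187, w33, w179, w13] :=
  good_of hTd _ _ _ _ _ _ _ x83 x12 x187 x33 x179 x13 go1390
lemma ch1391 (hTd : TdOK) : Good 0 ![w83, w12, w58, w33, w187, w13] :=
  good_of hTd _ _ _ _ _ _ _ x83 x12 x58 x33 x187 x13 go1391
lemma ch1392 (hTd : TdOK) : Good 0 ![w83, w12, w71, w33, w187, w58] :=
  good_of hTd _ _ _ _ _ _ _ x83 x12 x71 x33 x187 x58 go1392
lemma ch1393 (hTd : TdOK) : Good 0 ![w84, w60, w85, w71, w187, w58] :=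
  good_of hTd _ _ _ _ _ _ _ x84 x60 x85 x71 x187 x58 go1393
lemma ch1394 (hTd : TdOK) : Good 0 ![w84, w60, w198, w71, w187, w85] :=
  good_of hTd _ _ _ _ _ _ _ x84 x60 x198 x71 x187 x85 go1394
lemma ch1395 (hTd : TdOK) : Good 0 ![w84, w62, w77, w71, w198, w85] :=
  good_of hTd _ _ _ _ _ _ _ x84 x62 x77 x71 x198 x85 go1395
lemma ch1396 (hTd : TdOK) : Good 0 ![w87, w62, w34, w77, w198, w85] :=
  good_of hTd _ _ _ _ _ _ _ x87 x62 x34 x77 x198 x85 go1396
lemma ch1397 (hTd : TdOK) : Good 0 ![w84, w62, w87, w77, w198, w85] :=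
  good_of hTd _ _ _ _ _ _ _ x84 x62 x87 x77 x198 x85 go1397
lemma ch1398 (hTd : TdOK) : Good 0 ![w84, w60, w62, w71, w198, w85] :=
  good_of hTd _ _ _ _ _ _ _ x84 x60 x62 x71 x198 x85 go1398
lemma ch1399 (hTd : TdOK) : Good 0 ![w84, w188, w198, w71, w187, w60] :=
  good_of hTd _ _ _ _ _ _ _ x84 x188 x198 x71 x187 x60 go1399
lemma ch1400 (hTd : TdOK) : Good 0 ![w84, w188, w62, w71, w198, w60] :=
  good_of hTd _ _ _ _ _ _ _ x84 x188 x62 x71 x198 x60 go1400
lemma ch1401 (hTd : TdOK) : Good 0 ![w84, w189, w77, w71, w198, w62] :=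
  good_of hTd _ _ _ _ _ _ _ x84 x189 x77 x71 x198 x62 go1401
lemma ch1402 (hTd : TdOK) : Good 0 ![w87, w189, w199, w77, w198, w62] :=
  good_of hTd _ _ _ _ _ _ _ x87 x189 x199 x77 x198 x62 go1402
lemma ch1403 (hTd : TdOK) : Good 0 ![w87, w189, w34, w77, w199, w62] :=
  good_of hTd _ _ _ _ _ _ _ x87 x189 x34 x77 x199 x62 go1403
lemma ch1404 (hTd : TdOK) : Good 0 ![w84, w189, w87, w77, w198, w62] :=
  good_of hTd _ _ _ _ _ _ _ x84 x189 x87 x77 x198 x62 go1404
lemma ch1405 (hTd : TdOK) : Good 0 ![w84, w188, w189, w71, w198, w62] :=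
  good_of hTd _ _ _ _ _ _ _ x84 x188 x189 x71 x198 x62 go1405
lemma ch1406 (hTd : TdOK) : Good 0 ![w84, w47, w62, w71, w188, w60] :=
  good_of hTd _ _ _ _ _ _ _ x84 x47 x62 x71 x188 x60 go1406
lemma ch1407 (hTd : TdOK) : Good 0 ![w84, w47, w77, w71, w188, w62] :=
  good_of hTd _ _ _ _ _ _ _ x84 x47 x77 x71 x188 x62 go1407
lemma ch1408 (hTd : TdOK) : Good 0 ![w84, w47, w189, w77, w188, w62] :=
  good_of hTd _ _ _ _ _ _ _ x84 x47 x189 x77 x188 x62 go1408
lemma ch1409 (hTd : TdOK) : Good 0 ![w87, w89, w74, w77, w189, w62] :=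
  good_of hTd _ _ _ _ _ _ _ x87 x89 x74 x77 x189 x62 go1409
lemma ch1410 (hTd : TdOK) : Good 0 ![w87, w52, w74, w89, w189, w62] :=
  good_of hTd _ _ _ _ _ _ _ x87 x52 x74 x89 x189 x62 go1410
lemma ch1411 (hTd : TdOK) : Good 0 ![w87, w52, w192, w77, w189, w74] :=
  good_of hTd _ _ _ _ _ _ _ x87 x52 x192 x77 x189 x74 go1411
lemma ch1412 (hTd : TdOK) : Good 0 ![w87, w52, w34, w77, w192, w74] :=
  good_of hTd _ _ _ _ _ _ _ x87 x52 x34 x77 x192 x74 go1412
lemma ch1413 (hTd : TdOK) : Good 0 ![w87, w73, w52, w77, w189, w62] :=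
  good_of hTd _ _ _ _ _ _ _ x87 x73 x52 x77 x189 x62 go1413
lemma ch1414 (hTd : TdOK) : Good 0 ![w87, w47, w52, w73, w189, w62] :=
  good_of hTd _ _ _ _ _ _ _ x87 x47 x52 x73 x189 x62 go1414
lemma ch1415 (hTd : TdOK) : Good 0 ![w84, w47, w87, w77, w189, w62] :=
  good_of hTd _ _ _ _ _ _ _ x84 x47 x87 x77 x189 x62 go1415
lemma ch1416 (hTd : TdOK) : Good 0 ![w84, w72, w47, w71, w188, w60] :=
  good_of hTd _ _ _ _ _ _ _ x84 x72 x47 x71 x188 x60 go1416
lemma ch1417 (hTd : TdOK) : Good 0 ![w90, w64, w47, w72, w188, w60] :=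
  good_of hTd _ _ _ _ _ _ _ x90 x64 x47 x72 x188 x60 go1417
lemma ch1418 (hTd : TdOK) : Good 0 ![w90, w190, w47, w72, w188, w64] :=
  good_of hTd _ _ _ _ _ _ _ x90 x190 x47 x72 x188 x64 go1418
lemma ch1419 (hTd : TdOK) : Good 0 ![w90, w76, w47, w72, w190, w64] :=
  good_of hTd _ _ _ _ _ _ _ x90 x76 x47 x72 x190 x64 go1419
lemma ch1420 (hTd : TdOK) : Good 0 ![w91, w57, w92, w76, w190, w64] :=
  good_of hTd _ _ _ _ _ _ _ x91 x57 x92 x76 x190 x64 go1420
lemma ch1421 (hTd : TdOK) : Good 0 ![w91, w57, w47, w76, w190, w92] :=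
  good_of hTd _ _ _ _ _ _ _ x91 x57 x47 x76 x190 x92 go1421
lemma ch1422 (hTd : TdOK) : Good 0 ![w91, w12, w57, w76, w190, w64] :=
  good_of hTd _ _ _ _ _ _ _ x91 x12 x57 x76 x190 x64 go1422
lemma ch1423 (hTd : TdOK) : Good 0 ![w90, w91, w47, w76, w190, w64] :=
  good_of hTd _ _ _ _ _ _ _ x90 x91 x47 x76 x190 x64 go1423
lemma ch1424 (hTd : TdOK) : Good 0 ![w84, w90, w47, w72, w188, w60] :=
  good_of hTd _ _ _ _ _ _ _ x84 x90 x47 x72 x188 x60 go1424
lemma ch1425 (hTd : TdOK) : Good 0 ![w83, w12, w84, w71, w187, w58] :=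
  good_of hTd _ _ _ _ _ _ _ x83 x12 x84 x71 x187 x58 go1425
lemma ch1426 (hTd : TdOK) : Good 0 ![w0, w12, w83, w33, w179, w13] :=
  good_of hTd _ _ _ _ _ _ _ x0 x12 x83 x33 x179 x13 go1426
lemma ch1427 (hTd : TdOK) : Good 0 ![w18, w93, w34, w32, w177, w8] :=
  good_of hTd _ _ _ _ _ _ _ x18 x93 x34 x32 x177 x8 go1427
lemma ch1428 (hTd : TdOK) : Good 0 ![w18, w181, w34, w32, w177, w93] :=
  good_of hTd _ _ _ _ _ _ _ x18 x181 x34 x32 x177 x93 go1428
lemma ch1429 (hTd : TdOK) : Good 0 ![w94, w37, w34, w32, w181, w93] :=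
  good_of hTd _ _ _ _ _ _ _ x94 x37 x34 x32 x181 x93 go1429
lemma ch1430 (hTd : TdOK) : Good 0 ![w94, w95, w34, w37, w181, w93] :=
  good_of hTd _ _ _ _ _ _ _ x94 x95 x34 x37 x181 x93 go1430
lemma ch1431 (hTd : TdOK) : Good 0 ![w94, w200, w34, w37, w181, w95] :=
  good_of hTd _ _ _ _ _ _ _ x94 x200 x34 x37 x181 x95 go1431
lemma ch1432 (hTd : TdOK) : Good 0 ![w96, w41, w97, w37, w200, w95] :=
  good_of hTd _ _ _ _ _ _ _ x96 x41 x97 x37 x200 x95 go1432
lemma ch1433 (hTd : TdOK) : Good 0 ![w96, w98, w97, w41, w200, w95] :=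
  good_of hTd _ _ _ _ _ _ _ x96 x98 x97 x41 x200 x95 go1433
lemma ch1434 (hTd : TdOK) : Good 0 ![w96, w99, w97, w41, w200, w98] :=
  good_of hTd _ _ _ _ _ _ _ x96 x99 x97 x41 x200 x98 go1434
lemma ch1435 (hTd : TdOK) : Good 0 ![w96, w12, w99, w41, w200, w98] :=
  good_of hTd _ _ _ _ _ _ _ x96 x12 x99 x41 x200 x98 go1435
lemma ch1436 (hTd : TdOK) : Good 0 ![w96, w41, w34, w37, w200, w97] :=
  good_of hTd _ _ _ _ _ _ _ x96 x41 x34 x37 x200 x97 go1436
lemma ch1437 (hTd : TdOK) : Good 0 ![w96, w47, w201, w41, w200, w97] :=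
  good_of hTd _ _ _ _ _ _ _ x96 x47 x201 x41 x200 x97 go1437
lemma ch1438 (hTd : TdOK) : Good 0 ![w96, w47, w49, w41, w201, w97] :=
  good_of hTd _ _ _ _ _ _ _ x96 x47 x49 x41 x201 x97 go1438
lemma ch1439 (hTd : TdOK) : Good 0 ![w100, w47, w101, w49, w201, w97] :=
  good_of hTd _ _ _ _ _ _ _ x100 x47 x101 x49 x201 x97 go1439
lemma ch1440 (hTd : TdOK) : Good 0 ![w100, w52, w202, w49, w201, w101] :=
  good_of hTd _ _ _ _ _ _ _ x100 x52 x202 x49 x201 x101 go1440
lemma ch1441 (hTd : TdOK) : Good 0 ![w100, w52, w54, w49, w202, w101] :=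
  good_of hTd _ _ _ _ _ _ _ x100 x52 x54 x49 x202 x101 go1441
lemma ch1442 (hTd : TdOK) : Good 0 ![w100, w52, w34, w54, w202, w101] :=
  good_of hTd _ _ _ _ _ _ _ x100 x52 x34 x54 x202 x101 go1442
lemma ch1443 (hTd : TdOK) : Good 0 ![w100, w47, w52, w49, w201, w101] :=
  good_of hTd _ _ _ _ _ _ _ x100 x47 x52 x49 x201 x101 go1443
lemma ch1444 (hTd : TdOK) : Good 0 ![w96, w47, w100, w49, w201, w97] :=
  good_of hTd _ _ _ _ _ _ _ x96 x47 x100 x49 x201 x97 go1444
lemma ch1445 (hTd : TdOK) : Good 0 ![w96, w99, w47, w41, w200, w97] :=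
  good_of hTd _ _ _ _ _ _ _ x96 x99 x47 x41 x200 x97 go1445
lemma ch1446 (hTd : TdOK) : Good 0 ![w96, w203, w47, w41, w200, w99] :=
  good_of hTd _ _ _ _ _ _ _ x96 x203 x47 x41 x200 x99 go1446
lemma ch1447 (hTd : TdOK) : Good 0 ![w102, w56, w47, w41, w203, w99] :=
  good_of hTd _ _ _ _ _ _ _ x102 x56 x47 x41 x203 x99 go1447
lemma ch1448 (hTd : TdOK) : Good 0 ![w102, w57, w204, w56, w203, w99] :=
  good_of hTd _ _ _ _ _ _ _ x102 x57 x204 x56 x203 x99 go1448
lemma ch1449 (hTd : TdOK) : Good 0 ![w102, w57, w70, w56, w204, w99] :=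
  good_of hTd _ _ _ _ _ _ _ x102 x57 x70 x56 x204 x99 go1449
lemma ch1450 (hTd : TdOK) : Good 0 ![w102, w57, w47, w70, w204, w99] :=
  good_of hTd _ _ _ _ _ _ _ x102 x57 x47 x70 x204 x99 go1450
lemma ch1451 (hTd : TdOK) : Good 0 ![w102, w12, w57, w56, w203, w99] :=
  good_of hTd _ _ _ _ _ _ _ x102 x12 x57 x56 x203 x99 go1451
lemma ch1452 (hTd : TdOK) : Good 0 ![w96, w102, w47, w41, w203, w99] :=
  good_of hTd _ _ _ _ _ _ _ x96 x102 x47 x41 x203 x99 go1452
lemma ch1453 (hTd : TdOK) : Good 0 ![w94, w96, w34, w37, w200, w95] :=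
  good_of hTd _ _ _ _ _ _ _ x94 x96 x34 x37 x200 x95 go1453
lemma ch1454 (hTd : TdOK) : Good 0 ![w18, w12, w94, w32, w181, w93] :=
  good_of hTd _ _ _ _ _ _ _ x18 x12 x94 x32 x181 x93 go1454
lemma ch1455 (hTd : TdOK) : Good 0 ![w180, w181, w34, w32, w177, w18] :=
  good_of hTd _ _ _ _ _ _ _ x180 x181 x34 x32 x177 x18 go1455
lemma ch1456 (hTd : TdOK) : Good 0 ![w180, w12, w94, w32, w181, w18] :=
  good_of hTd _ _ _ _ _ _ _ x180 x12 x94 x32 x181 x18 go1456
lemma ch1457 (hTd : TdOK) : Good 0 ![w180, w37, w34, w32, w181, w94] :=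
  good_of hTd _ _ _ _ _ _ _ x180 x37 x34 x32 x181 x94 go1457
lemma ch1458 (hTd : TdOK) : Good 0 ![w205, w200, w34, w37, w181, w94] :=
  good_of hTd _ _ _ _ _ _ _ x205 x200 x34 x37 x181 x94 go1458
lemma ch1459 (hTd : TdOK) : Good 0 ![w205, w96, w104, w37, w200, w94] :=
  good_of hTd _ _ _ _ _ _ _ x205 x96 x104 x37 x200 x94 go1459
lemma ch1460 (hTd : TdOK) : Good 0 ![w205, w96, w34, w37, w200, w104] :=
  good_of hTd _ _ _ _ _ _ _ x205 x96 x34 x37 x200 x104 go1460
lemma ch1461 (hTd : TdOK) : Good 0 ![w206, w41, w34, w37, w200, w96] :=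
  good_of hTd _ _ _ _ _ _ _ x206 x41 x34 x37 x200 x96 go1461
lemma ch1462 (hTd : TdOK) : Good 0 ![w206, w47, w201, w41, w200, w96] :=
  good_of hTd _ _ _ _ _ _ _ x206 x47 x201 x41 x200 x96 go1462
lemma ch1463 (hTd : TdOK) : Good 0 ![w206, w47, w49, w41, w201, w96] :=
  good_of hTd _ _ _ _ _ _ _ x206 x47 x49 x41 x201 x96 go1463
lemma ch1464 (hTd : TdOK) : Good 0 ![w206, w47, w100, w49, w201, w96] :=
  good_of hTd _ _ _ _ _ _ _ x206 x47 x100 x49 x201 x96 go1464
lemma ch1465 (hTd : TdOK) : Good 0 ![w207, w52, w202, w49, w201, w100] :=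
  good_of hTd _ _ _ _ _ _ _ x207 x52 x202 x49 x201 x100 go1465
lemma ch1466 (hTd : TdOK) : Good 0 ![w207, w52, w54, w49, w202, w100] :=
  good_of hTd _ _ _ _ _ _ _ x207 x52 x54 x49 x202 x100 go1466
lemma ch1467 (hTd : TdOK) : Good 0 ![w207, w52, w34, w54, w202, w100] :=
  good_of hTd _ _ _ _ _ _ _ x207 x52 x34 x54 x202 x100 go1467
lemma ch1468 (hTd : TdOK) : Good 0 ![w207, w47, w52, w49, w201, w100] :=
  good_of hTd _ _ _ _ _ _ _ x207 x47 x52 x49 x201 x100 go1468
lemma ch1469 (hTd : TdOK) : Good 0 ![w206, w47, w207, w49, w201, w100] :=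
  good_of hTd _ _ _ _ _ _ _ x206 x47 x207 x49 x201 x100 go1469
lemma ch1470 (hTd : TdOK) : Good 0 ![w206, w203, w47, w41, w200, w96] :=
  good_of hTd _ _ _ _ _ _ _ x206 x203 x47 x41 x200 x96 go1470
lemma ch1471 (hTd : TdOK) : Good 0 ![w206, w102, w47, w41, w203, w96] :=
  good_of hTd _ _ _ _ _ _ _ x206 x102 x47 x41 x203 x96 go1471
lemma ch1472 (hTd : TdOK) : Good 0 ![w208, w56, w47, w41, w203, w102] :=
  good_of hTd _ _ _ _ _ _ _ x208 x56 x47 x41 x203 x102 go1472
lemma ch1473 (hTd : TdOK) : Good 0 ![w208, w57, w204, w56, w203, w102] :=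
  good_of hTd _ _ _ _ _ _ _ x208 x57 x204 x56 x203 x102 go1473
lemma ch1474 (hTd : TdOK) : Good 0 ![w208, w57, w70, w56, w204, w102] :=
  good_of hTd _ _ _ _ _ _ _ x208 x57 x70 x56 x204 x102 go1474
lemma ch1475 (hTd : TdOK) : Good 0 ![w208, w57, w47, w70, w204, w102] :=
  good_of hTd _ _ _ _ _ _ _ x208 x57 x47 x70 x204 x102 go1475
lemma ch1476 (hTd : TdOK) : Good 0 ![w208, w12, w57, w56, w203, w102] :=
  good_of hTd _ _ _ _ _ _ _ x208 x12 x57 x56 x203 x102 go1476
lemma ch1477 (hTd : TdOK) : Good 0 ![w206, w208, w47, w41, w203, w102] :=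
  good_of hTd _ _ _ _ _ _ _ x206 x208 x47 x41 x203 x102 go1477
lemma ch1478 (hTd : TdOK) : Good 0 ![w205, w206, w191, w37, w200, w96] :=
  good_of hTd _ _ _ _ _ _ _ x205 x206 x191 x37 x200 x96 go1478
lemma ch1479 (hTd : TdOK) : Good 0 ![w205, w206, w201, w191, w200, w96] :=
  good_of hTd _ _ _ _ _ _ _ x205 x206 x201 x191 x200 x96 go1479
lemma ch1480 (hTd : TdOK) : Good 0 ![w205, w206, w34, w191, w201, w96] :=
  good_of hTd _ _ _ _ _ _ _ x205 x206 x34 x191 x201 x96 go1480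
lemma ch1481 (hTd : TdOK) : Good 0 ![w180, w12, w205, w37, w181, w94] :=
  good_of hTd _ _ _ _ _ _ _ x180 x12 x205 x37 x181 x94 go1481
lemma ch1482 (hTd : TdOK) : Good 0 ![w33, w12, w94, w32, w180, w18] :=
  good_of hTd _ _ _ _ _ _ _ x33 x12 x94 x32 x180 x18 go1482
lemma ch1483 (hTd : TdOK) : Good 0 ![w33, w37, w34, w32, w180, w94] :=
  good_of hTd _ _ _ _ _ _ _ x33 x37 x34 x32 x180 x94 go1483
lemma ch1484 (hTd : TdOK) : Good 0 ![w33, w12, w205, w37, w180, w94] :=
  good_of hTd _ _ _ _ _ _ _ x33 x12 x205 x37 x180 x94 go1484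
lemma ch1485 (hTd : TdOK) : Good 0 ![w71, w96, w34, w37, w205, w94] :=
  good_of hTd _ _ _ _ _ _ _ x71 x96 x34 x37 x205 x94 go1485
lemma ch1486 (hTd : TdOK) : Good 0 ![w71, w206, w191, w37, w205, w96] :=
  good_of hTd _ _ _ _ _ _ _ x71 x206 x191 x37 x205 x96 go1486
lemma ch1487 (hTd : TdOK) : Good 0 ![w71, w206, w209, w191, w205, w96] :=
  good_of hTd _ _ _ _ _ _ _ x71 x206 x209 x191 x205 x96 go1487
lemma ch1488 (hTd : TdOK) : Good 0 ![w71, w206, w100, w191, w209, w96] :=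
  good_of hTd _ _ _ _ _ _ _ x71 x206 x100 x191 x209 x96 go1488
lemma ch1489 (hTd : TdOK) : Good 0 ![w77, w207, w210, w191, w209, w100] :=
  good_of hTd _ _ _ _ _ _ _ x77 x207 x210 x191 x209 x100 go1489
lemma ch1490 (hTd : TdOK) : Good 0 ![w77, w207, w211, w210, w209, w100] :=
  good_of hTd _ _ _ _ _ _ _ x77 x207 x211 x210 x209 x100 go1490
lemma ch1491 (hTd : TdOK) : Good 0 ![w77, w207, w34, w210, w211, w100] :=
  good_of hTd _ _ _ _ _ _ _ x77 x207 x34 x210 x211 x100 go1491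
lemma ch1492 (hTd : TdOK) : Good 0 ![w71, w207, w77, w191, w209, w100] :=
  good_of hTd _ _ _ _ _ _ _ x71 x207 x77 x191 x209 x100 go1492
lemma ch1493 (hTd : TdOK) : Good 0 ![w71, w206, w207, w191, w209, w100] :=
  good_of hTd _ _ _ _ _ _ _ x71 x206 x207 x191 x209 x100 go1493
lemma ch1494 (hTd : TdOK) : Good 0 ![w71, w41, w191, w37, w206, w96] :=
  good_of hTd _ _ _ _ _ _ _ x71 x41 x191 x37 x206 x96 go1494
lemma ch1495 (hTd : TdOK) : Good 0 ![w71, w41, w100, w191, w206, w96] :=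
  good_of hTd _ _ _ _ _ _ _ x71 x41 x100 x191 x206 x96 go1495
lemma ch1496 (hTd : TdOK) : Good 0 ![w77, w49, w207, w191, w206, w100] :=
  good_of hTd _ _ _ _ _ _ _ x77 x49 x207 x191 x206 x100 go1496
lemma ch1497 (hTd : TdOK) : Good 0 ![w77, w49, w210, w191, w207, w100] :=
  good_of hTd _ _ _ _ _ _ _ x77 x49 x210 x191 x207 x100 go1497
lemma ch1498 (hTd : TdOK) : Good 0 ![w77, w54, w34, w210, w207, w100] :=
  good_of hTd _ _ _ _ _ _ _ x77 x54 x34 x210 x207 x100 go1498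
lemma ch1499 (hTd : TdOK) : Good 0 ![w77, w49, w54, w210, w207, w100] :=
  good_of hTd _ _ _ _ _ _ _ x77 x49 x54 x210 x207 x100 go1499
lemma ch1500 (hTd : TdOK) : Good 0 ![w71, w49, w77, w191, w206, w100] :=
  good_of hTd _ _ _ _ _ _ _ x71 x49 x77 x191 x206 x100 go1500
lemma ch1501 (hTd : TdOK) : Good 0 ![w71, w41, w49, w191, w206, w100] :=
  good_of hTd _ _ _ _ _ _ _ x71 x41 x49 x191 x206 x100 go1501
lemma ch1502 (hTd : TdOK) : Good 0 ![w72, w47, w49, w41, w206, w96] :=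
  good_of hTd _ _ _ _ _ _ _ x72 x47 x49 x41 x206 x96 go1502
lemma ch1503 (hTd : TdOK) : Good 0 ![w72, w47, w100, w49, w206, w96] :=
  good_of hTd _ _ _ _ _ _ _ x72 x47 x100 x49 x206 x96 go1503
lemma ch1504 (hTd : TdOK) : Good 0 ![w72, w47, w207, w49, w206, w100] :=
  good_of hTd _ _ _ _ _ _ _ x72 x47 x207 x49 x206 x100 go1504
lemma ch1505 (hTd : TdOK) : Good 0 ![w73, w52, w54, w49, w207, w100] :=
  good_of hTd _ _ _ _ _ _ _ x73 x52 x54 x49 x207 x100 go1505
lemma ch1506 (hTd : TdOK) : Good 0 ![w73, w52, w103, w54, w207, w100] :=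
  good_of hTd _ _ _ _ _ _ _ x73 x52 x103 x54 x207 x100 go1506
lemma ch1507 (hTd : TdOK) : Good 0 ![w73, w52, w212, w54, w207, w103] :=
  good_of hTd _ _ _ _ _ _ _ x73 x52 x212 x54 x207 x103 go1507
lemma ch1508 (hTd : TdOK) : Good 0 ![w73, w52, w34, w54, w212, w103] :=
  good_of hTd _ _ _ _ _ _ _ x73 x52 x34 x54 x212 x103 go1508
lemma ch1509 (hTd : TdOK) : Good 0 ![w73, w47, w52, w49, w207, w100] :=
  good_of hTd _ _ _ _ _ _ _ x73 x47 x52 x49 x207 x100 go1509
lemma ch1510 (hTd : TdOK) : Good 0 ![w72, w47, w73, w49, w207, w100] :=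
  good_of hTd _ _ _ _ _ _ _ x72 x47 x73 x49 x207 x100 go1510
lemma ch1511 (hTd : TdOK) : Good 0 ![w72, w102, w47, w41, w206, w96] :=
  good_of hTd _ _ _ _ _ _ _ x72 x102 x47 x41 x206 x96 go1511
lemma ch1512 (hTd : TdOK) : Good 0 ![w72, w208, w47, w41, w206, w102] :=
  good_of hTd _ _ _ _ _ _ _ x72 x208 x47 x41 x206 x102 go1512
lemma ch1513 (hTd : TdOK) : Good 0 ![w76, w56, w47, w41, w208, w102] :=
  good_of hTd _ _ _ _ _ _ _ x76 x56 x47 x41 x208 x102 go1513
lemma ch1514 (hTd : TdOK) : Good 0 ![w76, w57, w70, w56, w208, w102] :=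
  good_of hTd _ _ _ _ _ _ _ x76 x57 x70 x56 x208 x102 go1514
lemma ch1515 (hTd : TdOK) : Good 0 ![w76, w57, w105, w70, w208, w102] :=
  good_of hTd _ _ _ _ _ _ _ x76 x57 x105 x70 x208 x102 go1515
lemma ch1516 (hTd : TdOK) : Good 0 ![w76, w57, w47, w70, w208, w105] :=
  good_of hTd _ _ _ _ _ _ _ x76 x57 x47 x70 x208 x105 go1516
lemma ch1517 (hTd : TdOK) : Good 0 ![w76, w12, w57, w56, w208, w102] :=
  good_of hTd _ _ _ _ _ _ _ x76 x12 x57 x56 x208 x102 go1517
lemma ch1518 (hTd : TdOK) : Good 0 ![w72, w76, w47, w41, w208, w102] :=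
  good_of hTd _ _ _ _ _ _ _ x72 x76 x47 x41 x208 x102 go1518
lemma ch1519 (hTd : TdOK) : Good 0 ![w71, w72, w100, w41, w206, w96] :=
  good_of hTd _ _ _ _ _ _ _ x71 x72 x100 x41 x206 x96 go1519
lemma ch1520 (hTd : TdOK) : Good 0 ![w71, w72, w49, w41, w206, w100] :=
  good_of hTd _ _ _ _ _ _ _ x71 x72 x49 x41 x206 x100 go1520
lemma ch1521 (hTd : TdOK) : Good 0 ![w77, w72, w207, w49, w206, w100] :=
  good_of hTd _ _ _ _ _ _ _ x77 x72 x207 x49 x206 x100 go1521
lemma ch1522 (hTd : TdOK) : Good 0 ![w77, w73, w54, w49, w207, w100] :=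
  good_of hTd _ _ _ _ _ _ _ x77 x73 x54 x49 x207 x100 go1522
lemma ch1523 (hTd : TdOK) : Good 0 ![w77, w73, w103, w54, w207, w100] :=
  good_of hTd _ _ _ _ _ _ _ x77 x73 x103 x54 x207 x100 go1523
lemma ch1524 (hTd : TdOK) : Good 0 ![w77, w73, w34, w54, w207, w103] :=
  good_of hTd _ _ _ _ _ _ _ x77 x73 x34 x54 x207 x103 go1524
lemma ch1525 (hTd : TdOK) : Good 0 ![w77, w72, w73, w49, w207, w100] :=
  good_of hTd _ _ _ _ _ _ _ x77 x72 x73 x49 x207 x100 go1525
lemma ch1526 (hTd : TdOK) : Good 0 ![w71, w72, w77, w49, w206, w100] :=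
  good_of hTd _ _ _ _ _ _ _ x71 x72 x77 x49 x206 x100 go1526
lemma ch1527 (hTd : TdOK) : Good 0 ![w33, w12, w71, w37, w205, w94] :=
  good_of hTd _ _ _ _ _ _ _ x33 x12 x71 x37 x205 x94 go1527
lemma ch1528 (hTd : TdOK) : Good 0 ![w83, w12, w94, w33, w180, w18] :=
  good_of hTd _ _ _ _ _ _ _ x83 x12 x94 x33 x180 x18 go1528
lemma ch1529 (hTd : TdOK) : Good 0 ![w83, w12, w205, w33, w180, w94] :=
  good_of hTd _ _ _ _ _ _ _ x83 x12 x205 x33 x180 x94 go1529
lemma ch1530 (hTd : TdOK) : Good 0 ![w83, w12, w71, w33, w205, w94] :=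
  good_of hTd _ _ _ _ _ _ _ x83 x12 x71 x33 x205 x94 go1530
lemma ch1531 (hTd : TdOK) : Good 0 ![w84, w96, w104, w71, w205, w94] :=
  good_of hTd _ _ _ _ _ _ _ x84 x96 x104 x71 x205 x94 go1531
lemma ch1532 (hTd : TdOK) : Good 0 ![w84, w96, w209, w71, w205, w104] :=
  good_of hTd _ _ _ _ _ _ _ x84 x96 x209 x71 x205 x104 go1532
lemma ch1533 (hTd : TdOK) : Good 0 ![w84, w100, w34, w71, w209, w104] :=
  good_of hTd _ _ _ _ _ _ _ x84 x100 x34 x71 x209 x104 go1533
lemma ch1534 (hTd : TdOK) : Good 0 ![w84, w96, w100, w71, w209, w104] :=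
  good_of hTd _ _ _ _ _ _ _ x84 x96 x100 x71 x209 x104 go1534
lemma ch1535 (hTd : TdOK) : Good 0 ![w84, w206, w209, w71, w205, w96] :=
  good_of hTd _ _ _ _ _ _ _ x84 x206 x209 x71 x205 x96 go1535
lemma ch1536 (hTd : TdOK) : Good 0 ![w84, w206, w100, w71, w209, w96] :=
  good_of hTd _ _ _ _ _ _ _ x84 x206 x100 x71 x209 x96 go1536
lemma ch1537 (hTd : TdOK) : Good 0 ![w84, w207, w77, w71, w209, w100] :=
  good_of hTd _ _ _ _ _ _ _ x84 x207 x77 x71 x209 x100 go1537
lemma ch1538 (hTd : TdOK) : Good 0 ![w87, w207, w211, w77, w209, w100] :=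
  good_of hTd _ _ _ _ _ _ _ x87 x207 x211 x77 x209 x100 go1538
lemma ch1539 (hTd : TdOK) : Good 0 ![w87, w207, w34, w77, w211, w100] :=
  good_of hTd _ _ _ _ _ _ _ x87 x207 x34 x77 x211 x100 go1539
lemma ch1540 (hTd : TdOK) : Good 0 ![w84, w207, w87, w77, w209, w100] :=
  good_of hTd _ _ _ _ _ _ _ x84 x207 x87 x77 x209 x100 go1540
lemma ch1541 (hTd : TdOK) : Good 0 ![w84, w206, w207, w71, w209, w100] :=
  good_of hTd _ _ _ _ _ _ _ x84 x206 x207 x71 x209 x100 go1541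
lemma ch1542 (hTd : TdOK) : Good 0 ![w84, w47, w100, w71, w206, w96] :=
  good_of hTd _ _ _ _ _ _ _ x84 x47 x100 x71 x206 x96 go1542
lemma ch1543 (hTd : TdOK) : Good 0 ![w84, w47, w77, w71, w206, w100] :=
  good_of hTd _ _ _ _ _ _ _ x84 x47 x77 x71 x206 x100 go1543
lemma ch1544 (hTd : TdOK) : Good 0 ![w84, w47, w207, w77, w206, w100] :=
  good_of hTd _ _ _ _ _ _ _ x84 x47 x207 x77 x206 x100 go1544
lemma ch1545 (hTd : TdOK) : Good 0 ![w87, w52, w103, w77, w207, w100] :=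
  good_of hTd _ _ _ _ _ _ _ x87 x52 x103 x77 x207 x100 go1545
lemma ch1546 (hTd : TdOK) : Good 0 ![w87, w52, w212, w77, w207, w103] :=
  good_of hTd _ _ _ _ _ _ _ x87 x52 x212 x77 x207 x103 go1546
lemma ch1547 (hTd : TdOK) : Good 0 ![w87, w52, w34, w77, w212, w103] :=
  good_of hTd _ _ _ _ _ _ _ x87 x52 x34 x77 x212 x103 go1547
lemma ch1548 (hTd : TdOK) : Good 0 ![w87, w73, w52, w77, w207, w100] :=
  good_of hTd _ _ _ _ _ _ _ x87 x73 x52 x77 x207 x100 go1548
lemma ch1549 (hTd : TdOK) : Good 0 ![w87, w47, w52, w73, w207, w100] :=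
  good_of hTd _ _ _ _ _ _ _ x87 x47 x52 x73 x207 x100 go1549
lemma ch1550 (hTd : TdOK) : Good 0 ![w84, w47, w87, w77, w207, w100] :=
  good_of hTd _ _ _ _ _ _ _ x84 x47 x87 x77 x207 x100 go1550
lemma ch1551 (hTd : TdOK) : Good 0 ![w84, w72, w47, w71, w206, w96] :=
  good_of hTd _ _ _ _ _ _ _ x84 x72 x47 x71 x206 x96 go1551
lemma ch1552 (hTd : TdOK) : Good 0 ![w90, w102, w47, w72, w206, w96] :=
  good_of hTd _ _ _ _ _ _ _ x90 x102 x47 x72 x206 x96 go1552
lemma ch1553 (hTd : TdOK) : Good 0 ![w90, w208, w47, w72, w206, w102] :=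
  good_of hTd _ _ _ _ _ _ _ x90 x208 x47 x72 x206 x102 go1553
lemma ch1554 (hTd : TdOK) : Good 0 ![w90, w76, w47, w72, w208, w102] :=
  good_of hTd _ _ _ _ _ _ _ x90 x76 x47 x72 x208 x102 go1554
lemma ch1555 (hTd : TdOK) : Good 0 ![w91, w57, w105, w76, w208, w102] :=
  good_of hTd _ _ _ _ _ _ _ x91 x57 x105 x76 x208 x102 go1555
lemma ch1556 (hTd : TdOK) : Good 0 ![w91, w57, w47, w76, w208, w105] :=
  good_of hTd _ _ _ _ _ _ _ x91 x57 x47 x76 x208 x105 go1556
lemma ch1557 (hTd : TdOK) : Good 0 ![w91, w12, w57, w76, w208, w102] :=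
  good_of hTd _ _ _ _ _ _ _ x91 x12 x57 x76 x208 x102 go1557
lemma ch1558 (hTd : TdOK) : Good 0 ![w90, w91, w47, w76, w208, w102] :=
  good_of hTd _ _ _ _ _ _ _ x90 x91 x47 x76 x208 x102 go1558
lemma ch1559 (hTd : TdOK) : Good 0 ![w84, w90, w47, w72, w206, w96] :=
  good_of hTd _ _ _ _ _ _ _ x84 x90 x47 x72 x206 x96 go1559
lemma ch1560 (hTd : TdOK) : Good 0 ![w83, w12, w84, w71, w205, w94] :=
  good_of hTd _ _ _ _ _ _ _ x83 x12 x84 x71 x205 x94 go1560
lemma ch1561 (hTd : TdOK) : Good 0 ![w0, w12, w83, w33, w180, w18] :=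
  good_of hTd _ _ _ _ _ _ _ x0 x12 x83 x33 x180 x18 go1561
lemma ch1562 (hTd : TdOK) : Good 0 ![w13, w178, w34, w213, w176, w5] :=
  good_of hTd _ _ _ _ _ _ _ x13 x178 x34 x213 x176 x5 go1562
lemma ch1563 (hTd : TdOK) : Good 0 ![w13, w35, w34, w213, w178, w5] :=
  good_of hTd _ _ _ _ _ _ _ x13 x35 x34 x213 x178 x5 go1563
lemma ch1564 (hTd : TdOK) : Good 0 ![w214, w215, w34, w213, w178, w35] :=
  good_of hTd _ _ _ _ _ _ _ x214 x215 x34 x213 x178 x35 go1564
lemma ch1565 (hTd : TdOK) : Good 0 ![w216, w182, w34, w215, w178, w35] :=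
  good_of hTd _ _ _ _ _ _ _ x216 x182 x34 x215 x178 x35 go1565
lemma ch1566 (hTd : TdOK) : Good 0 ![w216, w40, w34, w215, w182, w35] :=
  good_of hTd _ _ _ _ _ _ _ x216 x40 x34 x215 x182 x35 go1566
lemma ch1567 (hTd : TdOK) : Good 0 ![w216, w217, w34, w215, w182, w40] :=
  good_of hTd _ _ _ _ _ _ _ x216 x217 x34 x215 x182 x40 go1567
lemma ch1568 (hTd : TdOK) : Good 0 ![w218, w47, w44, w217, w182, w40] :=
  good_of hTd _ _ _ _ _ _ _ x218 x47 x44 x217 x182 x40 go1568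
lemma ch1569 (hTd : TdOK) : Good 0 ![w218, w47, w183, w217, w182, w44] :=
  good_of hTd _ _ _ _ _ _ _ x218 x47 x183 x217 x182 x44 go1569
lemma ch1570 (hTd : TdOK) : Good 0 ![w218, w47, w219, w217, w183, w44] :=
  good_of hTd _ _ _ _ _ _ _ x218 x47 x219 x217 x183 x44 go1570
lemma ch1571 (hTd : TdOK) : Good 0 ![w218, w47, w50, w219, w183, w44] :=
  good_of hTd _ _ _ _ _ _ _ x218 x47 x50 x219 x183 x44 go1571
lemma ch1572 (hTd : TdOK) : Good 0 ![w220, w52, w184, w219, w183, w50] :=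
  good_of hTd _ _ _ _ _ _ _ x220 x52 x184 x219 x183 x50 go1572
lemma ch1573 (hTd : TdOK) : Good 0 ![w220, w52, w34, w219, w184, w50] :=
  good_of hTd _ _ _ _ _ _ _ x220 x52 x34 x219 x184 x50 go1573
lemma ch1574 (hTd : TdOK) : Good 0 ![w218, w52, w220, w219, w183, w50] :=
  good_of hTd _ _ _ _ _ _ _ x218 x52 x220 x219 x183 x50 go1574
lemma ch1575 (hTd : TdOK) : Good 0 ![w221, w47, w52, w219, w183, w50] :=
  good_of hTd _ _ _ _ _ _ _ x221 x47 x52 x219 x183 x50 go1575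
lemma ch1576 (hTd : TdOK) : Good 0 ![w218, w221, w52, w219, w183, w50] :=
  good_of hTd _ _ _ _ _ _ _ x218 x221 x52 x219 x183 x50 go1576
lemma ch1577 (hTd : TdOK) : Good 0 ![w216, w47, w218, w217, w182, w40] :=
  good_of hTd _ _ _ _ _ _ _ x216 x47 x218 x217 x182 x40 go1577
lemma ch1578 (hTd : TdOK) : Good 0 ![w222, w43, w47, w217, w182, w40] :=
  good_of hTd _ _ _ _ _ _ _ x222 x43 x47 x217 x182 x40 go1578
lemma ch1579 (hTd : TdOK) : Good 0 ![w222, w185, w47, w217, w182, w43] :=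
  good_of hTd _ _ _ _ _ _ _ x222 x185 x47 x217 x182 x43 go1579
lemma ch1580 (hTd : TdOK) : Good 0 ![w223, w224, w225, w217, w185, w43] :=
  good_of hTd _ _ _ _ _ _ _ x223 x224 x225 x217 x185 x43 go1580
lemma ch1581 (hTd : TdOK) : Good 0 ![w223, w224, w47, w225, w185, w43] :=
  good_of hTd _ _ _ _ _ _ _ x223 x224 x47 x225 x185 x43 go1581
lemma ch1582 (hTd : TdOK) : Good 0 ![w222, w224, w223, w217, w185, w43] :=
  good_of hTd _ _ _ _ _ _ _ x222 x224 x223 x217 x185 x43 go1582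
lemma ch1583 (hTd : TdOK) : Good 0 ![w223, w12, w45, w224, w185, w43] :=
  good_of hTd _ _ _ _ _ _ _ x223 x12 x45 x224 x185 x43 go1583
lemma ch1584 (hTd : TdOK) : Good 0 ![w223, w57, w186, w224, w185, w45] :=
  good_of hTd _ _ _ _ _ _ _ x223 x57 x186 x224 x185 x45 go1584
lemma ch1585 (hTd : TdOK) : Good 0 ![w223, w57, w226, w224, w186, w45] :=
  good_of hTd _ _ _ _ _ _ _ x223 x57 x226 x224 x186 x45 go1585
lemma ch1586 (hTd : TdOK) : Good 0 ![w223, w57, w47, w226, w186, w45] :=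
  good_of hTd _ _ _ _ _ _ _ x223 x57 x47 x226 x186 x45 go1586
lemma ch1587 (hTd : TdOK) : Good 0 ![w227, w12, w57, w224, w185, w45] :=
  good_of hTd _ _ _ _ _ _ _ x227 x12 x57 x224 x185 x45 go1587
lemma ch1588 (hTd : TdOK) : Good 0 ![w223, w227, w228, w224, w185, w45] :=
  good_of hTd _ _ _ _ _ _ _ x223 x227 x228 x224 x185 x45 go1588
lemma ch1589 (hTd : TdOK) : Good 0 ![w223, w227, w57, w229, w228, w45] :=
  good_of hTd _ _ _ _ _ _ _ x223 x227 x57 x229 x228 x45 go1589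
lemma ch1590 (hTd : TdOK) : Good 0 ![w223, w227, w57, w224, w228, w229] :=
  good_of hTd _ _ _ _ _ _ _ x223 x227 x57 x224 x228 x229 go1590
lemma ch1591 (hTd : TdOK) : Good 0 ![w230, w12, w223, w224, w185, w43] :=
  good_of hTd _ _ _ _ _ _ _ x230 x12 x223 x224 x185 x43 go1591
lemma ch1592 (hTd : TdOK) : Good 0 ![w222, w230, w223, w224, w185, w43] :=
  good_of hTd _ _ _ _ _ _ _ x222 x230 x223 x224 x185 x43 go1592
lemma ch1593 (hTd : TdOK) : Good 0 ![w216, w222, w47, w217, w182, w40] :=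
  good_of hTd _ _ _ _ _ _ _ x216 x222 x47 x217 x182 x40 go1593
lemma ch1594 (hTd : TdOK) : Good 0 ![w214, w216, w34, w215, w178, w35] :=
  good_of hTd _ _ _ _ _ _ _ x214 x216 x34 x215 x178 x35 go1594
lemma ch1595 (hTd : TdOK) : Good 0 ![w58, w216, w34, w214, w178, w35] :=
  good_of hTd _ _ _ _ _ _ _ x58 x216 x34 x214 x178 x35 go1595
lemma ch1596 (hTd : TdOK) : Good 0 ![w58, w182, w34, w216, w178, w35] :=
  good_of hTd _ _ _ _ _ _ _ x58 x182 x34 x216 x178 x35 go1596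
lemma ch1597 (hTd : TdOK) : Good 0 ![w58, w40, w34, w216, w182, w35] :=
  good_of hTd _ _ _ _ _ _ _ x58 x40 x34 x216 x182 x35 go1597
lemma ch1598 (hTd : TdOK) : Good 0 ![w60, w47, w218, w216, w182, w40] :=
  good_of hTd _ _ _ _ _ _ _ x60 x47 x218 x216 x182 x40 go1598
lemma ch1599 (hTd : TdOK) : Good 0 ![w60, w47, w44, w218, w182, w40] :=
  good_of hTd _ _ _ _ _ _ _ x60 x47 x44 x218 x182 x40 go1599
lemma ch1600 (hTd : TdOK) : Good 0 ![w60, w47, w183, w218, w182, w44] :=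
  good_of hTd _ _ _ _ _ _ _ x60 x47 x183 x218 x182 x44 go1600
lemma ch1601 (hTd : TdOK) : Good 0 ![w62, w47, w50, w218, w183, w44] :=
  good_of hTd _ _ _ _ _ _ _ x62 x47 x50 x218 x183 x44 go1601
lemma ch1602 (hTd : TdOK) : Good 0 ![w62, w52, w34, w218, w183, w50] :=
  good_of hTd _ _ _ _ _ _ _ x62 x52 x34 x218 x183 x50 go1602
lemma ch1603 (hTd : TdOK) : Good 0 ![w62, w47, w52, w218, w183, w50] :=
  good_of hTd _ _ _ _ _ _ _ x62 x47 x52 x218 x183 x50 go1603
lemma ch1604 (hTd : TdOK) : Good 0 ![w60, w47, w62, w218, w183, w44] :=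
  good_of hTd _ _ _ _ _ _ _ x60 x47 x62 x218 x183 x44 go1604
lemma ch1605 (hTd : TdOK) : Good 0 ![w60, w222, w47, w216, w182, w40] :=
  good_of hTd _ _ _ _ _ _ _ x60 x222 x47 x216 x182 x40 go1605
lemma ch1606 (hTd : TdOK) : Good 0 ![w60, w43, w47, w222, w182, w40] :=
  good_of hTd _ _ _ _ _ _ _ x60 x43 x47 x222 x182 x40 go1606
lemma ch1607 (hTd : TdOK) : Good 0 ![w60, w185, w47, w222, w182, w43] :=
  good_of hTd _ _ _ _ _ _ _ x60 x185 x47 x222 x182 x43 go1607
lemma ch1608 (hTd : TdOK) : Good 0 ![w64, w12, w223, w222, w185, w43] :=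
  good_of hTd _ _ _ _ _ _ _ x64 x12 x223 x222 x185 x43 go1608
lemma ch1609 (hTd : TdOK) : Good 0 ![w64, w12, w45, w223, w185, w43] :=
  good_of hTd _ _ _ _ _ _ _ x64 x12 x45 x223 x185 x43 go1609
lemma ch1610 (hTd : TdOK) : Good 0 ![w64, w57, w186, w223, w185, w45] :=
  good_of hTd _ _ _ _ _ _ _ x64 x57 x186 x223 x185 x45 go1610
lemma ch1611 (hTd : TdOK) : Good 0 ![w64, w57, w47, w223, w186, w45] :=
  good_of hTd _ _ _ _ _ _ _ x64 x57 x47 x223 x186 x45 go1611
lemma ch1612 (hTd : TdOK) : Good 0 ![w64, w227, w57, w223, w185, w45] :=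
  good_of hTd _ _ _ _ _ _ _ x64 x227 x57 x223 x185 x45 go1612
lemma ch1613 (hTd : TdOK) : Good 0 ![w64, w12, w57, w227, w185, w45] :=
  good_of hTd _ _ _ _ _ _ _ x64 x12 x57 x227 x185 x45 go1613
lemma ch1614 (hTd : TdOK) : Good 0 ![w60, w64, w47, w222, w185, w43] :=
  good_of hTd _ _ _ _ _ _ _ x60 x64 x47 x222 x185 x43 go1614
lemma ch1615 (hTd : TdOK) : Good 0 ![w58, w60, w34, w216, w182, w40] :=
  good_of hTd _ _ _ _ _ _ _ x58 x60 x34 x216 x182 x40 go1615
lemma ch1616 (hTd : TdOK) : Good 0 ![w13, w12, w58, w214, w178, w35] :=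
  good_of hTd _ _ _ _ _ _ _ x13 x12 x58 x214 x178 x35 go1616
lemma ch1617 (hTd : TdOK) : Good 0 ![w179, w178, w34, w213, w176, w13] :=
  good_of hTd _ _ _ _ _ _ _ x179 x178 x34 x213 x176 x13 go1617
lemma ch1618 (hTd : TdOK) : Good 0 ![w187, w12, w58, w214, w178, w13] :=
  good_of hTd _ _ _ _ _ _ _ x187 x12 x58 x214 x178 x13 go1618
lemma ch1619 (hTd : TdOK) : Good 0 ![w187, w216, w34, w214, w178, w58] :=
  good_of hTd _ _ _ _ _ _ _ x187 x216 x34 x214 x178 x58 go1619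
lemma ch1620 (hTd : TdOK) : Good 0 ![w187, w182, w34, w216, w178, w58] :=
  good_of hTd _ _ _ _ _ _ _ x187 x182 x34 x216 x178 x58 go1620
lemma ch1621 (hTd : TdOK) : Good 0 ![w187, w60, w34, w216, w182, w58] :=
  good_of hTd _ _ _ _ _ _ _ x187 x60 x34 x216 x182 x58 go1621
lemma ch1622 (hTd : TdOK) : Good 0 ![w188, w222, w218, w216, w182, w60] :=
  good_of hTd _ _ _ _ _ _ _ x188 x222 x218 x216 x182 x60 go1622
lemma ch1623 (hTd : TdOK) : Good 0 ![w188, w223, w218, w222, w182, w60] :=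
  good_of hTd _ _ _ _ _ _ _ x188 x223 x218 x222 x182 x60 go1623
lemma ch1624 (hTd : TdOK) : Good 0 ![w188, w12, w223, w222, w182, w60] :=
  good_of hTd _ _ _ _ _ _ _ x188 x12 x223 x222 x182 x60 go1624
lemma ch1625 (hTd : TdOK) : Good 0 ![w188, w47, w183, w218, w182, w60] :=
  good_of hTd _ _ _ _ _ _ _ x188 x47 x183 x218 x182 x60 go1625
lemma ch1626 (hTd : TdOK) : Good 0 ![w188, w47, w62, w218, w183, w60] :=
  good_of hTd _ _ _ _ _ _ _ x188 x47 x62 x218 x183 x60 go1626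
lemma ch1627 (hTd : TdOK) : Good 0 ![w189, w52, w220, w218, w183, w62] :=
  good_of hTd _ _ _ _ _ _ _ x189 x52 x220 x218 x183 x62 go1627
lemma ch1628 (hTd : TdOK) : Good 0 ![w189, w52, w34, w220, w183, w62] :=
  good_of hTd _ _ _ _ _ _ _ x189 x52 x34 x220 x183 x62 go1628
lemma ch1629 (hTd : TdOK) : Good 0 ![w189, w47, w52, w218, w183, w62] :=
  good_of hTd _ _ _ _ _ _ _ x189 x47 x52 x218 x183 x62 go1629
lemma ch1630 (hTd : TdOK) : Good 0 ![w188, w47, w189, w218, w183, w62] :=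
  good_of hTd _ _ _ _ _ _ _ x188 x47 x189 x218 x183 x62 go1630
lemma ch1631 (hTd : TdOK) : Good 0 ![w188, w223, w47, w218, w182, w60] :=
  good_of hTd _ _ _ _ _ _ _ x188 x223 x47 x218 x182 x60 go1631
lemma ch1632 (hTd : TdOK) : Good 0 ![w188, w185, w47, w223, w182, w60] :=
  good_of hTd _ _ _ _ _ _ _ x188 x185 x47 x223 x182 x60 go1632
lemma ch1633 (hTd : TdOK) : Good 0 ![w188, w64, w47, w223, w185, w60] :=
  good_of hTd _ _ _ _ _ _ _ x188 x64 x47 x223 x185 x60 go1633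
lemma ch1634 (hTd : TdOK) : Good 0 ![w190, w57, w186, w223, w185, w64] :=
  good_of hTd _ _ _ _ _ _ _ x190 x57 x186 x223 x185 x64 go1634
lemma ch1635 (hTd : TdOK) : Good 0 ![w190, w57, w47, w223, w186, w64] :=
  good_of hTd _ _ _ _ _ _ _ x190 x57 x47 x223 x186 x64 go1635
lemma ch1636 (hTd : TdOK) : Good 0 ![w190, w12, w57, w223, w185, w64] :=
  good_of hTd _ _ _ _ _ _ _ x190 x12 x57 x223 x185 x64 go1636
lemma ch1637 (hTd : TdOK) : Good 0 ![w188, w190, w47, w223, w185, w64] :=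
  good_of hTd _ _ _ _ _ _ _ x188 x190 x47 x223 x185 x64 go1637
lemma ch1638 (hTd : TdOK) : Good 0 ![w187, w188, w34, w216, w182, w60] :=
  good_of hTd _ _ _ _ _ _ _ x187 x188 x34 x216 x182 x60 go1638
lemma ch1639 (hTd : TdOK) : Good 0 ![w179, w12, w187, w214, w178, w13] :=
  good_of hTd _ _ _ _ _ _ _ x179 x12 x187 x214 x178 x13 go1639
lemma ch1640 (hTd : TdOK) : Good 0 ![w179, w215, w34, w213, w178, w214] :=
  good_of hTd _ _ _ _ _ _ _ x179 x215 x34 x213 x178 x214 go1640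
lemma ch1641 (hTd : TdOK) : Good 0 ![w187, w216, w34, w215, w178, w214] :=
  good_of hTd _ _ _ _ _ _ _ x187 x216 x34 x215 x178 x214 go1641
lemma ch1642 (hTd : TdOK) : Good 0 ![w187, w182, w34, w215, w178, w216] :=
  good_of hTd _ _ _ _ _ _ _ x187 x182 x34 x215 x178 x216 go1642
lemma ch1643 (hTd : TdOK) : Good 0 ![w188, w217, w218, w215, w182, w216] :=
  good_of hTd _ _ _ _ _ _ _ x188 x217 x218 x215 x182 x216 go1643
lemma ch1644 (hTd : TdOK) : Good 0 ![w188, w217, w231, w215, w182, w218] :=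
  good_of hTd _ _ _ _ _ _ _ x188 x217 x231 x215 x182 x218 go1644
lemma ch1645 (hTd : TdOK) : Good 0 ![w188, w217, w34, w231, w182, w218] :=
  good_of hTd _ _ _ _ _ _ _ x188 x217 x34 x231 x182 x218 go1645
lemma ch1646 (hTd : TdOK) : Good 0 ![w188, w47, w218, w217, w182, w216] :=
  good_of hTd _ _ _ _ _ _ _ x188 x47 x218 x217 x182 x216 go1646
lemma ch1647 (hTd : TdOK) : Good 0 ![w188, w232, w183, w217, w182, w218] :=
  good_of hTd _ _ _ _ _ _ _ x188 x232 x183 x217 x182 x218 go1647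
lemma ch1648 (hTd : TdOK) : Good 0 ![w188, w225, w183, w217, w232, w218] :=
  good_of hTd _ _ _ _ _ _ _ x188 x225 x183 x217 x232 x218 go1648
lemma ch1649 (hTd : TdOK) : Good 0 ![w188, w47, w183, w225, w232, w218] :=
  good_of hTd _ _ _ _ _ _ _ x188 x47 x183 x225 x232 x218 go1649
lemma ch1650 (hTd : TdOK) : Good 0 ![w188, w47, w219, w217, w183, w218] :=
  good_of hTd _ _ _ _ _ _ _ x188 x47 x219 x217 x183 x218 go1650
lemma ch1651 (hTd : TdOK) : Good 0 ![w189, w52, w220, w219, w183, w218] :=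
  good_of hTd _ _ _ _ _ _ _ x189 x52 x220 x219 x183 x218 go1651
lemma ch1652 (hTd : TdOK) : Good 0 ![w189, w52, w184, w219, w183, w220] :=
  good_of hTd _ _ _ _ _ _ _ x189 x52 x184 x219 x183 x220 go1652
lemma ch1653 (hTd : TdOK) : Good 0 ![w189, w52, w233, w219, w184, w220] :=
  good_of hTd _ _ _ _ _ _ _ x189 x52 x233 x219 x184 x220 go1653
lemma ch1654 (hTd : TdOK) : Good 0 ![w189, w52, w34, w233, w184, w220] :=
  good_of hTd _ _ _ _ _ _ _ x189 x52 x34 x233 x184 x220 go1654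
lemma ch1655 (hTd : TdOK) : Good 0 ![w189, w47, w52, w219, w183, w218] :=
  good_of hTd _ _ _ _ _ _ _ x189 x47 x52 x219 x183 x218 go1655
lemma ch1656 (hTd : TdOK) : Good 0 ![w188, w47, w189, w219, w183, w218] :=
  good_of hTd _ _ _ _ _ _ _ x188 x47 x189 x219 x183 x218 go1656
lemma ch1657 (hTd : TdOK) : Good 0 ![w188, w222, w47, w217, w182, w216] :=
  good_of hTd _ _ _ _ _ _ _ x188 x222 x47 x217 x182 x216 go1657
lemma ch1658 (hTd : TdOK) : Good 0 ![w188, w185, w47, w217, w182, w222] :=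
  good_of hTd _ _ _ _ _ _ _ x188 x185 x47 x217 x182 x222 go1658
lemma ch1659 (hTd : TdOK) : Good 0 ![w190, w224, w223, w217, w185, w222] :=
  good_of hTd _ _ _ _ _ _ _ x190 x224 x223 x217 x185 x222 go1659
lemma ch1660 (hTd : TdOK) : Good 0 ![w190, w224, w225, w217, w185, w223] :=
  good_of hTd _ _ _ _ _ _ _ x190 x224 x225 x217 x185 x223 go1660
lemma ch1661 (hTd : TdOK) : Good 0 ![w190, w224, w47, w225, w185, w223] :=
  good_of hTd _ _ _ _ _ _ _ x190 x224 x47 x225 x185 x223 go1661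
lemma ch1662 (hTd : TdOK) : Good 0 ![w190, w12, w223, w224, w185, w222] :=
  good_of hTd _ _ _ _ _ _ _ x190 x12 x223 x224 x185 x222 go1662
lemma ch1663 (hTd : TdOK) : Good 0 ![w190, w228, w186, w224, w185, w223] :=
  good_of hTd _ _ _ _ _ _ _ x190 x228 x186 x224 x185 x223 go1663
lemma ch1664 (hTd : TdOK) : Good 0 ![w234, w57, w186, w224, w228, w223] :=
  good_of hTd _ _ _ _ _ _ _ x234 x57 x186 x224 x228 x223 go1664
lemma ch1665 (hTd : TdOK) : Good 0 ![w190, w57, w186, w234, w228, w223] :=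
  good_of hTd _ _ _ _ _ _ _ x190 x57 x186 x234 x228 x223 go1665
lemma ch1666 (hTd : TdOK) : Good 0 ![w234, w235, w226, w224, w186, w223] :=
  good_of hTd _ _ _ _ _ _ _ x234 x235 x226 x224 x186 x223 go1666
lemma ch1667 (hTd : TdOK) : Good 0 ![w234, w57, w226, w235, w186, w223] :=
  good_of hTd _ _ _ _ _ _ _ x234 x57 x226 x235 x186 x223 go1667
lemma ch1668 (hTd : TdOK) : Good 0 ![w190, w57, w226, w234, w186, w223] :=
  good_of hTd _ _ _ _ _ _ _ x190 x57 x226 x234 x186 x223 go1668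
lemma ch1669 (hTd : TdOK) : Good 0 ![w190, w57, w47, w226, w186, w223] :=
  good_of hTd _ _ _ _ _ _ _ x190 x57 x47 x226 x186 x223 go1669
lemma ch1670 (hTd : TdOK) : Good 0 ![w190, w227, w228, w224, w185, w223] :=
  good_of hTd _ _ _ _ _ _ _ x190 x227 x228 x224 x185 x223 go1670
lemma ch1671 (hTd : TdOK) : Good 0 ![w190, w227, w57, w224, w228, w223] :=
  good_of hTd _ _ _ _ _ _ _ x190 x227 x57 x224 x228 x223 go1671
lemma ch1672 (hTd : TdOK) : Good 0 ![w190, w12, w57, w224, w185, w227] :=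
  good_of hTd _ _ _ _ _ _ _ x190 x12 x57 x224 x185 x227 go1672
lemma ch1673 (hTd : TdOK) : Good 0 ![w188, w190, w223, w217, w185, w222] :=
  good_of hTd _ _ _ _ _ _ _ x188 x190 x223 x217 x185 x222 go1673
lemma ch1674 (hTd : TdOK) : Good 0 ![w188, w190, w47, w217, w185, w223] :=
  good_of hTd _ _ _ _ _ _ _ x188 x190 x47 x217 x185 x223 go1674
lemma ch1675 (hTd : TdOK) : Good 0 ![w187, w188, w218, w215, w182, w216] :=
  good_of hTd _ _ _ _ _ _ _ x187 x188 x218 x215 x182 x216 go1675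
lemma ch1676 (hTd : TdOK) : Good 0 ![w187, w188, w231, w215, w182, w218] :=
  good_of hTd _ _ _ _ _ _ _ x187 x188 x231 x215 x182 x218 go1676
lemma ch1677 (hTd : TdOK) : Good 0 ![w187, w188, w34, w231, w182, w218] :=
  good_of hTd _ _ _ _ _ _ _ x187 x188 x34 x231 x182 x218 go1677
lemma ch1678 (hTd : TdOK) : Good 0 ![w236, w216, w187, w215, w178, w214] :=
  good_of hTd _ _ _ _ _ _ _ x236 x216 x187 x215 x178 x214 go1678
lemma ch1679 (hTd : TdOK) : Good 0 ![w236, w182, w187, w215, w178, w216] :=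
  good_of hTd _ _ _ _ _ _ _ x236 x182 x187 x215 x178 x216 go1679
lemma ch1680 (hTd : TdOK) : Good 0 ![w236, w188, w187, w215, w182, w216] :=
  good_of hTd _ _ _ _ _ _ _ x236 x188 x187 x215 x182 x216 go1680
lemma ch1681 (hTd : TdOK) : Good 0 ![w237, w12, w188, w215, w182, w216] :=
  good_of hTd _ _ _ _ _ _ _ x237 x12 x188 x215 x182 x216 go1681
lemma ch1682 (hTd : TdOK) : Good 0 ![w236, w12, w188, w237, w182, w216] :=
  good_of hTd _ _ _ _ _ _ _ x236 x12 x188 x237 x182 x216 go1682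
lemma ch1683 (hTd : TdOK) : Good 0 ![w179, w236, w187, w215, w178, w214] :=
  good_of hTd _ _ _ _ _ _ _ x179 x236 x187 x215 x178 x214 go1683
lemma ch1684 (hTd : TdOK) : Good 0 ![w238, w12, w187, w214, w179, w13] :=
  good_of hTd _ _ _ _ _ _ _ x238 x12 x187 x214 x179 x13 go1684
lemma ch1685 (hTd : TdOK) : Good 0 ![w238, w12, w58, w214, w187, w13] :=
  good_of hTd _ _ _ _ _ _ _ x238 x12 x58 x214 x187 x13 go1685
lemma ch1686 (hTd : TdOK) : Good 0 ![w239, w216, w34, w214, w187, w58] :=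
  good_of hTd _ _ _ _ _ _ _ x239 x216 x34 x214 x187 x58 go1686
lemma ch1687 (hTd : TdOK) : Good 0 ![w239, w60, w34, w216, w187, w58] :=
  good_of hTd _ _ _ _ _ _ _ x239 x60 x34 x216 x187 x58 go1687
lemma ch1688 (hTd : TdOK) : Good 0 ![w239, w188, w218, w216, w187, w60] :=
  good_of hTd _ _ _ _ _ _ _ x239 x188 x218 x216 x187 x60 go1688
lemma ch1689 (hTd : TdOK) : Good 0 ![w239, w188, w198, w218, w187, w60] :=
  good_of hTd _ _ _ _ _ _ _ x239 x188 x198 x218 x187 x60 go1689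
lemma ch1690 (hTd : TdOK) : Good 0 ![w239, w188, w62, w218, w198, w60] :=
  good_of hTd _ _ _ _ _ _ _ x239 x188 x62 x218 x198 x60 go1690
lemma ch1691 (hTd : TdOK) : Good 0 ![w239, w188, w34, w218, w198, w62] :=
  good_of hTd _ _ _ _ _ _ _ x239 x188 x34 x218 x198 x62 go1691
lemma ch1692 (hTd : TdOK) : Good 0 ![w239, w12, w218, w216, w188, w60] :=
  good_of hTd _ _ _ _ _ _ _ x239 x12 x218 x216 x188 x60 go1692
lemma ch1693 (hTd : TdOK) : Good 0 ![w240, w47, w62, w218, w188, w60] :=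
  good_of hTd _ _ _ _ _ _ _ x240 x47 x62 x218 x188 x60 go1693
lemma ch1694 (hTd : TdOK) : Good 0 ![w240, w47, w189, w218, w188, w62] :=
  good_of hTd _ _ _ _ _ _ _ x240 x47 x189 x218 x188 x62 go1694
lemma ch1695 (hTd : TdOK) : Good 0 ![w241, w52, w220, w218, w189, w62] :=
  good_of hTd _ _ _ _ _ _ _ x241 x52 x220 x218 x189 x62 go1695
lemma ch1696 (hTd : TdOK) : Good 0 ![w241, w52, w74, w220, w189, w62] :=
  good_of hTd _ _ _ _ _ _ _ x241 x52 x74 x220 x189 x62 go1696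
lemma ch1697 (hTd : TdOK) : Good 0 ![w241, w52, w192, w220, w189, w74] :=
  good_of hTd _ _ _ _ _ _ _ x241 x52 x192 x220 x189 x74 go1697
lemma ch1698 (hTd : TdOK) : Good 0 ![w241, w52, w34, w220, w192, w74] :=
  good_of hTd _ _ _ _ _ _ _ x241 x52 x34 x220 x192 x74 go1698
lemma ch1699 (hTd : TdOK) : Good 0 ![w241, w47, w52, w218, w189, w62] :=
  good_of hTd _ _ _ _ _ _ _ x241 x47 x52 x218 x189 x62 go1699
lemma ch1700 (hTd : TdOK) : Good 0 ![w240, w47, w241, w218, w189, w62] :=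
  good_of hTd _ _ _ _ _ _ _ x240 x47 x241 x218 x189 x62 go1700
lemma ch1701 (hTd : TdOK) : Good 0 ![w240, w223, w47, w218, w188, w60] :=
  good_of hTd _ _ _ _ _ _ _ x240 x223 x47 x218 x188 x60 go1701
lemma ch1702 (hTd : TdOK) : Good 0 ![w240, w64, w47, w223, w188, w60] :=
  good_of hTd _ _ _ _ _ _ _ x240 x64 x47 x223 x188 x60 go1702
lemma ch1703 (hTd : TdOK) : Good 0 ![w240, w190, w47, w223, w188, w64] :=
  good_of hTd _ _ _ _ _ _ _ x240 x190 x47 x223 x188 x64 go1703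
lemma ch1704 (hTd : TdOK) : Good 0 ![w242, w57, w47, w223, w190, w64] :=
  good_of hTd _ _ _ _ _ _ _ x242 x57 x47 x223 x190 x64 go1704
lemma ch1705 (hTd : TdOK) : Good 0 ![w242, w12, w57, w223, w190, w64] :=
  good_of hTd _ _ _ _ _ _ _ x242 x12 x57 x223 x190 x64 go1705
lemma ch1706 (hTd : TdOK) : Good 0 ![w240, w242, w47, w223, w190, w64] :=
  good_of hTd _ _ _ _ _ _ _ x240 x242 x47 x223 x190 x64 go1706
lemma ch1707 (hTd : TdOK) : Good 0 ![w239, w240, w62, w218, w188, w60] :=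
  good_of hTd _ _ _ _ _ _ _ x239 x240 x62 x218 x188 x60 go1707
lemma ch1708 (hTd : TdOK) : Good 0 ![w243, w240, w189, w218, w188, w62] :=
  good_of hTd _ _ _ _ _ _ _ x243 x240 x189 x218 x188 x62 go1708
lemma ch1709 (hTd : TdOK) : Good 0 ![w243, w241, w220, w218, w189, w62] :=
  good_of hTd _ _ _ _ _ _ _ x243 x241 x220 x218 x189 x62 go1709
lemma ch1710 (hTd : TdOK) : Good 0 ![w243, w241, w74, w220, w189, w62] :=
  good_of hTd _ _ _ _ _ _ _ x243 x241 x74 x220 x189 x62 go1710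
lemma ch1711 (hTd : TdOK) : Good 0 ![w243, w241, w34, w220, w189, w74] :=
  good_of hTd _ _ _ _ _ _ _ x243 x241 x34 x220 x189 x74 go1711
lemma ch1712 (hTd : TdOK) : Good 0 ![w243, w240, w241, w218, w189, w62] :=
  good_of hTd _ _ _ _ _ _ _ x243 x240 x241 x218 x189 x62 go1712
lemma ch1713 (hTd : TdOK) : Good 0 ![w239, w240, w243, w218, w188, w62] :=
  good_of hTd _ _ _ _ _ _ _ x239 x240 x243 x218 x188 x62 go1713
lemma ch1714 (hTd : TdOK) : Good 0 ![w238, w12, w239, w214, w187, w58] :=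
  good_of hTd _ _ _ _ _ _ _ x238 x12 x239 x214 x187 x58 go1714
lemma ch1715 (hTd : TdOK) : Good 0 ![w238, w12, w187, w244, w179, w214] :=
  good_of hTd _ _ _ _ _ _ _ x238 x12 x187 x244 x179 x214 go1715
lemma ch1716 (hTd : TdOK) : Good 0 ![w239, w237, w34, w244, w187, w214] :=
  good_of hTd _ _ _ _ _ _ _ x239 x237 x34 x244 x187 x214 go1716
lemma ch1717 (hTd : TdOK) : Good 0 ![w239, w216, w34, w237, w187, w214] :=
  good_of hTd _ _ _ _ _ _ _ x239 x216 x34 x237 x187 x214 go1717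
lemma ch1718 (hTd : TdOK) : Good 0 ![w239, w188, w34, w237, w187, w216] :=
  good_of hTd _ _ _ _ _ _ _ x239 x188 x34 x237 x187 x216 go1718
lemma ch1719 (hTd : TdOK) : Good 0 ![w239, w12, w245, w237, w188, w216] :=
  good_of hTd _ _ _ _ _ _ _ x239 x12 x245 x237 x188 x216 go1719
lemma ch1720 (hTd : TdOK) : Good 0 ![w240, w222, w218, w245, w188, w216] :=
  good_of hTd _ _ _ _ _ _ _ x240 x222 x218 x245 x188 x216 go1720
lemma ch1721 (hTd : TdOK) : Good 0 ![w240, w223, w218, w245, w188, w222] :=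
  good_of hTd _ _ _ _ _ _ _ x240 x223 x218 x245 x188 x222 go1721
lemma ch1722 (hTd : TdOK) : Good 0 ![w240, w12, w223, w245, w188, w222] :=
  good_of hTd _ _ _ _ _ _ _ x240 x12 x223 x245 x188 x222 go1722
lemma ch1723 (hTd : TdOK) : Good 0 ![w239, w240, w218, w245, w188, w216] :=
  good_of hTd _ _ _ _ _ _ _ x239 x240 x218 x245 x188 x216 go1723
lemma ch1724 (hTd : TdOK) : Good 0 ![w240, w47, w189, w245, w188, w218] :=
  good_of hTd _ _ _ _ _ _ _ x240 x47 x189 x245 x188 x218 go1724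
lemma ch1725 (hTd : TdOK) : Good 0 ![w241, w52, w220, w245, w189, w218] :=
  good_of hTd _ _ _ _ _ _ _ x241 x52 x220 x245 x189 x218 go1725
lemma ch1726 (hTd : TdOK) : Good 0 ![w241, w52, w246, w245, w189, w220] :=
  good_of hTd _ _ _ _ _ _ _ x241 x52 x246 x245 x189 x220 go1726
lemma ch1727 (hTd : TdOK) : Good 0 ![w241, w52, w192, w246, w189, w220] :=
  good_of hTd _ _ _ _ _ _ _ x241 x52 x192 x246 x189 x220 go1727
lemma ch1728 (hTd : TdOK) : Good 0 ![w241, w52, w34, w246, w192, w220] :=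
  good_of hTd _ _ _ _ _ _ _ x241 x52 x34 x246 x192 x220 go1728
lemma ch1729 (hTd : TdOK) : Good 0 ![w241, w47, w52, w245, w189, w218] :=
  good_of hTd _ _ _ _ _ _ _ x241 x47 x52 x245 x189 x218 go1729
lemma ch1730 (hTd : TdOK) : Good 0 ![w240, w47, w241, w245, w189, w218] :=
  good_of hTd _ _ _ _ _ _ _ x240 x47 x241 x245 x189 x218 go1730
lemma ch1731 (hTd : TdOK) : Good 0 ![w240, w223, w47, w245, w188, w218] :=
  good_of hTd _ _ _ _ _ _ _ x240 x223 x47 x245 x188 x218 go1731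
lemma ch1732 (hTd : TdOK) : Good 0 ![w240, w247, w47, w245, w188, w223] :=
  good_of hTd _ _ _ _ _ _ _ x240 x247 x47 x245 x188 x223 go1732
lemma ch1733 (hTd : TdOK) : Good 0 ![w240, w190, w47, w247, w188, w223] :=
  good_of hTd _ _ _ _ _ _ _ x240 x190 x47 x247 x188 x223 go1733
lemma ch1734 (hTd : TdOK) : Good 0 ![w242, w57, w47, w247, w190, w223] :=
  good_of hTd _ _ _ _ _ _ _ x242 x57 x47 x247 x190 x223 go1734
lemma ch1735 (hTd : TdOK) : Good 0 ![w242, w227, w57, w247, w190, w223] :=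
  good_of hTd _ _ _ _ _ _ _ x242 x227 x57 x247 x190 x223 go1735
lemma ch1736 (hTd : TdOK) : Good 0 ![w242, w12, w57, w247, w190, w227] :=
  good_of hTd _ _ _ _ _ _ _ x242 x12 x57 x247 x190 x227 go1736
lemma ch1737 (hTd : TdOK) : Good 0 ![w240, w242, w47, w247, w190, w223] :=
  good_of hTd _ _ _ _ _ _ _ x240 x242 x47 x247 x190 x223 go1737
lemma ch1738 (hTd : TdOK) : Good 0 ![w243, w240, w189, w245, w188, w218] :=
  good_of hTd _ _ _ _ _ _ _ x243 x240 x189 x245 x188 x218 go1738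
lemma ch1739 (hTd : TdOK) : Good 0 ![w243, w241, w34, w245, w189, w218] :=
  good_of hTd _ _ _ _ _ _ _ x243 x241 x34 x245 x189 x218 go1739
lemma ch1740 (hTd : TdOK) : Good 0 ![w243, w240, w241, w245, w189, w218] :=
  good_of hTd _ _ _ _ _ _ _ x243 x240 x241 x245 x189 x218 go1740
lemma ch1741 (hTd : TdOK) : Good 0 ![w239, w240, w243, w245, w188, w218] :=
  good_of hTd _ _ _ _ _ _ _ x239 x240 x243 x245 x188 x218 go1741
lemma ch1742 (hTd : TdOK) : Good 0 ![w238, w12, w239, w244, w187, w214] :=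
  good_of hTd _ _ _ _ _ _ _ x238 x12 x239 x244 x187 x214 go1742
lemma ch1743 (hTd : TdOK) : Good 0 ![w238, w215, w34, w213, w244, w214] :=
  good_of hTd _ _ _ _ _ _ _ x238 x215 x34 x213 x244 x214 go1743
lemma ch1744 (hTd : TdOK) : Good 0 ![w239, w237, w34, w215, w244, w214] :=
  good_of hTd _ _ _ _ _ _ _ x239 x237 x34 x215 x244 x214 go1744
lemma ch1745 (hTd : TdOK) : Good 0 ![w239, w216, w34, w215, w237, w214] :=
  good_of hTd _ _ _ _ _ _ _ x239 x216 x34 x215 x237 x214 go1745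
lemma ch1746 (hTd : TdOK) : Good 0 ![w239, w217, w245, w215, w237, w216] :=
  good_of hTd _ _ _ _ _ _ _ x239 x217 x245 x215 x237 x216 go1746
lemma ch1747 (hTd : TdOK) : Good 0 ![w239, w217, w34, w215, w245, w216] :=
  good_of hTd _ _ _ _ _ _ _ x239 x217 x34 x215 x245 x216 go1747
lemma ch1748 (hTd : TdOK) : Good 0 ![w240, w47, w218, w217, w237, w216] :=
  good_of hTd _ _ _ _ _ _ _ x240 x47 x218 x217 x237 x216 go1748
lemma ch1749 (hTd : TdOK) : Good 0 ![w240, w47, w245, w217, w237, w218] :=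
  good_of hTd _ _ _ _ _ _ _ x240 x47 x245 x217 x237 x218 go1749
lemma ch1750 (hTd : TdOK) : Good 0 ![w240, w47, w219, w217, w245, w218] :=
  good_of hTd _ _ _ _ _ _ _ x240 x47 x219 x217 x245 x218 go1750
lemma ch1751 (hTd : TdOK) : Good 0 ![w241, w52, w220, w219, w245, w218] :=
  good_of hTd _ _ _ _ _ _ _ x241 x52 x220 x219 x245 x218 go1751
lemma ch1752 (hTd : TdOK) : Good 0 ![w241, w52, w246, w219, w245, w220] :=
  good_of hTd _ _ _ _ _ _ _ x241 x52 x246 x219 x245 x220 go1752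
lemma ch1753 (hTd : TdOK) : Good 0 ![w241, w52, w233, w219, w246, w220] :=
  good_of hTd _ _ _ _ _ _ _ x241 x52 x233 x219 x246 x220 go1753
lemma ch1754 (hTd : TdOK) : Good 0 ![w241, w52, w34, w233, w246, w220] :=
  good_of hTd _ _ _ _ _ _ _ x241 x52 x34 x233 x246 x220 go1754
lemma ch1755 (hTd : TdOK) : Good 0 ![w241, w47, w52, w219, w245, w218] :=
  good_of hTd _ _ _ _ _ _ _ x241 x47 x52 x219 x245 x218 go1755
lemma ch1756 (hTd : TdOK) : Good 0 ![w240, w47, w241, w219, w245, w218] :=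
  good_of hTd _ _ _ _ _ _ _ x240 x47 x241 x219 x245 x218 go1756
lemma ch1757 (hTd : TdOK) : Good 0 ![w240, w222, w47, w217, w237, w216] :=
  good_of hTd _ _ _ _ _ _ _ x240 x222 x47 x217 x237 x216 go1757
lemma ch1758 (hTd : TdOK) : Good 0 ![w240, w248, w47, w217, w237, w222] :=
  good_of hTd _ _ _ _ _ _ _ x240 x248 x47 x217 x237 x222 go1758
lemma ch1759 (hTd : TdOK) : Good 0 ![w242, w224, w223, w217, w248, w222] :=
  good_of hTd _ _ _ _ _ _ _ x242 x224 x223 x217 x248 x222 go1759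
lemma ch1760 (hTd : TdOK) : Good 0 ![w242, w224, w47, w217, w248, w223] :=
  good_of hTd _ _ _ _ _ _ _ x242 x224 x47 x217 x248 x223 go1760
lemma ch1761 (hTd : TdOK) : Good 0 ![w242, w12, w223, w224, w248, w222] :=
  good_of hTd _ _ _ _ _ _ _ x242 x12 x223 x224 x248 x222 go1761
lemma ch1762 (hTd : TdOK) : Good 0 ![w242, w12, w247, w224, w248, w223] :=
  good_of hTd _ _ _ _ _ _ _ x242 x12 x247 x224 x248 x223 go1762
lemma ch1763 (hTd : TdOK) : Good 0 ![w242, w235, w226, w224, w247, w223] :=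
  good_of hTd _ _ _ _ _ _ _ x242 x235 x226 x224 x247 x223 go1763
lemma ch1764 (hTd : TdOK) : Good 0 ![w242, w57, w226, w235, w247, w223] :=
  good_of hTd _ _ _ _ _ _ _ x242 x57 x226 x235 x247 x223 go1764
lemma ch1765 (hTd : TdOK) : Good 0 ![w242, w57, w47, w226, w247, w223] :=
  good_of hTd _ _ _ _ _ _ _ x242 x57 x47 x226 x247 x223 go1765
lemma ch1766 (hTd : TdOK) : Good 0 ![w242, w227, w235, w224, w247, w223] :=
  good_of hTd _ _ _ _ _ _ _ x242 x227 x235 x224 x247 x223 go1766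
lemma ch1767 (hTd : TdOK) : Good 0 ![w242, w227, w57, w235, w247, w223] :=
  good_of hTd _ _ _ _ _ _ _ x242 x227 x57 x235 x247 x223 go1767
lemma ch1768 (hTd : TdOK) : Good 0 ![w242, w12, w57, w224, w247, w227] :=
  good_of hTd _ _ _ _ _ _ _ x242 x12 x57 x224 x247 x227 go1768
lemma ch1769 (hTd : TdOK) : Good 0 ![w240, w242, w47, w217, w248, w222] :=
  good_of hTd _ _ _ _ _ _ _ x240 x242 x47 x217 x248 x222 go1769
lemma ch1770 (hTd : TdOK) : Good 0 ![w239, w240, w218, w217, w237, w216] :=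
  good_of hTd _ _ _ _ _ _ _ x239 x240 x218 x217 x237 x216 go1770
lemma ch1771 (hTd : TdOK) : Good 0 ![w239, w240, w245, w217, w237, w218] :=
  good_of hTd _ _ _ _ _ _ _ x239 x240 x245 x217 x237 x218 go1771
lemma ch1772 (hTd : TdOK) : Good 0 ![w239, w240, w219, w217, w245, w218] :=
  good_of hTd _ _ _ _ _ _ _ x239 x240 x219 x217 x245 x218 go1772
lemma ch1773 (hTd : TdOK) : Good 0 ![w243, w241, w34, w219, w245, w218] :=
  good_of hTd _ _ _ _ _ _ _ x243 x241 x34 x219 x245 x218 go1773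
lemma ch1774 (hTd : TdOK) : Good 0 ![w243, w240, w241, w219, w245, w218] :=
  good_of hTd _ _ _ _ _ _ _ x243 x240 x241 x219 x245 x218 go1774
lemma ch1775 (hTd : TdOK) : Good 0 ![w239, w240, w243, w219, w245, w218] :=
  good_of hTd _ _ _ _ _ _ _ x239 x240 x243 x219 x245 x218 go1775
lemma ch1776 (hTd : TdOK) : Good 0 ![w238, w237, w239, w215, w244, w214] :=
  good_of hTd _ _ _ _ _ _ _ x238 x237 x239 x215 x244 x214 go1776
lemma ch1777 (hTd : TdOK) : Good 0 ![w238, w216, w239, w215, w237, w214] :=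
  good_of hTd _ _ _ _ _ _ _ x238 x216 x239 x215 x237 x214 go1777
lemma ch1778 (hTd : TdOK) : Good 0 ![w249, w217, w239, w215, w237, w216] :=
  good_of hTd _ _ _ _ _ _ _ x249 x217 x239 x215 x237 x216 go1778
lemma ch1779 (hTd : TdOK) : Good 0 ![w249, w240, w239, w217, w237, w216] :=
  good_of hTd _ _ _ _ _ _ _ x249 x240 x239 x217 x237 x216 go1779
lemma ch1780 (hTd : TdOK) : Good 0 ![w250, w12, w240, w217, w237, w216] :=
  good_of hTd _ _ _ _ _ _ _ x250 x12 x240 x217 x237 x216 go1780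
lemma ch1781 (hTd : TdOK) : Good 0 ![w249, w250, w240, w217, w237, w216] :=
  good_of hTd _ _ _ _ _ _ _ x249 x250 x240 x217 x237 x216 go1781
lemma ch1782 (hTd : TdOK) : Good 0 ![w238, w249, w239, w215, w237, w216] :=
  good_of hTd _ _ _ _ _ _ _ x238 x249 x239 x215 x237 x216 go1782
lemma ch1783 (hTd : TdOK) : Good 0 ![w83, w12, w187, w238, w179, w13] :=
  good_of hTd _ _ _ _ _ _ _ x83 x12 x187 x238 x179 x13 go1783
lemma ch1784 (hTd : TdOK) : Good 0 ![w83, w12, w58, w238, w187, w13] :=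
  good_of hTd _ _ _ _ _ _ _ x83 x12 x58 x238 x187 x13 go1784
lemma ch1785 (hTd : TdOK) : Good 0 ![w83, w12, w239, w238, w187, w58] :=
  good_of hTd _ _ _ _ _ _ _ x83 x12 x239 x238 x187 x58 go1785
lemma ch1786 (hTd : TdOK) : Good 0 ![w84, w60, w85, w239, w187, w58] :=
  good_of hTd _ _ _ _ _ _ _ x84 x60 x85 x239 x187 x58 go1786
lemma ch1787 (hTd : TdOK) : Good 0 ![w84, w60, w198, w239, w187, w85] :=
  good_of hTd _ _ _ _ _ _ _ x84 x60 x198 x239 x187 x85 go1787
lemma ch1788 (hTd : TdOK) : Good 0 ![w84, w62, w243, w239, w198, w85] :=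
  good_of hTd _ _ _ _ _ _ _ x84 x62 x243 x239 x198 x85 go1788
lemma ch1789 (hTd : TdOK) : Good 0 ![w87, w62, w34, w243, w198, w85] :=
  good_of hTd _ _ _ _ _ _ _ x87 x62 x34 x243 x198 x85 go1789
lemma ch1790 (hTd : TdOK) : Good 0 ![w84, w62, w87, w243, w198, w85] :=
  good_of hTd _ _ _ _ _ _ _ x84 x62 x87 x243 x198 x85 go1790
lemma ch1791 (hTd : TdOK) : Good 0 ![w84, w60, w62, w239, w198, w85] :=
  good_of hTd _ _ _ _ _ _ _ x84 x60 x62 x239 x198 x85 go1791
lemma ch1792 (hTd : TdOK) : Good 0 ![w84, w188, w198, w239, w187, w60] :=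
  good_of hTd _ _ _ _ _ _ _ x84 x188 x198 x239 x187 x60 go1792
lemma ch1793 (hTd : TdOK) : Good 0 ![w84, w188, w62, w239, w198, w60] :=
  good_of hTd _ _ _ _ _ _ _ x84 x188 x62 x239 x198 x60 go1793
lemma ch1794 (hTd : TdOK) : Good 0 ![w84, w189, w243, w239, w198, w62] :=
  good_of hTd _ _ _ _ _ _ _ x84 x189 x243 x239 x198 x62 go1794
lemma ch1795 (hTd : TdOK) : Good 0 ![w87, w189, w199, w243, w198, w62] :=
  good_of hTd _ _ _ _ _ _ _ x87 x189 x199 x243 x198 x62 go1795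
lemma ch1796 (hTd : TdOK) : Good 0 ![w87, w189, w34, w243, w199, w62] :=
  good_of hTd _ _ _ _ _ _ _ x87 x189 x34 x243 x199 x62 go1796
lemma ch1797 (hTd : TdOK) : Good 0 ![w84, w189, w87, w243, w198, w62] :=
  good_of hTd _ _ _ _ _ _ _ x84 x189 x87 x243 x198 x62 go1797
lemma ch1798 (hTd : TdOK) : Good 0 ![w84, w188, w189, w239, w198, w62] :=
  good_of hTd _ _ _ _ _ _ _ x84 x188 x189 x239 x198 x62 go1798
lemma ch1799 (hTd : TdOK) : Good 0 ![w84, w47, w62, w239, w188, w60] :=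
  good_of hTd _ _ _ _ _ _ _ x84 x47 x62 x239 x188 x60 go1799
lemma ch1800 (hTd : TdOK) : Good 0 ![w84, w47, w243, w239, w188, w62] :=
  good_of hTd _ _ _ _ _ _ _ x84 x47 x243 x239 x188 x62 go1800
lemma ch1801 (hTd : TdOK) : Good 0 ![w84, w47, w189, w243, w188, w62] :=
  good_of hTd _ _ _ _ _ _ _ x84 x47 x189 x243 x188 x62 go1801
lemma ch1802 (hTd : TdOK) : Good 0 ![w87, w251, w74, w243, w189, w62] :=
  good_of hTd _ _ _ _ _ _ _ x87 x251 x74 x243 x189 x62 go1802
lemma ch1803 (hTd : TdOK) : Good 0 ![w87, w52, w74, w251, w189, w62] :=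
  good_of hTd _ _ _ _ _ _ _ x87 x52 x74 x251 x189 x62 go1803
lemma ch1804 (hTd : TdOK) : Good 0 ![w87, w52, w192, w243, w189, w74] :=
  good_of hTd _ _ _ _ _ _ _ x87 x52 x192 x243 x189 x74 go1804
lemma ch1805 (hTd : TdOK) : Good 0 ![w87, w52, w34, w243, w192, w74] :=
  good_of hTd _ _ _ _ _ _ _ x87 x52 x34 x243 x192 x74 go1805
lemma ch1806 (hTd : TdOK) : Good 0 ![w87, w241, w52, w243, w189, w62] :=
  good_of hTd _ _ _ _ _ _ _ x87 x241 x52 x243 x189 x62 go1806
lemma ch1807 (hTd : TdOK) : Good 0 ![w87, w47, w52, w241, w189, w62] :=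
  good_of hTd _ _ _ _ _ _ _ x87 x47 x52 x241 x189 x62 go1807
lemma ch1808 (hTd : TdOK) : Good 0 ![w84, w47, w87, w243, w189, w62] :=
  good_of hTd _ _ _ _ _ _ _ x84 x47 x87 x243 x189 x62 go1808
lemma ch1809 (hTd : TdOK) : Good 0 ![w84, w240, w47, w239, w188, w60] :=
  good_of hTd _ _ _ _ _ _ _ x84 x240 x47 x239 x188 x60 go1809
lemma ch1810 (hTd : TdOK) : Good 0 ![w90, w64, w47, w240, w188, w60] :=
  good_of hTd _ _ _ _ _ _ _ x90 x64 x47 x240 x188 x60 go1810
lemma ch1811 (hTd : TdOK) : Good 0 ![w90, w190, w47, w240, w188, w64] :=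
  good_of hTd _ _ _ _ _ _ _ x90 x190 x47 x240 x188 x64 go1811
lemma ch1812 (hTd : TdOK) : Good 0 ![w90, w242, w47, w240, w190, w64] :=
  good_of hTd _ _ _ _ _ _ _ x90 x242 x47 x240 x190 x64 go1812
lemma ch1813 (hTd : TdOK) : Good 0 ![w91, w57, w92, w242, w190, w64] :=
  good_of hTd _ _ _ _ _ _ _ x91 x57 x92 x242 x190 x64 go1813
lemma ch1814 (hTd : TdOK) : Good 0 ![w91, w57, w252, w242, w190, w92] :=
  good_of hTd _ _ _ _ _ _ _ x91 x57 x252 x242 x190 x92 go1814
lemma ch1815 (hTd : TdOK) : Good 0 ![w91, w57, w47, w242, w252, w92] :=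
  good_of hTd _ _ _ _ _ _ _ x91 x57 x47 x242 x252 x92 go1815
lemma ch1816 (hTd : TdOK) : Good 0 ![w91, w12, w57, w242, w190, w64] :=
  good_of hTd _ _ _ _ _ _ _ x91 x12 x57 x242 x190 x64 go1816
lemma ch1817 (hTd : TdOK) : Good 0 ![w90, w91, w47, w242, w190, w64] :=
  good_of hTd _ _ _ _ _ _ _ x90 x91 x47 x242 x190 x64 go1817
lemma ch1818 (hTd : TdOK) : Good 0 ![w84, w90, w47, w240, w188, w60] :=
  good_of hTd _ _ _ _ _ _ _ x84 x90 x47 x240 x188 x60 go1818
lemma ch1819 (hTd : TdOK) : Good 0 ![w83, w12, w84, w239, w187, w58] :=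
  good_of hTd _ _ _ _ _ _ _ x83 x12 x84 x239 x187 x58 go1819
lemma ch1820 (hTd : TdOK) : Good 0 ![w0, w12, w83, w238, w179, w13] :=
  good_of hTd _ _ _ _ _ _ _ x0 x12 x83 x238 x179 x13 go1820
lemma ch1821 (hTd : TdOK) : Good 0 ![w18, w93, w34, w253, w177, w8] :=
  good_of hTd _ _ _ _ _ _ _ x18 x93 x34 x253 x177 x8 go1821
lemma ch1822 (hTd : TdOK) : Good 0 ![w18, w181, w34, w253, w177, w93] :=
  good_of hTd _ _ _ _ _ _ _ x18 x181 x34 x253 x177 x93 go1822
lemma ch1823 (hTd : TdOK) : Good 0 ![w254, w95, w34, w253, w181, w93] :=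
  good_of hTd _ _ _ _ _ _ _ x254 x95 x34 x253 x181 x93 go1823
lemma ch1824 (hTd : TdOK) : Good 0 ![w254, w255, w34, w253, w181, w95] :=
  good_of hTd _ _ _ _ _ _ _ x254 x255 x34 x253 x181 x95 go1824
lemma ch1825 (hTd : TdOK) : Good 0 ![w254, w200, w34, w255, w181, w95] :=
  good_of hTd _ _ _ _ _ _ _ x254 x200 x34 x255 x181 x95 go1825
lemma ch1826 (hTd : TdOK) : Good 0 ![w256, w257, w97, w255, w200, w95] :=
  good_of hTd _ _ _ _ _ _ _ x256 x257 x97 x255 x200 x95 go1826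
lemma ch1827 (hTd : TdOK) : Good 0 ![w256, w98, w97, w257, w200, w95] :=
  good_of hTd _ _ _ _ _ _ _ x256 x98 x97 x257 x200 x95 go1827
lemma ch1828 (hTd : TdOK) : Good 0 ![w258, w99, w97, w257, w200, w98] :=
  good_of hTd _ _ _ _ _ _ _ x258 x99 x97 x257 x200 x98 go1828
lemma ch1829 (hTd : TdOK) : Good 0 ![w258, w203, w99, w257, w200, w98] :=
  good_of hTd _ _ _ _ _ _ _ x258 x203 x99 x257 x200 x98 go1829
lemma ch1830 (hTd : TdOK) : Good 0 ![w258, w12, w99, w257, w203, w98] :=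
  good_of hTd _ _ _ _ _ _ _ x258 x12 x99 x257 x203 x98 go1830
lemma ch1831 (hTd : TdOK) : Good 0 ![w256, w258, w97, w257, w200, w98] :=
  good_of hTd _ _ _ _ _ _ _ x256 x258 x97 x257 x200 x98 go1831
lemma ch1832 (hTd : TdOK) : Good 0 ![w256, w257, w34, w255, w200, w97] :=
  good_of hTd _ _ _ _ _ _ _ x256 x257 x34 x255 x200 x97 go1832
lemma ch1833 (hTd : TdOK) : Good 0 ![w256, w47, w201, w257, w200, w97] :=
  good_of hTd _ _ _ _ _ _ _ x256 x47 x201 x257 x200 x97 go1833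
lemma ch1834 (hTd : TdOK) : Good 0 ![w256, w47, w259, w257, w201, w97] :=
  good_of hTd _ _ _ _ _ _ _ x256 x47 x259 x257 x201 x97 go1834
lemma ch1835 (hTd : TdOK) : Good 0 ![w260, w47, w101, w259, w201, w97] :=
  good_of hTd _ _ _ _ _ _ _ x260 x47 x101 x259 x201 x97 go1835
lemma ch1836 (hTd : TdOK) : Good 0 ![w260, w52, w202, w259, w201, w101] :=
  good_of hTd _ _ _ _ _ _ _ x260 x52 x202 x259 x201 x101 go1836
lemma ch1837 (hTd : TdOK) : Good 0 ![w260, w52, w261, w259, w202, w101] :=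
  good_of hTd _ _ _ _ _ _ _ x260 x52 x261 x259 x202 x101 go1837
lemma ch1838 (hTd : TdOK) : Good 0 ![w260, w52, w34, w261, w202, w101] :=
  good_of hTd _ _ _ _ _ _ _ x260 x52 x34 x261 x202 x101 go1838
lemma ch1839 (hTd : TdOK) : Good 0 ![w260, w47, w52, w259, w201, w101] :=
  good_of hTd _ _ _ _ _ _ _ x260 x47 x52 x259 x201 x101 go1839
lemma ch1840 (hTd : TdOK) : Good 0 ![w256, w47, w260, w259, w201, w97] :=
  good_of hTd _ _ _ _ _ _ _ x256 x47 x260 x259 x201 x97 go1840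
lemma ch1841 (hTd : TdOK) : Good 0 ![w258, w99, w47, w257, w200, w97] :=
  good_of hTd _ _ _ _ _ _ _ x258 x99 x47 x257 x200 x97 go1841
lemma ch1842 (hTd : TdOK) : Good 0 ![w258, w203, w47, w257, w200, w99] :=
  good_of hTd _ _ _ _ _ _ _ x258 x203 x47 x257 x200 x99 go1842
lemma ch1843 (hTd : TdOK) : Good 0 ![w258, w262, w263, w257, w203, w99] :=
  good_of hTd _ _ _ _ _ _ _ x258 x262 x263 x257 x203 x99 go1843
lemma ch1844 (hTd : TdOK) : Good 0 ![w258, w262, w47, w263, w203, w99] :=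
  good_of hTd _ _ _ _ _ _ _ x258 x262 x47 x263 x203 x99 go1844
lemma ch1845 (hTd : TdOK) : Good 0 ![w258, w57, w204, w262, w203, w99] :=
  good_of hTd _ _ _ _ _ _ _ x258 x57 x204 x262 x203 x99 go1845
lemma ch1846 (hTd : TdOK) : Good 0 ![w258, w57, w264, w262, w204, w99] :=
  good_of hTd _ _ _ _ _ _ _ x258 x57 x264 x262 x204 x99 go1846
lemma ch1847 (hTd : TdOK) : Good 0 ![w258, w57, w47, w264, w204, w99] :=
  good_of hTd _ _ _ _ _ _ _ x258 x57 x47 x264 x204 x99 go1847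
lemma ch1848 (hTd : TdOK) : Good 0 ![w258, w12, w57, w262, w203, w99] :=
  good_of hTd _ _ _ _ _ _ _ x258 x12 x57 x262 x203 x99 go1848
lemma ch1849 (hTd : TdOK) : Good 0 ![w256, w258, w47, w257, w200, w97] :=
  good_of hTd _ _ _ _ _ _ _ x256 x258 x47 x257 x200 x97 go1849
lemma ch1850 (hTd : TdOK) : Good 0 ![w265, w257, w256, w255, w200, w95] :=
  good_of hTd _ _ _ _ _ _ _ x265 x257 x256 x255 x200 x95 go1850
lemma ch1851 (hTd : TdOK) : Good 0 ![w265, w98, w256, w257, w200, w95] :=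
  good_of hTd _ _ _ _ _ _ _ x265 x98 x256 x257 x200 x95 go1851
lemma ch1852 (hTd : TdOK) : Good 0 ![w265, w258, w256, w257, w200, w98] :=
  good_of hTd _ _ _ _ _ _ _ x265 x258 x256 x257 x200 x98 go1852
lemma ch1853 (hTd : TdOK) : Good 0 ![w265, w12, w258, w257, w200, w98] :=
  good_of hTd _ _ _ _ _ _ _ x265 x12 x258 x257 x200 x98 go1853
lemma ch1854 (hTd : TdOK) : Good 0 ![w254, w265, w256, w255, w200, w95] :=
  good_of hTd _ _ _ _ _ _ _ x254 x265 x256 x255 x200 x95 go1854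
lemma ch1855 (hTd : TdOK) : Good 0 ![w18, w254, w34, w253, w181, w93] :=
  good_of hTd _ _ _ _ _ _ _ x18 x254 x34 x253 x181 x93 go1855
lemma ch1856 (hTd : TdOK) : Good 0 ![w180, w181, w34, w253, w177, w18] :=
  good_of hTd _ _ _ _ _ _ _ x180 x181 x34 x253 x177 x18 go1856
lemma ch1857 (hTd : TdOK) : Good 0 ![w180, w12, w94, w266, w181, w18] :=
  good_of hTd _ _ _ _ _ _ _ x180 x12 x94 x266 x181 x18 go1857
lemma ch1858 (hTd : TdOK) : Good 0 ![w180, w255, w94, w253, w181, w266] :=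
  good_of hTd _ _ _ _ _ _ _ x180 x255 x94 x253 x181 x266 go1858
lemma ch1859 (hTd : TdOK) : Good 0 ![w180, w267, w94, w255, w181, w266] :=
  good_of hTd _ _ _ _ _ _ _ x180 x267 x94 x255 x181 x266 go1859
lemma ch1860 (hTd : TdOK) : Good 0 ![w268, w12, w94, w255, w181, w267] :=
  good_of hTd _ _ _ _ _ _ _ x268 x12 x94 x255 x181 x267 go1860
lemma ch1861 (hTd : TdOK) : Good 0 ![w180, w268, w94, w255, w181, w267] :=
  good_of hTd _ _ _ _ _ _ _ x180 x268 x94 x255 x181 x267 go1861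
lemma ch1862 (hTd : TdOK) : Good 0 ![w180, w255, w34, w253, w181, w94] :=
  good_of hTd _ _ _ _ _ _ _ x180 x255 x34 x253 x181 x94 go1862
lemma ch1863 (hTd : TdOK) : Good 0 ![w205, w200, w34, w255, w181, w94] :=
  good_of hTd _ _ _ _ _ _ _ x205 x200 x34 x255 x181 x94 go1863
lemma ch1864 (hTd : TdOK) : Good 0 ![w205, w96, w104, w255, w200, w94] :=
  good_of hTd _ _ _ _ _ _ _ x205 x96 x104 x255 x200 x94 go1864
lemma ch1865 (hTd : TdOK) : Good 0 ![w205, w96, w269, w255, w200, w104] :=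
  good_of hTd _ _ _ _ _ _ _ x205 x96 x269 x255 x200 x104 go1865
lemma ch1866 (hTd : TdOK) : Good 0 ![w205, w96, w34, w269, w200, w104] :=
  good_of hTd _ _ _ _ _ _ _ x205 x96 x34 x269 x200 x104 go1866
lemma ch1867 (hTd : TdOK) : Good 0 ![w206, w257, w269, w255, w200, w96] :=
  good_of hTd _ _ _ _ _ _ _ x206 x257 x269 x255 x200 x96 go1867
lemma ch1868 (hTd : TdOK) : Good 0 ![w206, w257, w201, w269, w200, w96] :=
  good_of hTd _ _ _ _ _ _ _ x206 x257 x201 x269 x200 x96 go1868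
lemma ch1869 (hTd : TdOK) : Good 0 ![w206, w259, w34, w269, w201, w96] :=
  good_of hTd _ _ _ _ _ _ _ x206 x259 x34 x269 x201 x96 go1869
lemma ch1870 (hTd : TdOK) : Good 0 ![w206, w257, w259, w269, w201, w96] :=
  good_of hTd _ _ _ _ _ _ _ x206 x257 x259 x269 x201 x96 go1870
lemma ch1871 (hTd : TdOK) : Good 0 ![w206, w47, w201, w257, w200, w96] :=
  good_of hTd _ _ _ _ _ _ _ x206 x47 x201 x257 x200 x96 go1871
lemma ch1872 (hTd : TdOK) : Good 0 ![w206, w270, w259, w257, w201, w96] :=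
  good_of hTd _ _ _ _ _ _ _ x206 x270 x259 x257 x201 x96 go1872
lemma ch1873 (hTd : TdOK) : Good 0 ![w206, w47, w259, w257, w201, w270] :=
  good_of hTd _ _ _ _ _ _ _ x206 x47 x259 x257 x201 x270 go1873
lemma ch1874 (hTd : TdOK) : Good 0 ![w206, w47, w100, w259, w201, w96] :=
  good_of hTd _ _ _ _ _ _ _ x206 x47 x100 x259 x201 x96 go1874
lemma ch1875 (hTd : TdOK) : Good 0 ![w207, w52, w202, w259, w201, w100] :=
  good_of hTd _ _ _ _ _ _ _ x207 x52 x202 x259 x201 x100 go1875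
lemma ch1876 (hTd : TdOK) : Good 0 ![w207, w52, w261, w259, w202, w100] :=
  good_of hTd _ _ _ _ _ _ _ x207 x52 x261 x259 x202 x100 go1876
lemma ch1877 (hTd : TdOK) : Good 0 ![w207, w52, w103, w261, w202, w100] :=
  good_of hTd _ _ _ _ _ _ _ x207 x52 x103 x261 x202 x100 go1877
lemma ch1878 (hTd : TdOK) : Good 0 ![w207, w52, w34, w261, w202, w103] :=
  good_of hTd _ _ _ _ _ _ _ x207 x52 x34 x261 x202 x103 go1878
lemma ch1879 (hTd : TdOK) : Good 0 ![w207, w47, w52, w259, w201, w100] :=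
  good_of hTd _ _ _ _ _ _ _ x207 x47 x52 x259 x201 x100 go1879
lemma ch1880 (hTd : TdOK) : Good 0 ![w206, w47, w207, w259, w201, w100] :=
  good_of hTd _ _ _ _ _ _ _ x206 x47 x207 x259 x201 x100 go1880
lemma ch1881 (hTd : TdOK) : Good 0 ![w206, w203, w47, w257, w200, w96] :=
  good_of hTd _ _ _ _ _ _ _ x206 x203 x47 x257 x200 x96 go1881
lemma ch1882 (hTd : TdOK) : Good 0 ![w206, w102, w270, w257, w203, w96] :=
  good_of hTd _ _ _ _ _ _ _ x206 x102 x270 x257 x203 x96 go1882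
lemma ch1883 (hTd : TdOK) : Good 0 ![w206, w102, w263, w257, w203, w270] :=
  good_of hTd _ _ _ _ _ _ _ x206 x102 x263 x257 x203 x270 go1883
lemma ch1884 (hTd : TdOK) : Good 0 ![w206, w102, w47, w263, w203, w270] :=
  good_of hTd _ _ _ _ _ _ _ x206 x102 x47 x263 x203 x270 go1884
lemma ch1885 (hTd : TdOK) : Good 0 ![w208, w262, w263, w257, w203, w102] :=
  good_of hTd _ _ _ _ _ _ _ x208 x262 x263 x257 x203 x102 go1885
lemma ch1886 (hTd : TdOK) : Good 0 ![w208, w262, w204, w263, w203, w102] :=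
  good_of hTd _ _ _ _ _ _ _ x208 x262 x204 x263 x203 x102 go1886
lemma ch1887 (hTd : TdOK) : Good 0 ![w208, w262, w47, w263, w204, w102] :=
  good_of hTd _ _ _ _ _ _ _ x208 x262 x47 x263 x204 x102 go1887
lemma ch1888 (hTd : TdOK) : Good 0 ![w208, w57, w204, w262, w203, w102] :=
  good_of hTd _ _ _ _ _ _ _ x208 x57 x204 x262 x203 x102 go1888
lemma ch1889 (hTd : TdOK) : Good 0 ![w208, w271, w264, w262, w204, w102] :=
  good_of hTd _ _ _ _ _ _ _ x208 x271 x264 x262 x204 x102 go1889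
lemma ch1890 (hTd : TdOK) : Good 0 ![w272, w273, w264, w262, w204, w271] :=
  good_of hTd _ _ _ _ _ _ _ x272 x273 x264 x262 x204 x271 go1890
lemma ch1891 (hTd : TdOK) : Good 0 ![w272, w57, w264, w273, w204, w271] :=
  good_of hTd _ _ _ _ _ _ _ x272 x57 x264 x273 x204 x271 go1891
lemma ch1892 (hTd : TdOK) : Good 0 ![w208, w272, w264, w262, w204, w271] :=
  good_of hTd _ _ _ _ _ _ _ x208 x272 x264 x262 x204 x271 go1892
lemma ch1893 (hTd : TdOK) : Good 0 ![w208, w57, w105, w264, w204, w102] :=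
  good_of hTd _ _ _ _ _ _ _ x208 x57 x105 x264 x204 x102 go1893
lemma ch1894 (hTd : TdOK) : Good 0 ![w208, w57, w47, w264, w204, w105] :=
  good_of hTd _ _ _ _ _ _ _ x208 x57 x47 x264 x204 x105 go1894
lemma ch1895 (hTd : TdOK) : Good 0 ![w208, w12, w57, w262, w203, w102] :=
  good_of hTd _ _ _ _ _ _ _ x208 x12 x57 x262 x203 x102 go1895
lemma ch1896 (hTd : TdOK) : Good 0 ![w274, w208, w47, w257, w203, w102] :=
  good_of hTd _ _ _ _ _ _ _ x274 x208 x47 x257 x203 x102 go1896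
lemma ch1897 (hTd : TdOK) : Good 0 ![w206, w208, w274, w257, w203, w102] :=
  good_of hTd _ _ _ _ _ _ _ x206 x208 x274 x257 x203 x102 go1897
lemma ch1898 (hTd : TdOK) : Good 0 ![w205, w206, w269, w255, w200, w96] :=
  good_of hTd _ _ _ _ _ _ _ x205 x206 x269 x255 x200 x96 go1898
lemma ch1899 (hTd : TdOK) : Good 0 ![w205, w206, w201, w269, w200, w96] :=
  good_of hTd _ _ _ _ _ _ _ x205 x206 x201 x269 x200 x96 go1899
lemma ch1900 (hTd : TdOK) : Good 0 ![w209, w206, w34, w269, w201, w96] :=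
  good_of hTd _ _ _ _ _ _ _ x209 x206 x34 x269 x201 x96 go1900
lemma ch1901 (hTd : TdOK) : Good 0 ![w205, w206, w209, w269, w201, w96] :=
  good_of hTd _ _ _ _ _ _ _ x205 x206 x209 x269 x201 x96 go1901
lemma ch1902 (hTd : TdOK) : Good 0 ![w268, w200, w205, w255, w181, w94] :=
  good_of hTd _ _ _ _ _ _ _ x268 x200 x205 x255 x181 x94 go1902
lemma ch1903 (hTd : TdOK) : Good 0 ![w268, w96, w205, w255, w200, w94] :=
  good_of hTd _ _ _ _ _ _ _ x268 x96 x205 x255 x200 x94 go1903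
lemma ch1904 (hTd : TdOK) : Good 0 ![w268, w206, w205, w255, w200, w96] :=
  good_of hTd _ _ _ _ _ _ _ x268 x206 x205 x255 x200 x96 go1904
lemma ch1905 (hTd : TdOK) : Good 0 ![w275, w12, w206, w255, w200, w96] :=
  good_of hTd _ _ _ _ _ _ _ x275 x12 x206 x255 x200 x96 go1905
lemma ch1906 (hTd : TdOK) : Good 0 ![w268, w12, w206, w275, w200, w96] :=
  good_of hTd _ _ _ _ _ _ _ x268 x12 x206 x275 x200 x96 go1906
lemma ch1907 (hTd : TdOK) : Good 0 ![w180, w268, w205, w255, w181, w94] :=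
  good_of hTd _ _ _ _ _ _ _ x180 x268 x205 x255 x181 x94 go1907
lemma ch1908 (hTd : TdOK) : Good 0 ![w276, w12, w94, w266, w180, w18] :=
  good_of hTd _ _ _ _ _ _ _ x276 x12 x94 x266 x180 x18 go1908
lemma ch1909 (hTd : TdOK) : Good 0 ![w276, w12, w205, w266, w180, w94] :=
  good_of hTd _ _ _ _ _ _ _ x276 x12 x205 x266 x180 x94 go1909
lemma ch1910 (hTd : TdOK) : Good 0 ![w276, w267, w34, w266, w205, w94] :=
  good_of hTd _ _ _ _ _ _ _ x276 x267 x34 x266 x205 x94 go1910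
lemma ch1911 (hTd : TdOK) : Good 0 ![w277, w96, w34, w267, w205, w94] :=
  good_of hTd _ _ _ _ _ _ _ x277 x96 x34 x267 x205 x94 go1911
lemma ch1912 (hTd : TdOK) : Good 0 ![w277, w206, w34, w267, w205, w96] :=
  good_of hTd _ _ _ _ _ _ _ x277 x206 x34 x267 x205 x96 go1912
lemma ch1913 (hTd : TdOK) : Good 0 ![w277, w12, w278, w267, w206, w96] :=
  good_of hTd _ _ _ _ _ _ _ x277 x12 x278 x267 x206 x96 go1913
lemma ch1914 (hTd : TdOK) : Good 0 ![w279, w47, w100, w278, w206, w96] :=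
  good_of hTd _ _ _ _ _ _ _ x279 x47 x100 x278 x206 x96 go1914
lemma ch1915 (hTd : TdOK) : Good 0 ![w279, w47, w207, w278, w206, w100] :=
  good_of hTd _ _ _ _ _ _ _ x279 x47 x207 x278 x206 x100 go1915
lemma ch1916 (hTd : TdOK) : Good 0 ![w280, w47, w281, w278, w207, w100] :=
  good_of hTd _ _ _ _ _ _ _ x280 x47 x281 x278 x207 x100 go1916
lemma ch1917 (hTd : TdOK) : Good 0 ![w280, w52, w103, w281, w207, w100] :=
  good_of hTd _ _ _ _ _ _ _ x280 x52 x103 x281 x207 x100 go1917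
lemma ch1918 (hTd : TdOK) : Good 0 ![w280, w52, w212, w281, w207, w103] :=
  good_of hTd _ _ _ _ _ _ _ x280 x52 x212 x281 x207 x103 go1918
lemma ch1919 (hTd : TdOK) : Good 0 ![w280, w52, w34, w281, w212, w103] :=
  good_of hTd _ _ _ _ _ _ _ x280 x52 x34 x281 x212 x103 go1919
lemma ch1920 (hTd : TdOK) : Good 0 ![w280, w47, w52, w281, w207, w100] :=
  good_of hTd _ _ _ _ _ _ _ x280 x47 x52 x281 x207 x100 go1920
lemma ch1921 (hTd : TdOK) : Good 0 ![w279, w47, w280, w278, w207, w100] :=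
  good_of hTd _ _ _ _ _ _ _ x279 x47 x280 x278 x207 x100 go1921
lemma ch1922 (hTd : TdOK) : Good 0 ![w279, w282, w47, w278, w206, w96] :=
  good_of hTd _ _ _ _ _ _ _ x279 x282 x47 x278 x206 x96 go1922
lemma ch1923 (hTd : TdOK) : Good 0 ![w279, w102, w47, w282, w206, w96] :=
  good_of hTd _ _ _ _ _ _ _ x279 x102 x47 x282 x206 x96 go1923
lemma ch1924 (hTd : TdOK) : Good 0 ![w279, w208, w47, w282, w206, w102] :=
  good_of hTd _ _ _ _ _ _ _ x279 x208 x47 x282 x206 x102 go1924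
lemma ch1925 (hTd : TdOK) : Good 0 ![w283, w57, w47, w282, w208, w102] :=
  good_of hTd _ _ _ _ _ _ _ x283 x57 x47 x282 x208 x102 go1925
lemma ch1926 (hTd : TdOK) : Good 0 ![w283, w12, w57, w282, w208, w102] :=
  good_of hTd _ _ _ _ _ _ _ x283 x12 x57 x282 x208 x102 go1926
lemma ch1927 (hTd : TdOK) : Good 0 ![w279, w283, w47, w282, w208, w102] :=
  good_of hTd _ _ _ _ _ _ _ x279 x283 x47 x282 x208 x102 go1927
lemma ch1928 (hTd : TdOK) : Good 0 ![w277, w279, w100, w278, w206, w96] :=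
  good_of hTd _ _ _ _ _ _ _ x277 x279 x100 x278 x206 x96 go1928
lemma ch1929 (hTd : TdOK) : Good 0 ![w284, w279, w207, w278, w206, w100] :=
  good_of hTd _ _ _ _ _ _ _ x284 x279 x207 x278 x206 x100 go1929
lemma ch1930 (hTd : TdOK) : Good 0 ![w284, w280, w281, w278, w207, w100] :=
  good_of hTd _ _ _ _ _ _ _ x284 x280 x281 x278 x207 x100 go1930
lemma ch1931 (hTd : TdOK) : Good 0 ![w284, w280, w103, w281, w207, w100] :=
  good_of hTd _ _ _ _ _ _ _ x284 x280 x103 x281 x207 x100 go1931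
lemma ch1932 (hTd : TdOK) : Good 0 ![w284, w280, w34, w281, w207, w103] :=
  good_of hTd _ _ _ _ _ _ _ x284 x280 x34 x281 x207 x103 go1932
lemma ch1933 (hTd : TdOK) : Good 0 ![w284, w279, w280, w278, w207, w100] :=
  good_of hTd _ _ _ _ _ _ _ x284 x279 x280 x278 x207 x100 go1933
lemma ch1934 (hTd : TdOK) : Good 0 ![w277, w279, w284, w278, w206, w100] :=
  good_of hTd _ _ _ _ _ _ _ x277 x279 x284 x278 x206 x100 go1934
lemma ch1935 (hTd : TdOK) : Good 0 ![w276, w12, w277, w267, w205, w94] :=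
  good_of hTd _ _ _ _ _ _ _ x276 x12 x277 x267 x205 x94 go1935
lemma ch1936 (hTd : TdOK) : Good 0 ![w276, w255, w34, w253, w180, w266] :=
  good_of hTd _ _ _ _ _ _ _ x276 x255 x34 x253 x180 x266 go1936
lemma ch1937 (hTd : TdOK) : Good 0 ![w276, w12, w205, w255, w180, w266] :=
  good_of hTd _ _ _ _ _ _ _ x276 x12 x205 x255 x180 x266 go1937
lemma ch1938 (hTd : TdOK) : Good 0 ![w276, w267, w34, w255, w205, w266] :=
  good_of hTd _ _ _ _ _ _ _ x276 x267 x34 x255 x205 x266 go1938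
lemma ch1939 (hTd : TdOK) : Good 0 ![w277, w206, w278, w255, w205, w267] :=
  good_of hTd _ _ _ _ _ _ _ x277 x206 x278 x255 x205 x267 go1939
lemma ch1940 (hTd : TdOK) : Good 0 ![w277, w206, w269, w255, w205, w278] :=
  good_of hTd _ _ _ _ _ _ _ x277 x206 x269 x255 x205 x278 go1940
lemma ch1941 (hTd : TdOK) : Good 0 ![w277, w206, w209, w269, w205, w278] :=
  good_of hTd _ _ _ _ _ _ _ x277 x206 x209 x269 x205 x278 go1941
lemma ch1942 (hTd : TdOK) : Good 0 ![w284, w207, w34, w269, w209, w278] :=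
  good_of hTd _ _ _ _ _ _ _ x284 x207 x34 x269 x209 x278 go1942
lemma ch1943 (hTd : TdOK) : Good 0 ![w284, w206, w207, w269, w209, w278] :=
  good_of hTd _ _ _ _ _ _ _ x284 x206 x207 x269 x209 x278 go1943
lemma ch1944 (hTd : TdOK) : Good 0 ![w277, w206, w284, w269, w209, w278] :=
  good_of hTd _ _ _ _ _ _ _ x277 x206 x284 x269 x209 x278 go1944
lemma ch1945 (hTd : TdOK) : Good 0 ![w277, w257, w278, w255, w206, w267] :=
  good_of hTd _ _ _ _ _ _ _ x277 x257 x278 x255 x206 x267 go1945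
lemma ch1946 (hTd : TdOK) : Good 0 ![w277, w257, w269, w255, w206, w278] :=
  good_of hTd _ _ _ _ _ _ _ x277 x257 x269 x255 x206 x278 go1946
lemma ch1947 (hTd : TdOK) : Good 0 ![w284, w259, w207, w269, w206, w278] :=
  good_of hTd _ _ _ _ _ _ _ x284 x259 x207 x269 x206 x278 go1947
lemma ch1948 (hTd : TdOK) : Good 0 ![w284, w259, w34, w269, w207, w278] :=
  good_of hTd _ _ _ _ _ _ _ x284 x259 x34 x269 x207 x278 go1948
lemma ch1949 (hTd : TdOK) : Good 0 ![w277, w259, w284, w269, w206, w278] :=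
  good_of hTd _ _ _ _ _ _ _ x277 x259 x284 x269 x206 x278 go1949
lemma ch1950 (hTd : TdOK) : Good 0 ![w277, w257, w259, w269, w206, w278] :=
  good_of hTd _ _ _ _ _ _ _ x277 x257 x259 x269 x206 x278 go1950
lemma ch1951 (hTd : TdOK) : Good 0 ![w279, w285, w278, w257, w206, w267] :=
  good_of hTd _ _ _ _ _ _ _ x279 x285 x278 x257 x206 x267 go1951
lemma ch1952 (hTd : TdOK) : Good 0 ![w279, w282, w278, w257, w206, w285] :=
  good_of hTd _ _ _ _ _ _ _ x279 x282 x278 x257 x206 x285 go1952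
lemma ch1953 (hTd : TdOK) : Good 0 ![w279, w208, w282, w257, w206, w285] :=
  good_of hTd _ _ _ _ _ _ _ x279 x208 x282 x257 x206 x285 go1953
lemma ch1954 (hTd : TdOK) : Good 0 ![w279, w12, w282, w257, w208, w285] :=
  good_of hTd _ _ _ _ _ _ _ x279 x12 x282 x257 x208 x285 go1954
lemma ch1955 (hTd : TdOK) : Good 0 ![w277, w279, w278, w257, w206, w267] :=
  good_of hTd _ _ _ _ _ _ _ x277 x279 x278 x257 x206 x267 go1955
lemma ch1956 (hTd : TdOK) : Good 0 ![w279, w263, w259, w257, w206, w278] :=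
  good_of hTd _ _ _ _ _ _ _ x279 x263 x259 x257 x206 x278 go1956
lemma ch1957 (hTd : TdOK) : Good 0 ![w279, w47, w259, w263, w206, w278] :=
  good_of hTd _ _ _ _ _ _ _ x279 x47 x259 x263 x206 x278 go1957
lemma ch1958 (hTd : TdOK) : Good 0 ![w279, w47, w207, w259, w206, w278] :=
  good_of hTd _ _ _ _ _ _ _ x279 x47 x207 x259 x206 x278 go1958
lemma ch1959 (hTd : TdOK) : Good 0 ![w280, w47, w281, w259, w207, w278] :=
  good_of hTd _ _ _ _ _ _ _ x280 x47 x281 x259 x207 x278 go1959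
lemma ch1960 (hTd : TdOK) : Good 0 ![w280, w52, w261, w259, w207, w281] :=
  good_of hTd _ _ _ _ _ _ _ x280 x52 x261 x259 x207 x281 go1960
lemma ch1961 (hTd : TdOK) : Good 0 ![w280, w52, w212, w261, w207, w281] :=
  good_of hTd _ _ _ _ _ _ _ x280 x52 x212 x261 x207 x281 go1961
lemma ch1962 (hTd : TdOK) : Good 0 ![w280, w52, w34, w261, w212, w281] :=
  good_of hTd _ _ _ _ _ _ _ x280 x52 x34 x261 x212 x281 go1962
lemma ch1963 (hTd : TdOK) : Good 0 ![w280, w47, w52, w259, w207, w281] :=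
  good_of hTd _ _ _ _ _ _ _ x280 x47 x52 x259 x207 x281 go1963
lemma ch1964 (hTd : TdOK) : Good 0 ![w279, w47, w280, w259, w207, w278] :=
  good_of hTd _ _ _ _ _ _ _ x279 x47 x280 x259 x207 x278 go1964
lemma ch1965 (hTd : TdOK) : Good 0 ![w279, w282, w47, w257, w206, w278] :=
  good_of hTd _ _ _ _ _ _ _ x279 x282 x47 x257 x206 x278 go1965
lemma ch1966 (hTd : TdOK) : Good 0 ![w279, w208, w47, w257, w206, w282] :=
  good_of hTd _ _ _ _ _ _ _ x279 x208 x47 x257 x206 x282 go1966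
lemma ch1967 (hTd : TdOK) : Good 0 ![w283, w262, w263, w257, w208, w282] :=
  good_of hTd _ _ _ _ _ _ _ x283 x262 x263 x257 x208 x282 go1967
lemma ch1968 (hTd : TdOK) : Good 0 ![w283, w262, w47, w263, w208, w282] :=
  good_of hTd _ _ _ _ _ _ _ x283 x262 x47 x263 x208 x282 go1968
lemma ch1969 (hTd : TdOK) : Good 0 ![w283, w57, w286, w262, w208, w282] :=
  good_of hTd _ _ _ _ _ _ _ x283 x57 x286 x262 x208 x282 go1969
lemma ch1970 (hTd : TdOK) : Good 0 ![w283, w273, w264, w262, w286, w282] :=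
  good_of hTd _ _ _ _ _ _ _ x283 x273 x264 x262 x286 x282 go1970
lemma ch1971 (hTd : TdOK) : Good 0 ![w283, w57, w264, w273, w286, w282] :=
  good_of hTd _ _ _ _ _ _ _ x283 x57 x264 x273 x286 x282 go1971
lemma ch1972 (hTd : TdOK) : Good 0 ![w283, w57, w47, w264, w208, w282] :=
  good_of hTd _ _ _ _ _ _ _ x283 x57 x47 x264 x208 x282 go1972
lemma ch1973 (hTd : TdOK) : Good 0 ![w283, w12, w57, w262, w208, w282] :=
  good_of hTd _ _ _ _ _ _ _ x283 x12 x57 x262 x208 x282 go1973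
lemma ch1974 (hTd : TdOK) : Good 0 ![w279, w283, w47, w257, w208, w282] :=
  good_of hTd _ _ _ _ _ _ _ x279 x283 x47 x257 x208 x282 go1974
lemma ch1975 (hTd : TdOK) : Good 0 ![w277, w279, w259, w257, w206, w278] :=
  good_of hTd _ _ _ _ _ _ _ x277 x279 x259 x257 x206 x278 go1975
lemma ch1976 (hTd : TdOK) : Good 0 ![w284, w279, w207, w259, w206, w278] :=
  good_of hTd _ _ _ _ _ _ _ x284 x279 x207 x259 x206 x278 go1976
lemma ch1977 (hTd : TdOK) : Good 0 ![w284, w280, w281, w259, w207, w278] :=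
  good_of hTd _ _ _ _ _ _ _ x284 x280 x281 x259 x207 x278 go1977
lemma ch1978 (hTd : TdOK) : Good 0 ![w284, w280, w261, w259, w207, w281] :=
  good_of hTd _ _ _ _ _ _ _ x284 x280 x261 x259 x207 x281 go1978
lemma ch1979 (hTd : TdOK) : Good 0 ![w284, w280, w212, w261, w207, w281] :=
  good_of hTd _ _ _ _ _ _ _ x284 x280 x212 x261 x207 x281 go1979
lemma ch1980 (hTd : TdOK) : Good 0 ![w284, w280, w34, w261, w212, w281] :=
  good_of hTd _ _ _ _ _ _ _ x284 x280 x34 x261 x212 x281 go1980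
lemma ch1981 (hTd : TdOK) : Good 0 ![w284, w279, w280, w259, w207, w278] :=
  good_of hTd _ _ _ _ _ _ _ x284 x279 x280 x259 x207 x278 go1981
lemma ch1982 (hTd : TdOK) : Good 0 ![w277, w279, w284, w259, w206, w278] :=
  good_of hTd _ _ _ _ _ _ _ x277 x279 x284 x259 x206 x278 go1982
lemma ch1983 (hTd : TdOK) : Good 0 ![w276, w12, w277, w255, w205, w267] :=
  good_of hTd _ _ _ _ _ _ _ x276 x12 x277 x255 x205 x267 go1983
lemma ch1984 (hTd : TdOK) : Good 0 ![w83, w12, w94, w276, w180, w18] :=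
  good_of hTd _ _ _ _ _ _ _ x83 x12 x94 x276 x180 x18 go1984
lemma ch1985 (hTd : TdOK) : Good 0 ![w83, w12, w205, w276, w180, w94] :=
  good_of hTd _ _ _ _ _ _ _ x83 x12 x205 x276 x180 x94 go1985
lemma ch1986 (hTd : TdOK) : Good 0 ![w83, w12, w277, w276, w205, w94] :=
  good_of hTd _ _ _ _ _ _ _ x83 x12 x277 x276 x205 x94 go1986
lemma ch1987 (hTd : TdOK) : Good 0 ![w84, w96, w104, w277, w205, w94] :=
  good_of hTd _ _ _ _ _ _ _ x84 x96 x104 x277 x205 x94 go1987
lemma ch1988 (hTd : TdOK) : Good 0 ![w84, w96, w209, w277, w205, w104] :=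
  good_of hTd _ _ _ _ _ _ _ x84 x96 x209 x277 x205 x104 go1988
lemma ch1989 (hTd : TdOK) : Good 0 ![w84, w100, w34, w277, w209, w104] :=
  good_of hTd _ _ _ _ _ _ _ x84 x100 x34 x277 x209 x104 go1989
lemma ch1990 (hTd : TdOK) : Good 0 ![w84, w96, w100, w277, w209, w104] :=
  good_of hTd _ _ _ _ _ _ _ x84 x96 x100 x277 x209 x104 go1990
lemma ch1991 (hTd : TdOK) : Good 0 ![w84, w206, w209, w277, w205, w96] :=
  good_of hTd _ _ _ _ _ _ _ x84 x206 x209 x277 x205 x96 go1991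
lemma ch1992 (hTd : TdOK) : Good 0 ![w84, w206, w100, w277, w209, w96] :=
  good_of hTd _ _ _ _ _ _ _ x84 x206 x100 x277 x209 x96 go1992
lemma ch1993 (hTd : TdOK) : Good 0 ![w84, w207, w284, w277, w209, w100] :=
  good_of hTd _ _ _ _ _ _ _ x84 x207 x284 x277 x209 x100 go1993
lemma ch1994 (hTd : TdOK) : Good 0 ![w87, w207, w211, w284, w209, w100] :=
  good_of hTd _ _ _ _ _ _ _ x87 x207 x211 x284 x209 x100 go1994
lemma ch1995 (hTd : TdOK) : Good 0 ![w87, w207, w34, w284, w211, w100] :=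
  good_of hTd _ _ _ _ _ _ _ x87 x207 x34 x284 x211 x100 go1995
lemma ch1996 (hTd : TdOK) : Good 0 ![w84, w207, w87, w284, w209, w100] :=
  good_of hTd _ _ _ _ _ _ _ x84 x207 x87 x284 x209 x100 go1996
lemma ch1997 (hTd : TdOK) : Good 0 ![w84, w206, w207, w277, w209, w100] :=
  good_of hTd _ _ _ _ _ _ _ x84 x206 x207 x277 x209 x100 go1997
lemma ch1998 (hTd : TdOK) : Good 0 ![w84, w47, w100, w277, w206, w96] :=
  good_of hTd _ _ _ _ _ _ _ x84 x47 x100 x277 x206 x96 go1998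
lemma ch1999 (hTd : TdOK) : Good 0 ![w84, w47, w284, w277, w206, w100] :=
  good_of hTd _ _ _ _ _ _ _ x84 x47 x284 x277 x206 x100 go1999
lemma ch2000 (hTd : TdOK) : Good 0 ![w84, w47, w207, w284, w206, w100] :=
  good_of hTd _ _ _ _ _ _ _ x84 x47 x207 x284 x206 x100 go2000
lemma ch2001 (hTd : TdOK) : Good 0 ![w87, w52, w103, w284, w207, w100] :=
  good_of hTd _ _ _ _ _ _ _ x87 x52 x103 x284 x207 x100 go2001
lemma ch2002 (hTd : TdOK) : Good 0 ![w87, w52, w212, w284, w207, w103] :=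
  good_of hTd _ _ _ _ _ _ _ x87 x52 x212 x284 x207 x103 go2002
lemma ch2003 (hTd : TdOK) : Good 0 ![w87, w52, w34, w284, w212, w103] :=
  good_of hTd _ _ _ _ _ _ _ x87 x52 x34 x284 x212 x103 go2003
lemma ch2004 (hTd : TdOK) : Good 0 ![w87, w280, w52, w284, w207, w100] :=
  good_of hTd _ _ _ _ _ _ _ x87 x280 x52 x284 x207 x100 go2004
lemma ch2005 (hTd : TdOK) : Good 0 ![w87, w47, w52, w280, w207, w100] :=
  good_of hTd _ _ _ _ _ _ _ x87 x47 x52 x280 x207 x100 go2005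
lemma ch2006 (hTd : TdOK) : Good 0 ![w84, w47, w87, w284, w207, w100] :=
  good_of hTd _ _ _ _ _ _ _ x84 x47 x87 x284 x207 x100 go2006
lemma ch2007 (hTd : TdOK) : Good 0 ![w84, w279, w47, w277, w206, w96] :=
  good_of hTd _ _ _ _ _ _ _ x84 x279 x47 x277 x206 x96 go2007
lemma ch2008 (hTd : TdOK) : Good 0 ![w90, w102, w47, w279, w206, w96] :=
  good_of hTd _ _ _ _ _ _ _ x90 x102 x47 x279 x206 x96 go2008
lemma ch2009 (hTd : TdOK) : Good 0 ![w90, w208, w47, w279, w206, w102] :=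
  good_of hTd _ _ _ _ _ _ _ x90 x208 x47 x279 x206 x102 go2009
lemma ch2010 (hTd : TdOK) : Good 0 ![w90, w283, w47, w279, w208, w102] :=
  good_of hTd _ _ _ _ _ _ _ x90 x283 x47 x279 x208 x102 go2010
lemma ch2011 (hTd : TdOK) : Good 0 ![w91, w57, w105, w283, w208, w102] :=
  good_of hTd _ _ _ _ _ _ _ x91 x57 x105 x283 x208 x102 go2011
lemma ch2012 (hTd : TdOK) : Good 0 ![w91, w57, w287, w283, w208, w105] :=
  good_of hTd _ _ _ _ _ _ _ x91 x57 x287 x283 x208 x105 go2012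
lemma ch2013 (hTd : TdOK) : Good 0 ![w91, w57, w47, w283, w287, w105] :=
  good_of hTd _ _ _ _ _ _ _ x91 x57 x47 x283 x287 x105 go2013
lemma ch2014 (hTd : TdOK) : Good 0 ![w91, w12, w57, w283, w208, w102] :=
  good_of hTd _ _ _ _ _ _ _ x91 x12 x57 x283 x208 x102 go2014
lemma ch2015 (hTd : TdOK) : Good 0 ![w90, w91, w47, w283, w208, w102] :=
  good_of hTd _ _ _ _ _ _ _ x90 x91 x47 x283 x208 x102 go2015
lemma ch2016 (hTd : TdOK) : Good 0 ![w84, w90, w47, w279, w206, w96] :=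
  good_of hTd _ _ _ _ _ _ _ x84 x90 x47 x279 x206 x96 go2016
lemma ch2017 (hTd : TdOK) : Good 0 ![w83, w12, w84, w277, w205, w94] :=
  good_of hTd _ _ _ _ _ _ _ x83 x12 x84 x277 x205 x94 go2017
lemma ch2018 (hTd : TdOK) : Good 0 ![w0, w12, w83, w276, w180, w18] :=
  good_of hTd _ _ _ _ _ _ _ x0 x12 x83 x276 x180 x18 go2018
lemma ch2019 (hTd : TdOK) : Good 0 ![w13, w138, w34, w213, w25, w5] :=
  good_of hTd _ _ _ _ _ _ _ x13 x138 x34 x213 x25 x5 go2019
lemma ch2020 (hTd : TdOK) : Good 0 ![w13, w35, w34, w213, w138, w5] :=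
  good_of hTd _ _ _ _ _ _ _ x13 x35 x34 x213 x138 x5 go2020
lemma ch2021 (hTd : TdOK) : Good 0 ![w214, w215, w34, w213, w138, w35] :=
  good_of hTd _ _ _ _ _ _ _ x214 x215 x34 x213 x138 x35 go2021
lemma ch2022 (hTd : TdOK) : Good 0 ![w216, w139, w34, w215, w138, w35] :=
  good_of hTd _ _ _ _ _ _ _ x216 x139 x34 x215 x138 x35 go2022
lemma ch2023 (hTd : TdOK) : Good 0 ![w216, w40, w34, w215, w139, w35] :=
  good_of hTd _ _ _ _ _ _ _ x216 x40 x34 x215 x139 x35 go2023
lemma ch2024 (hTd : TdOK) : Good 0 ![w216, w217, w34, w215, w139, w40] :=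
  good_of hTd _ _ _ _ _ _ _ x216 x217 x34 x215 x139 x40 go2024
lemma ch2025 (hTd : TdOK) : Good 0 ![w218, w47, w44, w217, w139, w40] :=
  good_of hTd _ _ _ _ _ _ _ x218 x47 x44 x217 x139 x40 go2025
lemma ch2026 (hTd : TdOK) : Good 0 ![w218, w47, w140, w217, w139, w44] :=
  good_of hTd _ _ _ _ _ _ _ x218 x47 x140 x217 x139 x44 go2026
lemma ch2027 (hTd : TdOK) : Good 0 ![w218, w47, w219, w217, w140, w44] :=
  good_of hTd _ _ _ _ _ _ _ x218 x47 x219 x217 x140 x44 go2027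
lemma ch2028 (hTd : TdOK) : Good 0 ![w218, w47, w50, w219, w140, w44] :=
  good_of hTd _ _ _ _ _ _ _ x218 x47 x50 x219 x140 x44 go2028
lemma ch2029 (hTd : TdOK) : Good 0 ![w220, w52, w141, w219, w140, w50] :=
  good_of hTd _ _ _ _ _ _ _ x220 x52 x141 x219 x140 x50 go2029
lemma ch2030 (hTd : TdOK) : Good 0 ![w220, w52, w34, w219, w141, w50] :=
  good_of hTd _ _ _ _ _ _ _ x220 x52 x34 x219 x141 x50 go2030
lemma ch2031 (hTd : TdOK) : Good 0 ![w218, w52, w220, w219, w140, w50] :=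
  good_of hTd _ _ _ _ _ _ _ x218 x52 x220 x219 x140 x50 go2031
lemma ch2032 (hTd : TdOK) : Good 0 ![w221, w47, w52, w219, w140, w50] :=
  good_of hTd _ _ _ _ _ _ _ x221 x47 x52 x219 x140 x50 go2032
lemma ch2033 (hTd : TdOK) : Good 0 ![w218, w221, w52, w219, w140, w50] :=
  good_of hTd _ _ _ _ _ _ _ x218 x221 x52 x219 x140 x50 go2033
lemma ch2034 (hTd : TdOK) : Good 0 ![w216, w47, w218, w217, w139, w40] :=
  good_of hTd _ _ _ _ _ _ _ x216 x47 x218 x217 x139 x40 go2034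
lemma ch2035 (hTd : TdOK) : Good 0 ![w222, w43, w47, w217, w139, w40] :=
  good_of hTd _ _ _ _ _ _ _ x222 x43 x47 x217 x139 x40 go2035
lemma ch2036 (hTd : TdOK) : Good 0 ![w222, w142, w47, w217, w139, w43] :=
  good_of hTd _ _ _ _ _ _ _ x222 x142 x47 x217 x139 x43 go2036
lemma ch2037 (hTd : TdOK) : Good 0 ![w223, w224, w225, w217, w142, w43] :=
  good_of hTd _ _ _ _ _ _ _ x223 x224 x225 x217 x142 x43 go2037
lemma ch2038 (hTd : TdOK) : Good 0 ![w223, w224, w47, w225, w142, w43] :=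
  good_of hTd _ _ _ _ _ _ _ x223 x224 x47 x225 x142 x43 go2038
lemma ch2039 (hTd : TdOK) : Good 0 ![w222, w224, w223, w217, w142, w43] :=
  good_of hTd _ _ _ _ _ _ _ x222 x224 x223 x217 x142 x43 go2039
lemma ch2040 (hTd : TdOK) : Good 0 ![w223, w12, w45, w224, w142, w43] :=
  good_of hTd _ _ _ _ _ _ _ x223 x12 x45 x224 x142 x43 go2040
lemma ch2041 (hTd : TdOK) : Good 0 ![w223, w57, w143, w224, w142, w45] :=
  good_of hTd _ _ _ _ _ _ _ x223 x57 x143 x224 x142 x45 go2041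
lemma ch2042 (hTd : TdOK) : Good 0 ![w223, w57, w226, w224, w143, w45] :=
  good_of hTd _ _ _ _ _ _ _ x223 x57 x226 x224 x143 x45 go2042
lemma ch2043 (hTd : TdOK) : Good 0 ![w223, w57, w47, w226, w143, w45] :=
  good_of hTd _ _ _ _ _ _ _ x223 x57 x47 x226 x143 x45 go2043
lemma ch2044 (hTd : TdOK) : Good 0 ![w227, w12, w57, w224, w142, w45] :=
  good_of hTd _ _ _ _ _ _ _ x227 x12 x57 x224 x142 x45 go2044
lemma ch2045 (hTd : TdOK) : Good 0 ![w223, w227, w288, w224, w142, w45] :=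
  good_of hTd _ _ _ _ _ _ _ x223 x227 x288 x224 x142 x45 go2045
lemma ch2046 (hTd : TdOK) : Good 0 ![w223, w227, w57, w229, w288, w45] :=
  good_of hTd _ _ _ _ _ _ _ x223 x227 x57 x229 x288 x45 go2046
lemma ch2047 (hTd : TdOK) : Good 0 ![w223, w227, w57, w224, w288, w229] :=
  good_of hTd _ _ _ _ _ _ _ x223 x227 x57 x224 x288 x229 go2047
lemma ch2048 (hTd : TdOK) : Good 0 ![w230, w12, w223, w224, w142, w43] :=
  good_of hTd _ _ _ _ _ _ _ x230 x12 x223 x224 x142 x43 go2048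
lemma ch2049 (hTd : TdOK) : Good 0 ![w222, w230, w223, w224, w142, w43] :=
  good_of hTd _ _ _ _ _ _ _ x222 x230 x223 x224 x142 x43 go2049
lemma ch2050 (hTd : TdOK) : Good 0 ![w216, w222, w47, w217, w139, w40] :=
  good_of hTd _ _ _ _ _ _ _ x216 x222 x47 x217 x139 x40 go2050
lemma ch2051 (hTd : TdOK) : Good 0 ![w214, w216, w34, w215, w138, w35] :=
  good_of hTd _ _ _ _ _ _ _ x214 x216 x34 x215 x138 x35 go2051
lemma ch2052 (hTd : TdOK) : Good 0 ![w58, w216, w34, w214, w138, w35] :=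
  good_of hTd _ _ _ _ _ _ _ x58 x216 x34 x214 x138 x35 go2052
lemma ch2053 (hTd : TdOK) : Good 0 ![w58, w139, w34, w216, w138, w35] :=
  good_of hTd _ _ _ _ _ _ _ x58 x139 x34 x216 x138 x35 go2053
lemma ch2054 (hTd : TdOK) : Good 0 ![w58, w40, w34, w216, w139, w35] :=
  good_of hTd _ _ _ _ _ _ _ x58 x40 x34 x216 x139 x35 go2054
lemma ch2055 (hTd : TdOK) : Good 0 ![w60, w47, w218, w216, w139, w40] :=
  good_of hTd _ _ _ _ _ _ _ x60 x47 x218 x216 x139 x40 go2055
lemma ch2056 (hTd : TdOK) : Good 0 ![w60, w47, w44, w218, w139, w40] :=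
  good_of hTd _ _ _ _ _ _ _ x60 x47 x44 x218 x139 x40 go2056
lemma ch2057 (hTd : TdOK) : Good 0 ![w60, w47, w140, w218, w139, w44] :=
  good_of hTd _ _ _ _ _ _ _ x60 x47 x140 x218 x139 x44 go2057
lemma ch2058 (hTd : TdOK) : Good 0 ![w62, w47, w50, w218, w140, w44] :=
  good_of hTd _ _ _ _ _ _ _ x62 x47 x50 x218 x140 x44 go2058
lemma ch2059 (hTd : TdOK) : Good 0 ![w62, w52, w34, w218, w140, w50] :=
  good_of hTd _ _ _ _ _ _ _ x62 x52 x34 x218 x140 x50 go2059
lemma ch2060 (hTd : TdOK) : Good 0 ![w62, w47, w52, w218, w140, w50] :=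
  good_of hTd _ _ _ _ _ _ _ x62 x47 x52 x218 x140 x50 go2060
lemma ch2061 (hTd : TdOK) : Good 0 ![w60, w47, w62, w218, w140, w44] :=
  good_of hTd _ _ _ _ _ _ _ x60 x47 x62 x218 x140 x44 go2061
lemma ch2062 (hTd : TdOK) : Good 0 ![w60, w222, w47, w216, w139, w40] :=
  good_of hTd _ _ _ _ _ _ _ x60 x222 x47 x216 x139 x40 go2062
lemma ch2063 (hTd : TdOK) : Good 0 ![w60, w43, w47, w222, w139, w40] :=
  good_of hTd _ _ _ _ _ _ _ x60 x43 x47 x222 x139 x40 go2063
lemma ch2064 (hTd : TdOK) : Good 0 ![w60, w142, w47, w222, w139, w43] :=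
  good_of hTd _ _ _ _ _ _ _ x60 x142 x47 x222 x139 x43 go2064
lemma ch2065 (hTd : TdOK) : Good 0 ![w64, w12, w223, w222, w142, w43] :=
  good_of hTd _ _ _ _ _ _ _ x64 x12 x223 x222 x142 x43 go2065
lemma ch2066 (hTd : TdOK) : Good 0 ![w64, w12, w45, w223, w142, w43] :=
  good_of hTd _ _ _ _ _ _ _ x64 x12 x45 x223 x142 x43 go2066
lemma ch2067 (hTd : TdOK) : Good 0 ![w64, w57, w143, w223, w142, w45] :=
  good_of hTd _ _ _ _ _ _ _ x64 x57 x143 x223 x142 x45 go2067
lemma ch2068 (hTd : TdOK) : Good 0 ![w64, w57, w47, w223, w143, w45] :=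
  good_of hTd _ _ _ _ _ _ _ x64 x57 x47 x223 x143 x45 go2068
lemma ch2069 (hTd : TdOK) : Good 0 ![w64, w227, w57, w223, w142, w45] :=
  good_of hTd _ _ _ _ _ _ _ x64 x227 x57 x223 x142 x45 go2069
lemma ch2070 (hTd : TdOK) : Good 0 ![w64, w12, w57, w227, w142, w45] :=
  good_of hTd _ _ _ _ _ _ _ x64 x12 x57 x227 x142 x45 go2070
lemma ch2071 (hTd : TdOK) : Good 0 ![w60, w64, w47, w222, w142, w43] :=
  good_of hTd _ _ _ _ _ _ _ x60 x64 x47 x222 x142 x43 go2071
lemma ch2072 (hTd : TdOK) : Good 0 ![w58, w60, w34, w216, w139, w40] :=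
  good_of hTd _ _ _ _ _ _ _ x58 x60 x34 x216 x139 x40 go2072
lemma ch2073 (hTd : TdOK) : Good 0 ![w13, w12, w58, w214, w138, w35] :=
  good_of hTd _ _ _ _ _ _ _ x13 x12 x58 x214 x138 x35 go2073
lemma ch2074 (hTd : TdOK) : Good 0 ![w27, w138, w34, w213, w25, w13] :=
  good_of hTd _ _ _ _ _ _ _ x27 x138 x34 x213 x25 x13 go2074
lemma ch2075 (hTd : TdOK) : Good 0 ![w144, w12, w58, w214, w138, w13] :=
  good_of hTd _ _ _ _ _ _ _ x144 x12 x58 x214 x138 x13 go2075
lemma ch2076 (hTd : TdOK) : Good 0 ![w144, w216, w34, w214, w138, w58] :=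
  good_of hTd _ _ _ _ _ _ _ x144 x216 x34 x214 x138 x58 go2076
lemma ch2077 (hTd : TdOK) : Good 0 ![w144, w139, w34, w216, w138, w58] :=
  good_of hTd _ _ _ _ _ _ _ x144 x139 x34 x216 x138 x58 go2077
lemma ch2078 (hTd : TdOK) : Good 0 ![w144, w60, w34, w216, w139, w58] :=
  good_of hTd _ _ _ _ _ _ _ x144 x60 x34 x216 x139 x58 go2078
lemma ch2079 (hTd : TdOK) : Good 0 ![w145, w222, w218, w216, w139, w60] :=
  good_of hTd _ _ _ _ _ _ _ x145 x222 x218 x216 x139 x60 go2079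
lemma ch2080 (hTd : TdOK) : Good 0 ![w145, w223, w218, w222, w139, w60] :=
  good_of hTd _ _ _ _ _ _ _ x145 x223 x218 x222 x139 x60 go2080
lemma ch2081 (hTd : TdOK) : Good 0 ![w145, w12, w223, w222, w139, w60] :=
  good_of hTd _ _ _ _ _ _ _ x145 x12 x223 x222 x139 x60 go2081
lemma ch2082 (hTd : TdOK) : Good 0 ![w145, w47, w140, w218, w139, w60] :=
  good_of hTd _ _ _ _ _ _ _ x145 x47 x140 x218 x139 x60 go2082
lemma ch2083 (hTd : TdOK) : Good 0 ![w145, w47, w62, w218, w140, w60] :=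
  good_of hTd _ _ _ _ _ _ _ x145 x47 x62 x218 x140 x60 go2083
lemma ch2084 (hTd : TdOK) : Good 0 ![w146, w52, w220, w218, w140, w62] :=
  good_of hTd _ _ _ _ _ _ _ x146 x52 x220 x218 x140 x62 go2084
lemma ch2085 (hTd : TdOK) : Good 0 ![w146, w52, w34, w220, w140, w62] :=
  good_of hTd _ _ _ _ _ _ _ x146 x52 x34 x220 x140 x62 go2085
lemma ch2086 (hTd : TdOK) : Good 0 ![w146, w47, w52, w218, w140, w62] :=
  good_of hTd _ _ _ _ _ _ _ x146 x47 x52 x218 x140 x62 go2086
lemma ch2087 (hTd : TdOK) : Good 0 ![w145, w47, w146, w218, w140, w62] :=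
  good_of hTd _ _ _ _ _ _ _ x145 x47 x146 x218 x140 x62 go2087
lemma ch2088 (hTd : TdOK) : Good 0 ![w145, w223, w47, w218, w139, w60] :=
  good_of hTd _ _ _ _ _ _ _ x145 x223 x47 x218 x139 x60 go2088
lemma ch2089 (hTd : TdOK) : Good 0 ![w145, w142, w47, w223, w139, w60] :=
  good_of hTd _ _ _ _ _ _ _ x145 x142 x47 x223 x139 x60 go2089
lemma ch2090 (hTd : TdOK) : Good 0 ![w145, w64, w47, w223, w142, w60] :=
  good_of hTd _ _ _ _ _ _ _ x145 x64 x47 x223 x142 x60 go2090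
lemma ch2091 (hTd : TdOK) : Good 0 ![w147, w57, w143, w223, w142, w64] :=
  good_of hTd _ _ _ _ _ _ _ x147 x57 x143 x223 x142 x64 go2091
lemma ch2092 (hTd : TdOK) : Good 0 ![w147, w57, w47, w223, w143, w64] :=
  good_of hTd _ _ _ _ _ _ _ x147 x57 x47 x223 x143 x64 go2092
lemma ch2093 (hTd : TdOK) : Good 0 ![w147, w12, w57, w223, w142, w64] :=
  good_of hTd _ _ _ _ _ _ _ x147 x12 x57 x223 x142 x64 go2093
lemma ch2094 (hTd : TdOK) : Good 0 ![w145, w147, w47, w223, w142, w64] :=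
  good_of hTd _ _ _ _ _ _ _ x145 x147 x47 x223 x142 x64 go2094
lemma ch2095 (hTd : TdOK) : Good 0 ![w144, w145, w34, w216, w139, w60] :=
  good_of hTd _ _ _ _ _ _ _ x144 x145 x34 x216 x139 x60 go2095
lemma ch2096 (hTd : TdOK) : Good 0 ![w27, w12, w144, w214, w138, w13] :=
  good_of hTd _ _ _ _ _ _ _ x27 x12 x144 x214 x138 x13 go2096
lemma ch2097 (hTd : TdOK) : Good 0 ![w289, w215, w34, w213, w138, w214] :=
  good_of hTd _ _ _ _ _ _ _ x289 x215 x34 x213 x138 x214 go2097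
lemma ch2098 (hTd : TdOK) : Good 0 ![w290, w216, w34, w215, w138, w214] :=
  good_of hTd _ _ _ _ _ _ _ x290 x216 x34 x215 x138 x214 go2098
lemma ch2099 (hTd : TdOK) : Good 0 ![w290, w139, w34, w215, w138, w216] :=
  good_of hTd _ _ _ _ _ _ _ x290 x139 x34 x215 x138 x216 go2099
lemma ch2100 (hTd : TdOK) : Good 0 ![w291, w217, w34, w215, w139, w216] :=
  good_of hTd _ _ _ _ _ _ _ x291 x217 x34 x215 x139 x216 go2100
lemma ch2101 (hTd : TdOK) : Good 0 ![w290, w217, w291, w215, w139, w216] :=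
  good_of hTd _ _ _ _ _ _ _ x290 x217 x291 x215 x139 x216 go2101
lemma ch2102 (hTd : TdOK) : Good 0 ![w291, w47, w218, w217, w139, w216] :=
  good_of hTd _ _ _ _ _ _ _ x291 x47 x218 x217 x139 x216 go2102
lemma ch2103 (hTd : TdOK) : Good 0 ![w291, w47, w140, w217, w139, w218] :=
  good_of hTd _ _ _ _ _ _ _ x291 x47 x140 x217 x139 x218 go2103
lemma ch2104 (hTd : TdOK) : Good 0 ![w291, w47, w219, w217, w140, w218] :=
  good_of hTd _ _ _ _ _ _ _ x291 x47 x219 x217 x140 x218 go2104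
lemma ch2105 (hTd : TdOK) : Good 0 ![w291, w52, w220, w219, w140, w218] :=
  good_of hTd _ _ _ _ _ _ _ x291 x52 x220 x219 x140 x218 go2105
lemma ch2106 (hTd : TdOK) : Good 0 ![w292, w52, w34, w219, w140, w220] :=
  good_of hTd _ _ _ _ _ _ _ x292 x52 x34 x219 x140 x220 go2106
lemma ch2107 (hTd : TdOK) : Good 0 ![w291, w52, w292, w219, w140, w220] :=
  good_of hTd _ _ _ _ _ _ _ x291 x52 x292 x219 x140 x220 go2107
lemma ch2108 (hTd : TdOK) : Good 0 ![w291, w47, w52, w219, w140, w218] :=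
  good_of hTd _ _ _ _ _ _ _ x291 x47 x52 x219 x140 x218 go2108
lemma ch2109 (hTd : TdOK) : Good 0 ![w290, w47, w291, w217, w139, w216] :=
  good_of hTd _ _ _ _ _ _ _ x290 x47 x291 x217 x139 x216 go2109
lemma ch2110 (hTd : TdOK) : Good 0 ![w293, w222, w47, w217, w139, w216] :=
  good_of hTd _ _ _ _ _ _ _ x293 x222 x47 x217 x139 x216 go2110
lemma ch2111 (hTd : TdOK) : Good 0 ![w293, w142, w47, w217, w139, w222] :=
  good_of hTd _ _ _ _ _ _ _ x293 x142 x47 x217 x139 x222 go2111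
lemma ch2112 (hTd : TdOK) : Good 0 ![w293, w224, w223, w217, w142, w222] :=
  good_of hTd _ _ _ _ _ _ _ x293 x224 x223 x217 x142 x222 go2112
lemma ch2113 (hTd : TdOK) : Good 0 ![w294, w224, w47, w217, w142, w223] :=
  good_of hTd _ _ _ _ _ _ _ x294 x224 x47 x217 x142 x223 go2113
lemma ch2114 (hTd : TdOK) : Good 0 ![w293, w224, w294, w217, w142, w223] :=
  good_of hTd _ _ _ _ _ _ _ x293 x224 x294 x217 x142 x223 go2114
lemma ch2115 (hTd : TdOK) : Good 0 ![w293, w230, w223, w224, w142, w222] :=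
  good_of hTd _ _ _ _ _ _ _ x293 x230 x223 x224 x142 x222 go2115
lemma ch2116 (hTd : TdOK) : Good 0 ![w293, w12, w223, w224, w142, w230] :=
  good_of hTd _ _ _ _ _ _ _ x293 x12 x223 x224 x142 x230 go2116
lemma ch2117 (hTd : TdOK) : Good 0 ![w294, w288, w143, w224, w142, w223] :=
  good_of hTd _ _ _ _ _ _ _ x294 x288 x143 x224 x142 x223 go2117
lemma ch2118 (hTd : TdOK) : Good 0 ![w294, w57, w143, w224, w288, w223] :=
  good_of hTd _ _ _ _ _ _ _ x294 x57 x143 x224 x288 x223 go2118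
lemma ch2119 (hTd : TdOK) : Good 0 ![w294, w57, w226, w224, w143, w223] :=
  good_of hTd _ _ _ _ _ _ _ x294 x57 x226 x224 x143 x223 go2119
lemma ch2120 (hTd : TdOK) : Good 0 ![w294, w57, w47, w226, w143, w223] :=
  good_of hTd _ _ _ _ _ _ _ x294 x57 x47 x226 x143 x223 go2120
lemma ch2121 (hTd : TdOK) : Good 0 ![w294, w227, w288, w224, w142, w223] :=
  good_of hTd _ _ _ _ _ _ _ x294 x227 x288 x224 x142 x223 go2121
lemma ch2122 (hTd : TdOK) : Good 0 ![w294, w227, w235, w224, w288, w223] :=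
  good_of hTd _ _ _ _ _ _ _ x294 x227 x235 x224 x288 x223 go2122
lemma ch2123 (hTd : TdOK) : Good 0 ![w294, w227, w57, w235, w288, w223] :=
  good_of hTd _ _ _ _ _ _ _ x294 x227 x57 x235 x288 x223 go2123
lemma ch2124 (hTd : TdOK) : Good 0 ![w294, w12, w57, w224, w142, w227] :=
  good_of hTd _ _ _ _ _ _ _ x294 x12 x57 x224 x142 x227 go2124
lemma ch2125 (hTd : TdOK) : Good 0 ![w295, w227, w294, w224, w142, w223] :=
  good_of hTd _ _ _ _ _ _ _ x295 x227 x294 x224 x142 x223 go2125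
lemma ch2126 (hTd : TdOK) : Good 0 ![w295, w12, w294, w224, w142, w227] :=
  good_of hTd _ _ _ _ _ _ _ x295 x12 x294 x224 x142 x227 go2126
lemma ch2127 (hTd : TdOK) : Good 0 ![w293, w295, w294, w224, w142, w223] :=
  good_of hTd _ _ _ _ _ _ _ x293 x295 x294 x224 x142 x223 go2127
lemma ch2128 (hTd : TdOK) : Good 0 ![w290, w293, w47, w217, w139, w216] :=
  good_of hTd _ _ _ _ _ _ _ x290 x293 x47 x217 x139 x216 go2128
lemma ch2129 (hTd : TdOK) : Good 0 ![w289, w290, w34, w215, w138, w214] :=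
  good_of hTd _ _ _ _ _ _ _ x289 x290 x34 x215 x138 x214 go2129
lemma ch2130 (hTd : TdOK) : Good 0 ![w144, w290, w34, w289, w138, w214] :=
  good_of hTd _ _ _ _ _ _ _ x144 x290 x34 x289 x138 x214 go2130
lemma ch2131 (hTd : TdOK) : Good 0 ![w144, w216, w34, w290, w138, w214] :=
  good_of hTd _ _ _ _ _ _ _ x144 x216 x34 x290 x138 x214 go2131
lemma ch2132 (hTd : TdOK) : Good 0 ![w144, w139, w34, w290, w138, w216] :=
  good_of hTd _ _ _ _ _ _ _ x144 x139 x34 x290 x138 x216 go2132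
lemma ch2133 (hTd : TdOK) : Good 0 ![w145, w47, w291, w290, w139, w216] :=
  good_of hTd _ _ _ _ _ _ _ x145 x47 x291 x290 x139 x216 go2133
lemma ch2134 (hTd : TdOK) : Good 0 ![w145, w47, w218, w291, w139, w216] :=
  good_of hTd _ _ _ _ _ _ _ x145 x47 x218 x291 x139 x216 go2134
lemma ch2135 (hTd : TdOK) : Good 0 ![w145, w47, w140, w291, w139, w218] :=
  good_of hTd _ _ _ _ _ _ _ x145 x47 x140 x291 x139 x218 go2135
lemma ch2136 (hTd : TdOK) : Good 0 ![w146, w52, w220, w291, w140, w218] :=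
  good_of hTd _ _ _ _ _ _ _ x146 x52 x220 x291 x140 x218 go2136
lemma ch2137 (hTd : TdOK) : Good 0 ![w146, w52, w34, w291, w140, w220] :=
  good_of hTd _ _ _ _ _ _ _ x146 x52 x34 x291 x140 x220 go2137
lemma ch2138 (hTd : TdOK) : Good 0 ![w146, w47, w52, w291, w140, w218] :=
  good_of hTd _ _ _ _ _ _ _ x146 x47 x52 x291 x140 x218 go2138
lemma ch2139 (hTd : TdOK) : Good 0 ![w145, w47, w146, w291, w140, w218] :=
  good_of hTd _ _ _ _ _ _ _ x145 x47 x146 x291 x140 x218 go2139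
lemma ch2140 (hTd : TdOK) : Good 0 ![w145, w293, w47, w290, w139, w216] :=
  good_of hTd _ _ _ _ _ _ _ x145 x293 x47 x290 x139 x216 go2140
lemma ch2141 (hTd : TdOK) : Good 0 ![w145, w222, w47, w293, w139, w216] :=
  good_of hTd _ _ _ _ _ _ _ x145 x222 x47 x293 x139 x216 go2141
lemma ch2142 (hTd : TdOK) : Good 0 ![w145, w142, w47, w293, w139, w222] :=
  good_of hTd _ _ _ _ _ _ _ x145 x142 x47 x293 x139 x222 go2142
lemma ch2143 (hTd : TdOK) : Good 0 ![w147, w12, w223, w293, w142, w222] :=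
  good_of hTd _ _ _ _ _ _ _ x147 x12 x223 x293 x142 x222 go2143
lemma ch2144 (hTd : TdOK) : Good 0 ![w147, w12, w294, w293, w142, w223] :=
  good_of hTd _ _ _ _ _ _ _ x147 x12 x294 x293 x142 x223 go2144
lemma ch2145 (hTd : TdOK) : Good 0 ![w147, w57, w143, w294, w142, w223] :=
  good_of hTd _ _ _ _ _ _ _ x147 x57 x143 x294 x142 x223 go2145
lemma ch2146 (hTd : TdOK) : Good 0 ![w147, w57, w47, w294, w143, w223] :=
  good_of hTd _ _ _ _ _ _ _ x147 x57 x47 x294 x143 x223 go2146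
lemma ch2147 (hTd : TdOK) : Good 0 ![w147, w227, w288, w294, w142, w223] :=
  good_of hTd _ _ _ _ _ _ _ x147 x227 x288 x294 x142 x223 go2147
lemma ch2148 (hTd : TdOK) : Good 0 ![w147, w227, w57, w294, w288, w223] :=
  good_of hTd _ _ _ _ _ _ _ x147 x227 x57 x294 x288 x223 go2148
lemma ch2149 (hTd : TdOK) : Good 0 ![w147, w12, w57, w294, w142, w227] :=
  good_of hTd _ _ _ _ _ _ _ x147 x12 x57 x294 x142 x227 go2149
lemma ch2150 (hTd : TdOK) : Good 0 ![w145, w147, w47, w293, w142, w222] :=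
  good_of hTd _ _ _ _ _ _ _ x145 x147 x47 x293 x142 x222 go2150
lemma ch2151 (hTd : TdOK) : Good 0 ![w144, w145, w34, w290, w139, w216] :=
  good_of hTd _ _ _ _ _ _ _ x144 x145 x34 x290 x139 x216 go2151
lemma ch2152 (hTd : TdOK) : Good 0 ![w27, w12, w144, w289, w138, w214] :=
  good_of hTd _ _ _ _ _ _ _ x27 x12 x144 x289 x138 x214 go2152
lemma ch2153 (hTd : TdOK) : Good 0 ![w238, w12, w144, w214, w27, w13] :=
  good_of hTd _ _ _ _ _ _ _ x238 x12 x144 x214 x27 x13 go2153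
lemma ch2154 (hTd : TdOK) : Good 0 ![w238, w12, w58, w214, w144, w13] :=
  good_of hTd _ _ _ _ _ _ _ x238 x12 x58 x214 x144 x13 go2154
lemma ch2155 (hTd : TdOK) : Good 0 ![w239, w216, w34, w214, w144, w58] :=
  good_of hTd _ _ _ _ _ _ _ x239 x216 x34 x214 x144 x58 go2155
lemma ch2156 (hTd : TdOK) : Good 0 ![w239, w60, w34, w216, w144, w58] :=
  good_of hTd _ _ _ _ _ _ _ x239 x60 x34 x216 x144 x58 go2156
lemma ch2157 (hTd : TdOK) : Good 0 ![w239, w145, w218, w216, w144, w60] :=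
  good_of hTd _ _ _ _ _ _ _ x239 x145 x218 x216 x144 x60 go2157
lemma ch2158 (hTd : TdOK) : Good 0 ![w239, w145, w155, w218, w144, w60] :=
  good_of hTd _ _ _ _ _ _ _ x239 x145 x155 x218 x144 x60 go2158
lemma ch2159 (hTd : TdOK) : Good 0 ![w239, w145, w62, w218, w155, w60] :=
  good_of hTd _ _ _ _ _ _ _ x239 x145 x62 x218 x155 x60 go2159
lemma ch2160 (hTd : TdOK) : Good 0 ![w239, w145, w34, w218, w155, w62] :=
  good_of hTd _ _ _ _ _ _ _ x239 x145 x34 x218 x155 x62 go2160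
lemma ch2161 (hTd : TdOK) : Good 0 ![w239, w12, w218, w216, w145, w60] :=
  good_of hTd _ _ _ _ _ _ _ x239 x12 x218 x216 x145 x60 go2161
lemma ch2162 (hTd : TdOK) : Good 0 ![w240, w47, w62, w218, w145, w60] :=
  good_of hTd _ _ _ _ _ _ _ x240 x47 x62 x218 x145 x60 go2162
lemma ch2163 (hTd : TdOK) : Good 0 ![w240, w47, w146, w218, w145, w62] :=
  good_of hTd _ _ _ _ _ _ _ x240 x47 x146 x218 x145 x62 go2163
lemma ch2164 (hTd : TdOK) : Good 0 ![w241, w52, w220, w218, w146, w62] :=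
  good_of hTd _ _ _ _ _ _ _ x241 x52 x220 x218 x146 x62 go2164
lemma ch2165 (hTd : TdOK) : Good 0 ![w241, w52, w74, w220, w146, w62] :=
  good_of hTd _ _ _ _ _ _ _ x241 x52 x74 x220 x146 x62 go2165
lemma ch2166 (hTd : TdOK) : Good 0 ![w241, w52, w156, w220, w146, w74] :=
  good_of hTd _ _ _ _ _ _ _ x241 x52 x156 x220 x146 x74 go2166
lemma ch2167 (hTd : TdOK) : Good 0 ![w241, w52, w34, w220, w156, w74] :=
  good_of hTd _ _ _ _ _ _ _ x241 x52 x34 x220 x156 x74 go2167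
lemma ch2168 (hTd : TdOK) : Good 0 ![w241, w47, w52, w218, w146, w62] :=
  good_of hTd _ _ _ _ _ _ _ x241 x47 x52 x218 x146 x62 go2168
lemma ch2169 (hTd : TdOK) : Good 0 ![w240, w47, w241, w218, w146, w62] :=
  good_of hTd _ _ _ _ _ _ _ x240 x47 x241 x218 x146 x62 go2169
lemma ch2170 (hTd : TdOK) : Good 0 ![w240, w223, w47, w218, w145, w60] :=
  good_of hTd _ _ _ _ _ _ _ x240 x223 x47 x218 x145 x60 go2170
lemma ch2171 (hTd : TdOK) : Good 0 ![w240, w64, w47, w223, w145, w60] :=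
  good_of hTd _ _ _ _ _ _ _ x240 x64 x47 x223 x145 x60 go2171
lemma ch2172 (hTd : TdOK) : Good 0 ![w240, w147, w47, w223, w145, w64] :=
  good_of hTd _ _ _ _ _ _ _ x240 x147 x47 x223 x145 x64 go2172
lemma ch2173 (hTd : TdOK) : Good 0 ![w242, w57, w47, w223, w147, w64] :=
  good_of hTd _ _ _ _ _ _ _ x242 x57 x47 x223 x147 x64 go2173
lemma ch2174 (hTd : TdOK) : Good 0 ![w242, w12, w57, w223, w147, w64] :=
  good_of hTd _ _ _ _ _ _ _ x242 x12 x57 x223 x147 x64 go2174
lemma ch2175 (hTd : TdOK) : Good 0 ![w240, w242, w47, w223, w147, w64] :=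
  good_of hTd _ _ _ _ _ _ _ x240 x242 x47 x223 x147 x64 go2175
lemma ch2176 (hTd : TdOK) : Good 0 ![w239, w240, w62, w218, w145, w60] :=
  good_of hTd _ _ _ _ _ _ _ x239 x240 x62 x218 x145 x60 go2176
lemma ch2177 (hTd : TdOK) : Good 0 ![w243, w240, w146, w218, w145, w62] :=
  good_of hTd _ _ _ _ _ _ _ x243 x240 x146 x218 x145 x62 go2177
lemma ch2178 (hTd : TdOK) : Good 0 ![w243, w241, w220, w218, w146, w62] :=
  good_of hTd _ _ _ _ _ _ _ x243 x241 x220 x218 x146 x62 go2178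
lemma ch2179 (hTd : TdOK) : Good 0 ![w243, w241, w74, w220, w146, w62] :=
  good_of hTd _ _ _ _ _ _ _ x243 x241 x74 x220 x146 x62 go2179
lemma ch2180 (hTd : TdOK) : Good 0 ![w243, w241, w34, w220, w146, w74] :=
  good_of hTd _ _ _ _ _ _ _ x243 x241 x34 x220 x146 x74 go2180
lemma ch2181 (hTd : TdOK) : Good 0 ![w243, w240, w241, w218, w146, w62] :=
  good_of hTd _ _ _ _ _ _ _ x243 x240 x241 x218 x146 x62 go2181
lemma ch2182 (hTd : TdOK) : Good 0 ![w239, w240, w243, w218, w145, w62] :=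
  good_of hTd _ _ _ _ _ _ _ x239 x240 x243 x218 x145 x62 go2182
lemma ch2183 (hTd : TdOK) : Good 0 ![w238, w12, w239, w214, w144, w58] :=
  good_of hTd _ _ _ _ _ _ _ x238 x12 x239 x214 x144 x58 go2183
lemma ch2184 (hTd : TdOK) : Good 0 ![w238, w12, w144, w289, w27, w214] :=
  good_of hTd _ _ _ _ _ _ _ x238 x12 x144 x289 x27 x214 go2184
lemma ch2185 (hTd : TdOK) : Good 0 ![w239, w290, w34, w289, w144, w214] :=
  good_of hTd _ _ _ _ _ _ _ x239 x290 x34 x289 x144 x214 go2185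
lemma ch2186 (hTd : TdOK) : Good 0 ![w239, w216, w34, w290, w144, w214] :=
  good_of hTd _ _ _ _ _ _ _ x239 x216 x34 x290 x144 x214 go2186
lemma ch2187 (hTd : TdOK) : Good 0 ![w239, w145, w34, w290, w144, w216] :=
  good_of hTd _ _ _ _ _ _ _ x239 x145 x34 x290 x144 x216 go2187
lemma ch2188 (hTd : TdOK) : Good 0 ![w239, w12, w291, w290, w145, w216] :=
  good_of hTd _ _ _ _ _ _ _ x239 x12 x291 x290 x145 x216 go2188
lemma ch2189 (hTd : TdOK) : Good 0 ![w240, w222, w218, w291, w145, w216] :=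
  good_of hTd _ _ _ _ _ _ _ x240 x222 x218 x291 x145 x216 go2189
lemma ch2190 (hTd : TdOK) : Good 0 ![w240, w223, w218, w291, w145, w222] :=
  good_of hTd _ _ _ _ _ _ _ x240 x223 x218 x291 x145 x222 go2190
lemma ch2191 (hTd : TdOK) : Good 0 ![w240, w12, w223, w291, w145, w222] :=
  good_of hTd _ _ _ _ _ _ _ x240 x12 x223 x291 x145 x222 go2191
lemma ch2192 (hTd : TdOK) : Good 0 ![w239, w240, w218, w291, w145, w216] :=
  good_of hTd _ _ _ _ _ _ _ x239 x240 x218 x291 x145 x216 go2192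
lemma ch2193 (hTd : TdOK) : Good 0 ![w240, w47, w146, w291, w145, w218] :=
  good_of hTd _ _ _ _ _ _ _ x240 x47 x146 x291 x145 x218 go2193
lemma ch2194 (hTd : TdOK) : Good 0 ![w241, w52, w220, w291, w146, w218] :=
  good_of hTd _ _ _ _ _ _ _ x241 x52 x220 x291 x146 x218 go2194
lemma ch2195 (hTd : TdOK) : Good 0 ![w241, w52, w292, w291, w146, w220] :=
  good_of hTd _ _ _ _ _ _ _ x241 x52 x292 x291 x146 x220 go2195
lemma ch2196 (hTd : TdOK) : Good 0 ![w241, w52, w156, w292, w146, w220] :=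
  good_of hTd _ _ _ _ _ _ _ x241 x52 x156 x292 x146 x220 go2196
lemma ch2197 (hTd : TdOK) : Good 0 ![w241, w52, w34, w292, w156, w220] :=
  good_of hTd _ _ _ _ _ _ _ x241 x52 x34 x292 x156 x220 go2197
lemma ch2198 (hTd : TdOK) : Good 0 ![w241, w47, w52, w291, w146, w218] :=
  good_of hTd _ _ _ _ _ _ _ x241 x47 x52 x291 x146 x218 go2198
lemma ch2199 (hTd : TdOK) : Good 0 ![w240, w47, w241, w291, w146, w218] :=
  good_of hTd _ _ _ _ _ _ _ x240 x47 x241 x291 x146 x218 go2199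
lemma ch2200 (hTd : TdOK) : Good 0 ![w240, w223, w47, w291, w145, w218] :=
  good_of hTd _ _ _ _ _ _ _ x240 x223 x47 x291 x145 x218 go2200
lemma ch2201 (hTd : TdOK) : Good 0 ![w240, w294, w47, w291, w145, w223] :=
  good_of hTd _ _ _ _ _ _ _ x240 x294 x47 x291 x145 x223 go2201
lemma ch2202 (hTd : TdOK) : Good 0 ![w240, w147, w47, w294, w145, w223] :=
  good_of hTd _ _ _ _ _ _ _ x240 x147 x47 x294 x145 x223 go2202
lemma ch2203 (hTd : TdOK) : Good 0 ![w242, w57, w47, w294, w147, w223] :=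
  good_of hTd _ _ _ _ _ _ _ x242 x57 x47 x294 x147 x223 go2203
lemma ch2204 (hTd : TdOK) : Good 0 ![w242, w227, w57, w294, w147, w223] :=
  good_of hTd _ _ _ _ _ _ _ x242 x227 x57 x294 x147 x223 go2204
lemma ch2205 (hTd : TdOK) : Good 0 ![w242, w12, w57, w294, w147, w227] :=
  good_of hTd _ _ _ _ _ _ _ x242 x12 x57 x294 x147 x227 go2205
lemma ch2206 (hTd : TdOK) : Good 0 ![w240, w242, w47, w294, w147, w223] :=
  good_of hTd _ _ _ _ _ _ _ x240 x242 x47 x294 x147 x223 go2206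
lemma ch2207 (hTd : TdOK) : Good 0 ![w243, w240, w146, w291, w145, w218] :=
  good_of hTd _ _ _ _ _ _ _ x243 x240 x146 x291 x145 x218 go2207
lemma ch2208 (hTd : TdOK) : Good 0 ![w243, w241, w34, w291, w146, w218] :=
  good_of hTd _ _ _ _ _ _ _ x243 x241 x34 x291 x146 x218 go2208
lemma ch2209 (hTd : TdOK) : Good 0 ![w243, w240, w241, w291, w146, w218] :=
  good_of hTd _ _ _ _ _ _ _ x243 x240 x241 x291 x146 x218 go2209
lemma ch2210 (hTd : TdOK) : Good 0 ![w239, w240, w243, w291, w145, w218] :=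
  good_of hTd _ _ _ _ _ _ _ x239 x240 x243 x291 x145 x218 go2210
lemma ch2211 (hTd : TdOK) : Good 0 ![w238, w12, w239, w289, w144, w214] :=
  good_of hTd _ _ _ _ _ _ _ x238 x12 x239 x289 x144 x214 go2211
lemma ch2212 (hTd : TdOK) : Good 0 ![w238, w215, w34, w213, w289, w214] :=
  good_of hTd _ _ _ _ _ _ _ x238 x215 x34 x213 x289 x214 go2212
lemma ch2213 (hTd : TdOK) : Good 0 ![w239, w290, w34, w215, w289, w214] :=
  good_of hTd _ _ _ _ _ _ _ x239 x290 x34 x215 x289 x214 go2213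
lemma ch2214 (hTd : TdOK) : Good 0 ![w239, w216, w34, w215, w290, w214] :=
  good_of hTd _ _ _ _ _ _ _ x239 x216 x34 x215 x290 x214 go2214
lemma ch2215 (hTd : TdOK) : Good 0 ![w239, w217, w291, w215, w290, w216] :=
  good_of hTd _ _ _ _ _ _ _ x239 x217 x291 x215 x290 x216 go2215
lemma ch2216 (hTd : TdOK) : Good 0 ![w239, w217, w34, w215, w291, w216] :=
  good_of hTd _ _ _ _ _ _ _ x239 x217 x34 x215 x291 x216 go2216
lemma ch2217 (hTd : TdOK) : Good 0 ![w240, w47, w218, w217, w290, w216] :=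
  good_of hTd _ _ _ _ _ _ _ x240 x47 x218 x217 x290 x216 go2217
lemma ch2218 (hTd : TdOK) : Good 0 ![w240, w47, w291, w217, w290, w218] :=
  good_of hTd _ _ _ _ _ _ _ x240 x47 x291 x217 x290 x218 go2218
lemma ch2219 (hTd : TdOK) : Good 0 ![w240, w47, w219, w217, w291, w218] :=
  good_of hTd _ _ _ _ _ _ _ x240 x47 x219 x217 x291 x218 go2219
lemma ch2220 (hTd : TdOK) : Good 0 ![w241, w52, w220, w219, w291, w218] :=
  good_of hTd _ _ _ _ _ _ _ x241 x52 x220 x219 x291 x218 go2220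
lemma ch2221 (hTd : TdOK) : Good 0 ![w241, w52, w292, w219, w291, w220] :=
  good_of hTd _ _ _ _ _ _ _ x241 x52 x292 x219 x291 x220 go2221
lemma ch2222 (hTd : TdOK) : Good 0 ![w241, w52, w233, w219, w292, w220] :=
  good_of hTd _ _ _ _ _ _ _ x241 x52 x233 x219 x292 x220 go2222
lemma ch2223 (hTd : TdOK) : Good 0 ![w241, w52, w34, w233, w292, w220] :=
  good_of hTd _ _ _ _ _ _ _ x241 x52 x34 x233 x292 x220 go2223
lemma ch2224 (hTd : TdOK) : Good 0 ![w241, w47, w52, w219, w291, w218] :=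
  good_of hTd _ _ _ _ _ _ _ x241 x47 x52 x219 x291 x218 go2224
lemma ch2225 (hTd : TdOK) : Good 0 ![w240, w47, w241, w219, w291, w218] :=
  good_of hTd _ _ _ _ _ _ _ x240 x47 x241 x219 x291 x218 go2225
lemma ch2226 (hTd : TdOK) : Good 0 ![w240, w222, w47, w217, w290, w216] :=
  good_of hTd _ _ _ _ _ _ _ x240 x222 x47 x217 x290 x216 go2226
lemma ch2227 (hTd : TdOK) : Good 0 ![w240, w293, w47, w217, w290, w222] :=
  good_of hTd _ _ _ _ _ _ _ x240 x293 x47 x217 x290 x222 go2227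
lemma ch2228 (hTd : TdOK) : Good 0 ![w242, w224, w223, w217, w293, w222] :=
  good_of hTd _ _ _ _ _ _ _ x242 x224 x223 x217 x293 x222 go2228
lemma ch2229 (hTd : TdOK) : Good 0 ![w242, w224, w47, w217, w293, w223] :=
  good_of hTd _ _ _ _ _ _ _ x242 x224 x47 x217 x293 x223 go2229
lemma ch2230 (hTd : TdOK) : Good 0 ![w242, w12, w223, w224, w293, w222] :=
  good_of hTd _ _ _ _ _ _ _ x242 x12 x223 x224 x293 x222 go2230
lemma ch2231 (hTd : TdOK) : Good 0 ![w242, w12, w294, w224, w293, w223] :=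
  good_of hTd _ _ _ _ _ _ _ x242 x12 x294 x224 x293 x223 go2231
lemma ch2232 (hTd : TdOK) : Good 0 ![w242, w235, w226, w224, w294, w223] :=
  good_of hTd _ _ _ _ _ _ _ x242 x235 x226 x224 x294 x223 go2232
lemma ch2233 (hTd : TdOK) : Good 0 ![w242, w57, w226, w235, w294, w223] :=
  good_of hTd _ _ _ _ _ _ _ x242 x57 x226 x235 x294 x223 go2233
lemma ch2234 (hTd : TdOK) : Good 0 ![w242, w57, w47, w226, w294, w223] :=
  good_of hTd _ _ _ _ _ _ _ x242 x57 x47 x226 x294 x223 go2234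
lemma ch2235 (hTd : TdOK) : Good 0 ![w242, w227, w235, w224, w294, w223] :=
  good_of hTd _ _ _ _ _ _ _ x242 x227 x235 x224 x294 x223 go2235
lemma ch2236 (hTd : TdOK) : Good 0 ![w242, w227, w57, w235, w294, w223] :=
  good_of hTd _ _ _ _ _ _ _ x242 x227 x57 x235 x294 x223 go2236
lemma ch2237 (hTd : TdOK) : Good 0 ![w242, w12, w57, w224, w294, w227] :=
  good_of hTd _ _ _ _ _ _ _ x242 x12 x57 x224 x294 x227 go2237
lemma ch2238 (hTd : TdOK) : Good 0 ![w240, w242, w47, w217, w293, w222] :=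
  good_of hTd _ _ _ _ _ _ _ x240 x242 x47 x217 x293 x222 go2238
lemma ch2239 (hTd : TdOK) : Good 0 ![w239, w240, w218, w217, w290, w216] :=
  good_of hTd _ _ _ _ _ _ _ x239 x240 x218 x217 x290 x216 go2239
lemma ch2240 (hTd : TdOK) : Good 0 ![w239, w240, w291, w217, w290, w218] :=
  good_of hTd _ _ _ _ _ _ _ x239 x240 x291 x217 x290 x218 go2240
lemma ch2241 (hTd : TdOK) : Good 0 ![w239, w240, w219, w217, w291, w218] :=
  good_of hTd _ _ _ _ _ _ _ x239 x240 x219 x217 x291 x218 go2241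
lemma ch2242 (hTd : TdOK) : Good 0 ![w243, w241, w34, w219, w291, w218] :=
  good_of hTd _ _ _ _ _ _ _ x243 x241 x34 x219 x291 x218 go2242
lemma ch2243 (hTd : TdOK) : Good 0 ![w243, w240, w241, w219, w291, w218] :=
  good_of hTd _ _ _ _ _ _ _ x243 x240 x241 x219 x291 x218 go2243
lemma ch2244 (hTd : TdOK) : Good 0 ![w239, w240, w243, w219, w291, w218] :=
  good_of hTd _ _ _ _ _ _ _ x239 x240 x243 x219 x291 x218 go2244
lemma ch2245 (hTd : TdOK) : Good 0 ![w238, w290, w239, w215, w289, w214] :=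
  good_of hTd _ _ _ _ _ _ _ x238 x290 x239 x215 x289 x214 go2245
lemma ch2246 (hTd : TdOK) : Good 0 ![w238, w216, w239, w215, w290, w214] :=
  good_of hTd _ _ _ _ _ _ _ x238 x216 x239 x215 x290 x214 go2246
lemma ch2247 (hTd : TdOK) : Good 0 ![w249, w217, w239, w215, w290, w216] :=
  good_of hTd _ _ _ _ _ _ _ x249 x217 x239 x215 x290 x216 go2247
lemma ch2248 (hTd : TdOK) : Good 0 ![w249, w240, w239, w217, w290, w216] :=
  good_of hTd _ _ _ _ _ _ _ x249 x240 x239 x217 x290 x216 go2248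
lemma ch2249 (hTd : TdOK) : Good 0 ![w250, w12, w240, w217, w290, w216] :=
  good_of hTd _ _ _ _ _ _ _ x250 x12 x240 x217 x290 x216 go2249
lemma ch2250 (hTd : TdOK) : Good 0 ![w249, w250, w240, w217, w290, w216] :=
  good_of hTd _ _ _ _ _ _ _ x249 x250 x240 x217 x290 x216 go2250
lemma ch2251 (hTd : TdOK) : Good 0 ![w238, w249, w239, w215, w290, w216] :=
  good_of hTd _ _ _ _ _ _ _ x238 x249 x239 x215 x290 x216 go2251
lemma ch2252 (hTd : TdOK) : Good 0 ![w83, w12, w144, w238, w27, w13] :=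
  good_of hTd _ _ _ _ _ _ _ x83 x12 x144 x238 x27 x13 go2252
lemma ch2253 (hTd : TdOK) : Good 0 ![w83, w12, w58, w238, w144, w13] :=
  good_of hTd _ _ _ _ _ _ _ x83 x12 x58 x238 x144 x13 go2253
lemma ch2254 (hTd : TdOK) : Good 0 ![w83, w12, w239, w238, w144, w58] :=
  good_of hTd _ _ _ _ _ _ _ x83 x12 x239 x238 x144 x58 go2254
lemma ch2255 (hTd : TdOK) : Good 0 ![w84, w60, w85, w239, w144, w58] :=
  good_of hTd _ _ _ _ _ _ _ x84 x60 x85 x239 x144 x58 go2255
lemma ch2256 (hTd : TdOK) : Good 0 ![w84, w60, w155, w239, w144, w85] :=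
  good_of hTd _ _ _ _ _ _ _ x84 x60 x155 x239 x144 x85 go2256
lemma ch2257 (hTd : TdOK) : Good 0 ![w84, w62, w243, w239, w155, w85] :=
  good_of hTd _ _ _ _ _ _ _ x84 x62 x243 x239 x155 x85 go2257
lemma ch2258 (hTd : TdOK) : Good 0 ![w87, w62, w34, w243, w155, w85] :=
  good_of hTd _ _ _ _ _ _ _ x87 x62 x34 x243 x155 x85 go2258
lemma ch2259 (hTd : TdOK) : Good 0 ![w84, w62, w87, w243, w155, w85] :=
  good_of hTd _ _ _ _ _ _ _ x84 x62 x87 x243 x155 x85 go2259
lemma ch2260 (hTd : TdOK) : Good 0 ![w84, w60, w62, w239, w155, w85] :=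
  good_of hTd _ _ _ _ _ _ _ x84 x60 x62 x239 x155 x85 go2260
lemma ch2261 (hTd : TdOK) : Good 0 ![w84, w145, w155, w239, w144, w60] :=
  good_of hTd _ _ _ _ _ _ _ x84 x145 x155 x239 x144 x60 go2261
lemma ch2262 (hTd : TdOK) : Good 0 ![w84, w145, w62, w239, w155, w60] :=
  good_of hTd _ _ _ _ _ _ _ x84 x145 x62 x239 x155 x60 go2262
lemma ch2263 (hTd : TdOK) : Good 0 ![w84, w145, w243, w239, w155, w62] :=
  good_of hTd _ _ _ _ _ _ _ x84 x145 x243 x239 x155 x62 go2263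
lemma ch2264 (hTd : TdOK) : Good 0 ![w87, w146, w157, w243, w155, w62] :=
  good_of hTd _ _ _ _ _ _ _ x87 x146 x157 x243 x155 x62 go2264
lemma ch2265 (hTd : TdOK) : Good 0 ![w87, w146, w34, w243, w157, w62] :=
  good_of hTd _ _ _ _ _ _ _ x87 x146 x34 x243 x157 x62 go2265
lemma ch2266 (hTd : TdOK) : Good 0 ![w84, w146, w87, w243, w155, w62] :=
  good_of hTd _ _ _ _ _ _ _ x84 x146 x87 x243 x155 x62 go2266
lemma ch2267 (hTd : TdOK) : Good 0 ![w84, w145, w146, w243, w155, w62] :=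
  good_of hTd _ _ _ _ _ _ _ x84 x145 x146 x243 x155 x62 go2267
lemma ch2268 (hTd : TdOK) : Good 0 ![w84, w47, w62, w239, w145, w60] :=
  good_of hTd _ _ _ _ _ _ _ x84 x47 x62 x239 x145 x60 go2268
lemma ch2269 (hTd : TdOK) : Good 0 ![w84, w47, w243, w239, w145, w62] :=
  good_of hTd _ _ _ _ _ _ _ x84 x47 x243 x239 x145 x62 go2269
lemma ch2270 (hTd : TdOK) : Good 0 ![w84, w47, w146, w243, w145, w62] :=
  good_of hTd _ _ _ _ _ _ _ x84 x47 x146 x243 x145 x62 go2270
lemma ch2271 (hTd : TdOK) : Good 0 ![w87, w251, w74, w243, w146, w62] :=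
  good_of hTd _ _ _ _ _ _ _ x87 x251 x74 x243 x146 x62 go2271
lemma ch2272 (hTd : TdOK) : Good 0 ![w87, w52, w74, w251, w146, w62] :=
  good_of hTd _ _ _ _ _ _ _ x87 x52 x74 x251 x146 x62 go2272
lemma ch2273 (hTd : TdOK) : Good 0 ![w87, w52, w156, w243, w146, w74] :=
  good_of hTd _ _ _ _ _ _ _ x87 x52 x156 x243 x146 x74 go2273
lemma ch2274 (hTd : TdOK) : Good 0 ![w87, w52, w34, w243, w156, w74] :=
  good_of hTd _ _ _ _ _ _ _ x87 x52 x34 x243 x156 x74 go2274
lemma ch2275 (hTd : TdOK) : Good 0 ![w87, w241, w52, w243, w146, w62] :=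
  good_of hTd _ _ _ _ _ _ _ x87 x241 x52 x243 x146 x62 go2275
lemma ch2276 (hTd : TdOK) : Good 0 ![w87, w47, w52, w241, w146, w62] :=
  good_of hTd _ _ _ _ _ _ _ x87 x47 x52 x241 x146 x62 go2276
lemma ch2277 (hTd : TdOK) : Good 0 ![w84, w47, w87, w243, w146, w62] :=
  good_of hTd _ _ _ _ _ _ _ x84 x47 x87 x243 x146 x62 go2277
lemma ch2278 (hTd : TdOK) : Good 0 ![w84, w240, w47, w239, w145, w60] :=
  good_of hTd _ _ _ _ _ _ _ x84 x240 x47 x239 x145 x60 go2278
lemma ch2279 (hTd : TdOK) : Good 0 ![w90, w64, w47, w240, w145, w60] :=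
  good_of hTd _ _ _ _ _ _ _ x90 x64 x47 x240 x145 x60 go2279
lemma ch2280 (hTd : TdOK) : Good 0 ![w90, w147, w47, w240, w145, w64] :=
  good_of hTd _ _ _ _ _ _ _ x90 x147 x47 x240 x145 x64 go2280
lemma ch2281 (hTd : TdOK) : Good 0 ![w90, w242, w47, w240, w147, w64] :=
  good_of hTd _ _ _ _ _ _ _ x90 x242 x47 x240 x147 x64 go2281
lemma ch2282 (hTd : TdOK) : Good 0 ![w91, w57, w92, w242, w147, w64] :=
  good_of hTd _ _ _ _ _ _ _ x91 x57 x92 x242 x147 x64 go2282
lemma ch2283 (hTd : TdOK) : Good 0 ![w91, w57, w296, w242, w147, w92] :=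
  good_of hTd _ _ _ _ _ _ _ x91 x57 x296 x242 x147 x92 go2283
lemma ch2284 (hTd : TdOK) : Good 0 ![w91, w57, w47, w242, w296, w92] :=
  good_of hTd _ _ _ _ _ _ _ x91 x57 x47 x242 x296 x92 go2284
lemma ch2285 (hTd : TdOK) : Good 0 ![w91, w12, w57, w242, w147, w64] :=
  good_of hTd _ _ _ _ _ _ _ x91 x12 x57 x242 x147 x64 go2285
lemma ch2286 (hTd : TdOK) : Good 0 ![w90, w91, w47, w242, w147, w64] :=
  good_of hTd _ _ _ _ _ _ _ x90 x91 x47 x242 x147 x64 go2286
lemma ch2287 (hTd : TdOK) : Good 0 ![w84, w90, w47, w240, w145, w60] :=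
  good_of hTd _ _ _ _ _ _ _ x84 x90 x47 x240 x145 x60 go2287
lemma ch2288 (hTd : TdOK) : Good 0 ![w83, w12, w84, w239, w144, w58] :=
  good_of hTd _ _ _ _ _ _ _ x83 x12 x84 x239 x144 x58 go2288
lemma ch2289 (hTd : TdOK) : Good 0 ![w0, w12, w83, w238, w27, w13] :=
  good_of hTd _ _ _ _ _ _ _ x0 x12 x83 x238 x27 x13 go2289
lemma ch2290 (hTd : TdOK) : Good 0 ![w18, w93, w34, w253, w28, w8] :=
  good_of hTd _ _ _ _ _ _ _ x18 x93 x34 x253 x28 x8 go2290
lemma ch2291 (hTd : TdOK) : Good 0 ![w18, w30, w34, w253, w28, w93] :=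
  good_of hTd _ _ _ _ _ _ _ x18 x30 x34 x253 x28 x93 go2291
lemma ch2292 (hTd : TdOK) : Good 0 ![w254, w95, w34, w253, w30, w93] :=
  good_of hTd _ _ _ _ _ _ _ x254 x95 x34 x253 x30 x93 go2292
lemma ch2293 (hTd : TdOK) : Good 0 ![w254, w255, w34, w253, w30, w95] :=
  good_of hTd _ _ _ _ _ _ _ x254 x255 x34 x253 x30 x95 go2293
lemma ch2294 (hTd : TdOK) : Good 0 ![w254, w158, w34, w255, w30, w95] :=
  good_of hTd _ _ _ _ _ _ _ x254 x158 x34 x255 x30 x95 go2294
lemma ch2295 (hTd : TdOK) : Good 0 ![w256, w257, w97, w255, w158, w95] :=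
  good_of hTd _ _ _ _ _ _ _ x256 x257 x97 x255 x158 x95 go2295
lemma ch2296 (hTd : TdOK) : Good 0 ![w256, w98, w97, w257, w158, w95] :=
  good_of hTd _ _ _ _ _ _ _ x256 x98 x97 x257 x158 x95 go2296
lemma ch2297 (hTd : TdOK) : Good 0 ![w258, w99, w97, w257, w158, w98] :=
  good_of hTd _ _ _ _ _ _ _ x258 x99 x97 x257 x158 x98 go2297
lemma ch2298 (hTd : TdOK) : Good 0 ![w258, w161, w99, w257, w158, w98] :=
  good_of hTd _ _ _ _ _ _ _ x258 x161 x99 x257 x158 x98 go2298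
lemma ch2299 (hTd : TdOK) : Good 0 ![w258, w12, w99, w257, w161, w98] :=
  good_of hTd _ _ _ _ _ _ _ x258 x12 x99 x257 x161 x98 go2299
lemma ch2300 (hTd : TdOK) : Good 0 ![w256, w258, w97, w257, w158, w98] :=
  good_of hTd _ _ _ _ _ _ _ x256 x258 x97 x257 x158 x98 go2300
lemma ch2301 (hTd : TdOK) : Good 0 ![w256, w257, w34, w255, w158, w97] :=
  good_of hTd _ _ _ _ _ _ _ x256 x257 x34 x255 x158 x97 go2301
lemma ch2302 (hTd : TdOK) : Good 0 ![w256, w47, w159, w257, w158, w97] :=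
  good_of hTd _ _ _ _ _ _ _ x256 x47 x159 x257 x158 x97 go2302
lemma ch2303 (hTd : TdOK) : Good 0 ![w256, w47, w259, w257, w159, w97] :=
  good_of hTd _ _ _ _ _ _ _ x256 x47 x259 x257 x159 x97 go2303
lemma ch2304 (hTd : TdOK) : Good 0 ![w260, w47, w101, w259, w159, w97] :=
  good_of hTd _ _ _ _ _ _ _ x260 x47 x101 x259 x159 x97 go2304
lemma ch2305 (hTd : TdOK) : Good 0 ![w260, w52, w160, w259, w159, w101] :=
  good_of hTd _ _ _ _ _ _ _ x260 x52 x160 x259 x159 x101 go2305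
lemma ch2306 (hTd : TdOK) : Good 0 ![w260, w52, w261, w259, w160, w101] :=
  good_of hTd _ _ _ _ _ _ _ x260 x52 x261 x259 x160 x101 go2306
lemma ch2307 (hTd : TdOK) : Good 0 ![w260, w52, w34, w261, w160, w101] :=
  good_of hTd _ _ _ _ _ _ _ x260 x52 x34 x261 x160 x101 go2307
lemma ch2308 (hTd : TdOK) : Good 0 ![w260, w47, w52, w259, w159, w101] :=
  good_of hTd _ _ _ _ _ _ _ x260 x47 x52 x259 x159 x101 go2308
lemma ch2309 (hTd : TdOK) : Good 0 ![w256, w47, w260, w259, w159, w97] :=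
  good_of hTd _ _ _ _ _ _ _ x256 x47 x260 x259 x159 x97 go2309
lemma ch2310 (hTd : TdOK) : Good 0 ![w258, w99, w47, w257, w158, w97] :=
  good_of hTd _ _ _ _ _ _ _ x258 x99 x47 x257 x158 x97 go2310
lemma ch2311 (hTd : TdOK) : Good 0 ![w258, w161, w47, w257, w158, w99] :=
  good_of hTd _ _ _ _ _ _ _ x258 x161 x47 x257 x158 x99 go2311
lemma ch2312 (hTd : TdOK) : Good 0 ![w258, w262, w263, w257, w161, w99] :=
  good_of hTd _ _ _ _ _ _ _ x258 x262 x263 x257 x161 x99 go2312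
lemma ch2313 (hTd : TdOK) : Good 0 ![w258, w262, w47, w263, w161, w99] :=
  good_of hTd _ _ _ _ _ _ _ x258 x262 x47 x263 x161 x99 go2313
lemma ch2314 (hTd : TdOK) : Good 0 ![w258, w57, w162, w262, w161, w99] :=
  good_of hTd _ _ _ _ _ _ _ x258 x57 x162 x262 x161 x99 go2314
lemma ch2315 (hTd : TdOK) : Good 0 ![w258, w57, w264, w262, w162, w99] :=
  good_of hTd _ _ _ _ _ _ _ x258 x57 x264 x262 x162 x99 go2315
lemma ch2316 (hTd : TdOK) : Good 0 ![w258, w57, w47, w264, w162, w99] :=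
  good_of hTd _ _ _ _ _ _ _ x258 x57 x47 x264 x162 x99 go2316
lemma ch2317 (hTd : TdOK) : Good 0 ![w258, w12, w57, w262, w161, w99] :=
  good_of hTd _ _ _ _ _ _ _ x258 x12 x57 x262 x161 x99 go2317
lemma ch2318 (hTd : TdOK) : Good 0 ![w256, w258, w47, w257, w158, w97] :=
  good_of hTd _ _ _ _ _ _ _ x256 x258 x47 x257 x158 x97 go2318
lemma ch2319 (hTd : TdOK) : Good 0 ![w265, w257, w256, w255, w158, w95] :=
  good_of hTd _ _ _ _ _ _ _ x265 x257 x256 x255 x158 x95 go2319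
lemma ch2320 (hTd : TdOK) : Good 0 ![w265, w98, w256, w257, w158, w95] :=
  good_of hTd _ _ _ _ _ _ _ x265 x98 x256 x257 x158 x95 go2320
lemma ch2321 (hTd : TdOK) : Good 0 ![w265, w258, w256, w257, w158, w98] :=
  good_of hTd _ _ _ _ _ _ _ x265 x258 x256 x257 x158 x98 go2321
lemma ch2322 (hTd : TdOK) : Good 0 ![w265, w12, w258, w257, w158, w98] :=
  good_of hTd _ _ _ _ _ _ _ x265 x12 x258 x257 x158 x98 go2322
lemma ch2323 (hTd : TdOK) : Good 0 ![w254, w265, w256, w255, w158, w95] :=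
  good_of hTd _ _ _ _ _ _ _ x254 x265 x256 x255 x158 x95 go2323
lemma ch2324 (hTd : TdOK) : Good 0 ![w18, w254, w34, w253, w30, w93] :=
  good_of hTd _ _ _ _ _ _ _ x18 x254 x34 x253 x30 x93 go2324
lemma ch2325 (hTd : TdOK) : Good 0 ![w29, w30, w34, w253, w28, w18] :=
  good_of hTd _ _ _ _ _ _ _ x29 x30 x34 x253 x28 x18 go2325
lemma ch2326 (hTd : TdOK) : Good 0 ![w29, w12, w94, w266, w30, w18] :=
  good_of hTd _ _ _ _ _ _ _ x29 x12 x94 x266 x30 x18 go2326
lemma ch2327 (hTd : TdOK) : Good 0 ![w29, w255, w94, w253, w30, w266] :=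
  good_of hTd _ _ _ _ _ _ _ x29 x255 x94 x253 x30 x266 go2327
lemma ch2328 (hTd : TdOK) : Good 0 ![w29, w267, w94, w255, w30, w266] :=
  good_of hTd _ _ _ _ _ _ _ x29 x267 x94 x255 x30 x266 go2328
lemma ch2329 (hTd : TdOK) : Good 0 ![w297, w158, w94, w255, w30, w267] :=
  good_of hTd _ _ _ _ _ _ _ x297 x158 x94 x255 x30 x267 go2329
lemma ch2330 (hTd : TdOK) : Good 0 ![w297, w12, w94, w255, w158, w267] :=
  good_of hTd _ _ _ _ _ _ _ x297 x12 x94 x255 x158 x267 go2330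
lemma ch2331 (hTd : TdOK) : Good 0 ![w29, w297, w94, w255, w30, w267] :=
  good_of hTd _ _ _ _ _ _ _ x29 x297 x94 x255 x30 x267 go2331
lemma ch2332 (hTd : TdOK) : Good 0 ![w298, w255, w34, w253, w30, w94] :=
  good_of hTd _ _ _ _ _ _ _ x298 x255 x34 x253 x30 x94 go2332
lemma ch2333 (hTd : TdOK) : Good 0 ![w299, w158, w34, w255, w30, w94] :=
  good_of hTd _ _ _ _ _ _ _ x299 x158 x34 x255 x30 x94 go2333
lemma ch2334 (hTd : TdOK) : Good 0 ![w299, w96, w34, w255, w158, w94] :=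
  good_of hTd _ _ _ _ _ _ _ x299 x96 x34 x255 x158 x94 go2334
lemma ch2335 (hTd : TdOK) : Good 0 ![w300, w257, w34, w255, w158, w96] :=
  good_of hTd _ _ _ _ _ _ _ x300 x257 x34 x255 x158 x96 go2335
lemma ch2336 (hTd : TdOK) : Good 0 ![w299, w257, w300, w255, w158, w96] :=
  good_of hTd _ _ _ _ _ _ _ x299 x257 x300 x255 x158 x96 go2336
lemma ch2337 (hTd : TdOK) : Good 0 ![w300, w47, w159, w257, w158, w96] :=
  good_of hTd _ _ _ _ _ _ _ x300 x47 x159 x257 x158 x96 go2337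
lemma ch2338 (hTd : TdOK) : Good 0 ![w300, w47, w259, w257, w159, w96] :=
  good_of hTd _ _ _ _ _ _ _ x300 x47 x259 x257 x159 x96 go2338
lemma ch2339 (hTd : TdOK) : Good 0 ![w300, w47, w100, w259, w159, w96] :=
  good_of hTd _ _ _ _ _ _ _ x300 x47 x100 x259 x159 x96 go2339
lemma ch2340 (hTd : TdOK) : Good 0 ![w301, w52, w160, w259, w159, w100] :=
  good_of hTd _ _ _ _ _ _ _ x301 x52 x160 x259 x159 x100 go2340
lemma ch2341 (hTd : TdOK) : Good 0 ![w301, w52, w34, w259, w160, w100] :=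
  good_of hTd _ _ _ _ _ _ _ x301 x52 x34 x259 x160 x100 go2341
lemma ch2342 (hTd : TdOK) : Good 0 ![w300, w52, w301, w259, w159, w100] :=
  good_of hTd _ _ _ _ _ _ _ x300 x52 x301 x259 x159 x100 go2342
lemma ch2343 (hTd : TdOK) : Good 0 ![w300, w47, w52, w259, w159, w100] :=
  good_of hTd _ _ _ _ _ _ _ x300 x47 x52 x259 x159 x100 go2343
lemma ch2344 (hTd : TdOK) : Good 0 ![w302, w161, w47, w257, w158, w96] :=
  good_of hTd _ _ _ _ _ _ _ x302 x161 x47 x257 x158 x96 go2344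
lemma ch2345 (hTd : TdOK) : Good 0 ![w302, w102, w47, w257, w161, w96] :=
  good_of hTd _ _ _ _ _ _ _ x302 x102 x47 x257 x161 x96 go2345
lemma ch2346 (hTd : TdOK) : Good 0 ![w302, w262, w263, w257, w161, w102] :=
  good_of hTd _ _ _ _ _ _ _ x302 x262 x263 x257 x161 x102 go2346
lemma ch2347 (hTd : TdOK) : Good 0 ![w302, w262, w47, w263, w161, w102] :=
  good_of hTd _ _ _ _ _ _ _ x302 x262 x47 x263 x161 x102 go2347
lemma ch2348 (hTd : TdOK) : Good 0 ![w302, w303, w162, w262, w161, w102] :=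
  good_of hTd _ _ _ _ _ _ _ x302 x303 x162 x262 x161 x102 go2348
lemma ch2349 (hTd : TdOK) : Good 0 ![w302, w271, w162, w262, w303, w102] :=
  good_of hTd _ _ _ _ _ _ _ x302 x271 x162 x262 x303 x102 go2349
lemma ch2350 (hTd : TdOK) : Good 0 ![w302, w57, w162, w262, w303, w271] :=
  good_of hTd _ _ _ _ _ _ _ x302 x57 x162 x262 x303 x271 go2350
lemma ch2351 (hTd : TdOK) : Good 0 ![w302, w271, w264, w262, w162, w102] :=
  good_of hTd _ _ _ _ _ _ _ x302 x271 x264 x262 x162 x102 go2351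
lemma ch2352 (hTd : TdOK) : Good 0 ![w302, w273, w264, w262, w162, w271] :=
  good_of hTd _ _ _ _ _ _ _ x302 x273 x264 x262 x162 x271 go2352
lemma ch2353 (hTd : TdOK) : Good 0 ![w302, w57, w264, w273, w162, w271] :=
  good_of hTd _ _ _ _ _ _ _ x302 x57 x264 x273 x162 x271 go2353
lemma ch2354 (hTd : TdOK) : Good 0 ![w302, w57, w47, w264, w162, w102] :=
  good_of hTd _ _ _ _ _ _ _ x302 x57 x47 x264 x162 x102 go2354
lemma ch2355 (hTd : TdOK) : Good 0 ![w304, w12, w57, w262, w161, w102] :=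
  good_of hTd _ _ _ _ _ _ _ x304 x12 x57 x262 x161 x102 go2355
lemma ch2356 (hTd : TdOK) : Good 0 ![w302, w304, w303, w262, w161, w102] :=
  good_of hTd _ _ _ _ _ _ _ x302 x304 x303 x262 x161 x102 go2356
lemma ch2357 (hTd : TdOK) : Good 0 ![w302, w304, w57, w262, w303, w102] :=
  good_of hTd _ _ _ _ _ _ _ x302 x304 x57 x262 x303 x102 go2357
lemma ch2358 (hTd : TdOK) : Good 0 ![w300, w302, w305, w257, w158, w96] :=
  good_of hTd _ _ _ _ _ _ _ x300 x302 x305 x257 x158 x96 go2358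
lemma ch2359 (hTd : TdOK) : Good 0 ![w300, w302, w47, w257, w305, w96] :=
  good_of hTd _ _ _ _ _ _ _ x300 x302 x47 x257 x305 x96 go2359
lemma ch2360 (hTd : TdOK) : Good 0 ![w306, w302, w300, w257, w158, w96] :=
  good_of hTd _ _ _ _ _ _ _ x306 x302 x300 x257 x158 x96 go2360
lemma ch2361 (hTd : TdOK) : Good 0 ![w306, w161, w302, w257, w158, w96] :=
  good_of hTd _ _ _ _ _ _ _ x306 x161 x302 x257 x158 x96 go2361
lemma ch2362 (hTd : TdOK) : Good 0 ![w306, w102, w302, w257, w161, w96] :=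
  good_of hTd _ _ _ _ _ _ _ x306 x102 x302 x257 x161 x96 go2362
lemma ch2363 (hTd : TdOK) : Good 0 ![w306, w262, w302, w257, w161, w102] :=
  good_of hTd _ _ _ _ _ _ _ x306 x262 x302 x257 x161 x102 go2363
lemma ch2364 (hTd : TdOK) : Good 0 ![w306, w12, w302, w262, w161, w102] :=
  good_of hTd _ _ _ _ _ _ _ x306 x12 x302 x262 x161 x102 go2364
lemma ch2365 (hTd : TdOK) : Good 0 ![w299, w306, w300, w257, w158, w96] :=
  good_of hTd _ _ _ _ _ _ _ x299 x306 x300 x257 x158 x96 go2365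
lemma ch2366 (hTd : TdOK) : Good 0 ![w298, w299, w34, w255, w30, w94] :=
  good_of hTd _ _ _ _ _ _ _ x298 x299 x34 x255 x30 x94 go2366
lemma ch2367 (hTd : TdOK) : Good 0 ![w168, w299, w34, w298, w30, w94] :=
  good_of hTd _ _ _ _ _ _ _ x168 x299 x34 x298 x30 x94 go2367
lemma ch2368 (hTd : TdOK) : Good 0 ![w168, w158, w34, w299, w30, w94] :=
  good_of hTd _ _ _ _ _ _ _ x168 x158 x34 x299 x30 x94 go2368
lemma ch2369 (hTd : TdOK) : Good 0 ![w168, w96, w34, w299, w158, w94] :=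
  good_of hTd _ _ _ _ _ _ _ x168 x96 x34 x299 x158 x94 go2369
lemma ch2370 (hTd : TdOK) : Good 0 ![w169, w306, w300, w299, w158, w96] :=
  good_of hTd _ _ _ _ _ _ _ x169 x306 x300 x299 x158 x96 go2370
lemma ch2371 (hTd : TdOK) : Good 0 ![w169, w302, w300, w306, w158, w96] :=
  good_of hTd _ _ _ _ _ _ _ x169 x302 x300 x306 x158 x96 go2371
lemma ch2372 (hTd : TdOK) : Good 0 ![w169, w12, w302, w306, w158, w96] :=
  good_of hTd _ _ _ _ _ _ _ x169 x12 x302 x306 x158 x96 go2372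
lemma ch2373 (hTd : TdOK) : Good 0 ![w169, w47, w159, w300, w158, w96] :=
  good_of hTd _ _ _ _ _ _ _ x169 x47 x159 x300 x158 x96 go2373
lemma ch2374 (hTd : TdOK) : Good 0 ![w169, w47, w100, w300, w159, w96] :=
  good_of hTd _ _ _ _ _ _ _ x169 x47 x100 x300 x159 x96 go2374
lemma ch2375 (hTd : TdOK) : Good 0 ![w170, w52, w34, w300, w159, w100] :=
  good_of hTd _ _ _ _ _ _ _ x170 x52 x34 x300 x159 x100 go2375
lemma ch2376 (hTd : TdOK) : Good 0 ![w170, w47, w52, w300, w159, w100] :=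
  good_of hTd _ _ _ _ _ _ _ x170 x47 x52 x300 x159 x100 go2376
lemma ch2377 (hTd : TdOK) : Good 0 ![w169, w47, w170, w300, w159, w100] :=
  good_of hTd _ _ _ _ _ _ _ x169 x47 x170 x300 x159 x100 go2377
lemma ch2378 (hTd : TdOK) : Good 0 ![w169, w302, w47, w300, w158, w96] :=
  good_of hTd _ _ _ _ _ _ _ x169 x302 x47 x300 x158 x96 go2378
lemma ch2379 (hTd : TdOK) : Good 0 ![w169, w161, w47, w302, w158, w96] :=
  good_of hTd _ _ _ _ _ _ _ x169 x161 x47 x302 x158 x96 go2379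
lemma ch2380 (hTd : TdOK) : Good 0 ![w169, w102, w47, w302, w161, w96] :=
  good_of hTd _ _ _ _ _ _ _ x169 x102 x47 x302 x161 x96 go2380
lemma ch2381 (hTd : TdOK) : Good 0 ![w171, w57, w162, w302, w161, w102] :=
  good_of hTd _ _ _ _ _ _ _ x171 x57 x162 x302 x161 x102 go2381
lemma ch2382 (hTd : TdOK) : Good 0 ![w171, w57, w47, w302, w162, w102] :=
  good_of hTd _ _ _ _ _ _ _ x171 x57 x47 x302 x162 x102 go2382
lemma ch2383 (hTd : TdOK) : Good 0 ![w171, w12, w57, w302, w161, w102] :=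
  good_of hTd _ _ _ _ _ _ _ x171 x12 x57 x302 x161 x102 go2383
lemma ch2384 (hTd : TdOK) : Good 0 ![w169, w171, w47, w302, w161, w102] :=
  good_of hTd _ _ _ _ _ _ _ x169 x171 x47 x302 x161 x102 go2384
lemma ch2385 (hTd : TdOK) : Good 0 ![w168, w169, w34, w299, w158, w96] :=
  good_of hTd _ _ _ _ _ _ _ x168 x169 x34 x299 x158 x96 go2385
lemma ch2386 (hTd : TdOK) : Good 0 ![w29, w12, w168, w298, w30, w94] :=
  good_of hTd _ _ _ _ _ _ _ x29 x12 x168 x298 x30 x94 go2386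
lemma ch2387 (hTd : TdOK) : Good 0 ![w276, w12, w94, w266, w29, w18] :=
  good_of hTd _ _ _ _ _ _ _ x276 x12 x94 x266 x29 x18 go2387
lemma ch2388 (hTd : TdOK) : Good 0 ![w276, w12, w168, w266, w29, w94] :=
  good_of hTd _ _ _ _ _ _ _ x276 x12 x168 x266 x29 x94 go2388
lemma ch2389 (hTd : TdOK) : Good 0 ![w276, w267, w34, w266, w168, w94] :=
  good_of hTd _ _ _ _ _ _ _ x276 x267 x34 x266 x168 x94 go2389
lemma ch2390 (hTd : TdOK) : Good 0 ![w277, w96, w34, w267, w168, w94] :=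
  good_of hTd _ _ _ _ _ _ _ x277 x96 x34 x267 x168 x94 go2390
lemma ch2391 (hTd : TdOK) : Good 0 ![w277, w169, w278, w267, w168, w96] :=
  good_of hTd _ _ _ _ _ _ _ x277 x169 x278 x267 x168 x96 go2391
lemma ch2392 (hTd : TdOK) : Good 0 ![w277, w169, w173, w278, w168, w96] :=
  good_of hTd _ _ _ _ _ _ _ x277 x169 x173 x278 x168 x96 go2392
lemma ch2393 (hTd : TdOK) : Good 0 ![w277, w169, w34, w278, w173, w96] :=
  good_of hTd _ _ _ _ _ _ _ x277 x169 x34 x278 x173 x96 go2393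
lemma ch2394 (hTd : TdOK) : Good 0 ![w277, w12, w278, w267, w169, w96] :=
  good_of hTd _ _ _ _ _ _ _ x277 x12 x278 x267 x169 x96 go2394
lemma ch2395 (hTd : TdOK) : Good 0 ![w279, w47, w100, w278, w169, w96] :=
  good_of hTd _ _ _ _ _ _ _ x279 x47 x100 x278 x169 x96 go2395
lemma ch2396 (hTd : TdOK) : Good 0 ![w279, w47, w170, w278, w169, w100] :=
  good_of hTd _ _ _ _ _ _ _ x279 x47 x170 x278 x169 x100 go2396
lemma ch2397 (hTd : TdOK) : Good 0 ![w280, w47, w281, w278, w170, w100] :=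
  good_of hTd _ _ _ _ _ _ _ x280 x47 x281 x278 x170 x100 go2397
lemma ch2398 (hTd : TdOK) : Good 0 ![w280, w52, w103, w281, w170, w100] :=
  good_of hTd _ _ _ _ _ _ _ x280 x52 x103 x281 x170 x100 go2398
lemma ch2399 (hTd : TdOK) : Good 0 ![w280, w52, w172, w281, w170, w103] :=
  good_of hTd _ _ _ _ _ _ _ x280 x52 x172 x281 x170 x103 go2399
lemma ch2400 (hTd : TdOK) : Good 0 ![w280, w52, w34, w281, w172, w103] :=
  good_of hTd _ _ _ _ _ _ _ x280 x52 x34 x281 x172 x103 go2400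
lemma ch2401 (hTd : TdOK) : Good 0 ![w280, w47, w52, w281, w170, w100] :=
  good_of hTd _ _ _ _ _ _ _ x280 x47 x52 x281 x170 x100 go2401
lemma ch2402 (hTd : TdOK) : Good 0 ![w279, w47, w280, w278, w170, w100] :=
  good_of hTd _ _ _ _ _ _ _ x279 x47 x280 x278 x170 x100 go2402
lemma ch2403 (hTd : TdOK) : Good 0 ![w279, w282, w47, w278, w169, w96] :=
  good_of hTd _ _ _ _ _ _ _ x279 x282 x47 x278 x169 x96 go2403
lemma ch2404 (hTd : TdOK) : Good 0 ![w279, w102, w47, w282, w169, w96] :=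
  good_of hTd _ _ _ _ _ _ _ x279 x102 x47 x282 x169 x96 go2404
lemma ch2405 (hTd : TdOK) : Good 0 ![w279, w171, w47, w282, w169, w102] :=
  good_of hTd _ _ _ _ _ _ _ x279 x171 x47 x282 x169 x102 go2405
lemma ch2406 (hTd : TdOK) : Good 0 ![w283, w57, w47, w282, w171, w102] :=
  good_of hTd _ _ _ _ _ _ _ x283 x57 x47 x282 x171 x102 go2406
lemma ch2407 (hTd : TdOK) : Good 0 ![w283, w12, w57, w282, w171, w102] :=
  good_of hTd _ _ _ _ _ _ _ x283 x12 x57 x282 x171 x102 go2407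
lemma ch2408 (hTd : TdOK) : Good 0 ![w279, w283, w47, w282, w171, w102] :=
  good_of hTd _ _ _ _ _ _ _ x279 x283 x47 x282 x171 x102 go2408
lemma ch2409 (hTd : TdOK) : Good 0 ![w277, w279, w100, w278, w169, w96] :=
  good_of hTd _ _ _ _ _ _ _ x277 x279 x100 x278 x169 x96 go2409
lemma ch2410 (hTd : TdOK) : Good 0 ![w284, w279, w170, w278, w169, w100] :=
  good_of hTd _ _ _ _ _ _ _ x284 x279 x170 x278 x169 x100 go2410
lemma ch2411 (hTd : TdOK) : Good 0 ![w284, w280, w281, w278, w170, w100] :=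
  good_of hTd _ _ _ _ _ _ _ x284 x280 x281 x278 x170 x100 go2411
lemma ch2412 (hTd : TdOK) : Good 0 ![w284, w280, w103, w281, w170, w100] :=
  good_of hTd _ _ _ _ _ _ _ x284 x280 x103 x281 x170 x100 go2412
lemma ch2413 (hTd : TdOK) : Good 0 ![w284, w280, w34, w281, w170, w103] :=
  good_of hTd _ _ _ _ _ _ _ x284 x280 x34 x281 x170 x103 go2413
lemma ch2414 (hTd : TdOK) : Good 0 ![w284, w279, w280, w278, w170, w100] :=
  good_of hTd _ _ _ _ _ _ _ x284 x279 x280 x278 x170 x100 go2414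
lemma ch2415 (hTd : TdOK) : Good 0 ![w277, w279, w284, w278, w169, w100] :=
  good_of hTd _ _ _ _ _ _ _ x277 x279 x284 x278 x169 x100 go2415
lemma ch2416 (hTd : TdOK) : Good 0 ![w276, w12, w277, w267, w168, w94] :=
  good_of hTd _ _ _ _ _ _ _ x276 x12 x277 x267 x168 x94 go2416
lemma ch2417 (hTd : TdOK) : Good 0 ![w276, w12, w168, w298, w29, w266] :=
  good_of hTd _ _ _ _ _ _ _ x276 x12 x168 x298 x29 x266 go2417
lemma ch2418 (hTd : TdOK) : Good 0 ![w276, w267, w34, w298, w168, w266] :=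
  good_of hTd _ _ _ _ _ _ _ x276 x267 x34 x298 x168 x266 go2418
lemma ch2419 (hTd : TdOK) : Good 0 ![w277, w299, w34, w298, w168, w267] :=
  good_of hTd _ _ _ _ _ _ _ x277 x299 x34 x298 x168 x267 go2419
lemma ch2420 (hTd : TdOK) : Good 0 ![w277, w169, w34, w299, w168, w267] :=
  good_of hTd _ _ _ _ _ _ _ x277 x169 x34 x299 x168 x267 go2420
lemma ch2421 (hTd : TdOK) : Good 0 ![w277, w12, w278, w299, w169, w267] :=
  good_of hTd _ _ _ _ _ _ _ x277 x12 x278 x299 x169 x267 go2421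
lemma ch2422 (hTd : TdOK) : Good 0 ![w279, w306, w300, w299, w169, w278] :=
  good_of hTd _ _ _ _ _ _ _ x279 x306 x300 x299 x169 x278 go2422
lemma ch2423 (hTd : TdOK) : Good 0 ![w279, w282, w300, w306, w169, w278] :=
  good_of hTd _ _ _ _ _ _ _ x279 x282 x300 x306 x169 x278 go2423
lemma ch2424 (hTd : TdOK) : Good 0 ![w279, w12, w300, w306, w169, w282] :=
  good_of hTd _ _ _ _ _ _ _ x279 x12 x300 x306 x169 x282 go2424
lemma ch2425 (hTd : TdOK) : Good 0 ![w277, w279, w300, w299, w169, w278] :=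
  good_of hTd _ _ _ _ _ _ _ x277 x279 x300 x299 x169 x278 go2425
lemma ch2426 (hTd : TdOK) : Good 0 ![w279, w47, w170, w300, w169, w278] :=
  good_of hTd _ _ _ _ _ _ _ x279 x47 x170 x300 x169 x278 go2426
lemma ch2427 (hTd : TdOK) : Good 0 ![w280, w47, w281, w300, w170, w278] :=
  good_of hTd _ _ _ _ _ _ _ x280 x47 x281 x300 x170 x278 go2427
lemma ch2428 (hTd : TdOK) : Good 0 ![w280, w52, w301, w300, w170, w281] :=
  good_of hTd _ _ _ _ _ _ _ x280 x52 x301 x300 x170 x281 go2428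
lemma ch2429 (hTd : TdOK) : Good 0 ![w280, w52, w172, w301, w170, w281] :=
  good_of hTd _ _ _ _ _ _ _ x280 x52 x172 x301 x170 x281 go2429
lemma ch2430 (hTd : TdOK) : Good 0 ![w280, w52, w34, w301, w172, w281] :=
  good_of hTd _ _ _ _ _ _ _ x280 x52 x34 x301 x172 x281 go2430
lemma ch2431 (hTd : TdOK) : Good 0 ![w280, w47, w52, w300, w170, w281] :=
  good_of hTd _ _ _ _ _ _ _ x280 x47 x52 x300 x170 x281 go2431
lemma ch2432 (hTd : TdOK) : Good 0 ![w279, w47, w280, w300, w170, w278] :=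
  good_of hTd _ _ _ _ _ _ _ x279 x47 x280 x300 x170 x278 go2432
lemma ch2433 (hTd : TdOK) : Good 0 ![w279, w282, w47, w300, w169, w278] :=
  good_of hTd _ _ _ _ _ _ _ x279 x282 x47 x300 x169 x278 go2433
lemma ch2434 (hTd : TdOK) : Good 0 ![w279, w302, w47, w300, w169, w282] :=
  good_of hTd _ _ _ _ _ _ _ x279 x302 x47 x300 x169 x282 go2434
lemma ch2435 (hTd : TdOK) : Good 0 ![w279, w171, w47, w302, w169, w282] :=
  good_of hTd _ _ _ _ _ _ _ x279 x171 x47 x302 x169 x282 go2435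
lemma ch2436 (hTd : TdOK) : Good 0 ![w283, w57, w47, w302, w171, w282] :=
  good_of hTd _ _ _ _ _ _ _ x283 x57 x47 x302 x171 x282 go2436
lemma ch2437 (hTd : TdOK) : Good 0 ![w283, w307, w57, w302, w171, w282] :=
  good_of hTd _ _ _ _ _ _ _ x283 x307 x57 x302 x171 x282 go2437
lemma ch2438 (hTd : TdOK) : Good 0 ![w283, w12, w57, w302, w171, w307] :=
  good_of hTd _ _ _ _ _ _ _ x283 x12 x57 x302 x171 x307 go2438
lemma ch2439 (hTd : TdOK) : Good 0 ![w279, w283, w47, w302, w171, w282] :=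
  good_of hTd _ _ _ _ _ _ _ x279 x283 x47 x302 x171 x282 go2439
lemma ch2440 (hTd : TdOK) : Good 0 ![w284, w279, w170, w300, w169, w278] :=
  good_of hTd _ _ _ _ _ _ _ x284 x279 x170 x300 x169 x278 go2440
lemma ch2441 (hTd : TdOK) : Good 0 ![w284, w280, w34, w300, w170, w278] :=
  good_of hTd _ _ _ _ _ _ _ x284 x280 x34 x300 x170 x278 go2441
lemma ch2442 (hTd : TdOK) : Good 0 ![w284, w279, w280, w300, w170, w278] :=
  good_of hTd _ _ _ _ _ _ _ x284 x279 x280 x300 x170 x278 go2442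
lemma ch2443 (hTd : TdOK) : Good 0 ![w277, w279, w284, w300, w169, w278] :=
  good_of hTd _ _ _ _ _ _ _ x277 x279 x284 x300 x169 x278 go2443
lemma ch2444 (hTd : TdOK) : Good 0 ![w276, w12, w277, w298, w168, w267] :=
  good_of hTd _ _ _ _ _ _ _ x276 x12 x277 x298 x168 x267 go2444
lemma ch2445 (hTd : TdOK) : Good 0 ![w276, w255, w34, w253, w298, w266] :=
  good_of hTd _ _ _ _ _ _ _ x276 x255 x34 x253 x298 x266 go2445
lemma ch2446 (hTd : TdOK) : Good 0 ![w276, w267, w34, w255, w298, w266] :=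
  good_of hTd _ _ _ _ _ _ _ x276 x267 x34 x255 x298 x266 go2446
lemma ch2447 (hTd : TdOK) : Good 0 ![w277, w299, w34, w255, w298, w267] :=
  good_of hTd _ _ _ _ _ _ _ x277 x299 x34 x255 x298 x267 go2447
lemma ch2448 (hTd : TdOK) : Good 0 ![w277, w257, w278, w255, w299, w267] :=
  good_of hTd _ _ _ _ _ _ _ x277 x257 x278 x255 x299 x267 go2448
lemma ch2449 (hTd : TdOK) : Good 0 ![w277, w257, w300, w255, w299, w278] :=
  good_of hTd _ _ _ _ _ _ _ x277 x257 x300 x255 x299 x278 go2449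
lemma ch2450 (hTd : TdOK) : Good 0 ![w277, w257, w34, w255, w300, w278] :=
  good_of hTd _ _ _ _ _ _ _ x277 x257 x34 x255 x300 x278 go2450
lemma ch2451 (hTd : TdOK) : Good 0 ![w279, w285, w278, w257, w299, w267] :=
  good_of hTd _ _ _ _ _ _ _ x279 x285 x278 x257 x299 x267 go2451
lemma ch2452 (hTd : TdOK) : Good 0 ![w279, w306, w278, w257, w299, w285] :=
  good_of hTd _ _ _ _ _ _ _ x279 x306 x278 x257 x299 x285 go2452
lemma ch2453 (hTd : TdOK) : Good 0 ![w279, w282, w278, w257, w306, w285] :=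
  good_of hTd _ _ _ _ _ _ _ x279 x282 x278 x257 x306 x285 go2453
lemma ch2454 (hTd : TdOK) : Good 0 ![w283, w12, w282, w257, w306, w285] :=
  good_of hTd _ _ _ _ _ _ _ x283 x12 x282 x257 x306 x285 go2454
lemma ch2455 (hTd : TdOK) : Good 0 ![w279, w283, w282, w257, w306, w285] :=
  good_of hTd _ _ _ _ _ _ _ x279 x283 x282 x257 x306 x285 go2455
lemma ch2456 (hTd : TdOK) : Good 0 ![w277, w279, w278, w257, w299, w267] :=
  good_of hTd _ _ _ _ _ _ _ x277 x279 x278 x257 x299 x267 go2456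
lemma ch2457 (hTd : TdOK) : Good 0 ![w279, w306, w300, w257, w299, w278] :=
  good_of hTd _ _ _ _ _ _ _ x279 x306 x300 x257 x299 x278 go2457
lemma ch2458 (hTd : TdOK) : Good 0 ![w279, w282, w300, w257, w306, w278] :=
  good_of hTd _ _ _ _ _ _ _ x279 x282 x300 x257 x306 x278 go2458
lemma ch2459 (hTd : TdOK) : Good 0 ![w279, w302, w300, w257, w306, w282] :=
  good_of hTd _ _ _ _ _ _ _ x279 x302 x300 x257 x306 x282 go2459
lemma ch2460 (hTd : TdOK) : Good 0 ![w283, w262, w302, w257, w306, w282] :=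
  good_of hTd _ _ _ _ _ _ _ x283 x262 x302 x257 x306 x282 go2460
lemma ch2461 (hTd : TdOK) : Good 0 ![w283, w12, w302, w262, w306, w282] :=
  good_of hTd _ _ _ _ _ _ _ x283 x12 x302 x262 x306 x282 go2461
lemma ch2462 (hTd : TdOK) : Good 0 ![w279, w283, w302, w257, w306, w282] :=
  good_of hTd _ _ _ _ _ _ _ x279 x283 x302 x257 x306 x282 go2462
lemma ch2463 (hTd : TdOK) : Good 0 ![w279, w47, w259, w257, w300, w278] :=
  good_of hTd _ _ _ _ _ _ _ x279 x47 x259 x257 x300 x278 go2463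
lemma ch2464 (hTd : TdOK) : Good 0 ![w280, w47, w281, w259, w300, w278] :=
  good_of hTd _ _ _ _ _ _ _ x280 x47 x281 x259 x300 x278 go2464
lemma ch2465 (hTd : TdOK) : Good 0 ![w280, w52, w301, w259, w300, w281] :=
  good_of hTd _ _ _ _ _ _ _ x280 x52 x301 x259 x300 x281 go2465
lemma ch2466 (hTd : TdOK) : Good 0 ![w280, w52, w261, w259, w301, w281] :=
  good_of hTd _ _ _ _ _ _ _ x280 x52 x261 x259 x301 x281 go2466
lemma ch2467 (hTd : TdOK) : Good 0 ![w280, w52, w34, w261, w301, w281] :=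
  good_of hTd _ _ _ _ _ _ _ x280 x52 x34 x261 x301 x281 go2467
lemma ch2468 (hTd : TdOK) : Good 0 ![w280, w47, w52, w259, w300, w281] :=
  good_of hTd _ _ _ _ _ _ _ x280 x47 x52 x259 x300 x281 go2468
lemma ch2469 (hTd : TdOK) : Good 0 ![w279, w47, w280, w259, w300, w278] :=
  good_of hTd _ _ _ _ _ _ _ x279 x47 x280 x259 x300 x278 go2469
lemma ch2470 (hTd : TdOK) : Good 0 ![w279, w282, w263, w257, w300, w278] :=
  good_of hTd _ _ _ _ _ _ _ x279 x282 x263 x257 x300 x278 go2470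
lemma ch2471 (hTd : TdOK) : Good 0 ![w279, w282, w47, w263, w300, w278] :=
  good_of hTd _ _ _ _ _ _ _ x279 x282 x47 x263 x300 x278 go2471
lemma ch2472 (hTd : TdOK) : Good 0 ![w279, w302, w47, w257, w300, w282] :=
  good_of hTd _ _ _ _ _ _ _ x279 x302 x47 x257 x300 x282 go2472
lemma ch2473 (hTd : TdOK) : Good 0 ![w283, w262, w47, w257, w302, w282] :=
  good_of hTd _ _ _ _ _ _ _ x283 x262 x47 x257 x302 x282 go2473
lemma ch2474 (hTd : TdOK) : Good 0 ![w283, w273, w264, w262, w302, w282] :=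
  good_of hTd _ _ _ _ _ _ _ x283 x273 x264 x262 x302 x282 go2474
lemma ch2475 (hTd : TdOK) : Good 0 ![w283, w57, w264, w273, w302, w282] :=
  good_of hTd _ _ _ _ _ _ _ x283 x57 x264 x273 x302 x282 go2475
lemma ch2476 (hTd : TdOK) : Good 0 ![w283, w57, w47, w264, w302, w282] :=
  good_of hTd _ _ _ _ _ _ _ x283 x57 x47 x264 x302 x282 go2476
lemma ch2477 (hTd : TdOK) : Good 0 ![w283, w307, w273, w262, w302, w282] :=
  good_of hTd _ _ _ _ _ _ _ x283 x307 x273 x262 x302 x282 go2477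
lemma ch2478 (hTd : TdOK) : Good 0 ![w283, w307, w57, w273, w302, w282] :=
  good_of hTd _ _ _ _ _ _ _ x283 x307 x57 x273 x302 x282 go2478
lemma ch2479 (hTd : TdOK) : Good 0 ![w283, w12, w57, w262, w302, w307] :=
  good_of hTd _ _ _ _ _ _ _ x283 x12 x57 x262 x302 x307 go2479
lemma ch2480 (hTd : TdOK) : Good 0 ![w279, w283, w47, w257, w302, w282] :=
  good_of hTd _ _ _ _ _ _ _ x279 x283 x47 x257 x302 x282 go2480
lemma ch2481 (hTd : TdOK) : Good 0 ![w277, w279, w300, w257, w299, w278] :=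
  good_of hTd _ _ _ _ _ _ _ x277 x279 x300 x257 x299 x278 go2481
lemma ch2482 (hTd : TdOK) : Good 0 ![w277, w279, w259, w257, w300, w278] :=
  good_of hTd _ _ _ _ _ _ _ x277 x279 x259 x257 x300 x278 go2482
lemma ch2483 (hTd : TdOK) : Good 0 ![w284, w279, w34, w259, w300, w278] :=
  good_of hTd _ _ _ _ _ _ _ x284 x279 x34 x259 x300 x278 go2483
lemma ch2484 (hTd : TdOK) : Good 0 ![w277, w279, w284, w259, w300, w278] :=
  good_of hTd _ _ _ _ _ _ _ x277 x279 x284 x259 x300 x278 go2484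
lemma ch2485 (hTd : TdOK) : Good 0 ![w276, w299, w277, w255, w298, w267] :=
  good_of hTd _ _ _ _ _ _ _ x276 x299 x277 x255 x298 x267 go2485
lemma ch2486 (hTd : TdOK) : Good 0 ![w308, w257, w277, w255, w299, w267] :=
  good_of hTd _ _ _ _ _ _ _ x308 x257 x277 x255 x299 x267 go2486
lemma ch2487 (hTd : TdOK) : Good 0 ![w308, w279, w277, w257, w299, w267] :=
  good_of hTd _ _ _ _ _ _ _ x308 x279 x277 x257 x299 x267 go2487
lemma ch2488 (hTd : TdOK) : Good 0 ![w308, w12, w279, w257, w299, w267] :=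
  good_of hTd _ _ _ _ _ _ _ x308 x12 x279 x257 x299 x267 go2488
lemma ch2489 (hTd : TdOK) : Good 0 ![w276, w308, w277, w255, w299, w267] :=
  good_of hTd _ _ _ _ _ _ _ x276 x308 x277 x255 x299 x267 go2489
lemma ch2490 (hTd : TdOK) : Good 0 ![w83, w12, w94, w276, w29, w18] :=
  good_of hTd _ _ _ _ _ _ _ x83 x12 x94 x276 x29 x18 go2490
lemma ch2491 (hTd : TdOK) : Good 0 ![w83, w12, w168, w276, w29, w94] :=
  good_of hTd _ _ _ _ _ _ _ x83 x12 x168 x276 x29 x94 go2491
lemma ch2492 (hTd : TdOK) : Good 0 ![w83, w12, w277, w276, w168, w94] :=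
  good_of hTd _ _ _ _ _ _ _ x83 x12 x277 x276 x168 x94 go2492
lemma ch2493 (hTd : TdOK) : Good 0 ![w84, w96, w104, w277, w168, w94] :=
  good_of hTd _ _ _ _ _ _ _ x84 x96 x104 x277 x168 x94 go2493
lemma ch2494 (hTd : TdOK) : Good 0 ![w84, w96, w173, w277, w168, w104] :=
  good_of hTd _ _ _ _ _ _ _ x84 x96 x173 x277 x168 x104 go2494
lemma ch2495 (hTd : TdOK) : Good 0 ![w84, w100, w284, w277, w173, w104] :=
  good_of hTd _ _ _ _ _ _ _ x84 x100 x284 x277 x173 x104 go2495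
lemma ch2496 (hTd : TdOK) : Good 0 ![w84, w100, w34, w284, w173, w104] :=
  good_of hTd _ _ _ _ _ _ _ x84 x100 x34 x284 x173 x104 go2496
lemma ch2497 (hTd : TdOK) : Good 0 ![w84, w96, w100, w277, w173, w104] :=
  good_of hTd _ _ _ _ _ _ _ x84 x96 x100 x277 x173 x104 go2497
lemma ch2498 (hTd : TdOK) : Good 0 ![w84, w169, w173, w277, w168, w96] :=
  good_of hTd _ _ _ _ _ _ _ x84 x169 x173 x277 x168 x96 go2498
lemma ch2499 (hTd : TdOK) : Good 0 ![w84, w169, w100, w277, w173, w96] :=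
  good_of hTd _ _ _ _ _ _ _ x84 x169 x100 x277 x173 x96 go2499
lemma ch2500 (hTd : TdOK) : Good 0 ![w84, w169, w284, w277, w173, w100] :=
  good_of hTd _ _ _ _ _ _ _ x84 x169 x284 x277 x173 x100 go2500
lemma ch2501 (hTd : TdOK) : Good 0 ![w87, w170, w174, w284, w173, w100] :=
  good_of hTd _ _ _ _ _ _ _ x87 x170 x174 x284 x173 x100 go2501
lemma ch2502 (hTd : TdOK) : Good 0 ![w87, w170, w34, w284, w174, w100] :=
  good_of hTd _ _ _ _ _ _ _ x87 x170 x34 x284 x174 x100 go2502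
lemma ch2503 (hTd : TdOK) : Good 0 ![w84, w170, w87, w284, w173, w100] :=
  good_of hTd _ _ _ _ _ _ _ x84 x170 x87 x284 x173 x100 go2503
lemma ch2504 (hTd : TdOK) : Good 0 ![w84, w169, w170, w284, w173, w100] :=
  good_of hTd _ _ _ _ _ _ _ x84 x169 x170 x284 x173 x100 go2504
lemma ch2505 (hTd : TdOK) : Good 0 ![w84, w47, w100, w277, w169, w96] :=
  good_of hTd _ _ _ _ _ _ _ x84 x47 x100 x277 x169 x96 go2505
lemma ch2506 (hTd : TdOK) : Good 0 ![w84, w47, w284, w277, w169, w100] :=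
  good_of hTd _ _ _ _ _ _ _ x84 x47 x284 x277 x169 x100 go2506
lemma ch2507 (hTd : TdOK) : Good 0 ![w84, w47, w170, w284, w169, w100] :=
  good_of hTd _ _ _ _ _ _ _ x84 x47 x170 x284 x169 x100 go2507
lemma ch2508 (hTd : TdOK) : Good 0 ![w87, w52, w103, w284, w170, w100] :=
  good_of hTd _ _ _ _ _ _ _ x87 x52 x103 x284 x170 x100 go2508
lemma ch2509 (hTd : TdOK) : Good 0 ![w87, w52, w172, w284, w170, w103] :=
  good_of hTd _ _ _ _ _ _ _ x87 x52 x172 x284 x170 x103 go2509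
lemma ch2510 (hTd : TdOK) : Good 0 ![w87, w52, w34, w284, w172, w103] :=
  good_of hTd _ _ _ _ _ _ _ x87 x52 x34 x284 x172 x103 go2510
lemma ch2511 (hTd : TdOK) : Good 0 ![w87, w280, w52, w284, w170, w100] :=
  good_of hTd _ _ _ _ _ _ _ x87 x280 x52 x284 x170 x100 go2511
lemma ch2512 (hTd : TdOK) : Good 0 ![w87, w47, w52, w280, w170, w100] :=
  good_of hTd _ _ _ _ _ _ _ x87 x47 x52 x280 x170 x100 go2512
lemma ch2513 (hTd : TdOK) : Good 0 ![w84, w47, w87, w284, w170, w100] :=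
  good_of hTd _ _ _ _ _ _ _ x84 x47 x87 x284 x170 x100 go2513
lemma ch2514 (hTd : TdOK) : Good 0 ![w84, w279, w47, w277, w169, w96] :=
  good_of hTd _ _ _ _ _ _ _ x84 x279 x47 x277 x169 x96 go2514
lemma ch2515 (hTd : TdOK) : Good 0 ![w90, w102, w47, w279, w169, w96] :=
  good_of hTd _ _ _ _ _ _ _ x90 x102 x47 x279 x169 x96 go2515
lemma ch2516 (hTd : TdOK) : Good 0 ![w90, w171, w47, w279, w169, w102] :=
  good_of hTd _ _ _ _ _ _ _ x90 x171 x47 x279 x169 x102 go2516
lemma ch2517 (hTd : TdOK) : Good 0 ![w90, w283, w47, w279, w171, w102] :=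
  good_of hTd _ _ _ _ _ _ _ x90 x283 x47 x279 x171 x102 go2517
lemma ch2518 (hTd : TdOK) : Good 0 ![w91, w57, w105, w283, w171, w102] :=
  good_of hTd _ _ _ _ _ _ _ x91 x57 x105 x283 x171 x102 go2518
lemma ch2519 (hTd : TdOK) : Good 0 ![w91, w57, w175, w283, w171, w105] :=
  good_of hTd _ _ _ _ _ _ _ x91 x57 x175 x283 x171 x105 go2519
lemma ch2520 (hTd : TdOK) : Good 0 ![w91, w57, w47, w283, w175, w105] :=
  good_of hTd _ _ _ _ _ _ _ x91 x57 x47 x283 x175 x105 go2520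
lemma ch2521 (hTd : TdOK) : Good 0 ![w91, w12, w57, w283, w171, w102] :=
  good_of hTd _ _ _ _ _ _ _ x91 x12 x57 x283 x171 x102 go2521
lemma ch2522 (hTd : TdOK) : Good 0 ![w90, w91, w47, w283, w171, w102] :=
  good_of hTd _ _ _ _ _ _ _ x90 x91 x47 x283 x171 x102 go2522
lemma ch2523 (hTd : TdOK) : Good 0 ![w84, w90, w47, w279, w169, w96] :=
  good_of hTd _ _ _ _ _ _ _ x84 x90 x47 x279 x169 x96 go2523
lemma ch2524 (hTd : TdOK) : Good 0 ![w83, w12, w84, w277, w168, w94] :=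
  good_of hTd _ _ _ _ _ _ _ x83 x12 x84 x277 x168 x94 go2524
lemma ch2525 (hTd : TdOK) : Good 0 ![w0, w12, w83, w276, w29, w18] :=
  good_of hTd _ _ _ _ _ _ _ x0 x12 x83 x276 x29 x18 go2525

lemma tp0 (hTd : TdOK) : Good 0 ![w0, w6, w2, w3, w4, w5] :=
  split15 (m := w1) (by decide +kernel) (ch0 hTd) (ch1 hTd)
lemma tp1 (hTd : TdOK) : Good 0 ![w0, w6, w2, w3, w4, w7] :=
  split14 (m := w9) (by decide +kernel) (ch3 hTd) (ch4 hTd)
lemma tp2 (hTd : TdOK) : Good 0 ![w0, w6, w2, w3, w4, w8] :=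
  split15 (m := w7) (by decide +kernel) (ch2 hTd) (tp1 hTd)
lemma tp3 (hTd : TdOK) : Good 0 ![w10, w12, w2, w3, w4, w5] :=
  split13 (m := w11) (by decide +kernel) (ch5 hTd) (ch6 hTd)
lemma tp4 (hTd : TdOK) : Good 0 ![w13, w12, w15, w10, w14, w5] :=
  split35 (m := w16) (by decide +kernel) (ch9 hTd) (ch10 hTd)
lemma tp5 (hTd : TdOK) : Good 0 ![w13, w12, w2, w10, w14, w5] :=
  split12 (m := w15) (by decide +kernel) (ch8 hTd) (tp4 hTd)
lemma tp6 (hTd : TdOK) : Good 0 ![w13, w12, w2, w10, w4, w5] :=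
  split14 (m := w14) (by decide +kernel) (ch7 hTd) (tp5 hTd)
lemma tp7 (hTd : TdOK) : Good 0 ![w0, w12, w2, w10, w4, w13] :=
  split04 (m := w17) (by decide +kernel) (ch11 hTd) (ch12 hTd)
lemma tp8 (hTd : TdOK) : Good 0 ![w0, w12, w2, w10, w4, w5] :=
  split05 (m := w13) (by decide +kernel) (tp6 hTd) (tp7 hTd)
lemma tp9 (hTd : TdOK) : Good 0 ![w0, w12, w2, w3, w4, w5] :=
  split03 (m := w10) (by decide +kernel) (tp3 hTd) (tp8 hTd)
lemma tp10 (hTd : TdOK) : Good 0 ![w0, w12, w2, w10, w4, w18] :=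
  split04 (m := w17) (by decide +kernel) (ch15 hTd) (ch16 hTd)
lemma tp11 (hTd : TdOK) : Good 0 ![w0, w12, w2, w10, w4, w8] :=
  split05 (m := w18) (by decide +kernel) (ch14 hTd) (tp10 hTd)
lemma tp12 (hTd : TdOK) : Good 0 ![w0, w12, w2, w3, w4, w8] :=
  split03 (m := w10) (by decide +kernel) (ch13 hTd) (tp11 hTd)
lemma tp13 (hTd : TdOK) : Good 0 ![w10, w12, w19, w3, w4, w5] :=
  split13 (m := w11) (by decide +kernel) (ch17 hTd) (ch18 hTd)
lemma tp14 (hTd : TdOK) : Good 0 ![w20, w12, w19, w10, w14, w5] :=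
  split23 (m := w21) (by decide +kernel) (ch20 hTd) (ch21 hTd)
lemma tp15 (hTd : TdOK) : Good 0 ![w20, w12, w19, w10, w4, w5] :=
  split14 (m := w14) (by decide +kernel) (ch19 hTd) (tp14 hTd)
lemma tp16 (hTd : TdOK) : Good 0 ![w13, w12, w19, w10, w4, w5] :=
  split04 (m := w20) (by decide +kernel) (tp15 hTd) (ch22 hTd)
lemma tp17 (hTd : TdOK) : Good 0 ![w0, w12, w19, w10, w4, w13] :=
  split04 (m := w17) (by decide +kernel) (ch23 hTd) (ch24 hTd)
lemma tp18 (hTd : TdOK) : Good 0 ![w0, w12, w19, w10, w4, w5] :=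
  split05 (m := w13) (by decide +kernel) (tp16 hTd) (tp17 hTd)
lemma tp19 (hTd : TdOK) : Good 0 ![w0, w12, w19, w3, w4, w5] :=
  split03 (m := w10) (by decide +kernel) (tp13 hTd) (tp18 hTd)
lemma tp20 (hTd : TdOK) : Good 0 ![w0, w12, w19, w10, w4, w18] :=
  split04 (m := w17) (by decide +kernel) (ch27 hTd) (ch28 hTd)
lemma tp21 (hTd : TdOK) : Good 0 ![w0, w12, w19, w10, w4, w8] :=
  split05 (m := w18) (by decide +kernel) (ch26 hTd) (tp20 hTd)
lemma tp22 (hTd : TdOK) : Good 0 ![w0, w12, w19, w3, w4, w8] :=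
  split03 (m := w10) (by decide +kernel) (ch25 hTd) (tp21 hTd)
lemma tp23 (hTd : TdOK) : Good 0 ![w13, w12, w19, w22, w4, w5] :=
  split04 (m := w20) (by decide +kernel) (ch29 hTd) (ch30 hTd)
lemma tp24 (hTd : TdOK) : Good 0 ![w0, w12, w19, w22, w17, w13] :=
  split03 (m := w23) (by decide +kernel) (ch32 hTd) (ch33 hTd)
lemma tp25 (hTd : TdOK) : Good 0 ![w0, w12, w19, w22, w4, w13] :=
  split04 (m := w17) (by decide +kernel) (ch31 hTd) (tp24 hTd)
lemma tp26 (hTd : TdOK) : Good 0 ![w0, w12, w19, w22, w4, w5] :=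
  split05 (m := w13) (by decide +kernel) (tp23 hTd) (tp25 hTd)
lemma tp27 (hTd : TdOK) : Good 0 ![w0, w12, w19, w22, w17, w18] :=
  split03 (m := w23) (by decide +kernel) (ch36 hTd) (ch37 hTd)
lemma tp28 (hTd : TdOK) : Good 0 ![w0, w12, w19, w22, w4, w18] :=
  split04 (m := w17) (by decide +kernel) (ch35 hTd) (tp27 hTd)
lemma tp29 (hTd : TdOK) : Good 0 ![w0, w12, w19, w22, w4, w8] :=
  split05 (m := w18) (by decide +kernel) (ch34 hTd) (tp28 hTd)
lemma tp30 (hTd : TdOK) : Good 0 ![w13, w12, w19, w22, w24, w5] :=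
  split02 (m := w26) (by decide +kernel) (ch39 hTd) (ch40 hTd)
lemma tp31 (hTd : TdOK) : Good 0 ![w13, w12, w19, w22, w25, w5] :=
  split04 (m := w24) (by decide +kernel) (ch38 hTd) (tp30 hTd)
lemma tp32 (hTd : TdOK) : Good 0 ![w27, w12, w19, w22, w24, w13] :=
  split25 (m := w26) (by decide +kernel) (ch41 hTd) (ch42 hTd)
lemma tp33 (hTd : TdOK) : Good 0 ![w27, w12, w19, w22, w25, w13] :=
  split45 (m := w24) (by decide +kernel) (tp32 hTd) (ch43 hTd)
lemma tp34 (hTd : TdOK) : Good 0 ![w0, w12, w19, w22, w27, w13] :=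
  split03 (m := w23) (by decide +kernel) (ch44 hTd) (ch45 hTd)
lemma tp35 (hTd : TdOK) : Good 0 ![w0, w12, w19, w22, w25, w13] :=
  split04 (m := w27) (by decide +kernel) (tp33 hTd) (tp34 hTd)
lemma tp36 (hTd : TdOK) : Good 0 ![w0, w12, w19, w22, w25, w5] :=
  split05 (m := w13) (by decide +kernel) (tp31 hTd) (tp35 hTd)
lemma tp37 (hTd : TdOK) : Good 0 ![w29, w12, w19, w22, w30, w18] :=
  split25 (m := w31) (by decide +kernel) (ch48 hTd) (ch49 hTd)
lemma tp38 (hTd : TdOK) : Good 0 ![w29, w12, w19, w22, w28, w18] :=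
  split14 (m := w30) (by decide +kernel) (ch47 hTd) (tp37 hTd)
lemma tp39 (hTd : TdOK) : Good 0 ![w0, w12, w19, w22, w29, w18] :=
  split03 (m := w23) (by decide +kernel) (ch50 hTd) (ch51 hTd)
lemma tp40 (hTd : TdOK) : Good 0 ![w0, w12, w19, w22, w28, w18] :=
  split04 (m := w29) (by decide +kernel) (tp38 hTd) (tp39 hTd)
lemma tp41 (hTd : TdOK) : Good 0 ![w0, w12, w19, w22, w28, w8] :=
  split05 (m := w18) (by decide +kernel) (ch46 hTd) (tp40 hTd)
lemma tp42 (hTd : TdOK) : Good 0 ![w0, w6, w2, w32, w4, w8] :=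
  split15 (m := w7) (by decide +kernel) (ch53 hTd) (ch54 hTd)
lemma tp43 (hTd : TdOK) : Good 0 ![w0, w12, w2, w32, w17, w13] :=
  split03 (m := w33) (by decide +kernel) (ch57 hTd) (ch58 hTd)
lemma tp44 (hTd : TdOK) : Good 0 ![w0, w12, w2, w32, w4, w13] :=
  split04 (m := w17) (by decide +kernel) (ch56 hTd) (tp43 hTd)
lemma tp45 (hTd : TdOK) : Good 0 ![w0, w12, w2, w32, w4, w5] :=
  split05 (m := w13) (by decide +kernel) (ch55 hTd) (tp44 hTd)
lemma tp46 (hTd : TdOK) : Good 0 ![w0, w12, w2, w32, w17, w18] :=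
  split03 (m := w33) (by decide +kernel) (ch61 hTd) (ch62 hTd)
lemma tp47 (hTd : TdOK) : Good 0 ![w0, w12, w2, w32, w4, w18] :=
  split04 (m := w17) (by decide +kernel) (ch60 hTd) (tp46 hTd)
lemma tp48 (hTd : TdOK) : Good 0 ![w0, w12, w2, w32, w4, w8] :=
  split05 (m := w18) (by decide +kernel) (ch59 hTd) (tp47 hTd)
lemma tp49 (hTd : TdOK) : Good 0 ![w42, w12, w44, w41, w39, w43] :=
  split12 (m := w45) (by decide +kernel) (ch70 hTd) (ch71 hTd)
lemma tp50 (hTd : TdOK) : Good 0 ![w42, w12, w44, w41, w39, w40] :=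
  split15 (m := w43) (by decide +kernel) (ch69 hTd) (tp49 hTd)
lemma tp51 (hTd : TdOK) : Good 0 ![w46, w12, w44, w41, w39, w40] :=
  split01 (m := w42) (by decide +kernel) (tp50 hTd) (ch72 hTd)
lemma tp52 (hTd : TdOK) : Good 0 ![w51, w52, w34, w49, w53, w50] :=
  split23 (m := w54) (by decide +kernel) (ch77 hTd) (ch78 hTd)
lemma tp53 (hTd : TdOK) : Good 0 ![w51, w52, w34, w49, w48, w50] :=
  split24 (m := w53) (by decide +kernel) (ch76 hTd) (tp52 hTd)
lemma tp54 (hTd : TdOK) : Good 0 ![w46, w52, w34, w49, w48, w50] :=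
  split02 (m := w51) (by decide +kernel) (tp53 hTd) (ch79 hTd)
lemma tp55 (hTd : TdOK) : Good 0 ![w46, w47, w34, w49, w48, w50] :=
  split12 (m := w52) (by decide +kernel) (tp54 hTd) (ch80 hTd)
lemma tp56 (hTd : TdOK) : Good 0 ![w46, w47, w34, w49, w48, w44] :=
  split25 (m := w50) (by decide +kernel) (ch75 hTd) (tp55 hTd)
lemma tp57 (hTd : TdOK) : Good 0 ![w46, w47, w34, w41, w48, w44] :=
  split23 (m := w49) (by decide +kernel) (ch74 hTd) (tp56 hTd)
lemma tp58 (hTd : TdOK) : Good 0 ![w46, w47, w34, w41, w39, w44] :=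
  split24 (m := w48) (by decide +kernel) (ch73 hTd) (tp57 hTd)
lemma tp59 (hTd : TdOK) : Good 0 ![w42, w12, w47, w56, w55, w45] :=
  split12 (m := w57) (by decide +kernel) (ch84 hTd) (ch85 hTd)
lemma tp60 (hTd : TdOK) : Good 0 ![w42, w12, w47, w41, w55, w45] :=
  split13 (m := w56) (by decide +kernel) (ch83 hTd) (tp59 hTd)
lemma tp61 (hTd : TdOK) : Good 0 ![w42, w12, w47, w41, w39, w45] :=
  split14 (m := w55) (by decide +kernel) (ch82 hTd) (tp60 hTd)
lemma tp62 (hTd : TdOK) : Good 0 ![w42, w12, w47, w41, w39, w44] :=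
  split15 (m := w45) (by decide +kernel) (ch81 hTd) (tp61 hTd)
lemma tp63 (hTd : TdOK) : Good 0 ![w46, w12, w47, w41, w39, w44] :=
  split01 (m := w42) (by decide +kernel) (tp62 hTd) (ch86 hTd)
lemma tp64 (hTd : TdOK) : Good 0 ![w46, w12, w34, w41, w39, w44] :=
  split12 (m := w47) (by decide +kernel) (tp58 hTd) (tp63 hTd)
lemma tp65 (hTd : TdOK) : Good 0 ![w46, w12, w34, w41, w39, w40] :=
  split25 (m := w44) (by decide +kernel) (tp51 hTd) (tp64 hTd)
lemma tp66 (hTd : TdOK) : Good 0 ![w38, w12, w34, w41, w39, w40] :=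
  split02 (m := w46) (by decide +kernel) (tp65 hTd) (ch87 hTd)
lemma tp67 (hTd : TdOK) : Good 0 ![w38, w12, w34, w37, w39, w40] :=
  split13 (m := w41) (by decide +kernel) (ch68 hTd) (tp66 hTd)
lemma tp68 (hTd : TdOK) : Good 0 ![w38, w12, w34, w37, w39, w35] :=
  split15 (m := w40) (by decide +kernel) (ch67 hTd) (tp67 hTd)
lemma tp69 (hTd : TdOK) : Good 0 ![w38, w12, w34, w37, w14, w35] :=
  split14 (m := w39) (by decide +kernel) (ch66 hTd) (tp68 hTd)
lemma tp70 (hTd : TdOK) : Good 0 ![w36, w12, w34, w37, w14, w35] :=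
  split01 (m := w38) (by decide +kernel) (tp69 hTd) (ch88 hTd)
lemma tp71 (hTd : TdOK) : Good 0 ![w36, w12, w34, w32, w14, w35] :=
  split13 (m := w37) (by decide +kernel) (ch65 hTd) (tp70 hTd)
lemma tp72 (hTd : TdOK) : Good 0 ![w60, w12, w44, w42, w61, w40] :=
  split15 (m := w43) (by decide +kernel) (ch95 hTd) (ch96 hTd)
lemma tp73 (hTd : TdOK) : Good 0 ![w60, w12, w44, w46, w61, w40] :=
  split13 (m := w42) (by decide +kernel) (ch94 hTd) (tp72 hTd)
lemma tp74 (hTd : TdOK) : Good 0 ![w60, w12, w44, w46, w59, w40] :=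
  split14 (m := w61) (by decide +kernel) (ch93 hTd) (tp73 hTd)
lemma tp75 (hTd : TdOK) : Good 0 ![w62, w47, w34, w46, w63, w50] :=
  split12 (m := w52) (by decide +kernel) (ch99 hTd) (ch100 hTd)
lemma tp76 (hTd : TdOK) : Good 0 ![w62, w47, w34, w46, w63, w44] :=
  split25 (m := w50) (by decide +kernel) (ch98 hTd) (tp75 hTd)
lemma tp77 (hTd : TdOK) : Good 0 ![w62, w47, w34, w46, w59, w44] :=
  split24 (m := w63) (by decide +kernel) (ch97 hTd) (tp76 hTd)
lemma tp78 (hTd : TdOK) : Good 0 ![w60, w47, w34, w46, w59, w44] :=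
  split02 (m := w62) (by decide +kernel) (tp77 hTd) (ch101 hTd)
lemma tp79 (hTd : TdOK) : Good 0 ![w64, w12, w47, w42, w61, w45] :=
  split12 (m := w57) (by decide +kernel) (ch105 hTd) (ch106 hTd)
lemma tp80 (hTd : TdOK) : Good 0 ![w60, w12, w47, w42, w61, w45] :=
  split01 (m := w64) (by decide +kernel) (tp79 hTd) (ch107 hTd)
lemma tp81 (hTd : TdOK) : Good 0 ![w60, w12, w47, w42, w61, w44] :=
  split15 (m := w45) (by decide +kernel) (ch104 hTd) (tp80 hTd)
lemma tp82 (hTd : TdOK) : Good 0 ![w60, w12, w47, w46, w61, w44] :=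
  split13 (m := w42) (by decide +kernel) (ch103 hTd) (tp81 hTd)
lemma tp83 (hTd : TdOK) : Good 0 ![w60, w12, w47, w46, w59, w44] :=
  split14 (m := w61) (by decide +kernel) (ch102 hTd) (tp82 hTd)
lemma tp84 (hTd : TdOK) : Good 0 ![w60, w12, w34, w46, w59, w44] :=
  split12 (m := w47) (by decide +kernel) (tp78 hTd) (tp83 hTd)
lemma tp85 (hTd : TdOK) : Good 0 ![w60, w12, w34, w46, w59, w40] :=
  split25 (m := w44) (by decide +kernel) (tp74 hTd) (tp84 hTd)
lemma tp86 (hTd : TdOK) : Good 0 ![w60, w12, w34, w38, w59, w40] :=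
  split23 (m := w46) (by decide +kernel) (ch92 hTd) (tp85 hTd)
lemma tp87 (hTd : TdOK) : Good 0 ![w58, w12, w34, w38, w59, w40] :=
  split01 (m := w60) (by decide +kernel) (tp86 hTd) (ch108 hTd)
lemma tp88 (hTd : TdOK) : Good 0 ![w58, w12, w34, w38, w59, w35] :=
  split15 (m := w40) (by decide +kernel) (ch91 hTd) (tp87 hTd)
lemma tp89 (hTd : TdOK) : Good 0 ![w58, w12, w34, w38, w14, w35] :=
  split24 (m := w59) (by decide +kernel) (ch90 hTd) (tp88 hTd)
lemma tp90 (hTd : TdOK) : Good 0 ![w58, w12, w34, w36, w14, w35] :=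
  split13 (m := w38) (by decide +kernel) (ch89 hTd) (tp89 hTd)
lemma tp91 (hTd : TdOK) : Good 0 ![w13, w12, w34, w36, w14, w35] :=
  split02 (m := w58) (by decide +kernel) (tp90 hTd) (ch109 hTd)
lemma tp92 (hTd : TdOK) : Good 0 ![w13, w12, w34, w32, w14, w35] :=
  split03 (m := w36) (by decide +kernel) (tp71 hTd) (tp91 hTd)
lemma tp93 (hTd : TdOK) : Good 0 ![w13, w12, w34, w32, w14, w5] :=
  split15 (m := w35) (by decide +kernel) (ch64 hTd) (tp92 hTd)
lemma tp94 (hTd : TdOK) : Good 0 ![w13, w12, w34, w32, w4, w5] :=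
  split14 (m := w14) (by decide +kernel) (ch63 hTd) (tp93 hTd)
lemma tp95 (hTd : TdOK) : Good 0 ![w67, w47, w34, w46, w48, w62] :=
  split12 (m := w52) (by decide +kernel) (ch118 hTd) (ch119 hTd)
lemma tp96 (hTd : TdOK) : Good 0 ![w66, w47, w34, w46, w48, w62] :=
  split02 (m := w67) (by decide +kernel) (tp95 hTd) (ch120 hTd)
lemma tp97 (hTd : TdOK) : Good 0 ![w66, w47, w34, w46, w48, w60] :=
  split25 (m := w62) (by decide +kernel) (ch117 hTd) (tp96 hTd)
lemma tp98 (hTd : TdOK) : Good 0 ![w66, w47, w34, w46, w39, w60] :=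
  split24 (m := w48) (by decide +kernel) (ch116 hTd) (tp97 hTd)
lemma tp99 (hTd : TdOK) : Good 0 ![w68, w12, w47, w42, w55, w64] :=
  split12 (m := w57) (by decide +kernel) (ch124 hTd) (ch125 hTd)
lemma tp100 (hTd : TdOK) : Good 0 ![w66, w12, w47, w42, w55, w64] :=
  split01 (m := w68) (by decide +kernel) (tp99 hTd) (ch126 hTd)
lemma tp101 (hTd : TdOK) : Good 0 ![w66, w12, w47, w42, w55, w60] :=
  split15 (m := w64) (by decide +kernel) (ch123 hTd) (tp100 hTd)
lemma tp102 (hTd : TdOK) : Good 0 ![w66, w12, w47, w42, w39, w60] :=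
  split14 (m := w55) (by decide +kernel) (ch122 hTd) (tp101 hTd)
lemma tp103 (hTd : TdOK) : Good 0 ![w66, w12, w47, w46, w39, w60] :=
  split13 (m := w42) (by decide +kernel) (ch121 hTd) (tp102 hTd)
lemma tp104 (hTd : TdOK) : Good 0 ![w66, w12, w34, w46, w39, w60] :=
  split12 (m := w47) (by decide +kernel) (tp98 hTd) (tp103 hTd)
lemma tp105 (hTd : TdOK) : Good 0 ![w66, w12, w34, w38, w39, w60] :=
  split23 (m := w46) (by decide +kernel) (ch115 hTd) (tp104 hTd)
lemma tp106 (hTd : TdOK) : Good 0 ![w65, w12, w34, w38, w39, w60] :=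
  split01 (m := w66) (by decide +kernel) (tp105 hTd) (ch127 hTd)
lemma tp107 (hTd : TdOK) : Good 0 ![w65, w12, w34, w38, w39, w58] :=
  split15 (m := w60) (by decide +kernel) (ch114 hTd) (tp106 hTd)
lemma tp108 (hTd : TdOK) : Good 0 ![w65, w12, w34, w38, w14, w58] :=
  split14 (m := w39) (by decide +kernel) (ch113 hTd) (tp107 hTd)
lemma tp109 (hTd : TdOK) : Good 0 ![w65, w12, w34, w36, w14, w58] :=
  split13 (m := w38) (by decide +kernel) (ch112 hTd) (tp108 hTd)
lemma tp110 (hTd : TdOK) : Good 0 ![w65, w12, w34, w36, w14, w13] :=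
  split25 (m := w58) (by decide +kernel) (ch111 hTd) (tp109 hTd)
lemma tp111 (hTd : TdOK) : Good 0 ![w17, w12, w34, w36, w14, w13] :=
  split02 (m := w65) (by decide +kernel) (tp110 hTd) (ch128 hTd)
lemma tp112 (hTd : TdOK) : Good 0 ![w67, w52, w34, w49, w53, w51] :=
  split23 (m := w54) (by decide +kernel) (ch138 hTd) (ch139 hTd)
lemma tp113 (hTd : TdOK) : Good 0 ![w67, w52, w34, w49, w48, w51] :=
  split24 (m := w53) (by decide +kernel) (ch137 hTd) (tp112 hTd)
lemma tp114 (hTd : TdOK) : Good 0 ![w67, w47, w34, w49, w48, w51] :=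
  split12 (m := w52) (by decide +kernel) (tp113 hTd) (ch140 hTd)
lemma tp115 (hTd : TdOK) : Good 0 ![w67, w47, w34, w49, w48, w46] :=
  split25 (m := w51) (by decide +kernel) (ch136 hTd) (tp114 hTd)
lemma tp116 (hTd : TdOK) : Good 0 ![w66, w47, w34, w49, w48, w46] :=
  split02 (m := w67) (by decide +kernel) (tp115 hTd) (ch141 hTd)
lemma tp117 (hTd : TdOK) : Good 0 ![w66, w47, w34, w41, w48, w46] :=
  split23 (m := w49) (by decide +kernel) (ch135 hTd) (tp116 hTd)
lemma tp118 (hTd : TdOK) : Good 0 ![w66, w47, w34, w41, w39, w46] :=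
  split24 (m := w48) (by decide +kernel) (ch134 hTd) (tp117 hTd)
lemma tp119 (hTd : TdOK) : Good 0 ![w68, w57, w47, w56, w69, w42] :=
  split23 (m := w70) (by decide +kernel) (ch146 hTd) (ch147 hTd)
lemma tp120 (hTd : TdOK) : Good 0 ![w68, w57, w47, w56, w55, w42] :=
  split24 (m := w69) (by decide +kernel) (ch145 hTd) (tp119 hTd)
lemma tp121 (hTd : TdOK) : Good 0 ![w68, w12, w47, w56, w55, w42] :=
  split12 (m := w57) (by decide +kernel) (tp120 hTd) (ch148 hTd)
lemma tp122 (hTd : TdOK) : Good 0 ![w68, w12, w47, w41, w55, w42] :=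
  split13 (m := w56) (by decide +kernel) (ch144 hTd) (tp121 hTd)
lemma tp123 (hTd : TdOK) : Good 0 ![w66, w12, w47, w41, w55, w42] :=
  split01 (m := w68) (by decide +kernel) (tp122 hTd) (ch149 hTd)
lemma tp124 (hTd : TdOK) : Good 0 ![w66, w12, w47, w41, w39, w42] :=
  split14 (m := w55) (by decide +kernel) (ch143 hTd) (tp123 hTd)
lemma tp125 (hTd : TdOK) : Good 0 ![w66, w12, w47, w41, w39, w46] :=
  split15 (m := w42) (by decide +kernel) (ch142 hTd) (tp124 hTd)
lemma tp126 (hTd : TdOK) : Good 0 ![w66, w12, w34, w41, w39, w46] :=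
  split12 (m := w47) (by decide +kernel) (tp118 hTd) (tp125 hTd)
lemma tp127 (hTd : TdOK) : Good 0 ![w66, w12, w34, w41, w39, w38] :=
  split25 (m := w46) (by decide +kernel) (ch133 hTd) (tp126 hTd)
lemma tp128 (hTd : TdOK) : Good 0 ![w66, w12, w34, w37, w39, w38] :=
  split13 (m := w41) (by decide +kernel) (ch132 hTd) (tp127 hTd)
lemma tp129 (hTd : TdOK) : Good 0 ![w65, w12, w34, w37, w39, w38] :=
  split01 (m := w66) (by decide +kernel) (tp128 hTd) (ch150 hTd)
lemma tp130 (hTd : TdOK) : Good 0 ![w65, w12, w34, w37, w14, w38] :=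
  split14 (m := w39) (by decide +kernel) (ch131 hTd) (tp129 hTd)
lemma tp131 (hTd : TdOK) : Good 0 ![w65, w12, w34, w37, w14, w36] :=
  split15 (m := w38) (by decide +kernel) (ch130 hTd) (tp130 hTd)
lemma tp132 (hTd : TdOK) : Good 0 ![w17, w12, w34, w37, w14, w36] :=
  split02 (m := w65) (by decide +kernel) (tp131 hTd) (ch151 hTd)
lemma tp133 (hTd : TdOK) : Good 0 ![w17, w12, w34, w32, w14, w36] :=
  split13 (m := w37) (by decide +kernel) (ch129 hTd) (tp132 hTd)
lemma tp134 (hTd : TdOK) : Good 0 ![w17, w12, w34, w32, w14, w13] :=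
  split35 (m := w36) (by decide +kernel) (tp111 hTd) (tp133 hTd)
lemma tp135 (hTd : TdOK) : Good 0 ![w17, w12, w34, w32, w4, w13] :=
  split14 (m := w14) (by decide +kernel) (ch110 hTd) (tp134 hTd)
lemma tp136 (hTd : TdOK) : Good 0 ![w73, w52, w34, w51, w67, w74] :=
  split24 (m := w75) (by decide +kernel) (ch162 hTd) (ch163 hTd)
lemma tp137 (hTd : TdOK) : Good 0 ![w73, w52, w34, w51, w67, w62] :=
  split25 (m := w74) (by decide +kernel) (ch161 hTd) (tp136 hTd)
lemma tp138 (hTd : TdOK) : Good 0 ![w73, w47, w34, w51, w67, w62] :=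
  split12 (m := w52) (by decide +kernel) (tp137 hTd) (ch164 hTd)
lemma tp139 (hTd : TdOK) : Good 0 ![w73, w47, w34, w46, w67, w62] :=
  split23 (m := w51) (by decide +kernel) (ch160 hTd) (tp138 hTd)
lemma tp140 (hTd : TdOK) : Good 0 ![w72, w47, w34, w46, w67, w62] :=
  split02 (m := w73) (by decide +kernel) (tp139 hTd) (ch165 hTd)
lemma tp141 (hTd : TdOK) : Good 0 ![w72, w47, w34, w46, w66, w62] :=
  split24 (m := w67) (by decide +kernel) (ch159 hTd) (tp140 hTd)
lemma tp142 (hTd : TdOK) : Good 0 ![w72, w47, w34, w46, w66, w60] :=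
  split25 (m := w62) (by decide +kernel) (ch158 hTd) (tp141 hTd)
lemma tp143 (hTd : TdOK) : Good 0 ![w72, w12, w47, w42, w68, w64] :=
  split01 (m := w76) (by decide +kernel) (ch169 hTd) (ch170 hTd)
lemma tp144 (hTd : TdOK) : Good 0 ![w72, w12, w47, w42, w66, w64] :=
  split14 (m := w68) (by decide +kernel) (ch168 hTd) (tp143 hTd)
lemma tp145 (hTd : TdOK) : Good 0 ![w72, w12, w47, w42, w66, w60] :=
  split15 (m := w64) (by decide +kernel) (ch167 hTd) (tp144 hTd)
lemma tp146 (hTd : TdOK) : Good 0 ![w72, w12, w47, w46, w66, w60] :=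
  split13 (m := w42) (by decide +kernel) (ch166 hTd) (tp145 hTd)
lemma tp147 (hTd : TdOK) : Good 0 ![w72, w12, w34, w46, w66, w60] :=
  split12 (m := w47) (by decide +kernel) (tp142 hTd) (tp146 hTd)
lemma tp148 (hTd : TdOK) : Good 0 ![w77, w72, w34, w46, w67, w62] :=
  split12 (m := w73) (by decide +kernel) (ch173 hTd) (ch174 hTd)
lemma tp149 (hTd : TdOK) : Good 0 ![w77, w72, w34, w46, w66, w62] :=
  split24 (m := w67) (by decide +kernel) (ch172 hTd) (tp148 hTd)
lemma tp150 (hTd : TdOK) : Good 0 ![w77, w72, w34, w46, w66, w60] :=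
  split25 (m := w62) (by decide +kernel) (ch171 hTd) (tp149 hTd)
lemma tp151 (hTd : TdOK) : Good 0 ![w71, w72, w34, w46, w66, w60] :=
  split02 (m := w77) (by decide +kernel) (tp150 hTd) (ch175 hTd)
lemma tp152 (hTd : TdOK) : Good 0 ![w71, w12, w34, w46, w66, w60] :=
  split01 (m := w72) (by decide +kernel) (tp147 hTd) (tp151 hTd)
lemma tp153 (hTd : TdOK) : Good 0 ![w71, w12, w34, w38, w66, w60] :=
  split23 (m := w46) (by decide +kernel) (ch157 hTd) (tp152 hTd)
lemma tp154 (hTd : TdOK) : Good 0 ![w71, w12, w34, w38, w65, w60] :=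
  split14 (m := w66) (by decide +kernel) (ch156 hTd) (tp153 hTd)
lemma tp155 (hTd : TdOK) : Good 0 ![w71, w12, w34, w38, w65, w58] :=
  split15 (m := w60) (by decide +kernel) (ch155 hTd) (tp154 hTd)
lemma tp156 (hTd : TdOK) : Good 0 ![w71, w12, w34, w36, w65, w58] :=
  split13 (m := w38) (by decide +kernel) (ch154 hTd) (tp155 hTd)
lemma tp157 (hTd : TdOK) : Good 0 ![w33, w12, w34, w36, w65, w58] :=
  split02 (m := w71) (by decide +kernel) (tp156 hTd) (ch176 hTd)
lemma tp158 (hTd : TdOK) : Good 0 ![w33, w12, w34, w36, w65, w13] :=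
  split25 (m := w58) (by decide +kernel) (ch153 hTd) (tp157 hTd)
lemma tp159 (hTd : TdOK) : Good 0 ![w33, w12, w34, w36, w17, w13] :=
  split24 (m := w65) (by decide +kernel) (ch152 hTd) (tp158 hTd)
lemma tp160 (hTd : TdOK) : Good 0 ![w73, w52, w34, w81, w67, w51] :=
  split24 (m := w75) (by decide +kernel) (ch186 hTd) (ch187 hTd)
lemma tp161 (hTd : TdOK) : Good 0 ![w73, w52, w34, w80, w67, w51] :=
  split23 (m := w81) (by decide +kernel) (ch185 hTd) (tp160 hTd)
lemma tp162 (hTd : TdOK) : Good 0 ![w73, w47, w34, w80, w67, w51] :=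
  split12 (m := w52) (by decide +kernel) (tp161 hTd) (ch188 hTd)
lemma tp163 (hTd : TdOK) : Good 0 ![w73, w47, w34, w80, w67, w46] :=
  split25 (m := w51) (by decide +kernel) (ch184 hTd) (tp162 hTd)
lemma tp164 (hTd : TdOK) : Good 0 ![w72, w47, w34, w80, w67, w46] :=
  split02 (m := w73) (by decide +kernel) (tp163 hTd) (ch189 hTd)
lemma tp165 (hTd : TdOK) : Good 0 ![w72, w47, w34, w80, w66, w46] :=
  split24 (m := w67) (by decide +kernel) (ch183 hTd) (tp164 hTd)
lemma tp166 (hTd : TdOK) : Good 0 ![w76, w12, w47, w82, w68, w42] :=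
  split12 (m := w57) (by decide +kernel) (ch193 hTd) (ch194 hTd)
lemma tp167 (hTd : TdOK) : Good 0 ![w72, w12, w47, w82, w68, w42] :=
  split01 (m := w76) (by decide +kernel) (tp166 hTd) (ch195 hTd)
lemma tp168 (hTd : TdOK) : Good 0 ![w72, w12, w47, w82, w66, w42] :=
  split14 (m := w68) (by decide +kernel) (ch192 hTd) (tp167 hTd)
lemma tp169 (hTd : TdOK) : Good 0 ![w72, w12, w47, w80, w66, w42] :=
  split13 (m := w82) (by decide +kernel) (ch191 hTd) (tp168 hTd)
lemma tp170 (hTd : TdOK) : Good 0 ![w72, w12, w47, w80, w66, w46] :=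
  split15 (m := w42) (by decide +kernel) (ch190 hTd) (tp169 hTd)
lemma tp171 (hTd : TdOK) : Good 0 ![w72, w12, w34, w80, w66, w46] :=
  split12 (m := w47) (by decide +kernel) (tp165 hTd) (tp170 hTd)
lemma tp172 (hTd : TdOK) : Good 0 ![w71, w12, w34, w80, w66, w46] :=
  split01 (m := w72) (by decide +kernel) (tp171 hTd) (ch196 hTd)
lemma tp173 (hTd : TdOK) : Good 0 ![w71, w12, w34, w79, w66, w46] :=
  split23 (m := w80) (by decide +kernel) (ch182 hTd) (tp172 hTd)
lemma tp174 (hTd : TdOK) : Good 0 ![w71, w12, w34, w79, w66, w38] :=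
  split25 (m := w46) (by decide +kernel) (ch181 hTd) (tp173 hTd)
lemma tp175 (hTd : TdOK) : Good 0 ![w71, w12, w34, w79, w65, w38] :=
  split14 (m := w66) (by decide +kernel) (ch180 hTd) (tp174 hTd)
lemma tp176 (hTd : TdOK) : Good 0 ![w71, w12, w34, w79, w65, w36] :=
  split15 (m := w38) (by decide +kernel) (ch179 hTd) (tp175 hTd)
lemma tp177 (hTd : TdOK) : Good 0 ![w71, w12, w34, w78, w65, w36] :=
  split13 (m := w79) (by decide +kernel) (ch178 hTd) (tp176 hTd)
lemma tp178 (hTd : TdOK) : Good 0 ![w33, w12, w34, w78, w65, w36] :=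
  split02 (m := w71) (by decide +kernel) (tp177 hTd) (ch197 hTd)
lemma tp179 (hTd : TdOK) : Good 0 ![w33, w12, w34, w78, w17, w36] :=
  split24 (m := w65) (by decide +kernel) (ch177 hTd) (tp178 hTd)
lemma tp180 (hTd : TdOK) : Good 0 ![w73, w52, w34, w49, w80, w51] :=
  split24 (m := w81) (by decide +kernel) (ch206 hTd) (ch207 hTd)
lemma tp181 (hTd : TdOK) : Good 0 ![w73, w47, w34, w49, w80, w51] :=
  split12 (m := w52) (by decide +kernel) (tp180 hTd) (ch208 hTd)
lemma tp182 (hTd : TdOK) : Good 0 ![w73, w47, w34, w49, w80, w46] :=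
  split25 (m := w51) (by decide +kernel) (ch205 hTd) (tp181 hTd)
lemma tp183 (hTd : TdOK) : Good 0 ![w72, w47, w34, w49, w80, w46] :=
  split02 (m := w73) (by decide +kernel) (tp182 hTd) (ch209 hTd)
lemma tp184 (hTd : TdOK) : Good 0 ![w72, w47, w34, w41, w80, w46] :=
  split23 (m := w49) (by decide +kernel) (ch204 hTd) (tp183 hTd)
lemma tp185 (hTd : TdOK) : Good 0 ![w76, w57, w47, w56, w82, w42] :=
  split23 (m := w70) (by decide +kernel) (ch213 hTd) (ch214 hTd)
lemma tp186 (hTd : TdOK) : Good 0 ![w76, w12, w47, w56, w82, w42] :=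
  split12 (m := w57) (by decide +kernel) (tp185 hTd) (ch215 hTd)
lemma tp187 (hTd : TdOK) : Good 0 ![w76, w12, w47, w41, w82, w42] :=
  split13 (m := w56) (by decide +kernel) (ch212 hTd) (tp186 hTd)
lemma tp188 (hTd : TdOK) : Good 0 ![w72, w12, w47, w41, w82, w42] :=
  split01 (m := w76) (by decide +kernel) (tp187 hTd) (ch216 hTd)
lemma tp189 (hTd : TdOK) : Good 0 ![w72, w12, w47, w41, w80, w42] :=
  split14 (m := w82) (by decide +kernel) (ch211 hTd) (tp188 hTd)
lemma tp190 (hTd : TdOK) : Good 0 ![w72, w12, w47, w41, w80, w46] :=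
  split15 (m := w42) (by decide +kernel) (ch210 hTd) (tp189 hTd)
lemma tp191 (hTd : TdOK) : Good 0 ![w72, w12, w34, w41, w80, w46] :=
  split12 (m := w47) (by decide +kernel) (tp184 hTd) (tp190 hTd)
lemma tp192 (hTd : TdOK) : Good 0 ![w71, w12, w34, w41, w80, w46] :=
  split01 (m := w72) (by decide +kernel) (tp191 hTd) (ch217 hTd)
lemma tp193 (hTd : TdOK) : Good 0 ![w71, w12, w34, w41, w79, w46] :=
  split24 (m := w80) (by decide +kernel) (ch203 hTd) (tp192 hTd)
lemma tp194 (hTd : TdOK) : Good 0 ![w71, w12, w34, w41, w79, w38] :=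
  split25 (m := w46) (by decide +kernel) (ch202 hTd) (tp193 hTd)
lemma tp195 (hTd : TdOK) : Good 0 ![w71, w12, w34, w37, w79, w38] :=
  split13 (m := w41) (by decide +kernel) (ch201 hTd) (tp194 hTd)
lemma tp196 (hTd : TdOK) : Good 0 ![w71, w12, w34, w37, w79, w36] :=
  split15 (m := w38) (by decide +kernel) (ch200 hTd) (tp195 hTd)
lemma tp197 (hTd : TdOK) : Good 0 ![w71, w12, w34, w37, w78, w36] :=
  split14 (m := w79) (by decide +kernel) (ch199 hTd) (tp196 hTd)
lemma tp198 (hTd : TdOK) : Good 0 ![w33, w12, w34, w37, w78, w36] :=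
  split02 (m := w71) (by decide +kernel) (tp197 hTd) (ch218 hTd)
lemma tp199 (hTd : TdOK) : Good 0 ![w33, w12, w34, w32, w78, w36] :=
  split13 (m := w37) (by decide +kernel) (ch198 hTd) (tp198 hTd)
lemma tp200 (hTd : TdOK) : Good 0 ![w33, w12, w34, w32, w17, w36] :=
  split34 (m := w78) (by decide +kernel) (tp179 hTd) (tp199 hTd)
lemma tp201 (hTd : TdOK) : Good 0 ![w33, w12, w34, w32, w17, w13] :=
  split35 (m := w36) (by decide +kernel) (tp159 hTd) (tp200 hTd)
lemma tp202 (hTd : TdOK) : Good 0 ![w84, w62, w34, w77, w86, w85] :=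
  split02 (m := w87) (by decide +kernel) (ch225 hTd) (ch226 hTd)
lemma tp203 (hTd : TdOK) : Good 0 ![w84, w62, w34, w71, w86, w85] :=
  split23 (m := w77) (by decide +kernel) (ch224 hTd) (tp202 hTd)
lemma tp204 (hTd : TdOK) : Good 0 ![w84, w60, w34, w71, w86, w85] :=
  split12 (m := w62) (by decide +kernel) (tp203 hTd) (ch227 hTd)
lemma tp205 (hTd : TdOK) : Good 0 ![w84, w60, w34, w71, w65, w85] :=
  split24 (m := w86) (by decide +kernel) (ch223 hTd) (tp204 hTd)
lemma tp206 (hTd : TdOK) : Good 0 ![w84, w60, w34, w71, w65, w58] :=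
  split25 (m := w85) (by decide +kernel) (ch222 hTd) (tp205 hTd)
lemma tp207 (hTd : TdOK) : Good 0 ![w87, w67, w34, w77, w86, w62] :=
  split24 (m := w88) (by decide +kernel) (ch231 hTd) (ch232 hTd)
lemma tp208 (hTd : TdOK) : Good 0 ![w84, w67, w34, w77, w86, w62] :=
  split02 (m := w87) (by decide +kernel) (tp207 hTd) (ch233 hTd)
lemma tp209 (hTd : TdOK) : Good 0 ![w84, w67, w34, w71, w86, w62] :=
  split23 (m := w77) (by decide +kernel) (ch230 hTd) (tp208 hTd)
lemma tp210 (hTd : TdOK) : Good 0 ![w84, w66, w34, w71, w86, w62] :=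
  split12 (m := w67) (by decide +kernel) (tp209 hTd) (ch234 hTd)
lemma tp211 (hTd : TdOK) : Good 0 ![w84, w66, w34, w71, w86, w60] :=
  split25 (m := w62) (by decide +kernel) (ch229 hTd) (tp210 hTd)
lemma tp212 (hTd : TdOK) : Good 0 ![w84, w66, w34, w71, w65, w60] :=
  split24 (m := w86) (by decide +kernel) (ch228 hTd) (tp211 hTd)
lemma tp213 (hTd : TdOK) : Good 0 ![w87, w52, w74, w77, w67, w62] :=
  split13 (m := w89) (by decide +kernel) (ch238 hTd) (ch239 hTd)
lemma tp214 (hTd : TdOK) : Good 0 ![w87, w52, w34, w77, w67, w74] :=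
  split24 (m := w75) (by decide +kernel) (ch240 hTd) (ch241 hTd)
lemma tp215 (hTd : TdOK) : Good 0 ![w87, w52, w34, w77, w67, w62] :=
  split25 (m := w74) (by decide +kernel) (tp213 hTd) (tp214 hTd)
lemma tp216 (hTd : TdOK) : Good 0 ![w87, w47, w52, w77, w67, w62] :=
  split13 (m := w73) (by decide +kernel) (ch242 hTd) (ch243 hTd)
lemma tp217 (hTd : TdOK) : Good 0 ![w87, w47, w34, w77, w67, w62] :=
  split12 (m := w52) (by decide +kernel) (tp215 hTd) (tp216 hTd)
lemma tp218 (hTd : TdOK) : Good 0 ![w84, w47, w34, w77, w67, w62] :=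
  split02 (m := w87) (by decide +kernel) (tp217 hTd) (ch244 hTd)
lemma tp219 (hTd : TdOK) : Good 0 ![w84, w47, w34, w77, w66, w62] :=
  split24 (m := w67) (by decide +kernel) (ch237 hTd) (tp218 hTd)
lemma tp220 (hTd : TdOK) : Good 0 ![w84, w47, w34, w71, w66, w62] :=
  split23 (m := w77) (by decide +kernel) (ch236 hTd) (tp219 hTd)
lemma tp221 (hTd : TdOK) : Good 0 ![w84, w47, w34, w71, w66, w60] :=
  split25 (m := w62) (by decide +kernel) (ch235 hTd) (tp220 hTd)
lemma tp222 (hTd : TdOK) : Good 0 ![w91, w57, w47, w76, w68, w64] :=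
  split25 (m := w92) (by decide +kernel) (ch249 hTd) (ch250 hTd)
lemma tp223 (hTd : TdOK) : Good 0 ![w91, w12, w47, w76, w68, w64] :=
  split12 (m := w57) (by decide +kernel) (tp222 hTd) (ch251 hTd)
lemma tp224 (hTd : TdOK) : Good 0 ![w90, w12, w47, w76, w68, w64] :=
  split01 (m := w91) (by decide +kernel) (tp223 hTd) (ch252 hTd)
lemma tp225 (hTd : TdOK) : Good 0 ![w90, w12, w47, w72, w68, w64] :=
  split13 (m := w76) (by decide +kernel) (ch248 hTd) (tp224 hTd)
lemma tp226 (hTd : TdOK) : Good 0 ![w90, w12, w47, w72, w66, w64] :=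
  split14 (m := w68) (by decide +kernel) (ch247 hTd) (tp225 hTd)
lemma tp227 (hTd : TdOK) : Good 0 ![w90, w12, w47, w72, w66, w60] :=
  split15 (m := w64) (by decide +kernel) (ch246 hTd) (tp226 hTd)
lemma tp228 (hTd : TdOK) : Good 0 ![w84, w12, w47, w72, w66, w60] :=
  split01 (m := w90) (by decide +kernel) (tp227 hTd) (ch253 hTd)
lemma tp229 (hTd : TdOK) : Good 0 ![w84, w12, w47, w71, w66, w60] :=
  split13 (m := w72) (by decide +kernel) (ch245 hTd) (tp228 hTd)
lemma tp230 (hTd : TdOK) : Good 0 ![w84, w12, w34, w71, w66, w60] :=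
  split12 (m := w47) (by decide +kernel) (tp221 hTd) (tp229 hTd)
lemma tp231 (hTd : TdOK) : Good 0 ![w84, w12, w34, w71, w65, w60] :=
  split14 (m := w66) (by decide +kernel) (tp212 hTd) (tp230 hTd)
lemma tp232 (hTd : TdOK) : Good 0 ![w84, w12, w34, w71, w65, w58] :=
  split15 (m := w60) (by decide +kernel) (tp206 hTd) (tp231 hTd)
lemma tp233 (hTd : TdOK) : Good 0 ![w83, w12, w34, w71, w65, w58] :=
  split02 (m := w84) (by decide +kernel) (tp232 hTd) (ch254 hTd)
lemma tp234 (hTd : TdOK) : Good 0 ![w83, w12, w34, w33, w65, w58] :=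
  split23 (m := w71) (by decide +kernel) (ch221 hTd) (tp233 hTd)
lemma tp235 (hTd : TdOK) : Good 0 ![w83, w12, w34, w33, w65, w13] :=
  split25 (m := w58) (by decide +kernel) (ch220 hTd) (tp234 hTd)
lemma tp236 (hTd : TdOK) : Good 0 ![w83, w12, w34, w33, w17, w13] :=
  split24 (m := w65) (by decide +kernel) (ch219 hTd) (tp235 hTd)
lemma tp237 (hTd : TdOK) : Good 0 ![w0, w12, w34, w33, w17, w13] :=
  split02 (m := w83) (by decide +kernel) (tp236 hTd) (ch255 hTd)
lemma tp238 (hTd : TdOK) : Good 0 ![w0, w12, w34, w32, w17, w13] :=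
  split03 (m := w33) (by decide +kernel) (tp201 hTd) (tp237 hTd)
lemma tp239 (hTd : TdOK) : Good 0 ![w0, w12, w34, w32, w4, w13] :=
  split04 (m := w17) (by decide +kernel) (tp135 hTd) (tp238 hTd)
lemma tp240 (hTd : TdOK) : Good 0 ![w0, w12, w34, w32, w4, w5] :=
  split05 (m := w13) (by decide +kernel) (tp94 hTd) (tp239 hTd)
lemma tp241 (hTd : TdOK) : Good 0 ![w96, w12, w99, w41, w39, w98] :=
  split14 (m := w55) (by decide +kernel) (ch264 hTd) (ch265 hTd)
lemma tp242 (hTd : TdOK) : Good 0 ![w96, w12, w97, w41, w39, w98] :=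
  split12 (m := w99) (by decide +kernel) (ch263 hTd) (tp241 hTd)
lemma tp243 (hTd : TdOK) : Good 0 ![w96, w12, w97, w41, w39, w95] :=
  split15 (m := w98) (by decide +kernel) (ch262 hTd) (tp242 hTd)
lemma tp244 (hTd : TdOK) : Good 0 ![w96, w12, w97, w37, w39, w95] :=
  split13 (m := w41) (by decide +kernel) (ch261 hTd) (tp243 hTd)
lemma tp245 (hTd : TdOK) : Good 0 ![w100, w52, w34, w49, w53, w101] :=
  split23 (m := w54) (by decide +kernel) (ch271 hTd) (ch272 hTd)
lemma tp246 (hTd : TdOK) : Good 0 ![w100, w52, w34, w49, w48, w101] :=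
  split24 (m := w53) (by decide +kernel) (ch270 hTd) (tp245 hTd)
lemma tp247 (hTd : TdOK) : Good 0 ![w100, w47, w34, w49, w48, w101] :=
  split12 (m := w52) (by decide +kernel) (tp246 hTd) (ch273 hTd)
lemma tp248 (hTd : TdOK) : Good 0 ![w100, w47, w34, w49, w48, w97] :=
  split25 (m := w101) (by decide +kernel) (ch269 hTd) (tp247 hTd)
lemma tp249 (hTd : TdOK) : Good 0 ![w96, w47, w34, w49, w48, w97] :=
  split02 (m := w100) (by decide +kernel) (tp248 hTd) (ch274 hTd)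
lemma tp250 (hTd : TdOK) : Good 0 ![w96, w47, w34, w41, w48, w97] :=
  split23 (m := w49) (by decide +kernel) (ch268 hTd) (tp249 hTd)
lemma tp251 (hTd : TdOK) : Good 0 ![w96, w47, w34, w41, w39, w97] :=
  split24 (m := w48) (by decide +kernel) (ch267 hTd) (tp250 hTd)
lemma tp252 (hTd : TdOK) : Good 0 ![w102, w57, w47, w56, w69, w99] :=
  split23 (m := w70) (by decide +kernel) (ch279 hTd) (ch280 hTd)
lemma tp253 (hTd : TdOK) : Good 0 ![w102, w57, w47, w56, w55, w99] :=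
  split24 (m := w69) (by decide +kernel) (ch278 hTd) (tp252 hTd)
lemma tp254 (hTd : TdOK) : Good 0 ![w102, w12, w47, w56, w55, w99] :=
  split12 (m := w57) (by decide +kernel) (tp253 hTd) (ch281 hTd)
lemma tp255 (hTd : TdOK) : Good 0 ![w102, w12, w47, w41, w55, w99] :=
  split13 (m := w56) (by decide +kernel) (ch277 hTd) (tp254 hTd)
lemma tp256 (hTd : TdOK) : Good 0 ![w96, w12, w47, w41, w55, w99] :=
  split01 (m := w102) (by decide +kernel) (tp255 hTd) (ch282 hTd)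
lemma tp257 (hTd : TdOK) : Good 0 ![w96, w12, w47, w41, w39, w99] :=
  split14 (m := w55) (by decide +kernel) (ch276 hTd) (tp256 hTd)
lemma tp258 (hTd : TdOK) : Good 0 ![w96, w12, w47, w41, w39, w97] :=
  split15 (m := w99) (by decide +kernel) (ch275 hTd) (tp257 hTd)
lemma tp259 (hTd : TdOK) : Good 0 ![w96, w12, w34, w41, w39, w97] :=
  split12 (m := w47) (by decide +kernel) (tp251 hTd) (tp258 hTd)
lemma tp260 (hTd : TdOK) : Good 0 ![w96, w12, w34, w37, w39, w97] :=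
  split13 (m := w41) (by decide +kernel) (ch266 hTd) (tp259 hTd)
lemma tp261 (hTd : TdOK) : Good 0 ![w96, w12, w34, w37, w39, w95] :=
  split25 (m := w97) (by decide +kernel) (tp244 hTd) (tp260 hTd)
lemma tp262 (hTd : TdOK) : Good 0 ![w94, w12, w34, w37, w39, w95] :=
  split01 (m := w96) (by decide +kernel) (tp261 hTd) (ch283 hTd)
lemma tp263 (hTd : TdOK) : Good 0 ![w94, w12, w34, w37, w14, w95] :=
  split14 (m := w39) (by decide +kernel) (ch260 hTd) (tp262 hTd)
lemma tp264 (hTd : TdOK) : Good 0 ![w94, w12, w34, w37, w14, w93] :=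
  split15 (m := w95) (by decide +kernel) (ch259 hTd) (tp263 hTd)
lemma tp265 (hTd : TdOK) : Good 0 ![w94, w12, w34, w32, w14, w93] :=
  split13 (m := w37) (by decide +kernel) (ch258 hTd) (tp264 hTd)
lemma tp266 (hTd : TdOK) : Good 0 ![w18, w12, w34, w32, w14, w93] :=
  split02 (m := w94) (by decide +kernel) (tp265 hTd) (ch284 hTd)
lemma tp267 (hTd : TdOK) : Good 0 ![w18, w12, w34, w32, w4, w93] :=
  split14 (m := w14) (by decide +kernel) (ch257 hTd) (tp266 hTd)
lemma tp268 (hTd : TdOK) : Good 0 ![w18, w12, w34, w32, w4, w8] :=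
  split15 (m := w93) (by decide +kernel) (ch256 hTd) (tp267 hTd)
lemma tp269 (hTd : TdOK) : Good 0 ![w67, w52, w34, w49, w53, w100] :=
  split23 (m := w54) (by decide +kernel) (ch295 hTd) (ch296 hTd)
lemma tp270 (hTd : TdOK) : Good 0 ![w67, w52, w34, w49, w48, w100] :=
  split24 (m := w53) (by decide +kernel) (ch294 hTd) (tp269 hTd)
lemma tp271 (hTd : TdOK) : Good 0 ![w67, w47, w34, w49, w48, w100] :=
  split12 (m := w52) (by decide +kernel) (tp270 hTd) (ch297 hTd)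
lemma tp272 (hTd : TdOK) : Good 0 ![w66, w47, w34, w49, w48, w100] :=
  split02 (m := w67) (by decide +kernel) (tp271 hTd) (ch298 hTd)
lemma tp273 (hTd : TdOK) : Good 0 ![w66, w47, w34, w49, w48, w96] :=
  split25 (m := w100) (by decide +kernel) (ch293 hTd) (tp272 hTd)
lemma tp274 (hTd : TdOK) : Good 0 ![w66, w47, w34, w41, w48, w96] :=
  split23 (m := w49) (by decide +kernel) (ch292 hTd) (tp273 hTd)
lemma tp275 (hTd : TdOK) : Good 0 ![w66, w47, w34, w41, w39, w96] :=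
  split24 (m := w48) (by decide +kernel) (ch291 hTd) (tp274 hTd)
lemma tp276 (hTd : TdOK) : Good 0 ![w68, w57, w47, w56, w69, w102] :=
  split23 (m := w70) (by decide +kernel) (ch303 hTd) (ch304 hTd)
lemma tp277 (hTd : TdOK) : Good 0 ![w68, w57, w47, w56, w55, w102] :=
  split24 (m := w69) (by decide +kernel) (ch302 hTd) (tp276 hTd)
lemma tp278 (hTd : TdOK) : Good 0 ![w68, w12, w47, w56, w55, w102] :=
  split12 (m := w57) (by decide +kernel) (tp277 hTd) (ch305 hTd)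
lemma tp279 (hTd : TdOK) : Good 0 ![w68, w12, w47, w41, w55, w102] :=
  split13 (m := w56) (by decide +kernel) (ch301 hTd) (tp278 hTd)
lemma tp280 (hTd : TdOK) : Good 0 ![w66, w12, w47, w41, w55, w102] :=
  split01 (m := w68) (by decide +kernel) (tp279 hTd) (ch306 hTd)
lemma tp281 (hTd : TdOK) : Good 0 ![w66, w12, w47, w41, w55, w96] :=
  split15 (m := w102) (by decide +kernel) (ch300 hTd) (tp280 hTd)
lemma tp282 (hTd : TdOK) : Good 0 ![w66, w12, w47, w41, w39, w96] :=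
  split14 (m := w55) (by decide +kernel) (ch299 hTd) (tp281 hTd)
lemma tp283 (hTd : TdOK) : Good 0 ![w66, w12, w34, w41, w39, w96] :=
  split12 (m := w47) (by decide +kernel) (tp275 hTd) (tp282 hTd)
lemma tp284 (hTd : TdOK) : Good 0 ![w66, w12, w34, w37, w39, w96] :=
  split13 (m := w41) (by decide +kernel) (ch290 hTd) (tp283 hTd)
lemma tp285 (hTd : TdOK) : Good 0 ![w65, w12, w34, w37, w39, w96] :=
  split01 (m := w66) (by decide +kernel) (tp284 hTd) (ch307 hTd)
lemma tp286 (hTd : TdOK) : Good 0 ![w65, w12, w34, w37, w39, w94] :=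
  split15 (m := w96) (by decide +kernel) (ch289 hTd) (tp285 hTd)
lemma tp287 (hTd : TdOK) : Good 0 ![w65, w12, w34, w37, w14, w94] :=
  split14 (m := w39) (by decide +kernel) (ch288 hTd) (tp286 hTd)
lemma tp288 (hTd : TdOK) : Good 0 ![w17, w12, w34, w37, w14, w94] :=
  split02 (m := w65) (by decide +kernel) (tp287 hTd) (ch308 hTd)
lemma tp289 (hTd : TdOK) : Good 0 ![w17, w12, w34, w32, w14, w94] :=
  split13 (m := w37) (by decide +kernel) (ch287 hTd) (tp288 hTd)
lemma tp290 (hTd : TdOK) : Good 0 ![w17, w12, w34, w32, w14, w18] :=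
  split25 (m := w94) (by decide +kernel) (ch286 hTd) (tp289 hTd)
lemma tp291 (hTd : TdOK) : Good 0 ![w17, w12, w34, w32, w4, w18] :=
  split14 (m := w14) (by decide +kernel) (ch285 hTd) (tp290 hTd)
lemma tp292 (hTd : TdOK) : Good 0 ![w73, w52, w34, w81, w67, w103] :=
  split24 (m := w75) (by decide +kernel) (ch319 hTd) (ch320 hTd)
lemma tp293 (hTd : TdOK) : Good 0 ![w73, w52, w34, w81, w67, w100] :=
  split25 (m := w103) (by decide +kernel) (ch318 hTd) (tp292 hTd)
lemma tp294 (hTd : TdOK) : Good 0 ![w73, w52, w34, w80, w67, w100] :=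
  split23 (m := w81) (by decide +kernel) (ch317 hTd) (tp293 hTd)
lemma tp295 (hTd : TdOK) : Good 0 ![w73, w47, w34, w80, w67, w100] :=
  split12 (m := w52) (by decide +kernel) (tp294 hTd) (ch321 hTd)
lemma tp296 (hTd : TdOK) : Good 0 ![w72, w47, w34, w80, w67, w100] :=
  split02 (m := w73) (by decide +kernel) (tp295 hTd) (ch322 hTd)
lemma tp297 (hTd : TdOK) : Good 0 ![w72, w47, w34, w80, w66, w100] :=
  split24 (m := w67) (by decide +kernel) (ch316 hTd) (tp296 hTd)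
lemma tp298 (hTd : TdOK) : Good 0 ![w72, w47, w34, w80, w66, w96] :=
  split25 (m := w100) (by decide +kernel) (ch315 hTd) (tp297 hTd)
lemma tp299 (hTd : TdOK) : Good 0 ![w72, w12, w47, w82, w68, w102] :=
  split01 (m := w76) (by decide +kernel) (ch326 hTd) (ch327 hTd)
lemma tp300 (hTd : TdOK) : Good 0 ![w72, w12, w47, w82, w66, w102] :=
  split14 (m := w68) (by decide +kernel) (ch325 hTd) (tp299 hTd)
lemma tp301 (hTd : TdOK) : Good 0 ![w72, w12, w47, w82, w66, w96] :=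
  split15 (m := w102) (by decide +kernel) (ch324 hTd) (tp300 hTd)
lemma tp302 (hTd : TdOK) : Good 0 ![w72, w12, w47, w80, w66, w96] :=
  split13 (m := w82) (by decide +kernel) (ch323 hTd) (tp301 hTd)
lemma tp303 (hTd : TdOK) : Good 0 ![w72, w12, w34, w80, w66, w96] :=
  split12 (m := w47) (by decide +kernel) (tp298 hTd) (tp302 hTd)
lemma tp304 (hTd : TdOK) : Good 0 ![w71, w72, w34, w80, w66, w96] :=
  split25 (m := w100) (by decide +kernel) (ch328 hTd) (ch329 hTd)
lemma tp305 (hTd : TdOK) : Good 0 ![w71, w12, w34, w80, w66, w96] :=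
  split01 (m := w72) (by decide +kernel) (tp303 hTd) (tp304 hTd)
lemma tp306 (hTd : TdOK) : Good 0 ![w71, w12, w34, w79, w66, w96] :=
  split23 (m := w80) (by decide +kernel) (ch314 hTd) (tp305 hTd)
lemma tp307 (hTd : TdOK) : Good 0 ![w71, w12, w34, w79, w65, w96] :=
  split14 (m := w66) (by decide +kernel) (ch313 hTd) (tp306 hTd)
lemma tp308 (hTd : TdOK) : Good 0 ![w71, w12, w34, w79, w65, w94] :=
  split15 (m := w96) (by decide +kernel) (ch312 hTd) (tp307 hTd)
lemma tp309 (hTd : TdOK) : Good 0 ![w71, w12, w34, w78, w65, w94] :=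
  split13 (m := w79) (by decide +kernel) (ch311 hTd) (tp308 hTd)
lemma tp310 (hTd : TdOK) : Good 0 ![w33, w12, w34, w78, w65, w94] :=
  split02 (m := w71) (by decide +kernel) (tp309 hTd) (ch330 hTd)
lemma tp311 (hTd : TdOK) : Good 0 ![w33, w12, w34, w78, w17, w94] :=
  split24 (m := w65) (by decide +kernel) (ch310 hTd) (tp310 hTd)
lemma tp312 (hTd : TdOK) : Good 0 ![w73, w52, w34, w54, w81, w100] :=
  split25 (m := w103) (by decide +kernel) (ch340 hTd) (ch341 hTd)
lemma tp313 (hTd : TdOK) : Good 0 ![w73, w52, w34, w49, w81, w100] :=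
  split23 (m := w54) (by decide +kernel) (ch339 hTd) (tp312 hTd)
lemma tp314 (hTd : TdOK) : Good 0 ![w73, w52, w34, w49, w80, w100] :=
  split24 (m := w81) (by decide +kernel) (ch338 hTd) (tp313 hTd)
lemma tp315 (hTd : TdOK) : Good 0 ![w73, w47, w34, w49, w80, w100] :=
  split12 (m := w52) (by decide +kernel) (tp314 hTd) (ch342 hTd)
lemma tp316 (hTd : TdOK) : Good 0 ![w72, w47, w34, w49, w80, w100] :=
  split02 (m := w73) (by decide +kernel) (tp315 hTd) (ch343 hTd)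
lemma tp317 (hTd : TdOK) : Good 0 ![w72, w47, w34, w49, w80, w96] :=
  split25 (m := w100) (by decide +kernel) (ch337 hTd) (tp316 hTd)
lemma tp318 (hTd : TdOK) : Good 0 ![w72, w47, w34, w41, w80, w96] :=
  split23 (m := w49) (by decide +kernel) (ch336 hTd) (tp317 hTd)
lemma tp319 (hTd : TdOK) : Good 0 ![w76, w57, w47, w56, w82, w102] :=
  split23 (m := w70) (by decide +kernel) (ch347 hTd) (ch348 hTd)
lemma tp320 (hTd : TdOK) : Good 0 ![w76, w12, w47, w56, w82, w102] :=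
  split12 (m := w57) (by decide +kernel) (tp319 hTd) (ch349 hTd)
lemma tp321 (hTd : TdOK) : Good 0 ![w76, w12, w47, w41, w82, w102] :=
  split13 (m := w56) (by decide +kernel) (ch346 hTd) (tp320 hTd)
lemma tp322 (hTd : TdOK) : Good 0 ![w72, w12, w47, w41, w82, w102] :=
  split01 (m := w76) (by decide +kernel) (tp321 hTd) (ch350 hTd)
lemma tp323 (hTd : TdOK) : Good 0 ![w72, w12, w47, w41, w82, w96] :=
  split15 (m := w102) (by decide +kernel) (ch345 hTd) (tp322 hTd)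
lemma tp324 (hTd : TdOK) : Good 0 ![w72, w12, w47, w41, w80, w96] :=
  split14 (m := w82) (by decide +kernel) (ch344 hTd) (tp323 hTd)
lemma tp325 (hTd : TdOK) : Good 0 ![w72, w12, w34, w41, w80, w96] :=
  split12 (m := w47) (by decide +kernel) (tp318 hTd) (tp324 hTd)
lemma tp326 (hTd : TdOK) : Good 0 ![w71, w72, w34, w41, w80, w100] :=
  split23 (m := w49) (by decide +kernel) (ch352 hTd) (ch353 hTd)
lemma tp327 (hTd : TdOK) : Good 0 ![w71, w72, w34, w41, w80, w96] :=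
  split25 (m := w100) (by decide +kernel) (ch351 hTd) (tp326 hTd)
lemma tp328 (hTd : TdOK) : Good 0 ![w71, w12, w34, w41, w80, w96] :=
  split01 (m := w72) (by decide +kernel) (tp325 hTd) (tp327 hTd)
lemma tp329 (hTd : TdOK) : Good 0 ![w71, w12, w34, w41, w79, w96] :=
  split24 (m := w80) (by decide +kernel) (ch335 hTd) (tp328 hTd)
lemma tp330 (hTd : TdOK) : Good 0 ![w71, w12, w34, w37, w79, w96] :=
  split13 (m := w41) (by decide +kernel) (ch334 hTd) (tp329 hTd)
lemma tp331 (hTd : TdOK) : Good 0 ![w71, w12, w34, w37, w79, w94] :=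
  split15 (m := w96) (by decide +kernel) (ch333 hTd) (tp330 hTd)
lemma tp332 (hTd : TdOK) : Good 0 ![w71, w12, w34, w37, w78, w94] :=
  split14 (m := w79) (by decide +kernel) (ch332 hTd) (tp331 hTd)
lemma tp333 (hTd : TdOK) : Good 0 ![w33, w12, w34, w37, w78, w94] :=
  split02 (m := w71) (by decide +kernel) (tp332 hTd) (ch354 hTd)
lemma tp334 (hTd : TdOK) : Good 0 ![w33, w12, w34, w32, w78, w94] :=
  split13 (m := w37) (by decide +kernel) (ch331 hTd) (tp333 hTd)
lemma tp335 (hTd : TdOK) : Good 0 ![w33, w12, w34, w32, w17, w94] :=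
  split34 (m := w78) (by decide +kernel) (tp311 hTd) (tp334 hTd)
lemma tp336 (hTd : TdOK) : Good 0 ![w33, w12, w34, w32, w17, w18] :=
  split25 (m := w94) (by decide +kernel) (ch309 hTd) (tp335 hTd)
lemma tp337 (hTd : TdOK) : Good 0 ![w84, w96, w34, w71, w86, w104] :=
  split12 (m := w100) (by decide +kernel) (ch360 hTd) (ch361 hTd)
lemma tp338 (hTd : TdOK) : Good 0 ![w84, w96, w34, w71, w65, w104] :=
  split24 (m := w86) (by decide +kernel) (ch359 hTd) (tp337 hTd)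
lemma tp339 (hTd : TdOK) : Good 0 ![w84, w96, w34, w71, w65, w94] :=
  split25 (m := w104) (by decide +kernel) (ch358 hTd) (tp338 hTd)
lemma tp340 (hTd : TdOK) : Good 0 ![w87, w67, w34, w77, w86, w100] :=
  split24 (m := w88) (by decide +kernel) (ch365 hTd) (ch366 hTd)
lemma tp341 (hTd : TdOK) : Good 0 ![w84, w67, w34, w77, w86, w100] :=
  split02 (m := w87) (by decide +kernel) (tp340 hTd) (ch367 hTd)
lemma tp342 (hTd : TdOK) : Good 0 ![w84, w67, w34, w71, w86, w100] :=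
  split23 (m := w77) (by decide +kernel) (ch364 hTd) (tp341 hTd)
lemma tp343 (hTd : TdOK) : Good 0 ![w84, w66, w34, w71, w86, w100] :=
  split12 (m := w67) (by decide +kernel) (tp342 hTd) (ch368 hTd)
lemma tp344 (hTd : TdOK) : Good 0 ![w84, w66, w34, w71, w86, w96] :=
  split25 (m := w100) (by decide +kernel) (ch363 hTd) (tp343 hTd)
lemma tp345 (hTd : TdOK) : Good 0 ![w84, w66, w34, w71, w65, w96] :=
  split24 (m := w86) (by decide +kernel) (ch362 hTd) (tp344 hTd)
lemma tp346 (hTd : TdOK) : Good 0 ![w87, w52, w34, w77, w67, w103] :=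
  split24 (m := w75) (by decide +kernel) (ch373 hTd) (ch374 hTd)
lemma tp347 (hTd : TdOK) : Good 0 ![w87, w52, w34, w77, w67, w100] :=
  split25 (m := w103) (by decide +kernel) (ch372 hTd) (tp346 hTd)
lemma tp348 (hTd : TdOK) : Good 0 ![w87, w47, w52, w77, w67, w100] :=
  split13 (m := w73) (by decide +kernel) (ch375 hTd) (ch376 hTd)
lemma tp349 (hTd : TdOK) : Good 0 ![w87, w47, w34, w77, w67, w100] :=
  split12 (m := w52) (by decide +kernel) (tp347 hTd) (tp348 hTd)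
lemma tp350 (hTd : TdOK) : Good 0 ![w84, w47, w34, w77, w67, w100] :=
  split02 (m := w87) (by decide +kernel) (tp349 hTd) (ch377 hTd)
lemma tp351 (hTd : TdOK) : Good 0 ![w84, w47, w34, w77, w66, w100] :=
  split24 (m := w67) (by decide +kernel) (ch371 hTd) (tp350 hTd)
lemma tp352 (hTd : TdOK) : Good 0 ![w84, w47, w34, w71, w66, w100] :=
  split23 (m := w77) (by decide +kernel) (ch370 hTd) (tp351 hTd)
lemma tp353 (hTd : TdOK) : Good 0 ![w84, w47, w34, w71, w66, w96] :=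
  split25 (m := w100) (by decide +kernel) (ch369 hTd) (tp352 hTd)
lemma tp354 (hTd : TdOK) : Good 0 ![w91, w57, w47, w76, w68, w102] :=
  split25 (m := w105) (by decide +kernel) (ch382 hTd) (ch383 hTd)
lemma tp355 (hTd : TdOK) : Good 0 ![w91, w12, w47, w76, w68, w102] :=
  split12 (m := w57) (by decide +kernel) (tp354 hTd) (ch384 hTd)
lemma tp356 (hTd : TdOK) : Good 0 ![w90, w12, w47, w76, w68, w102] :=
  split01 (m := w91) (by decide +kernel) (tp355 hTd) (ch385 hTd)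
lemma tp357 (hTd : TdOK) : Good 0 ![w90, w12, w47, w72, w68, w102] :=
  split13 (m := w76) (by decide +kernel) (ch381 hTd) (tp356 hTd)
lemma tp358 (hTd : TdOK) : Good 0 ![w90, w12, w47, w72, w66, w102] :=
  split14 (m := w68) (by decide +kernel) (ch380 hTd) (tp357 hTd)
lemma tp359 (hTd : TdOK) : Good 0 ![w90, w12, w47, w72, w66, w96] :=
  split15 (m := w102) (by decide +kernel) (ch379 hTd) (tp358 hTd)
lemma tp360 (hTd : TdOK) : Good 0 ![w84, w12, w47, w72, w66, w96] :=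
  split01 (m := w90) (by decide +kernel) (tp359 hTd) (ch386 hTd)
lemma tp361 (hTd : TdOK) : Good 0 ![w84, w12, w47, w71, w66, w96] :=
  split13 (m := w72) (by decide +kernel) (ch378 hTd) (tp360 hTd)
lemma tp362 (hTd : TdOK) : Good 0 ![w84, w12, w34, w71, w66, w96] :=
  split12 (m := w47) (by decide +kernel) (tp353 hTd) (tp361 hTd)
lemma tp363 (hTd : TdOK) : Good 0 ![w84, w12, w34, w71, w65, w96] :=
  split14 (m := w66) (by decide +kernel) (tp345 hTd) (tp362 hTd)
lemma tp364 (hTd : TdOK) : Good 0 ![w84, w12, w34, w71, w65, w94] :=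
  split15 (m := w96) (by decide +kernel) (tp339 hTd) (tp363 hTd)
lemma tp365 (hTd : TdOK) : Good 0 ![w83, w12, w34, w71, w65, w94] :=
  split02 (m := w84) (by decide +kernel) (tp364 hTd) (ch387 hTd)
lemma tp366 (hTd : TdOK) : Good 0 ![w83, w12, w34, w33, w65, w94] :=
  split23 (m := w71) (by decide +kernel) (ch357 hTd) (tp365 hTd)
lemma tp367 (hTd : TdOK) : Good 0 ![w83, w12, w34, w33, w17, w94] :=
  split24 (m := w65) (by decide +kernel) (ch356 hTd) (tp366 hTd)
lemma tp368 (hTd : TdOK) : Good 0 ![w83, w12, w34, w33, w17, w18] :=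
  split25 (m := w94) (by decide +kernel) (ch355 hTd) (tp367 hTd)
lemma tp369 (hTd : TdOK) : Good 0 ![w0, w12, w34, w33, w17, w18] :=
  split02 (m := w83) (by decide +kernel) (tp368 hTd) (ch388 hTd)
lemma tp370 (hTd : TdOK) : Good 0 ![w0, w12, w34, w32, w17, w18] :=
  split03 (m := w33) (by decide +kernel) (tp336 hTd) (tp369 hTd)
lemma tp371 (hTd : TdOK) : Good 0 ![w0, w12, w34, w32, w4, w18] :=
  split04 (m := w17) (by decide +kernel) (tp291 hTd) (tp370 hTd)
lemma tp372 (hTd : TdOK) : Good 0 ![w0, w12, w34, w32, w4, w8] :=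
  split05 (m := w18) (by decide +kernel) (tp268 hTd) (tp371 hTd)
lemma tp373 (hTd : TdOK) : Good 0 ![w110, w12, w44, w109, w39, w43] :=
  split12 (m := w45) (by decide +kernel) (ch396 hTd) (ch397 hTd)
lemma tp374 (hTd : TdOK) : Good 0 ![w110, w12, w44, w109, w39, w40] :=
  split15 (m := w43) (by decide +kernel) (ch395 hTd) (tp373 hTd)
lemma tp375 (hTd : TdOK) : Good 0 ![w111, w12, w44, w109, w39, w40] :=
  split01 (m := w110) (by decide +kernel) (tp374 hTd) (ch398 hTd)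
lemma tp376 (hTd : TdOK) : Good 0 ![w113, w52, w34, w112, w53, w50] :=
  split23 (m := w114) (by decide +kernel) (ch403 hTd) (ch404 hTd)
lemma tp377 (hTd : TdOK) : Good 0 ![w113, w52, w34, w112, w48, w50] :=
  split24 (m := w53) (by decide +kernel) (ch402 hTd) (tp376 hTd)
lemma tp378 (hTd : TdOK) : Good 0 ![w111, w52, w34, w112, w48, w50] :=
  split02 (m := w113) (by decide +kernel) (tp377 hTd) (ch405 hTd)
lemma tp379 (hTd : TdOK) : Good 0 ![w111, w47, w34, w112, w48, w50] :=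
  split12 (m := w52) (by decide +kernel) (tp378 hTd) (ch406 hTd)
lemma tp380 (hTd : TdOK) : Good 0 ![w111, w47, w34, w112, w48, w44] :=
  split25 (m := w50) (by decide +kernel) (ch401 hTd) (tp379 hTd)
lemma tp381 (hTd : TdOK) : Good 0 ![w111, w47, w34, w109, w48, w44] :=
  split23 (m := w112) (by decide +kernel) (ch400 hTd) (tp380 hTd)
lemma tp382 (hTd : TdOK) : Good 0 ![w111, w47, w34, w109, w39, w44] :=
  split24 (m := w48) (by decide +kernel) (ch399 hTd) (tp381 hTd)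
lemma tp383 (hTd : TdOK) : Good 0 ![w110, w12, w47, w115, w55, w45] :=
  split12 (m := w57) (by decide +kernel) (ch410 hTd) (ch411 hTd)
lemma tp384 (hTd : TdOK) : Good 0 ![w110, w12, w47, w109, w55, w45] :=
  split13 (m := w115) (by decide +kernel) (ch409 hTd) (tp383 hTd)
lemma tp385 (hTd : TdOK) : Good 0 ![w110, w12, w47, w109, w39, w45] :=
  split14 (m := w55) (by decide +kernel) (ch408 hTd) (tp384 hTd)
lemma tp386 (hTd : TdOK) : Good 0 ![w110, w12, w47, w109, w39, w44] :=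
  split15 (m := w45) (by decide +kernel) (ch407 hTd) (tp385 hTd)
lemma tp387 (hTd : TdOK) : Good 0 ![w111, w12, w47, w109, w39, w44] :=
  split01 (m := w110) (by decide +kernel) (tp386 hTd) (ch412 hTd)
lemma tp388 (hTd : TdOK) : Good 0 ![w111, w12, w34, w109, w39, w44] :=
  split12 (m := w47) (by decide +kernel) (tp382 hTd) (tp387 hTd)
lemma tp389 (hTd : TdOK) : Good 0 ![w111, w12, w34, w109, w39, w40] :=
  split25 (m := w44) (by decide +kernel) (tp375 hTd) (tp388 hTd)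
lemma tp390 (hTd : TdOK) : Good 0 ![w108, w12, w34, w109, w39, w40] :=
  split02 (m := w111) (by decide +kernel) (tp389 hTd) (ch413 hTd)
lemma tp391 (hTd : TdOK) : Good 0 ![w108, w12, w34, w107, w39, w40] :=
  split13 (m := w109) (by decide +kernel) (ch394 hTd) (tp390 hTd)
lemma tp392 (hTd : TdOK) : Good 0 ![w108, w12, w34, w107, w39, w35] :=
  split15 (m := w40) (by decide +kernel) (ch393 hTd) (tp391 hTd)
lemma tp393 (hTd : TdOK) : Good 0 ![w108, w12, w34, w107, w14, w35] :=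
  split14 (m := w39) (by decide +kernel) (ch392 hTd) (tp392 hTd)
lemma tp394 (hTd : TdOK) : Good 0 ![w106, w12, w34, w107, w14, w35] :=
  split01 (m := w108) (by decide +kernel) (tp393 hTd) (ch414 hTd)
lemma tp395 (hTd : TdOK) : Good 0 ![w106, w12, w34, w22, w14, w35] :=
  split13 (m := w107) (by decide +kernel) (ch391 hTd) (tp394 hTd)
lemma tp396 (hTd : TdOK) : Good 0 ![w60, w12, w44, w110, w61, w40] :=
  split15 (m := w43) (by decide +kernel) (ch421 hTd) (ch422 hTd)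
lemma tp397 (hTd : TdOK) : Good 0 ![w60, w12, w44, w111, w61, w40] :=
  split13 (m := w110) (by decide +kernel) (ch420 hTd) (tp396 hTd)
lemma tp398 (hTd : TdOK) : Good 0 ![w60, w12, w44, w111, w59, w40] :=
  split14 (m := w61) (by decide +kernel) (ch419 hTd) (tp397 hTd)
lemma tp399 (hTd : TdOK) : Good 0 ![w62, w47, w34, w111, w63, w50] :=
  split12 (m := w52) (by decide +kernel) (ch425 hTd) (ch426 hTd)
lemma tp400 (hTd : TdOK) : Good 0 ![w62, w47, w34, w111, w63, w44] :=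
  split25 (m := w50) (by decide +kernel) (ch424 hTd) (tp399 hTd)
lemma tp401 (hTd : TdOK) : Good 0 ![w62, w47, w34, w111, w59, w44] :=
  split24 (m := w63) (by decide +kernel) (ch423 hTd) (tp400 hTd)
lemma tp402 (hTd : TdOK) : Good 0 ![w60, w47, w34, w111, w59, w44] :=
  split02 (m := w62) (by decide +kernel) (tp401 hTd) (ch427 hTd)
lemma tp403 (hTd : TdOK) : Good 0 ![w64, w12, w47, w110, w61, w45] :=
  split12 (m := w57) (by decide +kernel) (ch431 hTd) (ch432 hTd)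
lemma tp404 (hTd : TdOK) : Good 0 ![w60, w12, w47, w110, w61, w45] :=
  split01 (m := w64) (by decide +kernel) (tp403 hTd) (ch433 hTd)
lemma tp405 (hTd : TdOK) : Good 0 ![w60, w12, w47, w110, w61, w44] :=
  split15 (m := w45) (by decide +kernel) (ch430 hTd) (tp404 hTd)
lemma tp406 (hTd : TdOK) : Good 0 ![w60, w12, w47, w111, w61, w44] :=
  split13 (m := w110) (by decide +kernel) (ch429 hTd) (tp405 hTd)
lemma tp407 (hTd : TdOK) : Good 0 ![w60, w12, w47, w111, w59, w44] :=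
  split14 (m := w61) (by decide +kernel) (ch428 hTd) (tp406 hTd)
lemma tp408 (hTd : TdOK) : Good 0 ![w60, w12, w34, w111, w59, w44] :=
  split12 (m := w47) (by decide +kernel) (tp402 hTd) (tp407 hTd)
lemma tp409 (hTd : TdOK) : Good 0 ![w60, w12, w34, w111, w59, w40] :=
  split25 (m := w44) (by decide +kernel) (tp398 hTd) (tp408 hTd)
lemma tp410 (hTd : TdOK) : Good 0 ![w60, w12, w34, w108, w59, w40] :=
  split23 (m := w111) (by decide +kernel) (ch418 hTd) (tp409 hTd)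
lemma tp411 (hTd : TdOK) : Good 0 ![w58, w12, w34, w108, w59, w40] :=
  split01 (m := w60) (by decide +kernel) (tp410 hTd) (ch434 hTd)
lemma tp412 (hTd : TdOK) : Good 0 ![w58, w12, w34, w108, w59, w35] :=
  split15 (m := w40) (by decide +kernel) (ch417 hTd) (tp411 hTd)
lemma tp413 (hTd : TdOK) : Good 0 ![w58, w12, w34, w108, w14, w35] :=
  split24 (m := w59) (by decide +kernel) (ch416 hTd) (tp412 hTd)
lemma tp414 (hTd : TdOK) : Good 0 ![w58, w12, w34, w106, w14, w35] :=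
  split13 (m := w108) (by decide +kernel) (ch415 hTd) (tp413 hTd)
lemma tp415 (hTd : TdOK) : Good 0 ![w13, w12, w34, w106, w14, w35] :=
  split02 (m := w58) (by decide +kernel) (tp414 hTd) (ch435 hTd)
lemma tp416 (hTd : TdOK) : Good 0 ![w13, w12, w34, w22, w14, w35] :=
  split03 (m := w106) (by decide +kernel) (tp395 hTd) (tp415 hTd)
lemma tp417 (hTd : TdOK) : Good 0 ![w13, w12, w34, w22, w14, w5] :=
  split15 (m := w35) (by decide +kernel) (ch390 hTd) (tp416 hTd)
lemma tp418 (hTd : TdOK) : Good 0 ![w13, w12, w34, w22, w4, w5] :=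
  split14 (m := w14) (by decide +kernel) (ch389 hTd) (tp417 hTd)
lemma tp419 (hTd : TdOK) : Good 0 ![w67, w47, w34, w111, w118, w62] :=
  split12 (m := w52) (by decide +kernel) (ch444 hTd) (ch445 hTd)
lemma tp420 (hTd : TdOK) : Good 0 ![w67, w47, w34, w111, w117, w62] :=
  split24 (m := w118) (by decide +kernel) (ch443 hTd) (tp419 hTd)
lemma tp421 (hTd : TdOK) : Good 0 ![w66, w47, w34, w111, w117, w62] :=
  split02 (m := w67) (by decide +kernel) (tp420 hTd) (ch446 hTd)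
lemma tp422 (hTd : TdOK) : Good 0 ![w66, w47, w34, w111, w117, w60] :=
  split25 (m := w62) (by decide +kernel) (ch442 hTd) (tp421 hTd)
lemma tp423 (hTd : TdOK) : Good 0 ![w68, w12, w47, w110, w119, w64] :=
  split12 (m := w57) (by decide +kernel) (ch450 hTd) (ch451 hTd)
lemma tp424 (hTd : TdOK) : Good 0 ![w66, w12, w47, w110, w119, w64] :=
  split01 (m := w68) (by decide +kernel) (tp423 hTd) (ch452 hTd)
lemma tp425 (hTd : TdOK) : Good 0 ![w66, w12, w47, w110, w119, w60] :=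
  split15 (m := w64) (by decide +kernel) (ch449 hTd) (tp424 hTd)
lemma tp426 (hTd : TdOK) : Good 0 ![w66, w12, w47, w111, w119, w60] :=
  split13 (m := w110) (by decide +kernel) (ch448 hTd) (tp425 hTd)
lemma tp427 (hTd : TdOK) : Good 0 ![w66, w12, w47, w111, w117, w60] :=
  split14 (m := w119) (by decide +kernel) (ch447 hTd) (tp426 hTd)
lemma tp428 (hTd : TdOK) : Good 0 ![w66, w12, w34, w111, w117, w60] :=
  split12 (m := w47) (by decide +kernel) (tp422 hTd) (tp427 hTd)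
lemma tp429 (hTd : TdOK) : Good 0 ![w66, w12, w34, w108, w117, w60] :=
  split23 (m := w111) (by decide +kernel) (ch441 hTd) (tp428 hTd)
lemma tp430 (hTd : TdOK) : Good 0 ![w65, w12, w34, w108, w117, w60] :=
  split01 (m := w66) (by decide +kernel) (tp429 hTd) (ch453 hTd)
lemma tp431 (hTd : TdOK) : Good 0 ![w65, w12, w34, w108, w117, w58] :=
  split15 (m := w60) (by decide +kernel) (ch440 hTd) (tp430 hTd)
lemma tp432 (hTd : TdOK) : Good 0 ![w65, w12, w34, w108, w116, w58] :=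
  split24 (m := w117) (by decide +kernel) (ch439 hTd) (tp431 hTd)
lemma tp433 (hTd : TdOK) : Good 0 ![w65, w12, w34, w106, w116, w58] :=
  split13 (m := w108) (by decide +kernel) (ch438 hTd) (tp432 hTd)
lemma tp434 (hTd : TdOK) : Good 0 ![w65, w12, w34, w106, w20, w58] :=
  split14 (m := w116) (by decide +kernel) (ch437 hTd) (tp433 hTd)
lemma tp435 (hTd : TdOK) : Good 0 ![w65, w12, w34, w106, w20, w13] :=
  split25 (m := w58) (by decide +kernel) (ch436 hTd) (tp434 hTd)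
lemma tp436 (hTd : TdOK) : Good 0 ![w17, w12, w34, w106, w20, w13] :=
  split02 (m := w65) (by decide +kernel) (tp435 hTd) (ch454 hTd)
lemma tp437 (hTd : TdOK) : Good 0 ![w122, w52, w34, w112, w118, w113] :=
  split02 (m := w123) (by decide +kernel) (ch464 hTd) (ch465 hTd)
lemma tp438 (hTd : TdOK) : Good 0 ![w122, w52, w34, w112, w118, w111] :=
  split25 (m := w113) (by decide +kernel) (ch463 hTd) (tp437 hTd)
lemma tp439 (hTd : TdOK) : Good 0 ![w122, w47, w52, w112, w118, w111] :=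
  split15 (m := w124) (by decide +kernel) (ch466 hTd) (ch467 hTd)
lemma tp440 (hTd : TdOK) : Good 0 ![w122, w47, w34, w112, w118, w111] :=
  split12 (m := w52) (by decide +kernel) (tp438 hTd) (tp439 hTd)
lemma tp441 (hTd : TdOK) : Good 0 ![w122, w47, w34, w112, w117, w111] :=
  split24 (m := w118) (by decide +kernel) (ch462 hTd) (tp440 hTd)
lemma tp442 (hTd : TdOK) : Good 0 ![w122, w47, w34, w109, w117, w111] :=
  split23 (m := w112) (by decide +kernel) (ch461 hTd) (tp441 hTd)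
lemma tp443 (hTd : TdOK) : Good 0 ![w125, w12, w57, w115, w119, w110] :=
  split14 (m := w126) (by decide +kernel) (ch472 hTd) (ch473 hTd)
lemma tp444 (hTd : TdOK) : Good 0 ![w125, w12, w47, w115, w119, w110] :=
  split12 (m := w57) (by decide +kernel) (ch471 hTd) (tp443 hTd)
lemma tp445 (hTd : TdOK) : Good 0 ![w125, w12, w47, w109, w119, w110] :=
  split13 (m := w115) (by decide +kernel) (ch470 hTd) (tp444 hTd)
lemma tp446 (hTd : TdOK) : Good 0 ![w122, w12, w47, w109, w119, w110] :=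
  split01 (m := w125) (by decide +kernel) (tp445 hTd) (ch474 hTd)
lemma tp447 (hTd : TdOK) : Good 0 ![w122, w12, w47, w109, w119, w111] :=
  split15 (m := w110) (by decide +kernel) (ch469 hTd) (tp446 hTd)
lemma tp448 (hTd : TdOK) : Good 0 ![w122, w12, w47, w109, w117, w111] :=
  split14 (m := w119) (by decide +kernel) (ch468 hTd) (tp447 hTd)
lemma tp449 (hTd : TdOK) : Good 0 ![w122, w12, w34, w109, w117, w111] :=
  split12 (m := w47) (by decide +kernel) (tp442 hTd) (tp448 hTd)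
lemma tp450 (hTd : TdOK) : Good 0 ![w122, w12, w34, w109, w117, w108] :=
  split25 (m := w111) (by decide +kernel) (ch460 hTd) (tp449 hTd)
lemma tp451 (hTd : TdOK) : Good 0 ![w121, w12, w34, w109, w117, w108] :=
  split02 (m := w122) (by decide +kernel) (tp450 hTd) (ch475 hTd)
lemma tp452 (hTd : TdOK) : Good 0 ![w121, w12, w34, w107, w117, w108] :=
  split13 (m := w109) (by decide +kernel) (ch459 hTd) (tp451 hTd)
lemma tp453 (hTd : TdOK) : Good 0 ![w121, w12, w34, w107, w116, w108] :=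
  split24 (m := w117) (by decide +kernel) (ch458 hTd) (tp452 hTd)
lemma tp454 (hTd : TdOK) : Good 0 ![w121, w12, w34, w107, w116, w106] :=
  split15 (m := w108) (by decide +kernel) (ch457 hTd) (tp453 hTd)
lemma tp455 (hTd : TdOK) : Good 0 ![w120, w12, w34, w107, w116, w106] :=
  split01 (m := w121) (by decide +kernel) (tp454 hTd) (ch476 hTd)
lemma tp456 (hTd : TdOK) : Good 0 ![w120, w12, w34, w107, w20, w106] :=
  split14 (m := w116) (by decide +kernel) (ch456 hTd) (tp455 hTd)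
lemma tp457 (hTd : TdOK) : Good 0 ![w120, w12, w34, w22, w20, w106] :=
  split13 (m := w107) (by decide +kernel) (ch455 hTd) (tp456 hTd)
lemma tp458 (hTd : TdOK) : Good 0 ![w67, w47, w34, w122, w118, w111] :=
  split12 (m := w52) (by decide +kernel) (ch484 hTd) (ch485 hTd)
lemma tp459 (hTd : TdOK) : Good 0 ![w67, w47, w34, w122, w117, w111] :=
  split24 (m := w118) (by decide +kernel) (ch483 hTd) (tp458 hTd)
lemma tp460 (hTd : TdOK) : Good 0 ![w66, w47, w34, w122, w117, w111] :=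
  split02 (m := w67) (by decide +kernel) (tp459 hTd) (ch486 hTd)
lemma tp461 (hTd : TdOK) : Good 0 ![w68, w12, w47, w125, w119, w110] :=
  split12 (m := w57) (by decide +kernel) (ch490 hTd) (ch491 hTd)
lemma tp462 (hTd : TdOK) : Good 0 ![w66, w12, w47, w125, w119, w110] :=
  split01 (m := w68) (by decide +kernel) (tp461 hTd) (ch492 hTd)
lemma tp463 (hTd : TdOK) : Good 0 ![w66, w12, w47, w122, w119, w110] :=
  split13 (m := w125) (by decide +kernel) (ch489 hTd) (tp462 hTd)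
lemma tp464 (hTd : TdOK) : Good 0 ![w66, w12, w47, w122, w119, w111] :=
  split15 (m := w110) (by decide +kernel) (ch488 hTd) (tp463 hTd)
lemma tp465 (hTd : TdOK) : Good 0 ![w66, w12, w47, w122, w117, w111] :=
  split14 (m := w119) (by decide +kernel) (ch487 hTd) (tp464 hTd)
lemma tp466 (hTd : TdOK) : Good 0 ![w66, w12, w34, w122, w117, w111] :=
  split12 (m := w47) (by decide +kernel) (tp460 hTd) (tp465 hTd)
lemma tp467 (hTd : TdOK) : Good 0 ![w66, w12, w34, w122, w117, w108] :=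
  split25 (m := w111) (by decide +kernel) (ch482 hTd) (tp466 hTd)
lemma tp468 (hTd : TdOK) : Good 0 ![w66, w12, w34, w121, w117, w108] :=
  split23 (m := w122) (by decide +kernel) (ch481 hTd) (tp467 hTd)
lemma tp469 (hTd : TdOK) : Good 0 ![w65, w12, w34, w121, w117, w108] :=
  split01 (m := w66) (by decide +kernel) (tp468 hTd) (ch493 hTd)
lemma tp470 (hTd : TdOK) : Good 0 ![w65, w12, w34, w121, w116, w108] :=
  split24 (m := w117) (by decide +kernel) (ch480 hTd) (tp469 hTd)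
lemma tp471 (hTd : TdOK) : Good 0 ![w65, w12, w34, w121, w116, w106] :=
  split15 (m := w108) (by decide +kernel) (ch479 hTd) (tp470 hTd)
lemma tp472 (hTd : TdOK) : Good 0 ![w65, w12, w34, w120, w116, w106] :=
  split13 (m := w121) (by decide +kernel) (ch478 hTd) (tp471 hTd)
lemma tp473 (hTd : TdOK) : Good 0 ![w65, w12, w34, w120, w20, w106] :=
  split14 (m := w116) (by decide +kernel) (ch477 hTd) (tp472 hTd)
lemma tp474 (hTd : TdOK) : Good 0 ![w17, w12, w34, w120, w20, w106] :=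
  split02 (m := w65) (by decide +kernel) (tp473 hTd) (ch494 hTd)
lemma tp475 (hTd : TdOK) : Good 0 ![w17, w12, w34, w22, w20, w106] :=
  split03 (m := w120) (by decide +kernel) (tp457 hTd) (tp474 hTd)
lemma tp476 (hTd : TdOK) : Good 0 ![w17, w12, w34, w22, w20, w13] :=
  split35 (m := w106) (by decide +kernel) (tp436 hTd) (tp475 hTd)
lemma tp477 (hTd : TdOK) : Good 0 ![w122, w52, w34, w112, w48, w118] :=
  split02 (m := w123) (by decide +kernel) (ch504 hTd) (ch505 hTd)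
lemma tp478 (hTd : TdOK) : Good 0 ![w122, w47, w34, w112, w48, w118] :=
  split12 (m := w52) (by decide +kernel) (tp477 hTd) (ch506 hTd)
lemma tp479 (hTd : TdOK) : Good 0 ![w122, w47, w34, w112, w48, w117] :=
  split25 (m := w118) (by decide +kernel) (ch503 hTd) (tp478 hTd)
lemma tp480 (hTd : TdOK) : Good 0 ![w122, w47, w34, w109, w48, w117] :=
  split23 (m := w112) (by decide +kernel) (ch502 hTd) (tp479 hTd)
lemma tp481 (hTd : TdOK) : Good 0 ![w122, w47, w34, w109, w39, w117] :=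
  split24 (m := w48) (by decide +kernel) (ch501 hTd) (tp480 hTd)
lemma tp482 (hTd : TdOK) : Good 0 ![w125, w12, w47, w115, w55, w119] :=
  split12 (m := w57) (by decide +kernel) (ch510 hTd) (ch511 hTd)
lemma tp483 (hTd : TdOK) : Good 0 ![w125, w12, w47, w109, w55, w119] :=
  split13 (m := w115) (by decide +kernel) (ch509 hTd) (tp482 hTd)
lemma tp484 (hTd : TdOK) : Good 0 ![w125, w12, w47, w109, w39, w119] :=
  split14 (m := w55) (by decide +kernel) (ch508 hTd) (tp483 hTd)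
lemma tp485 (hTd : TdOK) : Good 0 ![w122, w12, w47, w109, w39, w119] :=
  split01 (m := w125) (by decide +kernel) (tp484 hTd) (ch512 hTd)
lemma tp486 (hTd : TdOK) : Good 0 ![w122, w12, w47, w109, w39, w117] :=
  split15 (m := w119) (by decide +kernel) (ch507 hTd) (tp485 hTd)
lemma tp487 (hTd : TdOK) : Good 0 ![w122, w12, w34, w109, w39, w117] :=
  split12 (m := w47) (by decide +kernel) (tp481 hTd) (tp486 hTd)
lemma tp488 (hTd : TdOK) : Good 0 ![w121, w12, w34, w109, w39, w117] :=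
  split02 (m := w122) (by decide +kernel) (tp487 hTd) (ch513 hTd)
lemma tp489 (hTd : TdOK) : Good 0 ![w121, w12, w34, w107, w39, w117] :=
  split13 (m := w109) (by decide +kernel) (ch500 hTd) (tp488 hTd)
lemma tp490 (hTd : TdOK) : Good 0 ![w121, w12, w34, w107, w39, w116] :=
  split25 (m := w117) (by decide +kernel) (ch499 hTd) (tp489 hTd)
lemma tp491 (hTd : TdOK) : Good 0 ![w121, w12, w34, w107, w14, w116] :=
  split14 (m := w39) (by decide +kernel) (ch498 hTd) (tp490 hTd)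
lemma tp492 (hTd : TdOK) : Good 0 ![w120, w12, w34, w107, w14, w116] :=
  split01 (m := w121) (by decide +kernel) (tp491 hTd) (ch514 hTd)
lemma tp493 (hTd : TdOK) : Good 0 ![w120, w12, w34, w107, w14, w20] :=
  split15 (m := w116) (by decide +kernel) (ch497 hTd) (tp492 hTd)
lemma tp494 (hTd : TdOK) : Good 0 ![w120, w12, w34, w22, w14, w20] :=
  split13 (m := w107) (by decide +kernel) (ch496 hTd) (tp493 hTd)
lemma tp495 (hTd : TdOK) : Good 0 ![w67, w47, w34, w122, w48, w118] :=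
  split12 (m := w52) (by decide +kernel) (ch522 hTd) (ch523 hTd)
lemma tp496 (hTd : TdOK) : Good 0 ![w67, w47, w34, w122, w48, w117] :=
  split25 (m := w118) (by decide +kernel) (ch521 hTd) (tp495 hTd)
lemma tp497 (hTd : TdOK) : Good 0 ![w66, w47, w34, w122, w48, w117] :=
  split02 (m := w67) (by decide +kernel) (tp496 hTd) (ch524 hTd)
lemma tp498 (hTd : TdOK) : Good 0 ![w66, w47, w34, w122, w39, w117] :=
  split24 (m := w48) (by decide +kernel) (ch520 hTd) (tp497 hTd)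
lemma tp499 (hTd : TdOK) : Good 0 ![w68, w12, w47, w125, w55, w119] :=
  split12 (m := w57) (by decide +kernel) (ch528 hTd) (ch529 hTd)
lemma tp500 (hTd : TdOK) : Good 0 ![w66, w12, w47, w125, w55, w119] :=
  split01 (m := w68) (by decide +kernel) (tp499 hTd) (ch530 hTd)
lemma tp501 (hTd : TdOK) : Good 0 ![w66, w12, w47, w125, w39, w119] :=
  split14 (m := w55) (by decide +kernel) (ch527 hTd) (tp500 hTd)
lemma tp502 (hTd : TdOK) : Good 0 ![w66, w12, w47, w122, w39, w119] :=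
  split13 (m := w125) (by decide +kernel) (ch526 hTd) (tp501 hTd)
lemma tp503 (hTd : TdOK) : Good 0 ![w66, w12, w47, w122, w39, w117] :=
  split15 (m := w119) (by decide +kernel) (ch525 hTd) (tp502 hTd)
lemma tp504 (hTd : TdOK) : Good 0 ![w66, w12, w34, w122, w39, w117] :=
  split12 (m := w47) (by decide +kernel) (tp498 hTd) (tp503 hTd)
lemma tp505 (hTd : TdOK) : Good 0 ![w66, w12, w34, w121, w39, w117] :=
  split23 (m := w122) (by decide +kernel) (ch519 hTd) (tp504 hTd)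
lemma tp506 (hTd : TdOK) : Good 0 ![w65, w12, w34, w121, w39, w117] :=
  split01 (m := w66) (by decide +kernel) (tp505 hTd) (ch531 hTd)
lemma tp507 (hTd : TdOK) : Good 0 ![w65, w12, w34, w121, w39, w116] :=
  split25 (m := w117) (by decide +kernel) (ch518 hTd) (tp506 hTd)
lemma tp508 (hTd : TdOK) : Good 0 ![w65, w12, w34, w121, w14, w116] :=
  split14 (m := w39) (by decide +kernel) (ch517 hTd) (tp507 hTd)
lemma tp509 (hTd : TdOK) : Good 0 ![w65, w12, w34, w120, w14, w116] :=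
  split13 (m := w121) (by decide +kernel) (ch516 hTd) (tp508 hTd)
lemma tp510 (hTd : TdOK) : Good 0 ![w65, w12, w34, w120, w14, w20] :=
  split15 (m := w116) (by decide +kernel) (ch515 hTd) (tp509 hTd)
lemma tp511 (hTd : TdOK) : Good 0 ![w17, w12, w34, w120, w14, w20] :=
  split02 (m := w65) (by decide +kernel) (tp510 hTd) (ch532 hTd)
lemma tp512 (hTd : TdOK) : Good 0 ![w17, w12, w34, w22, w14, w20] :=
  split03 (m := w120) (by decide +kernel) (tp494 hTd) (tp511 hTd)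
lemma tp513 (hTd : TdOK) : Good 0 ![w17, w12, w34, w22, w4, w20] :=
  split14 (m := w14) (by decide +kernel) (ch495 hTd) (tp512 hTd)
lemma tp514 (hTd : TdOK) : Good 0 ![w17, w12, w34, w22, w4, w13] :=
  split45 (m := w20) (by decide +kernel) (tp476 hTd) (tp513 hTd)
lemma tp515 (hTd : TdOK) : Good 0 ![w129, w52, w34, w113, w67, w74] :=
  split24 (m := w75) (by decide +kernel) (ch543 hTd) (ch544 hTd)
lemma tp516 (hTd : TdOK) : Good 0 ![w129, w52, w34, w113, w67, w62] :=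
  split25 (m := w74) (by decide +kernel) (ch542 hTd) (tp515 hTd)
lemma tp517 (hTd : TdOK) : Good 0 ![w129, w47, w34, w113, w67, w62] :=
  split12 (m := w52) (by decide +kernel) (tp516 hTd) (ch545 hTd)
lemma tp518 (hTd : TdOK) : Good 0 ![w129, w47, w34, w111, w67, w62] :=
  split23 (m := w113) (by decide +kernel) (ch541 hTd) (tp517 hTd)
lemma tp519 (hTd : TdOK) : Good 0 ![w128, w47, w34, w111, w67, w62] :=
  split02 (m := w129) (by decide +kernel) (tp518 hTd) (ch546 hTd)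
lemma tp520 (hTd : TdOK) : Good 0 ![w128, w47, w34, w111, w66, w62] :=
  split24 (m := w67) (by decide +kernel) (ch540 hTd) (tp519 hTd)
lemma tp521 (hTd : TdOK) : Good 0 ![w128, w47, w34, w111, w66, w60] :=
  split25 (m := w62) (by decide +kernel) (ch539 hTd) (tp520 hTd)
lemma tp522 (hTd : TdOK) : Good 0 ![w130, w12, w47, w110, w68, w64] :=
  split12 (m := w57) (by decide +kernel) (ch550 hTd) (ch551 hTd)
lemma tp523 (hTd : TdOK) : Good 0 ![w128, w12, w47, w110, w68, w64] :=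
  split01 (m := w130) (by decide +kernel) (tp522 hTd) (ch552 hTd)
lemma tp524 (hTd : TdOK) : Good 0 ![w128, w12, w47, w110, w66, w64] :=
  split14 (m := w68) (by decide +kernel) (ch549 hTd) (tp523 hTd)
lemma tp525 (hTd : TdOK) : Good 0 ![w128, w12, w47, w110, w66, w60] :=
  split15 (m := w64) (by decide +kernel) (ch548 hTd) (tp524 hTd)
lemma tp526 (hTd : TdOK) : Good 0 ![w128, w12, w47, w111, w66, w60] :=
  split13 (m := w110) (by decide +kernel) (ch547 hTd) (tp525 hTd)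
lemma tp527 (hTd : TdOK) : Good 0 ![w128, w12, w34, w111, w66, w60] :=
  split12 (m := w47) (by decide +kernel) (tp521 hTd) (tp526 hTd)
lemma tp528 (hTd : TdOK) : Good 0 ![w131, w129, w34, w111, w67, w62] :=
  split23 (m := w113) (by decide +kernel) (ch555 hTd) (ch556 hTd)
lemma tp529 (hTd : TdOK) : Good 0 ![w131, w128, w34, w111, w67, w62] :=
  split12 (m := w129) (by decide +kernel) (tp528 hTd) (ch557 hTd)
lemma tp530 (hTd : TdOK) : Good 0 ![w131, w128, w34, w111, w66, w62] :=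
  split24 (m := w67) (by decide +kernel) (ch554 hTd) (tp529 hTd)
lemma tp531 (hTd : TdOK) : Good 0 ![w131, w128, w34, w111, w66, w60] :=
  split25 (m := w62) (by decide +kernel) (ch553 hTd) (tp530 hTd)
lemma tp532 (hTd : TdOK) : Good 0 ![w127, w128, w34, w111, w66, w60] :=
  split02 (m := w131) (by decide +kernel) (tp531 hTd) (ch558 hTd)
lemma tp533 (hTd : TdOK) : Good 0 ![w127, w12, w34, w111, w66, w60] :=
  split01 (m := w128) (by decide +kernel) (tp527 hTd) (tp532 hTd)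
lemma tp534 (hTd : TdOK) : Good 0 ![w127, w12, w34, w108, w66, w60] :=
  split23 (m := w111) (by decide +kernel) (ch538 hTd) (tp533 hTd)
lemma tp535 (hTd : TdOK) : Good 0 ![w127, w12, w34, w108, w65, w60] :=
  split14 (m := w66) (by decide +kernel) (ch537 hTd) (tp534 hTd)
lemma tp536 (hTd : TdOK) : Good 0 ![w127, w12, w34, w108, w65, w58] :=
  split15 (m := w60) (by decide +kernel) (ch536 hTd) (tp535 hTd)
lemma tp537 (hTd : TdOK) : Good 0 ![w127, w12, w34, w106, w65, w58] :=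
  split13 (m := w108) (by decide +kernel) (ch535 hTd) (tp536 hTd)
lemma tp538 (hTd : TdOK) : Good 0 ![w23, w12, w34, w106, w65, w58] :=
  split02 (m := w127) (by decide +kernel) (tp537 hTd) (ch559 hTd)
lemma tp539 (hTd : TdOK) : Good 0 ![w23, w12, w34, w106, w65, w13] :=
  split25 (m := w58) (by decide +kernel) (ch534 hTd) (tp538 hTd)
lemma tp540 (hTd : TdOK) : Good 0 ![w23, w12, w34, w106, w17, w13] :=
  split24 (m := w65) (by decide +kernel) (ch533 hTd) (tp539 hTd)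
lemma tp541 (hTd : TdOK) : Good 0 ![w129, w52, w34, w123, w67, w113] :=
  split24 (m := w75) (by decide +kernel) (ch569 hTd) (ch570 hTd)
lemma tp542 (hTd : TdOK) : Good 0 ![w129, w52, w34, w122, w67, w113] :=
  split23 (m := w123) (by decide +kernel) (ch568 hTd) (tp541 hTd)
lemma tp543 (hTd : TdOK) : Good 0 ![w129, w47, w34, w122, w67, w113] :=
  split12 (m := w52) (by decide +kernel) (tp542 hTd) (ch571 hTd)
lemma tp544 (hTd : TdOK) : Good 0 ![w129, w47, w34, w122, w67, w111] :=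
  split25 (m := w113) (by decide +kernel) (ch567 hTd) (tp543 hTd)
lemma tp545 (hTd : TdOK) : Good 0 ![w128, w47, w34, w122, w67, w111] :=
  split02 (m := w129) (by decide +kernel) (tp544 hTd) (ch572 hTd)
lemma tp546 (hTd : TdOK) : Good 0 ![w128, w47, w34, w122, w66, w111] :=
  split24 (m := w67) (by decide +kernel) (ch566 hTd) (tp545 hTd)
lemma tp547 (hTd : TdOK) : Good 0 ![w130, w12, w47, w125, w68, w110] :=
  split12 (m := w57) (by decide +kernel) (ch576 hTd) (ch577 hTd)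
lemma tp548 (hTd : TdOK) : Good 0 ![w128, w12, w47, w125, w68, w110] :=
  split01 (m := w130) (by decide +kernel) (tp547 hTd) (ch578 hTd)
lemma tp549 (hTd : TdOK) : Good 0 ![w128, w12, w47, w125, w66, w110] :=
  split14 (m := w68) (by decide +kernel) (ch575 hTd) (tp548 hTd)
lemma tp550 (hTd : TdOK) : Good 0 ![w128, w12, w47, w122, w66, w110] :=
  split13 (m := w125) (by decide +kernel) (ch574 hTd) (tp549 hTd)
lemma tp551 (hTd : TdOK) : Good 0 ![w128, w12, w47, w122, w66, w111] :=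
  split15 (m := w110) (by decide +kernel) (ch573 hTd) (tp550 hTd)
lemma tp552 (hTd : TdOK) : Good 0 ![w128, w12, w34, w122, w66, w111] :=
  split12 (m := w47) (by decide +kernel) (tp546 hTd) (tp551 hTd)
lemma tp553 (hTd : TdOK) : Good 0 ![w131, w128, w34, w122, w66, w111] :=
  split24 (m := w67) (by decide +kernel) (ch579 hTd) (ch580 hTd)
lemma tp554 (hTd : TdOK) : Good 0 ![w127, w128, w34, w122, w66, w111] :=
  split02 (m := w131) (by decide +kernel) (tp553 hTd) (ch581 hTd)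
lemma tp555 (hTd : TdOK) : Good 0 ![w127, w12, w34, w122, w66, w111] :=
  split01 (m := w128) (by decide +kernel) (tp552 hTd) (tp554 hTd)
lemma tp556 (hTd : TdOK) : Good 0 ![w127, w12, w34, w121, w66, w111] :=
  split23 (m := w122) (by decide +kernel) (ch565 hTd) (tp555 hTd)
lemma tp557 (hTd : TdOK) : Good 0 ![w127, w12, w34, w121, w66, w108] :=
  split25 (m := w111) (by decide +kernel) (ch564 hTd) (tp556 hTd)
lemma tp558 (hTd : TdOK) : Good 0 ![w127, w12, w34, w121, w65, w108] :=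
  split14 (m := w66) (by decide +kernel) (ch563 hTd) (tp557 hTd)
lemma tp559 (hTd : TdOK) : Good 0 ![w127, w12, w34, w121, w65, w106] :=
  split15 (m := w108) (by decide +kernel) (ch562 hTd) (tp558 hTd)
lemma tp560 (hTd : TdOK) : Good 0 ![w127, w12, w34, w120, w65, w106] :=
  split13 (m := w121) (by decide +kernel) (ch561 hTd) (tp559 hTd)
lemma tp561 (hTd : TdOK) : Good 0 ![w23, w12, w34, w120, w65, w106] :=
  split02 (m := w127) (by decide +kernel) (tp560 hTd) (ch582 hTd)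
lemma tp562 (hTd : TdOK) : Good 0 ![w23, w12, w34, w120, w17, w106] :=
  split24 (m := w65) (by decide +kernel) (ch560 hTd) (tp561 hTd)
lemma tp563 (hTd : TdOK) : Good 0 ![w129, w52, w34, w112, w123, w113] :=
  split23 (m := w114) (by decide +kernel) (ch592 hTd) (ch593 hTd)
lemma tp564 (hTd : TdOK) : Good 0 ![w129, w52, w34, w112, w122, w113] :=
  split24 (m := w123) (by decide +kernel) (ch591 hTd) (tp563 hTd)
lemma tp565 (hTd : TdOK) : Good 0 ![w129, w47, w34, w112, w122, w113] :=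
  split12 (m := w52) (by decide +kernel) (tp564 hTd) (ch594 hTd)
lemma tp566 (hTd : TdOK) : Good 0 ![w129, w47, w34, w112, w122, w111] :=
  split25 (m := w113) (by decide +kernel) (ch590 hTd) (tp565 hTd)
lemma tp567 (hTd : TdOK) : Good 0 ![w128, w47, w34, w112, w122, w111] :=
  split02 (m := w129) (by decide +kernel) (tp566 hTd) (ch595 hTd)
lemma tp568 (hTd : TdOK) : Good 0 ![w128, w47, w34, w109, w122, w111] :=
  split23 (m := w112) (by decide +kernel) (ch589 hTd) (tp567 hTd)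
lemma tp569 (hTd : TdOK) : Good 0 ![w130, w57, w47, w115, w125, w110] :=
  split23 (m := w132) (by decide +kernel) (ch599 hTd) (ch600 hTd)
lemma tp570 (hTd : TdOK) : Good 0 ![w130, w12, w47, w115, w125, w110] :=
  split12 (m := w57) (by decide +kernel) (tp569 hTd) (ch601 hTd)
lemma tp571 (hTd : TdOK) : Good 0 ![w130, w12, w47, w109, w125, w110] :=
  split13 (m := w115) (by decide +kernel) (ch598 hTd) (tp570 hTd)
lemma tp572 (hTd : TdOK) : Good 0 ![w128, w12, w47, w109, w125, w110] :=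
  split01 (m := w130) (by decide +kernel) (tp571 hTd) (ch602 hTd)
lemma tp573 (hTd : TdOK) : Good 0 ![w128, w12, w47, w109, w122, w110] :=
  split14 (m := w125) (by decide +kernel) (ch597 hTd) (tp572 hTd)
lemma tp574 (hTd : TdOK) : Good 0 ![w128, w12, w47, w109, w122, w111] :=
  split15 (m := w110) (by decide +kernel) (ch596 hTd) (tp573 hTd)
lemma tp575 (hTd : TdOK) : Good 0 ![w128, w12, w34, w109, w122, w111] :=
  split12 (m := w47) (by decide +kernel) (tp568 hTd) (tp574 hTd)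
lemma tp576 (hTd : TdOK) : Good 0 ![w127, w12, w34, w109, w122, w111] :=
  split01 (m := w128) (by decide +kernel) (tp575 hTd) (ch603 hTd)
lemma tp577 (hTd : TdOK) : Good 0 ![w127, w12, w34, w107, w122, w111] :=
  split13 (m := w109) (by decide +kernel) (ch588 hTd) (tp576 hTd)
lemma tp578 (hTd : TdOK) : Good 0 ![w127, w12, w34, w107, w121, w111] :=
  split24 (m := w122) (by decide +kernel) (ch587 hTd) (tp577 hTd)
lemma tp579 (hTd : TdOK) : Good 0 ![w127, w12, w34, w107, w121, w108] :=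
  split25 (m := w111) (by decide +kernel) (ch586 hTd) (tp578 hTd)
lemma tp580 (hTd : TdOK) : Good 0 ![w127, w12, w34, w107, w121, w106] :=
  split15 (m := w108) (by decide +kernel) (ch585 hTd) (tp579 hTd)
lemma tp581 (hTd : TdOK) : Good 0 ![w127, w12, w34, w107, w120, w106] :=
  split14 (m := w121) (by decide +kernel) (ch584 hTd) (tp580 hTd)
lemma tp582 (hTd : TdOK) : Good 0 ![w23, w12, w34, w107, w120, w106] :=
  split02 (m := w127) (by decide +kernel) (tp581 hTd) (ch604 hTd)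
lemma tp583 (hTd : TdOK) : Good 0 ![w23, w12, w34, w22, w120, w106] :=
  split13 (m := w107) (by decide +kernel) (ch583 hTd) (tp582 hTd)
lemma tp584 (hTd : TdOK) : Good 0 ![w23, w12, w34, w22, w17, w106] :=
  split34 (m := w120) (by decide +kernel) (tp562 hTd) (tp583 hTd)
lemma tp585 (hTd : TdOK) : Good 0 ![w23, w12, w34, w22, w17, w13] :=
  split35 (m := w106) (by decide +kernel) (tp540 hTd) (tp584 hTd)
lemma tp586 (hTd : TdOK) : Good 0 ![w84, w62, w34, w131, w86, w85] :=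
  split02 (m := w87) (by decide +kernel) (ch611 hTd) (ch612 hTd)
lemma tp587 (hTd : TdOK) : Good 0 ![w84, w62, w34, w127, w86, w85] :=
  split23 (m := w131) (by decide +kernel) (ch610 hTd) (tp586 hTd)
lemma tp588 (hTd : TdOK) : Good 0 ![w84, w60, w34, w127, w86, w85] :=
  split12 (m := w62) (by decide +kernel) (tp587 hTd) (ch613 hTd)
lemma tp589 (hTd : TdOK) : Good 0 ![w84, w60, w34, w127, w65, w85] :=
  split24 (m := w86) (by decide +kernel) (ch609 hTd) (tp588 hTd)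
lemma tp590 (hTd : TdOK) : Good 0 ![w84, w60, w34, w127, w65, w58] :=
  split25 (m := w85) (by decide +kernel) (ch608 hTd) (tp589 hTd)
lemma tp591 (hTd : TdOK) : Good 0 ![w87, w67, w34, w131, w86, w62] :=
  split24 (m := w88) (by decide +kernel) (ch617 hTd) (ch618 hTd)
lemma tp592 (hTd : TdOK) : Good 0 ![w84, w67, w34, w131, w86, w62] :=
  split02 (m := w87) (by decide +kernel) (tp591 hTd) (ch619 hTd)
lemma tp593 (hTd : TdOK) : Good 0 ![w84, w66, w34, w131, w86, w62] :=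
  split12 (m := w67) (by decide +kernel) (tp592 hTd) (ch620 hTd)
lemma tp594 (hTd : TdOK) : Good 0 ![w84, w66, w34, w127, w86, w62] :=
  split23 (m := w131) (by decide +kernel) (ch616 hTd) (tp593 hTd)
lemma tp595 (hTd : TdOK) : Good 0 ![w84, w66, w34, w127, w86, w60] :=
  split25 (m := w62) (by decide +kernel) (ch615 hTd) (tp594 hTd)
lemma tp596 (hTd : TdOK) : Good 0 ![w84, w66, w34, w127, w65, w60] :=
  split24 (m := w86) (by decide +kernel) (ch614 hTd) (tp595 hTd)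
lemma tp597 (hTd : TdOK) : Good 0 ![w87, w52, w34, w131, w67, w74] :=
  split24 (m := w75) (by decide +kernel) (ch625 hTd) (ch626 hTd)
lemma tp598 (hTd : TdOK) : Good 0 ![w87, w52, w34, w131, w67, w62] :=
  split25 (m := w74) (by decide +kernel) (ch624 hTd) (tp597 hTd)
lemma tp599 (hTd : TdOK) : Good 0 ![w87, w47, w52, w131, w67, w62] :=
  split13 (m := w129) (by decide +kernel) (ch627 hTd) (ch628 hTd)
lemma tp600 (hTd : TdOK) : Good 0 ![w87, w47, w34, w131, w67, w62] :=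
  split12 (m := w52) (by decide +kernel) (tp598 hTd) (tp599 hTd)
lemma tp601 (hTd : TdOK) : Good 0 ![w84, w47, w34, w131, w67, w62] :=
  split02 (m := w87) (by decide +kernel) (tp600 hTd) (ch629 hTd)
lemma tp602 (hTd : TdOK) : Good 0 ![w84, w47, w34, w131, w66, w62] :=
  split24 (m := w67) (by decide +kernel) (ch623 hTd) (tp601 hTd)
lemma tp603 (hTd : TdOK) : Good 0 ![w84, w47, w34, w131, w66, w60] :=
  split25 (m := w62) (by decide +kernel) (ch622 hTd) (tp602 hTd)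
lemma tp604 (hTd : TdOK) : Good 0 ![w84, w47, w34, w127, w66, w60] :=
  split23 (m := w131) (by decide +kernel) (ch621 hTd) (tp603 hTd)
lemma tp605 (hTd : TdOK) : Good 0 ![w91, w57, w47, w130, w68, w64] :=
  split25 (m := w92) (by decide +kernel) (ch634 hTd) (ch635 hTd)
lemma tp606 (hTd : TdOK) : Good 0 ![w91, w12, w47, w130, w68, w64] :=
  split12 (m := w57) (by decide +kernel) (tp605 hTd) (ch636 hTd)
lemma tp607 (hTd : TdOK) : Good 0 ![w90, w12, w47, w130, w68, w64] :=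
  split01 (m := w91) (by decide +kernel) (tp606 hTd) (ch637 hTd)
lemma tp608 (hTd : TdOK) : Good 0 ![w90, w12, w47, w128, w68, w64] :=
  split13 (m := w130) (by decide +kernel) (ch633 hTd) (tp607 hTd)
lemma tp609 (hTd : TdOK) : Good 0 ![w90, w12, w47, w128, w66, w64] :=
  split14 (m := w68) (by decide +kernel) (ch632 hTd) (tp608 hTd)
lemma tp610 (hTd : TdOK) : Good 0 ![w90, w12, w47, w128, w66, w60] :=
  split15 (m := w64) (by decide +kernel) (ch631 hTd) (tp609 hTd)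
lemma tp611 (hTd : TdOK) : Good 0 ![w84, w12, w47, w128, w66, w60] :=
  split01 (m := w90) (by decide +kernel) (tp610 hTd) (ch638 hTd)
lemma tp612 (hTd : TdOK) : Good 0 ![w84, w12, w47, w127, w66, w60] :=
  split13 (m := w128) (by decide +kernel) (ch630 hTd) (tp611 hTd)
lemma tp613 (hTd : TdOK) : Good 0 ![w84, w12, w34, w127, w66, w60] :=
  split12 (m := w47) (by decide +kernel) (tp604 hTd) (tp612 hTd)
lemma tp614 (hTd : TdOK) : Good 0 ![w84, w12, w34, w127, w65, w60] :=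
  split14 (m := w66) (by decide +kernel) (tp596 hTd) (tp613 hTd)
lemma tp615 (hTd : TdOK) : Good 0 ![w84, w12, w34, w127, w65, w58] :=
  split15 (m := w60) (by decide +kernel) (tp590 hTd) (tp614 hTd)
lemma tp616 (hTd : TdOK) : Good 0 ![w83, w12, w34, w127, w65, w58] :=
  split02 (m := w84) (by decide +kernel) (tp615 hTd) (ch639 hTd)
lemma tp617 (hTd : TdOK) : Good 0 ![w83, w12, w34, w23, w65, w58] :=
  split23 (m := w127) (by decide +kernel) (ch607 hTd) (tp616 hTd)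
lemma tp618 (hTd : TdOK) : Good 0 ![w83, w12, w34, w23, w65, w13] :=
  split25 (m := w58) (by decide +kernel) (ch606 hTd) (tp617 hTd)
lemma tp619 (hTd : TdOK) : Good 0 ![w83, w12, w34, w23, w17, w13] :=
  split24 (m := w65) (by decide +kernel) (ch605 hTd) (tp618 hTd)
lemma tp620 (hTd : TdOK) : Good 0 ![w0, w12, w34, w23, w17, w13] :=
  split02 (m := w83) (by decide +kernel) (tp619 hTd) (ch640 hTd)
lemma tp621 (hTd : TdOK) : Good 0 ![w0, w12, w34, w22, w17, w13] :=
  split03 (m := w23) (by decide +kernel) (tp585 hTd) (tp620 hTd)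
lemma tp622 (hTd : TdOK) : Good 0 ![w0, w12, w34, w22, w4, w13] :=
  split04 (m := w17) (by decide +kernel) (tp514 hTd) (tp621 hTd)
lemma tp623 (hTd : TdOK) : Good 0 ![w0, w12, w34, w22, w4, w5] :=
  split05 (m := w13) (by decide +kernel) (tp418 hTd) (tp622 hTd)
lemma tp624 (hTd : TdOK) : Good 0 ![w96, w12, w99, w109, w39, w98] :=
  split14 (m := w55) (by decide +kernel) (ch649 hTd) (ch650 hTd)
lemma tp625 (hTd : TdOK) : Good 0 ![w96, w12, w97, w109, w39, w98] :=
  split12 (m := w99) (by decide +kernel) (ch648 hTd) (tp624 hTd)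
lemma tp626 (hTd : TdOK) : Good 0 ![w96, w12, w97, w109, w39, w95] :=
  split15 (m := w98) (by decide +kernel) (ch647 hTd) (tp625 hTd)
lemma tp627 (hTd : TdOK) : Good 0 ![w96, w12, w97, w107, w39, w95] :=
  split13 (m := w109) (by decide +kernel) (ch646 hTd) (tp626 hTd)
lemma tp628 (hTd : TdOK) : Good 0 ![w100, w52, w34, w112, w53, w101] :=
  split23 (m := w114) (by decide +kernel) (ch656 hTd) (ch657 hTd)
lemma tp629 (hTd : TdOK) : Good 0 ![w100, w52, w34, w112, w48, w101] :=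
  split24 (m := w53) (by decide +kernel) (ch655 hTd) (tp628 hTd)
lemma tp630 (hTd : TdOK) : Good 0 ![w100, w47, w34, w112, w48, w101] :=
  split12 (m := w52) (by decide +kernel) (tp629 hTd) (ch658 hTd)
lemma tp631 (hTd : TdOK) : Good 0 ![w100, w47, w34, w112, w48, w97] :=
  split25 (m := w101) (by decide +kernel) (ch654 hTd) (tp630 hTd)
lemma tp632 (hTd : TdOK) : Good 0 ![w96, w47, w34, w112, w48, w97] :=
  split02 (m := w100) (by decide +kernel) (tp631 hTd) (ch659 hTd)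
lemma tp633 (hTd : TdOK) : Good 0 ![w96, w47, w34, w109, w48, w97] :=
  split23 (m := w112) (by decide +kernel) (ch653 hTd) (tp632 hTd)
lemma tp634 (hTd : TdOK) : Good 0 ![w96, w47, w34, w109, w39, w97] :=
  split24 (m := w48) (by decide +kernel) (ch652 hTd) (tp633 hTd)
lemma tp635 (hTd : TdOK) : Good 0 ![w102, w57, w47, w115, w69, w99] :=
  split23 (m := w132) (by decide +kernel) (ch664 hTd) (ch665 hTd)
lemma tp636 (hTd : TdOK) : Good 0 ![w102, w57, w47, w115, w55, w99] :=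
  split24 (m := w69) (by decide +kernel) (ch663 hTd) (tp635 hTd)
lemma tp637 (hTd : TdOK) : Good 0 ![w102, w12, w47, w115, w55, w99] :=
  split12 (m := w57) (by decide +kernel) (tp636 hTd) (ch666 hTd)
lemma tp638 (hTd : TdOK) : Good 0 ![w102, w12, w47, w109, w55, w99] :=
  split13 (m := w115) (by decide +kernel) (ch662 hTd) (tp637 hTd)
lemma tp639 (hTd : TdOK) : Good 0 ![w96, w12, w47, w109, w55, w99] :=
  split01 (m := w102) (by decide +kernel) (tp638 hTd) (ch667 hTd)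
lemma tp640 (hTd : TdOK) : Good 0 ![w96, w12, w47, w109, w39, w99] :=
  split14 (m := w55) (by decide +kernel) (ch661 hTd) (tp639 hTd)
lemma tp641 (hTd : TdOK) : Good 0 ![w96, w12, w47, w109, w39, w97] :=
  split15 (m := w99) (by decide +kernel) (ch660 hTd) (tp640 hTd)
lemma tp642 (hTd : TdOK) : Good 0 ![w96, w12, w34, w109, w39, w97] :=
  split12 (m := w47) (by decide +kernel) (tp634 hTd) (tp641 hTd)
lemma tp643 (hTd : TdOK) : Good 0 ![w96, w12, w34, w107, w39, w97] :=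
  split13 (m := w109) (by decide +kernel) (ch651 hTd) (tp642 hTd)
lemma tp644 (hTd : TdOK) : Good 0 ![w96, w12, w34, w107, w39, w95] :=
  split25 (m := w97) (by decide +kernel) (tp627 hTd) (tp643 hTd)
lemma tp645 (hTd : TdOK) : Good 0 ![w94, w12, w34, w107, w39, w95] :=
  split01 (m := w96) (by decide +kernel) (tp644 hTd) (ch668 hTd)
lemma tp646 (hTd : TdOK) : Good 0 ![w94, w12, w34, w107, w14, w95] :=
  split14 (m := w39) (by decide +kernel) (ch645 hTd) (tp645 hTd)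
lemma tp647 (hTd : TdOK) : Good 0 ![w94, w12, w34, w22, w14, w95] :=
  split13 (m := w107) (by decide +kernel) (ch644 hTd) (tp646 hTd)
lemma tp648 (hTd : TdOK) : Good 0 ![w94, w12, w34, w22, w14, w93] :=
  split15 (m := w95) (by decide +kernel) (ch643 hTd) (tp647 hTd)
lemma tp649 (hTd : TdOK) : Good 0 ![w18, w12, w34, w22, w14, w93] :=
  split02 (m := w94) (by decide +kernel) (tp648 hTd) (ch669 hTd)
lemma tp650 (hTd : TdOK) : Good 0 ![w18, w12, w34, w22, w4, w93] :=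
  split14 (m := w14) (by decide +kernel) (ch642 hTd) (tp649 hTd)
lemma tp651 (hTd : TdOK) : Good 0 ![w18, w12, w34, w22, w4, w8] :=
  split15 (m := w93) (by decide +kernel) (ch641 hTd) (tp650 hTd)
lemma tp652 (hTd : TdOK) : Good 0 ![w123, w52, w34, w112, w48, w100] :=
  split24 (m := w53) (by decide +kernel) (ch679 hTd) (ch680 hTd)
lemma tp653 (hTd : TdOK) : Good 0 ![w122, w52, w34, w112, w48, w100] :=
  split02 (m := w123) (by decide +kernel) (tp652 hTd) (ch681 hTd)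
lemma tp654 (hTd : TdOK) : Good 0 ![w122, w47, w34, w112, w48, w100] :=
  split12 (m := w52) (by decide +kernel) (tp653 hTd) (ch682 hTd)
lemma tp655 (hTd : TdOK) : Good 0 ![w122, w47, w34, w112, w48, w96] :=
  split25 (m := w100) (by decide +kernel) (ch678 hTd) (tp654 hTd)
lemma tp656 (hTd : TdOK) : Good 0 ![w122, w47, w34, w109, w48, w96] :=
  split23 (m := w112) (by decide +kernel) (ch677 hTd) (tp655 hTd)
lemma tp657 (hTd : TdOK) : Good 0 ![w122, w47, w34, w109, w39, w96] :=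
  split24 (m := w48) (by decide +kernel) (ch676 hTd) (tp656 hTd)
lemma tp658 (hTd : TdOK) : Good 0 ![w125, w57, w47, w115, w69, w102] :=
  split23 (m := w132) (by decide +kernel) (ch687 hTd) (ch688 hTd)
lemma tp659 (hTd : TdOK) : Good 0 ![w125, w57, w47, w115, w55, w102] :=
  split24 (m := w69) (by decide +kernel) (ch686 hTd) (tp658 hTd)
lemma tp660 (hTd : TdOK) : Good 0 ![w125, w12, w47, w115, w55, w102] :=
  split12 (m := w57) (by decide +kernel) (tp659 hTd) (ch689 hTd)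
lemma tp661 (hTd : TdOK) : Good 0 ![w125, w12, w47, w109, w55, w102] :=
  split13 (m := w115) (by decide +kernel) (ch685 hTd) (tp660 hTd)
lemma tp662 (hTd : TdOK) : Good 0 ![w125, w12, w47, w109, w55, w96] :=
  split15 (m := w102) (by decide +kernel) (ch684 hTd) (tp661 hTd)
lemma tp663 (hTd : TdOK) : Good 0 ![w125, w12, w47, w109, w39, w96] :=
  split14 (m := w55) (by decide +kernel) (ch683 hTd) (tp662 hTd)
lemma tp664 (hTd : TdOK) : Good 0 ![w122, w12, w47, w109, w39, w96] :=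
  split01 (m := w125) (by decide +kernel) (tp663 hTd) (ch690 hTd)
lemma tp665 (hTd : TdOK) : Good 0 ![w122, w12, w34, w109, w39, w96] :=
  split12 (m := w47) (by decide +kernel) (tp657 hTd) (tp664 hTd)
lemma tp666 (hTd : TdOK) : Good 0 ![w122, w12, w34, w107, w39, w96] :=
  split13 (m := w109) (by decide +kernel) (ch675 hTd) (tp665 hTd)
lemma tp667 (hTd : TdOK) : Good 0 ![w121, w12, w34, w107, w39, w96] :=
  split02 (m := w122) (by decide +kernel) (tp666 hTd) (ch691 hTd)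
lemma tp668 (hTd : TdOK) : Good 0 ![w121, w12, w34, w107, w39, w94] :=
  split15 (m := w96) (by decide +kernel) (ch674 hTd) (tp667 hTd)
lemma tp669 (hTd : TdOK) : Good 0 ![w121, w12, w34, w107, w14, w94] :=
  split14 (m := w39) (by decide +kernel) (ch673 hTd) (tp668 hTd)
lemma tp670 (hTd : TdOK) : Good 0 ![w120, w12, w34, w107, w14, w94] :=
  split01 (m := w121) (by decide +kernel) (tp669 hTd) (ch692 hTd)
lemma tp671 (hTd : TdOK) : Good 0 ![w120, w12, w34, w22, w14, w94] :=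
  split13 (m := w107) (by decide +kernel) (ch672 hTd) (tp670 hTd)
lemma tp672 (hTd : TdOK) : Good 0 ![w67, w47, w34, w122, w48, w100] :=
  split12 (m := w52) (by decide +kernel) (ch699 hTd) (ch700 hTd)
lemma tp673 (hTd : TdOK) : Good 0 ![w66, w47, w34, w122, w48, w100] :=
  split02 (m := w67) (by decide +kernel) (tp672 hTd) (ch701 hTd)
lemma tp674 (hTd : TdOK) : Good 0 ![w66, w47, w34, w122, w48, w96] :=
  split25 (m := w100) (by decide +kernel) (ch698 hTd) (tp673 hTd)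
lemma tp675 (hTd : TdOK) : Good 0 ![w66, w47, w34, w122, w39, w96] :=
  split24 (m := w48) (by decide +kernel) (ch697 hTd) (tp674 hTd)
lemma tp676 (hTd : TdOK) : Good 0 ![w68, w12, w47, w125, w55, w102] :=
  split12 (m := w57) (by decide +kernel) (ch705 hTd) (ch706 hTd)
lemma tp677 (hTd : TdOK) : Good 0 ![w66, w12, w47, w125, w55, w102] :=
  split01 (m := w68) (by decide +kernel) (tp676 hTd) (ch707 hTd)
lemma tp678 (hTd : TdOK) : Good 0 ![w66, w12, w47, w125, w55, w96] :=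
  split15 (m := w102) (by decide +kernel) (ch704 hTd) (tp677 hTd)
lemma tp679 (hTd : TdOK) : Good 0 ![w66, w12, w47, w125, w39, w96] :=
  split14 (m := w55) (by decide +kernel) (ch703 hTd) (tp678 hTd)
lemma tp680 (hTd : TdOK) : Good 0 ![w66, w12, w47, w122, w39, w96] :=
  split13 (m := w125) (by decide +kernel) (ch702 hTd) (tp679 hTd)
lemma tp681 (hTd : TdOK) : Good 0 ![w66, w12, w34, w122, w39, w96] :=
  split12 (m := w47) (by decide +kernel) (tp675 hTd) (tp680 hTd)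
lemma tp682 (hTd : TdOK) : Good 0 ![w66, w12, w34, w121, w39, w96] :=
  split23 (m := w122) (by decide +kernel) (ch696 hTd) (tp681 hTd)
lemma tp683 (hTd : TdOK) : Good 0 ![w65, w12, w34, w121, w39, w96] :=
  split01 (m := w66) (by decide +kernel) (tp682 hTd) (ch708 hTd)
lemma tp684 (hTd : TdOK) : Good 0 ![w65, w12, w34, w121, w39, w94] :=
  split15 (m := w96) (by decide +kernel) (ch695 hTd) (tp683 hTd)
lemma tp685 (hTd : TdOK) : Good 0 ![w65, w12, w34, w121, w14, w94] :=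
  split14 (m := w39) (by decide +kernel) (ch694 hTd) (tp684 hTd)
lemma tp686 (hTd : TdOK) : Good 0 ![w65, w12, w34, w120, w14, w94] :=
  split13 (m := w121) (by decide +kernel) (ch693 hTd) (tp685 hTd)
lemma tp687 (hTd : TdOK) : Good 0 ![w17, w12, w34, w120, w14, w94] :=
  split02 (m := w65) (by decide +kernel) (tp686 hTd) (ch709 hTd)
lemma tp688 (hTd : TdOK) : Good 0 ![w17, w12, w34, w22, w14, w94] :=
  split03 (m := w120) (by decide +kernel) (tp671 hTd) (tp687 hTd)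
lemma tp689 (hTd : TdOK) : Good 0 ![w17, w12, w34, w22, w14, w18] :=
  split25 (m := w94) (by decide +kernel) (ch671 hTd) (tp688 hTd)
lemma tp690 (hTd : TdOK) : Good 0 ![w17, w12, w34, w22, w4, w18] :=
  split14 (m := w14) (by decide +kernel) (ch670 hTd) (tp689 hTd)
lemma tp691 (hTd : TdOK) : Good 0 ![w129, w52, w34, w136, w67, w103] :=
  split24 (m := w75) (by decide +kernel) (ch720 hTd) (ch721 hTd)
lemma tp692 (hTd : TdOK) : Good 0 ![w129, w52, w34, w136, w67, w100] :=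
  split25 (m := w103) (by decide +kernel) (ch719 hTd) (tp691 hTd)
lemma tp693 (hTd : TdOK) : Good 0 ![w129, w47, w34, w136, w67, w100] :=
  split12 (m := w52) (by decide +kernel) (tp692 hTd) (ch722 hTd)
lemma tp694 (hTd : TdOK) : Good 0 ![w129, w47, w34, w135, w67, w100] :=
  split23 (m := w136) (by decide +kernel) (ch718 hTd) (tp693 hTd)
lemma tp695 (hTd : TdOK) : Good 0 ![w128, w47, w34, w135, w67, w100] :=
  split02 (m := w129) (by decide +kernel) (tp694 hTd) (ch723 hTd)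
lemma tp696 (hTd : TdOK) : Good 0 ![w128, w47, w34, w135, w66, w100] :=
  split24 (m := w67) (by decide +kernel) (ch717 hTd) (tp695 hTd)
lemma tp697 (hTd : TdOK) : Good 0 ![w128, w47, w34, w135, w66, w96] :=
  split25 (m := w100) (by decide +kernel) (ch716 hTd) (tp696 hTd)
lemma tp698 (hTd : TdOK) : Good 0 ![w128, w12, w47, w137, w68, w102] :=
  split01 (m := w130) (by decide +kernel) (ch727 hTd) (ch728 hTd)
lemma tp699 (hTd : TdOK) : Good 0 ![w128, w12, w47, w137, w66, w102] :=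
  split14 (m := w68) (by decide +kernel) (ch726 hTd) (tp698 hTd)
lemma tp700 (hTd : TdOK) : Good 0 ![w128, w12, w47, w137, w66, w96] :=
  split15 (m := w102) (by decide +kernel) (ch725 hTd) (tp699 hTd)
lemma tp701 (hTd : TdOK) : Good 0 ![w128, w12, w47, w135, w66, w96] :=
  split13 (m := w137) (by decide +kernel) (ch724 hTd) (tp700 hTd)
lemma tp702 (hTd : TdOK) : Good 0 ![w128, w12, w34, w135, w66, w96] :=
  split12 (m := w47) (by decide +kernel) (tp697 hTd) (tp701 hTd)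
lemma tp703 (hTd : TdOK) : Good 0 ![w131, w129, w34, w135, w67, w100] :=
  split23 (m := w136) (by decide +kernel) (ch731 hTd) (ch732 hTd)
lemma tp704 (hTd : TdOK) : Good 0 ![w131, w128, w34, w135, w67, w100] :=
  split12 (m := w129) (by decide +kernel) (tp703 hTd) (ch733 hTd)
lemma tp705 (hTd : TdOK) : Good 0 ![w131, w128, w34, w135, w66, w100] :=
  split24 (m := w67) (by decide +kernel) (ch730 hTd) (tp704 hTd)
lemma tp706 (hTd : TdOK) : Good 0 ![w127, w128, w34, w135, w66, w100] :=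
  split02 (m := w131) (by decide +kernel) (tp705 hTd) (ch734 hTd)
lemma tp707 (hTd : TdOK) : Good 0 ![w127, w128, w34, w135, w66, w96] :=
  split25 (m := w100) (by decide +kernel) (ch729 hTd) (tp706 hTd)
lemma tp708 (hTd : TdOK) : Good 0 ![w127, w12, w34, w135, w66, w96] :=
  split01 (m := w128) (by decide +kernel) (tp702 hTd) (tp707 hTd)
lemma tp709 (hTd : TdOK) : Good 0 ![w127, w12, w34, w135, w65, w96] :=
  split14 (m := w66) (by decide +kernel) (ch715 hTd) (tp708 hTd)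
lemma tp710 (hTd : TdOK) : Good 0 ![w127, w12, w34, w134, w65, w96] :=
  split23 (m := w135) (by decide +kernel) (ch714 hTd) (tp709 hTd)
lemma tp711 (hTd : TdOK) : Good 0 ![w127, w12, w34, w134, w65, w94] :=
  split15 (m := w96) (by decide +kernel) (ch713 hTd) (tp710 hTd)
lemma tp712 (hTd : TdOK) : Good 0 ![w127, w12, w34, w133, w65, w94] :=
  split13 (m := w134) (by decide +kernel) (ch712 hTd) (tp711 hTd)
lemma tp713 (hTd : TdOK) : Good 0 ![w23, w12, w34, w133, w65, w94] :=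
  split02 (m := w127) (by decide +kernel) (tp712 hTd) (ch735 hTd)
lemma tp714 (hTd : TdOK) : Good 0 ![w23, w12, w34, w133, w17, w94] :=
  split24 (m := w65) (by decide +kernel) (ch711 hTd) (tp713 hTd)
lemma tp715 (hTd : TdOK) : Good 0 ![w23, w12, w34, w133, w17, w18] :=
  split25 (m := w94) (by decide +kernel) (ch710 hTd) (tp714 hTd)
lemma tp716 (hTd : TdOK) : Good 0 ![w129, w52, w34, w123, w67, w136] :=
  split24 (m := w75) (by decide +kernel) (ch745 hTd) (ch746 hTd)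
lemma tp717 (hTd : TdOK) : Good 0 ![w129, w52, w34, w122, w67, w136] :=
  split23 (m := w123) (by decide +kernel) (ch744 hTd) (tp716 hTd)
lemma tp718 (hTd : TdOK) : Good 0 ![w129, w47, w34, w122, w67, w136] :=
  split12 (m := w52) (by decide +kernel) (tp717 hTd) (ch747 hTd)
lemma tp719 (hTd : TdOK) : Good 0 ![w129, w47, w34, w122, w67, w135] :=
  split25 (m := w136) (by decide +kernel) (ch743 hTd) (tp718 hTd)
lemma tp720 (hTd : TdOK) : Good 0 ![w128, w47, w34, w122, w67, w135] :=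
  split02 (m := w129) (by decide +kernel) (tp719 hTd) (ch748 hTd)
lemma tp721 (hTd : TdOK) : Good 0 ![w128, w47, w34, w122, w66, w135] :=
  split24 (m := w67) (by decide +kernel) (ch742 hTd) (tp720 hTd)
lemma tp722 (hTd : TdOK) : Good 0 ![w130, w12, w47, w125, w68, w137] :=
  split12 (m := w57) (by decide +kernel) (ch752 hTd) (ch753 hTd)
lemma tp723 (hTd : TdOK) : Good 0 ![w128, w12, w47, w125, w68, w137] :=
  split01 (m := w130) (by decide +kernel) (tp722 hTd) (ch754 hTd)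
lemma tp724 (hTd : TdOK) : Good 0 ![w128, w12, w47, w125, w66, w137] :=
  split14 (m := w68) (by decide +kernel) (ch751 hTd) (tp723 hTd)
lemma tp725 (hTd : TdOK) : Good 0 ![w128, w12, w47, w122, w66, w137] :=
  split13 (m := w125) (by decide +kernel) (ch750 hTd) (tp724 hTd)
lemma tp726 (hTd : TdOK) : Good 0 ![w128, w12, w47, w122, w66, w135] :=
  split15 (m := w137) (by decide +kernel) (ch749 hTd) (tp725 hTd)
lemma tp727 (hTd : TdOK) : Good 0 ![w128, w12, w34, w122, w66, w135] :=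
  split12 (m := w47) (by decide +kernel) (tp721 hTd) (tp726 hTd)
lemma tp728 (hTd : TdOK) : Good 0 ![w131, w128, w34, w122, w66, w135] :=
  split24 (m := w67) (by decide +kernel) (ch755 hTd) (ch756 hTd)
lemma tp729 (hTd : TdOK) : Good 0 ![w127, w128, w34, w122, w66, w135] :=
  split02 (m := w131) (by decide +kernel) (tp728 hTd) (ch757 hTd)
lemma tp730 (hTd : TdOK) : Good 0 ![w127, w12, w34, w122, w66, w135] :=
  split01 (m := w128) (by decide +kernel) (tp727 hTd) (tp729 hTd)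
lemma tp731 (hTd : TdOK) : Good 0 ![w127, w12, w34, w121, w66, w135] :=
  split23 (m := w122) (by decide +kernel) (ch741 hTd) (tp730 hTd)
lemma tp732 (hTd : TdOK) : Good 0 ![w127, w12, w34, w121, w65, w135] :=
  split14 (m := w66) (by decide +kernel) (ch740 hTd) (tp731 hTd)
lemma tp733 (hTd : TdOK) : Good 0 ![w127, w12, w34, w121, w65, w134] :=
  split25 (m := w135) (by decide +kernel) (ch739 hTd) (tp732 hTd)
lemma tp734 (hTd : TdOK) : Good 0 ![w127, w12, w34, w120, w65, w134] :=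
  split13 (m := w121) (by decide +kernel) (ch738 hTd) (tp733 hTd)
lemma tp735 (hTd : TdOK) : Good 0 ![w127, w12, w34, w120, w65, w133] :=
  split15 (m := w134) (by decide +kernel) (ch737 hTd) (tp734 hTd)
lemma tp736 (hTd : TdOK) : Good 0 ![w23, w12, w34, w120, w65, w133] :=
  split02 (m := w127) (by decide +kernel) (tp735 hTd) (ch758 hTd)
lemma tp737 (hTd : TdOK) : Good 0 ![w23, w12, w34, w120, w17, w133] :=
  split24 (m := w65) (by decide +kernel) (ch736 hTd) (tp736 hTd)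
lemma tp738 (hTd : TdOK) : Good 0 ![w129, w52, w34, w112, w123, w136] :=
  split23 (m := w114) (by decide +kernel) (ch768 hTd) (ch769 hTd)
lemma tp739 (hTd : TdOK) : Good 0 ![w129, w52, w34, w112, w122, w136] :=
  split24 (m := w123) (by decide +kernel) (ch767 hTd) (tp738 hTd)
lemma tp740 (hTd : TdOK) : Good 0 ![w129, w47, w34, w112, w122, w136] :=
  split12 (m := w52) (by decide +kernel) (tp739 hTd) (ch770 hTd)
lemma tp741 (hTd : TdOK) : Good 0 ![w129, w47, w34, w112, w122, w135] :=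
  split25 (m := w136) (by decide +kernel) (ch766 hTd) (tp740 hTd)
lemma tp742 (hTd : TdOK) : Good 0 ![w128, w47, w34, w112, w122, w135] :=
  split02 (m := w129) (by decide +kernel) (tp741 hTd) (ch771 hTd)
lemma tp743 (hTd : TdOK) : Good 0 ![w128, w47, w34, w109, w122, w135] :=
  split23 (m := w112) (by decide +kernel) (ch765 hTd) (tp742 hTd)
lemma tp744 (hTd : TdOK) : Good 0 ![w130, w57, w47, w115, w125, w137] :=
  split23 (m := w132) (by decide +kernel) (ch775 hTd) (ch776 hTd)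
lemma tp745 (hTd : TdOK) : Good 0 ![w130, w12, w47, w115, w125, w137] :=
  split12 (m := w57) (by decide +kernel) (tp744 hTd) (ch777 hTd)
lemma tp746 (hTd : TdOK) : Good 0 ![w130, w12, w47, w109, w125, w137] :=
  split13 (m := w115) (by decide +kernel) (ch774 hTd) (tp745 hTd)
lemma tp747 (hTd : TdOK) : Good 0 ![w128, w12, w47, w109, w125, w137] :=
  split01 (m := w130) (by decide +kernel) (tp746 hTd) (ch778 hTd)
lemma tp748 (hTd : TdOK) : Good 0 ![w128, w12, w47, w109, w122, w137] :=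
  split14 (m := w125) (by decide +kernel) (ch773 hTd) (tp747 hTd)
lemma tp749 (hTd : TdOK) : Good 0 ![w128, w12, w47, w109, w122, w135] :=
  split15 (m := w137) (by decide +kernel) (ch772 hTd) (tp748 hTd)
lemma tp750 (hTd : TdOK) : Good 0 ![w128, w12, w34, w109, w122, w135] :=
  split12 (m := w47) (by decide +kernel) (tp743 hTd) (tp749 hTd)
lemma tp751 (hTd : TdOK) : Good 0 ![w127, w12, w34, w109, w122, w135] :=
  split01 (m := w128) (by decide +kernel) (tp750 hTd) (ch779 hTd)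
lemma tp752 (hTd : TdOK) : Good 0 ![w127, w12, w34, w107, w122, w135] :=
  split13 (m := w109) (by decide +kernel) (ch764 hTd) (tp751 hTd)
lemma tp753 (hTd : TdOK) : Good 0 ![w127, w12, w34, w107, w121, w135] :=
  split24 (m := w122) (by decide +kernel) (ch763 hTd) (tp752 hTd)
lemma tp754 (hTd : TdOK) : Good 0 ![w127, w12, w34, w107, w121, w134] :=
  split25 (m := w135) (by decide +kernel) (ch762 hTd) (tp753 hTd)
lemma tp755 (hTd : TdOK) : Good 0 ![w127, w12, w34, w107, w120, w134] :=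
  split14 (m := w121) (by decide +kernel) (ch761 hTd) (tp754 hTd)
lemma tp756 (hTd : TdOK) : Good 0 ![w23, w12, w34, w107, w120, w134] :=
  split02 (m := w127) (by decide +kernel) (tp755 hTd) (ch780 hTd)
lemma tp757 (hTd : TdOK) : Good 0 ![w23, w12, w34, w107, w120, w133] :=
  split15 (m := w134) (by decide +kernel) (ch760 hTd) (tp756 hTd)
lemma tp758 (hTd : TdOK) : Good 0 ![w23, w12, w34, w22, w120, w133] :=
  split13 (m := w107) (by decide +kernel) (ch759 hTd) (tp757 hTd)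
lemma tp759 (hTd : TdOK) : Good 0 ![w23, w12, w34, w22, w17, w133] :=
  split34 (m := w120) (by decide +kernel) (tp737 hTd) (tp758 hTd)
lemma tp760 (hTd : TdOK) : Good 0 ![w23, w12, w34, w22, w17, w18] :=
  split35 (m := w133) (by decide +kernel) (tp715 hTd) (tp759 hTd)
lemma tp761 (hTd : TdOK) : Good 0 ![w84, w96, w34, w127, w86, w104] :=
  split12 (m := w100) (by decide +kernel) (ch786 hTd) (ch787 hTd)
lemma tp762 (hTd : TdOK) : Good 0 ![w84, w96, w34, w127, w65, w104] :=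
  split24 (m := w86) (by decide +kernel) (ch785 hTd) (tp761 hTd)
lemma tp763 (hTd : TdOK) : Good 0 ![w84, w96, w34, w127, w65, w94] :=
  split25 (m := w104) (by decide +kernel) (ch784 hTd) (tp762 hTd)
lemma tp764 (hTd : TdOK) : Good 0 ![w84, w67, w34, w131, w86, w100] :=
  split02 (m := w87) (by decide +kernel) (ch791 hTd) (ch792 hTd)
lemma tp765 (hTd : TdOK) : Good 0 ![w84, w66, w34, w131, w86, w100] :=
  split12 (m := w67) (by decide +kernel) (tp764 hTd) (ch793 hTd)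
lemma tp766 (hTd : TdOK) : Good 0 ![w84, w66, w34, w127, w86, w100] :=
  split23 (m := w131) (by decide +kernel) (ch790 hTd) (tp765 hTd)
lemma tp767 (hTd : TdOK) : Good 0 ![w84, w66, w34, w127, w86, w96] :=
  split25 (m := w100) (by decide +kernel) (ch789 hTd) (tp766 hTd)
lemma tp768 (hTd : TdOK) : Good 0 ![w84, w66, w34, w127, w65, w96] :=
  split24 (m := w86) (by decide +kernel) (ch788 hTd) (tp767 hTd)
lemma tp769 (hTd : TdOK) : Good 0 ![w87, w52, w34, w131, w67, w103] :=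
  split24 (m := w75) (by decide +kernel) (ch798 hTd) (ch799 hTd)
lemma tp770 (hTd : TdOK) : Good 0 ![w87, w52, w34, w131, w67, w100] :=
  split25 (m := w103) (by decide +kernel) (ch797 hTd) (tp769 hTd)
lemma tp771 (hTd : TdOK) : Good 0 ![w87, w47, w52, w131, w67, w100] :=
  split13 (m := w129) (by decide +kernel) (ch800 hTd) (ch801 hTd)
lemma tp772 (hTd : TdOK) : Good 0 ![w87, w47, w34, w131, w67, w100] :=
  split12 (m := w52) (by decide +kernel) (tp770 hTd) (tp771 hTd)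
lemma tp773 (hTd : TdOK) : Good 0 ![w84, w47, w34, w131, w67, w100] :=
  split02 (m := w87) (by decide +kernel) (tp772 hTd) (ch802 hTd)
lemma tp774 (hTd : TdOK) : Good 0 ![w84, w47, w34, w131, w66, w100] :=
  split24 (m := w67) (by decide +kernel) (ch796 hTd) (tp773 hTd)
lemma tp775 (hTd : TdOK) : Good 0 ![w84, w47, w34, w127, w66, w100] :=
  split23 (m := w131) (by decide +kernel) (ch795 hTd) (tp774 hTd)
lemma tp776 (hTd : TdOK) : Good 0 ![w84, w47, w34, w127, w66, w96] :=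
  split25 (m := w100) (by decide +kernel) (ch794 hTd) (tp775 hTd)
lemma tp777 (hTd : TdOK) : Good 0 ![w91, w57, w47, w130, w68, w102] :=
  split25 (m := w105) (by decide +kernel) (ch807 hTd) (ch808 hTd)
lemma tp778 (hTd : TdOK) : Good 0 ![w91, w12, w47, w130, w68, w102] :=
  split12 (m := w57) (by decide +kernel) (tp777 hTd) (ch809 hTd)
lemma tp779 (hTd : TdOK) : Good 0 ![w90, w12, w47, w130, w68, w102] :=
  split01 (m := w91) (by decide +kernel) (tp778 hTd) (ch810 hTd)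
lemma tp780 (hTd : TdOK) : Good 0 ![w90, w12, w47, w128, w68, w102] :=
  split13 (m := w130) (by decide +kernel) (ch806 hTd) (tp779 hTd)
lemma tp781 (hTd : TdOK) : Good 0 ![w90, w12, w47, w128, w66, w102] :=
  split14 (m := w68) (by decide +kernel) (ch805 hTd) (tp780 hTd)
lemma tp782 (hTd : TdOK) : Good 0 ![w90, w12, w47, w128, w66, w96] :=
  split15 (m := w102) (by decide +kernel) (ch804 hTd) (tp781 hTd)
lemma tp783 (hTd : TdOK) : Good 0 ![w84, w12, w47, w128, w66, w96] :=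
  split01 (m := w90) (by decide +kernel) (tp782 hTd) (ch811 hTd)
lemma tp784 (hTd : TdOK) : Good 0 ![w84, w12, w47, w127, w66, w96] :=
  split13 (m := w128) (by decide +kernel) (ch803 hTd) (tp783 hTd)
lemma tp785 (hTd : TdOK) : Good 0 ![w84, w12, w34, w127, w66, w96] :=
  split12 (m := w47) (by decide +kernel) (tp776 hTd) (tp784 hTd)
lemma tp786 (hTd : TdOK) : Good 0 ![w84, w12, w34, w127, w65, w96] :=
  split14 (m := w66) (by decide +kernel) (tp768 hTd) (tp785 hTd)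
lemma tp787 (hTd : TdOK) : Good 0 ![w84, w12, w34, w127, w65, w94] :=
  split15 (m := w96) (by decide +kernel) (tp763 hTd) (tp786 hTd)
lemma tp788 (hTd : TdOK) : Good 0 ![w83, w12, w34, w127, w65, w94] :=
  split02 (m := w84) (by decide +kernel) (tp787 hTd) (ch812 hTd)
lemma tp789 (hTd : TdOK) : Good 0 ![w83, w12, w34, w23, w65, w94] :=
  split23 (m := w127) (by decide +kernel) (ch783 hTd) (tp788 hTd)
lemma tp790 (hTd : TdOK) : Good 0 ![w83, w12, w34, w23, w17, w94] :=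
  split24 (m := w65) (by decide +kernel) (ch782 hTd) (tp789 hTd)
lemma tp791 (hTd : TdOK) : Good 0 ![w83, w12, w34, w23, w17, w18] :=
  split25 (m := w94) (by decide +kernel) (ch781 hTd) (tp790 hTd)
lemma tp792 (hTd : TdOK) : Good 0 ![w0, w12, w34, w23, w17, w18] :=
  split02 (m := w83) (by decide +kernel) (tp791 hTd) (ch813 hTd)
lemma tp793 (hTd : TdOK) : Good 0 ![w0, w12, w34, w22, w17, w18] :=
  split03 (m := w23) (by decide +kernel) (tp760 hTd) (tp792 hTd)
lemma tp794 (hTd : TdOK) : Good 0 ![w0, w12, w34, w22, w4, w18] :=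
  split04 (m := w17) (by decide +kernel) (tp690 hTd) (tp793 hTd)
lemma tp795 (hTd : TdOK) : Good 0 ![w0, w12, w34, w22, w4, w8] :=
  split05 (m := w18) (by decide +kernel) (tp651 hTd) (tp794 hTd)
lemma tp796 (hTd : TdOK) : Good 0 ![w110, w12, w44, w109, w139, w43] :=
  split12 (m := w45) (by decide +kernel) (ch821 hTd) (ch822 hTd)
lemma tp797 (hTd : TdOK) : Good 0 ![w110, w12, w44, w109, w139, w40] :=
  split15 (m := w43) (by decide +kernel) (ch820 hTd) (tp796 hTd)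
lemma tp798 (hTd : TdOK) : Good 0 ![w111, w12, w44, w109, w139, w40] :=
  split01 (m := w110) (by decide +kernel) (tp797 hTd) (ch823 hTd)
lemma tp799 (hTd : TdOK) : Good 0 ![w113, w52, w34, w112, w141, w50] :=
  split23 (m := w114) (by decide +kernel) (ch828 hTd) (ch829 hTd)
lemma tp800 (hTd : TdOK) : Good 0 ![w113, w52, w34, w112, w140, w50] :=
  split24 (m := w141) (by decide +kernel) (ch827 hTd) (tp799 hTd)
lemma tp801 (hTd : TdOK) : Good 0 ![w111, w52, w34, w112, w140, w50] :=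
  split02 (m := w113) (by decide +kernel) (tp800 hTd) (ch830 hTd)
lemma tp802 (hTd : TdOK) : Good 0 ![w111, w47, w34, w112, w140, w50] :=
  split12 (m := w52) (by decide +kernel) (tp801 hTd) (ch831 hTd)
lemma tp803 (hTd : TdOK) : Good 0 ![w111, w47, w34, w112, w140, w44] :=
  split25 (m := w50) (by decide +kernel) (ch826 hTd) (tp802 hTd)
lemma tp804 (hTd : TdOK) : Good 0 ![w111, w47, w34, w109, w140, w44] :=
  split23 (m := w112) (by decide +kernel) (ch825 hTd) (tp803 hTd)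
lemma tp805 (hTd : TdOK) : Good 0 ![w111, w47, w34, w109, w139, w44] :=
  split24 (m := w140) (by decide +kernel) (ch824 hTd) (tp804 hTd)
lemma tp806 (hTd : TdOK) : Good 0 ![w110, w57, w47, w115, w142, w45] :=
  split24 (m := w143) (by decide +kernel) (ch835 hTd) (ch836 hTd)
lemma tp807 (hTd : TdOK) : Good 0 ![w110, w12, w47, w115, w142, w45] :=
  split12 (m := w57) (by decide +kernel) (tp806 hTd) (ch837 hTd)
lemma tp808 (hTd : TdOK) : Good 0 ![w110, w12, w47, w109, w142, w45] :=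
  split13 (m := w115) (by decide +kernel) (ch834 hTd) (tp807 hTd)
lemma tp809 (hTd : TdOK) : Good 0 ![w110, w12, w47, w109, w139, w45] :=
  split14 (m := w142) (by decide +kernel) (ch833 hTd) (tp808 hTd)
lemma tp810 (hTd : TdOK) : Good 0 ![w110, w12, w47, w109, w139, w44] :=
  split15 (m := w45) (by decide +kernel) (ch832 hTd) (tp809 hTd)
lemma tp811 (hTd : TdOK) : Good 0 ![w111, w12, w47, w109, w139, w44] :=
  split01 (m := w110) (by decide +kernel) (tp810 hTd) (ch838 hTd)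
lemma tp812 (hTd : TdOK) : Good 0 ![w111, w12, w34, w109, w139, w44] :=
  split12 (m := w47) (by decide +kernel) (tp805 hTd) (tp811 hTd)
lemma tp813 (hTd : TdOK) : Good 0 ![w111, w12, w34, w109, w139, w40] :=
  split25 (m := w44) (by decide +kernel) (tp798 hTd) (tp812 hTd)
lemma tp814 (hTd : TdOK) : Good 0 ![w108, w12, w34, w109, w139, w40] :=
  split02 (m := w111) (by decide +kernel) (tp813 hTd) (ch839 hTd)
lemma tp815 (hTd : TdOK) : Good 0 ![w108, w12, w34, w107, w139, w40] :=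
  split13 (m := w109) (by decide +kernel) (ch819 hTd) (tp814 hTd)
lemma tp816 (hTd : TdOK) : Good 0 ![w108, w12, w34, w107, w139, w35] :=
  split15 (m := w40) (by decide +kernel) (ch818 hTd) (tp815 hTd)
lemma tp817 (hTd : TdOK) : Good 0 ![w108, w12, w34, w107, w138, w35] :=
  split14 (m := w139) (by decide +kernel) (ch817 hTd) (tp816 hTd)
lemma tp818 (hTd : TdOK) : Good 0 ![w106, w12, w34, w107, w138, w35] :=
  split01 (m := w108) (by decide +kernel) (tp817 hTd) (ch840 hTd)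
lemma tp819 (hTd : TdOK) : Good 0 ![w106, w12, w34, w22, w138, w35] :=
  split13 (m := w107) (by decide +kernel) (ch816 hTd) (tp818 hTd)
lemma tp820 (hTd : TdOK) : Good 0 ![w62, w47, w34, w111, w140, w50] :=
  split12 (m := w52) (by decide +kernel) (ch848 hTd) (ch849 hTd)
lemma tp821 (hTd : TdOK) : Good 0 ![w62, w47, w34, w111, w140, w44] :=
  split25 (m := w50) (by decide +kernel) (ch847 hTd) (tp820 hTd)
lemma tp822 (hTd : TdOK) : Good 0 ![w60, w47, w34, w111, w140, w44] :=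
  split02 (m := w62) (by decide +kernel) (tp821 hTd) (ch850 hTd)
lemma tp823 (hTd : TdOK) : Good 0 ![w60, w47, w34, w111, w139, w44] :=
  split24 (m := w140) (by decide +kernel) (ch846 hTd) (tp822 hTd)
lemma tp824 (hTd : TdOK) : Good 0 ![w60, w47, w34, w111, w139, w40] :=
  split25 (m := w44) (by decide +kernel) (ch845 hTd) (tp823 hTd)
lemma tp825 (hTd : TdOK) : Good 0 ![w64, w57, w47, w110, w142, w45] :=
  split24 (m := w143) (by decide +kernel) (ch855 hTd) (ch856 hTd)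
lemma tp826 (hTd : TdOK) : Good 0 ![w64, w12, w47, w110, w142, w45] :=
  split12 (m := w57) (by decide +kernel) (tp825 hTd) (ch857 hTd)
lemma tp827 (hTd : TdOK) : Good 0 ![w64, w12, w47, w110, w142, w43] :=
  split25 (m := w45) (by decide +kernel) (ch854 hTd) (tp826 hTd)
lemma tp828 (hTd : TdOK) : Good 0 ![w60, w12, w47, w110, w142, w43] :=
  split01 (m := w64) (by decide +kernel) (tp827 hTd) (ch858 hTd)
lemma tp829 (hTd : TdOK) : Good 0 ![w60, w12, w47, w110, w139, w43] :=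
  split14 (m := w142) (by decide +kernel) (ch853 hTd) (tp828 hTd)
lemma tp830 (hTd : TdOK) : Good 0 ![w60, w12, w47, w110, w139, w40] :=
  split15 (m := w43) (by decide +kernel) (ch852 hTd) (tp829 hTd)
lemma tp831 (hTd : TdOK) : Good 0 ![w60, w12, w47, w111, w139, w40] :=
  split13 (m := w110) (by decide +kernel) (ch851 hTd) (tp830 hTd)
lemma tp832 (hTd : TdOK) : Good 0 ![w60, w12, w34, w111, w139, w40] :=
  split12 (m := w47) (by decide +kernel) (tp824 hTd) (tp831 hTd)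
lemma tp833 (hTd : TdOK) : Good 0 ![w60, w12, w34, w108, w139, w40] :=
  split23 (m := w111) (by decide +kernel) (ch844 hTd) (tp832 hTd)
lemma tp834 (hTd : TdOK) : Good 0 ![w58, w12, w34, w108, w139, w40] :=
  split01 (m := w60) (by decide +kernel) (tp833 hTd) (ch859 hTd)
lemma tp835 (hTd : TdOK) : Good 0 ![w58, w12, w34, w108, w139, w35] :=
  split15 (m := w40) (by decide +kernel) (ch843 hTd) (tp834 hTd)
lemma tp836 (hTd : TdOK) : Good 0 ![w58, w12, w34, w108, w138, w35] :=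
  split14 (m := w139) (by decide +kernel) (ch842 hTd) (tp835 hTd)
lemma tp837 (hTd : TdOK) : Good 0 ![w58, w12, w34, w106, w138, w35] :=
  split13 (m := w108) (by decide +kernel) (ch841 hTd) (tp836 hTd)
lemma tp838 (hTd : TdOK) : Good 0 ![w13, w12, w34, w106, w138, w35] :=
  split02 (m := w58) (by decide +kernel) (tp837 hTd) (ch860 hTd)
lemma tp839 (hTd : TdOK) : Good 0 ![w13, w12, w34, w22, w138, w35] :=
  split03 (m := w106) (by decide +kernel) (tp819 hTd) (tp838 hTd)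
lemma tp840 (hTd : TdOK) : Good 0 ![w13, w12, w34, w22, w138, w5] :=
  split15 (m := w35) (by decide +kernel) (ch815 hTd) (tp839 hTd)
lemma tp841 (hTd : TdOK) : Good 0 ![w13, w12, w34, w22, w25, w5] :=
  split14 (m := w138) (by decide +kernel) (ch814 hTd) (tp840 hTd)
lemma tp842 (hTd : TdOK) : Good 0 ![w146, w47, w34, w111, w140, w62] :=
  split12 (m := w52) (by decide +kernel) (ch869 hTd) (ch870 hTd)
lemma tp843 (hTd : TdOK) : Good 0 ![w145, w47, w34, w111, w140, w62] :=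
  split02 (m := w146) (by decide +kernel) (tp842 hTd) (ch871 hTd)
lemma tp844 (hTd : TdOK) : Good 0 ![w145, w47, w34, w111, w140, w60] :=
  split25 (m := w62) (by decide +kernel) (ch868 hTd) (tp843 hTd)
lemma tp845 (hTd : TdOK) : Good 0 ![w145, w47, w34, w111, w139, w60] :=
  split24 (m := w140) (by decide +kernel) (ch867 hTd) (tp844 hTd)
lemma tp846 (hTd : TdOK) : Good 0 ![w147, w57, w47, w110, w142, w64] :=
  split24 (m := w143) (by decide +kernel) (ch875 hTd) (ch876 hTd)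
lemma tp847 (hTd : TdOK) : Good 0 ![w147, w12, w47, w110, w142, w64] :=
  split12 (m := w57) (by decide +kernel) (tp846 hTd) (ch877 hTd)
lemma tp848 (hTd : TdOK) : Good 0 ![w145, w12, w47, w110, w142, w64] :=
  split01 (m := w147) (by decide +kernel) (tp847 hTd) (ch878 hTd)
lemma tp849 (hTd : TdOK) : Good 0 ![w145, w12, w47, w110, w142, w60] :=
  split15 (m := w64) (by decide +kernel) (ch874 hTd) (tp848 hTd)
lemma tp850 (hTd : TdOK) : Good 0 ![w145, w12, w47, w110, w139, w60] :=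
  split14 (m := w142) (by decide +kernel) (ch873 hTd) (tp849 hTd)
lemma tp851 (hTd : TdOK) : Good 0 ![w145, w12, w47, w111, w139, w60] :=
  split13 (m := w110) (by decide +kernel) (ch872 hTd) (tp850 hTd)
lemma tp852 (hTd : TdOK) : Good 0 ![w145, w12, w34, w111, w139, w60] :=
  split12 (m := w47) (by decide +kernel) (tp845 hTd) (tp851 hTd)
lemma tp853 (hTd : TdOK) : Good 0 ![w145, w12, w34, w108, w139, w60] :=
  split23 (m := w111) (by decide +kernel) (ch866 hTd) (tp852 hTd)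
lemma tp854 (hTd : TdOK) : Good 0 ![w144, w12, w34, w108, w139, w60] :=
  split01 (m := w145) (by decide +kernel) (tp853 hTd) (ch879 hTd)
lemma tp855 (hTd : TdOK) : Good 0 ![w144, w12, w34, w108, w139, w58] :=
  split15 (m := w60) (by decide +kernel) (ch865 hTd) (tp854 hTd)
lemma tp856 (hTd : TdOK) : Good 0 ![w144, w12, w34, w108, w138, w58] :=
  split14 (m := w139) (by decide +kernel) (ch864 hTd) (tp855 hTd)
lemma tp857 (hTd : TdOK) : Good 0 ![w144, w12, w34, w106, w138, w58] :=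
  split13 (m := w108) (by decide +kernel) (ch863 hTd) (tp856 hTd)
lemma tp858 (hTd : TdOK) : Good 0 ![w144, w12, w34, w106, w138, w13] :=
  split25 (m := w58) (by decide +kernel) (ch862 hTd) (tp857 hTd)
lemma tp859 (hTd : TdOK) : Good 0 ![w27, w12, w34, w106, w138, w13] :=
  split02 (m := w144) (by decide +kernel) (tp858 hTd) (ch880 hTd)
lemma tp860 (hTd : TdOK) : Good 0 ![w150, w12, w111, w109, w139, w151] :=
  split12 (m := w110) (by decide +kernel) (ch886 hTd) (ch887 hTd)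
lemma tp861 (hTd : TdOK) : Good 0 ![w150, w12, w111, w109, w139, w108] :=
  split15 (m := w151) (by decide +kernel) (ch885 hTd) (tp860 hTd)
lemma tp862 (hTd : TdOK) : Good 0 ![w150, w52, w34, w112, w140, w113] :=
  split02 (m := w152) (by decide +kernel) (ch891 hTd) (ch892 hTd)
lemma tp863 (hTd : TdOK) : Good 0 ![w150, w52, w34, w112, w140, w111] :=
  split25 (m := w113) (by decide +kernel) (ch890 hTd) (tp862 hTd)
lemma tp864 (hTd : TdOK) : Good 0 ![w150, w47, w34, w112, w140, w111] :=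
  split12 (m := w52) (by decide +kernel) (tp863 hTd) (ch893 hTd)
lemma tp865 (hTd : TdOK) : Good 0 ![w150, w47, w34, w109, w140, w111] :=
  split23 (m := w112) (by decide +kernel) (ch889 hTd) (tp864 hTd)
lemma tp866 (hTd : TdOK) : Good 0 ![w150, w47, w34, w109, w139, w111] :=
  split24 (m := w140) (by decide +kernel) (ch888 hTd) (tp865 hTd)
lemma tp867 (hTd : TdOK) : Good 0 ![w153, w57, w47, w115, w142, w110] :=
  split24 (m := w143) (by decide +kernel) (ch897 hTd) (ch898 hTd)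
lemma tp868 (hTd : TdOK) : Good 0 ![w153, w12, w47, w115, w142, w110] :=
  split12 (m := w57) (by decide +kernel) (tp867 hTd) (ch899 hTd)
lemma tp869 (hTd : TdOK) : Good 0 ![w153, w12, w47, w109, w142, w110] :=
  split13 (m := w115) (by decide +kernel) (ch896 hTd) (tp868 hTd)
lemma tp870 (hTd : TdOK) : Good 0 ![w153, w12, w47, w109, w139, w110] :=
  split14 (m := w142) (by decide +kernel) (ch895 hTd) (tp869 hTd)
lemma tp871 (hTd : TdOK) : Good 0 ![w150, w12, w47, w109, w139, w110] :=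
  split01 (m := w153) (by decide +kernel) (tp870 hTd) (ch900 hTd)
lemma tp872 (hTd : TdOK) : Good 0 ![w150, w12, w47, w109, w139, w111] :=
  split15 (m := w110) (by decide +kernel) (ch894 hTd) (tp871 hTd)
lemma tp873 (hTd : TdOK) : Good 0 ![w150, w12, w34, w109, w139, w111] :=
  split12 (m := w47) (by decide +kernel) (tp866 hTd) (tp872 hTd)
lemma tp874 (hTd : TdOK) : Good 0 ![w150, w12, w34, w109, w139, w108] :=
  split25 (m := w111) (by decide +kernel) (tp861 hTd) (tp873 hTd)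
lemma tp875 (hTd : TdOK) : Good 0 ![w149, w12, w34, w109, w139, w108] :=
  split02 (m := w150) (by decide +kernel) (tp874 hTd) (ch901 hTd)
lemma tp876 (hTd : TdOK) : Good 0 ![w149, w12, w34, w107, w139, w108] :=
  split13 (m := w109) (by decide +kernel) (ch884 hTd) (tp875 hTd)
lemma tp877 (hTd : TdOK) : Good 0 ![w149, w12, w34, w107, w138, w108] :=
  split14 (m := w139) (by decide +kernel) (ch883 hTd) (tp876 hTd)
lemma tp878 (hTd : TdOK) : Good 0 ![w149, w12, w34, w107, w138, w106] :=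
  split15 (m := w108) (by decide +kernel) (ch882 hTd) (tp877 hTd)
lemma tp879 (hTd : TdOK) : Good 0 ![w148, w12, w34, w107, w138, w106] :=
  split01 (m := w149) (by decide +kernel) (tp878 hTd) (ch902 hTd)
lemma tp880 (hTd : TdOK) : Good 0 ![w148, w12, w34, w22, w138, w106] :=
  split13 (m := w107) (by decide +kernel) (ch881 hTd) (tp879 hTd)
lemma tp881 (hTd : TdOK) : Good 0 ![w145, w12, w111, w150, w139, w151] :=
  split12 (m := w110) (by decide +kernel) (ch908 hTd) (ch909 hTd)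
lemma tp882 (hTd : TdOK) : Good 0 ![w145, w12, w111, w150, w139, w108] :=
  split15 (m := w151) (by decide +kernel) (ch907 hTd) (tp881 hTd)
lemma tp883 (hTd : TdOK) : Good 0 ![w146, w52, w34, w150, w140, w111] :=
  split25 (m := w113) (by decide +kernel) (ch911 hTd) (ch912 hTd)
lemma tp884 (hTd : TdOK) : Good 0 ![w146, w47, w34, w150, w140, w111] :=
  split12 (m := w52) (by decide +kernel) (tp883 hTd) (ch913 hTd)
lemma tp885 (hTd : TdOK) : Good 0 ![w145, w47, w34, w150, w140, w111] :=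
  split02 (m := w146) (by decide +kernel) (tp884 hTd) (ch914 hTd)
lemma tp886 (hTd : TdOK) : Good 0 ![w145, w47, w34, w150, w139, w111] :=
  split24 (m := w140) (by decide +kernel) (ch910 hTd) (tp885 hTd)
lemma tp887 (hTd : TdOK) : Good 0 ![w147, w57, w47, w153, w142, w110] :=
  split24 (m := w143) (by decide +kernel) (ch918 hTd) (ch919 hTd)
lemma tp888 (hTd : TdOK) : Good 0 ![w147, w12, w57, w153, w142, w110] :=
  split15 (m := w154) (by decide +kernel) (ch920 hTd) (ch921 hTd)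
lemma tp889 (hTd : TdOK) : Good 0 ![w147, w12, w47, w153, w142, w110] :=
  split12 (m := w57) (by decide +kernel) (tp887 hTd) (tp888 hTd)
lemma tp890 (hTd : TdOK) : Good 0 ![w145, w12, w47, w153, w142, w110] :=
  split01 (m := w147) (by decide +kernel) (tp889 hTd) (ch922 hTd)
lemma tp891 (hTd : TdOK) : Good 0 ![w145, w12, w47, w153, w139, w110] :=
  split14 (m := w142) (by decide +kernel) (ch917 hTd) (tp890 hTd)
lemma tp892 (hTd : TdOK) : Good 0 ![w145, w12, w47, w150, w139, w110] :=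
  split13 (m := w153) (by decide +kernel) (ch916 hTd) (tp891 hTd)
lemma tp893 (hTd : TdOK) : Good 0 ![w145, w12, w47, w150, w139, w111] :=
  split15 (m := w110) (by decide +kernel) (ch915 hTd) (tp892 hTd)
lemma tp894 (hTd : TdOK) : Good 0 ![w145, w12, w34, w150, w139, w111] :=
  split12 (m := w47) (by decide +kernel) (tp886 hTd) (tp893 hTd)
lemma tp895 (hTd : TdOK) : Good 0 ![w145, w12, w34, w150, w139, w108] :=
  split25 (m := w111) (by decide +kernel) (tp882 hTd) (tp894 hTd)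
lemma tp896 (hTd : TdOK) : Good 0 ![w145, w12, w34, w149, w139, w108] :=
  split23 (m := w150) (by decide +kernel) (ch906 hTd) (tp895 hTd)
lemma tp897 (hTd : TdOK) : Good 0 ![w144, w12, w34, w149, w139, w108] :=
  split01 (m := w145) (by decide +kernel) (tp896 hTd) (ch923 hTd)
lemma tp898 (hTd : TdOK) : Good 0 ![w144, w12, w34, w149, w138, w108] :=
  split14 (m := w139) (by decide +kernel) (ch905 hTd) (tp897 hTd)
lemma tp899 (hTd : TdOK) : Good 0 ![w144, w12, w34, w149, w138, w106] :=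
  split15 (m := w108) (by decide +kernel) (ch904 hTd) (tp898 hTd)
lemma tp900 (hTd : TdOK) : Good 0 ![w144, w12, w34, w148, w138, w106] :=
  split13 (m := w149) (by decide +kernel) (ch903 hTd) (tp899 hTd)
lemma tp901 (hTd : TdOK) : Good 0 ![w27, w12, w34, w148, w138, w106] :=
  split02 (m := w144) (by decide +kernel) (tp900 hTd) (ch924 hTd)
lemma tp902 (hTd : TdOK) : Good 0 ![w27, w12, w34, w22, w138, w106] :=
  split03 (m := w148) (by decide +kernel) (tp880 hTd) (tp901 hTd)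
lemma tp903 (hTd : TdOK) : Good 0 ![w27, w12, w34, w22, w138, w13] :=
  split35 (m := w106) (by decide +kernel) (tp859 hTd) (tp902 hTd)
lemma tp904 (hTd : TdOK) : Good 0 ![w27, w12, w34, w22, w25, w13] :=
  split14 (m := w138) (by decide +kernel) (ch861 hTd) (tp903 hTd)
lemma tp905 (hTd : TdOK) : Good 0 ![w127, w145, w34, w111, w155, w60] :=
  split02 (m := w131) (by decide +kernel) (ch931 hTd) (ch932 hTd)
lemma tp906 (hTd : TdOK) : Good 0 ![w127, w145, w34, w111, w144, w60] :=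
  split24 (m := w155) (by decide +kernel) (ch930 hTd) (tp905 hTd)
lemma tp907 (hTd : TdOK) : Good 0 ![w127, w145, w34, w108, w144, w60] :=
  split23 (m := w111) (by decide +kernel) (ch929 hTd) (tp906 hTd)
lemma tp908 (hTd : TdOK) : Good 0 ![w129, w52, w34, w113, w146, w74] :=
  split24 (m := w156) (by decide +kernel) (ch938 hTd) (ch939 hTd)
lemma tp909 (hTd : TdOK) : Good 0 ![w129, w52, w34, w113, w146, w62] :=
  split25 (m := w74) (by decide +kernel) (ch937 hTd) (tp908 hTd)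
lemma tp910 (hTd : TdOK) : Good 0 ![w129, w52, w34, w111, w146, w62] :=
  split23 (m := w113) (by decide +kernel) (ch936 hTd) (tp909 hTd)
lemma tp911 (hTd : TdOK) : Good 0 ![w129, w47, w34, w111, w146, w62] :=
  split12 (m := w52) (by decide +kernel) (tp910 hTd) (ch940 hTd)
lemma tp912 (hTd : TdOK) : Good 0 ![w128, w47, w34, w111, w146, w62] :=
  split02 (m := w129) (by decide +kernel) (tp911 hTd) (ch941 hTd)
lemma tp913 (hTd : TdOK) : Good 0 ![w128, w47, w34, w111, w145, w62] :=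
  split24 (m := w146) (by decide +kernel) (ch935 hTd) (tp912 hTd)
lemma tp914 (hTd : TdOK) : Good 0 ![w128, w47, w34, w111, w145, w60] :=
  split25 (m := w62) (by decide +kernel) (ch934 hTd) (tp913 hTd)
lemma tp915 (hTd : TdOK) : Good 0 ![w130, w12, w47, w110, w147, w64] :=
  split12 (m := w57) (by decide +kernel) (ch945 hTd) (ch946 hTd)
lemma tp916 (hTd : TdOK) : Good 0 ![w128, w12, w47, w110, w147, w64] :=
  split01 (m := w130) (by decide +kernel) (tp915 hTd) (ch947 hTd)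
lemma tp917 (hTd : TdOK) : Good 0 ![w128, w12, w47, w110, w145, w64] :=
  split14 (m := w147) (by decide +kernel) (ch944 hTd) (tp916 hTd)
lemma tp918 (hTd : TdOK) : Good 0 ![w128, w12, w47, w110, w145, w60] :=
  split15 (m := w64) (by decide +kernel) (ch943 hTd) (tp917 hTd)
lemma tp919 (hTd : TdOK) : Good 0 ![w128, w12, w47, w111, w145, w60] :=
  split13 (m := w110) (by decide +kernel) (ch942 hTd) (tp918 hTd)
lemma tp920 (hTd : TdOK) : Good 0 ![w128, w12, w34, w111, w145, w60] :=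
  split12 (m := w47) (by decide +kernel) (tp914 hTd) (tp919 hTd)
lemma tp921 (hTd : TdOK) : Good 0 ![w131, w129, w34, w113, w146, w62] :=
  split25 (m := w74) (by decide +kernel) (ch951 hTd) (ch952 hTd)
lemma tp922 (hTd : TdOK) : Good 0 ![w131, w129, w34, w111, w146, w62] :=
  split23 (m := w113) (by decide +kernel) (ch950 hTd) (tp921 hTd)
lemma tp923 (hTd : TdOK) : Good 0 ![w131, w128, w34, w111, w146, w62] :=
  split12 (m := w129) (by decide +kernel) (tp922 hTd) (ch953 hTd)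
lemma tp924 (hTd : TdOK) : Good 0 ![w131, w128, w34, w111, w145, w62] :=
  split24 (m := w146) (by decide +kernel) (ch949 hTd) (tp923 hTd)
lemma tp925 (hTd : TdOK) : Good 0 ![w131, w128, w34, w111, w145, w60] :=
  split25 (m := w62) (by decide +kernel) (ch948 hTd) (tp924 hTd)
lemma tp926 (hTd : TdOK) : Good 0 ![w127, w128, w34, w111, w145, w60] :=
  split02 (m := w131) (by decide +kernel) (tp925 hTd) (ch954 hTd)
lemma tp927 (hTd : TdOK) : Good 0 ![w127, w12, w34, w111, w145, w60] :=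
  split01 (m := w128) (by decide +kernel) (tp920 hTd) (tp926 hTd)
lemma tp928 (hTd : TdOK) : Good 0 ![w127, w12, w34, w108, w145, w60] :=
  split23 (m := w111) (by decide +kernel) (ch933 hTd) (tp927 hTd)
lemma tp929 (hTd : TdOK) : Good 0 ![w127, w12, w34, w108, w144, w60] :=
  split14 (m := w145) (by decide +kernel) (tp907 hTd) (tp928 hTd)
lemma tp930 (hTd : TdOK) : Good 0 ![w127, w12, w34, w108, w144, w58] :=
  split15 (m := w60) (by decide +kernel) (ch928 hTd) (tp929 hTd)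
lemma tp931 (hTd : TdOK) : Good 0 ![w127, w12, w34, w106, w144, w58] :=
  split13 (m := w108) (by decide +kernel) (ch927 hTd) (tp930 hTd)
lemma tp932 (hTd : TdOK) : Good 0 ![w23, w12, w34, w106, w144, w58] :=
  split02 (m := w127) (by decide +kernel) (tp931 hTd) (ch955 hTd)
lemma tp933 (hTd : TdOK) : Good 0 ![w23, w12, w34, w106, w144, w13] :=
  split25 (m := w58) (by decide +kernel) (ch926 hTd) (tp932 hTd)
lemma tp934 (hTd : TdOK) : Good 0 ![w23, w12, w34, w106, w27, w13] :=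
  split24 (m := w144) (by decide +kernel) (ch925 hTd) (tp933 hTd)
lemma tp935 (hTd : TdOK) : Good 0 ![w129, w52, w34, w152, w146, w113] :=
  split24 (m := w156) (by decide +kernel) (ch965 hTd) (ch966 hTd)
lemma tp936 (hTd : TdOK) : Good 0 ![w129, w52, w34, w150, w146, w113] :=
  split23 (m := w152) (by decide +kernel) (ch964 hTd) (tp935 hTd)
lemma tp937 (hTd : TdOK) : Good 0 ![w129, w52, w34, w150, w146, w111] :=
  split25 (m := w113) (by decide +kernel) (ch963 hTd) (tp936 hTd)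
lemma tp938 (hTd : TdOK) : Good 0 ![w129, w47, w34, w150, w146, w111] :=
  split12 (m := w52) (by decide +kernel) (tp937 hTd) (ch967 hTd)
lemma tp939 (hTd : TdOK) : Good 0 ![w128, w47, w34, w150, w146, w111] :=
  split02 (m := w129) (by decide +kernel) (tp938 hTd) (ch968 hTd)
lemma tp940 (hTd : TdOK) : Good 0 ![w128, w47, w34, w150, w145, w111] :=
  split24 (m := w146) (by decide +kernel) (ch962 hTd) (tp939 hTd)
lemma tp941 (hTd : TdOK) : Good 0 ![w130, w12, w47, w153, w147, w110] :=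
  split12 (m := w57) (by decide +kernel) (ch972 hTd) (ch973 hTd)
lemma tp942 (hTd : TdOK) : Good 0 ![w128, w12, w47, w153, w147, w110] :=
  split01 (m := w130) (by decide +kernel) (tp941 hTd) (ch974 hTd)
lemma tp943 (hTd : TdOK) : Good 0 ![w128, w12, w47, w153, w145, w110] :=
  split14 (m := w147) (by decide +kernel) (ch971 hTd) (tp942 hTd)
lemma tp944 (hTd : TdOK) : Good 0 ![w128, w12, w47, w150, w145, w110] :=
  split13 (m := w153) (by decide +kernel) (ch970 hTd) (tp943 hTd)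
lemma tp945 (hTd : TdOK) : Good 0 ![w128, w12, w47, w150, w145, w111] :=
  split15 (m := w110) (by decide +kernel) (ch969 hTd) (tp944 hTd)
lemma tp946 (hTd : TdOK) : Good 0 ![w128, w12, w34, w150, w145, w111] :=
  split12 (m := w47) (by decide +kernel) (tp940 hTd) (tp945 hTd)
lemma tp947 (hTd : TdOK) : Good 0 ![w131, w128, w34, w150, w145, w111] :=
  split24 (m := w146) (by decide +kernel) (ch975 hTd) (ch976 hTd)
lemma tp948 (hTd : TdOK) : Good 0 ![w127, w128, w34, w150, w145, w111] :=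
  split02 (m := w131) (by decide +kernel) (tp947 hTd) (ch977 hTd)
lemma tp949 (hTd : TdOK) : Good 0 ![w127, w12, w34, w150, w145, w111] :=
  split01 (m := w128) (by decide +kernel) (tp946 hTd) (tp948 hTd)
lemma tp950 (hTd : TdOK) : Good 0 ![w127, w12, w34, w150, w145, w108] :=
  split25 (m := w111) (by decide +kernel) (ch961 hTd) (tp949 hTd)
lemma tp951 (hTd : TdOK) : Good 0 ![w127, w12, w34, w149, w145, w108] :=
  split23 (m := w150) (by decide +kernel) (ch960 hTd) (tp950 hTd)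
lemma tp952 (hTd : TdOK) : Good 0 ![w127, w12, w34, w149, w144, w108] :=
  split14 (m := w145) (by decide +kernel) (ch959 hTd) (tp951 hTd)
lemma tp953 (hTd : TdOK) : Good 0 ![w127, w12, w34, w149, w144, w106] :=
  split15 (m := w108) (by decide +kernel) (ch958 hTd) (tp952 hTd)
lemma tp954 (hTd : TdOK) : Good 0 ![w127, w12, w34, w148, w144, w106] :=
  split13 (m := w149) (by decide +kernel) (ch957 hTd) (tp953 hTd)
lemma tp955 (hTd : TdOK) : Good 0 ![w23, w12, w34, w148, w144, w106] :=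
  split02 (m := w127) (by decide +kernel) (tp954 hTd) (ch978 hTd)
lemma tp956 (hTd : TdOK) : Good 0 ![w23, w12, w34, w148, w27, w106] :=
  split24 (m := w144) (by decide +kernel) (ch956 hTd) (tp955 hTd)
lemma tp957 (hTd : TdOK) : Good 0 ![w129, w52, w34, w112, w152, w113] :=
  split23 (m := w114) (by decide +kernel) (ch988 hTd) (ch989 hTd)
lemma tp958 (hTd : TdOK) : Good 0 ![w129, w52, w34, w112, w150, w113] :=
  split24 (m := w152) (by decide +kernel) (ch987 hTd) (tp957 hTd)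
lemma tp959 (hTd : TdOK) : Good 0 ![w129, w47, w34, w112, w150, w113] :=
  split12 (m := w52) (by decide +kernel) (tp958 hTd) (ch990 hTd)
lemma tp960 (hTd : TdOK) : Good 0 ![w129, w47, w34, w112, w150, w111] :=
  split25 (m := w113) (by decide +kernel) (ch986 hTd) (tp959 hTd)
lemma tp961 (hTd : TdOK) : Good 0 ![w128, w47, w34, w112, w150, w111] :=
  split02 (m := w129) (by decide +kernel) (tp960 hTd) (ch991 hTd)
lemma tp962 (hTd : TdOK) : Good 0 ![w128, w47, w34, w109, w150, w111] :=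
  split23 (m := w112) (by decide +kernel) (ch985 hTd) (tp961 hTd)
lemma tp963 (hTd : TdOK) : Good 0 ![w130, w57, w47, w115, w153, w110] :=
  split23 (m := w132) (by decide +kernel) (ch995 hTd) (ch996 hTd)
lemma tp964 (hTd : TdOK) : Good 0 ![w130, w12, w47, w115, w153, w110] :=
  split12 (m := w57) (by decide +kernel) (tp963 hTd) (ch997 hTd)
lemma tp965 (hTd : TdOK) : Good 0 ![w130, w12, w47, w109, w153, w110] :=
  split13 (m := w115) (by decide +kernel) (ch994 hTd) (tp964 hTd)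
lemma tp966 (hTd : TdOK) : Good 0 ![w128, w12, w47, w109, w153, w110] :=
  split01 (m := w130) (by decide +kernel) (tp965 hTd) (ch998 hTd)
lemma tp967 (hTd : TdOK) : Good 0 ![w128, w12, w47, w109, w150, w110] :=
  split14 (m := w153) (by decide +kernel) (ch993 hTd) (tp966 hTd)
lemma tp968 (hTd : TdOK) : Good 0 ![w128, w12, w47, w109, w150, w111] :=
  split15 (m := w110) (by decide +kernel) (ch992 hTd) (tp967 hTd)
lemma tp969 (hTd : TdOK) : Good 0 ![w128, w12, w34, w109, w150, w111] :=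
  split12 (m := w47) (by decide +kernel) (tp962 hTd) (tp968 hTd)
lemma tp970 (hTd : TdOK) : Good 0 ![w127, w128, w34, w109, w150, w111] :=
  split23 (m := w112) (by decide +kernel) (ch999 hTd) (ch1000 hTd)
lemma tp971 (hTd : TdOK) : Good 0 ![w127, w12, w34, w109, w150, w111] :=
  split01 (m := w128) (by decide +kernel) (tp969 hTd) (tp970 hTd)
lemma tp972 (hTd : TdOK) : Good 0 ![w127, w12, w34, w107, w150, w111] :=
  split13 (m := w109) (by decide +kernel) (ch984 hTd) (tp971 hTd)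
lemma tp973 (hTd : TdOK) : Good 0 ![w127, w12, w34, w107, w150, w108] :=
  split25 (m := w111) (by decide +kernel) (ch983 hTd) (tp972 hTd)
lemma tp974 (hTd : TdOK) : Good 0 ![w127, w12, w34, w107, w149, w108] :=
  split24 (m := w150) (by decide +kernel) (ch982 hTd) (tp973 hTd)
lemma tp975 (hTd : TdOK) : Good 0 ![w127, w12, w34, w107, w149, w106] :=
  split15 (m := w108) (by decide +kernel) (ch981 hTd) (tp974 hTd)
lemma tp976 (hTd : TdOK) : Good 0 ![w127, w12, w34, w107, w148, w106] :=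
  split14 (m := w149) (by decide +kernel) (ch980 hTd) (tp975 hTd)
lemma tp977 (hTd : TdOK) : Good 0 ![w23, w12, w34, w107, w148, w106] :=
  split02 (m := w127) (by decide +kernel) (tp976 hTd) (ch1001 hTd)
lemma tp978 (hTd : TdOK) : Good 0 ![w23, w12, w34, w22, w148, w106] :=
  split13 (m := w107) (by decide +kernel) (ch979 hTd) (tp977 hTd)
lemma tp979 (hTd : TdOK) : Good 0 ![w23, w12, w34, w22, w27, w106] :=
  split34 (m := w148) (by decide +kernel) (tp956 hTd) (tp978 hTd)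
lemma tp980 (hTd : TdOK) : Good 0 ![w23, w12, w34, w22, w27, w13] :=
  split35 (m := w106) (by decide +kernel) (tp934 hTd) (tp979 hTd)
lemma tp981 (hTd : TdOK) : Good 0 ![w84, w62, w34, w131, w155, w85] :=
  split02 (m := w87) (by decide +kernel) (ch1008 hTd) (ch1009 hTd)
lemma tp982 (hTd : TdOK) : Good 0 ![w84, w62, w34, w127, w155, w85] :=
  split23 (m := w131) (by decide +kernel) (ch1007 hTd) (tp981 hTd)
lemma tp983 (hTd : TdOK) : Good 0 ![w84, w60, w34, w127, w155, w85] :=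
  split12 (m := w62) (by decide +kernel) (tp982 hTd) (ch1010 hTd)
lemma tp984 (hTd : TdOK) : Good 0 ![w84, w60, w34, w127, w144, w85] :=
  split24 (m := w155) (by decide +kernel) (ch1006 hTd) (tp983 hTd)
lemma tp985 (hTd : TdOK) : Good 0 ![w84, w60, w34, w127, w144, w58] :=
  split25 (m := w85) (by decide +kernel) (ch1005 hTd) (tp984 hTd)
lemma tp986 (hTd : TdOK) : Good 0 ![w87, w146, w34, w131, w155, w62] :=
  split24 (m := w157) (by decide +kernel) (ch1014 hTd) (ch1015 hTd)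
lemma tp987 (hTd : TdOK) : Good 0 ![w84, w146, w34, w131, w155, w62] :=
  split02 (m := w87) (by decide +kernel) (tp986 hTd) (ch1016 hTd)
lemma tp988 (hTd : TdOK) : Good 0 ![w84, w145, w34, w131, w155, w62] :=
  split12 (m := w146) (by decide +kernel) (tp987 hTd) (ch1017 hTd)
lemma tp989 (hTd : TdOK) : Good 0 ![w84, w145, w34, w127, w155, w62] :=
  split23 (m := w131) (by decide +kernel) (ch1013 hTd) (tp988 hTd)
lemma tp990 (hTd : TdOK) : Good 0 ![w84, w145, w34, w127, w155, w60] :=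
  split25 (m := w62) (by decide +kernel) (ch1012 hTd) (tp989 hTd)
lemma tp991 (hTd : TdOK) : Good 0 ![w84, w145, w34, w127, w144, w60] :=
  split24 (m := w155) (by decide +kernel) (ch1011 hTd) (tp990 hTd)
lemma tp992 (hTd : TdOK) : Good 0 ![w87, w52, w34, w131, w146, w74] :=
  split24 (m := w156) (by decide +kernel) (ch1022 hTd) (ch1023 hTd)
lemma tp993 (hTd : TdOK) : Good 0 ![w87, w52, w34, w131, w146, w62] :=
  split25 (m := w74) (by decide +kernel) (ch1021 hTd) (tp992 hTd)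
lemma tp994 (hTd : TdOK) : Good 0 ![w87, w47, w52, w131, w146, w62] :=
  split13 (m := w129) (by decide +kernel) (ch1024 hTd) (ch1025 hTd)
lemma tp995 (hTd : TdOK) : Good 0 ![w87, w47, w34, w131, w146, w62] :=
  split12 (m := w52) (by decide +kernel) (tp993 hTd) (tp994 hTd)
lemma tp996 (hTd : TdOK) : Good 0 ![w84, w47, w34, w131, w146, w62] :=
  split02 (m := w87) (by decide +kernel) (tp995 hTd) (ch1026 hTd)
lemma tp997 (hTd : TdOK) : Good 0 ![w84, w47, w34, w131, w145, w62] :=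
  split24 (m := w146) (by decide +kernel) (ch1020 hTd) (tp996 hTd)
lemma tp998 (hTd : TdOK) : Good 0 ![w84, w47, w34, w131, w145, w60] :=
  split25 (m := w62) (by decide +kernel) (ch1019 hTd) (tp997 hTd)
lemma tp999 (hTd : TdOK) : Good 0 ![w84, w47, w34, w127, w145, w60] :=
  split23 (m := w131) (by decide +kernel) (ch1018 hTd) (tp998 hTd)
lemma tp1000 (hTd : TdOK) : Good 0 ![w91, w57, w47, w130, w147, w64] :=
  split25 (m := w92) (by decide +kernel) (ch1031 hTd) (ch1032 hTd)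
lemma tp1001 (hTd : TdOK) : Good 0 ![w91, w12, w47, w130, w147, w64] :=
  split12 (m := w57) (by decide +kernel) (tp1000 hTd) (ch1033 hTd)
lemma tp1002 (hTd : TdOK) : Good 0 ![w90, w12, w47, w130, w147, w64] :=
  split01 (m := w91) (by decide +kernel) (tp1001 hTd) (ch1034 hTd)
lemma tp1003 (hTd : TdOK) : Good 0 ![w90, w12, w47, w128, w147, w64] :=
  split13 (m := w130) (by decide +kernel) (ch1030 hTd) (tp1002 hTd)
lemma tp1004 (hTd : TdOK) : Good 0 ![w90, w12, w47, w128, w145, w64] :=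
  split14 (m := w147) (by decide +kernel) (ch1029 hTd) (tp1003 hTd)
lemma tp1005 (hTd : TdOK) : Good 0 ![w90, w12, w47, w128, w145, w60] :=
  split15 (m := w64) (by decide +kernel) (ch1028 hTd) (tp1004 hTd)
lemma tp1006 (hTd : TdOK) : Good 0 ![w84, w12, w47, w128, w145, w60] :=
  split01 (m := w90) (by decide +kernel) (tp1005 hTd) (ch1035 hTd)
lemma tp1007 (hTd : TdOK) : Good 0 ![w84, w12, w47, w127, w145, w60] :=
  split13 (m := w128) (by decide +kernel) (ch1027 hTd) (tp1006 hTd)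
lemma tp1008 (hTd : TdOK) : Good 0 ![w84, w12, w34, w127, w145, w60] :=
  split12 (m := w47) (by decide +kernel) (tp999 hTd) (tp1007 hTd)
lemma tp1009 (hTd : TdOK) : Good 0 ![w84, w12, w34, w127, w144, w60] :=
  split14 (m := w145) (by decide +kernel) (tp991 hTd) (tp1008 hTd)
lemma tp1010 (hTd : TdOK) : Good 0 ![w84, w12, w34, w127, w144, w58] :=
  split15 (m := w60) (by decide +kernel) (tp985 hTd) (tp1009 hTd)
lemma tp1011 (hTd : TdOK) : Good 0 ![w83, w12, w34, w127, w144, w58] :=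
  split02 (m := w84) (by decide +kernel) (tp1010 hTd) (ch1036 hTd)
lemma tp1012 (hTd : TdOK) : Good 0 ![w83, w12, w34, w23, w144, w58] :=
  split23 (m := w127) (by decide +kernel) (ch1004 hTd) (tp1011 hTd)
lemma tp1013 (hTd : TdOK) : Good 0 ![w83, w12, w34, w23, w144, w13] :=
  split25 (m := w58) (by decide +kernel) (ch1003 hTd) (tp1012 hTd)
lemma tp1014 (hTd : TdOK) : Good 0 ![w83, w12, w34, w23, w27, w13] :=
  split24 (m := w144) (by decide +kernel) (ch1002 hTd) (tp1013 hTd)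
lemma tp1015 (hTd : TdOK) : Good 0 ![w0, w12, w34, w23, w27, w13] :=
  split02 (m := w83) (by decide +kernel) (tp1014 hTd) (ch1037 hTd)
lemma tp1016 (hTd : TdOK) : Good 0 ![w0, w12, w34, w22, w27, w13] :=
  split03 (m := w23) (by decide +kernel) (tp980 hTd) (tp1015 hTd)
lemma tp1017 (hTd : TdOK) : Good 0 ![w0, w12, w34, w22, w25, w13] :=
  split04 (m := w27) (by decide +kernel) (tp904 hTd) (tp1016 hTd)
lemma tp1018 (hTd : TdOK) : Good 0 ![w0, w12, w34, w22, w25, w5] :=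
  split05 (m := w13) (by decide +kernel) (tp841 hTd) (tp1017 hTd)
lemma tp1019 (hTd : TdOK) : Good 0 ![w96, w12, w97, w109, w158, w98] :=
  split12 (m := w99) (by decide +kernel) (ch1045 hTd) (ch1046 hTd)
lemma tp1020 (hTd : TdOK) : Good 0 ![w96, w12, w97, w109, w158, w95] :=
  split15 (m := w98) (by decide +kernel) (ch1044 hTd) (tp1019 hTd)
lemma tp1021 (hTd : TdOK) : Good 0 ![w96, w12, w97, w107, w158, w95] :=
  split13 (m := w109) (by decide +kernel) (ch1043 hTd) (tp1020 hTd)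
lemma tp1022 (hTd : TdOK) : Good 0 ![w100, w52, w34, w112, w160, w101] :=
  split23 (m := w114) (by decide +kernel) (ch1052 hTd) (ch1053 hTd)
lemma tp1023 (hTd : TdOK) : Good 0 ![w100, w52, w34, w112, w159, w101] :=
  split24 (m := w160) (by decide +kernel) (ch1051 hTd) (tp1022 hTd)
lemma tp1024 (hTd : TdOK) : Good 0 ![w100, w47, w34, w112, w159, w101] :=
  split12 (m := w52) (by decide +kernel) (tp1023 hTd) (ch1054 hTd)
lemma tp1025 (hTd : TdOK) : Good 0 ![w100, w47, w34, w112, w159, w97] :=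
  split25 (m := w101) (by decide +kernel) (ch1050 hTd) (tp1024 hTd)
lemma tp1026 (hTd : TdOK) : Good 0 ![w96, w47, w34, w112, w159, w97] :=
  split02 (m := w100) (by decide +kernel) (tp1025 hTd) (ch1055 hTd)
lemma tp1027 (hTd : TdOK) : Good 0 ![w96, w47, w34, w109, w159, w97] :=
  split23 (m := w112) (by decide +kernel) (ch1049 hTd) (tp1026 hTd)
lemma tp1028 (hTd : TdOK) : Good 0 ![w96, w47, w34, w109, w158, w97] :=
  split24 (m := w159) (by decide +kernel) (ch1048 hTd) (tp1027 hTd)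
lemma tp1029 (hTd : TdOK) : Good 0 ![w102, w57, w47, w115, w162, w99] :=
  split23 (m := w132) (by decide +kernel) (ch1060 hTd) (ch1061 hTd)
lemma tp1030 (hTd : TdOK) : Good 0 ![w102, w57, w47, w115, w161, w99] :=
  split24 (m := w162) (by decide +kernel) (ch1059 hTd) (tp1029 hTd)
lemma tp1031 (hTd : TdOK) : Good 0 ![w102, w12, w47, w115, w161, w99] :=
  split12 (m := w57) (by decide +kernel) (tp1030 hTd) (ch1062 hTd)
lemma tp1032 (hTd : TdOK) : Good 0 ![w102, w12, w47, w109, w161, w99] :=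
  split13 (m := w115) (by decide +kernel) (ch1058 hTd) (tp1031 hTd)
lemma tp1033 (hTd : TdOK) : Good 0 ![w96, w12, w47, w109, w161, w99] :=
  split01 (m := w102) (by decide +kernel) (tp1032 hTd) (ch1063 hTd)
lemma tp1034 (hTd : TdOK) : Good 0 ![w96, w12, w47, w109, w158, w99] :=
  split14 (m := w161) (by decide +kernel) (ch1057 hTd) (tp1033 hTd)
lemma tp1035 (hTd : TdOK) : Good 0 ![w96, w12, w47, w109, w158, w97] :=
  split15 (m := w99) (by decide +kernel) (ch1056 hTd) (tp1034 hTd)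
lemma tp1036 (hTd : TdOK) : Good 0 ![w96, w12, w34, w109, w158, w97] :=
  split12 (m := w47) (by decide +kernel) (tp1028 hTd) (tp1035 hTd)
lemma tp1037 (hTd : TdOK) : Good 0 ![w96, w12, w34, w107, w158, w97] :=
  split13 (m := w109) (by decide +kernel) (ch1047 hTd) (tp1036 hTd)
lemma tp1038 (hTd : TdOK) : Good 0 ![w96, w12, w34, w107, w158, w95] :=
  split25 (m := w97) (by decide +kernel) (tp1021 hTd) (tp1037 hTd)
lemma tp1039 (hTd : TdOK) : Good 0 ![w94, w12, w34, w107, w158, w95] :=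
  split01 (m := w96) (by decide +kernel) (tp1038 hTd) (ch1064 hTd)
lemma tp1040 (hTd : TdOK) : Good 0 ![w94, w12, w34, w107, w30, w95] :=
  split14 (m := w158) (by decide +kernel) (ch1042 hTd) (tp1039 hTd)
lemma tp1041 (hTd : TdOK) : Good 0 ![w94, w12, w34, w22, w30, w95] :=
  split13 (m := w107) (by decide +kernel) (ch1041 hTd) (tp1040 hTd)
lemma tp1042 (hTd : TdOK) : Good 0 ![w94, w12, w34, w22, w30, w93] :=
  split15 (m := w95) (by decide +kernel) (ch1040 hTd) (tp1041 hTd)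
lemma tp1043 (hTd : TdOK) : Good 0 ![w18, w12, w34, w22, w30, w93] :=
  split02 (m := w94) (by decide +kernel) (tp1042 hTd) (ch1065 hTd)
lemma tp1044 (hTd : TdOK) : Good 0 ![w18, w12, w34, w22, w28, w93] :=
  split14 (m := w30) (by decide +kernel) (ch1039 hTd) (tp1043 hTd)
lemma tp1045 (hTd : TdOK) : Good 0 ![w18, w12, w34, w22, w28, w8] :=
  split15 (m := w93) (by decide +kernel) (ch1038 hTd) (tp1044 hTd)
lemma tp1046 (hTd : TdOK) : Good 0 ![w166, w52, w34, w112, w159, w100] :=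
  split24 (m := w160) (by decide +kernel) (ch1075 hTd) (ch1076 hTd)
lemma tp1047 (hTd : TdOK) : Good 0 ![w165, w52, w34, w112, w159, w100] :=
  split02 (m := w166) (by decide +kernel) (tp1046 hTd) (ch1077 hTd)
lemma tp1048 (hTd : TdOK) : Good 0 ![w165, w47, w34, w112, w159, w100] :=
  split12 (m := w52) (by decide +kernel) (tp1047 hTd) (ch1078 hTd)
lemma tp1049 (hTd : TdOK) : Good 0 ![w165, w47, w34, w112, w159, w96] :=
  split25 (m := w100) (by decide +kernel) (ch1074 hTd) (tp1048 hTd)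
lemma tp1050 (hTd : TdOK) : Good 0 ![w165, w47, w34, w109, w159, w96] :=
  split23 (m := w112) (by decide +kernel) (ch1073 hTd) (tp1049 hTd)
lemma tp1051 (hTd : TdOK) : Good 0 ![w165, w47, w34, w109, w158, w96] :=
  split24 (m := w159) (by decide +kernel) (ch1072 hTd) (tp1050 hTd)
lemma tp1052 (hTd : TdOK) : Good 0 ![w167, w57, w47, w115, w162, w102] :=
  split23 (m := w132) (by decide +kernel) (ch1083 hTd) (ch1084 hTd)
lemma tp1053 (hTd : TdOK) : Good 0 ![w167, w57, w47, w115, w161, w102] :=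
  split24 (m := w162) (by decide +kernel) (ch1082 hTd) (tp1052 hTd)
lemma tp1054 (hTd : TdOK) : Good 0 ![w167, w12, w47, w115, w161, w102] :=
  split12 (m := w57) (by decide +kernel) (tp1053 hTd) (ch1085 hTd)
lemma tp1055 (hTd : TdOK) : Good 0 ![w167, w12, w47, w109, w161, w102] :=
  split13 (m := w115) (by decide +kernel) (ch1081 hTd) (tp1054 hTd)
lemma tp1056 (hTd : TdOK) : Good 0 ![w167, w12, w47, w109, w161, w96] :=
  split15 (m := w102) (by decide +kernel) (ch1080 hTd) (tp1055 hTd)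
lemma tp1057 (hTd : TdOK) : Good 0 ![w167, w12, w47, w109, w158, w96] :=
  split14 (m := w161) (by decide +kernel) (ch1079 hTd) (tp1056 hTd)
lemma tp1058 (hTd : TdOK) : Good 0 ![w165, w12, w47, w109, w158, w96] :=
  split01 (m := w167) (by decide +kernel) (tp1057 hTd) (ch1086 hTd)
lemma tp1059 (hTd : TdOK) : Good 0 ![w165, w12, w34, w109, w158, w96] :=
  split12 (m := w47) (by decide +kernel) (tp1051 hTd) (tp1058 hTd)
lemma tp1060 (hTd : TdOK) : Good 0 ![w165, w12, w34, w107, w158, w96] :=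
  split13 (m := w109) (by decide +kernel) (ch1071 hTd) (tp1059 hTd)
lemma tp1061 (hTd : TdOK) : Good 0 ![w164, w12, w34, w107, w158, w96] :=
  split02 (m := w165) (by decide +kernel) (tp1060 hTd) (ch1087 hTd)
lemma tp1062 (hTd : TdOK) : Good 0 ![w164, w12, w34, w107, w158, w94] :=
  split15 (m := w96) (by decide +kernel) (ch1070 hTd) (tp1061 hTd)
lemma tp1063 (hTd : TdOK) : Good 0 ![w164, w12, w34, w107, w30, w94] :=
  split14 (m := w158) (by decide +kernel) (ch1069 hTd) (tp1062 hTd)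
lemma tp1064 (hTd : TdOK) : Good 0 ![w163, w12, w34, w107, w30, w94] :=
  split01 (m := w164) (by decide +kernel) (tp1063 hTd) (ch1088 hTd)
lemma tp1065 (hTd : TdOK) : Good 0 ![w163, w12, w34, w22, w30, w94] :=
  split13 (m := w107) (by decide +kernel) (ch1068 hTd) (tp1064 hTd)
lemma tp1066 (hTd : TdOK) : Good 0 ![w170, w47, w34, w165, w159, w100] :=
  split12 (m := w52) (by decide +kernel) (ch1095 hTd) (ch1096 hTd)
lemma tp1067 (hTd : TdOK) : Good 0 ![w169, w47, w34, w165, w159, w100] :=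
  split02 (m := w170) (by decide +kernel) (tp1066 hTd) (ch1097 hTd)
lemma tp1068 (hTd : TdOK) : Good 0 ![w169, w47, w34, w165, w159, w96] :=
  split25 (m := w100) (by decide +kernel) (ch1094 hTd) (tp1067 hTd)
lemma tp1069 (hTd : TdOK) : Good 0 ![w169, w47, w34, w165, w158, w96] :=
  split24 (m := w159) (by decide +kernel) (ch1093 hTd) (tp1068 hTd)
lemma tp1070 (hTd : TdOK) : Good 0 ![w171, w57, w47, w167, w161, w102] :=
  split24 (m := w162) (by decide +kernel) (ch1101 hTd) (ch1102 hTd)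
lemma tp1071 (hTd : TdOK) : Good 0 ![w171, w12, w47, w167, w161, w102] :=
  split12 (m := w57) (by decide +kernel) (tp1070 hTd) (ch1103 hTd)
lemma tp1072 (hTd : TdOK) : Good 0 ![w169, w12, w47, w167, w161, w102] :=
  split01 (m := w171) (by decide +kernel) (tp1071 hTd) (ch1104 hTd)
lemma tp1073 (hTd : TdOK) : Good 0 ![w169, w12, w47, w167, w161, w96] :=
  split15 (m := w102) (by decide +kernel) (ch1100 hTd) (tp1072 hTd)
lemma tp1074 (hTd : TdOK) : Good 0 ![w169, w12, w47, w167, w158, w96] :=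
  split14 (m := w161) (by decide +kernel) (ch1099 hTd) (tp1073 hTd)
lemma tp1075 (hTd : TdOK) : Good 0 ![w169, w12, w47, w165, w158, w96] :=
  split13 (m := w167) (by decide +kernel) (ch1098 hTd) (tp1074 hTd)
lemma tp1076 (hTd : TdOK) : Good 0 ![w169, w12, w34, w165, w158, w96] :=
  split12 (m := w47) (by decide +kernel) (tp1069 hTd) (tp1075 hTd)
lemma tp1077 (hTd : TdOK) : Good 0 ![w169, w12, w34, w164, w158, w96] :=
  split23 (m := w165) (by decide +kernel) (ch1092 hTd) (tp1076 hTd)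
lemma tp1078 (hTd : TdOK) : Good 0 ![w168, w12, w34, w164, w158, w96] :=
  split01 (m := w169) (by decide +kernel) (tp1077 hTd) (ch1105 hTd)
lemma tp1079 (hTd : TdOK) : Good 0 ![w168, w12, w34, w164, w158, w94] :=
  split15 (m := w96) (by decide +kernel) (ch1091 hTd) (tp1078 hTd)
lemma tp1080 (hTd : TdOK) : Good 0 ![w168, w12, w34, w164, w30, w94] :=
  split14 (m := w158) (by decide +kernel) (ch1090 hTd) (tp1079 hTd)
lemma tp1081 (hTd : TdOK) : Good 0 ![w168, w12, w34, w163, w30, w94] :=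
  split13 (m := w164) (by decide +kernel) (ch1089 hTd) (tp1080 hTd)
lemma tp1082 (hTd : TdOK) : Good 0 ![w29, w12, w34, w163, w30, w94] :=
  split02 (m := w168) (by decide +kernel) (tp1081 hTd) (ch1106 hTd)
lemma tp1083 (hTd : TdOK) : Good 0 ![w29, w12, w34, w22, w30, w94] :=
  split03 (m := w163) (by decide +kernel) (tp1065 hTd) (tp1082 hTd)
lemma tp1084 (hTd : TdOK) : Good 0 ![w29, w12, w34, w22, w30, w18] :=
  split25 (m := w94) (by decide +kernel) (ch1067 hTd) (tp1083 hTd)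
lemma tp1085 (hTd : TdOK) : Good 0 ![w29, w12, w34, w22, w28, w18] :=
  split14 (m := w30) (by decide +kernel) (ch1066 hTd) (tp1084 hTd)
lemma tp1086 (hTd : TdOK) : Good 0 ![w129, w52, w34, w136, w170, w103] :=
  split24 (m := w172) (by decide +kernel) (ch1117 hTd) (ch1118 hTd)
lemma tp1087 (hTd : TdOK) : Good 0 ![w129, w52, w34, w136, w170, w100] :=
  split25 (m := w103) (by decide +kernel) (ch1116 hTd) (tp1086 hTd)
lemma tp1088 (hTd : TdOK) : Good 0 ![w129, w47, w34, w136, w170, w100] :=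
  split12 (m := w52) (by decide +kernel) (tp1087 hTd) (ch1119 hTd)
lemma tp1089 (hTd : TdOK) : Good 0 ![w129, w47, w34, w135, w170, w100] :=
  split23 (m := w136) (by decide +kernel) (ch1115 hTd) (tp1088 hTd)
lemma tp1090 (hTd : TdOK) : Good 0 ![w128, w47, w34, w135, w170, w100] :=
  split02 (m := w129) (by decide +kernel) (tp1089 hTd) (ch1120 hTd)
lemma tp1091 (hTd : TdOK) : Good 0 ![w128, w47, w34, w135, w169, w100] :=
  split24 (m := w170) (by decide +kernel) (ch1114 hTd) (tp1090 hTd)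
lemma tp1092 (hTd : TdOK) : Good 0 ![w128, w47, w34, w135, w169, w96] :=
  split25 (m := w100) (by decide +kernel) (ch1113 hTd) (tp1091 hTd)
lemma tp1093 (hTd : TdOK) : Good 0 ![w130, w12, w47, w137, w171, w102] :=
  split12 (m := w57) (by decide +kernel) (ch1124 hTd) (ch1125 hTd)
lemma tp1094 (hTd : TdOK) : Good 0 ![w128, w12, w47, w137, w171, w102] :=
  split01 (m := w130) (by decide +kernel) (tp1093 hTd) (ch1126 hTd)
lemma tp1095 (hTd : TdOK) : Good 0 ![w128, w12, w47, w137, w169, w102] :=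
  split14 (m := w171) (by decide +kernel) (ch1123 hTd) (tp1094 hTd)
lemma tp1096 (hTd : TdOK) : Good 0 ![w128, w12, w47, w137, w169, w96] :=
  split15 (m := w102) (by decide +kernel) (ch1122 hTd) (tp1095 hTd)
lemma tp1097 (hTd : TdOK) : Good 0 ![w128, w12, w47, w135, w169, w96] :=
  split13 (m := w137) (by decide +kernel) (ch1121 hTd) (tp1096 hTd)
lemma tp1098 (hTd : TdOK) : Good 0 ![w128, w12, w34, w135, w169, w96] :=
  split12 (m := w47) (by decide +kernel) (tp1092 hTd) (tp1097 hTd)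
lemma tp1099 (hTd : TdOK) : Good 0 ![w131, w129, w34, w135, w170, w100] :=
  split23 (m := w136) (by decide +kernel) (ch1129 hTd) (ch1130 hTd)
lemma tp1100 (hTd : TdOK) : Good 0 ![w131, w128, w34, w135, w170, w100] :=
  split12 (m := w129) (by decide +kernel) (tp1099 hTd) (ch1131 hTd)
lemma tp1101 (hTd : TdOK) : Good 0 ![w131, w128, w34, w135, w169, w100] :=
  split24 (m := w170) (by decide +kernel) (ch1128 hTd) (tp1100 hTd)
lemma tp1102 (hTd : TdOK) : Good 0 ![w127, w128, w34, w135, w169, w100] :=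
  split02 (m := w131) (by decide +kernel) (tp1101 hTd) (ch1132 hTd)
lemma tp1103 (hTd : TdOK) : Good 0 ![w127, w128, w34, w135, w169, w96] :=
  split25 (m := w100) (by decide +kernel) (ch1127 hTd) (tp1102 hTd)
lemma tp1104 (hTd : TdOK) : Good 0 ![w127, w12, w34, w135, w169, w96] :=
  split01 (m := w128) (by decide +kernel) (tp1098 hTd) (tp1103 hTd)
lemma tp1105 (hTd : TdOK) : Good 0 ![w127, w12, w34, w135, w168, w96] :=
  split14 (m := w169) (by decide +kernel) (ch1112 hTd) (tp1104 hTd)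
lemma tp1106 (hTd : TdOK) : Good 0 ![w127, w12, w34, w134, w168, w96] :=
  split23 (m := w135) (by decide +kernel) (ch1111 hTd) (tp1105 hTd)
lemma tp1107 (hTd : TdOK) : Good 0 ![w127, w12, w34, w134, w168, w94] :=
  split15 (m := w96) (by decide +kernel) (ch1110 hTd) (tp1106 hTd)
lemma tp1108 (hTd : TdOK) : Good 0 ![w127, w12, w34, w133, w168, w94] :=
  split13 (m := w134) (by decide +kernel) (ch1109 hTd) (tp1107 hTd)
lemma tp1109 (hTd : TdOK) : Good 0 ![w23, w12, w34, w133, w168, w94] :=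
  split02 (m := w127) (by decide +kernel) (tp1108 hTd) (ch1133 hTd)
lemma tp1110 (hTd : TdOK) : Good 0 ![w23, w12, w34, w133, w29, w94] :=
  split24 (m := w168) (by decide +kernel) (ch1108 hTd) (tp1109 hTd)
lemma tp1111 (hTd : TdOK) : Good 0 ![w23, w12, w34, w133, w29, w18] :=
  split25 (m := w94) (by decide +kernel) (ch1107 hTd) (tp1110 hTd)
lemma tp1112 (hTd : TdOK) : Good 0 ![w129, w52, w34, w166, w170, w136] :=
  split24 (m := w172) (by decide +kernel) (ch1143 hTd) (ch1144 hTd)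
lemma tp1113 (hTd : TdOK) : Good 0 ![w129, w52, w34, w165, w170, w136] :=
  split23 (m := w166) (by decide +kernel) (ch1142 hTd) (tp1112 hTd)
lemma tp1114 (hTd : TdOK) : Good 0 ![w129, w47, w34, w165, w170, w136] :=
  split12 (m := w52) (by decide +kernel) (tp1113 hTd) (ch1145 hTd)
lemma tp1115 (hTd : TdOK) : Good 0 ![w129, w47, w34, w165, w170, w135] :=
  split25 (m := w136) (by decide +kernel) (ch1141 hTd) (tp1114 hTd)
lemma tp1116 (hTd : TdOK) : Good 0 ![w128, w47, w34, w165, w170, w135] :=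
  split02 (m := w129) (by decide +kernel) (tp1115 hTd) (ch1146 hTd)
lemma tp1117 (hTd : TdOK) : Good 0 ![w128, w47, w34, w165, w169, w135] :=
  split24 (m := w170) (by decide +kernel) (ch1140 hTd) (tp1116 hTd)
lemma tp1118 (hTd : TdOK) : Good 0 ![w130, w12, w47, w167, w171, w137] :=
  split12 (m := w57) (by decide +kernel) (ch1150 hTd) (ch1151 hTd)
lemma tp1119 (hTd : TdOK) : Good 0 ![w128, w12, w47, w167, w171, w137] :=
  split01 (m := w130) (by decide +kernel) (tp1118 hTd) (ch1152 hTd)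
lemma tp1120 (hTd : TdOK) : Good 0 ![w128, w12, w47, w167, w169, w137] :=
  split14 (m := w171) (by decide +kernel) (ch1149 hTd) (tp1119 hTd)
lemma tp1121 (hTd : TdOK) : Good 0 ![w128, w12, w47, w165, w169, w137] :=
  split13 (m := w167) (by decide +kernel) (ch1148 hTd) (tp1120 hTd)
lemma tp1122 (hTd : TdOK) : Good 0 ![w128, w12, w47, w165, w169, w135] :=
  split15 (m := w137) (by decide +kernel) (ch1147 hTd) (tp1121 hTd)
lemma tp1123 (hTd : TdOK) : Good 0 ![w128, w12, w34, w165, w169, w135] :=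
  split12 (m := w47) (by decide +kernel) (tp1117 hTd) (tp1122 hTd)
lemma tp1124 (hTd : TdOK) : Good 0 ![w131, w128, w34, w165, w169, w135] :=
  split24 (m := w170) (by decide +kernel) (ch1153 hTd) (ch1154 hTd)
lemma tp1125 (hTd : TdOK) : Good 0 ![w127, w128, w34, w165, w169, w135] :=
  split02 (m := w131) (by decide +kernel) (tp1124 hTd) (ch1155 hTd)
lemma tp1126 (hTd : TdOK) : Good 0 ![w127, w12, w34, w165, w169, w135] :=
  split01 (m := w128) (by decide +kernel) (tp1123 hTd) (tp1125 hTd)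
lemma tp1127 (hTd : TdOK) : Good 0 ![w127, w12, w34, w164, w169, w135] :=
  split23 (m := w165) (by decide +kernel) (ch1139 hTd) (tp1126 hTd)
lemma tp1128 (hTd : TdOK) : Good 0 ![w127, w12, w34, w164, w168, w135] :=
  split14 (m := w169) (by decide +kernel) (ch1138 hTd) (tp1127 hTd)
lemma tp1129 (hTd : TdOK) : Good 0 ![w127, w12, w34, w164, w168, w134] :=
  split25 (m := w135) (by decide +kernel) (ch1137 hTd) (tp1128 hTd)
lemma tp1130 (hTd : TdOK) : Good 0 ![w127, w12, w34, w163, w168, w134] :=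
  split13 (m := w164) (by decide +kernel) (ch1136 hTd) (tp1129 hTd)
lemma tp1131 (hTd : TdOK) : Good 0 ![w23, w12, w34, w163, w168, w134] :=
  split02 (m := w127) (by decide +kernel) (tp1130 hTd) (ch1156 hTd)
lemma tp1132 (hTd : TdOK) : Good 0 ![w23, w12, w34, w163, w168, w133] :=
  split15 (m := w134) (by decide +kernel) (ch1135 hTd) (tp1131 hTd)
lemma tp1133 (hTd : TdOK) : Good 0 ![w23, w12, w34, w163, w29, w133] :=
  split24 (m := w168) (by decide +kernel) (ch1134 hTd) (tp1132 hTd)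
lemma tp1134 (hTd : TdOK) : Good 0 ![w129, w52, w34, w112, w166, w136] :=
  split23 (m := w114) (by decide +kernel) (ch1166 hTd) (ch1167 hTd)
lemma tp1135 (hTd : TdOK) : Good 0 ![w129, w52, w34, w112, w165, w136] :=
  split24 (m := w166) (by decide +kernel) (ch1165 hTd) (tp1134 hTd)
lemma tp1136 (hTd : TdOK) : Good 0 ![w129, w47, w34, w112, w165, w136] :=
  split12 (m := w52) (by decide +kernel) (tp1135 hTd) (ch1168 hTd)
lemma tp1137 (hTd : TdOK) : Good 0 ![w129, w47, w34, w112, w165, w135] :=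
  split25 (m := w136) (by decide +kernel) (ch1164 hTd) (tp1136 hTd)
lemma tp1138 (hTd : TdOK) : Good 0 ![w128, w47, w34, w112, w165, w135] :=
  split02 (m := w129) (by decide +kernel) (tp1137 hTd) (ch1169 hTd)
lemma tp1139 (hTd : TdOK) : Good 0 ![w128, w47, w34, w109, w165, w135] :=
  split23 (m := w112) (by decide +kernel) (ch1163 hTd) (tp1138 hTd)
lemma tp1140 (hTd : TdOK) : Good 0 ![w130, w57, w47, w115, w167, w137] :=
  split23 (m := w132) (by decide +kernel) (ch1173 hTd) (ch1174 hTd)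
lemma tp1141 (hTd : TdOK) : Good 0 ![w130, w12, w47, w115, w167, w137] :=
  split12 (m := w57) (by decide +kernel) (tp1140 hTd) (ch1175 hTd)
lemma tp1142 (hTd : TdOK) : Good 0 ![w130, w12, w47, w109, w167, w137] :=
  split13 (m := w115) (by decide +kernel) (ch1172 hTd) (tp1141 hTd)
lemma tp1143 (hTd : TdOK) : Good 0 ![w128, w12, w47, w109, w167, w137] :=
  split01 (m := w130) (by decide +kernel) (tp1142 hTd) (ch1176 hTd)
lemma tp1144 (hTd : TdOK) : Good 0 ![w128, w12, w47, w109, w165, w137] :=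
  split14 (m := w167) (by decide +kernel) (ch1171 hTd) (tp1143 hTd)
lemma tp1145 (hTd : TdOK) : Good 0 ![w128, w12, w47, w109, w165, w135] :=
  split15 (m := w137) (by decide +kernel) (ch1170 hTd) (tp1144 hTd)
lemma tp1146 (hTd : TdOK) : Good 0 ![w128, w12, w34, w109, w165, w135] :=
  split12 (m := w47) (by decide +kernel) (tp1139 hTd) (tp1145 hTd)
lemma tp1147 (hTd : TdOK) : Good 0 ![w127, w12, w34, w109, w165, w135] :=
  split01 (m := w128) (by decide +kernel) (tp1146 hTd) (ch1177 hTd)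
lemma tp1148 (hTd : TdOK) : Good 0 ![w127, w12, w34, w107, w165, w135] :=
  split13 (m := w109) (by decide +kernel) (ch1162 hTd) (tp1147 hTd)
lemma tp1149 (hTd : TdOK) : Good 0 ![w127, w12, w34, w107, w164, w135] :=
  split24 (m := w165) (by decide +kernel) (ch1161 hTd) (tp1148 hTd)
lemma tp1150 (hTd : TdOK) : Good 0 ![w127, w12, w34, w107, w164, w134] :=
  split25 (m := w135) (by decide +kernel) (ch1160 hTd) (tp1149 hTd)
lemma tp1151 (hTd : TdOK) : Good 0 ![w127, w12, w34, w107, w163, w134] :=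
  split14 (m := w164) (by decide +kernel) (ch1159 hTd) (tp1150 hTd)
lemma tp1152 (hTd : TdOK) : Good 0 ![w23, w12, w34, w107, w163, w134] :=
  split02 (m := w127) (by decide +kernel) (tp1151 hTd) (ch1178 hTd)
lemma tp1153 (hTd : TdOK) : Good 0 ![w23, w12, w34, w107, w163, w133] :=
  split15 (m := w134) (by decide +kernel) (ch1158 hTd) (tp1152 hTd)
lemma tp1154 (hTd : TdOK) : Good 0 ![w23, w12, w34, w22, w163, w133] :=
  split13 (m := w107) (by decide +kernel) (ch1157 hTd) (tp1153 hTd)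
lemma tp1155 (hTd : TdOK) : Good 0 ![w23, w12, w34, w22, w29, w133] :=
  split34 (m := w163) (by decide +kernel) (tp1133 hTd) (tp1154 hTd)
lemma tp1156 (hTd : TdOK) : Good 0 ![w23, w12, w34, w22, w29, w18] :=
  split35 (m := w133) (by decide +kernel) (tp1111 hTd) (tp1155 hTd)
lemma tp1157 (hTd : TdOK) : Good 0 ![w84, w100, w34, w127, w173, w104] :=
  split23 (m := w131) (by decide +kernel) (ch1184 hTd) (ch1185 hTd)
lemma tp1158 (hTd : TdOK) : Good 0 ![w84, w96, w34, w127, w173, w104] :=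
  split12 (m := w100) (by decide +kernel) (tp1157 hTd) (ch1186 hTd)
lemma tp1159 (hTd : TdOK) : Good 0 ![w84, w96, w34, w127, w168, w104] :=
  split24 (m := w173) (by decide +kernel) (ch1183 hTd) (tp1158 hTd)
lemma tp1160 (hTd : TdOK) : Good 0 ![w84, w96, w34, w127, w168, w94] :=
  split25 (m := w104) (by decide +kernel) (ch1182 hTd) (tp1159 hTd)
lemma tp1161 (hTd : TdOK) : Good 0 ![w87, w170, w34, w131, w173, w100] :=
  split24 (m := w174) (by decide +kernel) (ch1190 hTd) (ch1191 hTd)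
lemma tp1162 (hTd : TdOK) : Good 0 ![w84, w170, w34, w131, w173, w100] :=
  split02 (m := w87) (by decide +kernel) (tp1161 hTd) (ch1192 hTd)
lemma tp1163 (hTd : TdOK) : Good 0 ![w84, w169, w34, w131, w173, w100] :=
  split12 (m := w170) (by decide +kernel) (tp1162 hTd) (ch1193 hTd)
lemma tp1164 (hTd : TdOK) : Good 0 ![w84, w169, w34, w127, w173, w100] :=
  split23 (m := w131) (by decide +kernel) (ch1189 hTd) (tp1163 hTd)
lemma tp1165 (hTd : TdOK) : Good 0 ![w84, w169, w34, w127, w173, w96] :=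
  split25 (m := w100) (by decide +kernel) (ch1188 hTd) (tp1164 hTd)
lemma tp1166 (hTd : TdOK) : Good 0 ![w84, w169, w34, w127, w168, w96] :=
  split24 (m := w173) (by decide +kernel) (ch1187 hTd) (tp1165 hTd)
lemma tp1167 (hTd : TdOK) : Good 0 ![w87, w52, w34, w131, w170, w103] :=
  split24 (m := w172) (by decide +kernel) (ch1198 hTd) (ch1199 hTd)
lemma tp1168 (hTd : TdOK) : Good 0 ![w87, w52, w34, w131, w170, w100] :=
  split25 (m := w103) (by decide +kernel) (ch1197 hTd) (tp1167 hTd)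
lemma tp1169 (hTd : TdOK) : Good 0 ![w87, w47, w52, w131, w170, w100] :=
  split13 (m := w129) (by decide +kernel) (ch1200 hTd) (ch1201 hTd)
lemma tp1170 (hTd : TdOK) : Good 0 ![w87, w47, w34, w131, w170, w100] :=
  split12 (m := w52) (by decide +kernel) (tp1168 hTd) (tp1169 hTd)
lemma tp1171 (hTd : TdOK) : Good 0 ![w84, w47, w34, w131, w170, w100] :=
  split02 (m := w87) (by decide +kernel) (tp1170 hTd) (ch1202 hTd)
lemma tp1172 (hTd : TdOK) : Good 0 ![w84, w47, w34, w131, w169, w100] :=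
  split24 (m := w170) (by decide +kernel) (ch1196 hTd) (tp1171 hTd)
lemma tp1173 (hTd : TdOK) : Good 0 ![w84, w47, w34, w127, w169, w100] :=
  split23 (m := w131) (by decide +kernel) (ch1195 hTd) (tp1172 hTd)
lemma tp1174 (hTd : TdOK) : Good 0 ![w84, w47, w34, w127, w169, w96] :=
  split25 (m := w100) (by decide +kernel) (ch1194 hTd) (tp1173 hTd)
lemma tp1175 (hTd : TdOK) : Good 0 ![w91, w57, w47, w130, w171, w105] :=
  split24 (m := w175) (by decide +kernel) (ch1208 hTd) (ch1209 hTd)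
lemma tp1176 (hTd : TdOK) : Good 0 ![w91, w57, w47, w130, w171, w102] :=
  split25 (m := w105) (by decide +kernel) (ch1207 hTd) (tp1175 hTd)
lemma tp1177 (hTd : TdOK) : Good 0 ![w91, w12, w47, w130, w171, w102] :=
  split12 (m := w57) (by decide +kernel) (tp1176 hTd) (ch1210 hTd)
lemma tp1178 (hTd : TdOK) : Good 0 ![w90, w12, w47, w130, w171, w102] :=
  split01 (m := w91) (by decide +kernel) (tp1177 hTd) (ch1211 hTd)
lemma tp1179 (hTd : TdOK) : Good 0 ![w90, w12, w47, w128, w171, w102] :=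
  split13 (m := w130) (by decide +kernel) (ch1206 hTd) (tp1178 hTd)
lemma tp1180 (hTd : TdOK) : Good 0 ![w90, w12, w47, w128, w169, w102] :=
  split14 (m := w171) (by decide +kernel) (ch1205 hTd) (tp1179 hTd)
lemma tp1181 (hTd : TdOK) : Good 0 ![w90, w12, w47, w128, w169, w96] :=
  split15 (m := w102) (by decide +kernel) (ch1204 hTd) (tp1180 hTd)
lemma tp1182 (hTd : TdOK) : Good 0 ![w84, w12, w47, w128, w169, w96] :=
  split01 (m := w90) (by decide +kernel) (tp1181 hTd) (ch1212 hTd)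
lemma tp1183 (hTd : TdOK) : Good 0 ![w84, w12, w47, w127, w169, w96] :=
  split13 (m := w128) (by decide +kernel) (ch1203 hTd) (tp1182 hTd)
lemma tp1184 (hTd : TdOK) : Good 0 ![w84, w12, w34, w127, w169, w96] :=
  split12 (m := w47) (by decide +kernel) (tp1174 hTd) (tp1183 hTd)
lemma tp1185 (hTd : TdOK) : Good 0 ![w84, w12, w34, w127, w168, w96] :=
  split14 (m := w169) (by decide +kernel) (tp1166 hTd) (tp1184 hTd)
lemma tp1186 (hTd : TdOK) : Good 0 ![w84, w12, w34, w127, w168, w94] :=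
  split15 (m := w96) (by decide +kernel) (tp1160 hTd) (tp1185 hTd)
lemma tp1187 (hTd : TdOK) : Good 0 ![w83, w12, w34, w127, w168, w94] :=
  split02 (m := w84) (by decide +kernel) (tp1186 hTd) (ch1213 hTd)
lemma tp1188 (hTd : TdOK) : Good 0 ![w83, w12, w34, w23, w168, w94] :=
  split23 (m := w127) (by decide +kernel) (ch1181 hTd) (tp1187 hTd)
lemma tp1189 (hTd : TdOK) : Good 0 ![w83, w12, w34, w23, w29, w94] :=
  split24 (m := w168) (by decide +kernel) (ch1180 hTd) (tp1188 hTd)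
lemma tp1190 (hTd : TdOK) : Good 0 ![w83, w12, w34, w23, w29, w18] :=
  split25 (m := w94) (by decide +kernel) (ch1179 hTd) (tp1189 hTd)
lemma tp1191 (hTd : TdOK) : Good 0 ![w0, w12, w34, w23, w29, w18] :=
  split02 (m := w83) (by decide +kernel) (tp1190 hTd) (ch1214 hTd)
lemma tp1192 (hTd : TdOK) : Good 0 ![w0, w12, w34, w22, w29, w18] :=
  split03 (m := w23) (by decide +kernel) (tp1156 hTd) (tp1191 hTd)
lemma tp1193 (hTd : TdOK) : Good 0 ![w0, w12, w34, w22, w28, w18] :=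
  split04 (m := w29) (by decide +kernel) (tp1085 hTd) (tp1192 hTd)
lemma tp1194 (hTd : TdOK) : Good 0 ![w0, w12, w34, w22, w28, w8] :=
  split05 (m := w18) (by decide +kernel) (tp1045 hTd) (tp1193 hTd)
lemma tp1195 (hTd : TdOK) : Good 0 ![w0, w6, w2, w32, w177, w8] :=
  split15 (m := w7) (by decide +kernel) (ch1216 hTd) (ch1217 hTd)
lemma tp1196 (hTd : TdOK) : Good 0 ![w13, w12, w15, w32, w178, w35] :=
  split03 (m := w36) (by decide +kernel) (ch1221 hTd) (ch1222 hTd)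
lemma tp1197 (hTd : TdOK) : Good 0 ![w13, w12, w15, w32, w178, w5] :=
  split15 (m := w35) (by decide +kernel) (ch1220 hTd) (tp1196 hTd)
lemma tp1198 (hTd : TdOK) : Good 0 ![w13, w12, w2, w32, w178, w5] :=
  split12 (m := w15) (by decide +kernel) (ch1219 hTd) (tp1197 hTd)
lemma tp1199 (hTd : TdOK) : Good 0 ![w13, w12, w2, w32, w176, w5] :=
  split14 (m := w178) (by decide +kernel) (ch1218 hTd) (tp1198 hTd)
lemma tp1200 (hTd : TdOK) : Good 0 ![w179, w12, w15, w32, w178, w13] :=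
  split35 (m := w36) (by decide +kernel) (ch1225 hTd) (ch1226 hTd)
lemma tp1201 (hTd : TdOK) : Good 0 ![w179, w12, w2, w32, w178, w13] :=
  split12 (m := w15) (by decide +kernel) (ch1224 hTd) (tp1200 hTd)
lemma tp1202 (hTd : TdOK) : Good 0 ![w179, w12, w2, w32, w176, w13] :=
  split14 (m := w178) (by decide +kernel) (ch1223 hTd) (tp1201 hTd)
lemma tp1203 (hTd : TdOK) : Good 0 ![w0, w12, w2, w32, w176, w13] :=
  split04 (m := w179) (by decide +kernel) (tp1202 hTd) (ch1227 hTd)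
lemma tp1204 (hTd : TdOK) : Good 0 ![w0, w12, w2, w32, w176, w5] :=
  split05 (m := w13) (by decide +kernel) (tp1199 hTd) (tp1203 hTd)
lemma tp1205 (hTd : TdOK) : Good 0 ![w180, w12, w2, w32, w177, w18] :=
  split14 (m := w181) (by decide +kernel) (ch1229 hTd) (ch1230 hTd)
lemma tp1206 (hTd : TdOK) : Good 0 ![w0, w12, w2, w32, w180, w18] :=
  split03 (m := w33) (by decide +kernel) (ch1231 hTd) (ch1232 hTd)
lemma tp1207 (hTd : TdOK) : Good 0 ![w0, w12, w2, w32, w177, w18] :=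
  split04 (m := w180) (by decide +kernel) (tp1205 hTd) (tp1206 hTd)
lemma tp1208 (hTd : TdOK) : Good 0 ![w0, w12, w2, w32, w177, w8] :=
  split05 (m := w18) (by decide +kernel) (ch1228 hTd) (tp1207 hTd)
lemma tp1209 (hTd : TdOK) : Good 0 ![w42, w12, w44, w41, w182, w43] :=
  split12 (m := w45) (by decide +kernel) (ch1240 hTd) (ch1241 hTd)
lemma tp1210 (hTd : TdOK) : Good 0 ![w42, w12, w44, w41, w182, w40] :=
  split15 (m := w43) (by decide +kernel) (ch1239 hTd) (tp1209 hTd)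
lemma tp1211 (hTd : TdOK) : Good 0 ![w46, w12, w44, w41, w182, w40] :=
  split01 (m := w42) (by decide +kernel) (tp1210 hTd) (ch1242 hTd)
lemma tp1212 (hTd : TdOK) : Good 0 ![w51, w52, w34, w49, w183, w50] :=
  split24 (m := w184) (by decide +kernel) (ch1246 hTd) (ch1247 hTd)
lemma tp1213 (hTd : TdOK) : Good 0 ![w46, w52, w34, w49, w183, w50] :=
  split02 (m := w51) (by decide +kernel) (tp1212 hTd) (ch1248 hTd)
lemma tp1214 (hTd : TdOK) : Good 0 ![w46, w47, w34, w49, w183, w50] :=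
  split12 (m := w52) (by decide +kernel) (tp1213 hTd) (ch1249 hTd)
lemma tp1215 (hTd : TdOK) : Good 0 ![w46, w47, w34, w49, w183, w44] :=
  split25 (m := w50) (by decide +kernel) (ch1245 hTd) (tp1214 hTd)
lemma tp1216 (hTd : TdOK) : Good 0 ![w46, w47, w34, w41, w183, w44] :=
  split23 (m := w49) (by decide +kernel) (ch1244 hTd) (tp1215 hTd)
lemma tp1217 (hTd : TdOK) : Good 0 ![w46, w47, w34, w41, w182, w44] :=
  split24 (m := w183) (by decide +kernel) (ch1243 hTd) (tp1216 hTd)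
lemma tp1218 (hTd : TdOK) : Good 0 ![w42, w57, w47, w56, w185, w45] :=
  split24 (m := w186) (by decide +kernel) (ch1253 hTd) (ch1254 hTd)
lemma tp1219 (hTd : TdOK) : Good 0 ![w42, w12, w47, w56, w185, w45] :=
  split12 (m := w57) (by decide +kernel) (tp1218 hTd) (ch1255 hTd)
lemma tp1220 (hTd : TdOK) : Good 0 ![w42, w12, w47, w41, w185, w45] :=
  split13 (m := w56) (by decide +kernel) (ch1252 hTd) (tp1219 hTd)
lemma tp1221 (hTd : TdOK) : Good 0 ![w42, w12, w47, w41, w182, w45] :=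
  split14 (m := w185) (by decide +kernel) (ch1251 hTd) (tp1220 hTd)
lemma tp1222 (hTd : TdOK) : Good 0 ![w42, w12, w47, w41, w182, w44] :=
  split15 (m := w45) (by decide +kernel) (ch1250 hTd) (tp1221 hTd)
lemma tp1223 (hTd : TdOK) : Good 0 ![w46, w12, w47, w41, w182, w44] :=
  split01 (m := w42) (by decide +kernel) (tp1222 hTd) (ch1256 hTd)
lemma tp1224 (hTd : TdOK) : Good 0 ![w46, w12, w34, w41, w182, w44] :=
  split12 (m := w47) (by decide +kernel) (tp1217 hTd) (tp1223 hTd)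
lemma tp1225 (hTd : TdOK) : Good 0 ![w46, w12, w34, w41, w182, w40] :=
  split25 (m := w44) (by decide +kernel) (tp1211 hTd) (tp1224 hTd)
lemma tp1226 (hTd : TdOK) : Good 0 ![w38, w12, w34, w41, w182, w40] :=
  split02 (m := w46) (by decide +kernel) (tp1225 hTd) (ch1257 hTd)
lemma tp1227 (hTd : TdOK) : Good 0 ![w38, w12, w34, w37, w182, w40] :=
  split13 (m := w41) (by decide +kernel) (ch1238 hTd) (tp1226 hTd)
lemma tp1228 (hTd : TdOK) : Good 0 ![w38, w12, w34, w37, w182, w35] :=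
  split15 (m := w40) (by decide +kernel) (ch1237 hTd) (tp1227 hTd)
lemma tp1229 (hTd : TdOK) : Good 0 ![w38, w12, w34, w37, w178, w35] :=
  split14 (m := w182) (by decide +kernel) (ch1236 hTd) (tp1228 hTd)
lemma tp1230 (hTd : TdOK) : Good 0 ![w36, w12, w34, w37, w178, w35] :=
  split01 (m := w38) (by decide +kernel) (tp1229 hTd) (ch1258 hTd)
lemma tp1231 (hTd : TdOK) : Good 0 ![w36, w12, w34, w32, w178, w35] :=
  split13 (m := w37) (by decide +kernel) (ch1235 hTd) (tp1230 hTd)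
lemma tp1232 (hTd : TdOK) : Good 0 ![w62, w47, w34, w46, w183, w50] :=
  split12 (m := w52) (by decide +kernel) (ch1266 hTd) (ch1267 hTd)
lemma tp1233 (hTd : TdOK) : Good 0 ![w62, w47, w34, w46, w183, w44] :=
  split25 (m := w50) (by decide +kernel) (ch1265 hTd) (tp1232 hTd)
lemma tp1234 (hTd : TdOK) : Good 0 ![w60, w47, w34, w46, w183, w44] :=
  split02 (m := w62) (by decide +kernel) (tp1233 hTd) (ch1268 hTd)
lemma tp1235 (hTd : TdOK) : Good 0 ![w60, w47, w34, w46, w182, w44] :=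
  split24 (m := w183) (by decide +kernel) (ch1264 hTd) (tp1234 hTd)
lemma tp1236 (hTd : TdOK) : Good 0 ![w60, w47, w34, w46, w182, w40] :=
  split25 (m := w44) (by decide +kernel) (ch1263 hTd) (tp1235 hTd)
lemma tp1237 (hTd : TdOK) : Good 0 ![w64, w12, w47, w42, w185, w45] :=
  split12 (m := w57) (by decide +kernel) (ch1273 hTd) (ch1274 hTd)
lemma tp1238 (hTd : TdOK) : Good 0 ![w64, w12, w47, w42, w185, w43] :=
  split25 (m := w45) (by decide +kernel) (ch1272 hTd) (tp1237 hTd)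
lemma tp1239 (hTd : TdOK) : Good 0 ![w60, w12, w47, w42, w185, w43] :=
  split01 (m := w64) (by decide +kernel) (tp1238 hTd) (ch1275 hTd)
lemma tp1240 (hTd : TdOK) : Good 0 ![w60, w12, w47, w42, w182, w43] :=
  split14 (m := w185) (by decide +kernel) (ch1271 hTd) (tp1239 hTd)
lemma tp1241 (hTd : TdOK) : Good 0 ![w60, w12, w47, w42, w182, w40] :=
  split15 (m := w43) (by decide +kernel) (ch1270 hTd) (tp1240 hTd)
lemma tp1242 (hTd : TdOK) : Good 0 ![w60, w12, w47, w46, w182, w40] :=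
  split13 (m := w42) (by decide +kernel) (ch1269 hTd) (tp1241 hTd)
lemma tp1243 (hTd : TdOK) : Good 0 ![w60, w12, w34, w46, w182, w40] :=
  split12 (m := w47) (by decide +kernel) (tp1236 hTd) (tp1242 hTd)
lemma tp1244 (hTd : TdOK) : Good 0 ![w60, w12, w34, w38, w182, w40] :=
  split23 (m := w46) (by decide +kernel) (ch1262 hTd) (tp1243 hTd)
lemma tp1245 (hTd : TdOK) : Good 0 ![w58, w12, w34, w38, w182, w40] :=
  split01 (m := w60) (by decide +kernel) (tp1244 hTd) (ch1276 hTd)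
lemma tp1246 (hTd : TdOK) : Good 0 ![w58, w12, w34, w38, w182, w35] :=
  split15 (m := w40) (by decide +kernel) (ch1261 hTd) (tp1245 hTd)
lemma tp1247 (hTd : TdOK) : Good 0 ![w58, w12, w34, w38, w178, w35] :=
  split14 (m := w182) (by decide +kernel) (ch1260 hTd) (tp1246 hTd)
lemma tp1248 (hTd : TdOK) : Good 0 ![w58, w12, w34, w36, w178, w35] :=
  split13 (m := w38) (by decide +kernel) (ch1259 hTd) (tp1247 hTd)
lemma tp1249 (hTd : TdOK) : Good 0 ![w13, w12, w34, w36, w178, w35] :=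
  split02 (m := w58) (by decide +kernel) (tp1248 hTd) (ch1277 hTd)
lemma tp1250 (hTd : TdOK) : Good 0 ![w13, w12, w34, w32, w178, w35] :=
  split03 (m := w36) (by decide +kernel) (tp1231 hTd) (tp1249 hTd)
lemma tp1251 (hTd : TdOK) : Good 0 ![w13, w12, w34, w32, w178, w5] :=
  split15 (m := w35) (by decide +kernel) (ch1234 hTd) (tp1250 hTd)
lemma tp1252 (hTd : TdOK) : Good 0 ![w13, w12, w34, w32, w176, w5] :=
  split14 (m := w178) (by decide +kernel) (ch1233 hTd) (tp1251 hTd)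
lemma tp1253 (hTd : TdOK) : Good 0 ![w189, w47, w34, w46, w183, w62] :=
  split12 (m := w52) (by decide +kernel) (ch1286 hTd) (ch1287 hTd)
lemma tp1254 (hTd : TdOK) : Good 0 ![w188, w47, w34, w46, w183, w62] :=
  split02 (m := w189) (by decide +kernel) (tp1253 hTd) (ch1288 hTd)
lemma tp1255 (hTd : TdOK) : Good 0 ![w188, w47, w34, w46, w183, w60] :=
  split25 (m := w62) (by decide +kernel) (ch1285 hTd) (tp1254 hTd)
lemma tp1256 (hTd : TdOK) : Good 0 ![w188, w47, w34, w46, w182, w60] :=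
  split24 (m := w183) (by decide +kernel) (ch1284 hTd) (tp1255 hTd)
lemma tp1257 (hTd : TdOK) : Good 0 ![w190, w57, w47, w42, w185, w64] :=
  split24 (m := w186) (by decide +kernel) (ch1292 hTd) (ch1293 hTd)
lemma tp1258 (hTd : TdOK) : Good 0 ![w190, w12, w47, w42, w185, w64] :=
  split12 (m := w57) (by decide +kernel) (tp1257 hTd) (ch1294 hTd)
lemma tp1259 (hTd : TdOK) : Good 0 ![w188, w12, w47, w42, w185, w64] :=
  split01 (m := w190) (by decide +kernel) (tp1258 hTd) (ch1295 hTd)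
lemma tp1260 (hTd : TdOK) : Good 0 ![w188, w12, w47, w42, w185, w60] :=
  split15 (m := w64) (by decide +kernel) (ch1291 hTd) (tp1259 hTd)
lemma tp1261 (hTd : TdOK) : Good 0 ![w188, w12, w47, w42, w182, w60] :=
  split14 (m := w185) (by decide +kernel) (ch1290 hTd) (tp1260 hTd)
lemma tp1262 (hTd : TdOK) : Good 0 ![w188, w12, w47, w46, w182, w60] :=
  split13 (m := w42) (by decide +kernel) (ch1289 hTd) (tp1261 hTd)
lemma tp1263 (hTd : TdOK) : Good 0 ![w188, w12, w34, w46, w182, w60] :=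
  split12 (m := w47) (by decide +kernel) (tp1256 hTd) (tp1262 hTd)
lemma tp1264 (hTd : TdOK) : Good 0 ![w188, w12, w34, w38, w182, w60] :=
  split23 (m := w46) (by decide +kernel) (ch1283 hTd) (tp1263 hTd)
lemma tp1265 (hTd : TdOK) : Good 0 ![w187, w12, w34, w38, w182, w60] :=
  split01 (m := w188) (by decide +kernel) (tp1264 hTd) (ch1296 hTd)
lemma tp1266 (hTd : TdOK) : Good 0 ![w187, w12, w34, w38, w182, w58] :=
  split15 (m := w60) (by decide +kernel) (ch1282 hTd) (tp1265 hTd)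
lemma tp1267 (hTd : TdOK) : Good 0 ![w187, w12, w34, w38, w178, w58] :=
  split14 (m := w182) (by decide +kernel) (ch1281 hTd) (tp1266 hTd)
lemma tp1268 (hTd : TdOK) : Good 0 ![w187, w12, w34, w36, w178, w58] :=
  split13 (m := w38) (by decide +kernel) (ch1280 hTd) (tp1267 hTd)
lemma tp1269 (hTd : TdOK) : Good 0 ![w187, w12, w34, w36, w178, w13] :=
  split25 (m := w58) (by decide +kernel) (ch1279 hTd) (tp1268 hTd)
lemma tp1270 (hTd : TdOK) : Good 0 ![w179, w12, w34, w36, w178, w13] :=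
  split02 (m := w187) (by decide +kernel) (tp1269 hTd) (ch1297 hTd)
lemma tp1271 (hTd : TdOK) : Good 0 ![w189, w52, w34, w49, w184, w51] :=
  split23 (m := w54) (by decide +kernel) (ch1307 hTd) (ch1308 hTd)
lemma tp1272 (hTd : TdOK) : Good 0 ![w189, w52, w34, w49, w183, w51] :=
  split24 (m := w184) (by decide +kernel) (ch1306 hTd) (tp1271 hTd)
lemma tp1273 (hTd : TdOK) : Good 0 ![w189, w52, w34, w49, w183, w46] :=
  split25 (m := w51) (by decide +kernel) (ch1305 hTd) (tp1272 hTd)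
lemma tp1274 (hTd : TdOK) : Good 0 ![w189, w47, w34, w49, w183, w46] :=
  split12 (m := w52) (by decide +kernel) (tp1273 hTd) (ch1309 hTd)
lemma tp1275 (hTd : TdOK) : Good 0 ![w188, w47, w34, w49, w183, w46] :=
  split02 (m := w189) (by decide +kernel) (tp1274 hTd) (ch1310 hTd)
lemma tp1276 (hTd : TdOK) : Good 0 ![w188, w47, w34, w41, w183, w46] :=
  split23 (m := w49) (by decide +kernel) (ch1304 hTd) (tp1275 hTd)
lemma tp1277 (hTd : TdOK) : Good 0 ![w188, w47, w34, w41, w182, w46] :=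
  split24 (m := w183) (by decide +kernel) (ch1303 hTd) (tp1276 hTd)
lemma tp1278 (hTd : TdOK) : Good 0 ![w190, w57, w47, w56, w186, w42] :=
  split23 (m := w70) (by decide +kernel) (ch1315 hTd) (ch1316 hTd)
lemma tp1279 (hTd : TdOK) : Good 0 ![w190, w57, w47, w56, w185, w42] :=
  split24 (m := w186) (by decide +kernel) (ch1314 hTd) (tp1278 hTd)
lemma tp1280 (hTd : TdOK) : Good 0 ![w190, w12, w47, w56, w185, w42] :=
  split12 (m := w57) (by decide +kernel) (tp1279 hTd) (ch1317 hTd)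
lemma tp1281 (hTd : TdOK) : Good 0 ![w190, w12, w47, w41, w185, w42] :=
  split13 (m := w56) (by decide +kernel) (ch1313 hTd) (tp1280 hTd)
lemma tp1282 (hTd : TdOK) : Good 0 ![w188, w12, w47, w41, w185, w42] :=
  split01 (m := w190) (by decide +kernel) (tp1281 hTd) (ch1318 hTd)
lemma tp1283 (hTd : TdOK) : Good 0 ![w188, w12, w47, w41, w182, w42] :=
  split14 (m := w185) (by decide +kernel) (ch1312 hTd) (tp1282 hTd)
lemma tp1284 (hTd : TdOK) : Good 0 ![w188, w12, w47, w41, w182, w46] :=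
  split15 (m := w42) (by decide +kernel) (ch1311 hTd) (tp1283 hTd)
lemma tp1285 (hTd : TdOK) : Good 0 ![w188, w12, w34, w41, w182, w46] :=
  split12 (m := w47) (by decide +kernel) (tp1277 hTd) (tp1284 hTd)
lemma tp1286 (hTd : TdOK) : Good 0 ![w188, w12, w34, w41, w182, w38] :=
  split25 (m := w46) (by decide +kernel) (ch1302 hTd) (tp1285 hTd)
lemma tp1287 (hTd : TdOK) : Good 0 ![w188, w12, w34, w37, w182, w38] :=
  split13 (m := w41) (by decide +kernel) (ch1301 hTd) (tp1286 hTd)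
lemma tp1288 (hTd : TdOK) : Good 0 ![w187, w188, w34, w37, w182, w38] :=
  split23 (m := w191) (by decide +kernel) (ch1319 hTd) (ch1320 hTd)
lemma tp1289 (hTd : TdOK) : Good 0 ![w187, w12, w34, w37, w182, w38] :=
  split01 (m := w188) (by decide +kernel) (tp1287 hTd) (tp1288 hTd)
lemma tp1290 (hTd : TdOK) : Good 0 ![w187, w12, w34, w37, w178, w38] :=
  split14 (m := w182) (by decide +kernel) (ch1300 hTd) (tp1289 hTd)
lemma tp1291 (hTd : TdOK) : Good 0 ![w187, w12, w34, w37, w178, w36] :=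
  split15 (m := w38) (by decide +kernel) (ch1299 hTd) (tp1290 hTd)
lemma tp1292 (hTd : TdOK) : Good 0 ![w179, w12, w34, w37, w178, w36] :=
  split02 (m := w187) (by decide +kernel) (tp1291 hTd) (ch1321 hTd)
lemma tp1293 (hTd : TdOK) : Good 0 ![w179, w12, w34, w32, w178, w36] :=
  split13 (m := w37) (by decide +kernel) (ch1298 hTd) (tp1292 hTd)
lemma tp1294 (hTd : TdOK) : Good 0 ![w179, w12, w34, w32, w178, w13] :=
  split35 (m := w36) (by decide +kernel) (tp1270 hTd) (tp1293 hTd)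
lemma tp1295 (hTd : TdOK) : Good 0 ![w179, w12, w34, w32, w176, w13] :=
  split14 (m := w178) (by decide +kernel) (ch1278 hTd) (tp1294 hTd)
lemma tp1296 (hTd : TdOK) : Good 0 ![w73, w52, w34, w51, w189, w74] :=
  split24 (m := w192) (by decide +kernel) (ch1332 hTd) (ch1333 hTd)
lemma tp1297 (hTd : TdOK) : Good 0 ![w73, w52, w34, w51, w189, w62] :=
  split25 (m := w74) (by decide +kernel) (ch1331 hTd) (tp1296 hTd)
lemma tp1298 (hTd : TdOK) : Good 0 ![w73, w52, w34, w46, w189, w62] :=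
  split23 (m := w51) (by decide +kernel) (ch1330 hTd) (tp1297 hTd)
lemma tp1299 (hTd : TdOK) : Good 0 ![w73, w47, w34, w46, w189, w62] :=
  split12 (m := w52) (by decide +kernel) (tp1298 hTd) (ch1334 hTd)
lemma tp1300 (hTd : TdOK) : Good 0 ![w72, w47, w34, w46, w189, w62] :=
  split02 (m := w73) (by decide +kernel) (tp1299 hTd) (ch1335 hTd)
lemma tp1301 (hTd : TdOK) : Good 0 ![w72, w47, w34, w46, w188, w62] :=
  split24 (m := w189) (by decide +kernel) (ch1329 hTd) (tp1300 hTd)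
lemma tp1302 (hTd : TdOK) : Good 0 ![w72, w47, w34, w46, w188, w60] :=
  split25 (m := w62) (by decide +kernel) (ch1328 hTd) (tp1301 hTd)
lemma tp1303 (hTd : TdOK) : Good 0 ![w72, w12, w47, w42, w190, w64] :=
  split01 (m := w76) (by decide +kernel) (ch1339 hTd) (ch1340 hTd)
lemma tp1304 (hTd : TdOK) : Good 0 ![w72, w12, w47, w42, w188, w64] :=
  split14 (m := w190) (by decide +kernel) (ch1338 hTd) (tp1303 hTd)
lemma tp1305 (hTd : TdOK) : Good 0 ![w72, w12, w47, w42, w188, w60] :=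
  split15 (m := w64) (by decide +kernel) (ch1337 hTd) (tp1304 hTd)
lemma tp1306 (hTd : TdOK) : Good 0 ![w72, w12, w47, w46, w188, w60] :=
  split13 (m := w42) (by decide +kernel) (ch1336 hTd) (tp1305 hTd)
lemma tp1307 (hTd : TdOK) : Good 0 ![w72, w12, w34, w46, w188, w60] :=
  split12 (m := w47) (by decide +kernel) (tp1302 hTd) (tp1306 hTd)
lemma tp1308 (hTd : TdOK) : Good 0 ![w77, w73, w34, w46, w189, w62] :=
  split23 (m := w51) (by decide +kernel) (ch1343 hTd) (ch1344 hTd)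
lemma tp1309 (hTd : TdOK) : Good 0 ![w77, w72, w34, w46, w189, w62] :=
  split12 (m := w73) (by decide +kernel) (tp1308 hTd) (ch1345 hTd)
lemma tp1310 (hTd : TdOK) : Good 0 ![w77, w72, w34, w46, w188, w62] :=
  split24 (m := w189) (by decide +kernel) (ch1342 hTd) (tp1309 hTd)
lemma tp1311 (hTd : TdOK) : Good 0 ![w77, w72, w34, w46, w188, w60] :=
  split25 (m := w62) (by decide +kernel) (ch1341 hTd) (tp1310 hTd)
lemma tp1312 (hTd : TdOK) : Good 0 ![w71, w72, w34, w46, w188, w60] :=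
  split02 (m := w77) (by decide +kernel) (tp1311 hTd) (ch1346 hTd)
lemma tp1313 (hTd : TdOK) : Good 0 ![w71, w12, w34, w46, w188, w60] :=
  split01 (m := w72) (by decide +kernel) (tp1307 hTd) (tp1312 hTd)
lemma tp1314 (hTd : TdOK) : Good 0 ![w71, w12, w34, w38, w188, w60] :=
  split23 (m := w46) (by decide +kernel) (ch1327 hTd) (tp1313 hTd)
lemma tp1315 (hTd : TdOK) : Good 0 ![w71, w12, w34, w38, w187, w60] :=
  split14 (m := w188) (by decide +kernel) (ch1326 hTd) (tp1314 hTd)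
lemma tp1316 (hTd : TdOK) : Good 0 ![w71, w12, w34, w38, w187, w58] :=
  split15 (m := w60) (by decide +kernel) (ch1325 hTd) (tp1315 hTd)
lemma tp1317 (hTd : TdOK) : Good 0 ![w71, w12, w34, w36, w187, w58] :=
  split13 (m := w38) (by decide +kernel) (ch1324 hTd) (tp1316 hTd)
lemma tp1318 (hTd : TdOK) : Good 0 ![w33, w12, w34, w36, w187, w58] :=
  split02 (m := w71) (by decide +kernel) (tp1317 hTd) (ch1347 hTd)
lemma tp1319 (hTd : TdOK) : Good 0 ![w33, w12, w34, w36, w187, w13] :=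
  split25 (m := w58) (by decide +kernel) (ch1323 hTd) (tp1318 hTd)
lemma tp1320 (hTd : TdOK) : Good 0 ![w33, w12, w34, w36, w179, w13] :=
  split24 (m := w187) (by decide +kernel) (ch1322 hTd) (tp1319 hTd)
lemma tp1321 (hTd : TdOK) : Good 0 ![w73, w52, w34, w196, w189, w51] :=
  split24 (m := w192) (by decide +kernel) (ch1357 hTd) (ch1358 hTd)
lemma tp1322 (hTd : TdOK) : Good 0 ![w73, w52, w34, w195, w189, w51] :=
  split23 (m := w196) (by decide +kernel) (ch1356 hTd) (tp1321 hTd)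
lemma tp1323 (hTd : TdOK) : Good 0 ![w73, w47, w34, w195, w189, w51] :=
  split12 (m := w52) (by decide +kernel) (tp1322 hTd) (ch1359 hTd)
lemma tp1324 (hTd : TdOK) : Good 0 ![w73, w47, w34, w195, w189, w46] :=
  split25 (m := w51) (by decide +kernel) (ch1355 hTd) (tp1323 hTd)
lemma tp1325 (hTd : TdOK) : Good 0 ![w72, w47, w34, w195, w189, w46] :=
  split02 (m := w73) (by decide +kernel) (tp1324 hTd) (ch1360 hTd)
lemma tp1326 (hTd : TdOK) : Good 0 ![w72, w47, w34, w195, w188, w46] :=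
  split24 (m := w189) (by decide +kernel) (ch1354 hTd) (tp1325 hTd)
lemma tp1327 (hTd : TdOK) : Good 0 ![w76, w12, w47, w197, w190, w42] :=
  split12 (m := w57) (by decide +kernel) (ch1364 hTd) (ch1365 hTd)
lemma tp1328 (hTd : TdOK) : Good 0 ![w72, w12, w47, w197, w190, w42] :=
  split01 (m := w76) (by decide +kernel) (tp1327 hTd) (ch1366 hTd)
lemma tp1329 (hTd : TdOK) : Good 0 ![w72, w12, w47, w197, w188, w42] :=
  split14 (m := w190) (by decide +kernel) (ch1363 hTd) (tp1328 hTd)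
lemma tp1330 (hTd : TdOK) : Good 0 ![w72, w12, w47, w195, w188, w42] :=
  split13 (m := w197) (by decide +kernel) (ch1362 hTd) (tp1329 hTd)
lemma tp1331 (hTd : TdOK) : Good 0 ![w72, w12, w47, w195, w188, w46] :=
  split15 (m := w42) (by decide +kernel) (ch1361 hTd) (tp1330 hTd)
lemma tp1332 (hTd : TdOK) : Good 0 ![w72, w12, w34, w195, w188, w46] :=
  split12 (m := w47) (by decide +kernel) (tp1326 hTd) (tp1331 hTd)
lemma tp1333 (hTd : TdOK) : Good 0 ![w71, w12, w34, w195, w188, w46] :=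
  split01 (m := w72) (by decide +kernel) (tp1332 hTd) (ch1367 hTd)
lemma tp1334 (hTd : TdOK) : Good 0 ![w71, w12, w34, w195, w188, w38] :=
  split25 (m := w46) (by decide +kernel) (ch1353 hTd) (tp1333 hTd)
lemma tp1335 (hTd : TdOK) : Good 0 ![w71, w12, w34, w194, w188, w38] :=
  split23 (m := w195) (by decide +kernel) (ch1352 hTd) (tp1334 hTd)
lemma tp1336 (hTd : TdOK) : Good 0 ![w71, w12, w34, w194, w187, w38] :=
  split14 (m := w188) (by decide +kernel) (ch1351 hTd) (tp1335 hTd)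
lemma tp1337 (hTd : TdOK) : Good 0 ![w71, w12, w34, w194, w187, w36] :=
  split15 (m := w38) (by decide +kernel) (ch1350 hTd) (tp1336 hTd)
lemma tp1338 (hTd : TdOK) : Good 0 ![w71, w12, w34, w193, w187, w36] :=
  split13 (m := w194) (by decide +kernel) (ch1349 hTd) (tp1337 hTd)
lemma tp1339 (hTd : TdOK) : Good 0 ![w33, w12, w34, w193, w187, w36] :=
  split02 (m := w71) (by decide +kernel) (tp1338 hTd) (ch1368 hTd)
lemma tp1340 (hTd : TdOK) : Good 0 ![w33, w12, w34, w193, w179, w36] :=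
  split24 (m := w187) (by decide +kernel) (ch1348 hTd) (tp1339 hTd)
lemma tp1341 (hTd : TdOK) : Good 0 ![w73, w52, w34, w49, w195, w51] :=
  split24 (m := w196) (by decide +kernel) (ch1377 hTd) (ch1378 hTd)
lemma tp1342 (hTd : TdOK) : Good 0 ![w73, w47, w34, w49, w195, w51] :=
  split12 (m := w52) (by decide +kernel) (tp1341 hTd) (ch1379 hTd)
lemma tp1343 (hTd : TdOK) : Good 0 ![w73, w47, w34, w49, w195, w46] :=
  split25 (m := w51) (by decide +kernel) (ch1376 hTd) (tp1342 hTd)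
lemma tp1344 (hTd : TdOK) : Good 0 ![w72, w47, w34, w49, w195, w46] :=
  split02 (m := w73) (by decide +kernel) (tp1343 hTd) (ch1380 hTd)
lemma tp1345 (hTd : TdOK) : Good 0 ![w72, w47, w34, w41, w195, w46] :=
  split23 (m := w49) (by decide +kernel) (ch1375 hTd) (tp1344 hTd)
lemma tp1346 (hTd : TdOK) : Good 0 ![w76, w57, w47, w56, w197, w42] :=
  split23 (m := w70) (by decide +kernel) (ch1384 hTd) (ch1385 hTd)
lemma tp1347 (hTd : TdOK) : Good 0 ![w76, w12, w47, w56, w197, w42] :=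
  split12 (m := w57) (by decide +kernel) (tp1346 hTd) (ch1386 hTd)
lemma tp1348 (hTd : TdOK) : Good 0 ![w76, w12, w47, w41, w197, w42] :=
  split13 (m := w56) (by decide +kernel) (ch1383 hTd) (tp1347 hTd)
lemma tp1349 (hTd : TdOK) : Good 0 ![w72, w12, w47, w41, w197, w42] :=
  split01 (m := w76) (by decide +kernel) (tp1348 hTd) (ch1387 hTd)
lemma tp1350 (hTd : TdOK) : Good 0 ![w72, w12, w47, w41, w195, w42] :=
  split14 (m := w197) (by decide +kernel) (ch1382 hTd) (tp1349 hTd)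
lemma tp1351 (hTd : TdOK) : Good 0 ![w72, w12, w47, w41, w195, w46] :=
  split15 (m := w42) (by decide +kernel) (ch1381 hTd) (tp1350 hTd)
lemma tp1352 (hTd : TdOK) : Good 0 ![w72, w12, w34, w41, w195, w46] :=
  split12 (m := w47) (by decide +kernel) (tp1345 hTd) (tp1351 hTd)
lemma tp1353 (hTd : TdOK) : Good 0 ![w71, w12, w34, w41, w195, w46] :=
  split01 (m := w72) (by decide +kernel) (tp1352 hTd) (ch1388 hTd)
lemma tp1354 (hTd : TdOK) : Good 0 ![w71, w12, w34, w41, w194, w46] :=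
  split24 (m := w195) (by decide +kernel) (ch1374 hTd) (tp1353 hTd)
lemma tp1355 (hTd : TdOK) : Good 0 ![w71, w12, w34, w41, w194, w38] :=
  split25 (m := w46) (by decide +kernel) (ch1373 hTd) (tp1354 hTd)
lemma tp1356 (hTd : TdOK) : Good 0 ![w71, w12, w34, w37, w194, w38] :=
  split13 (m := w41) (by decide +kernel) (ch1372 hTd) (tp1355 hTd)
lemma tp1357 (hTd : TdOK) : Good 0 ![w71, w12, w34, w37, w194, w36] :=
  split15 (m := w38) (by decide +kernel) (ch1371 hTd) (tp1356 hTd)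
lemma tp1358 (hTd : TdOK) : Good 0 ![w71, w12, w34, w37, w193, w36] :=
  split14 (m := w194) (by decide +kernel) (ch1370 hTd) (tp1357 hTd)
lemma tp1359 (hTd : TdOK) : Good 0 ![w33, w12, w34, w37, w193, w36] :=
  split02 (m := w71) (by decide +kernel) (tp1358 hTd) (ch1389 hTd)
lemma tp1360 (hTd : TdOK) : Good 0 ![w33, w12, w34, w32, w193, w36] :=
  split13 (m := w37) (by decide +kernel) (ch1369 hTd) (tp1359 hTd)
lemma tp1361 (hTd : TdOK) : Good 0 ![w33, w12, w34, w32, w179, w36] :=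
  split34 (m := w193) (by decide +kernel) (tp1340 hTd) (tp1360 hTd)
lemma tp1362 (hTd : TdOK) : Good 0 ![w33, w12, w34, w32, w179, w13] :=
  split35 (m := w36) (by decide +kernel) (tp1320 hTd) (tp1361 hTd)
lemma tp1363 (hTd : TdOK) : Good 0 ![w84, w62, w34, w77, w198, w85] :=
  split02 (m := w87) (by decide +kernel) (ch1396 hTd) (ch1397 hTd)
lemma tp1364 (hTd : TdOK) : Good 0 ![w84, w62, w34, w71, w198, w85] :=
  split23 (m := w77) (by decide +kernel) (ch1395 hTd) (tp1363 hTd)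
lemma tp1365 (hTd : TdOK) : Good 0 ![w84, w60, w34, w71, w198, w85] :=
  split12 (m := w62) (by decide +kernel) (tp1364 hTd) (ch1398 hTd)
lemma tp1366 (hTd : TdOK) : Good 0 ![w84, w60, w34, w71, w187, w85] :=
  split24 (m := w198) (by decide +kernel) (ch1394 hTd) (tp1365 hTd)
lemma tp1367 (hTd : TdOK) : Good 0 ![w84, w60, w34, w71, w187, w58] :=
  split25 (m := w85) (by decide +kernel) (ch1393 hTd) (tp1366 hTd)
lemma tp1368 (hTd : TdOK) : Good 0 ![w87, w189, w34, w77, w198, w62] :=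
  split24 (m := w199) (by decide +kernel) (ch1402 hTd) (ch1403 hTd)
lemma tp1369 (hTd : TdOK) : Good 0 ![w84, w189, w34, w77, w198, w62] :=
  split02 (m := w87) (by decide +kernel) (tp1368 hTd) (ch1404 hTd)
lemma tp1370 (hTd : TdOK) : Good 0 ![w84, w189, w34, w71, w198, w62] :=
  split23 (m := w77) (by decide +kernel) (ch1401 hTd) (tp1369 hTd)
lemma tp1371 (hTd : TdOK) : Good 0 ![w84, w188, w34, w71, w198, w62] :=
  split12 (m := w189) (by decide +kernel) (tp1370 hTd) (ch1405 hTd)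
lemma tp1372 (hTd : TdOK) : Good 0 ![w84, w188, w34, w71, w198, w60] :=
  split25 (m := w62) (by decide +kernel) (ch1400 hTd) (tp1371 hTd)
lemma tp1373 (hTd : TdOK) : Good 0 ![w84, w188, w34, w71, w187, w60] :=
  split24 (m := w198) (by decide +kernel) (ch1399 hTd) (tp1372 hTd)
lemma tp1374 (hTd : TdOK) : Good 0 ![w87, w52, w74, w77, w189, w62] :=
  split13 (m := w89) (by decide +kernel) (ch1409 hTd) (ch1410 hTd)
lemma tp1375 (hTd : TdOK) : Good 0 ![w87, w52, w34, w77, w189, w74] :=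
  split24 (m := w192) (by decide +kernel) (ch1411 hTd) (ch1412 hTd)
lemma tp1376 (hTd : TdOK) : Good 0 ![w87, w52, w34, w77, w189, w62] :=
  split25 (m := w74) (by decide +kernel) (tp1374 hTd) (tp1375 hTd)
lemma tp1377 (hTd : TdOK) : Good 0 ![w87, w47, w52, w77, w189, w62] :=
  split13 (m := w73) (by decide +kernel) (ch1413 hTd) (ch1414 hTd)
lemma tp1378 (hTd : TdOK) : Good 0 ![w87, w47, w34, w77, w189, w62] :=
  split12 (m := w52) (by decide +kernel) (tp1376 hTd) (tp1377 hTd)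
lemma tp1379 (hTd : TdOK) : Good 0 ![w84, w47, w34, w77, w189, w62] :=
  split02 (m := w87) (by decide +kernel) (tp1378 hTd) (ch1415 hTd)
lemma tp1380 (hTd : TdOK) : Good 0 ![w84, w47, w34, w77, w188, w62] :=
  split24 (m := w189) (by decide +kernel) (ch1408 hTd) (tp1379 hTd)
lemma tp1381 (hTd : TdOK) : Good 0 ![w84, w47, w34, w71, w188, w62] :=
  split23 (m := w77) (by decide +kernel) (ch1407 hTd) (tp1380 hTd)
lemma tp1382 (hTd : TdOK) : Good 0 ![w84, w47, w34, w71, w188, w60] :=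
  split25 (m := w62) (by decide +kernel) (ch1406 hTd) (tp1381 hTd)
lemma tp1383 (hTd : TdOK) : Good 0 ![w91, w57, w47, w76, w190, w64] :=
  split25 (m := w92) (by decide +kernel) (ch1420 hTd) (ch1421 hTd)
lemma tp1384 (hTd : TdOK) : Good 0 ![w91, w12, w47, w76, w190, w64] :=
  split12 (m := w57) (by decide +kernel) (tp1383 hTd) (ch1422 hTd)
lemma tp1385 (hTd : TdOK) : Good 0 ![w90, w12, w47, w76, w190, w64] :=
  split01 (m := w91) (by decide +kernel) (tp1384 hTd) (ch1423 hTd)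
lemma tp1386 (hTd : TdOK) : Good 0 ![w90, w12, w47, w72, w190, w64] :=
  split13 (m := w76) (by decide +kernel) (ch1419 hTd) (tp1385 hTd)
lemma tp1387 (hTd : TdOK) : Good 0 ![w90, w12, w47, w72, w188, w64] :=
  split14 (m := w190) (by decide +kernel) (ch1418 hTd) (tp1386 hTd)
lemma tp1388 (hTd : TdOK) : Good 0 ![w90, w12, w47, w72, w188, w60] :=
  split15 (m := w64) (by decide +kernel) (ch1417 hTd) (tp1387 hTd)
lemma tp1389 (hTd : TdOK) : Good 0 ![w84, w12, w47, w72, w188, w60] :=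
  split01 (m := w90) (by decide +kernel) (tp1388 hTd) (ch1424 hTd)
lemma tp1390 (hTd : TdOK) : Good 0 ![w84, w12, w47, w71, w188, w60] :=
  split13 (m := w72) (by decide +kernel) (ch1416 hTd) (tp1389 hTd)
lemma tp1391 (hTd : TdOK) : Good 0 ![w84, w12, w34, w71, w188, w60] :=
  split12 (m := w47) (by decide +kernel) (tp1382 hTd) (tp1390 hTd)
lemma tp1392 (hTd : TdOK) : Good 0 ![w84, w12, w34, w71, w187, w60] :=
  split14 (m := w188) (by decide +kernel) (tp1373 hTd) (tp1391 hTd)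
lemma tp1393 (hTd : TdOK) : Good 0 ![w84, w12, w34, w71, w187, w58] :=
  split15 (m := w60) (by decide +kernel) (tp1367 hTd) (tp1392 hTd)
lemma tp1394 (hTd : TdOK) : Good 0 ![w83, w12, w34, w71, w187, w58] :=
  split02 (m := w84) (by decide +kernel) (tp1393 hTd) (ch1425 hTd)
lemma tp1395 (hTd : TdOK) : Good 0 ![w83, w12, w34, w33, w187, w58] :=
  split23 (m := w71) (by decide +kernel) (ch1392 hTd) (tp1394 hTd)
lemma tp1396 (hTd : TdOK) : Good 0 ![w83, w12, w34, w33, w187, w13] :=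
  split25 (m := w58) (by decide +kernel) (ch1391 hTd) (tp1395 hTd)
lemma tp1397 (hTd : TdOK) : Good 0 ![w83, w12, w34, w33, w179, w13] :=
  split24 (m := w187) (by decide +kernel) (ch1390 hTd) (tp1396 hTd)
lemma tp1398 (hTd : TdOK) : Good 0 ![w0, w12, w34, w33, w179, w13] :=
  split02 (m := w83) (by decide +kernel) (tp1397 hTd) (ch1426 hTd)
lemma tp1399 (hTd : TdOK) : Good 0 ![w0, w12, w34, w32, w179, w13] :=
  split03 (m := w33) (by decide +kernel) (tp1362 hTd) (tp1398 hTd)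
lemma tp1400 (hTd : TdOK) : Good 0 ![w0, w12, w34, w32, w176, w13] :=
  split04 (m := w179) (by decide +kernel) (tp1295 hTd) (tp1399 hTd)
lemma tp1401 (hTd : TdOK) : Good 0 ![w0, w12, w34, w32, w176, w5] :=
  split05 (m := w13) (by decide +kernel) (tp1252 hTd) (tp1400 hTd)
lemma tp1402 (hTd : TdOK) : Good 0 ![w96, w12, w97, w41, w200, w98] :=
  split12 (m := w99) (by decide +kernel) (ch1434 hTd) (ch1435 hTd)
lemma tp1403 (hTd : TdOK) : Good 0 ![w96, w12, w97, w41, w200, w95] :=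
  split15 (m := w98) (by decide +kernel) (ch1433 hTd) (tp1402 hTd)
lemma tp1404 (hTd : TdOK) : Good 0 ![w96, w12, w97, w37, w200, w95] :=
  split13 (m := w41) (by decide +kernel) (ch1432 hTd) (tp1403 hTd)
lemma tp1405 (hTd : TdOK) : Good 0 ![w100, w52, w34, w49, w202, w101] :=
  split23 (m := w54) (by decide +kernel) (ch1441 hTd) (ch1442 hTd)
lemma tp1406 (hTd : TdOK) : Good 0 ![w100, w52, w34, w49, w201, w101] :=
  split24 (m := w202) (by decide +kernel) (ch1440 hTd) (tp1405 hTd)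
lemma tp1407 (hTd : TdOK) : Good 0 ![w100, w47, w34, w49, w201, w101] :=
  split12 (m := w52) (by decide +kernel) (tp1406 hTd) (ch1443 hTd)
lemma tp1408 (hTd : TdOK) : Good 0 ![w100, w47, w34, w49, w201, w97] :=
  split25 (m := w101) (by decide +kernel) (ch1439 hTd) (tp1407 hTd)
lemma tp1409 (hTd : TdOK) : Good 0 ![w96, w47, w34, w49, w201, w97] :=
  split02 (m := w100) (by decide +kernel) (tp1408 hTd) (ch1444 hTd)
lemma tp1410 (hTd : TdOK) : Good 0 ![w96, w47, w34, w41, w201, w97] :=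
  split23 (m := w49) (by decide +kernel) (ch1438 hTd) (tp1409 hTd)
lemma tp1411 (hTd : TdOK) : Good 0 ![w96, w47, w34, w41, w200, w97] :=
  split24 (m := w201) (by decide +kernel) (ch1437 hTd) (tp1410 hTd)
lemma tp1412 (hTd : TdOK) : Good 0 ![w102, w57, w47, w56, w204, w99] :=
  split23 (m := w70) (by decide +kernel) (ch1449 hTd) (ch1450 hTd)
lemma tp1413 (hTd : TdOK) : Good 0 ![w102, w57, w47, w56, w203, w99] :=
  split24 (m := w204) (by decide +kernel) (ch1448 hTd) (tp1412 hTd)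
lemma tp1414 (hTd : TdOK) : Good 0 ![w102, w12, w47, w56, w203, w99] :=
  split12 (m := w57) (by decide +kernel) (tp1413 hTd) (ch1451 hTd)
lemma tp1415 (hTd : TdOK) : Good 0 ![w102, w12, w47, w41, w203, w99] :=
  split13 (m := w56) (by decide +kernel) (ch1447 hTd) (tp1414 hTd)
lemma tp1416 (hTd : TdOK) : Good 0 ![w96, w12, w47, w41, w203, w99] :=
  split01 (m := w102) (by decide +kernel) (tp1415 hTd) (ch1452 hTd)
lemma tp1417 (hTd : TdOK) : Good 0 ![w96, w12, w47, w41, w200, w99] :=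
  split14 (m := w203) (by decide +kernel) (ch1446 hTd) (tp1416 hTd)
lemma tp1418 (hTd : TdOK) : Good 0 ![w96, w12, w47, w41, w200, w97] :=
  split15 (m := w99) (by decide +kernel) (ch1445 hTd) (tp1417 hTd)
lemma tp1419 (hTd : TdOK) : Good 0 ![w96, w12, w34, w41, w200, w97] :=
  split12 (m := w47) (by decide +kernel) (tp1411 hTd) (tp1418 hTd)
lemma tp1420 (hTd : TdOK) : Good 0 ![w96, w12, w34, w37, w200, w97] :=
  split13 (m := w41) (by decide +kernel) (ch1436 hTd) (tp1419 hTd)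
lemma tp1421 (hTd : TdOK) : Good 0 ![w96, w12, w34, w37, w200, w95] :=
  split25 (m := w97) (by decide +kernel) (tp1404 hTd) (tp1420 hTd)
lemma tp1422 (hTd : TdOK) : Good 0 ![w94, w12, w34, w37, w200, w95] :=
  split01 (m := w96) (by decide +kernel) (tp1421 hTd) (ch1453 hTd)
lemma tp1423 (hTd : TdOK) : Good 0 ![w94, w12, w34, w37, w181, w95] :=
  split14 (m := w200) (by decide +kernel) (ch1431 hTd) (tp1422 hTd)
lemma tp1424 (hTd : TdOK) : Good 0 ![w94, w12, w34, w37, w181, w93] :=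
  split15 (m := w95) (by decide +kernel) (ch1430 hTd) (tp1423 hTd)
lemma tp1425 (hTd : TdOK) : Good 0 ![w94, w12, w34, w32, w181, w93] :=
  split13 (m := w37) (by decide +kernel) (ch1429 hTd) (tp1424 hTd)
lemma tp1426 (hTd : TdOK) : Good 0 ![w18, w12, w34, w32, w181, w93] :=
  split02 (m := w94) (by decide +kernel) (tp1425 hTd) (ch1454 hTd)
lemma tp1427 (hTd : TdOK) : Good 0 ![w18, w12, w34, w32, w177, w93] :=
  split14 (m := w181) (by decide +kernel) (ch1428 hTd) (tp1426 hTd)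
lemma tp1428 (hTd : TdOK) : Good 0 ![w18, w12, w34, w32, w177, w8] :=
  split15 (m := w93) (by decide +kernel) (ch1427 hTd) (tp1427 hTd)
lemma tp1429 (hTd : TdOK) : Good 0 ![w205, w96, w34, w37, w200, w94] :=
  split25 (m := w104) (by decide +kernel) (ch1459 hTd) (ch1460 hTd)
lemma tp1430 (hTd : TdOK) : Good 0 ![w207, w52, w34, w49, w202, w100] :=
  split23 (m := w54) (by decide +kernel) (ch1466 hTd) (ch1467 hTd)
lemma tp1431 (hTd : TdOK) : Good 0 ![w207, w52, w34, w49, w201, w100] :=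
  split24 (m := w202) (by decide +kernel) (ch1465 hTd) (tp1430 hTd)
lemma tp1432 (hTd : TdOK) : Good 0 ![w207, w47, w34, w49, w201, w100] :=
  split12 (m := w52) (by decide +kernel) (tp1431 hTd) (ch1468 hTd)
lemma tp1433 (hTd : TdOK) : Good 0 ![w206, w47, w34, w49, w201, w100] :=
  split02 (m := w207) (by decide +kernel) (tp1432 hTd) (ch1469 hTd)
lemma tp1434 (hTd : TdOK) : Good 0 ![w206, w47, w34, w49, w201, w96] :=
  split25 (m := w100) (by decide +kernel) (ch1464 hTd) (tp1433 hTd)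
lemma tp1435 (hTd : TdOK) : Good 0 ![w206, w47, w34, w41, w201, w96] :=
  split23 (m := w49) (by decide +kernel) (ch1463 hTd) (tp1434 hTd)
lemma tp1436 (hTd : TdOK) : Good 0 ![w206, w47, w34, w41, w200, w96] :=
  split24 (m := w201) (by decide +kernel) (ch1462 hTd) (tp1435 hTd)
lemma tp1437 (hTd : TdOK) : Good 0 ![w208, w57, w47, w56, w204, w102] :=
  split23 (m := w70) (by decide +kernel) (ch1474 hTd) (ch1475 hTd)
lemma tp1438 (hTd : TdOK) : Good 0 ![w208, w57, w47, w56, w203, w102] :=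
  split24 (m := w204) (by decide +kernel) (ch1473 hTd) (tp1437 hTd)
lemma tp1439 (hTd : TdOK) : Good 0 ![w208, w12, w47, w56, w203, w102] :=
  split12 (m := w57) (by decide +kernel) (tp1438 hTd) (ch1476 hTd)
lemma tp1440 (hTd : TdOK) : Good 0 ![w208, w12, w47, w41, w203, w102] :=
  split13 (m := w56) (by decide +kernel) (ch1472 hTd) (tp1439 hTd)
lemma tp1441 (hTd : TdOK) : Good 0 ![w206, w12, w47, w41, w203, w102] :=
  split01 (m := w208) (by decide +kernel) (tp1440 hTd) (ch1477 hTd)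
lemma tp1442 (hTd : TdOK) : Good 0 ![w206, w12, w47, w41, w203, w96] :=
  split15 (m := w102) (by decide +kernel) (ch1471 hTd) (tp1441 hTd)
lemma tp1443 (hTd : TdOK) : Good 0 ![w206, w12, w47, w41, w200, w96] :=
  split14 (m := w203) (by decide +kernel) (ch1470 hTd) (tp1442 hTd)
lemma tp1444 (hTd : TdOK) : Good 0 ![w206, w12, w34, w41, w200, w96] :=
  split12 (m := w47) (by decide +kernel) (tp1436 hTd) (tp1443 hTd)
lemma tp1445 (hTd : TdOK) : Good 0 ![w206, w12, w34, w37, w200, w96] :=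
  split13 (m := w41) (by decide +kernel) (ch1461 hTd) (tp1444 hTd)
lemma tp1446 (hTd : TdOK) : Good 0 ![w205, w206, w34, w191, w200, w96] :=
  split24 (m := w201) (by decide +kernel) (ch1479 hTd) (ch1480 hTd)
lemma tp1447 (hTd : TdOK) : Good 0 ![w205, w206, w34, w37, w200, w96] :=
  split23 (m := w191) (by decide +kernel) (ch1478 hTd) (tp1446 hTd)
lemma tp1448 (hTd : TdOK) : Good 0 ![w205, w12, w34, w37, w200, w96] :=
  split01 (m := w206) (by decide +kernel) (tp1445 hTd) (tp1447 hTd)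
lemma tp1449 (hTd : TdOK) : Good 0 ![w205, w12, w34, w37, w200, w94] :=
  split15 (m := w96) (by decide +kernel) (tp1429 hTd) (tp1448 hTd)
lemma tp1450 (hTd : TdOK) : Good 0 ![w205, w12, w34, w37, w181, w94] :=
  split14 (m := w200) (by decide +kernel) (ch1458 hTd) (tp1449 hTd)
lemma tp1451 (hTd : TdOK) : Good 0 ![w180, w12, w34, w37, w181, w94] :=
  split02 (m := w205) (by decide +kernel) (tp1450 hTd) (ch1481 hTd)
lemma tp1452 (hTd : TdOK) : Good 0 ![w180, w12, w34, w32, w181, w94] :=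
  split13 (m := w37) (by decide +kernel) (ch1457 hTd) (tp1451 hTd)
lemma tp1453 (hTd : TdOK) : Good 0 ![w180, w12, w34, w32, w181, w18] :=
  split25 (m := w94) (by decide +kernel) (ch1456 hTd) (tp1452 hTd)
lemma tp1454 (hTd : TdOK) : Good 0 ![w180, w12, w34, w32, w177, w18] :=
  split14 (m := w181) (by decide +kernel) (ch1455 hTd) (tp1453 hTd)
lemma tp1455 (hTd : TdOK) : Good 0 ![w77, w207, w34, w210, w209, w100] :=
  split24 (m := w211) (by decide +kernel) (ch1490 hTd) (ch1491 hTd)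
lemma tp1456 (hTd : TdOK) : Good 0 ![w77, w207, w34, w191, w209, w100] :=
  split23 (m := w210) (by decide +kernel) (ch1489 hTd) (tp1455 hTd)
lemma tp1457 (hTd : TdOK) : Good 0 ![w71, w207, w34, w191, w209, w100] :=
  split02 (m := w77) (by decide +kernel) (tp1456 hTd) (ch1492 hTd)
lemma tp1458 (hTd : TdOK) : Good 0 ![w71, w206, w34, w191, w209, w100] :=
  split12 (m := w207) (by decide +kernel) (tp1457 hTd) (ch1493 hTd)
lemma tp1459 (hTd : TdOK) : Good 0 ![w71, w206, w34, w191, w209, w96] :=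
  split25 (m := w100) (by decide +kernel) (ch1488 hTd) (tp1458 hTd)
lemma tp1460 (hTd : TdOK) : Good 0 ![w71, w206, w34, w191, w205, w96] :=
  split24 (m := w209) (by decide +kernel) (ch1487 hTd) (tp1459 hTd)
lemma tp1461 (hTd : TdOK) : Good 0 ![w71, w206, w34, w37, w205, w96] :=
  split23 (m := w191) (by decide +kernel) (ch1486 hTd) (tp1460 hTd)
lemma tp1462 (hTd : TdOK) : Good 0 ![w77, w49, w34, w210, w207, w100] :=
  split12 (m := w54) (by decide +kernel) (ch1498 hTd) (ch1499 hTd)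
lemma tp1463 (hTd : TdOK) : Good 0 ![w77, w49, w34, w191, w207, w100] :=
  split23 (m := w210) (by decide +kernel) (ch1497 hTd) (tp1462 hTd)
lemma tp1464 (hTd : TdOK) : Good 0 ![w77, w49, w34, w191, w206, w100] :=
  split24 (m := w207) (by decide +kernel) (ch1496 hTd) (tp1463 hTd)
lemma tp1465 (hTd : TdOK) : Good 0 ![w71, w49, w34, w191, w206, w100] :=
  split02 (m := w77) (by decide +kernel) (tp1464 hTd) (ch1500 hTd)
lemma tp1466 (hTd : TdOK) : Good 0 ![w71, w41, w34, w191, w206, w100] :=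
  split12 (m := w49) (by decide +kernel) (tp1465 hTd) (ch1501 hTd)
lemma tp1467 (hTd : TdOK) : Good 0 ![w71, w41, w34, w191, w206, w96] :=
  split25 (m := w100) (by decide +kernel) (ch1495 hTd) (tp1466 hTd)
lemma tp1468 (hTd : TdOK) : Good 0 ![w71, w41, w34, w37, w206, w96] :=
  split23 (m := w191) (by decide +kernel) (ch1494 hTd) (tp1467 hTd)
lemma tp1469 (hTd : TdOK) : Good 0 ![w73, w52, w34, w54, w207, w103] :=
  split24 (m := w212) (by decide +kernel) (ch1507 hTd) (ch1508 hTd)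
lemma tp1470 (hTd : TdOK) : Good 0 ![w73, w52, w34, w54, w207, w100] :=
  split25 (m := w103) (by decide +kernel) (ch1506 hTd) (tp1469 hTd)
lemma tp1471 (hTd : TdOK) : Good 0 ![w73, w52, w34, w49, w207, w100] :=
  split23 (m := w54) (by decide +kernel) (ch1505 hTd) (tp1470 hTd)
lemma tp1472 (hTd : TdOK) : Good 0 ![w73, w47, w34, w49, w207, w100] :=
  split12 (m := w52) (by decide +kernel) (tp1471 hTd) (ch1509 hTd)
lemma tp1473 (hTd : TdOK) : Good 0 ![w72, w47, w34, w49, w207, w100] :=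
  split02 (m := w73) (by decide +kernel) (tp1472 hTd) (ch1510 hTd)
lemma tp1474 (hTd : TdOK) : Good 0 ![w72, w47, w34, w49, w206, w100] :=
  split24 (m := w207) (by decide +kernel) (ch1504 hTd) (tp1473 hTd)
lemma tp1475 (hTd : TdOK) : Good 0 ![w72, w47, w34, w49, w206, w96] :=
  split25 (m := w100) (by decide +kernel) (ch1503 hTd) (tp1474 hTd)
lemma tp1476 (hTd : TdOK) : Good 0 ![w72, w47, w34, w41, w206, w96] :=
  split23 (m := w49) (by decide +kernel) (ch1502 hTd) (tp1475 hTd)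
lemma tp1477 (hTd : TdOK) : Good 0 ![w76, w57, w47, w70, w208, w102] :=
  split25 (m := w105) (by decide +kernel) (ch1515 hTd) (ch1516 hTd)
lemma tp1478 (hTd : TdOK) : Good 0 ![w76, w57, w47, w56, w208, w102] :=
  split23 (m := w70) (by decide +kernel) (ch1514 hTd) (tp1477 hTd)
lemma tp1479 (hTd : TdOK) : Good 0 ![w76, w12, w47, w56, w208, w102] :=
  split12 (m := w57) (by decide +kernel) (tp1478 hTd) (ch1517 hTd)
lemma tp1480 (hTd : TdOK) : Good 0 ![w76, w12, w47, w41, w208, w102] :=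
  split13 (m := w56) (by decide +kernel) (ch1513 hTd) (tp1479 hTd)
lemma tp1481 (hTd : TdOK) : Good 0 ![w72, w12, w47, w41, w208, w102] :=
  split01 (m := w76) (by decide +kernel) (tp1480 hTd) (ch1518 hTd)
lemma tp1482 (hTd : TdOK) : Good 0 ![w72, w12, w47, w41, w206, w102] :=
  split14 (m := w208) (by decide +kernel) (ch1512 hTd) (tp1481 hTd)
lemma tp1483 (hTd : TdOK) : Good 0 ![w72, w12, w47, w41, w206, w96] :=
  split15 (m := w102) (by decide +kernel) (ch1511 hTd) (tp1482 hTd)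
lemma tp1484 (hTd : TdOK) : Good 0 ![w72, w12, w34, w41, w206, w96] :=
  split12 (m := w47) (by decide +kernel) (tp1476 hTd) (tp1483 hTd)
lemma tp1485 (hTd : TdOK) : Good 0 ![w77, w73, w34, w54, w207, w100] :=
  split25 (m := w103) (by decide +kernel) (ch1523 hTd) (ch1524 hTd)
lemma tp1486 (hTd : TdOK) : Good 0 ![w77, w73, w34, w49, w207, w100] :=
  split23 (m := w54) (by decide +kernel) (ch1522 hTd) (tp1485 hTd)
lemma tp1487 (hTd : TdOK) : Good 0 ![w77, w72, w34, w49, w207, w100] :=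
  split12 (m := w73) (by decide +kernel) (tp1486 hTd) (ch1525 hTd)
lemma tp1488 (hTd : TdOK) : Good 0 ![w77, w72, w34, w49, w206, w100] :=
  split24 (m := w207) (by decide +kernel) (ch1521 hTd) (tp1487 hTd)
lemma tp1489 (hTd : TdOK) : Good 0 ![w71, w72, w34, w49, w206, w100] :=
  split02 (m := w77) (by decide +kernel) (tp1488 hTd) (ch1526 hTd)
lemma tp1490 (hTd : TdOK) : Good 0 ![w71, w72, w34, w41, w206, w100] :=
  split23 (m := w49) (by decide +kernel) (ch1520 hTd) (tp1489 hTd)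
lemma tp1491 (hTd : TdOK) : Good 0 ![w71, w72, w34, w41, w206, w96] :=
  split25 (m := w100) (by decide +kernel) (ch1519 hTd) (tp1490 hTd)
lemma tp1492 (hTd : TdOK) : Good 0 ![w71, w12, w34, w41, w206, w96] :=
  split01 (m := w72) (by decide +kernel) (tp1484 hTd) (tp1491 hTd)
lemma tp1493 (hTd : TdOK) : Good 0 ![w71, w12, w34, w37, w206, w96] :=
  split13 (m := w41) (by decide +kernel) (tp1468 hTd) (tp1492 hTd)
lemma tp1494 (hTd : TdOK) : Good 0 ![w71, w12, w34, w37, w205, w96] :=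
  split14 (m := w206) (by decide +kernel) (tp1461 hTd) (tp1493 hTd)
lemma tp1495 (hTd : TdOK) : Good 0 ![w71, w12, w34, w37, w205, w94] :=
  split15 (m := w96) (by decide +kernel) (ch1485 hTd) (tp1494 hTd)
lemma tp1496 (hTd : TdOK) : Good 0 ![w33, w12, w34, w37, w205, w94] :=
  split02 (m := w71) (by decide +kernel) (tp1495 hTd) (ch1527 hTd)
lemma tp1497 (hTd : TdOK) : Good 0 ![w33, w12, w34, w37, w180, w94] :=
  split24 (m := w205) (by decide +kernel) (ch1484 hTd) (tp1496 hTd)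
lemma tp1498 (hTd : TdOK) : Good 0 ![w33, w12, w34, w32, w180, w94] :=
  split13 (m := w37) (by decide +kernel) (ch1483 hTd) (tp1497 hTd)
lemma tp1499 (hTd : TdOK) : Good 0 ![w33, w12, w34, w32, w180, w18] :=
  split25 (m := w94) (by decide +kernel) (ch1482 hTd) (tp1498 hTd)
lemma tp1500 (hTd : TdOK) : Good 0 ![w84, w96, w34, w71, w209, w104] :=
  split12 (m := w100) (by decide +kernel) (ch1533 hTd) (ch1534 hTd)
lemma tp1501 (hTd : TdOK) : Good 0 ![w84, w96, w34, w71, w205, w104] :=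
  split24 (m := w209) (by decide +kernel) (ch1532 hTd) (tp1500 hTd)
lemma tp1502 (hTd : TdOK) : Good 0 ![w84, w96, w34, w71, w205, w94] :=
  split25 (m := w104) (by decide +kernel) (ch1531 hTd) (tp1501 hTd)
lemma tp1503 (hTd : TdOK) : Good 0 ![w87, w207, w34, w77, w209, w100] :=
  split24 (m := w211) (by decide +kernel) (ch1538 hTd) (ch1539 hTd)
lemma tp1504 (hTd : TdOK) : Good 0 ![w84, w207, w34, w77, w209, w100] :=
  split02 (m := w87) (by decide +kernel) (tp1503 hTd) (ch1540 hTd)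
lemma tp1505 (hTd : TdOK) : Good 0 ![w84, w207, w34, w71, w209, w100] :=
  split23 (m := w77) (by decide +kernel) (ch1537 hTd) (tp1504 hTd)
lemma tp1506 (hTd : TdOK) : Good 0 ![w84, w206, w34, w71, w209, w100] :=
  split12 (m := w207) (by decide +kernel) (tp1505 hTd) (ch1541 hTd)
lemma tp1507 (hTd : TdOK) : Good 0 ![w84, w206, w34, w71, w209, w96] :=
  split25 (m := w100) (by decide +kernel) (ch1536 hTd) (tp1506 hTd)
lemma tp1508 (hTd : TdOK) : Good 0 ![w84, w206, w34, w71, w205, w96] :=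
  split24 (m := w209) (by decide +kernel) (ch1535 hTd) (tp1507 hTd)
lemma tp1509 (hTd : TdOK) : Good 0 ![w87, w52, w34, w77, w207, w103] :=
  split24 (m := w212) (by decide +kernel) (ch1546 hTd) (ch1547 hTd)
lemma tp1510 (hTd : TdOK) : Good 0 ![w87, w52, w34, w77, w207, w100] :=
  split25 (m := w103) (by decide +kernel) (ch1545 hTd) (tp1509 hTd)
lemma tp1511 (hTd : TdOK) : Good 0 ![w87, w47, w52, w77, w207, w100] :=
  split13 (m := w73) (by decide +kernel) (ch1548 hTd) (ch1549 hTd)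
lemma tp1512 (hTd : TdOK) : Good 0 ![w87, w47, w34, w77, w207, w100] :=
  split12 (m := w52) (by decide +kernel) (tp1510 hTd) (tp1511 hTd)
lemma tp1513 (hTd : TdOK) : Good 0 ![w84, w47, w34, w77, w207, w100] :=
  split02 (m := w87) (by decide +kernel) (tp1512 hTd) (ch1550 hTd)
lemma tp1514 (hTd : TdOK) : Good 0 ![w84, w47, w34, w77, w206, w100] :=
  split24 (m := w207) (by decide +kernel) (ch1544 hTd) (tp1513 hTd)
lemma tp1515 (hTd : TdOK) : Good 0 ![w84, w47, w34, w71, w206, w100] :=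
  split23 (m := w77) (by decide +kernel) (ch1543 hTd) (tp1514 hTd)
lemma tp1516 (hTd : TdOK) : Good 0 ![w84, w47, w34, w71, w206, w96] :=
  split25 (m := w100) (by decide +kernel) (ch1542 hTd) (tp1515 hTd)
lemma tp1517 (hTd : TdOK) : Good 0 ![w91, w57, w47, w76, w208, w102] :=
  split25 (m := w105) (by decide +kernel) (ch1555 hTd) (ch1556 hTd)
lemma tp1518 (hTd : TdOK) : Good 0 ![w91, w12, w47, w76, w208, w102] :=
  split12 (m := w57) (by decide +kernel) (tp1517 hTd) (ch1557 hTd)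
lemma tp1519 (hTd : TdOK) : Good 0 ![w90, w12, w47, w76, w208, w102] :=
  split01 (m := w91) (by decide +kernel) (tp1518 hTd) (ch1558 hTd)
lemma tp1520 (hTd : TdOK) : Good 0 ![w90, w12, w47, w72, w208, w102] :=
  split13 (m := w76) (by decide +kernel) (ch1554 hTd) (tp1519 hTd)
lemma tp1521 (hTd : TdOK) : Good 0 ![w90, w12, w47, w72, w206, w102] :=
  split14 (m := w208) (by decide +kernel) (ch1553 hTd) (tp1520 hTd)
lemma tp1522 (hTd : TdOK) : Good 0 ![w90, w12, w47, w72, w206, w96] :=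
  split15 (m := w102) (by decide +kernel) (ch1552 hTd) (tp1521 hTd)
lemma tp1523 (hTd : TdOK) : Good 0 ![w84, w12, w47, w72, w206, w96] :=
  split01 (m := w90) (by decide +kernel) (tp1522 hTd) (ch1559 hTd)
lemma tp1524 (hTd : TdOK) : Good 0 ![w84, w12, w47, w71, w206, w96] :=
  split13 (m := w72) (by decide +kernel) (ch1551 hTd) (tp1523 hTd)
lemma tp1525 (hTd : TdOK) : Good 0 ![w84, w12, w34, w71, w206, w96] :=
  split12 (m := w47) (by decide +kernel) (tp1516 hTd) (tp1524 hTd)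
lemma tp1526 (hTd : TdOK) : Good 0 ![w84, w12, w34, w71, w205, w96] :=
  split14 (m := w206) (by decide +kernel) (tp1508 hTd) (tp1525 hTd)
lemma tp1527 (hTd : TdOK) : Good 0 ![w84, w12, w34, w71, w205, w94] :=
  split15 (m := w96) (by decide +kernel) (tp1502 hTd) (tp1526 hTd)
lemma tp1528 (hTd : TdOK) : Good 0 ![w83, w12, w34, w71, w205, w94] :=
  split02 (m := w84) (by decide +kernel) (tp1527 hTd) (ch1560 hTd)
lemma tp1529 (hTd : TdOK) : Good 0 ![w83, w12, w34, w33, w205, w94] :=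
  split23 (m := w71) (by decide +kernel) (ch1530 hTd) (tp1528 hTd)
lemma tp1530 (hTd : TdOK) : Good 0 ![w83, w12, w34, w33, w180, w94] :=
  split24 (m := w205) (by decide +kernel) (ch1529 hTd) (tp1529 hTd)
lemma tp1531 (hTd : TdOK) : Good 0 ![w83, w12, w34, w33, w180, w18] :=
  split25 (m := w94) (by decide +kernel) (ch1528 hTd) (tp1530 hTd)
lemma tp1532 (hTd : TdOK) : Good 0 ![w0, w12, w34, w33, w180, w18] :=
  split02 (m := w83) (by decide +kernel) (tp1531 hTd) (ch1561 hTd)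
lemma tp1533 (hTd : TdOK) : Good 0 ![w0, w12, w34, w32, w180, w18] :=
  split03 (m := w33) (by decide +kernel) (tp1499 hTd) (tp1532 hTd)
lemma tp1534 (hTd : TdOK) : Good 0 ![w0, w12, w34, w32, w177, w18] :=
  split04 (m := w180) (by decide +kernel) (tp1454 hTd) (tp1533 hTd)
lemma tp1535 (hTd : TdOK) : Good 0 ![w0, w12, w34, w32, w177, w8] :=
  split05 (m := w18) (by decide +kernel) (tp1428 hTd) (tp1534 hTd)
lemma tp1536 (hTd : TdOK) : Good 0 ![w220, w52, w34, w219, w183, w50] :=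
  split24 (m := w184) (by decide +kernel) (ch1572 hTd) (ch1573 hTd)
lemma tp1537 (hTd : TdOK) : Good 0 ![w218, w52, w34, w219, w183, w50] :=
  split02 (m := w220) (by decide +kernel) (tp1536 hTd) (ch1574 hTd)
lemma tp1538 (hTd : TdOK) : Good 0 ![w218, w47, w52, w219, w183, w50] :=
  split01 (m := w221) (by decide +kernel) (ch1575 hTd) (ch1576 hTd)
lemma tp1539 (hTd : TdOK) : Good 0 ![w218, w47, w34, w219, w183, w50] :=
  split12 (m := w52) (by decide +kernel) (tp1537 hTd) (tp1538 hTd)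
lemma tp1540 (hTd : TdOK) : Good 0 ![w218, w47, w34, w219, w183, w44] :=
  split25 (m := w50) (by decide +kernel) (ch1571 hTd) (tp1539 hTd)
lemma tp1541 (hTd : TdOK) : Good 0 ![w218, w47, w34, w217, w183, w44] :=
  split23 (m := w219) (by decide +kernel) (ch1570 hTd) (tp1540 hTd)
lemma tp1542 (hTd : TdOK) : Good 0 ![w218, w47, w34, w217, w182, w44] :=
  split24 (m := w183) (by decide +kernel) (ch1569 hTd) (tp1541 hTd)
lemma tp1543 (hTd : TdOK) : Good 0 ![w218, w47, w34, w217, w182, w40] :=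
  split25 (m := w44) (by decide +kernel) (ch1568 hTd) (tp1542 hTd)
lemma tp1544 (hTd : TdOK) : Good 0 ![w216, w47, w34, w217, w182, w40] :=
  split02 (m := w218) (by decide +kernel) (tp1543 hTd) (ch1577 hTd)
lemma tp1545 (hTd : TdOK) : Good 0 ![w223, w224, w47, w217, w185, w43] :=
  split23 (m := w225) (by decide +kernel) (ch1580 hTd) (ch1581 hTd)
lemma tp1546 (hTd : TdOK) : Good 0 ![w222, w224, w47, w217, w185, w43] :=
  split02 (m := w223) (by decide +kernel) (tp1545 hTd) (ch1582 hTd)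
lemma tp1547 (hTd : TdOK) : Good 0 ![w223, w57, w47, w224, w186, w45] :=
  split23 (m := w226) (by decide +kernel) (ch1585 hTd) (ch1586 hTd)
lemma tp1548 (hTd : TdOK) : Good 0 ![w223, w57, w47, w224, w185, w45] :=
  split24 (m := w186) (by decide +kernel) (ch1584 hTd) (tp1547 hTd)
lemma tp1549 (hTd : TdOK) : Good 0 ![w223, w227, w57, w224, w228, w45] :=
  split35 (m := w229) (by decide +kernel) (ch1589 hTd) (ch1590 hTd)
lemma tp1550 (hTd : TdOK) : Good 0 ![w223, w227, w57, w224, w185, w45] :=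
  split24 (m := w228) (by decide +kernel) (ch1588 hTd) (tp1549 hTd)
lemma tp1551 (hTd : TdOK) : Good 0 ![w223, w12, w57, w224, w185, w45] :=
  split01 (m := w227) (by decide +kernel) (ch1587 hTd) (tp1550 hTd)
lemma tp1552 (hTd : TdOK) : Good 0 ![w223, w12, w47, w224, w185, w45] :=
  split12 (m := w57) (by decide +kernel) (tp1548 hTd) (tp1551 hTd)
lemma tp1553 (hTd : TdOK) : Good 0 ![w223, w12, w47, w224, w185, w43] :=
  split25 (m := w45) (by decide +kernel) (ch1583 hTd) (tp1552 hTd)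
lemma tp1554 (hTd : TdOK) : Good 0 ![w222, w12, w223, w224, w185, w43] :=
  split01 (m := w230) (by decide +kernel) (ch1591 hTd) (ch1592 hTd)
lemma tp1555 (hTd : TdOK) : Good 0 ![w222, w12, w47, w224, w185, w43] :=
  split02 (m := w223) (by decide +kernel) (tp1553 hTd) (tp1554 hTd)
lemma tp1556 (hTd : TdOK) : Good 0 ![w222, w12, w47, w217, w185, w43] :=
  split13 (m := w224) (by decide +kernel) (tp1546 hTd) (tp1555 hTd)
lemma tp1557 (hTd : TdOK) : Good 0 ![w222, w12, w47, w217, w182, w43] :=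
  split14 (m := w185) (by decide +kernel) (ch1579 hTd) (tp1556 hTd)
lemma tp1558 (hTd : TdOK) : Good 0 ![w222, w12, w47, w217, w182, w40] :=
  split15 (m := w43) (by decide +kernel) (ch1578 hTd) (tp1557 hTd)
lemma tp1559 (hTd : TdOK) : Good 0 ![w216, w12, w47, w217, w182, w40] :=
  split01 (m := w222) (by decide +kernel) (tp1558 hTd) (ch1593 hTd)
lemma tp1560 (hTd : TdOK) : Good 0 ![w216, w12, w34, w217, w182, w40] :=
  split12 (m := w47) (by decide +kernel) (tp1544 hTd) (tp1559 hTd)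
lemma tp1561 (hTd : TdOK) : Good 0 ![w216, w12, w34, w215, w182, w40] :=
  split13 (m := w217) (by decide +kernel) (ch1567 hTd) (tp1560 hTd)
lemma tp1562 (hTd : TdOK) : Good 0 ![w216, w12, w34, w215, w182, w35] :=
  split15 (m := w40) (by decide +kernel) (ch1566 hTd) (tp1561 hTd)
lemma tp1563 (hTd : TdOK) : Good 0 ![w216, w12, w34, w215, w178, w35] :=
  split14 (m := w182) (by decide +kernel) (ch1565 hTd) (tp1562 hTd)
lemma tp1564 (hTd : TdOK) : Good 0 ![w214, w12, w34, w215, w178, w35] :=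
  split01 (m := w216) (by decide +kernel) (tp1563 hTd) (ch1594 hTd)
lemma tp1565 (hTd : TdOK) : Good 0 ![w214, w12, w34, w213, w178, w35] :=
  split13 (m := w215) (by decide +kernel) (ch1564 hTd) (tp1564 hTd)
lemma tp1566 (hTd : TdOK) : Good 0 ![w62, w47, w34, w218, w183, w50] :=
  split12 (m := w52) (by decide +kernel) (ch1602 hTd) (ch1603 hTd)
lemma tp1567 (hTd : TdOK) : Good 0 ![w62, w47, w34, w218, w183, w44] :=
  split25 (m := w50) (by decide +kernel) (ch1601 hTd) (tp1566 hTd)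
lemma tp1568 (hTd : TdOK) : Good 0 ![w60, w47, w34, w218, w183, w44] :=
  split02 (m := w62) (by decide +kernel) (tp1567 hTd) (ch1604 hTd)
lemma tp1569 (hTd : TdOK) : Good 0 ![w60, w47, w34, w218, w182, w44] :=
  split24 (m := w183) (by decide +kernel) (ch1600 hTd) (tp1568 hTd)
lemma tp1570 (hTd : TdOK) : Good 0 ![w60, w47, w34, w218, w182, w40] :=
  split25 (m := w44) (by decide +kernel) (ch1599 hTd) (tp1569 hTd)
lemma tp1571 (hTd : TdOK) : Good 0 ![w60, w47, w34, w216, w182, w40] :=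
  split23 (m := w218) (by decide +kernel) (ch1598 hTd) (tp1570 hTd)
lemma tp1572 (hTd : TdOK) : Good 0 ![w64, w57, w47, w223, w185, w45] :=
  split24 (m := w186) (by decide +kernel) (ch1610 hTd) (ch1611 hTd)
lemma tp1573 (hTd : TdOK) : Good 0 ![w64, w12, w57, w223, w185, w45] :=
  split13 (m := w227) (by decide +kernel) (ch1612 hTd) (ch1613 hTd)
lemma tp1574 (hTd : TdOK) : Good 0 ![w64, w12, w47, w223, w185, w45] :=
  split12 (m := w57) (by decide +kernel) (tp1572 hTd) (tp1573 hTd)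
lemma tp1575 (hTd : TdOK) : Good 0 ![w64, w12, w47, w223, w185, w43] :=
  split25 (m := w45) (by decide +kernel) (ch1609 hTd) (tp1574 hTd)
lemma tp1576 (hTd : TdOK) : Good 0 ![w64, w12, w47, w222, w185, w43] :=
  split23 (m := w223) (by decide +kernel) (ch1608 hTd) (tp1575 hTd)
lemma tp1577 (hTd : TdOK) : Good 0 ![w60, w12, w47, w222, w185, w43] :=
  split01 (m := w64) (by decide +kernel) (tp1576 hTd) (ch1614 hTd)
lemma tp1578 (hTd : TdOK) : Good 0 ![w60, w12, w47, w222, w182, w43] :=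
  split14 (m := w185) (by decide +kernel) (ch1607 hTd) (tp1577 hTd)
lemma tp1579 (hTd : TdOK) : Good 0 ![w60, w12, w47, w222, w182, w40] :=
  split15 (m := w43) (by decide +kernel) (ch1606 hTd) (tp1578 hTd)
lemma tp1580 (hTd : TdOK) : Good 0 ![w60, w12, w47, w216, w182, w40] :=
  split13 (m := w222) (by decide +kernel) (ch1605 hTd) (tp1579 hTd)
lemma tp1581 (hTd : TdOK) : Good 0 ![w60, w12, w34, w216, w182, w40] :=
  split12 (m := w47) (by decide +kernel) (tp1571 hTd) (tp1580 hTd)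
lemma tp1582 (hTd : TdOK) : Good 0 ![w58, w12, w34, w216, w182, w40] :=
  split01 (m := w60) (by decide +kernel) (tp1581 hTd) (ch1615 hTd)
lemma tp1583 (hTd : TdOK) : Good 0 ![w58, w12, w34, w216, w182, w35] :=
  split15 (m := w40) (by decide +kernel) (ch1597 hTd) (tp1582 hTd)
lemma tp1584 (hTd : TdOK) : Good 0 ![w58, w12, w34, w216, w178, w35] :=
  split14 (m := w182) (by decide +kernel) (ch1596 hTd) (tp1583 hTd)
lemma tp1585 (hTd : TdOK) : Good 0 ![w58, w12, w34, w214, w178, w35] :=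
  split13 (m := w216) (by decide +kernel) (ch1595 hTd) (tp1584 hTd)
lemma tp1586 (hTd : TdOK) : Good 0 ![w13, w12, w34, w214, w178, w35] :=
  split02 (m := w58) (by decide +kernel) (tp1585 hTd) (ch1616 hTd)
lemma tp1587 (hTd : TdOK) : Good 0 ![w13, w12, w34, w213, w178, w35] :=
  split03 (m := w214) (by decide +kernel) (tp1565 hTd) (tp1586 hTd)
lemma tp1588 (hTd : TdOK) : Good 0 ![w13, w12, w34, w213, w178, w5] :=
  split15 (m := w35) (by decide +kernel) (ch1563 hTd) (tp1587 hTd)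
lemma tp1589 (hTd : TdOK) : Good 0 ![w13, w12, w34, w213, w176, w5] :=
  split14 (m := w178) (by decide +kernel) (ch1562 hTd) (tp1588 hTd)
lemma tp1590 (hTd : TdOK) : Good 0 ![w188, w12, w218, w222, w182, w60] :=
  split12 (m := w223) (by decide +kernel) (ch1623 hTd) (ch1624 hTd)
lemma tp1591 (hTd : TdOK) : Good 0 ![w188, w12, w218, w216, w182, w60] :=
  split13 (m := w222) (by decide +kernel) (ch1622 hTd) (tp1590 hTd)
lemma tp1592 (hTd : TdOK) : Good 0 ![w189, w52, w34, w218, w183, w62] :=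
  split23 (m := w220) (by decide +kernel) (ch1627 hTd) (ch1628 hTd)
lemma tp1593 (hTd : TdOK) : Good 0 ![w189, w47, w34, w218, w183, w62] :=
  split12 (m := w52) (by decide +kernel) (tp1592 hTd) (ch1629 hTd)
lemma tp1594 (hTd : TdOK) : Good 0 ![w188, w47, w34, w218, w183, w62] :=
  split02 (m := w189) (by decide +kernel) (tp1593 hTd) (ch1630 hTd)
lemma tp1595 (hTd : TdOK) : Good 0 ![w188, w47, w34, w218, w183, w60] :=
  split25 (m := w62) (by decide +kernel) (ch1626 hTd) (tp1594 hTd)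
lemma tp1596 (hTd : TdOK) : Good 0 ![w188, w47, w34, w218, w182, w60] :=
  split24 (m := w183) (by decide +kernel) (ch1625 hTd) (tp1595 hTd)
lemma tp1597 (hTd : TdOK) : Good 0 ![w190, w57, w47, w223, w185, w64] :=
  split24 (m := w186) (by decide +kernel) (ch1634 hTd) (ch1635 hTd)
lemma tp1598 (hTd : TdOK) : Good 0 ![w190, w12, w47, w223, w185, w64] :=
  split12 (m := w57) (by decide +kernel) (tp1597 hTd) (ch1636 hTd)
lemma tp1599 (hTd : TdOK) : Good 0 ![w188, w12, w47, w223, w185, w64] :=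
  split01 (m := w190) (by decide +kernel) (tp1598 hTd) (ch1637 hTd)
lemma tp1600 (hTd : TdOK) : Good 0 ![w188, w12, w47, w223, w185, w60] :=
  split15 (m := w64) (by decide +kernel) (ch1633 hTd) (tp1599 hTd)
lemma tp1601 (hTd : TdOK) : Good 0 ![w188, w12, w47, w223, w182, w60] :=
  split14 (m := w185) (by decide +kernel) (ch1632 hTd) (tp1600 hTd)
lemma tp1602 (hTd : TdOK) : Good 0 ![w188, w12, w47, w218, w182, w60] :=
  split13 (m := w223) (by decide +kernel) (ch1631 hTd) (tp1601 hTd)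
lemma tp1603 (hTd : TdOK) : Good 0 ![w188, w12, w34, w218, w182, w60] :=
  split12 (m := w47) (by decide +kernel) (tp1596 hTd) (tp1602 hTd)
lemma tp1604 (hTd : TdOK) : Good 0 ![w188, w12, w34, w216, w182, w60] :=
  split23 (m := w218) (by decide +kernel) (tp1591 hTd) (tp1603 hTd)
lemma tp1605 (hTd : TdOK) : Good 0 ![w187, w12, w34, w216, w182, w60] :=
  split01 (m := w188) (by decide +kernel) (tp1604 hTd) (ch1638 hTd)
lemma tp1606 (hTd : TdOK) : Good 0 ![w187, w12, w34, w216, w182, w58] :=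
  split15 (m := w60) (by decide +kernel) (ch1621 hTd) (tp1605 hTd)
lemma tp1607 (hTd : TdOK) : Good 0 ![w187, w12, w34, w216, w178, w58] :=
  split14 (m := w182) (by decide +kernel) (ch1620 hTd) (tp1606 hTd)
lemma tp1608 (hTd : TdOK) : Good 0 ![w187, w12, w34, w214, w178, w58] :=
  split13 (m := w216) (by decide +kernel) (ch1619 hTd) (tp1607 hTd)
lemma tp1609 (hTd : TdOK) : Good 0 ![w187, w12, w34, w214, w178, w13] :=
  split25 (m := w58) (by decide +kernel) (ch1618 hTd) (tp1608 hTd)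
lemma tp1610 (hTd : TdOK) : Good 0 ![w179, w12, w34, w214, w178, w13] :=
  split02 (m := w187) (by decide +kernel) (tp1609 hTd) (ch1639 hTd)
lemma tp1611 (hTd : TdOK) : Good 0 ![w188, w217, w34, w215, w182, w218] :=
  split23 (m := w231) (by decide +kernel) (ch1644 hTd) (ch1645 hTd)
lemma tp1612 (hTd : TdOK) : Good 0 ![w188, w217, w34, w215, w182, w216] :=
  split25 (m := w218) (by decide +kernel) (ch1643 hTd) (tp1611 hTd)
lemma tp1613 (hTd : TdOK) : Good 0 ![w188, w47, w183, w217, w232, w218] :=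
  split13 (m := w225) (by decide +kernel) (ch1648 hTd) (ch1649 hTd)
lemma tp1614 (hTd : TdOK) : Good 0 ![w188, w47, w183, w217, w182, w218] :=
  split14 (m := w232) (by decide +kernel) (ch1647 hTd) (tp1613 hTd)
lemma tp1615 (hTd : TdOK) : Good 0 ![w189, w52, w34, w219, w184, w220] :=
  split23 (m := w233) (by decide +kernel) (ch1653 hTd) (ch1654 hTd)
lemma tp1616 (hTd : TdOK) : Good 0 ![w189, w52, w34, w219, w183, w220] :=
  split24 (m := w184) (by decide +kernel) (ch1652 hTd) (tp1615 hTd)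
lemma tp1617 (hTd : TdOK) : Good 0 ![w189, w52, w34, w219, w183, w218] :=
  split25 (m := w220) (by decide +kernel) (ch1651 hTd) (tp1616 hTd)
lemma tp1618 (hTd : TdOK) : Good 0 ![w189, w47, w34, w219, w183, w218] :=
  split12 (m := w52) (by decide +kernel) (tp1617 hTd) (ch1655 hTd)
lemma tp1619 (hTd : TdOK) : Good 0 ![w188, w47, w34, w219, w183, w218] :=
  split02 (m := w189) (by decide +kernel) (tp1618 hTd) (ch1656 hTd)
lemma tp1620 (hTd : TdOK) : Good 0 ![w188, w47, w34, w217, w183, w218] :=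
  split23 (m := w219) (by decide +kernel) (ch1650 hTd) (tp1619 hTd)
lemma tp1621 (hTd : TdOK) : Good 0 ![w188, w47, w34, w217, w182, w218] :=
  split24 (m := w183) (by decide +kernel) (tp1614 hTd) (tp1620 hTd)
lemma tp1622 (hTd : TdOK) : Good 0 ![w188, w47, w34, w217, w182, w216] :=
  split25 (m := w218) (by decide +kernel) (ch1646 hTd) (tp1621 hTd)
lemma tp1623 (hTd : TdOK) : Good 0 ![w190, w224, w47, w217, w185, w223] :=
  split23 (m := w225) (by decide +kernel) (ch1660 hTd) (ch1661 hTd)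
lemma tp1624 (hTd : TdOK) : Good 0 ![w190, w224, w47, w217, w185, w222] :=
  split25 (m := w223) (by decide +kernel) (ch1659 hTd) (tp1623 hTd)
lemma tp1625 (hTd : TdOK) : Good 0 ![w190, w57, w186, w224, w228, w223] :=
  split03 (m := w234) (by decide +kernel) (ch1664 hTd) (ch1665 hTd)
lemma tp1626 (hTd : TdOK) : Good 0 ![w190, w57, w186, w224, w185, w223] :=
  split14 (m := w228) (by decide +kernel) (ch1663 hTd) (tp1625 hTd)
lemma tp1627 (hTd : TdOK) : Good 0 ![w234, w57, w226, w224, w186, w223] :=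
  split13 (m := w235) (by decide +kernel) (ch1666 hTd) (ch1667 hTd)
lemma tp1628 (hTd : TdOK) : Good 0 ![w190, w57, w226, w224, w186, w223] :=
  split03 (m := w234) (by decide +kernel) (tp1627 hTd) (ch1668 hTd)
lemma tp1629 (hTd : TdOK) : Good 0 ![w190, w57, w47, w224, w186, w223] :=
  split23 (m := w226) (by decide +kernel) (tp1628 hTd) (ch1669 hTd)
lemma tp1630 (hTd : TdOK) : Good 0 ![w190, w57, w47, w224, w185, w223] :=
  split24 (m := w186) (by decide +kernel) (tp1626 hTd) (tp1629 hTd)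
lemma tp1631 (hTd : TdOK) : Good 0 ![w190, w227, w57, w224, w185, w223] :=
  split24 (m := w228) (by decide +kernel) (ch1670 hTd) (ch1671 hTd)
lemma tp1632 (hTd : TdOK) : Good 0 ![w190, w12, w57, w224, w185, w223] :=
  split15 (m := w227) (by decide +kernel) (tp1631 hTd) (ch1672 hTd)
lemma tp1633 (hTd : TdOK) : Good 0 ![w190, w12, w47, w224, w185, w223] :=
  split12 (m := w57) (by decide +kernel) (tp1630 hTd) (tp1632 hTd)
lemma tp1634 (hTd : TdOK) : Good 0 ![w190, w12, w47, w224, w185, w222] :=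
  split25 (m := w223) (by decide +kernel) (ch1662 hTd) (tp1633 hTd)
lemma tp1635 (hTd : TdOK) : Good 0 ![w190, w12, w47, w217, w185, w222] :=
  split13 (m := w224) (by decide +kernel) (tp1624 hTd) (tp1634 hTd)
lemma tp1636 (hTd : TdOK) : Good 0 ![w188, w190, w47, w217, w185, w222] :=
  split25 (m := w223) (by decide +kernel) (ch1673 hTd) (ch1674 hTd)
lemma tp1637 (hTd : TdOK) : Good 0 ![w188, w12, w47, w217, w185, w222] :=
  split01 (m := w190) (by decide +kernel) (tp1635 hTd) (tp1636 hTd)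
lemma tp1638 (hTd : TdOK) : Good 0 ![w188, w12, w47, w217, w182, w222] :=
  split14 (m := w185) (by decide +kernel) (ch1658 hTd) (tp1637 hTd)
lemma tp1639 (hTd : TdOK) : Good 0 ![w188, w12, w47, w217, w182, w216] :=
  split15 (m := w222) (by decide +kernel) (ch1657 hTd) (tp1638 hTd)
lemma tp1640 (hTd : TdOK) : Good 0 ![w188, w12, w34, w217, w182, w216] :=
  split12 (m := w47) (by decide +kernel) (tp1622 hTd) (tp1639 hTd)
lemma tp1641 (hTd : TdOK) : Good 0 ![w188, w12, w34, w215, w182, w216] :=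
  split13 (m := w217) (by decide +kernel) (tp1612 hTd) (tp1640 hTd)
lemma tp1642 (hTd : TdOK) : Good 0 ![w187, w188, w34, w215, w182, w218] :=
  split23 (m := w231) (by decide +kernel) (ch1676 hTd) (ch1677 hTd)
lemma tp1643 (hTd : TdOK) : Good 0 ![w187, w188, w34, w215, w182, w216] :=
  split25 (m := w218) (by decide +kernel) (ch1675 hTd) (tp1642 hTd)
lemma tp1644 (hTd : TdOK) : Good 0 ![w187, w12, w34, w215, w182, w216] :=
  split01 (m := w188) (by decide +kernel) (tp1641 hTd) (tp1643 hTd)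
lemma tp1645 (hTd : TdOK) : Good 0 ![w187, w12, w34, w215, w178, w216] :=
  split14 (m := w182) (by decide +kernel) (ch1642 hTd) (tp1644 hTd)
lemma tp1646 (hTd : TdOK) : Good 0 ![w187, w12, w34, w215, w178, w214] :=
  split15 (m := w216) (by decide +kernel) (ch1641 hTd) (tp1645 hTd)
lemma tp1647 (hTd : TdOK) : Good 0 ![w236, w12, w188, w215, w182, w216] :=
  split03 (m := w237) (by decide +kernel) (ch1681 hTd) (ch1682 hTd)
lemma tp1648 (hTd : TdOK) : Good 0 ![w236, w12, w187, w215, w182, w216] :=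
  split12 (m := w188) (by decide +kernel) (ch1680 hTd) (tp1647 hTd)
lemma tp1649 (hTd : TdOK) : Good 0 ![w236, w12, w187, w215, w178, w216] :=
  split14 (m := w182) (by decide +kernel) (ch1679 hTd) (tp1648 hTd)
lemma tp1650 (hTd : TdOK) : Good 0 ![w236, w12, w187, w215, w178, w214] :=
  split15 (m := w216) (by decide +kernel) (ch1678 hTd) (tp1649 hTd)
lemma tp1651 (hTd : TdOK) : Good 0 ![w179, w12, w187, w215, w178, w214] :=
  split01 (m := w236) (by decide +kernel) (tp1650 hTd) (ch1683 hTd)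
lemma tp1652 (hTd : TdOK) : Good 0 ![w179, w12, w34, w215, w178, w214] :=
  split02 (m := w187) (by decide +kernel) (tp1646 hTd) (tp1651 hTd)
lemma tp1653 (hTd : TdOK) : Good 0 ![w179, w12, w34, w213, w178, w214] :=
  split13 (m := w215) (by decide +kernel) (ch1640 hTd) (tp1652 hTd)
lemma tp1654 (hTd : TdOK) : Good 0 ![w179, w12, w34, w213, w178, w13] :=
  split35 (m := w214) (by decide +kernel) (tp1610 hTd) (tp1653 hTd)
lemma tp1655 (hTd : TdOK) : Good 0 ![w179, w12, w34, w213, w176, w13] :=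
  split14 (m := w178) (by decide +kernel) (ch1617 hTd) (tp1654 hTd)
lemma tp1656 (hTd : TdOK) : Good 0 ![w239, w188, w34, w218, w198, w60] :=
  split25 (m := w62) (by decide +kernel) (ch1690 hTd) (ch1691 hTd)
lemma tp1657 (hTd : TdOK) : Good 0 ![w239, w188, w34, w218, w187, w60] :=
  split24 (m := w198) (by decide +kernel) (ch1689 hTd) (tp1656 hTd)
lemma tp1658 (hTd : TdOK) : Good 0 ![w239, w188, w34, w216, w187, w60] :=
  split23 (m := w218) (by decide +kernel) (ch1688 hTd) (tp1657 hTd)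
lemma tp1659 (hTd : TdOK) : Good 0 ![w241, w52, w34, w220, w189, w74] :=
  split24 (m := w192) (by decide +kernel) (ch1697 hTd) (ch1698 hTd)
lemma tp1660 (hTd : TdOK) : Good 0 ![w241, w52, w34, w220, w189, w62] :=
  split25 (m := w74) (by decide +kernel) (ch1696 hTd) (tp1659 hTd)
lemma tp1661 (hTd : TdOK) : Good 0 ![w241, w52, w34, w218, w189, w62] :=
  split23 (m := w220) (by decide +kernel) (ch1695 hTd) (tp1660 hTd)
lemma tp1662 (hTd : TdOK) : Good 0 ![w241, w47, w34, w218, w189, w62] :=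
  split12 (m := w52) (by decide +kernel) (tp1661 hTd) (ch1699 hTd)
lemma tp1663 (hTd : TdOK) : Good 0 ![w240, w47, w34, w218, w189, w62] :=
  split02 (m := w241) (by decide +kernel) (tp1662 hTd) (ch1700 hTd)
lemma tp1664 (hTd : TdOK) : Good 0 ![w240, w47, w34, w218, w188, w62] :=
  split24 (m := w189) (by decide +kernel) (ch1694 hTd) (tp1663 hTd)
lemma tp1665 (hTd : TdOK) : Good 0 ![w240, w47, w34, w218, w188, w60] :=
  split25 (m := w62) (by decide +kernel) (ch1693 hTd) (tp1664 hTd)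
lemma tp1666 (hTd : TdOK) : Good 0 ![w242, w12, w47, w223, w190, w64] :=
  split12 (m := w57) (by decide +kernel) (ch1704 hTd) (ch1705 hTd)
lemma tp1667 (hTd : TdOK) : Good 0 ![w240, w12, w47, w223, w190, w64] :=
  split01 (m := w242) (by decide +kernel) (tp1666 hTd) (ch1706 hTd)
lemma tp1668 (hTd : TdOK) : Good 0 ![w240, w12, w47, w223, w188, w64] :=
  split14 (m := w190) (by decide +kernel) (ch1703 hTd) (tp1667 hTd)
lemma tp1669 (hTd : TdOK) : Good 0 ![w240, w12, w47, w223, w188, w60] :=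
  split15 (m := w64) (by decide +kernel) (ch1702 hTd) (tp1668 hTd)
lemma tp1670 (hTd : TdOK) : Good 0 ![w240, w12, w47, w218, w188, w60] :=
  split13 (m := w223) (by decide +kernel) (ch1701 hTd) (tp1669 hTd)
lemma tp1671 (hTd : TdOK) : Good 0 ![w240, w12, w34, w218, w188, w60] :=
  split12 (m := w47) (by decide +kernel) (tp1665 hTd) (tp1670 hTd)
lemma tp1672 (hTd : TdOK) : Good 0 ![w243, w241, w34, w220, w189, w62] :=
  split25 (m := w74) (by decide +kernel) (ch1710 hTd) (ch1711 hTd)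
lemma tp1673 (hTd : TdOK) : Good 0 ![w243, w241, w34, w218, w189, w62] :=
  split23 (m := w220) (by decide +kernel) (ch1709 hTd) (tp1672 hTd)
lemma tp1674 (hTd : TdOK) : Good 0 ![w243, w240, w34, w218, w189, w62] :=
  split12 (m := w241) (by decide +kernel) (tp1673 hTd) (ch1712 hTd)
lemma tp1675 (hTd : TdOK) : Good 0 ![w243, w240, w34, w218, w188, w62] :=
  split24 (m := w189) (by decide +kernel) (ch1708 hTd) (tp1674 hTd)
lemma tp1676 (hTd : TdOK) : Good 0 ![w239, w240, w34, w218, w188, w62] :=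
  split02 (m := w243) (by decide +kernel) (tp1675 hTd) (ch1713 hTd)
lemma tp1677 (hTd : TdOK) : Good 0 ![w239, w240, w34, w218, w188, w60] :=
  split25 (m := w62) (by decide +kernel) (ch1707 hTd) (tp1676 hTd)
lemma tp1678 (hTd : TdOK) : Good 0 ![w239, w12, w34, w218, w188, w60] :=
  split01 (m := w240) (by decide +kernel) (tp1671 hTd) (tp1677 hTd)
lemma tp1679 (hTd : TdOK) : Good 0 ![w239, w12, w34, w216, w188, w60] :=
  split23 (m := w218) (by decide +kernel) (ch1692 hTd) (tp1678 hTd)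
lemma tp1680 (hTd : TdOK) : Good 0 ![w239, w12, w34, w216, w187, w60] :=
  split14 (m := w188) (by decide +kernel) (tp1658 hTd) (tp1679 hTd)
lemma tp1681 (hTd : TdOK) : Good 0 ![w239, w12, w34, w216, w187, w58] :=
  split15 (m := w60) (by decide +kernel) (ch1687 hTd) (tp1680 hTd)
lemma tp1682 (hTd : TdOK) : Good 0 ![w239, w12, w34, w214, w187, w58] :=
  split13 (m := w216) (by decide +kernel) (ch1686 hTd) (tp1681 hTd)
lemma tp1683 (hTd : TdOK) : Good 0 ![w238, w12, w34, w214, w187, w58] :=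
  split02 (m := w239) (by decide +kernel) (tp1682 hTd) (ch1714 hTd)
lemma tp1684 (hTd : TdOK) : Good 0 ![w238, w12, w34, w214, w187, w13] :=
  split25 (m := w58) (by decide +kernel) (ch1685 hTd) (tp1683 hTd)
lemma tp1685 (hTd : TdOK) : Good 0 ![w238, w12, w34, w214, w179, w13] :=
  split24 (m := w187) (by decide +kernel) (ch1684 hTd) (tp1684 hTd)
lemma tp1686 (hTd : TdOK) : Good 0 ![w240, w12, w218, w245, w188, w222] :=
  split12 (m := w223) (by decide +kernel) (ch1721 hTd) (ch1722 hTd)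
lemma tp1687 (hTd : TdOK) : Good 0 ![w240, w12, w218, w245, w188, w216] :=
  split15 (m := w222) (by decide +kernel) (ch1720 hTd) (tp1686 hTd)
lemma tp1688 (hTd : TdOK) : Good 0 ![w239, w12, w218, w245, w188, w216] :=
  split01 (m := w240) (by decide +kernel) (tp1687 hTd) (ch1723 hTd)
lemma tp1689 (hTd : TdOK) : Good 0 ![w241, w52, w34, w246, w189, w220] :=
  split24 (m := w192) (by decide +kernel) (ch1727 hTd) (ch1728 hTd)
lemma tp1690 (hTd : TdOK) : Good 0 ![w241, w52, w34, w245, w189, w220] :=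
  split23 (m := w246) (by decide +kernel) (ch1726 hTd) (tp1689 hTd)
lemma tp1691 (hTd : TdOK) : Good 0 ![w241, w52, w34, w245, w189, w218] :=
  split25 (m := w220) (by decide +kernel) (ch1725 hTd) (tp1690 hTd)
lemma tp1692 (hTd : TdOK) : Good 0 ![w241, w47, w34, w245, w189, w218] :=
  split12 (m := w52) (by decide +kernel) (tp1691 hTd) (ch1729 hTd)
lemma tp1693 (hTd : TdOK) : Good 0 ![w240, w47, w34, w245, w189, w218] :=
  split02 (m := w241) (by decide +kernel) (tp1692 hTd) (ch1730 hTd)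
lemma tp1694 (hTd : TdOK) : Good 0 ![w240, w47, w34, w245, w188, w218] :=
  split24 (m := w189) (by decide +kernel) (ch1724 hTd) (tp1693 hTd)
lemma tp1695 (hTd : TdOK) : Good 0 ![w242, w12, w57, w247, w190, w223] :=
  split15 (m := w227) (by decide +kernel) (ch1735 hTd) (ch1736 hTd)
lemma tp1696 (hTd : TdOK) : Good 0 ![w242, w12, w47, w247, w190, w223] :=
  split12 (m := w57) (by decide +kernel) (ch1734 hTd) (tp1695 hTd)
lemma tp1697 (hTd : TdOK) : Good 0 ![w240, w12, w47, w247, w190, w223] :=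
  split01 (m := w242) (by decide +kernel) (tp1696 hTd) (ch1737 hTd)
lemma tp1698 (hTd : TdOK) : Good 0 ![w240, w12, w47, w247, w188, w223] :=
  split14 (m := w190) (by decide +kernel) (ch1733 hTd) (tp1697 hTd)
lemma tp1699 (hTd : TdOK) : Good 0 ![w240, w12, w47, w245, w188, w223] :=
  split13 (m := w247) (by decide +kernel) (ch1732 hTd) (tp1698 hTd)
lemma tp1700 (hTd : TdOK) : Good 0 ![w240, w12, w47, w245, w188, w218] :=
  split15 (m := w223) (by decide +kernel) (ch1731 hTd) (tp1699 hTd)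
lemma tp1701 (hTd : TdOK) : Good 0 ![w240, w12, w34, w245, w188, w218] :=
  split12 (m := w47) (by decide +kernel) (tp1694 hTd) (tp1700 hTd)
lemma tp1702 (hTd : TdOK) : Good 0 ![w243, w240, w34, w245, w189, w218] :=
  split12 (m := w241) (by decide +kernel) (ch1739 hTd) (ch1740 hTd)
lemma tp1703 (hTd : TdOK) : Good 0 ![w243, w240, w34, w245, w188, w218] :=
  split24 (m := w189) (by decide +kernel) (ch1738 hTd) (tp1702 hTd)
lemma tp1704 (hTd : TdOK) : Good 0 ![w239, w240, w34, w245, w188, w218] :=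
  split02 (m := w243) (by decide +kernel) (tp1703 hTd) (ch1741 hTd)
lemma tp1705 (hTd : TdOK) : Good 0 ![w239, w12, w34, w245, w188, w218] :=
  split01 (m := w240) (by decide +kernel) (tp1701 hTd) (tp1704 hTd)
lemma tp1706 (hTd : TdOK) : Good 0 ![w239, w12, w34, w245, w188, w216] :=
  split25 (m := w218) (by decide +kernel) (tp1688 hTd) (tp1705 hTd)
lemma tp1707 (hTd : TdOK) : Good 0 ![w239, w12, w34, w237, w188, w216] :=
  split23 (m := w245) (by decide +kernel) (ch1719 hTd) (tp1706 hTd)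
lemma tp1708 (hTd : TdOK) : Good 0 ![w239, w12, w34, w237, w187, w216] :=
  split14 (m := w188) (by decide +kernel) (ch1718 hTd) (tp1707 hTd)
lemma tp1709 (hTd : TdOK) : Good 0 ![w239, w12, w34, w237, w187, w214] :=
  split15 (m := w216) (by decide +kernel) (ch1717 hTd) (tp1708 hTd)
lemma tp1710 (hTd : TdOK) : Good 0 ![w239, w12, w34, w244, w187, w214] :=
  split13 (m := w237) (by decide +kernel) (ch1716 hTd) (tp1709 hTd)
lemma tp1711 (hTd : TdOK) : Good 0 ![w238, w12, w34, w244, w187, w214] :=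
  split02 (m := w239) (by decide +kernel) (tp1710 hTd) (ch1742 hTd)
lemma tp1712 (hTd : TdOK) : Good 0 ![w238, w12, w34, w244, w179, w214] :=
  split24 (m := w187) (by decide +kernel) (ch1715 hTd) (tp1711 hTd)
lemma tp1713 (hTd : TdOK) : Good 0 ![w239, w217, w34, w215, w237, w216] :=
  split24 (m := w245) (by decide +kernel) (ch1746 hTd) (ch1747 hTd)
lemma tp1714 (hTd : TdOK) : Good 0 ![w241, w52, w34, w219, w246, w220] :=
  split23 (m := w233) (by decide +kernel) (ch1753 hTd) (ch1754 hTd)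
lemma tp1715 (hTd : TdOK) : Good 0 ![w241, w52, w34, w219, w245, w220] :=
  split24 (m := w246) (by decide +kernel) (ch1752 hTd) (tp1714 hTd)
lemma tp1716 (hTd : TdOK) : Good 0 ![w241, w52, w34, w219, w245, w218] :=
  split25 (m := w220) (by decide +kernel) (ch1751 hTd) (tp1715 hTd)
lemma tp1717 (hTd : TdOK) : Good 0 ![w241, w47, w34, w219, w245, w218] :=
  split12 (m := w52) (by decide +kernel) (tp1716 hTd) (ch1755 hTd)
lemma tp1718 (hTd : TdOK) : Good 0 ![w240, w47, w34, w219, w245, w218] :=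
  split02 (m := w241) (by decide +kernel) (tp1717 hTd) (ch1756 hTd)
lemma tp1719 (hTd : TdOK) : Good 0 ![w240, w47, w34, w217, w245, w218] :=
  split23 (m := w219) (by decide +kernel) (ch1750 hTd) (tp1718 hTd)
lemma tp1720 (hTd : TdOK) : Good 0 ![w240, w47, w34, w217, w237, w218] :=
  split24 (m := w245) (by decide +kernel) (ch1749 hTd) (tp1719 hTd)
lemma tp1721 (hTd : TdOK) : Good 0 ![w240, w47, w34, w217, w237, w216] :=
  split25 (m := w218) (by decide +kernel) (ch1748 hTd) (tp1720 hTd)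
lemma tp1722 (hTd : TdOK) : Good 0 ![w242, w224, w47, w217, w248, w222] :=
  split25 (m := w223) (by decide +kernel) (ch1759 hTd) (ch1760 hTd)
lemma tp1723 (hTd : TdOK) : Good 0 ![w242, w57, w226, w224, w247, w223] :=
  split13 (m := w235) (by decide +kernel) (ch1763 hTd) (ch1764 hTd)
lemma tp1724 (hTd : TdOK) : Good 0 ![w242, w57, w47, w224, w247, w223] :=
  split23 (m := w226) (by decide +kernel) (tp1723 hTd) (ch1765 hTd)
lemma tp1725 (hTd : TdOK) : Good 0 ![w242, w227, w57, w224, w247, w223] :=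
  split23 (m := w235) (by decide +kernel) (ch1766 hTd) (ch1767 hTd)
lemma tp1726 (hTd : TdOK) : Good 0 ![w242, w12, w57, w224, w247, w223] :=
  split15 (m := w227) (by decide +kernel) (tp1725 hTd) (ch1768 hTd)
lemma tp1727 (hTd : TdOK) : Good 0 ![w242, w12, w47, w224, w247, w223] :=
  split12 (m := w57) (by decide +kernel) (tp1724 hTd) (tp1726 hTd)
lemma tp1728 (hTd : TdOK) : Good 0 ![w242, w12, w47, w224, w248, w223] :=
  split24 (m := w247) (by decide +kernel) (ch1762 hTd) (tp1727 hTd)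
lemma tp1729 (hTd : TdOK) : Good 0 ![w242, w12, w47, w224, w248, w222] :=
  split25 (m := w223) (by decide +kernel) (ch1761 hTd) (tp1728 hTd)
lemma tp1730 (hTd : TdOK) : Good 0 ![w242, w12, w47, w217, w248, w222] :=
  split13 (m := w224) (by decide +kernel) (tp1722 hTd) (tp1729 hTd)
lemma tp1731 (hTd : TdOK) : Good 0 ![w240, w12, w47, w217, w248, w222] :=
  split01 (m := w242) (by decide +kernel) (tp1730 hTd) (ch1769 hTd)
lemma tp1732 (hTd : TdOK) : Good 0 ![w240, w12, w47, w217, w237, w222] :=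
  split14 (m := w248) (by decide +kernel) (ch1758 hTd) (tp1731 hTd)
lemma tp1733 (hTd : TdOK) : Good 0 ![w240, w12, w47, w217, w237, w216] :=
  split15 (m := w222) (by decide +kernel) (ch1757 hTd) (tp1732 hTd)
lemma tp1734 (hTd : TdOK) : Good 0 ![w240, w12, w34, w217, w237, w216] :=
  split12 (m := w47) (by decide +kernel) (tp1721 hTd) (tp1733 hTd)
lemma tp1735 (hTd : TdOK) : Good 0 ![w243, w240, w34, w219, w245, w218] :=
  split12 (m := w241) (by decide +kernel) (ch1773 hTd) (ch1774 hTd)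
lemma tp1736 (hTd : TdOK) : Good 0 ![w239, w240, w34, w219, w245, w218] :=
  split02 (m := w243) (by decide +kernel) (tp1735 hTd) (ch1775 hTd)
lemma tp1737 (hTd : TdOK) : Good 0 ![w239, w240, w34, w217, w245, w218] :=
  split23 (m := w219) (by decide +kernel) (ch1772 hTd) (tp1736 hTd)
lemma tp1738 (hTd : TdOK) : Good 0 ![w239, w240, w34, w217, w237, w218] :=
  split24 (m := w245) (by decide +kernel) (ch1771 hTd) (tp1737 hTd)
lemma tp1739 (hTd : TdOK) : Good 0 ![w239, w240, w34, w217, w237, w216] :=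
  split25 (m := w218) (by decide +kernel) (ch1770 hTd) (tp1738 hTd)
lemma tp1740 (hTd : TdOK) : Good 0 ![w239, w12, w34, w217, w237, w216] :=
  split01 (m := w240) (by decide +kernel) (tp1734 hTd) (tp1739 hTd)
lemma tp1741 (hTd : TdOK) : Good 0 ![w239, w12, w34, w215, w237, w216] :=
  split13 (m := w217) (by decide +kernel) (tp1713 hTd) (tp1740 hTd)
lemma tp1742 (hTd : TdOK) : Good 0 ![w239, w12, w34, w215, w237, w214] :=
  split15 (m := w216) (by decide +kernel) (ch1745 hTd) (tp1741 hTd)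
lemma tp1743 (hTd : TdOK) : Good 0 ![w239, w12, w34, w215, w244, w214] :=
  split14 (m := w237) (by decide +kernel) (ch1744 hTd) (tp1742 hTd)
lemma tp1744 (hTd : TdOK) : Good 0 ![w249, w12, w240, w217, w237, w216] :=
  split01 (m := w250) (by decide +kernel) (ch1780 hTd) (ch1781 hTd)
lemma tp1745 (hTd : TdOK) : Good 0 ![w249, w12, w239, w217, w237, w216] :=
  split12 (m := w240) (by decide +kernel) (ch1779 hTd) (tp1744 hTd)
lemma tp1746 (hTd : TdOK) : Good 0 ![w249, w12, w239, w215, w237, w216] :=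
  split13 (m := w217) (by decide +kernel) (ch1778 hTd) (tp1745 hTd)
lemma tp1747 (hTd : TdOK) : Good 0 ![w238, w12, w239, w215, w237, w216] :=
  split01 (m := w249) (by decide +kernel) (tp1746 hTd) (ch1782 hTd)
lemma tp1748 (hTd : TdOK) : Good 0 ![w238, w12, w239, w215, w237, w214] :=
  split15 (m := w216) (by decide +kernel) (ch1777 hTd) (tp1747 hTd)
lemma tp1749 (hTd : TdOK) : Good 0 ![w238, w12, w239, w215, w244, w214] :=
  split14 (m := w237) (by decide +kernel) (ch1776 hTd) (tp1748 hTd)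
lemma tp1750 (hTd : TdOK) : Good 0 ![w238, w12, w34, w215, w244, w214] :=
  split02 (m := w239) (by decide +kernel) (tp1743 hTd) (tp1749 hTd)
lemma tp1751 (hTd : TdOK) : Good 0 ![w238, w12, w34, w213, w244, w214] :=
  split13 (m := w215) (by decide +kernel) (ch1743 hTd) (tp1750 hTd)
lemma tp1752 (hTd : TdOK) : Good 0 ![w238, w12, w34, w213, w179, w214] :=
  split34 (m := w244) (by decide +kernel) (tp1712 hTd) (tp1751 hTd)
lemma tp1753 (hTd : TdOK) : Good 0 ![w238, w12, w34, w213, w179, w13] :=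
  split35 (m := w214) (by decide +kernel) (tp1685 hTd) (tp1752 hTd)
lemma tp1754 (hTd : TdOK) : Good 0 ![w84, w62, w34, w243, w198, w85] :=
  split02 (m := w87) (by decide +kernel) (ch1789 hTd) (ch1790 hTd)
lemma tp1755 (hTd : TdOK) : Good 0 ![w84, w62, w34, w239, w198, w85] :=
  split23 (m := w243) (by decide +kernel) (ch1788 hTd) (tp1754 hTd)
lemma tp1756 (hTd : TdOK) : Good 0 ![w84, w60, w34, w239, w198, w85] :=
  split12 (m := w62) (by decide +kernel) (tp1755 hTd) (ch1791 hTd)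
lemma tp1757 (hTd : TdOK) : Good 0 ![w84, w60, w34, w239, w187, w85] :=
  split24 (m := w198) (by decide +kernel) (ch1787 hTd) (tp1756 hTd)
lemma tp1758 (hTd : TdOK) : Good 0 ![w84, w60, w34, w239, w187, w58] :=
  split25 (m := w85) (by decide +kernel) (ch1786 hTd) (tp1757 hTd)
lemma tp1759 (hTd : TdOK) : Good 0 ![w87, w189, w34, w243, w198, w62] :=
  split24 (m := w199) (by decide +kernel) (ch1795 hTd) (ch1796 hTd)
lemma tp1760 (hTd : TdOK) : Good 0 ![w84, w189, w34, w243, w198, w62] :=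
  split02 (m := w87) (by decide +kernel) (tp1759 hTd) (ch1797 hTd)
lemma tp1761 (hTd : TdOK) : Good 0 ![w84, w189, w34, w239, w198, w62] :=
  split23 (m := w243) (by decide +kernel) (ch1794 hTd) (tp1760 hTd)
lemma tp1762 (hTd : TdOK) : Good 0 ![w84, w188, w34, w239, w198, w62] :=
  split12 (m := w189) (by decide +kernel) (tp1761 hTd) (ch1798 hTd)
lemma tp1763 (hTd : TdOK) : Good 0 ![w84, w188, w34, w239, w198, w60] :=
  split25 (m := w62) (by decide +kernel) (ch1793 hTd) (tp1762 hTd)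
lemma tp1764 (hTd : TdOK) : Good 0 ![w84, w188, w34, w239, w187, w60] :=
  split24 (m := w198) (by decide +kernel) (ch1792 hTd) (tp1763 hTd)
lemma tp1765 (hTd : TdOK) : Good 0 ![w87, w52, w74, w243, w189, w62] :=
  split13 (m := w251) (by decide +kernel) (ch1802 hTd) (ch1803 hTd)
lemma tp1766 (hTd : TdOK) : Good 0 ![w87, w52, w34, w243, w189, w74] :=
  split24 (m := w192) (by decide +kernel) (ch1804 hTd) (ch1805 hTd)
lemma tp1767 (hTd : TdOK) : Good 0 ![w87, w52, w34, w243, w189, w62] :=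
  split25 (m := w74) (by decide +kernel) (tp1765 hTd) (tp1766 hTd)
lemma tp1768 (hTd : TdOK) : Good 0 ![w87, w47, w52, w243, w189, w62] :=
  split13 (m := w241) (by decide +kernel) (ch1806 hTd) (ch1807 hTd)
lemma tp1769 (hTd : TdOK) : Good 0 ![w87, w47, w34, w243, w189, w62] :=
  split12 (m := w52) (by decide +kernel) (tp1767 hTd) (tp1768 hTd)
lemma tp1770 (hTd : TdOK) : Good 0 ![w84, w47, w34, w243, w189, w62] :=
  split02 (m := w87) (by decide +kernel) (tp1769 hTd) (ch1808 hTd)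
lemma tp1771 (hTd : TdOK) : Good 0 ![w84, w47, w34, w243, w188, w62] :=
  split24 (m := w189) (by decide +kernel) (ch1801 hTd) (tp1770 hTd)
lemma tp1772 (hTd : TdOK) : Good 0 ![w84, w47, w34, w239, w188, w62] :=
  split23 (m := w243) (by decide +kernel) (ch1800 hTd) (tp1771 hTd)
lemma tp1773 (hTd : TdOK) : Good 0 ![w84, w47, w34, w239, w188, w60] :=
  split25 (m := w62) (by decide +kernel) (ch1799 hTd) (tp1772 hTd)
lemma tp1774 (hTd : TdOK) : Good 0 ![w91, w57, w47, w242, w190, w92] :=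
  split24 (m := w252) (by decide +kernel) (ch1814 hTd) (ch1815 hTd)
lemma tp1775 (hTd : TdOK) : Good 0 ![w91, w57, w47, w242, w190, w64] :=
  split25 (m := w92) (by decide +kernel) (ch1813 hTd) (tp1774 hTd)
lemma tp1776 (hTd : TdOK) : Good 0 ![w91, w12, w47, w242, w190, w64] :=
  split12 (m := w57) (by decide +kernel) (tp1775 hTd) (ch1816 hTd)
lemma tp1777 (hTd : TdOK) : Good 0 ![w90, w12, w47, w242, w190, w64] :=
  split01 (m := w91) (by decide +kernel) (tp1776 hTd) (ch1817 hTd)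
lemma tp1778 (hTd : TdOK) : Good 0 ![w90, w12, w47, w240, w190, w64] :=
  split13 (m := w242) (by decide +kernel) (ch1812 hTd) (tp1777 hTd)
lemma tp1779 (hTd : TdOK) : Good 0 ![w90, w12, w47, w240, w188, w64] :=
  split14 (m := w190) (by decide +kernel) (ch1811 hTd) (tp1778 hTd)
lemma tp1780 (hTd : TdOK) : Good 0 ![w90, w12, w47, w240, w188, w60] :=
  split15 (m := w64) (by decide +kernel) (ch1810 hTd) (tp1779 hTd)
lemma tp1781 (hTd : TdOK) : Good 0 ![w84, w12, w47, w240, w188, w60] :=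
  split01 (m := w90) (by decide +kernel) (tp1780 hTd) (ch1818 hTd)
lemma tp1782 (hTd : TdOK) : Good 0 ![w84, w12, w47, w239, w188, w60] :=
  split13 (m := w240) (by decide +kernel) (ch1809 hTd) (tp1781 hTd)
lemma tp1783 (hTd : TdOK) : Good 0 ![w84, w12, w34, w239, w188, w60] :=
  split12 (m := w47) (by decide +kernel) (tp1773 hTd) (tp1782 hTd)
lemma tp1784 (hTd : TdOK) : Good 0 ![w84, w12, w34, w239, w187, w60] :=
  split14 (m := w188) (by decide +kernel) (tp1764 hTd) (tp1783 hTd)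
lemma tp1785 (hTd : TdOK) : Good 0 ![w84, w12, w34, w239, w187, w58] :=
  split15 (m := w60) (by decide +kernel) (tp1758 hTd) (tp1784 hTd)
lemma tp1786 (hTd : TdOK) : Good 0 ![w83, w12, w34, w239, w187, w58] :=
  split02 (m := w84) (by decide +kernel) (tp1785 hTd) (ch1819 hTd)
lemma tp1787 (hTd : TdOK) : Good 0 ![w83, w12, w34, w238, w187, w58] :=
  split23 (m := w239) (by decide +kernel) (ch1785 hTd) (tp1786 hTd)
lemma tp1788 (hTd : TdOK) : Good 0 ![w83, w12, w34, w238, w187, w13] :=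
  split25 (m := w58) (by decide +kernel) (ch1784 hTd) (tp1787 hTd)
lemma tp1789 (hTd : TdOK) : Good 0 ![w83, w12, w34, w238, w179, w13] :=
  split24 (m := w187) (by decide +kernel) (ch1783 hTd) (tp1788 hTd)
lemma tp1790 (hTd : TdOK) : Good 0 ![w0, w12, w34, w238, w179, w13] :=
  split02 (m := w83) (by decide +kernel) (tp1789 hTd) (ch1820 hTd)
lemma tp1791 (hTd : TdOK) : Good 0 ![w0, w12, w34, w213, w179, w13] :=
  split03 (m := w238) (by decide +kernel) (tp1753 hTd) (tp1790 hTd)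
lemma tp1792 (hTd : TdOK) : Good 0 ![w0, w12, w34, w213, w176, w13] :=
  split04 (m := w179) (by decide +kernel) (tp1655 hTd) (tp1791 hTd)
lemma tp1793 (hTd : TdOK) : Good 0 ![w0, w12, w34, w213, w176, w5] :=
  split05 (m := w13) (by decide +kernel) (tp1589 hTd) (tp1792 hTd)
lemma tp1794 (hTd : TdOK) : Good 0 ![w258, w12, w99, w257, w200, w98] :=
  split14 (m := w203) (by decide +kernel) (ch1829 hTd) (ch1830 hTd)
lemma tp1795 (hTd : TdOK) : Good 0 ![w258, w12, w97, w257, w200, w98] :=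
  split12 (m := w99) (by decide +kernel) (ch1828 hTd) (tp1794 hTd)
lemma tp1796 (hTd : TdOK) : Good 0 ![w256, w12, w97, w257, w200, w98] :=
  split01 (m := w258) (by decide +kernel) (tp1795 hTd) (ch1831 hTd)
lemma tp1797 (hTd : TdOK) : Good 0 ![w256, w12, w97, w257, w200, w95] :=
  split15 (m := w98) (by decide +kernel) (ch1827 hTd) (tp1796 hTd)
lemma tp1798 (hTd : TdOK) : Good 0 ![w256, w12, w97, w255, w200, w95] :=
  split13 (m := w257) (by decide +kernel) (ch1826 hTd) (tp1797 hTd)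
lemma tp1799 (hTd : TdOK) : Good 0 ![w260, w52, w34, w259, w202, w101] :=
  split23 (m := w261) (by decide +kernel) (ch1837 hTd) (ch1838 hTd)
lemma tp1800 (hTd : TdOK) : Good 0 ![w260, w52, w34, w259, w201, w101] :=
  split24 (m := w202) (by decide +kernel) (ch1836 hTd) (tp1799 hTd)
lemma tp1801 (hTd : TdOK) : Good 0 ![w260, w47, w34, w259, w201, w101] :=
  split12 (m := w52) (by decide +kernel) (tp1800 hTd) (ch1839 hTd)
lemma tp1802 (hTd : TdOK) : Good 0 ![w260, w47, w34, w259, w201, w97] :=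
  split25 (m := w101) (by decide +kernel) (ch1835 hTd) (tp1801 hTd)
lemma tp1803 (hTd : TdOK) : Good 0 ![w256, w47, w34, w259, w201, w97] :=
  split02 (m := w260) (by decide +kernel) (tp1802 hTd) (ch1840 hTd)
lemma tp1804 (hTd : TdOK) : Good 0 ![w256, w47, w34, w257, w201, w97] :=
  split23 (m := w259) (by decide +kernel) (ch1834 hTd) (tp1803 hTd)
lemma tp1805 (hTd : TdOK) : Good 0 ![w256, w47, w34, w257, w200, w97] :=
  split24 (m := w201) (by decide +kernel) (ch1833 hTd) (tp1804 hTd)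
lemma tp1806 (hTd : TdOK) : Good 0 ![w258, w262, w47, w257, w203, w99] :=
  split23 (m := w263) (by decide +kernel) (ch1843 hTd) (ch1844 hTd)
lemma tp1807 (hTd : TdOK) : Good 0 ![w258, w57, w47, w262, w204, w99] :=
  split23 (m := w264) (by decide +kernel) (ch1846 hTd) (ch1847 hTd)
lemma tp1808 (hTd : TdOK) : Good 0 ![w258, w57, w47, w262, w203, w99] :=
  split24 (m := w204) (by decide +kernel) (ch1845 hTd) (tp1807 hTd)
lemma tp1809 (hTd : TdOK) : Good 0 ![w258, w12, w47, w262, w203, w99] :=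
  split12 (m := w57) (by decide +kernel) (tp1808 hTd) (ch1848 hTd)
lemma tp1810 (hTd : TdOK) : Good 0 ![w258, w12, w47, w257, w203, w99] :=
  split13 (m := w262) (by decide +kernel) (tp1806 hTd) (tp1809 hTd)
lemma tp1811 (hTd : TdOK) : Good 0 ![w258, w12, w47, w257, w200, w99] :=
  split14 (m := w203) (by decide +kernel) (ch1842 hTd) (tp1810 hTd)
lemma tp1812 (hTd : TdOK) : Good 0 ![w258, w12, w47, w257, w200, w97] :=
  split15 (m := w99) (by decide +kernel) (ch1841 hTd) (tp1811 hTd)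
lemma tp1813 (hTd : TdOK) : Good 0 ![w256, w12, w47, w257, w200, w97] :=
  split01 (m := w258) (by decide +kernel) (tp1812 hTd) (ch1849 hTd)
lemma tp1814 (hTd : TdOK) : Good 0 ![w256, w12, w34, w257, w200, w97] :=
  split12 (m := w47) (by decide +kernel) (tp1805 hTd) (tp1813 hTd)
lemma tp1815 (hTd : TdOK) : Good 0 ![w256, w12, w34, w255, w200, w97] :=
  split13 (m := w257) (by decide +kernel) (ch1832 hTd) (tp1814 hTd)
lemma tp1816 (hTd : TdOK) : Good 0 ![w256, w12, w34, w255, w200, w95] :=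
  split25 (m := w97) (by decide +kernel) (tp1798 hTd) (tp1815 hTd)
lemma tp1817 (hTd : TdOK) : Good 0 ![w265, w12, w256, w257, w200, w98] :=
  split12 (m := w258) (by decide +kernel) (ch1852 hTd) (ch1853 hTd)
lemma tp1818 (hTd : TdOK) : Good 0 ![w265, w12, w256, w257, w200, w95] :=
  split15 (m := w98) (by decide +kernel) (ch1851 hTd) (tp1817 hTd)
lemma tp1819 (hTd : TdOK) : Good 0 ![w265, w12, w256, w255, w200, w95] :=
  split13 (m := w257) (by decide +kernel) (ch1850 hTd) (tp1818 hTd)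
lemma tp1820 (hTd : TdOK) : Good 0 ![w254, w12, w256, w255, w200, w95] :=
  split01 (m := w265) (by decide +kernel) (tp1819 hTd) (ch1854 hTd)
lemma tp1821 (hTd : TdOK) : Good 0 ![w254, w12, w34, w255, w200, w95] :=
  split02 (m := w256) (by decide +kernel) (tp1816 hTd) (tp1820 hTd)
lemma tp1822 (hTd : TdOK) : Good 0 ![w254, w12, w34, w255, w181, w95] :=
  split14 (m := w200) (by decide +kernel) (ch1825 hTd) (tp1821 hTd)
lemma tp1823 (hTd : TdOK) : Good 0 ![w254, w12, w34, w253, w181, w95] :=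
  split13 (m := w255) (by decide +kernel) (ch1824 hTd) (tp1822 hTd)
lemma tp1824 (hTd : TdOK) : Good 0 ![w254, w12, w34, w253, w181, w93] :=
  split15 (m := w95) (by decide +kernel) (ch1823 hTd) (tp1823 hTd)
lemma tp1825 (hTd : TdOK) : Good 0 ![w18, w12, w34, w253, w181, w93] :=
  split01 (m := w254) (by decide +kernel) (tp1824 hTd) (ch1855 hTd)
lemma tp1826 (hTd : TdOK) : Good 0 ![w18, w12, w34, w253, w177, w93] :=
  split14 (m := w181) (by decide +kernel) (ch1822 hTd) (tp1825 hTd)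
lemma tp1827 (hTd : TdOK) : Good 0 ![w18, w12, w34, w253, w177, w8] :=
  split15 (m := w93) (by decide +kernel) (ch1821 hTd) (tp1826 hTd)
lemma tp1828 (hTd : TdOK) : Good 0 ![w180, w12, w94, w255, w181, w267] :=
  split01 (m := w268) (by decide +kernel) (ch1860 hTd) (ch1861 hTd)
lemma tp1829 (hTd : TdOK) : Good 0 ![w180, w12, w94, w255, w181, w266] :=
  split15 (m := w267) (by decide +kernel) (ch1859 hTd) (tp1828 hTd)
lemma tp1830 (hTd : TdOK) : Good 0 ![w180, w12, w94, w253, w181, w266] :=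
  split13 (m := w255) (by decide +kernel) (ch1858 hTd) (tp1829 hTd)
lemma tp1831 (hTd : TdOK) : Good 0 ![w180, w12, w94, w253, w181, w18] :=
  split35 (m := w266) (by decide +kernel) (ch1857 hTd) (tp1830 hTd)
lemma tp1832 (hTd : TdOK) : Good 0 ![w205, w96, w34, w255, w200, w104] :=
  split23 (m := w269) (by decide +kernel) (ch1865 hTd) (ch1866 hTd)
lemma tp1833 (hTd : TdOK) : Good 0 ![w205, w96, w34, w255, w200, w94] :=
  split25 (m := w104) (by decide +kernel) (ch1864 hTd) (tp1832 hTd)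
lemma tp1834 (hTd : TdOK) : Good 0 ![w206, w257, w34, w269, w201, w96] :=
  split12 (m := w259) (by decide +kernel) (ch1869 hTd) (ch1870 hTd)
lemma tp1835 (hTd : TdOK) : Good 0 ![w206, w257, w34, w269, w200, w96] :=
  split24 (m := w201) (by decide +kernel) (ch1868 hTd) (tp1834 hTd)
lemma tp1836 (hTd : TdOK) : Good 0 ![w206, w257, w34, w255, w200, w96] :=
  split23 (m := w269) (by decide +kernel) (ch1867 hTd) (tp1835 hTd)
lemma tp1837 (hTd : TdOK) : Good 0 ![w206, w47, w259, w257, w201, w96] :=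
  split15 (m := w270) (by decide +kernel) (ch1872 hTd) (ch1873 hTd)
lemma tp1838 (hTd : TdOK) : Good 0 ![w207, w52, w34, w261, w202, w100] :=
  split25 (m := w103) (by decide +kernel) (ch1877 hTd) (ch1878 hTd)
lemma tp1839 (hTd : TdOK) : Good 0 ![w207, w52, w34, w259, w202, w100] :=
  split23 (m := w261) (by decide +kernel) (ch1876 hTd) (tp1838 hTd)
lemma tp1840 (hTd : TdOK) : Good 0 ![w207, w52, w34, w259, w201, w100] :=
  split24 (m := w202) (by decide +kernel) (ch1875 hTd) (tp1839 hTd)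
lemma tp1841 (hTd : TdOK) : Good 0 ![w207, w47, w34, w259, w201, w100] :=
  split12 (m := w52) (by decide +kernel) (tp1840 hTd) (ch1879 hTd)
lemma tp1842 (hTd : TdOK) : Good 0 ![w206, w47, w34, w259, w201, w100] :=
  split02 (m := w207) (by decide +kernel) (tp1841 hTd) (ch1880 hTd)
lemma tp1843 (hTd : TdOK) : Good 0 ![w206, w47, w34, w259, w201, w96] :=
  split25 (m := w100) (by decide +kernel) (ch1874 hTd) (tp1842 hTd)
lemma tp1844 (hTd : TdOK) : Good 0 ![w206, w47, w34, w257, w201, w96] :=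
  split23 (m := w259) (by decide +kernel) (tp1837 hTd) (tp1843 hTd)
lemma tp1845 (hTd : TdOK) : Good 0 ![w206, w47, w34, w257, w200, w96] :=
  split24 (m := w201) (by decide +kernel) (ch1871 hTd) (tp1844 hTd)
lemma tp1846 (hTd : TdOK) : Good 0 ![w206, w102, w47, w257, w203, w270] :=
  split23 (m := w263) (by decide +kernel) (ch1883 hTd) (ch1884 hTd)
lemma tp1847 (hTd : TdOK) : Good 0 ![w206, w102, w47, w257, w203, w96] :=
  split25 (m := w270) (by decide +kernel) (ch1882 hTd) (tp1846 hTd)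
lemma tp1848 (hTd : TdOK) : Good 0 ![w208, w262, w47, w263, w203, w102] :=
  split24 (m := w204) (by decide +kernel) (ch1886 hTd) (ch1887 hTd)
lemma tp1849 (hTd : TdOK) : Good 0 ![w208, w262, w47, w257, w203, w102] :=
  split23 (m := w263) (by decide +kernel) (ch1885 hTd) (tp1848 hTd)
lemma tp1850 (hTd : TdOK) : Good 0 ![w272, w57, w264, w262, w204, w271] :=
  split13 (m := w273) (by decide +kernel) (ch1890 hTd) (ch1891 hTd)
lemma tp1851 (hTd : TdOK) : Good 0 ![w208, w57, w264, w262, w204, w271] :=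
  split01 (m := w272) (by decide +kernel) (tp1850 hTd) (ch1892 hTd)
lemma tp1852 (hTd : TdOK) : Good 0 ![w208, w57, w264, w262, w204, w102] :=
  split15 (m := w271) (by decide +kernel) (ch1889 hTd) (tp1851 hTd)
lemma tp1853 (hTd : TdOK) : Good 0 ![w208, w57, w47, w264, w204, w102] :=
  split25 (m := w105) (by decide +kernel) (ch1893 hTd) (ch1894 hTd)
lemma tp1854 (hTd : TdOK) : Good 0 ![w208, w57, w47, w262, w204, w102] :=
  split23 (m := w264) (by decide +kernel) (tp1852 hTd) (tp1853 hTd)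
lemma tp1855 (hTd : TdOK) : Good 0 ![w208, w57, w47, w262, w203, w102] :=
  split24 (m := w204) (by decide +kernel) (ch1888 hTd) (tp1854 hTd)
lemma tp1856 (hTd : TdOK) : Good 0 ![w208, w12, w47, w262, w203, w102] :=
  split12 (m := w57) (by decide +kernel) (tp1855 hTd) (ch1895 hTd)
lemma tp1857 (hTd : TdOK) : Good 0 ![w208, w12, w47, w257, w203, w102] :=
  split13 (m := w262) (by decide +kernel) (tp1849 hTd) (tp1856 hTd)
lemma tp1858 (hTd : TdOK) : Good 0 ![w206, w208, w47, w257, w203, w102] :=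
  split02 (m := w274) (by decide +kernel) (ch1896 hTd) (ch1897 hTd)
lemma tp1859 (hTd : TdOK) : Good 0 ![w206, w12, w47, w257, w203, w102] :=
  split01 (m := w208) (by decide +kernel) (tp1857 hTd) (tp1858 hTd)
lemma tp1860 (hTd : TdOK) : Good 0 ![w206, w12, w47, w257, w203, w96] :=
  split15 (m := w102) (by decide +kernel) (tp1847 hTd) (tp1859 hTd)
lemma tp1861 (hTd : TdOK) : Good 0 ![w206, w12, w47, w257, w200, w96] :=
  split14 (m := w203) (by decide +kernel) (ch1881 hTd) (tp1860 hTd)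
lemma tp1862 (hTd : TdOK) : Good 0 ![w206, w12, w34, w257, w200, w96] :=
  split12 (m := w47) (by decide +kernel) (tp1845 hTd) (tp1861 hTd)
lemma tp1863 (hTd : TdOK) : Good 0 ![w206, w12, w34, w255, w200, w96] :=
  split13 (m := w257) (by decide +kernel) (tp1836 hTd) (tp1862 hTd)
lemma tp1864 (hTd : TdOK) : Good 0 ![w205, w206, w34, w269, w201, w96] :=
  split02 (m := w209) (by decide +kernel) (ch1900 hTd) (ch1901 hTd)
lemma tp1865 (hTd : TdOK) : Good 0 ![w205, w206, w34, w269, w200, w96] :=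
  split24 (m := w201) (by decide +kernel) (ch1899 hTd) (tp1864 hTd)
lemma tp1866 (hTd : TdOK) : Good 0 ![w205, w206, w34, w255, w200, w96] :=
  split23 (m := w269) (by decide +kernel) (ch1898 hTd) (tp1865 hTd)
lemma tp1867 (hTd : TdOK) : Good 0 ![w205, w12, w34, w255, w200, w96] :=
  split01 (m := w206) (by decide +kernel) (tp1863 hTd) (tp1866 hTd)
lemma tp1868 (hTd : TdOK) : Good 0 ![w205, w12, w34, w255, w200, w94] :=
  split15 (m := w96) (by decide +kernel) (tp1833 hTd) (tp1867 hTd)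
lemma tp1869 (hTd : TdOK) : Good 0 ![w205, w12, w34, w255, w181, w94] :=
  split14 (m := w200) (by decide +kernel) (ch1863 hTd) (tp1868 hTd)
lemma tp1870 (hTd : TdOK) : Good 0 ![w268, w12, w206, w255, w200, w96] :=
  split03 (m := w275) (by decide +kernel) (ch1905 hTd) (ch1906 hTd)
lemma tp1871 (hTd : TdOK) : Good 0 ![w268, w12, w205, w255, w200, w96] :=
  split12 (m := w206) (by decide +kernel) (ch1904 hTd) (tp1870 hTd)
lemma tp1872 (hTd : TdOK) : Good 0 ![w268, w12, w205, w255, w200, w94] :=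
  split15 (m := w96) (by decide +kernel) (ch1903 hTd) (tp1871 hTd)
lemma tp1873 (hTd : TdOK) : Good 0 ![w268, w12, w205, w255, w181, w94] :=
  split14 (m := w200) (by decide +kernel) (ch1902 hTd) (tp1872 hTd)
lemma tp1874 (hTd : TdOK) : Good 0 ![w180, w12, w205, w255, w181, w94] :=
  split01 (m := w268) (by decide +kernel) (tp1873 hTd) (ch1907 hTd)
lemma tp1875 (hTd : TdOK) : Good 0 ![w180, w12, w34, w255, w181, w94] :=
  split02 (m := w205) (by decide +kernel) (tp1869 hTd) (tp1874 hTd)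
lemma tp1876 (hTd : TdOK) : Good 0 ![w180, w12, w34, w253, w181, w94] :=
  split13 (m := w255) (by decide +kernel) (ch1862 hTd) (tp1875 hTd)
lemma tp1877 (hTd : TdOK) : Good 0 ![w180, w12, w34, w253, w181, w18] :=
  split25 (m := w94) (by decide +kernel) (tp1831 hTd) (tp1876 hTd)
lemma tp1878 (hTd : TdOK) : Good 0 ![w180, w12, w34, w253, w177, w18] :=
  split14 (m := w181) (by decide +kernel) (ch1856 hTd) (tp1877 hTd)
lemma tp1879 (hTd : TdOK) : Good 0 ![w280, w52, w34, w281, w207, w103] :=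
  split24 (m := w212) (by decide +kernel) (ch1918 hTd) (ch1919 hTd)
lemma tp1880 (hTd : TdOK) : Good 0 ![w280, w52, w34, w281, w207, w100] :=
  split25 (m := w103) (by decide +kernel) (ch1917 hTd) (tp1879 hTd)
lemma tp1881 (hTd : TdOK) : Good 0 ![w280, w47, w34, w281, w207, w100] :=
  split12 (m := w52) (by decide +kernel) (tp1880 hTd) (ch1920 hTd)
lemma tp1882 (hTd : TdOK) : Good 0 ![w280, w47, w34, w278, w207, w100] :=
  split23 (m := w281) (by decide +kernel) (ch1916 hTd) (tp1881 hTd)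
lemma tp1883 (hTd : TdOK) : Good 0 ![w279, w47, w34, w278, w207, w100] :=
  split02 (m := w280) (by decide +kernel) (tp1882 hTd) (ch1921 hTd)
lemma tp1884 (hTd : TdOK) : Good 0 ![w279, w47, w34, w278, w206, w100] :=
  split24 (m := w207) (by decide +kernel) (ch1915 hTd) (tp1883 hTd)
lemma tp1885 (hTd : TdOK) : Good 0 ![w279, w47, w34, w278, w206, w96] :=
  split25 (m := w100) (by decide +kernel) (ch1914 hTd) (tp1884 hTd)
lemma tp1886 (hTd : TdOK) : Good 0 ![w283, w12, w47, w282, w208, w102] :=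
  split12 (m := w57) (by decide +kernel) (ch1925 hTd) (ch1926 hTd)
lemma tp1887 (hTd : TdOK) : Good 0 ![w279, w12, w47, w282, w208, w102] :=
  split01 (m := w283) (by decide +kernel) (tp1886 hTd) (ch1927 hTd)
lemma tp1888 (hTd : TdOK) : Good 0 ![w279, w12, w47, w282, w206, w102] :=
  split14 (m := w208) (by decide +kernel) (ch1924 hTd) (tp1887 hTd)
lemma tp1889 (hTd : TdOK) : Good 0 ![w279, w12, w47, w282, w206, w96] :=
  split15 (m := w102) (by decide +kernel) (ch1923 hTd) (tp1888 hTd)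
lemma tp1890 (hTd : TdOK) : Good 0 ![w279, w12, w47, w278, w206, w96] :=
  split13 (m := w282) (by decide +kernel) (ch1922 hTd) (tp1889 hTd)
lemma tp1891 (hTd : TdOK) : Good 0 ![w279, w12, w34, w278, w206, w96] :=
  split12 (m := w47) (by decide +kernel) (tp1885 hTd) (tp1890 hTd)
lemma tp1892 (hTd : TdOK) : Good 0 ![w284, w280, w34, w281, w207, w100] :=
  split25 (m := w103) (by decide +kernel) (ch1931 hTd) (ch1932 hTd)
lemma tp1893 (hTd : TdOK) : Good 0 ![w284, w280, w34, w278, w207, w100] :=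
  split23 (m := w281) (by decide +kernel) (ch1930 hTd) (tp1892 hTd)
lemma tp1894 (hTd : TdOK) : Good 0 ![w284, w279, w34, w278, w207, w100] :=
  split12 (m := w280) (by decide +kernel) (tp1893 hTd) (ch1933 hTd)
lemma tp1895 (hTd : TdOK) : Good 0 ![w284, w279, w34, w278, w206, w100] :=
  split24 (m := w207) (by decide +kernel) (ch1929 hTd) (tp1894 hTd)
lemma tp1896 (hTd : TdOK) : Good 0 ![w277, w279, w34, w278, w206, w100] :=
  split02 (m := w284) (by decide +kernel) (tp1895 hTd) (ch1934 hTd)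
lemma tp1897 (hTd : TdOK) : Good 0 ![w277, w279, w34, w278, w206, w96] :=
  split25 (m := w100) (by decide +kernel) (ch1928 hTd) (tp1896 hTd)
lemma tp1898 (hTd : TdOK) : Good 0 ![w277, w12, w34, w278, w206, w96] :=
  split01 (m := w279) (by decide +kernel) (tp1891 hTd) (tp1897 hTd)
lemma tp1899 (hTd : TdOK) : Good 0 ![w277, w12, w34, w267, w206, w96] :=
  split23 (m := w278) (by decide +kernel) (ch1913 hTd) (tp1898 hTd)
lemma tp1900 (hTd : TdOK) : Good 0 ![w277, w12, w34, w267, w205, w96] :=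
  split14 (m := w206) (by decide +kernel) (ch1912 hTd) (tp1899 hTd)
lemma tp1901 (hTd : TdOK) : Good 0 ![w277, w12, w34, w267, w205, w94] :=
  split15 (m := w96) (by decide +kernel) (ch1911 hTd) (tp1900 hTd)
lemma tp1902 (hTd : TdOK) : Good 0 ![w276, w12, w34, w267, w205, w94] :=
  split02 (m := w277) (by decide +kernel) (tp1901 hTd) (ch1935 hTd)
lemma tp1903 (hTd : TdOK) : Good 0 ![w276, w12, w34, w266, w205, w94] :=
  split13 (m := w267) (by decide +kernel) (ch1910 hTd) (tp1902 hTd)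
lemma tp1904 (hTd : TdOK) : Good 0 ![w276, w12, w34, w266, w180, w94] :=
  split24 (m := w205) (by decide +kernel) (ch1909 hTd) (tp1903 hTd)
lemma tp1905 (hTd : TdOK) : Good 0 ![w276, w12, w34, w266, w180, w18] :=
  split25 (m := w94) (by decide +kernel) (ch1908 hTd) (tp1904 hTd)
lemma tp1906 (hTd : TdOK) : Good 0 ![w284, w206, w34, w269, w209, w278] :=
  split12 (m := w207) (by decide +kernel) (ch1942 hTd) (ch1943 hTd)
lemma tp1907 (hTd : TdOK) : Good 0 ![w277, w206, w34, w269, w209, w278] :=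
  split02 (m := w284) (by decide +kernel) (tp1906 hTd) (ch1944 hTd)
lemma tp1908 (hTd : TdOK) : Good 0 ![w277, w206, w34, w269, w205, w278] :=
  split24 (m := w209) (by decide +kernel) (ch1941 hTd) (tp1907 hTd)
lemma tp1909 (hTd : TdOK) : Good 0 ![w277, w206, w34, w255, w205, w278] :=
  split23 (m := w269) (by decide +kernel) (ch1940 hTd) (tp1908 hTd)
lemma tp1910 (hTd : TdOK) : Good 0 ![w277, w206, w34, w255, w205, w267] :=
  split25 (m := w278) (by decide +kernel) (ch1939 hTd) (tp1909 hTd)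
lemma tp1911 (hTd : TdOK) : Good 0 ![w284, w259, w34, w269, w206, w278] :=
  split24 (m := w207) (by decide +kernel) (ch1947 hTd) (ch1948 hTd)
lemma tp1912 (hTd : TdOK) : Good 0 ![w277, w259, w34, w269, w206, w278] :=
  split02 (m := w284) (by decide +kernel) (tp1911 hTd) (ch1949 hTd)
lemma tp1913 (hTd : TdOK) : Good 0 ![w277, w257, w34, w269, w206, w278] :=
  split12 (m := w259) (by decide +kernel) (tp1912 hTd) (ch1950 hTd)
lemma tp1914 (hTd : TdOK) : Good 0 ![w277, w257, w34, w255, w206, w278] :=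
  split23 (m := w269) (by decide +kernel) (ch1946 hTd) (tp1913 hTd)
lemma tp1915 (hTd : TdOK) : Good 0 ![w277, w257, w34, w255, w206, w267] :=
  split25 (m := w278) (by decide +kernel) (ch1945 hTd) (tp1914 hTd)
lemma tp1916 (hTd : TdOK) : Good 0 ![w279, w12, w282, w257, w206, w285] :=
  split14 (m := w208) (by decide +kernel) (ch1953 hTd) (ch1954 hTd)
lemma tp1917 (hTd : TdOK) : Good 0 ![w279, w12, w278, w257, w206, w285] :=
  split12 (m := w282) (by decide +kernel) (ch1952 hTd) (tp1916 hTd)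
lemma tp1918 (hTd : TdOK) : Good 0 ![w279, w12, w278, w257, w206, w267] :=
  split15 (m := w285) (by decide +kernel) (ch1951 hTd) (tp1917 hTd)
lemma tp1919 (hTd : TdOK) : Good 0 ![w277, w12, w278, w257, w206, w267] :=
  split01 (m := w279) (by decide +kernel) (tp1918 hTd) (ch1955 hTd)
lemma tp1920 (hTd : TdOK) : Good 0 ![w279, w47, w259, w257, w206, w278] :=
  split13 (m := w263) (by decide +kernel) (ch1956 hTd) (ch1957 hTd)
lemma tp1921 (hTd : TdOK) : Good 0 ![w280, w52, w34, w261, w207, w281] :=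
  split24 (m := w212) (by decide +kernel) (ch1961 hTd) (ch1962 hTd)
lemma tp1922 (hTd : TdOK) : Good 0 ![w280, w52, w34, w259, w207, w281] :=
  split23 (m := w261) (by decide +kernel) (ch1960 hTd) (tp1921 hTd)
lemma tp1923 (hTd : TdOK) : Good 0 ![w280, w47, w34, w259, w207, w281] :=
  split12 (m := w52) (by decide +kernel) (tp1922 hTd) (ch1963 hTd)
lemma tp1924 (hTd : TdOK) : Good 0 ![w280, w47, w34, w259, w207, w278] :=
  split25 (m := w281) (by decide +kernel) (ch1959 hTd) (tp1923 hTd)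
lemma tp1925 (hTd : TdOK) : Good 0 ![w279, w47, w34, w259, w207, w278] :=
  split02 (m := w280) (by decide +kernel) (tp1924 hTd) (ch1964 hTd)
lemma tp1926 (hTd : TdOK) : Good 0 ![w279, w47, w34, w259, w206, w278] :=
  split24 (m := w207) (by decide +kernel) (ch1958 hTd) (tp1925 hTd)
lemma tp1927 (hTd : TdOK) : Good 0 ![w279, w47, w34, w257, w206, w278] :=
  split23 (m := w259) (by decide +kernel) (tp1920 hTd) (tp1926 hTd)
lemma tp1928 (hTd : TdOK) : Good 0 ![w283, w262, w47, w257, w208, w282] :=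
  split23 (m := w263) (by decide +kernel) (ch1967 hTd) (ch1968 hTd)
lemma tp1929 (hTd : TdOK) : Good 0 ![w283, w57, w264, w262, w286, w282] :=
  split13 (m := w273) (by decide +kernel) (ch1970 hTd) (ch1971 hTd)
lemma tp1930 (hTd : TdOK) : Good 0 ![w283, w57, w264, w262, w208, w282] :=
  split24 (m := w286) (by decide +kernel) (ch1969 hTd) (tp1929 hTd)
lemma tp1931 (hTd : TdOK) : Good 0 ![w283, w57, w47, w262, w208, w282] :=
  split23 (m := w264) (by decide +kernel) (tp1930 hTd) (ch1972 hTd)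
lemma tp1932 (hTd : TdOK) : Good 0 ![w283, w12, w47, w262, w208, w282] :=
  split12 (m := w57) (by decide +kernel) (tp1931 hTd) (ch1973 hTd)
lemma tp1933 (hTd : TdOK) : Good 0 ![w283, w12, w47, w257, w208, w282] :=
  split13 (m := w262) (by decide +kernel) (tp1928 hTd) (tp1932 hTd)
lemma tp1934 (hTd : TdOK) : Good 0 ![w279, w12, w47, w257, w208, w282] :=
  split01 (m := w283) (by decide +kernel) (tp1933 hTd) (ch1974 hTd)
lemma tp1935 (hTd : TdOK) : Good 0 ![w279, w12, w47, w257, w206, w282] :=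
  split14 (m := w208) (by decide +kernel) (ch1966 hTd) (tp1934 hTd)
lemma tp1936 (hTd : TdOK) : Good 0 ![w279, w12, w47, w257, w206, w278] :=
  split15 (m := w282) (by decide +kernel) (ch1965 hTd) (tp1935 hTd)
lemma tp1937 (hTd : TdOK) : Good 0 ![w279, w12, w34, w257, w206, w278] :=
  split12 (m := w47) (by decide +kernel) (tp1927 hTd) (tp1936 hTd)
lemma tp1938 (hTd : TdOK) : Good 0 ![w284, w280, w34, w261, w207, w281] :=
  split24 (m := w212) (by decide +kernel) (ch1979 hTd) (ch1980 hTd)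
lemma tp1939 (hTd : TdOK) : Good 0 ![w284, w280, w34, w259, w207, w281] :=
  split23 (m := w261) (by decide +kernel) (ch1978 hTd) (tp1938 hTd)
lemma tp1940 (hTd : TdOK) : Good 0 ![w284, w280, w34, w259, w207, w278] :=
  split25 (m := w281) (by decide +kernel) (ch1977 hTd) (tp1939 hTd)
lemma tp1941 (hTd : TdOK) : Good 0 ![w284, w279, w34, w259, w207, w278] :=
  split12 (m := w280) (by decide +kernel) (tp1940 hTd) (ch1981 hTd)
lemma tp1942 (hTd : TdOK) : Good 0 ![w284, w279, w34, w259, w206, w278] :=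
  split24 (m := w207) (by decide +kernel) (ch1976 hTd) (tp1941 hTd)
lemma tp1943 (hTd : TdOK) : Good 0 ![w277, w279, w34, w259, w206, w278] :=
  split02 (m := w284) (by decide +kernel) (tp1942 hTd) (ch1982 hTd)
lemma tp1944 (hTd : TdOK) : Good 0 ![w277, w279, w34, w257, w206, w278] :=
  split23 (m := w259) (by decide +kernel) (ch1975 hTd) (tp1943 hTd)
lemma tp1945 (hTd : TdOK) : Good 0 ![w277, w12, w34, w257, w206, w278] :=
  split01 (m := w279) (by decide +kernel) (tp1937 hTd) (tp1944 hTd)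
lemma tp1946 (hTd : TdOK) : Good 0 ![w277, w12, w34, w257, w206, w267] :=
  split25 (m := w278) (by decide +kernel) (tp1919 hTd) (tp1945 hTd)
lemma tp1947 (hTd : TdOK) : Good 0 ![w277, w12, w34, w255, w206, w267] :=
  split13 (m := w257) (by decide +kernel) (tp1915 hTd) (tp1946 hTd)
lemma tp1948 (hTd : TdOK) : Good 0 ![w277, w12, w34, w255, w205, w267] :=
  split14 (m := w206) (by decide +kernel) (tp1910 hTd) (tp1947 hTd)
lemma tp1949 (hTd : TdOK) : Good 0 ![w276, w12, w34, w255, w205, w267] :=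
  split02 (m := w277) (by decide +kernel) (tp1948 hTd) (ch1983 hTd)
lemma tp1950 (hTd : TdOK) : Good 0 ![w276, w12, w34, w255, w205, w266] :=
  split15 (m := w267) (by decide +kernel) (ch1938 hTd) (tp1949 hTd)
lemma tp1951 (hTd : TdOK) : Good 0 ![w276, w12, w34, w255, w180, w266] :=
  split24 (m := w205) (by decide +kernel) (ch1937 hTd) (tp1950 hTd)
lemma tp1952 (hTd : TdOK) : Good 0 ![w276, w12, w34, w253, w180, w266] :=
  split13 (m := w255) (by decide +kernel) (ch1936 hTd) (tp1951 hTd)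
lemma tp1953 (hTd : TdOK) : Good 0 ![w276, w12, w34, w253, w180, w18] :=
  split35 (m := w266) (by decide +kernel) (tp1905 hTd) (tp1952 hTd)
lemma tp1954 (hTd : TdOK) : Good 0 ![w84, w96, w34, w277, w209, w104] :=
  split12 (m := w100) (by decide +kernel) (ch1989 hTd) (ch1990 hTd)
lemma tp1955 (hTd : TdOK) : Good 0 ![w84, w96, w34, w277, w205, w104] :=
  split24 (m := w209) (by decide +kernel) (ch1988 hTd) (tp1954 hTd)
lemma tp1956 (hTd : TdOK) : Good 0 ![w84, w96, w34, w277, w205, w94] :=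
  split25 (m := w104) (by decide +kernel) (ch1987 hTd) (tp1955 hTd)
lemma tp1957 (hTd : TdOK) : Good 0 ![w87, w207, w34, w284, w209, w100] :=
  split24 (m := w211) (by decide +kernel) (ch1994 hTd) (ch1995 hTd)
lemma tp1958 (hTd : TdOK) : Good 0 ![w84, w207, w34, w284, w209, w100] :=
  split02 (m := w87) (by decide +kernel) (tp1957 hTd) (ch1996 hTd)
lemma tp1959 (hTd : TdOK) : Good 0 ![w84, w207, w34, w277, w209, w100] :=
  split23 (m := w284) (by decide +kernel) (ch1993 hTd) (tp1958 hTd)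
lemma tp1960 (hTd : TdOK) : Good 0 ![w84, w206, w34, w277, w209, w100] :=
  split12 (m := w207) (by decide +kernel) (tp1959 hTd) (ch1997 hTd)
lemma tp1961 (hTd : TdOK) : Good 0 ![w84, w206, w34, w277, w209, w96] :=
  split25 (m := w100) (by decide +kernel) (ch1992 hTd) (tp1960 hTd)
lemma tp1962 (hTd : TdOK) : Good 0 ![w84, w206, w34, w277, w205, w96] :=
  split24 (m := w209) (by decide +kernel) (ch1991 hTd) (tp1961 hTd)
lemma tp1963 (hTd : TdOK) : Good 0 ![w87, w52, w34, w284, w207, w103] :=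
  split24 (m := w212) (by decide +kernel) (ch2002 hTd) (ch2003 hTd)
lemma tp1964 (hTd : TdOK) : Good 0 ![w87, w52, w34, w284, w207, w100] :=
  split25 (m := w103) (by decide +kernel) (ch2001 hTd) (tp1963 hTd)
lemma tp1965 (hTd : TdOK) : Good 0 ![w87, w47, w52, w284, w207, w100] :=
  split13 (m := w280) (by decide +kernel) (ch2004 hTd) (ch2005 hTd)
lemma tp1966 (hTd : TdOK) : Good 0 ![w87, w47, w34, w284, w207, w100] :=
  split12 (m := w52) (by decide +kernel) (tp1964 hTd) (tp1965 hTd)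
lemma tp1967 (hTd : TdOK) : Good 0 ![w84, w47, w34, w284, w207, w100] :=
  split02 (m := w87) (by decide +kernel) (tp1966 hTd) (ch2006 hTd)
lemma tp1968 (hTd : TdOK) : Good 0 ![w84, w47, w34, w284, w206, w100] :=
  split24 (m := w207) (by decide +kernel) (ch2000 hTd) (tp1967 hTd)
lemma tp1969 (hTd : TdOK) : Good 0 ![w84, w47, w34, w277, w206, w100] :=
  split23 (m := w284) (by decide +kernel) (ch1999 hTd) (tp1968 hTd)
lemma tp1970 (hTd : TdOK) : Good 0 ![w84, w47, w34, w277, w206, w96] :=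
  split25 (m := w100) (by decide +kernel) (ch1998 hTd) (tp1969 hTd)
lemma tp1971 (hTd : TdOK) : Good 0 ![w91, w57, w47, w283, w208, w105] :=
  split24 (m := w287) (by decide +kernel) (ch2012 hTd) (ch2013 hTd)
lemma tp1972 (hTd : TdOK) : Good 0 ![w91, w57, w47, w283, w208, w102] :=
  split25 (m := w105) (by decide +kernel) (ch2011 hTd) (tp1971 hTd)
lemma tp1973 (hTd : TdOK) : Good 0 ![w91, w12, w47, w283, w208, w102] :=
  split12 (m := w57) (by decide +kernel) (tp1972 hTd) (ch2014 hTd)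
lemma tp1974 (hTd : TdOK) : Good 0 ![w90, w12, w47, w283, w208, w102] :=
  split01 (m := w91) (by decide +kernel) (tp1973 hTd) (ch2015 hTd)
lemma tp1975 (hTd : TdOK) : Good 0 ![w90, w12, w47, w279, w208, w102] :=
  split13 (m := w283) (by decide +kernel) (ch2010 hTd) (tp1974 hTd)
lemma tp1976 (hTd : TdOK) : Good 0 ![w90, w12, w47, w279, w206, w102] :=
  split14 (m := w208) (by decide +kernel) (ch2009 hTd) (tp1975 hTd)
lemma tp1977 (hTd : TdOK) : Good 0 ![w90, w12, w47, w279, w206, w96] :=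
  split15 (m := w102) (by decide +kernel) (ch2008 hTd) (tp1976 hTd)
lemma tp1978 (hTd : TdOK) : Good 0 ![w84, w12, w47, w279, w206, w96] :=
  split01 (m := w90) (by decide +kernel) (tp1977 hTd) (ch2016 hTd)
lemma tp1979 (hTd : TdOK) : Good 0 ![w84, w12, w47, w277, w206, w96] :=
  split13 (m := w279) (by decide +kernel) (ch2007 hTd) (tp1978 hTd)
lemma tp1980 (hTd : TdOK) : Good 0 ![w84, w12, w34, w277, w206, w96] :=
  split12 (m := w47) (by decide +kernel) (tp1970 hTd) (tp1979 hTd)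
lemma tp1981 (hTd : TdOK) : Good 0 ![w84, w12, w34, w277, w205, w96] :=
  split14 (m := w206) (by decide +kernel) (tp1962 hTd) (tp1980 hTd)
lemma tp1982 (hTd : TdOK) : Good 0 ![w84, w12, w34, w277, w205, w94] :=
  split15 (m := w96) (by decide +kernel) (tp1956 hTd) (tp1981 hTd)
lemma tp1983 (hTd : TdOK) : Good 0 ![w83, w12, w34, w277, w205, w94] :=
  split02 (m := w84) (by decide +kernel) (tp1982 hTd) (ch2017 hTd)
lemma tp1984 (hTd : TdOK) : Good 0 ![w83, w12, w34, w276, w205, w94] :=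
  split23 (m := w277) (by decide +kernel) (ch1986 hTd) (tp1983 hTd)
lemma tp1985 (hTd : TdOK) : Good 0 ![w83, w12, w34, w276, w180, w94] :=
  split24 (m := w205) (by decide +kernel) (ch1985 hTd) (tp1984 hTd)
lemma tp1986 (hTd : TdOK) : Good 0 ![w83, w12, w34, w276, w180, w18] :=
  split25 (m := w94) (by decide +kernel) (ch1984 hTd) (tp1985 hTd)
lemma tp1987 (hTd : TdOK) : Good 0 ![w0, w12, w34, w276, w180, w18] :=
  split02 (m := w83) (by decide +kernel) (tp1986 hTd) (ch2018 hTd)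
lemma tp1988 (hTd : TdOK) : Good 0 ![w0, w12, w34, w253, w180, w18] :=
  split03 (m := w276) (by decide +kernel) (tp1953 hTd) (tp1987 hTd)
lemma tp1989 (hTd : TdOK) : Good 0 ![w0, w12, w34, w253, w177, w18] :=
  split04 (m := w180) (by decide +kernel) (tp1878 hTd) (tp1988 hTd)
lemma tp1990 (hTd : TdOK) : Good 0 ![w0, w12, w34, w253, w177, w8] :=
  split05 (m := w18) (by decide +kernel) (tp1827 hTd) (tp1989 hTd)
lemma tp1991 (hTd : TdOK) : Good 0 ![w220, w52, w34, w219, w140, w50] :=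
  split24 (m := w141) (by decide +kernel) (ch2029 hTd) (ch2030 hTd)
lemma tp1992 (hTd : TdOK) : Good 0 ![w218, w52, w34, w219, w140, w50] :=
  split02 (m := w220) (by decide +kernel) (tp1991 hTd) (ch2031 hTd)
lemma tp1993 (hTd : TdOK) : Good 0 ![w218, w47, w52, w219, w140, w50] :=
  split01 (m := w221) (by decide +kernel) (ch2032 hTd) (ch2033 hTd)
lemma tp1994 (hTd : TdOK) : Good 0 ![w218, w47, w34, w219, w140, w50] :=
  split12 (m := w52) (by decide +kernel) (tp1992 hTd) (tp1993 hTd)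
lemma tp1995 (hTd : TdOK) : Good 0 ![w218, w47, w34, w219, w140, w44] :=
  split25 (m := w50) (by decide +kernel) (ch2028 hTd) (tp1994 hTd)
lemma tp1996 (hTd : TdOK) : Good 0 ![w218, w47, w34, w217, w140, w44] :=
  split23 (m := w219) (by decide +kernel) (ch2027 hTd) (tp1995 hTd)
lemma tp1997 (hTd : TdOK) : Good 0 ![w218, w47, w34, w217, w139, w44] :=
  split24 (m := w140) (by decide +kernel) (ch2026 hTd) (tp1996 hTd)
lemma tp1998 (hTd : TdOK) : Good 0 ![w218, w47, w34, w217, w139, w40] :=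
  split25 (m := w44) (by decide +kernel) (ch2025 hTd) (tp1997 hTd)
lemma tp1999 (hTd : TdOK) : Good 0 ![w216, w47, w34, w217, w139, w40] :=
  split02 (m := w218) (by decide +kernel) (tp1998 hTd) (ch2034 hTd)
lemma tp2000 (hTd : TdOK) : Good 0 ![w223, w224, w47, w217, w142, w43] :=
  split23 (m := w225) (by decide +kernel) (ch2037 hTd) (ch2038 hTd)
lemma tp2001 (hTd : TdOK) : Good 0 ![w222, w224, w47, w217, w142, w43] :=
  split02 (m := w223) (by decide +kernel) (tp2000 hTd) (ch2039 hTd)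
lemma tp2002 (hTd : TdOK) : Good 0 ![w223, w57, w47, w224, w143, w45] :=
  split23 (m := w226) (by decide +kernel) (ch2042 hTd) (ch2043 hTd)
lemma tp2003 (hTd : TdOK) : Good 0 ![w223, w57, w47, w224, w142, w45] :=
  split24 (m := w143) (by decide +kernel) (ch2041 hTd) (tp2002 hTd)
lemma tp2004 (hTd : TdOK) : Good 0 ![w223, w227, w57, w224, w288, w45] :=
  split35 (m := w229) (by decide +kernel) (ch2046 hTd) (ch2047 hTd)
lemma tp2005 (hTd : TdOK) : Good 0 ![w223, w227, w57, w224, w142, w45] :=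
  split24 (m := w288) (by decide +kernel) (ch2045 hTd) (tp2004 hTd)
lemma tp2006 (hTd : TdOK) : Good 0 ![w223, w12, w57, w224, w142, w45] :=
  split01 (m := w227) (by decide +kernel) (ch2044 hTd) (tp2005 hTd)
lemma tp2007 (hTd : TdOK) : Good 0 ![w223, w12, w47, w224, w142, w45] :=
  split12 (m := w57) (by decide +kernel) (tp2003 hTd) (tp2006 hTd)
lemma tp2008 (hTd : TdOK) : Good 0 ![w223, w12, w47, w224, w142, w43] :=
  split25 (m := w45) (by decide +kernel) (ch2040 hTd) (tp2007 hTd)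
lemma tp2009 (hTd : TdOK) : Good 0 ![w222, w12, w223, w224, w142, w43] :=
  split01 (m := w230) (by decide +kernel) (ch2048 hTd) (ch2049 hTd)
lemma tp2010 (hTd : TdOK) : Good 0 ![w222, w12, w47, w224, w142, w43] :=
  split02 (m := w223) (by decide +kernel) (tp2008 hTd) (tp2009 hTd)
lemma tp2011 (hTd : TdOK) : Good 0 ![w222, w12, w47, w217, w142, w43] :=
  split13 (m := w224) (by decide +kernel) (tp2001 hTd) (tp2010 hTd)
lemma tp2012 (hTd : TdOK) : Good 0 ![w222, w12, w47, w217, w139, w43] :=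
  split14 (m := w142) (by decide +kernel) (ch2036 hTd) (tp2011 hTd)
lemma tp2013 (hTd : TdOK) : Good 0 ![w222, w12, w47, w217, w139, w40] :=
  split15 (m := w43) (by decide +kernel) (ch2035 hTd) (tp2012 hTd)
lemma tp2014 (hTd : TdOK) : Good 0 ![w216, w12, w47, w217, w139, w40] :=
  split01 (m := w222) (by decide +kernel) (tp2013 hTd) (ch2050 hTd)
lemma tp2015 (hTd : TdOK) : Good 0 ![w216, w12, w34, w217, w139, w40] :=
  split12 (m := w47) (by decide +kernel) (tp1999 hTd) (tp2014 hTd)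
lemma tp2016 (hTd : TdOK) : Good 0 ![w216, w12, w34, w215, w139, w40] :=
  split13 (m := w217) (by decide +kernel) (ch2024 hTd) (tp2015 hTd)
lemma tp2017 (hTd : TdOK) : Good 0 ![w216, w12, w34, w215, w139, w35] :=
  split15 (m := w40) (by decide +kernel) (ch2023 hTd) (tp2016 hTd)
lemma tp2018 (hTd : TdOK) : Good 0 ![w216, w12, w34, w215, w138, w35] :=
  split14 (m := w139) (by decide +kernel) (ch2022 hTd) (tp2017 hTd)
lemma tp2019 (hTd : TdOK) : Good 0 ![w214, w12, w34, w215, w138, w35] :=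
  split01 (m := w216) (by decide +kernel) (tp2018 hTd) (ch2051 hTd)
lemma tp2020 (hTd : TdOK) : Good 0 ![w214, w12, w34, w213, w138, w35] :=
  split13 (m := w215) (by decide +kernel) (ch2021 hTd) (tp2019 hTd)
lemma tp2021 (hTd : TdOK) : Good 0 ![w62, w47, w34, w218, w140, w50] :=
  split12 (m := w52) (by decide +kernel) (ch2059 hTd) (ch2060 hTd)
lemma tp2022 (hTd : TdOK) : Good 0 ![w62, w47, w34, w218, w140, w44] :=
  split25 (m := w50) (by decide +kernel) (ch2058 hTd) (tp2021 hTd)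
lemma tp2023 (hTd : TdOK) : Good 0 ![w60, w47, w34, w218, w140, w44] :=
  split02 (m := w62) (by decide +kernel) (tp2022 hTd) (ch2061 hTd)
lemma tp2024 (hTd : TdOK) : Good 0 ![w60, w47, w34, w218, w139, w44] :=
  split24 (m := w140) (by decide +kernel) (ch2057 hTd) (tp2023 hTd)
lemma tp2025 (hTd : TdOK) : Good 0 ![w60, w47, w34, w218, w139, w40] :=
  split25 (m := w44) (by decide +kernel) (ch2056 hTd) (tp2024 hTd)
lemma tp2026 (hTd : TdOK) : Good 0 ![w60, w47, w34, w216, w139, w40] :=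
  split23 (m := w218) (by decide +kernel) (ch2055 hTd) (tp2025 hTd)
lemma tp2027 (hTd : TdOK) : Good 0 ![w64, w57, w47, w223, w142, w45] :=
  split24 (m := w143) (by decide +kernel) (ch2067 hTd) (ch2068 hTd)
lemma tp2028 (hTd : TdOK) : Good 0 ![w64, w12, w57, w223, w142, w45] :=
  split13 (m := w227) (by decide +kernel) (ch2069 hTd) (ch2070 hTd)
lemma tp2029 (hTd : TdOK) : Good 0 ![w64, w12, w47, w223, w142, w45] :=
  split12 (m := w57) (by decide +kernel) (tp2027 hTd) (tp2028 hTd)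
lemma tp2030 (hTd : TdOK) : Good 0 ![w64, w12, w47, w223, w142, w43] :=
  split25 (m := w45) (by decide +kernel) (ch2066 hTd) (tp2029 hTd)
lemma tp2031 (hTd : TdOK) : Good 0 ![w64, w12, w47, w222, w142, w43] :=
  split23 (m := w223) (by decide +kernel) (ch2065 hTd) (tp2030 hTd)
lemma tp2032 (hTd : TdOK) : Good 0 ![w60, w12, w47, w222, w142, w43] :=
  split01 (m := w64) (by decide +kernel) (tp2031 hTd) (ch2071 hTd)
lemma tp2033 (hTd : TdOK) : Good 0 ![w60, w12, w47, w222, w139, w43] :=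
  split14 (m := w142) (by decide +kernel) (ch2064 hTd) (tp2032 hTd)
lemma tp2034 (hTd : TdOK) : Good 0 ![w60, w12, w47, w222, w139, w40] :=
  split15 (m := w43) (by decide +kernel) (ch2063 hTd) (tp2033 hTd)
lemma tp2035 (hTd : TdOK) : Good 0 ![w60, w12, w47, w216, w139, w40] :=
  split13 (m := w222) (by decide +kernel) (ch2062 hTd) (tp2034 hTd)
lemma tp2036 (hTd : TdOK) : Good 0 ![w60, w12, w34, w216, w139, w40] :=
  split12 (m := w47) (by decide +kernel) (tp2026 hTd) (tp2035 hTd)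
lemma tp2037 (hTd : TdOK) : Good 0 ![w58, w12, w34, w216, w139, w40] :=
  split01 (m := w60) (by decide +kernel) (tp2036 hTd) (ch2072 hTd)
lemma tp2038 (hTd : TdOK) : Good 0 ![w58, w12, w34, w216, w139, w35] :=
  split15 (m := w40) (by decide +kernel) (ch2054 hTd) (tp2037 hTd)
lemma tp2039 (hTd : TdOK) : Good 0 ![w58, w12, w34, w216, w138, w35] :=
  split14 (m := w139) (by decide +kernel) (ch2053 hTd) (tp2038 hTd)
lemma tp2040 (hTd : TdOK) : Good 0 ![w58, w12, w34, w214, w138, w35] :=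
  split13 (m := w216) (by decide +kernel) (ch2052 hTd) (tp2039 hTd)
lemma tp2041 (hTd : TdOK) : Good 0 ![w13, w12, w34, w214, w138, w35] :=
  split02 (m := w58) (by decide +kernel) (tp2040 hTd) (ch2073 hTd)
lemma tp2042 (hTd : TdOK) : Good 0 ![w13, w12, w34, w213, w138, w35] :=
  split03 (m := w214) (by decide +kernel) (tp2020 hTd) (tp2041 hTd)
lemma tp2043 (hTd : TdOK) : Good 0 ![w13, w12, w34, w213, w138, w5] :=
  split15 (m := w35) (by decide +kernel) (ch2020 hTd) (tp2042 hTd)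
lemma tp2044 (hTd : TdOK) : Good 0 ![w13, w12, w34, w213, w25, w5] :=
  split14 (m := w138) (by decide +kernel) (ch2019 hTd) (tp2043 hTd)
lemma tp2045 (hTd : TdOK) : Good 0 ![w145, w12, w218, w222, w139, w60] :=
  split12 (m := w223) (by decide +kernel) (ch2080 hTd) (ch2081 hTd)
lemma tp2046 (hTd : TdOK) : Good 0 ![w145, w12, w218, w216, w139, w60] :=
  split13 (m := w222) (by decide +kernel) (ch2079 hTd) (tp2045 hTd)
lemma tp2047 (hTd : TdOK) : Good 0 ![w146, w52, w34, w218, w140, w62] :=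
  split23 (m := w220) (by decide +kernel) (ch2084 hTd) (ch2085 hTd)
lemma tp2048 (hTd : TdOK) : Good 0 ![w146, w47, w34, w218, w140, w62] :=
  split12 (m := w52) (by decide +kernel) (tp2047 hTd) (ch2086 hTd)
lemma tp2049 (hTd : TdOK) : Good 0 ![w145, w47, w34, w218, w140, w62] :=
  split02 (m := w146) (by decide +kernel) (tp2048 hTd) (ch2087 hTd)
lemma tp2050 (hTd : TdOK) : Good 0 ![w145, w47, w34, w218, w140, w60] :=
  split25 (m := w62) (by decide +kernel) (ch2083 hTd) (tp2049 hTd)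
lemma tp2051 (hTd : TdOK) : Good 0 ![w145, w47, w34, w218, w139, w60] :=
  split24 (m := w140) (by decide +kernel) (ch2082 hTd) (tp2050 hTd)
lemma tp2052 (hTd : TdOK) : Good 0 ![w147, w57, w47, w223, w142, w64] :=
  split24 (m := w143) (by decide +kernel) (ch2091 hTd) (ch2092 hTd)
lemma tp2053 (hTd : TdOK) : Good 0 ![w147, w12, w47, w223, w142, w64] :=
  split12 (m := w57) (by decide +kernel) (tp2052 hTd) (ch2093 hTd)
lemma tp2054 (hTd : TdOK) : Good 0 ![w145, w12, w47, w223, w142, w64] :=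
  split01 (m := w147) (by decide +kernel) (tp2053 hTd) (ch2094 hTd)
lemma tp2055 (hTd : TdOK) : Good 0 ![w145, w12, w47, w223, w142, w60] :=
  split15 (m := w64) (by decide +kernel) (ch2090 hTd) (tp2054 hTd)
lemma tp2056 (hTd : TdOK) : Good 0 ![w145, w12, w47, w223, w139, w60] :=
  split14 (m := w142) (by decide +kernel) (ch2089 hTd) (tp2055 hTd)
lemma tp2057 (hTd : TdOK) : Good 0 ![w145, w12, w47, w218, w139, w60] :=
  split13 (m := w223) (by decide +kernel) (ch2088 hTd) (tp2056 hTd)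
lemma tp2058 (hTd : TdOK) : Good 0 ![w145, w12, w34, w218, w139, w60] :=
  split12 (m := w47) (by decide +kernel) (tp2051 hTd) (tp2057 hTd)
lemma tp2059 (hTd : TdOK) : Good 0 ![w145, w12, w34, w216, w139, w60] :=
  split23 (m := w218) (by decide +kernel) (tp2046 hTd) (tp2058 hTd)
lemma tp2060 (hTd : TdOK) : Good 0 ![w144, w12, w34, w216, w139, w60] :=
  split01 (m := w145) (by decide +kernel) (tp2059 hTd) (ch2095 hTd)
lemma tp2061 (hTd : TdOK) : Good 0 ![w144, w12, w34, w216, w139, w58] :=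
  split15 (m := w60) (by decide +kernel) (ch2078 hTd) (tp2060 hTd)
lemma tp2062 (hTd : TdOK) : Good 0 ![w144, w12, w34, w216, w138, w58] :=
  split14 (m := w139) (by decide +kernel) (ch2077 hTd) (tp2061 hTd)
lemma tp2063 (hTd : TdOK) : Good 0 ![w144, w12, w34, w214, w138, w58] :=
  split13 (m := w216) (by decide +kernel) (ch2076 hTd) (tp2062 hTd)
lemma tp2064 (hTd : TdOK) : Good 0 ![w144, w12, w34, w214, w138, w13] :=
  split25 (m := w58) (by decide +kernel) (ch2075 hTd) (tp2063 hTd)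
lemma tp2065 (hTd : TdOK) : Good 0 ![w27, w12, w34, w214, w138, w13] :=
  split02 (m := w144) (by decide +kernel) (tp2064 hTd) (ch2096 hTd)
lemma tp2066 (hTd : TdOK) : Good 0 ![w290, w217, w34, w215, w139, w216] :=
  split02 (m := w291) (by decide +kernel) (ch2100 hTd) (ch2101 hTd)
lemma tp2067 (hTd : TdOK) : Good 0 ![w291, w52, w34, w219, w140, w220] :=
  split02 (m := w292) (by decide +kernel) (ch2106 hTd) (ch2107 hTd)
lemma tp2068 (hTd : TdOK) : Good 0 ![w291, w52, w34, w219, w140, w218] :=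
  split25 (m := w220) (by decide +kernel) (ch2105 hTd) (tp2067 hTd)
lemma tp2069 (hTd : TdOK) : Good 0 ![w291, w47, w34, w219, w140, w218] :=
  split12 (m := w52) (by decide +kernel) (tp2068 hTd) (ch2108 hTd)
lemma tp2070 (hTd : TdOK) : Good 0 ![w291, w47, w34, w217, w140, w218] :=
  split23 (m := w219) (by decide +kernel) (ch2104 hTd) (tp2069 hTd)
lemma tp2071 (hTd : TdOK) : Good 0 ![w291, w47, w34, w217, w139, w218] :=
  split24 (m := w140) (by decide +kernel) (ch2103 hTd) (tp2070 hTd)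
lemma tp2072 (hTd : TdOK) : Good 0 ![w291, w47, w34, w217, w139, w216] :=
  split25 (m := w218) (by decide +kernel) (ch2102 hTd) (tp2071 hTd)
lemma tp2073 (hTd : TdOK) : Good 0 ![w290, w47, w34, w217, w139, w216] :=
  split02 (m := w291) (by decide +kernel) (tp2072 hTd) (ch2109 hTd)
lemma tp2074 (hTd : TdOK) : Good 0 ![w293, w224, w47, w217, w142, w223] :=
  split02 (m := w294) (by decide +kernel) (ch2113 hTd) (ch2114 hTd)
lemma tp2075 (hTd : TdOK) : Good 0 ![w293, w224, w47, w217, w142, w222] :=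
  split25 (m := w223) (by decide +kernel) (ch2112 hTd) (tp2074 hTd)
lemma tp2076 (hTd : TdOK) : Good 0 ![w293, w12, w223, w224, w142, w222] :=
  split15 (m := w230) (by decide +kernel) (ch2115 hTd) (ch2116 hTd)
lemma tp2077 (hTd : TdOK) : Good 0 ![w294, w57, w143, w224, w142, w223] :=
  split14 (m := w288) (by decide +kernel) (ch2117 hTd) (ch2118 hTd)
lemma tp2078 (hTd : TdOK) : Good 0 ![w294, w57, w47, w224, w143, w223] :=
  split23 (m := w226) (by decide +kernel) (ch2119 hTd) (ch2120 hTd)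
lemma tp2079 (hTd : TdOK) : Good 0 ![w294, w57, w47, w224, w142, w223] :=
  split24 (m := w143) (by decide +kernel) (tp2077 hTd) (tp2078 hTd)
lemma tp2080 (hTd : TdOK) : Good 0 ![w294, w227, w57, w224, w288, w223] :=
  split23 (m := w235) (by decide +kernel) (ch2122 hTd) (ch2123 hTd)
lemma tp2081 (hTd : TdOK) : Good 0 ![w294, w227, w57, w224, w142, w223] :=
  split24 (m := w288) (by decide +kernel) (ch2121 hTd) (tp2080 hTd)
lemma tp2082 (hTd : TdOK) : Good 0 ![w294, w12, w57, w224, w142, w223] :=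
  split15 (m := w227) (by decide +kernel) (tp2081 hTd) (ch2124 hTd)
lemma tp2083 (hTd : TdOK) : Good 0 ![w294, w12, w47, w224, w142, w223] :=
  split12 (m := w57) (by decide +kernel) (tp2079 hTd) (tp2082 hTd)
lemma tp2084 (hTd : TdOK) : Good 0 ![w295, w12, w294, w224, w142, w223] :=
  split15 (m := w227) (by decide +kernel) (ch2125 hTd) (ch2126 hTd)
lemma tp2085 (hTd : TdOK) : Good 0 ![w293, w12, w294, w224, w142, w223] :=
  split01 (m := w295) (by decide +kernel) (tp2084 hTd) (ch2127 hTd)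
lemma tp2086 (hTd : TdOK) : Good 0 ![w293, w12, w47, w224, w142, w223] :=
  split02 (m := w294) (by decide +kernel) (tp2083 hTd) (tp2085 hTd)
lemma tp2087 (hTd : TdOK) : Good 0 ![w293, w12, w47, w224, w142, w222] :=
  split25 (m := w223) (by decide +kernel) (tp2076 hTd) (tp2086 hTd)
lemma tp2088 (hTd : TdOK) : Good 0 ![w293, w12, w47, w217, w142, w222] :=
  split13 (m := w224) (by decide +kernel) (tp2075 hTd) (tp2087 hTd)
lemma tp2089 (hTd : TdOK) : Good 0 ![w293, w12, w47, w217, w139, w222] :=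
  split14 (m := w142) (by decide +kernel) (ch2111 hTd) (tp2088 hTd)
lemma tp2090 (hTd : TdOK) : Good 0 ![w293, w12, w47, w217, w139, w216] :=
  split15 (m := w222) (by decide +kernel) (ch2110 hTd) (tp2089 hTd)
lemma tp2091 (hTd : TdOK) : Good 0 ![w290, w12, w47, w217, w139, w216] :=
  split01 (m := w293) (by decide +kernel) (tp2090 hTd) (ch2128 hTd)
lemma tp2092 (hTd : TdOK) : Good 0 ![w290, w12, w34, w217, w139, w216] :=
  split12 (m := w47) (by decide +kernel) (tp2073 hTd) (tp2091 hTd)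
lemma tp2093 (hTd : TdOK) : Good 0 ![w290, w12, w34, w215, w139, w216] :=
  split13 (m := w217) (by decide +kernel) (tp2066 hTd) (tp2092 hTd)
lemma tp2094 (hTd : TdOK) : Good 0 ![w290, w12, w34, w215, w138, w216] :=
  split14 (m := w139) (by decide +kernel) (ch2099 hTd) (tp2093 hTd)
lemma tp2095 (hTd : TdOK) : Good 0 ![w290, w12, w34, w215, w138, w214] :=
  split15 (m := w216) (by decide +kernel) (ch2098 hTd) (tp2094 hTd)
lemma tp2096 (hTd : TdOK) : Good 0 ![w289, w12, w34, w215, w138, w214] :=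
  split01 (m := w290) (by decide +kernel) (tp2095 hTd) (ch2129 hTd)
lemma tp2097 (hTd : TdOK) : Good 0 ![w289, w12, w34, w213, w138, w214] :=
  split13 (m := w215) (by decide +kernel) (ch2097 hTd) (tp2096 hTd)
lemma tp2098 (hTd : TdOK) : Good 0 ![w146, w52, w34, w291, w140, w218] :=
  split25 (m := w220) (by decide +kernel) (ch2136 hTd) (ch2137 hTd)
lemma tp2099 (hTd : TdOK) : Good 0 ![w146, w47, w34, w291, w140, w218] :=
  split12 (m := w52) (by decide +kernel) (tp2098 hTd) (ch2138 hTd)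
lemma tp2100 (hTd : TdOK) : Good 0 ![w145, w47, w34, w291, w140, w218] :=
  split02 (m := w146) (by decide +kernel) (tp2099 hTd) (ch2139 hTd)
lemma tp2101 (hTd : TdOK) : Good 0 ![w145, w47, w34, w291, w139, w218] :=
  split24 (m := w140) (by decide +kernel) (ch2135 hTd) (tp2100 hTd)
lemma tp2102 (hTd : TdOK) : Good 0 ![w145, w47, w34, w291, w139, w216] :=
  split25 (m := w218) (by decide +kernel) (ch2134 hTd) (tp2101 hTd)
lemma tp2103 (hTd : TdOK) : Good 0 ![w145, w47, w34, w290, w139, w216] :=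
  split23 (m := w291) (by decide +kernel) (ch2133 hTd) (tp2102 hTd)
lemma tp2104 (hTd : TdOK) : Good 0 ![w147, w57, w47, w294, w142, w223] :=
  split24 (m := w143) (by decide +kernel) (ch2145 hTd) (ch2146 hTd)
lemma tp2105 (hTd : TdOK) : Good 0 ![w147, w227, w57, w294, w142, w223] :=
  split24 (m := w288) (by decide +kernel) (ch2147 hTd) (ch2148 hTd)
lemma tp2106 (hTd : TdOK) : Good 0 ![w147, w12, w57, w294, w142, w223] :=
  split15 (m := w227) (by decide +kernel) (tp2105 hTd) (ch2149 hTd)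
lemma tp2107 (hTd : TdOK) : Good 0 ![w147, w12, w47, w294, w142, w223] :=
  split12 (m := w57) (by decide +kernel) (tp2104 hTd) (tp2106 hTd)
lemma tp2108 (hTd : TdOK) : Good 0 ![w147, w12, w47, w293, w142, w223] :=
  split23 (m := w294) (by decide +kernel) (ch2144 hTd) (tp2107 hTd)
lemma tp2109 (hTd : TdOK) : Good 0 ![w147, w12, w47, w293, w142, w222] :=
  split25 (m := w223) (by decide +kernel) (ch2143 hTd) (tp2108 hTd)
lemma tp2110 (hTd : TdOK) : Good 0 ![w145, w12, w47, w293, w142, w222] :=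
  split01 (m := w147) (by decide +kernel) (tp2109 hTd) (ch2150 hTd)
lemma tp2111 (hTd : TdOK) : Good 0 ![w145, w12, w47, w293, w139, w222] :=
  split14 (m := w142) (by decide +kernel) (ch2142 hTd) (tp2110 hTd)
lemma tp2112 (hTd : TdOK) : Good 0 ![w145, w12, w47, w293, w139, w216] :=
  split15 (m := w222) (by decide +kernel) (ch2141 hTd) (tp2111 hTd)
lemma tp2113 (hTd : TdOK) : Good 0 ![w145, w12, w47, w290, w139, w216] :=
  split13 (m := w293) (by decide +kernel) (ch2140 hTd) (tp2112 hTd)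
lemma tp2114 (hTd : TdOK) : Good 0 ![w145, w12, w34, w290, w139, w216] :=
  split12 (m := w47) (by decide +kernel) (tp2103 hTd) (tp2113 hTd)
lemma tp2115 (hTd : TdOK) : Good 0 ![w144, w12, w34, w290, w139, w216] :=
  split01 (m := w145) (by decide +kernel) (tp2114 hTd) (ch2151 hTd)
lemma tp2116 (hTd : TdOK) : Good 0 ![w144, w12, w34, w290, w138, w216] :=
  split14 (m := w139) (by decide +kernel) (ch2132 hTd) (tp2115 hTd)
lemma tp2117 (hTd : TdOK) : Good 0 ![w144, w12, w34, w290, w138, w214] :=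
  split15 (m := w216) (by decide +kernel) (ch2131 hTd) (tp2116 hTd)
lemma tp2118 (hTd : TdOK) : Good 0 ![w144, w12, w34, w289, w138, w214] :=
  split13 (m := w290) (by decide +kernel) (ch2130 hTd) (tp2117 hTd)
lemma tp2119 (hTd : TdOK) : Good 0 ![w27, w12, w34, w289, w138, w214] :=
  split02 (m := w144) (by decide +kernel) (tp2118 hTd) (ch2152 hTd)
lemma tp2120 (hTd : TdOK) : Good 0 ![w27, w12, w34, w213, w138, w214] :=
  split03 (m := w289) (by decide +kernel) (tp2097 hTd) (tp2119 hTd)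
lemma tp2121 (hTd : TdOK) : Good 0 ![w27, w12, w34, w213, w138, w13] :=
  split35 (m := w214) (by decide +kernel) (tp2065 hTd) (tp2120 hTd)
lemma tp2122 (hTd : TdOK) : Good 0 ![w27, w12, w34, w213, w25, w13] :=
  split14 (m := w138) (by decide +kernel) (ch2074 hTd) (tp2121 hTd)
lemma tp2123 (hTd : TdOK) : Good 0 ![w239, w145, w34, w218, w155, w60] :=
  split25 (m := w62) (by decide +kernel) (ch2159 hTd) (ch2160 hTd)
lemma tp2124 (hTd : TdOK) : Good 0 ![w239, w145, w34, w218, w144, w60] :=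
  split24 (m := w155) (by decide +kernel) (ch2158 hTd) (tp2123 hTd)
lemma tp2125 (hTd : TdOK) : Good 0 ![w239, w145, w34, w216, w144, w60] :=
  split23 (m := w218) (by decide +kernel) (ch2157 hTd) (tp2124 hTd)
lemma tp2126 (hTd : TdOK) : Good 0 ![w241, w52, w34, w220, w146, w74] :=
  split24 (m := w156) (by decide +kernel) (ch2166 hTd) (ch2167 hTd)
lemma tp2127 (hTd : TdOK) : Good 0 ![w241, w52, w34, w220, w146, w62] :=
  split25 (m := w74) (by decide +kernel) (ch2165 hTd) (tp2126 hTd)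
lemma tp2128 (hTd : TdOK) : Good 0 ![w241, w52, w34, w218, w146, w62] :=
  split23 (m := w220) (by decide +kernel) (ch2164 hTd) (tp2127 hTd)
lemma tp2129 (hTd : TdOK) : Good 0 ![w241, w47, w34, w218, w146, w62] :=
  split12 (m := w52) (by decide +kernel) (tp2128 hTd) (ch2168 hTd)
lemma tp2130 (hTd : TdOK) : Good 0 ![w240, w47, w34, w218, w146, w62] :=
  split02 (m := w241) (by decide +kernel) (tp2129 hTd) (ch2169 hTd)
lemma tp2131 (hTd : TdOK) : Good 0 ![w240, w47, w34, w218, w145, w62] :=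
  split24 (m := w146) (by decide +kernel) (ch2163 hTd) (tp2130 hTd)
lemma tp2132 (hTd : TdOK) : Good 0 ![w240, w47, w34, w218, w145, w60] :=
  split25 (m := w62) (by decide +kernel) (ch2162 hTd) (tp2131 hTd)
lemma tp2133 (hTd : TdOK) : Good 0 ![w242, w12, w47, w223, w147, w64] :=
  split12 (m := w57) (by decide +kernel) (ch2173 hTd) (ch2174 hTd)
lemma tp2134 (hTd : TdOK) : Good 0 ![w240, w12, w47, w223, w147, w64] :=
  split01 (m := w242) (by decide +kernel) (tp2133 hTd) (ch2175 hTd)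
lemma tp2135 (hTd : TdOK) : Good 0 ![w240, w12, w47, w223, w145, w64] :=
  split14 (m := w147) (by decide +kernel) (ch2172 hTd) (tp2134 hTd)
lemma tp2136 (hTd : TdOK) : Good 0 ![w240, w12, w47, w223, w145, w60] :=
  split15 (m := w64) (by decide +kernel) (ch2171 hTd) (tp2135 hTd)
lemma tp2137 (hTd : TdOK) : Good 0 ![w240, w12, w47, w218, w145, w60] :=
  split13 (m := w223) (by decide +kernel) (ch2170 hTd) (tp2136 hTd)
lemma tp2138 (hTd : TdOK) : Good 0 ![w240, w12, w34, w218, w145, w60] :=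
  split12 (m := w47) (by decide +kernel) (tp2132 hTd) (tp2137 hTd)
lemma tp2139 (hTd : TdOK) : Good 0 ![w243, w241, w34, w220, w146, w62] :=
  split25 (m := w74) (by decide +kernel) (ch2179 hTd) (ch2180 hTd)
lemma tp2140 (hTd : TdOK) : Good 0 ![w243, w241, w34, w218, w146, w62] :=
  split23 (m := w220) (by decide +kernel) (ch2178 hTd) (tp2139 hTd)
lemma tp2141 (hTd : TdOK) : Good 0 ![w243, w240, w34, w218, w146, w62] :=
  split12 (m := w241) (by decide +kernel) (tp2140 hTd) (ch2181 hTd)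
lemma tp2142 (hTd : TdOK) : Good 0 ![w243, w240, w34, w218, w145, w62] :=
  split24 (m := w146) (by decide +kernel) (ch2177 hTd) (tp2141 hTd)
lemma tp2143 (hTd : TdOK) : Good 0 ![w239, w240, w34, w218, w145, w62] :=
  split02 (m := w243) (by decide +kernel) (tp2142 hTd) (ch2182 hTd)
lemma tp2144 (hTd : TdOK) : Good 0 ![w239, w240, w34, w218, w145, w60] :=
  split25 (m := w62) (by decide +kernel) (ch2176 hTd) (tp2143 hTd)
lemma tp2145 (hTd : TdOK) : Good 0 ![w239, w12, w34, w218, w145, w60] :=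
  split01 (m := w240) (by decide +kernel) (tp2138 hTd) (tp2144 hTd)
lemma tp2146 (hTd : TdOK) : Good 0 ![w239, w12, w34, w216, w145, w60] :=
  split23 (m := w218) (by decide +kernel) (ch2161 hTd) (tp2145 hTd)
lemma tp2147 (hTd : TdOK) : Good 0 ![w239, w12, w34, w216, w144, w60] :=
  split14 (m := w145) (by decide +kernel) (tp2125 hTd) (tp2146 hTd)
lemma tp2148 (hTd : TdOK) : Good 0 ![w239, w12, w34, w216, w144, w58] :=
  split15 (m := w60) (by decide +kernel) (ch2156 hTd) (tp2147 hTd)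
lemma tp2149 (hTd : TdOK) : Good 0 ![w239, w12, w34, w214, w144, w58] :=
  split13 (m := w216) (by decide +kernel) (ch2155 hTd) (tp2148 hTd)
lemma tp2150 (hTd : TdOK) : Good 0 ![w238, w12, w34, w214, w144, w58] :=
  split02 (m := w239) (by decide +kernel) (tp2149 hTd) (ch2183 hTd)
lemma tp2151 (hTd : TdOK) : Good 0 ![w238, w12, w34, w214, w144, w13] :=
  split25 (m := w58) (by decide +kernel) (ch2154 hTd) (tp2150 hTd)
lemma tp2152 (hTd : TdOK) : Good 0 ![w238, w12, w34, w214, w27, w13] :=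
  split24 (m := w144) (by decide +kernel) (ch2153 hTd) (tp2151 hTd)
lemma tp2153 (hTd : TdOK) : Good 0 ![w240, w12, w218, w291, w145, w222] :=
  split12 (m := w223) (by decide +kernel) (ch2190 hTd) (ch2191 hTd)
lemma tp2154 (hTd : TdOK) : Good 0 ![w240, w12, w218, w291, w145, w216] :=
  split15 (m := w222) (by decide +kernel) (ch2189 hTd) (tp2153 hTd)
lemma tp2155 (hTd : TdOK) : Good 0 ![w239, w12, w218, w291, w145, w216] :=
  split01 (m := w240) (by decide +kernel) (tp2154 hTd) (ch2192 hTd)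
lemma tp2156 (hTd : TdOK) : Good 0 ![w241, w52, w34, w292, w146, w220] :=
  split24 (m := w156) (by decide +kernel) (ch2196 hTd) (ch2197 hTd)
lemma tp2157 (hTd : TdOK) : Good 0 ![w241, w52, w34, w291, w146, w220] :=
  split23 (m := w292) (by decide +kernel) (ch2195 hTd) (tp2156 hTd)
lemma tp2158 (hTd : TdOK) : Good 0 ![w241, w52, w34, w291, w146, w218] :=
  split25 (m := w220) (by decide +kernel) (ch2194 hTd) (tp2157 hTd)
lemma tp2159 (hTd : TdOK) : Good 0 ![w241, w47, w34, w291, w146, w218] :=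
  split12 (m := w52) (by decide +kernel) (tp2158 hTd) (ch2198 hTd)
lemma tp2160 (hTd : TdOK) : Good 0 ![w240, w47, w34, w291, w146, w218] :=
  split02 (m := w241) (by decide +kernel) (tp2159 hTd) (ch2199 hTd)
lemma tp2161 (hTd : TdOK) : Good 0 ![w240, w47, w34, w291, w145, w218] :=
  split24 (m := w146) (by decide +kernel) (ch2193 hTd) (tp2160 hTd)
lemma tp2162 (hTd : TdOK) : Good 0 ![w242, w12, w57, w294, w147, w223] :=
  split15 (m := w227) (by decide +kernel) (ch2204 hTd) (ch2205 hTd)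
lemma tp2163 (hTd : TdOK) : Good 0 ![w242, w12, w47, w294, w147, w223] :=
  split12 (m := w57) (by decide +kernel) (ch2203 hTd) (tp2162 hTd)
lemma tp2164 (hTd : TdOK) : Good 0 ![w240, w12, w47, w294, w147, w223] :=
  split01 (m := w242) (by decide +kernel) (tp2163 hTd) (ch2206 hTd)
lemma tp2165 (hTd : TdOK) : Good 0 ![w240, w12, w47, w294, w145, w223] :=
  split14 (m := w147) (by decide +kernel) (ch2202 hTd) (tp2164 hTd)
lemma tp2166 (hTd : TdOK) : Good 0 ![w240, w12, w47, w291, w145, w223] :=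
  split13 (m := w294) (by decide +kernel) (ch2201 hTd) (tp2165 hTd)
lemma tp2167 (hTd : TdOK) : Good 0 ![w240, w12, w47, w291, w145, w218] :=
  split15 (m := w223) (by decide +kernel) (ch2200 hTd) (tp2166 hTd)
lemma tp2168 (hTd : TdOK) : Good 0 ![w240, w12, w34, w291, w145, w218] :=
  split12 (m := w47) (by decide +kernel) (tp2161 hTd) (tp2167 hTd)
lemma tp2169 (hTd : TdOK) : Good 0 ![w243, w240, w34, w291, w146, w218] :=
  split12 (m := w241) (by decide +kernel) (ch2208 hTd) (ch2209 hTd)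
lemma tp2170 (hTd : TdOK) : Good 0 ![w243, w240, w34, w291, w145, w218] :=
  split24 (m := w146) (by decide +kernel) (ch2207 hTd) (tp2169 hTd)
lemma tp2171 (hTd : TdOK) : Good 0 ![w239, w240, w34, w291, w145, w218] :=
  split02 (m := w243) (by decide +kernel) (tp2170 hTd) (ch2210 hTd)
lemma tp2172 (hTd : TdOK) : Good 0 ![w239, w12, w34, w291, w145, w218] :=
  split01 (m := w240) (by decide +kernel) (tp2168 hTd) (tp2171 hTd)
lemma tp2173 (hTd : TdOK) : Good 0 ![w239, w12, w34, w291, w145, w216] :=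
  split25 (m := w218) (by decide +kernel) (tp2155 hTd) (tp2172 hTd)
lemma tp2174 (hTd : TdOK) : Good 0 ![w239, w12, w34, w290, w145, w216] :=
  split23 (m := w291) (by decide +kernel) (ch2188 hTd) (tp2173 hTd)
lemma tp2175 (hTd : TdOK) : Good 0 ![w239, w12, w34, w290, w144, w216] :=
  split14 (m := w145) (by decide +kernel) (ch2187 hTd) (tp2174 hTd)
lemma tp2176 (hTd : TdOK) : Good 0 ![w239, w12, w34, w290, w144, w214] :=
  split15 (m := w216) (by decide +kernel) (ch2186 hTd) (tp2175 hTd)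
lemma tp2177 (hTd : TdOK) : Good 0 ![w239, w12, w34, w289, w144, w214] :=
  split13 (m := w290) (by decide +kernel) (ch2185 hTd) (tp2176 hTd)
lemma tp2178 (hTd : TdOK) : Good 0 ![w238, w12, w34, w289, w144, w214] :=
  split02 (m := w239) (by decide +kernel) (tp2177 hTd) (ch2211 hTd)
lemma tp2179 (hTd : TdOK) : Good 0 ![w238, w12, w34, w289, w27, w214] :=
  split24 (m := w144) (by decide +kernel) (ch2184 hTd) (tp2178 hTd)
lemma tp2180 (hTd : TdOK) : Good 0 ![w239, w217, w34, w215, w290, w216] :=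
  split24 (m := w291) (by decide +kernel) (ch2215 hTd) (ch2216 hTd)
lemma tp2181 (hTd : TdOK) : Good 0 ![w241, w52, w34, w219, w292, w220] :=
  split23 (m := w233) (by decide +kernel) (ch2222 hTd) (ch2223 hTd)
lemma tp2182 (hTd : TdOK) : Good 0 ![w241, w52, w34, w219, w291, w220] :=
  split24 (m := w292) (by decide +kernel) (ch2221 hTd) (tp2181 hTd)
lemma tp2183 (hTd : TdOK) : Good 0 ![w241, w52, w34, w219, w291, w218] :=
  split25 (m := w220) (by decide +kernel) (ch2220 hTd) (tp2182 hTd)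
lemma tp2184 (hTd : TdOK) : Good 0 ![w241, w47, w34, w219, w291, w218] :=
  split12 (m := w52) (by decide +kernel) (tp2183 hTd) (ch2224 hTd)
lemma tp2185 (hTd : TdOK) : Good 0 ![w240, w47, w34, w219, w291, w218] :=
  split02 (m := w241) (by decide +kernel) (tp2184 hTd) (ch2225 hTd)
lemma tp2186 (hTd : TdOK) : Good 0 ![w240, w47, w34, w217, w291, w218] :=
  split23 (m := w219) (by decide +kernel) (ch2219 hTd) (tp2185 hTd)
lemma tp2187 (hTd : TdOK) : Good 0 ![w240, w47, w34, w217, w290, w218] :=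
  split24 (m := w291) (by decide +kernel) (ch2218 hTd) (tp2186 hTd)
lemma tp2188 (hTd : TdOK) : Good 0 ![w240, w47, w34, w217, w290, w216] :=
  split25 (m := w218) (by decide +kernel) (ch2217 hTd) (tp2187 hTd)
lemma tp2189 (hTd : TdOK) : Good 0 ![w242, w224, w47, w217, w293, w222] :=
  split25 (m := w223) (by decide +kernel) (ch2228 hTd) (ch2229 hTd)
lemma tp2190 (hTd : TdOK) : Good 0 ![w242, w57, w226, w224, w294, w223] :=
  split13 (m := w235) (by decide +kernel) (ch2232 hTd) (ch2233 hTd)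
lemma tp2191 (hTd : TdOK) : Good 0 ![w242, w57, w47, w224, w294, w223] :=
  split23 (m := w226) (by decide +kernel) (tp2190 hTd) (ch2234 hTd)
lemma tp2192 (hTd : TdOK) : Good 0 ![w242, w227, w57, w224, w294, w223] :=
  split23 (m := w235) (by decide +kernel) (ch2235 hTd) (ch2236 hTd)
lemma tp2193 (hTd : TdOK) : Good 0 ![w242, w12, w57, w224, w294, w223] :=
  split15 (m := w227) (by decide +kernel) (tp2192 hTd) (ch2237 hTd)
lemma tp2194 (hTd : TdOK) : Good 0 ![w242, w12, w47, w224, w294, w223] :=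
  split12 (m := w57) (by decide +kernel) (tp2191 hTd) (tp2193 hTd)
lemma tp2195 (hTd : TdOK) : Good 0 ![w242, w12, w47, w224, w293, w223] :=
  split24 (m := w294) (by decide +kernel) (ch2231 hTd) (tp2194 hTd)
lemma tp2196 (hTd : TdOK) : Good 0 ![w242, w12, w47, w224, w293, w222] :=
  split25 (m := w223) (by decide +kernel) (ch2230 hTd) (tp2195 hTd)
lemma tp2197 (hTd : TdOK) : Good 0 ![w242, w12, w47, w217, w293, w222] :=
  split13 (m := w224) (by decide +kernel) (tp2189 hTd) (tp2196 hTd)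
lemma tp2198 (hTd : TdOK) : Good 0 ![w240, w12, w47, w217, w293, w222] :=
  split01 (m := w242) (by decide +kernel) (tp2197 hTd) (ch2238 hTd)
lemma tp2199 (hTd : TdOK) : Good 0 ![w240, w12, w47, w217, w290, w222] :=
  split14 (m := w293) (by decide +kernel) (ch2227 hTd) (tp2198 hTd)
lemma tp2200 (hTd : TdOK) : Good 0 ![w240, w12, w47, w217, w290, w216] :=
  split15 (m := w222) (by decide +kernel) (ch2226 hTd) (tp2199 hTd)
lemma tp2201 (hTd : TdOK) : Good 0 ![w240, w12, w34, w217, w290, w216] :=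
  split12 (m := w47) (by decide +kernel) (tp2188 hTd) (tp2200 hTd)
lemma tp2202 (hTd : TdOK) : Good 0 ![w243, w240, w34, w219, w291, w218] :=
  split12 (m := w241) (by decide +kernel) (ch2242 hTd) (ch2243 hTd)
lemma tp2203 (hTd : TdOK) : Good 0 ![w239, w240, w34, w219, w291, w218] :=
  split02 (m := w243) (by decide +kernel) (tp2202 hTd) (ch2244 hTd)
lemma tp2204 (hTd : TdOK) : Good 0 ![w239, w240, w34, w217, w291, w218] :=
  split23 (m := w219) (by decide +kernel) (ch2241 hTd) (tp2203 hTd)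
lemma tp2205 (hTd : TdOK) : Good 0 ![w239, w240, w34, w217, w290, w218] :=
  split24 (m := w291) (by decide +kernel) (ch2240 hTd) (tp2204 hTd)
lemma tp2206 (hTd : TdOK) : Good 0 ![w239, w240, w34, w217, w290, w216] :=
  split25 (m := w218) (by decide +kernel) (ch2239 hTd) (tp2205 hTd)
lemma tp2207 (hTd : TdOK) : Good 0 ![w239, w12, w34, w217, w290, w216] :=
  split01 (m := w240) (by decide +kernel) (tp2201 hTd) (tp2206 hTd)
lemma tp2208 (hTd : TdOK) : Good 0 ![w239, w12, w34, w215, w290, w216] :=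
  split13 (m := w217) (by decide +kernel) (tp2180 hTd) (tp2207 hTd)
lemma tp2209 (hTd : TdOK) : Good 0 ![w239, w12, w34, w215, w290, w214] :=
  split15 (m := w216) (by decide +kernel) (ch2214 hTd) (tp2208 hTd)
lemma tp2210 (hTd : TdOK) : Good 0 ![w239, w12, w34, w215, w289, w214] :=
  split14 (m := w290) (by decide +kernel) (ch2213 hTd) (tp2209 hTd)
lemma tp2211 (hTd : TdOK) : Good 0 ![w249, w12, w240, w217, w290, w216] :=
  split01 (m := w250) (by decide +kernel) (ch2249 hTd) (ch2250 hTd)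
lemma tp2212 (hTd : TdOK) : Good 0 ![w249, w12, w239, w217, w290, w216] :=
  split12 (m := w240) (by decide +kernel) (ch2248 hTd) (tp2211 hTd)
lemma tp2213 (hTd : TdOK) : Good 0 ![w249, w12, w239, w215, w290, w216] :=
  split13 (m := w217) (by decide +kernel) (ch2247 hTd) (tp2212 hTd)
lemma tp2214 (hTd : TdOK) : Good 0 ![w238, w12, w239, w215, w290, w216] :=
  split01 (m := w249) (by decide +kernel) (tp2213 hTd) (ch2251 hTd)
lemma tp2215 (hTd : TdOK) : Good 0 ![w238, w12, w239, w215, w290, w214] :=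
  split15 (m := w216) (by decide +kernel) (ch2246 hTd) (tp2214 hTd)
lemma tp2216 (hTd : TdOK) : Good 0 ![w238, w12, w239, w215, w289, w214] :=
  split14 (m := w290) (by decide +kernel) (ch2245 hTd) (tp2215 hTd)
lemma tp2217 (hTd : TdOK) : Good 0 ![w238, w12, w34, w215, w289, w214] :=
  split02 (m := w239) (by decide +kernel) (tp2210 hTd) (tp2216 hTd)
lemma tp2218 (hTd : TdOK) : Good 0 ![w238, w12, w34, w213, w289, w214] :=
  split13 (m := w215) (by decide +kernel) (ch2212 hTd) (tp2217 hTd)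
lemma tp2219 (hTd : TdOK) : Good 0 ![w238, w12, w34, w213, w27, w214] :=
  split34 (m := w289) (by decide +kernel) (tp2179 hTd) (tp2218 hTd)
lemma tp2220 (hTd : TdOK) : Good 0 ![w238, w12, w34, w213, w27, w13] :=
  split35 (m := w214) (by decide +kernel) (tp2152 hTd) (tp2219 hTd)
lemma tp2221 (hTd : TdOK) : Good 0 ![w84, w62, w34, w243, w155, w85] :=
  split02 (m := w87) (by decide +kernel) (ch2258 hTd) (ch2259 hTd)
lemma tp2222 (hTd : TdOK) : Good 0 ![w84, w62, w34, w239, w155, w85] :=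
  split23 (m := w243) (by decide +kernel) (ch2257 hTd) (tp2221 hTd)
lemma tp2223 (hTd : TdOK) : Good 0 ![w84, w60, w34, w239, w155, w85] :=
  split12 (m := w62) (by decide +kernel) (tp2222 hTd) (ch2260 hTd)
lemma tp2224 (hTd : TdOK) : Good 0 ![w84, w60, w34, w239, w144, w85] :=
  split24 (m := w155) (by decide +kernel) (ch2256 hTd) (tp2223 hTd)
lemma tp2225 (hTd : TdOK) : Good 0 ![w84, w60, w34, w239, w144, w58] :=
  split25 (m := w85) (by decide +kernel) (ch2255 hTd) (tp2224 hTd)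
lemma tp2226 (hTd : TdOK) : Good 0 ![w87, w146, w34, w243, w155, w62] :=
  split24 (m := w157) (by decide +kernel) (ch2264 hTd) (ch2265 hTd)
lemma tp2227 (hTd : TdOK) : Good 0 ![w84, w146, w34, w243, w155, w62] :=
  split02 (m := w87) (by decide +kernel) (tp2226 hTd) (ch2266 hTd)
lemma tp2228 (hTd : TdOK) : Good 0 ![w84, w145, w34, w243, w155, w62] :=
  split12 (m := w146) (by decide +kernel) (tp2227 hTd) (ch2267 hTd)
lemma tp2229 (hTd : TdOK) : Good 0 ![w84, w145, w34, w239, w155, w62] :=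
  split23 (m := w243) (by decide +kernel) (ch2263 hTd) (tp2228 hTd)
lemma tp2230 (hTd : TdOK) : Good 0 ![w84, w145, w34, w239, w155, w60] :=
  split25 (m := w62) (by decide +kernel) (ch2262 hTd) (tp2229 hTd)
lemma tp2231 (hTd : TdOK) : Good 0 ![w84, w145, w34, w239, w144, w60] :=
  split24 (m := w155) (by decide +kernel) (ch2261 hTd) (tp2230 hTd)
lemma tp2232 (hTd : TdOK) : Good 0 ![w87, w52, w74, w243, w146, w62] :=
  split13 (m := w251) (by decide +kernel) (ch2271 hTd) (ch2272 hTd)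
lemma tp2233 (hTd : TdOK) : Good 0 ![w87, w52, w34, w243, w146, w74] :=
  split24 (m := w156) (by decide +kernel) (ch2273 hTd) (ch2274 hTd)
lemma tp2234 (hTd : TdOK) : Good 0 ![w87, w52, w34, w243, w146, w62] :=
  split25 (m := w74) (by decide +kernel) (tp2232 hTd) (tp2233 hTd)
lemma tp2235 (hTd : TdOK) : Good 0 ![w87, w47, w52, w243, w146, w62] :=
  split13 (m := w241) (by decide +kernel) (ch2275 hTd) (ch2276 hTd)
lemma tp2236 (hTd : TdOK) : Good 0 ![w87, w47, w34, w243, w146, w62] :=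
  split12 (m := w52) (by decide +kernel) (tp2234 hTd) (tp2235 hTd)
lemma tp2237 (hTd : TdOK) : Good 0 ![w84, w47, w34, w243, w146, w62] :=
  split02 (m := w87) (by decide +kernel) (tp2236 hTd) (ch2277 hTd)
lemma tp2238 (hTd : TdOK) : Good 0 ![w84, w47, w34, w243, w145, w62] :=
  split24 (m := w146) (by decide +kernel) (ch2270 hTd) (tp2237 hTd)
lemma tp2239 (hTd : TdOK) : Good 0 ![w84, w47, w34, w239, w145, w62] :=
  split23 (m := w243) (by decide +kernel) (ch2269 hTd) (tp2238 hTd)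
lemma tp2240 (hTd : TdOK) : Good 0 ![w84, w47, w34, w239, w145, w60] :=
  split25 (m := w62) (by decide +kernel) (ch2268 hTd) (tp2239 hTd)
lemma tp2241 (hTd : TdOK) : Good 0 ![w91, w57, w47, w242, w147, w92] :=
  split24 (m := w296) (by decide +kernel) (ch2283 hTd) (ch2284 hTd)
lemma tp2242 (hTd : TdOK) : Good 0 ![w91, w57, w47, w242, w147, w64] :=
  split25 (m := w92) (by decide +kernel) (ch2282 hTd) (tp2241 hTd)
lemma tp2243 (hTd : TdOK) : Good 0 ![w91, w12, w47, w242, w147, w64] :=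
  split12 (m := w57) (by decide +kernel) (tp2242 hTd) (ch2285 hTd)
lemma tp2244 (hTd : TdOK) : Good 0 ![w90, w12, w47, w242, w147, w64] :=
  split01 (m := w91) (by decide +kernel) (tp2243 hTd) (ch2286 hTd)
lemma tp2245 (hTd : TdOK) : Good 0 ![w90, w12, w47, w240, w147, w64] :=
  split13 (m := w242) (by decide +kernel) (ch2281 hTd) (tp2244 hTd)
lemma tp2246 (hTd : TdOK) : Good 0 ![w90, w12, w47, w240, w145, w64] :=
  split14 (m := w147) (by decide +kernel) (ch2280 hTd) (tp2245 hTd)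
lemma tp2247 (hTd : TdOK) : Good 0 ![w90, w12, w47, w240, w145, w60] :=
  split15 (m := w64) (by decide +kernel) (ch2279 hTd) (tp2246 hTd)
lemma tp2248 (hTd : TdOK) : Good 0 ![w84, w12, w47, w240, w145, w60] :=
  split01 (m := w90) (by decide +kernel) (tp2247 hTd) (ch2287 hTd)
lemma tp2249 (hTd : TdOK) : Good 0 ![w84, w12, w47, w239, w145, w60] :=
  split13 (m := w240) (by decide +kernel) (ch2278 hTd) (tp2248 hTd)
lemma tp2250 (hTd : TdOK) : Good 0 ![w84, w12, w34, w239, w145, w60] :=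
  split12 (m := w47) (by decide +kernel) (tp2240 hTd) (tp2249 hTd)
lemma tp2251 (hTd : TdOK) : Good 0 ![w84, w12, w34, w239, w144, w60] :=
  split14 (m := w145) (by decide +kernel) (tp2231 hTd) (tp2250 hTd)
lemma tp2252 (hTd : TdOK) : Good 0 ![w84, w12, w34, w239, w144, w58] :=
  split15 (m := w60) (by decide +kernel) (tp2225 hTd) (tp2251 hTd)
lemma tp2253 (hTd : TdOK) : Good 0 ![w83, w12, w34, w239, w144, w58] :=
  split02 (m := w84) (by decide +kernel) (tp2252 hTd) (ch2288 hTd)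
lemma tp2254 (hTd : TdOK) : Good 0 ![w83, w12, w34, w238, w144, w58] :=
  split23 (m := w239) (by decide +kernel) (ch2254 hTd) (tp2253 hTd)
lemma tp2255 (hTd : TdOK) : Good 0 ![w83, w12, w34, w238, w144, w13] :=
  split25 (m := w58) (by decide +kernel) (ch2253 hTd) (tp2254 hTd)
lemma tp2256 (hTd : TdOK) : Good 0 ![w83, w12, w34, w238, w27, w13] :=
  split24 (m := w144) (by decide +kernel) (ch2252 hTd) (tp2255 hTd)
lemma tp2257 (hTd : TdOK) : Good 0 ![w0, w12, w34, w238, w27, w13] :=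
  split02 (m := w83) (by decide +kernel) (tp2256 hTd) (ch2289 hTd)
lemma tp2258 (hTd : TdOK) : Good 0 ![w0, w12, w34, w213, w27, w13] :=
  split03 (m := w238) (by decide +kernel) (tp2220 hTd) (tp2257 hTd)
lemma tp2259 (hTd : TdOK) : Good 0 ![w0, w12, w34, w213, w25, w13] :=
  split04 (m := w27) (by decide +kernel) (tp2122 hTd) (tp2258 hTd)
lemma tp2260 (hTd : TdOK) : Good 0 ![w0, w12, w34, w213, w25, w5] :=
  split05 (m := w13) (by decide +kernel) (tp2044 hTd) (tp2259 hTd)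
lemma tp2261 (hTd : TdOK) : Good 0 ![w258, w12, w99, w257, w158, w98] :=
  split14 (m := w161) (by decide +kernel) (ch2298 hTd) (ch2299 hTd)
lemma tp2262 (hTd : TdOK) : Good 0 ![w258, w12, w97, w257, w158, w98] :=
  split12 (m := w99) (by decide +kernel) (ch2297 hTd) (tp2261 hTd)
lemma tp2263 (hTd : TdOK) : Good 0 ![w256, w12, w97, w257, w158, w98] :=
  split01 (m := w258) (by decide +kernel) (tp2262 hTd) (ch2300 hTd)
lemma tp2264 (hTd : TdOK) : Good 0 ![w256, w12, w97, w257, w158, w95] :=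
  split15 (m := w98) (by decide +kernel) (ch2296 hTd) (tp2263 hTd)
lemma tp2265 (hTd : TdOK) : Good 0 ![w256, w12, w97, w255, w158, w95] :=
  split13 (m := w257) (by decide +kernel) (ch2295 hTd) (tp2264 hTd)
lemma tp2266 (hTd : TdOK) : Good 0 ![w260, w52, w34, w259, w160, w101] :=
  split23 (m := w261) (by decide +kernel) (ch2306 hTd) (ch2307 hTd)
lemma tp2267 (hTd : TdOK) : Good 0 ![w260, w52, w34, w259, w159, w101] :=
  split24 (m := w160) (by decide +kernel) (ch2305 hTd) (tp2266 hTd)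
lemma tp2268 (hTd : TdOK) : Good 0 ![w260, w47, w34, w259, w159, w101] :=
  split12 (m := w52) (by decide +kernel) (tp2267 hTd) (ch2308 hTd)
lemma tp2269 (hTd : TdOK) : Good 0 ![w260, w47, w34, w259, w159, w97] :=
  split25 (m := w101) (by decide +kernel) (ch2304 hTd) (tp2268 hTd)
lemma tp2270 (hTd : TdOK) : Good 0 ![w256, w47, w34, w259, w159, w97] :=
  split02 (m := w260) (by decide +kernel) (tp2269 hTd) (ch2309 hTd)
lemma tp2271 (hTd : TdOK) : Good 0 ![w256, w47, w34, w257, w159, w97] :=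
  split23 (m := w259) (by decide +kernel) (ch2303 hTd) (tp2270 hTd)
lemma tp2272 (hTd : TdOK) : Good 0 ![w256, w47, w34, w257, w158, w97] :=
  split24 (m := w159) (by decide +kernel) (ch2302 hTd) (tp2271 hTd)
lemma tp2273 (hTd : TdOK) : Good 0 ![w258, w262, w47, w257, w161, w99] :=
  split23 (m := w263) (by decide +kernel) (ch2312 hTd) (ch2313 hTd)
lemma tp2274 (hTd : TdOK) : Good 0 ![w258, w57, w47, w262, w162, w99] :=
  split23 (m := w264) (by decide +kernel) (ch2315 hTd) (ch2316 hTd)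
lemma tp2275 (hTd : TdOK) : Good 0 ![w258, w57, w47, w262, w161, w99] :=
  split24 (m := w162) (by decide +kernel) (ch2314 hTd) (tp2274 hTd)
lemma tp2276 (hTd : TdOK) : Good 0 ![w258, w12, w47, w262, w161, w99] :=
  split12 (m := w57) (by decide +kernel) (tp2275 hTd) (ch2317 hTd)
lemma tp2277 (hTd : TdOK) : Good 0 ![w258, w12, w47, w257, w161, w99] :=
  split13 (m := w262) (by decide +kernel) (tp2273 hTd) (tp2276 hTd)
lemma tp2278 (hTd : TdOK) : Good 0 ![w258, w12, w47, w257, w158, w99] :=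
  split14 (m := w161) (by decide +kernel) (ch2311 hTd) (tp2277 hTd)
lemma tp2279 (hTd : TdOK) : Good 0 ![w258, w12, w47, w257, w158, w97] :=
  split15 (m := w99) (by decide +kernel) (ch2310 hTd) (tp2278 hTd)
lemma tp2280 (hTd : TdOK) : Good 0 ![w256, w12, w47, w257, w158, w97] :=
  split01 (m := w258) (by decide +kernel) (tp2279 hTd) (ch2318 hTd)
lemma tp2281 (hTd : TdOK) : Good 0 ![w256, w12, w34, w257, w158, w97] :=
  split12 (m := w47) (by decide +kernel) (tp2272 hTd) (tp2280 hTd)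
lemma tp2282 (hTd : TdOK) : Good 0 ![w256, w12, w34, w255, w158, w97] :=
  split13 (m := w257) (by decide +kernel) (ch2301 hTd) (tp2281 hTd)
lemma tp2283 (hTd : TdOK) : Good 0 ![w256, w12, w34, w255, w158, w95] :=
  split25 (m := w97) (by decide +kernel) (tp2265 hTd) (tp2282 hTd)
lemma tp2284 (hTd : TdOK) : Good 0 ![w265, w12, w256, w257, w158, w98] :=
  split12 (m := w258) (by decide +kernel) (ch2321 hTd) (ch2322 hTd)
lemma tp2285 (hTd : TdOK) : Good 0 ![w265, w12, w256, w257, w158, w95] :=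
  split15 (m := w98) (by decide +kernel) (ch2320 hTd) (tp2284 hTd)
lemma tp2286 (hTd : TdOK) : Good 0 ![w265, w12, w256, w255, w158, w95] :=
  split13 (m := w257) (by decide +kernel) (ch2319 hTd) (tp2285 hTd)
lemma tp2287 (hTd : TdOK) : Good 0 ![w254, w12, w256, w255, w158, w95] :=
  split01 (m := w265) (by decide +kernel) (tp2286 hTd) (ch2323 hTd)
lemma tp2288 (hTd : TdOK) : Good 0 ![w254, w12, w34, w255, w158, w95] :=
  split02 (m := w256) (by decide +kernel) (tp2283 hTd) (tp2287 hTd)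
lemma tp2289 (hTd : TdOK) : Good 0 ![w254, w12, w34, w255, w30, w95] :=
  split14 (m := w158) (by decide +kernel) (ch2294 hTd) (tp2288 hTd)
lemma tp2290 (hTd : TdOK) : Good 0 ![w254, w12, w34, w253, w30, w95] :=
  split13 (m := w255) (by decide +kernel) (ch2293 hTd) (tp2289 hTd)
lemma tp2291 (hTd : TdOK) : Good 0 ![w254, w12, w34, w253, w30, w93] :=
  split15 (m := w95) (by decide +kernel) (ch2292 hTd) (tp2290 hTd)
lemma tp2292 (hTd : TdOK) : Good 0 ![w18, w12, w34, w253, w30, w93] :=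
  split01 (m := w254) (by decide +kernel) (tp2291 hTd) (ch2324 hTd)
lemma tp2293 (hTd : TdOK) : Good 0 ![w18, w12, w34, w253, w28, w93] :=
  split14 (m := w30) (by decide +kernel) (ch2291 hTd) (tp2292 hTd)
lemma tp2294 (hTd : TdOK) : Good 0 ![w18, w12, w34, w253, w28, w8] :=
  split15 (m := w93) (by decide +kernel) (ch2290 hTd) (tp2293 hTd)
lemma tp2295 (hTd : TdOK) : Good 0 ![w297, w12, w94, w255, w30, w267] :=
  split14 (m := w158) (by decide +kernel) (ch2329 hTd) (ch2330 hTd)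
lemma tp2296 (hTd : TdOK) : Good 0 ![w29, w12, w94, w255, w30, w267] :=
  split01 (m := w297) (by decide +kernel) (tp2295 hTd) (ch2331 hTd)
lemma tp2297 (hTd : TdOK) : Good 0 ![w29, w12, w94, w255, w30, w266] :=
  split15 (m := w267) (by decide +kernel) (ch2328 hTd) (tp2296 hTd)
lemma tp2298 (hTd : TdOK) : Good 0 ![w29, w12, w94, w253, w30, w266] :=
  split13 (m := w255) (by decide +kernel) (ch2327 hTd) (tp2297 hTd)
lemma tp2299 (hTd : TdOK) : Good 0 ![w29, w12, w94, w253, w30, w18] :=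
  split35 (m := w266) (by decide +kernel) (ch2326 hTd) (tp2298 hTd)
lemma tp2300 (hTd : TdOK) : Good 0 ![w299, w257, w34, w255, w158, w96] :=
  split02 (m := w300) (by decide +kernel) (ch2335 hTd) (ch2336 hTd)
lemma tp2301 (hTd : TdOK) : Good 0 ![w301, w52, w34, w259, w159, w100] :=
  split24 (m := w160) (by decide +kernel) (ch2340 hTd) (ch2341 hTd)
lemma tp2302 (hTd : TdOK) : Good 0 ![w300, w52, w34, w259, w159, w100] :=
  split02 (m := w301) (by decide +kernel) (tp2301 hTd) (ch2342 hTd)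
lemma tp2303 (hTd : TdOK) : Good 0 ![w300, w47, w34, w259, w159, w100] :=
  split12 (m := w52) (by decide +kernel) (tp2302 hTd) (ch2343 hTd)
lemma tp2304 (hTd : TdOK) : Good 0 ![w300, w47, w34, w259, w159, w96] :=
  split25 (m := w100) (by decide +kernel) (ch2339 hTd) (tp2303 hTd)
lemma tp2305 (hTd : TdOK) : Good 0 ![w300, w47, w34, w257, w159, w96] :=
  split23 (m := w259) (by decide +kernel) (ch2338 hTd) (tp2304 hTd)
lemma tp2306 (hTd : TdOK) : Good 0 ![w300, w47, w34, w257, w158, w96] :=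
  split24 (m := w159) (by decide +kernel) (ch2337 hTd) (tp2305 hTd)
lemma tp2307 (hTd : TdOK) : Good 0 ![w302, w262, w47, w257, w161, w102] :=
  split23 (m := w263) (by decide +kernel) (ch2346 hTd) (ch2347 hTd)
lemma tp2308 (hTd : TdOK) : Good 0 ![w302, w57, w162, w262, w303, w102] :=
  split15 (m := w271) (by decide +kernel) (ch2349 hTd) (ch2350 hTd)
lemma tp2309 (hTd : TdOK) : Good 0 ![w302, w57, w162, w262, w161, w102] :=
  split14 (m := w303) (by decide +kernel) (ch2348 hTd) (tp2308 hTd)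
lemma tp2310 (hTd : TdOK) : Good 0 ![w302, w57, w264, w262, w162, w271] :=
  split13 (m := w273) (by decide +kernel) (ch2352 hTd) (ch2353 hTd)
lemma tp2311 (hTd : TdOK) : Good 0 ![w302, w57, w264, w262, w162, w102] :=
  split15 (m := w271) (by decide +kernel) (ch2351 hTd) (tp2310 hTd)
lemma tp2312 (hTd : TdOK) : Good 0 ![w302, w57, w47, w262, w162, w102] :=
  split23 (m := w264) (by decide +kernel) (tp2311 hTd) (ch2354 hTd)
lemma tp2313 (hTd : TdOK) : Good 0 ![w302, w57, w47, w262, w161, w102] :=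
  split24 (m := w162) (by decide +kernel) (tp2309 hTd) (tp2312 hTd)
lemma tp2314 (hTd : TdOK) : Good 0 ![w302, w304, w57, w262, w161, w102] :=
  split24 (m := w303) (by decide +kernel) (ch2356 hTd) (ch2357 hTd)
lemma tp2315 (hTd : TdOK) : Good 0 ![w302, w12, w57, w262, w161, w102] :=
  split01 (m := w304) (by decide +kernel) (ch2355 hTd) (tp2314 hTd)
lemma tp2316 (hTd : TdOK) : Good 0 ![w302, w12, w47, w262, w161, w102] :=
  split12 (m := w57) (by decide +kernel) (tp2313 hTd) (tp2315 hTd)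
lemma tp2317 (hTd : TdOK) : Good 0 ![w302, w12, w47, w257, w161, w102] :=
  split13 (m := w262) (by decide +kernel) (tp2307 hTd) (tp2316 hTd)
lemma tp2318 (hTd : TdOK) : Good 0 ![w302, w12, w47, w257, w161, w96] :=
  split15 (m := w102) (by decide +kernel) (ch2345 hTd) (tp2317 hTd)
lemma tp2319 (hTd : TdOK) : Good 0 ![w302, w12, w47, w257, w158, w96] :=
  split14 (m := w161) (by decide +kernel) (ch2344 hTd) (tp2318 hTd)
lemma tp2320 (hTd : TdOK) : Good 0 ![w300, w302, w47, w257, w158, w96] :=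
  split24 (m := w305) (by decide +kernel) (ch2358 hTd) (ch2359 hTd)
lemma tp2321 (hTd : TdOK) : Good 0 ![w300, w12, w47, w257, w158, w96] :=
  split01 (m := w302) (by decide +kernel) (tp2319 hTd) (tp2320 hTd)
lemma tp2322 (hTd : TdOK) : Good 0 ![w300, w12, w34, w257, w158, w96] :=
  split12 (m := w47) (by decide +kernel) (tp2306 hTd) (tp2321 hTd)
lemma tp2323 (hTd : TdOK) : Good 0 ![w306, w12, w302, w257, w161, w102] :=
  split13 (m := w262) (by decide +kernel) (ch2363 hTd) (ch2364 hTd)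
lemma tp2324 (hTd : TdOK) : Good 0 ![w306, w12, w302, w257, w161, w96] :=
  split15 (m := w102) (by decide +kernel) (ch2362 hTd) (tp2323 hTd)
lemma tp2325 (hTd : TdOK) : Good 0 ![w306, w12, w302, w257, w158, w96] :=
  split14 (m := w161) (by decide +kernel) (ch2361 hTd) (tp2324 hTd)
lemma tp2326 (hTd : TdOK) : Good 0 ![w306, w12, w300, w257, w158, w96] :=
  split12 (m := w302) (by decide +kernel) (ch2360 hTd) (tp2325 hTd)
lemma tp2327 (hTd : TdOK) : Good 0 ![w299, w12, w300, w257, w158, w96] :=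
  split01 (m := w306) (by decide +kernel) (tp2326 hTd) (ch2365 hTd)
lemma tp2328 (hTd : TdOK) : Good 0 ![w299, w12, w34, w257, w158, w96] :=
  split02 (m := w300) (by decide +kernel) (tp2322 hTd) (tp2327 hTd)
lemma tp2329 (hTd : TdOK) : Good 0 ![w299, w12, w34, w255, w158, w96] :=
  split13 (m := w257) (by decide +kernel) (tp2300 hTd) (tp2328 hTd)
lemma tp2330 (hTd : TdOK) : Good 0 ![w299, w12, w34, w255, w158, w94] :=
  split15 (m := w96) (by decide +kernel) (ch2334 hTd) (tp2329 hTd)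
lemma tp2331 (hTd : TdOK) : Good 0 ![w299, w12, w34, w255, w30, w94] :=
  split14 (m := w158) (by decide +kernel) (ch2333 hTd) (tp2330 hTd)
lemma tp2332 (hTd : TdOK) : Good 0 ![w298, w12, w34, w255, w30, w94] :=
  split01 (m := w299) (by decide +kernel) (tp2331 hTd) (ch2366 hTd)
lemma tp2333 (hTd : TdOK) : Good 0 ![w298, w12, w34, w253, w30, w94] :=
  split13 (m := w255) (by decide +kernel) (ch2332 hTd) (tp2332 hTd)
lemma tp2334 (hTd : TdOK) : Good 0 ![w169, w12, w300, w306, w158, w96] :=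
  split12 (m := w302) (by decide +kernel) (ch2371 hTd) (ch2372 hTd)
lemma tp2335 (hTd : TdOK) : Good 0 ![w169, w12, w300, w299, w158, w96] :=
  split13 (m := w306) (by decide +kernel) (ch2370 hTd) (tp2334 hTd)
lemma tp2336 (hTd : TdOK) : Good 0 ![w170, w47, w34, w300, w159, w100] :=
  split12 (m := w52) (by decide +kernel) (ch2375 hTd) (ch2376 hTd)
lemma tp2337 (hTd : TdOK) : Good 0 ![w169, w47, w34, w300, w159, w100] :=
  split02 (m := w170) (by decide +kernel) (tp2336 hTd) (ch2377 hTd)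
lemma tp2338 (hTd : TdOK) : Good 0 ![w169, w47, w34, w300, w159, w96] :=
  split25 (m := w100) (by decide +kernel) (ch2374 hTd) (tp2337 hTd)
lemma tp2339 (hTd : TdOK) : Good 0 ![w169, w47, w34, w300, w158, w96] :=
  split24 (m := w159) (by decide +kernel) (ch2373 hTd) (tp2338 hTd)
lemma tp2340 (hTd : TdOK) : Good 0 ![w171, w57, w47, w302, w161, w102] :=
  split24 (m := w162) (by decide +kernel) (ch2381 hTd) (ch2382 hTd)
lemma tp2341 (hTd : TdOK) : Good 0 ![w171, w12, w47, w302, w161, w102] :=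
  split12 (m := w57) (by decide +kernel) (tp2340 hTd) (ch2383 hTd)
lemma tp2342 (hTd : TdOK) : Good 0 ![w169, w12, w47, w302, w161, w102] :=
  split01 (m := w171) (by decide +kernel) (tp2341 hTd) (ch2384 hTd)
lemma tp2343 (hTd : TdOK) : Good 0 ![w169, w12, w47, w302, w161, w96] :=
  split15 (m := w102) (by decide +kernel) (ch2380 hTd) (tp2342 hTd)
lemma tp2344 (hTd : TdOK) : Good 0 ![w169, w12, w47, w302, w158, w96] :=
  split14 (m := w161) (by decide +kernel) (ch2379 hTd) (tp2343 hTd)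
lemma tp2345 (hTd : TdOK) : Good 0 ![w169, w12, w47, w300, w158, w96] :=
  split13 (m := w302) (by decide +kernel) (ch2378 hTd) (tp2344 hTd)
lemma tp2346 (hTd : TdOK) : Good 0 ![w169, w12, w34, w300, w158, w96] :=
  split12 (m := w47) (by decide +kernel) (tp2339 hTd) (tp2345 hTd)
lemma tp2347 (hTd : TdOK) : Good 0 ![w169, w12, w34, w299, w158, w96] :=
  split23 (m := w300) (by decide +kernel) (tp2335 hTd) (tp2346 hTd)
lemma tp2348 (hTd : TdOK) : Good 0 ![w168, w12, w34, w299, w158, w96] :=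
  split01 (m := w169) (by decide +kernel) (tp2347 hTd) (ch2385 hTd)
lemma tp2349 (hTd : TdOK) : Good 0 ![w168, w12, w34, w299, w158, w94] :=
  split15 (m := w96) (by decide +kernel) (ch2369 hTd) (tp2348 hTd)
lemma tp2350 (hTd : TdOK) : Good 0 ![w168, w12, w34, w299, w30, w94] :=
  split14 (m := w158) (by decide +kernel) (ch2368 hTd) (tp2349 hTd)
lemma tp2351 (hTd : TdOK) : Good 0 ![w168, w12, w34, w298, w30, w94] :=
  split13 (m := w299) (by decide +kernel) (ch2367 hTd) (tp2350 hTd)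
lemma tp2352 (hTd : TdOK) : Good 0 ![w29, w12, w34, w298, w30, w94] :=
  split02 (m := w168) (by decide +kernel) (tp2351 hTd) (ch2386 hTd)
lemma tp2353 (hTd : TdOK) : Good 0 ![w29, w12, w34, w253, w30, w94] :=
  split03 (m := w298) (by decide +kernel) (tp2333 hTd) (tp2352 hTd)
lemma tp2354 (hTd : TdOK) : Good 0 ![w29, w12, w34, w253, w30, w18] :=
  split25 (m := w94) (by decide +kernel) (tp2299 hTd) (tp2353 hTd)
lemma tp2355 (hTd : TdOK) : Good 0 ![w29, w12, w34, w253, w28, w18] :=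
  split14 (m := w30) (by decide +kernel) (ch2325 hTd) (tp2354 hTd)
lemma tp2356 (hTd : TdOK) : Good 0 ![w277, w169, w34, w278, w168, w96] :=
  split24 (m := w173) (by decide +kernel) (ch2392 hTd) (ch2393 hTd)
lemma tp2357 (hTd : TdOK) : Good 0 ![w277, w169, w34, w267, w168, w96] :=
  split23 (m := w278) (by decide +kernel) (ch2391 hTd) (tp2356 hTd)
lemma tp2358 (hTd : TdOK) : Good 0 ![w280, w52, w34, w281, w170, w103] :=
  split24 (m := w172) (by decide +kernel) (ch2399 hTd) (ch2400 hTd)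
lemma tp2359 (hTd : TdOK) : Good 0 ![w280, w52, w34, w281, w170, w100] :=
  split25 (m := w103) (by decide +kernel) (ch2398 hTd) (tp2358 hTd)
lemma tp2360 (hTd : TdOK) : Good 0 ![w280, w47, w34, w281, w170, w100] :=
  split12 (m := w52) (by decide +kernel) (tp2359 hTd) (ch2401 hTd)
lemma tp2361 (hTd : TdOK) : Good 0 ![w280, w47, w34, w278, w170, w100] :=
  split23 (m := w281) (by decide +kernel) (ch2397 hTd) (tp2360 hTd)
lemma tp2362 (hTd : TdOK) : Good 0 ![w279, w47, w34, w278, w170, w100] :=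
  split02 (m := w280) (by decide +kernel) (tp2361 hTd) (ch2402 hTd)
lemma tp2363 (hTd : TdOK) : Good 0 ![w279, w47, w34, w278, w169, w100] :=
  split24 (m := w170) (by decide +kernel) (ch2396 hTd) (tp2362 hTd)
lemma tp2364 (hTd : TdOK) : Good 0 ![w279, w47, w34, w278, w169, w96] :=
  split25 (m := w100) (by decide +kernel) (ch2395 hTd) (tp2363 hTd)
lemma tp2365 (hTd : TdOK) : Good 0 ![w283, w12, w47, w282, w171, w102] :=
  split12 (m := w57) (by decide +kernel) (ch2406 hTd) (ch2407 hTd)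
lemma tp2366 (hTd : TdOK) : Good 0 ![w279, w12, w47, w282, w171, w102] :=
  split01 (m := w283) (by decide +kernel) (tp2365 hTd) (ch2408 hTd)
lemma tp2367 (hTd : TdOK) : Good 0 ![w279, w12, w47, w282, w169, w102] :=
  split14 (m := w171) (by decide +kernel) (ch2405 hTd) (tp2366 hTd)
lemma tp2368 (hTd : TdOK) : Good 0 ![w279, w12, w47, w282, w169, w96] :=
  split15 (m := w102) (by decide +kernel) (ch2404 hTd) (tp2367 hTd)
lemma tp2369 (hTd : TdOK) : Good 0 ![w279, w12, w47, w278, w169, w96] :=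
  split13 (m := w282) (by decide +kernel) (ch2403 hTd) (tp2368 hTd)
lemma tp2370 (hTd : TdOK) : Good 0 ![w279, w12, w34, w278, w169, w96] :=
  split12 (m := w47) (by decide +kernel) (tp2364 hTd) (tp2369 hTd)
lemma tp2371 (hTd : TdOK) : Good 0 ![w284, w280, w34, w281, w170, w100] :=
  split25 (m := w103) (by decide +kernel) (ch2412 hTd) (ch2413 hTd)
lemma tp2372 (hTd : TdOK) : Good 0 ![w284, w280, w34, w278, w170, w100] :=
  split23 (m := w281) (by decide +kernel) (ch2411 hTd) (tp2371 hTd)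
lemma tp2373 (hTd : TdOK) : Good 0 ![w284, w279, w34, w278, w170, w100] :=
  split12 (m := w280) (by decide +kernel) (tp2372 hTd) (ch2414 hTd)
lemma tp2374 (hTd : TdOK) : Good 0 ![w284, w279, w34, w278, w169, w100] :=
  split24 (m := w170) (by decide +kernel) (ch2410 hTd) (tp2373 hTd)
lemma tp2375 (hTd : TdOK) : Good 0 ![w277, w279, w34, w278, w169, w100] :=
  split02 (m := w284) (by decide +kernel) (tp2374 hTd) (ch2415 hTd)
lemma tp2376 (hTd : TdOK) : Good 0 ![w277, w279, w34, w278, w169, w96] :=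
  split25 (m := w100) (by decide +kernel) (ch2409 hTd) (tp2375 hTd)
lemma tp2377 (hTd : TdOK) : Good 0 ![w277, w12, w34, w278, w169, w96] :=
  split01 (m := w279) (by decide +kernel) (tp2370 hTd) (tp2376 hTd)
lemma tp2378 (hTd : TdOK) : Good 0 ![w277, w12, w34, w267, w169, w96] :=
  split23 (m := w278) (by decide +kernel) (ch2394 hTd) (tp2377 hTd)
lemma tp2379 (hTd : TdOK) : Good 0 ![w277, w12, w34, w267, w168, w96] :=
  split14 (m := w169) (by decide +kernel) (tp2357 hTd) (tp2378 hTd)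
lemma tp2380 (hTd : TdOK) : Good 0 ![w277, w12, w34, w267, w168, w94] :=
  split15 (m := w96) (by decide +kernel) (ch2390 hTd) (tp2379 hTd)
lemma tp2381 (hTd : TdOK) : Good 0 ![w276, w12, w34, w267, w168, w94] :=
  split02 (m := w277) (by decide +kernel) (tp2380 hTd) (ch2416 hTd)
lemma tp2382 (hTd : TdOK) : Good 0 ![w276, w12, w34, w266, w168, w94] :=
  split13 (m := w267) (by decide +kernel) (ch2389 hTd) (tp2381 hTd)
lemma tp2383 (hTd : TdOK) : Good 0 ![w276, w12, w34, w266, w29, w94] :=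
  split24 (m := w168) (by decide +kernel) (ch2388 hTd) (tp2382 hTd)
lemma tp2384 (hTd : TdOK) : Good 0 ![w276, w12, w34, w266, w29, w18] :=
  split25 (m := w94) (by decide +kernel) (ch2387 hTd) (tp2383 hTd)
lemma tp2385 (hTd : TdOK) : Good 0 ![w279, w12, w300, w306, w169, w278] :=
  split15 (m := w282) (by decide +kernel) (ch2423 hTd) (ch2424 hTd)
lemma tp2386 (hTd : TdOK) : Good 0 ![w279, w12, w300, w299, w169, w278] :=
  split13 (m := w306) (by decide +kernel) (ch2422 hTd) (tp2385 hTd)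
lemma tp2387 (hTd : TdOK) : Good 0 ![w277, w12, w300, w299, w169, w278] :=
  split01 (m := w279) (by decide +kernel) (tp2386 hTd) (ch2425 hTd)
lemma tp2388 (hTd : TdOK) : Good 0 ![w280, w52, w34, w301, w170, w281] :=
  split24 (m := w172) (by decide +kernel) (ch2429 hTd) (ch2430 hTd)
lemma tp2389 (hTd : TdOK) : Good 0 ![w280, w52, w34, w300, w170, w281] :=
  split23 (m := w301) (by decide +kernel) (ch2428 hTd) (tp2388 hTd)
lemma tp2390 (hTd : TdOK) : Good 0 ![w280, w47, w34, w300, w170, w281] :=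
  split12 (m := w52) (by decide +kernel) (tp2389 hTd) (ch2431 hTd)
lemma tp2391 (hTd : TdOK) : Good 0 ![w280, w47, w34, w300, w170, w278] :=
  split25 (m := w281) (by decide +kernel) (ch2427 hTd) (tp2390 hTd)
lemma tp2392 (hTd : TdOK) : Good 0 ![w279, w47, w34, w300, w170, w278] :=
  split02 (m := w280) (by decide +kernel) (tp2391 hTd) (ch2432 hTd)
lemma tp2393 (hTd : TdOK) : Good 0 ![w279, w47, w34, w300, w169, w278] :=
  split24 (m := w170) (by decide +kernel) (ch2426 hTd) (tp2392 hTd)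
lemma tp2394 (hTd : TdOK) : Good 0 ![w283, w12, w57, w302, w171, w282] :=
  split15 (m := w307) (by decide +kernel) (ch2437 hTd) (ch2438 hTd)
lemma tp2395 (hTd : TdOK) : Good 0 ![w283, w12, w47, w302, w171, w282] :=
  split12 (m := w57) (by decide +kernel) (ch2436 hTd) (tp2394 hTd)
lemma tp2396 (hTd : TdOK) : Good 0 ![w279, w12, w47, w302, w171, w282] :=
  split01 (m := w283) (by decide +kernel) (tp2395 hTd) (ch2439 hTd)
lemma tp2397 (hTd : TdOK) : Good 0 ![w279, w12, w47, w302, w169, w282] :=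
  split14 (m := w171) (by decide +kernel) (ch2435 hTd) (tp2396 hTd)
lemma tp2398 (hTd : TdOK) : Good 0 ![w279, w12, w47, w300, w169, w282] :=
  split13 (m := w302) (by decide +kernel) (ch2434 hTd) (tp2397 hTd)
lemma tp2399 (hTd : TdOK) : Good 0 ![w279, w12, w47, w300, w169, w278] :=
  split15 (m := w282) (by decide +kernel) (ch2433 hTd) (tp2398 hTd)
lemma tp2400 (hTd : TdOK) : Good 0 ![w279, w12, w34, w300, w169, w278] :=
  split12 (m := w47) (by decide +kernel) (tp2393 hTd) (tp2399 hTd)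
lemma tp2401 (hTd : TdOK) : Good 0 ![w284, w279, w34, w300, w170, w278] :=
  split12 (m := w280) (by decide +kernel) (ch2441 hTd) (ch2442 hTd)
lemma tp2402 (hTd : TdOK) : Good 0 ![w284, w279, w34, w300, w169, w278] :=
  split24 (m := w170) (by decide +kernel) (ch2440 hTd) (tp2401 hTd)
lemma tp2403 (hTd : TdOK) : Good 0 ![w277, w279, w34, w300, w169, w278] :=
  split02 (m := w284) (by decide +kernel) (tp2402 hTd) (ch2443 hTd)
lemma tp2404 (hTd : TdOK) : Good 0 ![w277, w12, w34, w300, w169, w278] :=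
  split01 (m := w279) (by decide +kernel) (tp2400 hTd) (tp2403 hTd)
lemma tp2405 (hTd : TdOK) : Good 0 ![w277, w12, w34, w299, w169, w278] :=
  split23 (m := w300) (by decide +kernel) (tp2387 hTd) (tp2404 hTd)
lemma tp2406 (hTd : TdOK) : Good 0 ![w277, w12, w34, w299, w169, w267] :=
  split25 (m := w278) (by decide +kernel) (ch2421 hTd) (tp2405 hTd)
lemma tp2407 (hTd : TdOK) : Good 0 ![w277, w12, w34, w299, w168, w267] :=
  split14 (m := w169) (by decide +kernel) (ch2420 hTd) (tp2406 hTd)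
lemma tp2408 (hTd : TdOK) : Good 0 ![w277, w12, w34, w298, w168, w267] :=
  split13 (m := w299) (by decide +kernel) (ch2419 hTd) (tp2407 hTd)
lemma tp2409 (hTd : TdOK) : Good 0 ![w276, w12, w34, w298, w168, w267] :=
  split02 (m := w277) (by decide +kernel) (tp2408 hTd) (ch2444 hTd)
lemma tp2410 (hTd : TdOK) : Good 0 ![w276, w12, w34, w298, w168, w266] :=
  split15 (m := w267) (by decide +kernel) (ch2418 hTd) (tp2409 hTd)
lemma tp2411 (hTd : TdOK) : Good 0 ![w276, w12, w34, w298, w29, w266] :=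
  split24 (m := w168) (by decide +kernel) (ch2417 hTd) (tp2410 hTd)
lemma tp2412 (hTd : TdOK) : Good 0 ![w277, w257, w34, w255, w299, w278] :=
  split24 (m := w300) (by decide +kernel) (ch2449 hTd) (ch2450 hTd)
lemma tp2413 (hTd : TdOK) : Good 0 ![w277, w257, w34, w255, w299, w267] :=
  split25 (m := w278) (by decide +kernel) (ch2448 hTd) (tp2412 hTd)
lemma tp2414 (hTd : TdOK) : Good 0 ![w279, w12, w282, w257, w306, w285] :=
  split01 (m := w283) (by decide +kernel) (ch2454 hTd) (ch2455 hTd)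
lemma tp2415 (hTd : TdOK) : Good 0 ![w279, w12, w278, w257, w306, w285] :=
  split12 (m := w282) (by decide +kernel) (ch2453 hTd) (tp2414 hTd)
lemma tp2416 (hTd : TdOK) : Good 0 ![w279, w12, w278, w257, w299, w285] :=
  split14 (m := w306) (by decide +kernel) (ch2452 hTd) (tp2415 hTd)
lemma tp2417 (hTd : TdOK) : Good 0 ![w279, w12, w278, w257, w299, w267] :=
  split15 (m := w285) (by decide +kernel) (ch2451 hTd) (tp2416 hTd)
lemma tp2418 (hTd : TdOK) : Good 0 ![w277, w12, w278, w257, w299, w267] :=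
  split01 (m := w279) (by decide +kernel) (tp2417 hTd) (ch2456 hTd)
lemma tp2419 (hTd : TdOK) : Good 0 ![w283, w12, w302, w257, w306, w282] :=
  split13 (m := w262) (by decide +kernel) (ch2460 hTd) (ch2461 hTd)
lemma tp2420 (hTd : TdOK) : Good 0 ![w279, w12, w302, w257, w306, w282] :=
  split01 (m := w283) (by decide +kernel) (tp2419 hTd) (ch2462 hTd)
lemma tp2421 (hTd : TdOK) : Good 0 ![w279, w12, w300, w257, w306, w282] :=
  split12 (m := w302) (by decide +kernel) (ch2459 hTd) (tp2420 hTd)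
lemma tp2422 (hTd : TdOK) : Good 0 ![w279, w12, w300, w257, w306, w278] :=
  split15 (m := w282) (by decide +kernel) (ch2458 hTd) (tp2421 hTd)
lemma tp2423 (hTd : TdOK) : Good 0 ![w279, w12, w300, w257, w299, w278] :=
  split14 (m := w306) (by decide +kernel) (ch2457 hTd) (tp2422 hTd)
lemma tp2424 (hTd : TdOK) : Good 0 ![w280, w52, w34, w259, w301, w281] :=
  split23 (m := w261) (by decide +kernel) (ch2466 hTd) (ch2467 hTd)
lemma tp2425 (hTd : TdOK) : Good 0 ![w280, w52, w34, w259, w300, w281] :=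
  split24 (m := w301) (by decide +kernel) (ch2465 hTd) (tp2424 hTd)
lemma tp2426 (hTd : TdOK) : Good 0 ![w280, w47, w34, w259, w300, w281] :=
  split12 (m := w52) (by decide +kernel) (tp2425 hTd) (ch2468 hTd)
lemma tp2427 (hTd : TdOK) : Good 0 ![w280, w47, w34, w259, w300, w278] :=
  split25 (m := w281) (by decide +kernel) (ch2464 hTd) (tp2426 hTd)
lemma tp2428 (hTd : TdOK) : Good 0 ![w279, w47, w34, w259, w300, w278] :=
  split02 (m := w280) (by decide +kernel) (tp2427 hTd) (ch2469 hTd)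
lemma tp2429 (hTd : TdOK) : Good 0 ![w279, w47, w34, w257, w300, w278] :=
  split23 (m := w259) (by decide +kernel) (ch2463 hTd) (tp2428 hTd)
lemma tp2430 (hTd : TdOK) : Good 0 ![w279, w282, w47, w257, w300, w278] :=
  split23 (m := w263) (by decide +kernel) (ch2470 hTd) (ch2471 hTd)
lemma tp2431 (hTd : TdOK) : Good 0 ![w283, w57, w264, w262, w302, w282] :=
  split13 (m := w273) (by decide +kernel) (ch2474 hTd) (ch2475 hTd)
lemma tp2432 (hTd : TdOK) : Good 0 ![w283, w57, w47, w262, w302, w282] :=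
  split23 (m := w264) (by decide +kernel) (tp2431 hTd) (ch2476 hTd)
lemma tp2433 (hTd : TdOK) : Good 0 ![w283, w307, w57, w262, w302, w282] :=
  split23 (m := w273) (by decide +kernel) (ch2477 hTd) (ch2478 hTd)
lemma tp2434 (hTd : TdOK) : Good 0 ![w283, w12, w57, w262, w302, w282] :=
  split15 (m := w307) (by decide +kernel) (tp2433 hTd) (ch2479 hTd)
lemma tp2435 (hTd : TdOK) : Good 0 ![w283, w12, w47, w262, w302, w282] :=
  split12 (m := w57) (by decide +kernel) (tp2432 hTd) (tp2434 hTd)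
lemma tp2436 (hTd : TdOK) : Good 0 ![w283, w12, w47, w257, w302, w282] :=
  split13 (m := w262) (by decide +kernel) (ch2473 hTd) (tp2435 hTd)
lemma tp2437 (hTd : TdOK) : Good 0 ![w279, w12, w47, w257, w302, w282] :=
  split01 (m := w283) (by decide +kernel) (tp2436 hTd) (ch2480 hTd)
lemma tp2438 (hTd : TdOK) : Good 0 ![w279, w12, w47, w257, w300, w282] :=
  split14 (m := w302) (by decide +kernel) (ch2472 hTd) (tp2437 hTd)
lemma tp2439 (hTd : TdOK) : Good 0 ![w279, w12, w47, w257, w300, w278] :=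
  split15 (m := w282) (by decide +kernel) (tp2430 hTd) (tp2438 hTd)
lemma tp2440 (hTd : TdOK) : Good 0 ![w279, w12, w34, w257, w300, w278] :=
  split12 (m := w47) (by decide +kernel) (tp2429 hTd) (tp2439 hTd)
lemma tp2441 (hTd : TdOK) : Good 0 ![w279, w12, w34, w257, w299, w278] :=
  split24 (m := w300) (by decide +kernel) (tp2423 hTd) (tp2440 hTd)
lemma tp2442 (hTd : TdOK) : Good 0 ![w277, w279, w34, w259, w300, w278] :=
  split02 (m := w284) (by decide +kernel) (ch2483 hTd) (ch2484 hTd)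
lemma tp2443 (hTd : TdOK) : Good 0 ![w277, w279, w34, w257, w300, w278] :=
  split23 (m := w259) (by decide +kernel) (ch2482 hTd) (tp2442 hTd)
lemma tp2444 (hTd : TdOK) : Good 0 ![w277, w279, w34, w257, w299, w278] :=
  split24 (m := w300) (by decide +kernel) (ch2481 hTd) (tp2443 hTd)
lemma tp2445 (hTd : TdOK) : Good 0 ![w277, w12, w34, w257, w299, w278] :=
  split01 (m := w279) (by decide +kernel) (tp2441 hTd) (tp2444 hTd)
lemma tp2446 (hTd : TdOK) : Good 0 ![w277, w12, w34, w257, w299, w267] :=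
  split25 (m := w278) (by decide +kernel) (tp2418 hTd) (tp2445 hTd)
lemma tp2447 (hTd : TdOK) : Good 0 ![w277, w12, w34, w255, w299, w267] :=
  split13 (m := w257) (by decide +kernel) (tp2413 hTd) (tp2446 hTd)
lemma tp2448 (hTd : TdOK) : Good 0 ![w277, w12, w34, w255, w298, w267] :=
  split14 (m := w299) (by decide +kernel) (ch2447 hTd) (tp2447 hTd)
lemma tp2449 (hTd : TdOK) : Good 0 ![w308, w12, w277, w257, w299, w267] :=
  split12 (m := w279) (by decide +kernel) (ch2487 hTd) (ch2488 hTd)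
lemma tp2450 (hTd : TdOK) : Good 0 ![w308, w12, w277, w255, w299, w267] :=
  split13 (m := w257) (by decide +kernel) (ch2486 hTd) (tp2449 hTd)
lemma tp2451 (hTd : TdOK) : Good 0 ![w276, w12, w277, w255, w299, w267] :=
  split01 (m := w308) (by decide +kernel) (tp2450 hTd) (ch2489 hTd)
lemma tp2452 (hTd : TdOK) : Good 0 ![w276, w12, w277, w255, w298, w267] :=
  split14 (m := w299) (by decide +kernel) (ch2485 hTd) (tp2451 hTd)
lemma tp2453 (hTd : TdOK) : Good 0 ![w276, w12, w34, w255, w298, w267] :=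
  split02 (m := w277) (by decide +kernel) (tp2448 hTd) (tp2452 hTd)
lemma tp2454 (hTd : TdOK) : Good 0 ![w276, w12, w34, w255, w298, w266] :=
  split15 (m := w267) (by decide +kernel) (ch2446 hTd) (tp2453 hTd)
lemma tp2455 (hTd : TdOK) : Good 0 ![w276, w12, w34, w253, w298, w266] :=
  split13 (m := w255) (by decide +kernel) (ch2445 hTd) (tp2454 hTd)
lemma tp2456 (hTd : TdOK) : Good 0 ![w276, w12, w34, w253, w29, w266] :=
  split34 (m := w298) (by decide +kernel) (tp2411 hTd) (tp2455 hTd)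
lemma tp2457 (hTd : TdOK) : Good 0 ![w276, w12, w34, w253, w29, w18] :=
  split35 (m := w266) (by decide +kernel) (tp2384 hTd) (tp2456 hTd)
lemma tp2458 (hTd : TdOK) : Good 0 ![w84, w100, w34, w277, w173, w104] :=
  split23 (m := w284) (by decide +kernel) (ch2495 hTd) (ch2496 hTd)
lemma tp2459 (hTd : TdOK) : Good 0 ![w84, w96, w34, w277, w173, w104] :=
  split12 (m := w100) (by decide +kernel) (tp2458 hTd) (ch2497 hTd)
lemma tp2460 (hTd : TdOK) : Good 0 ![w84, w96, w34, w277, w168, w104] :=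
  split24 (m := w173) (by decide +kernel) (ch2494 hTd) (tp2459 hTd)
lemma tp2461 (hTd : TdOK) : Good 0 ![w84, w96, w34, w277, w168, w94] :=
  split25 (m := w104) (by decide +kernel) (ch2493 hTd) (tp2460 hTd)
lemma tp2462 (hTd : TdOK) : Good 0 ![w87, w170, w34, w284, w173, w100] :=
  split24 (m := w174) (by decide +kernel) (ch2501 hTd) (ch2502 hTd)
lemma tp2463 (hTd : TdOK) : Good 0 ![w84, w170, w34, w284, w173, w100] :=
  split02 (m := w87) (by decide +kernel) (tp2462 hTd) (ch2503 hTd)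
lemma tp2464 (hTd : TdOK) : Good 0 ![w84, w169, w34, w284, w173, w100] :=
  split12 (m := w170) (by decide +kernel) (tp2463 hTd) (ch2504 hTd)
lemma tp2465 (hTd : TdOK) : Good 0 ![w84, w169, w34, w277, w173, w100] :=
  split23 (m := w284) (by decide +kernel) (ch2500 hTd) (tp2464 hTd)
lemma tp2466 (hTd : TdOK) : Good 0 ![w84, w169, w34, w277, w173, w96] :=
  split25 (m := w100) (by decide +kernel) (ch2499 hTd) (tp2465 hTd)
lemma tp2467 (hTd : TdOK) : Good 0 ![w84, w169, w34, w277, w168, w96] :=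
  split24 (m := w173) (by decide +kernel) (ch2498 hTd) (tp2466 hTd)
lemma tp2468 (hTd : TdOK) : Good 0 ![w87, w52, w34, w284, w170, w103] :=
  split24 (m := w172) (by decide +kernel) (ch2509 hTd) (ch2510 hTd)
lemma tp2469 (hTd : TdOK) : Good 0 ![w87, w52, w34, w284, w170, w100] :=
  split25 (m := w103) (by decide +kernel) (ch2508 hTd) (tp2468 hTd)
lemma tp2470 (hTd : TdOK) : Good 0 ![w87, w47, w52, w284, w170, w100] :=
  split13 (m := w280) (by decide +kernel) (ch2511 hTd) (ch2512 hTd)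
lemma tp2471 (hTd : TdOK) : Good 0 ![w87, w47, w34, w284, w170, w100] :=
  split12 (m := w52) (by decide +kernel) (tp2469 hTd) (tp2470 hTd)
lemma tp2472 (hTd : TdOK) : Good 0 ![w84, w47, w34, w284, w170, w100] :=
  split02 (m := w87) (by decide +kernel) (tp2471 hTd) (ch2513 hTd)
lemma tp2473 (hTd : TdOK) : Good 0 ![w84, w47, w34, w284, w169, w100] :=
  split24 (m := w170) (by decide +kernel) (ch2507 hTd) (tp2472 hTd)
lemma tp2474 (hTd : TdOK) : Good 0 ![w84, w47, w34, w277, w169, w100] :=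
  split23 (m := w284) (by decide +kernel) (ch2506 hTd) (tp2473 hTd)
lemma tp2475 (hTd : TdOK) : Good 0 ![w84, w47, w34, w277, w169, w96] :=
  split25 (m := w100) (by decide +kernel) (ch2505 hTd) (tp2474 hTd)
lemma tp2476 (hTd : TdOK) : Good 0 ![w91, w57, w47, w283, w171, w105] :=
  split24 (m := w175) (by decide +kernel) (ch2519 hTd) (ch2520 hTd)
lemma tp2477 (hTd : TdOK) : Good 0 ![w91, w57, w47, w283, w171, w102] :=
  split25 (m := w105) (by decide +kernel) (ch2518 hTd) (tp2476 hTd)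
lemma tp2478 (hTd : TdOK) : Good 0 ![w91, w12, w47, w283, w171, w102] :=
  split12 (m := w57) (by decide +kernel) (tp2477 hTd) (ch2521 hTd)
lemma tp2479 (hTd : TdOK) : Good 0 ![w90, w12, w47, w283, w171, w102] :=
  split01 (m := w91) (by decide +kernel) (tp2478 hTd) (ch2522 hTd)
lemma tp2480 (hTd : TdOK) : Good 0 ![w90, w12, w47, w279, w171, w102] :=
  split13 (m := w283) (by decide +kernel) (ch2517 hTd) (tp2479 hTd)
lemma tp2481 (hTd : TdOK) : Good 0 ![w90, w12, w47, w279, w169, w102] :=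
  split14 (m := w171) (by decide +kernel) (ch2516 hTd) (tp2480 hTd)
lemma tp2482 (hTd : TdOK) : Good 0 ![w90, w12, w47, w279, w169, w96] :=
  split15 (m := w102) (by decide +kernel) (ch2515 hTd) (tp2481 hTd)
lemma tp2483 (hTd : TdOK) : Good 0 ![w84, w12, w47, w279, w169, w96] :=
  split01 (m := w90) (by decide +kernel) (tp2482 hTd) (ch2523 hTd)
lemma tp2484 (hTd : TdOK) : Good 0 ![w84, w12, w47, w277, w169, w96] :=
  split13 (m := w279) (by decide +kernel) (ch2514 hTd) (tp2483 hTd)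
lemma tp2485 (hTd : TdOK) : Good 0 ![w84, w12, w34, w277, w169, w96] :=
  split12 (m := w47) (by decide +kernel) (tp2475 hTd) (tp2484 hTd)
lemma tp2486 (hTd : TdOK) : Good 0 ![w84, w12, w34, w277, w168, w96] :=
  split14 (m := w169) (by decide +kernel) (tp2467 hTd) (tp2485 hTd)
lemma tp2487 (hTd : TdOK) : Good 0 ![w84, w12, w34, w277, w168, w94] :=
  split15 (m := w96) (by decide +kernel) (tp2461 hTd) (tp2486 hTd)
lemma tp2488 (hTd : TdOK) : Good 0 ![w83, w12, w34, w277, w168, w94] :=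
  split02 (m := w84) (by decide +kernel) (tp2487 hTd) (ch2524 hTd)
lemma tp2489 (hTd : TdOK) : Good 0 ![w83, w12, w34, w276, w168, w94] :=
  split23 (m := w277) (by decide +kernel) (ch2492 hTd) (tp2488 hTd)
lemma tp2490 (hTd : TdOK) : Good 0 ![w83, w12, w34, w276, w29, w94] :=
  split24 (m := w168) (by decide +kernel) (ch2491 hTd) (tp2489 hTd)
lemma tp2491 (hTd : TdOK) : Good 0 ![w83, w12, w34, w276, w29, w18] :=
  split25 (m := w94) (by decide +kernel) (ch2490 hTd) (tp2490 hTd)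
lemma tp2492 (hTd : TdOK) : Good 0 ![w0, w12, w34, w276, w29, w18] :=
  split02 (m := w83) (by decide +kernel) (tp2491 hTd) (ch2525 hTd)
lemma tp2493 (hTd : TdOK) : Good 0 ![w0, w12, w34, w253, w29, w18] :=
  split03 (m := w276) (by decide +kernel) (tp2457 hTd) (tp2492 hTd)
lemma tp2494 (hTd : TdOK) : Good 0 ![w0, w12, w34, w253, w28, w18] :=
  split04 (m := w29) (by decide +kernel) (tp2355 hTd) (tp2493 hTd)
lemma tp2495 (hTd : TdOK) : Good 0 ![w0, w12, w34, w253, w28, w8] :=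
  split05 (m := w18) (by decide +kernel) (tp2294 hTd) (tp2494 hTd)

end Pool.Agent.H999.Ep3
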